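import Pool.Agent.LibF4.Defs
import Pool.Agent.LibM3.A2
import Pool.Agent.LibM3.E3
import Pool.Agent.LibZM.CS1
import Pool.Agent.LibZM.Asymp2

/-! Fourth moment, block M, row M21. -/

set_option autoImplicit false

namespace Pool.Agent.LibF4

open MeasureTheory Set Filter Topology Complex
open scoped ComplexConjugate
open Pool.Agent.LibM3 Pool.Agent.LibZM

theorem m21_int {s b : ℝ} (hs : -1 < s) (hb : 0 < b) :
    IntegrableOn (fun x : ℝ => x ^ s * Real.exp (-(b * x))) (Ioi 0) := by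
  have h := integrableOn_rpow_mul_exp_neg_mul_rpow (p := 1) hs one_pos hb
  refine h.congr_fun (fun x _ => ?_) measurableSet_Ioi
  show x ^ s * Real.exp (-b * x ^ (1:ℝ)) = x ^ s * Real.exp (-(b * x))
  rw [Real.rpow_one, neg_mul]

theorem m21_meas (a p : ℂ) : AEStronglyMeasurable (fun t : ℝ => (t:ℂ) ^ a * cexp (-(p * t)))
    (volume.restrict (Ioi 0)) := by
  refine ContinuousOn.aestronglyMeasurable ?_ measurableSet_Ioi
  refine ContinuousOn.mul ?_ (by fun_prop)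
  intro t ht
  exact (Complex.continuousAt_ofReal_cpow_const _ _ (Or.inr (ne_of_gt ht))).continuousWithinAt

theorem m21_norm (a p : ℂ) {t : ℝ} (ht : 0 < t) :
    ‖(t:ℂ) ^ a * cexp (-(p * t))‖ = t ^ a.re * Real.exp (-(p.re * t)) := by
  rw [norm_mul, Complex.norm_cpow_eq_rpow_re_of_pos ht, Complex.norm_exp]
  congr 2
  simp

theorem m21_intC {a p : ℂ} (ha : 0 < a.re) (hp : 0 < p.re) :
    IntegrableOn (fun t : ℝ => (t:ℂ) ^ (a - 1) * cexp (-(p * t))) (Ioi 0) := by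
  have h := m21_int (s := (a - 1).re) (b := p.re) (by simp; linarith) hp
  refine Integrable.mono' h (m21_meas _ _) ?_
  filter_upwards [ae_restrict_mem measurableSet_Ioi] with t ht
  exact (m21_norm (a - 1) p ht).le

theorem m21_deriv {a p : ℂ} (ha : 0 < a.re) (hp : 0 < p.re) :
    DifferentiableAt ℂ (fun q : ℂ => ∫ t : ℝ in Ioi 0, (t:ℂ) ^ (a - 1) * cexp (-(q * t))) p := by
  have hs : {q : ℂ | p.re / 2 < q.re} ∈ 𝓝 p :=
    (isOpen_lt continuous_const Complex.continuous_re).mem_nhds (by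
      show p.re / 2 < p.re
      linarith)
  have key := hasDerivAt_integral_of_dominated_loc_of_deriv_le (μ := volume.restrict (Ioi (0:ℝ)))
    (F := fun (q : ℂ) (t : ℝ) => (t:ℂ) ^ (a - 1) * cexp (-(q * t)))
    (F' := fun (q : ℂ) (t : ℝ) => -((t:ℂ) ^ a * cexp (-(q * t))))
    (bound := fun t : ℝ => t ^ a.re * Real.exp (-(p.re / 2 * t))) hs
    (Eventually.of_forall fun q => m21_meas _ _) (m21_intC ha hp)
    (m21_meas _ _).neg ?_ (m21_int (by linarith) (by linarith)) ?_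
  · exact key.2.differentiableAt
  · filter_upwards [ae_restrict_mem measurableSet_Ioi] with t ht q hq
    have ht' : 0 < t := ht
    have hq' : p.re / 2 < q.re := hq
    rw [norm_neg, m21_norm a q ht']
    refine mul_le_mul_of_nonneg_left ?_ (Real.rpow_nonneg ht'.le _)
    refine Real.exp_le_exp.2 ?_
    nlinarith
  · filter_upwards [ae_restrict_mem measurableSet_Ioi] with t ht q hq
    have ht' : (t:ℂ) ≠ 0 := by exact_mod_cast (ne_of_gt (show (0:ℝ) < t from ht))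
    have h1 : HasDerivAt (fun q : ℂ => cexp (-(q * t))) (cexp (-(q * t)) * (-(1 * (t:ℂ)))) q :=
      ((hasDerivAt_id q).mul_const (t:ℂ)).neg.cexp
    have h2 := h1.const_mul ((t:ℂ) ^ (a - 1))
    refine h2.congr_deriv ?_
    have h3 : (t:ℂ) ^ a = (t:ℂ) ^ (a - 1) * t := by
      rw [Complex.cpow_sub _ _ ht', Complex.cpow_one, div_mul_cancel₀ _ ht']
    rw [h3]
    ring

theorem m21_gamma {a p : ℂ} (ha : 0 < a.re) (hp : 0 < p.re) :
    ∫ t : ℝ in Ioi 0, (t:ℂ) ^ (a - 1) * cexp (-(p * t)) = p ^ (-a) * Complex.Gamma a := by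
  set U : Set ℂ := {q : ℂ | 0 < q.re} with hU
  have hUo : IsOpen U := isOpen_lt continuous_const Complex.continuous_re
  have hf : AnalyticOnNhd ℂ (fun q : ℂ => ∫ t : ℝ in Ioi 0, (t:ℂ) ^ (a - 1) * cexp (-(q * t))) U :=
    DifferentiableOn.analyticOnNhd (fun q hq => (m21_deriv ha hq).differentiableWithinAt) hUo
  have hg : AnalyticOnNhd ℂ (fun q : ℂ => q ^ (-a) * Complex.Gamma a) U := by
    refine DifferentiableOn.analyticOnNhd (fun q hq => ?_) hUo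
    have hq' : q ∈ Complex.slitPlane := Or.inl hq
    exact ((differentiableAt_id.cpow_const hq').mul_const _).differentiableWithinAt
  have hpre : IsPreconnected U := (convex_halfSpace_re_gt 0).isPreconnected
  have h1 : (1:ℂ) ∈ U := by
    show 0 < (1:ℂ).re
    simp
  have hfreq : ∃ᶠ z in 𝓝[≠] (1:ℂ),
      (∫ t : ℝ in Ioi 0, (t:ℂ) ^ (a - 1) * cexp (-(z * t))) = z ^ (-a) * Complex.Gamma a := by
    have ht : Tendsto (fun x : ℝ => (x:ℂ)) (𝓝[>] (1:ℝ)) (𝓝[≠] (1:ℂ)) := by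
      refine tendsto_nhdsWithin_iff.2 ⟨?_, ?_⟩
      · have hc : Tendsto (fun x : ℝ => (x:ℂ)) (𝓝 (1:ℝ)) (𝓝 ((1:ℝ):ℂ)) :=
          Complex.continuous_ofReal.tendsto 1
        rw [Complex.ofReal_one] at hc
        exact hc.mono_left nhdsWithin_le_nhds
      · filter_upwards [self_mem_nhdsWithin] with x hx
        have hx' : (1:ℝ) < x := hx
        show (x:ℂ) ≠ 1
        exact_mod_cast hx'.ne'
    refine ht.frequently (Eventually.frequently ?_)
    filter_upwards [self_mem_nhdsWithin] with x hx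
    have hx0 : (0:ℝ) < x := lt_trans one_pos hx
    rw [Complex.integral_cpow_mul_exp_neg_mul_Ioi ha hx0]
    congr 1
    rw [one_div, Complex.cpow_neg, ← Complex.ofReal_inv, Complex.ofReal_inv, Complex.inv_cpow]
    rw [Complex.arg_ofReal_of_nonneg hx0.le]
    exact Real.pi_pos.ne
  exact AnalyticOnNhd.eqOn_of_preconnected_of_frequently_eq hf hg hpre h1 hfreq hp

/-- the joint integrand -/
noncomputable def m21_F (j : ℕ) (Λ : ℝ) (p : ℂ) (c : ℝ) (x y : ℝ) : ℂ :=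
  (x:ℂ) ^ j * cexp (-(p * x)) *
    (cexp (((c:ℂ) + y * I) ^ 2 + ((c:ℂ) + y * I) * ((Real.log (Λ * x) : ℝ) : ℂ)) / ((c:ℂ) + y * I))

theorem m21_w {c : ℝ} (hc : 0 < c) (y : ℝ) : ((c:ℂ) + y * I) ≠ 0 := by
  intro h
  have h1 := congrArg Complex.re h
  simp at h1
  exact hc.ne' h1

theorem m21_wnorm {c : ℝ} (hc : 0 < c) (y : ℝ) : c ≤ ‖(c:ℂ) + y * I‖ := by
  have h1 := Complex.abs_re_le_norm ((c:ℂ) + y * I)
  have h2 : ((c:ℂ) + y * I).re = c := by simp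
  rw [h2, abs_of_pos hc] at h1
  exact h1

theorem m21_Fnorm (j : ℕ) {Λ : ℝ} (hΛ : 0 < Λ) (p : ℂ) {c : ℝ} (hc : 0 < c) {x : ℝ} (hx : 0 < x) (y : ℝ) :
    ‖m21_F j Λ p c x y‖ ≤
      (Λ ^ c * (x ^ ((j:ℝ) + c) * Real.exp (-(p.re * x)))) * (1 / c * Real.exp (c ^ 2) * Real.exp (-1 * y ^ 2)) := by
  have h1 : ‖cexp (((c:ℂ) + y * I) ^ 2 + ((c:ℂ) + y * I) * ((Real.log (Λ * x) : ℝ) : ℂ))‖ =
      Real.exp (c ^ 2) * Real.exp (-1 * y ^ 2) * (Λ ^ c * x ^ c) := by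
    rw [Complex.norm_exp, ← Real.mul_rpow hΛ.le hx.le, Real.rpow_def_of_pos (by positivity), ← Real.exp_add,
      ← Real.exp_add]
    congr 1
    have h2 : (((c:ℂ) + y * I) ^ 2).re = c ^ 2 - y ^ 2 := by
      rw [pow_two]
      simp
      ring
    rw [Complex.add_re, h2, Complex.re_mul_ofReal]
    simp
    ring
  have h3 : ‖(x:ℂ) ^ j * cexp (-(p * x))‖ = x ^ (j:ℝ) * Real.exp (-(p.re * x)) := by
    rw [norm_mul, norm_pow, Complex.norm_real, Real.norm_of_nonneg hx.le, Complex.norm_exp, Real.rpow_natCast]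
    congr 2
    simp
  rw [m21_F, norm_mul, h3, norm_div, h1, Real.rpow_add hx]
  have h4 := m21_wnorm hc y
  have h5 : Real.exp (c ^ 2) * Real.exp (-1 * y ^ 2) * (Λ ^ c * x ^ c) / ‖(c:ℂ) + y * I‖ ≤
      Real.exp (c ^ 2) * Real.exp (-1 * y ^ 2) * (Λ ^ c * x ^ c) / c :=
    div_le_div_of_nonneg_left (by positivity) hc h4
  have h6 : 0 ≤ x ^ (j:ℝ) * Real.exp (-(p.re * x)) := by positivity
  refine (mul_le_mul_of_nonneg_left h5 h6).trans (le_of_eq ?_)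
  field_simp

theorem m21_Fint (j : ℕ) {Λ : ℝ} (hΛ : 0 < Λ) {p : ℂ} (hp : 0 < p.re) {c : ℝ} (hc : 0 < c) :
    Integrable (Function.uncurry (m21_F j Λ p c)) ((volume.restrict (Ioi (0:ℝ))).prod volume) := by
  have h1 : Integrable (fun z : ℝ × ℝ =>
      (Λ ^ c * (z.1 ^ ((j:ℝ) + c) * Real.exp (-(p.re * z.1)))) *
        (1 / c * Real.exp (c ^ 2) * Real.exp (-1 * z.2 ^ 2)))
      ((volume.restrict (Ioi (0:ℝ))).prod volume) := by
    refine Integrable.mul_prod (f := fun x : ℝ => Λ ^ c * (x ^ ((j:ℝ) + c) * Real.exp (-(p.re * x))))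
      (g := fun y : ℝ => 1 / c * Real.exp (c ^ 2) * Real.exp (-1 * y ^ 2)) ?_ ?_
    · have hj : (0:ℝ) ≤ j := Nat.cast_nonneg j
      exact (m21_int (by linarith) hp).const_mul _
    · exact (integrable_exp_neg_mul_sq one_pos).const_mul _
  refine h1.mono' ?_ ?_
  · have hm : Measurable (Function.uncurry (m21_F j Λ p c)) := by
      unfold m21_F Function.uncurry
      fun_prop
    exact hm.aestronglyMeasurable
  · have hae : ∀ᵐ z : ℝ × ℝ ∂((volume.restrict (Ioi (0:ℝ))).prod volume), 0 < z.1 := by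
      have h2 : ∀ᵐ x : ℝ ∂(volume.restrict (Ioi (0:ℝ))), 0 < x := ae_restrict_mem measurableSet_Ioi
      exact Measure.quasiMeasurePreserving_fst.ae h2
    filter_upwards [hae] with z hz
    exact m21_Fnorm j hΛ p hc hz z.2

theorem m21_Fx (j : ℕ) {Λ : ℝ} (hΛ : 0 < Λ) {p : ℂ} (hp : 0 < p.re) {c : ℝ} (hc : 0 < c) (y : ℝ) :
    ∫ x : ℝ in Ioi 0, m21_F j Λ p c x y = cexp (((c:ℂ) + y * I) ^ 2) * (Λ:ℂ) ^ ((c:ℂ) + y * I) *
      Complex.Gamma (1 + j + ((c:ℂ) + y * I)) * p ^ (-(1 + j + ((c:ℂ) + y * I))) / ((c:ℂ) + y * I) := by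
  have hΛ' : (Λ:ℂ) ≠ 0 := by exact_mod_cast hΛ.ne'
  have h1 : ∀ x ∈ Ioi (0:ℝ), m21_F j Λ p c x y =
      (cexp (((c:ℂ) + y * I) ^ 2) * (Λ:ℂ) ^ ((c:ℂ) + y * I) / ((c:ℂ) + y * I)) *
        ((x:ℂ) ^ ((1 + j + ((c:ℂ) + y * I)) - 1) * cexp (-(p * x))) := by
    intro x hx
    have hx0 : (0:ℝ) < x := hx
    have hx' : (x:ℂ) ≠ 0 := by exact_mod_cast hx0.ne'
    have h2 : (1 + (j:ℂ) + ((c:ℂ) + y * I)) - 1 = (j:ℂ) + ((c:ℂ) + y * I) := by ring
    rw [h2, Complex.cpow_add _ _ hx', Complex.cpow_natCast]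
    have h3 : (x:ℂ) ^ ((c:ℂ) + y * I) = cexp (((c:ℂ) + y * I) * ((Real.log x : ℝ) : ℂ)) := by
      rw [Complex.cpow_def_of_ne_zero hx', Complex.ofReal_log hx0.le, mul_comm]
    have h4 : (Λ:ℂ) ^ ((c:ℂ) + y * I) = cexp (((c:ℂ) + y * I) * ((Real.log Λ : ℝ) : ℂ)) := by
      rw [Complex.cpow_def_of_ne_zero hΛ', Complex.ofReal_log hΛ.le, mul_comm]
    rw [m21_F, Real.log_mul hΛ.ne' hx0.ne', Complex.ofReal_add, mul_add, Complex.exp_add, Complex.exp_add,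
      h3, h4]
    ring
  rw [setIntegral_congr_fun measurableSet_Ioi h1, integral_const_mul, m21_gamma ?_ hp]
  · ring
  · have hj : (0:ℝ) ≤ j := Nat.cast_nonneg j
    simp
    linarith

theorem m21_Fy (j : ℕ) {Λ : ℝ} (p : ℂ) {c : ℝ} (hc : 0 < c) (x : ℝ) :
    ((1 / (2 * Real.pi) : ℝ) : ℂ) * ∫ y : ℝ, m21_F j Λ p c x y =
      (((x ^ j * kp (Λ * x) : ℝ)) : ℂ) * cexp (-(p * x)) := by
  have h1 := (Ph_eq_integral 0 (Real.log (Λ * x)) hc).2
  rw [Ph_zero] at h1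
  simp only [Complex.ofReal_zero, zero_mul, add_zero] at h1
  unfold m21_F
  rw [integral_const_mul, kp, Complex.ofReal_mul, ← h1, Complex.ofReal_pow]
  ring

theorem Jkj_formula (j : ℕ) {Λ : ℝ} (hΛ : 0 < Λ) {p : ℂ} (hp : 0 < p.re) {c : ℝ} (hc : 0 < c) :
    Integrable (fun y : ℝ => cexp (((c:ℂ) + y * I) ^ 2) * (Λ:ℂ) ^ ((c:ℂ) + y * I) *
      Complex.Gamma (1 + j + ((c:ℂ) + y * I)) * p ^ (-(1 + j + ((c:ℂ) + y * I))) / ((c:ℂ) + y * I)) ∧
    Jkj j Λ p = ((1 / (2 * Real.pi) : ℝ) : ℂ) * ∫ y : ℝ, cexp (((c:ℂ) + y * I) ^ 2) * (Λ:ℂ) ^ ((c:ℂ) + y * I) *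
      Complex.Gamma (1 + j + ((c:ℂ) + y * I)) * p ^ (-(1 + j + ((c:ℂ) + y * I))) / ((c:ℂ) + y * I) := by
  have hF := m21_Fint j hΛ hp hc
  constructor
  · have h1 := hF.integral_prod_right
    refine h1.congr (Eventually.of_forall fun y => ?_)
    exact m21_Fx j hΛ hp hc y
  · have h2 := integral_integral_swap hF
    simp only [m21_Fx j hΛ hp hc] at h2
    rw [← h2, ← integral_const_mul, Jkj]
    refine setIntegral_congr_fun measurableSet_Ioi fun x _ => ?_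
    exact (m21_Fy j p hc x).symm

end Pool.Agent.LibF4
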