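import Pool.Agent.LibF4.Defs
import Pool.Agent.LibM3.A2
import Pool.Agent.LibM3.E3
import Pool.Agent.LibZM.CS1
import Pool.Agent.LibZM.Asymp2
import Pool.Agent.LibF4.M21

/-! Fourth moment, block M, row M22. -/

set_option autoImplicit false

namespace Pool.Agent.LibF4

open MeasureTheory Set Filter Topology Complex
open scoped ComplexConjugate
open Pool.Agent.LibM3 Pool.Agent.LibZM

theorem m22_norm_Gamma_le {s : ℂ} (hs : 0 < s.re) : ‖Complex.Gamma s‖ ≤ Real.Gamma s.re := by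
  rw [Complex.Gamma_eq_integral hs, Real.Gamma_eq_integral hs, Complex.GammaIntegral]
  refine (norm_integral_le_integral_norm _).trans (le_of_eq ?_)
  refine setIntegral_congr_fun measurableSet_Ioi fun x hx => ?_
  have hx' : (0:ℝ) < x := hx
  rw [norm_mul, Complex.norm_cpow_eq_rpow_re_of_pos hx', Complex.norm_real, Real.norm_eq_abs, abs_of_pos (Real.exp_pos _)]
  simp

theorem m22_gauss (K : ℝ) : Integrable (fun y : ℝ => K * Real.exp (-(1/2) * y ^ 2)) :=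
  (integrable_exp_neg_mul_sq (by norm_num : (0:ℝ) < 1/2)).const_mul K

theorem m22_pt (j : ℕ) {c : ℝ} (hc : 0 < c) {Λ : ℝ} (hΛ : 0 < Λ) {p : ℂ} (hp : 0 < p.re) (y : ℝ) :
    ‖cexp (((c:ℂ) + y * I) ^ 2) * (Λ:ℂ) ^ ((c:ℂ) + y * I) *
      Complex.Gamma (1 + j + ((c:ℂ) + y * I)) * p ^ (-(1 + j + ((c:ℂ) + y * I))) / ((c:ℂ) + y * I)‖
    ≤ Λ ^ c * ‖p‖ ^ (-(1 + j + c)) * (Real.Gamma (1 + j + c) / c * Real.exp (c ^ 2 + Real.pi ^ 2 / 8) *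
      Real.exp (-(1/2) * y ^ 2)) := by
  have hp0 : p ≠ 0 := by
    intro h
    rw [h] at hp
    simp at hp
  have hpn : 0 < ‖p‖ := norm_pos_iff.2 hp0
  have h1 : ‖cexp (((c:ℂ) + y * I) ^ 2)‖ = Real.exp (c ^ 2 - y ^ 2) := by
    rw [Complex.norm_exp]
    congr 1
    simp [pow_two]
  have h2 : ‖(Λ:ℂ) ^ ((c:ℂ) + y * I)‖ = Λ ^ c := by
    rw [Complex.norm_cpow_eq_rpow_re_of_pos hΛ]
    simp
  have hre : (1 + j + ((c:ℂ) + y * I)).re = 1 + j + c := by simp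
  have hG0 : 0 < Real.Gamma (1 + j + c) := Real.Gamma_pos_of_pos (by positivity)
  have h3 : ‖Complex.Gamma (1 + j + ((c:ℂ) + y * I))‖ ≤ Real.Gamma (1 + j + c) := by
    have := m22_norm_Gamma_le (s := 1 + j + ((c:ℂ) + y * I)) (by rw [hre]; positivity)
    rwa [hre] at this
  have harg : |Complex.arg p| ≤ Real.pi / 2 := Complex.abs_arg_le_pi_div_two_iff.2 hp.le
  have h4 : ‖p ^ (-(1 + j + ((c:ℂ) + y * I)))‖ ≤ ‖p‖ ^ (-(1 + j + c)) * Real.exp (Real.pi / 2 * |y|) := by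
    rw [Complex.norm_cpow_of_ne_zero hp0]
    have e1 : (-(1 + j + ((c:ℂ) + y * I))).re = -(1 + j + c) := by
      rw [Complex.neg_re, hre]
    have e2 : (-(1 + j + ((c:ℂ) + y * I))).im = -y := by simp
    rw [e1, e2, div_eq_mul_inv, ← Real.exp_neg]
    apply mul_le_mul_of_nonneg_left _ (by positivity)
    apply Real.exp_le_exp.2
    have : Complex.arg p * y ≤ |Complex.arg p| * |y| := by
      rw [← abs_mul]
      exact le_abs_self _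
    have h5 : |Complex.arg p| * |y| ≤ Real.pi / 2 * |y| := mul_le_mul_of_nonneg_right harg (abs_nonneg y)
    linarith
  have h5 : c ≤ ‖(c:ℂ) + y * I‖ := by
    have := Complex.abs_re_le_norm ((c:ℂ) + y * I)
    simp only [Complex.add_re, Complex.ofReal_re, Complex.mul_re, Complex.I_re, mul_zero, Complex.ofReal_im,
      Complex.I_im, mul_one, sub_self, add_zero] at this
    exact (le_abs_self c).trans this
  have h6 : Real.exp (c ^ 2 - y ^ 2) * Real.exp (Real.pi / 2 * |y|) ≤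
      Real.exp (c ^ 2 + Real.pi ^ 2 / 8) * Real.exp (-(1/2) * y ^ 2) := by
    rw [← Real.exp_add, ← Real.exp_add]
    apply Real.exp_le_exp.2
    have : (0:ℝ) ≤ (|y| - Real.pi / 2) ^ 2 := sq_nonneg _
    have h7 : |y| ^ 2 = y ^ 2 := sq_abs y
    nlinarith
  rw [norm_div, norm_mul, norm_mul, norm_mul, h1, h2]
  calc Real.exp (c ^ 2 - y ^ 2) * Λ ^ c * ‖Complex.Gamma (1 + j + ((c:ℂ) + y * I))‖ *
        ‖p ^ (-(1 + j + ((c:ℂ) + y * I)))‖ / ‖(c:ℂ) + y * I‖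
      ≤ Real.exp (c ^ 2 - y ^ 2) * Λ ^ c * Real.Gamma (1 + j + c) *
        (‖p‖ ^ (-(1 + j + c)) * Real.exp (Real.pi / 2 * |y|)) / c := by
        gcongr
    _ = Λ ^ c * ‖p‖ ^ (-(1 + j + c)) * (Real.Gamma (1 + j + c) / c *
        (Real.exp (c ^ 2 - y ^ 2) * Real.exp (Real.pi / 2 * |y|))) := by ring
    _ ≤ Λ ^ c * ‖p‖ ^ (-(1 + j + c)) * (Real.Gamma (1 + j + c) / c *
        (Real.exp (c ^ 2 + Real.pi ^ 2 / 8) * Real.exp (-(1/2) * y ^ 2))) := by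
        gcongr
    _ = Λ ^ c * ‖p‖ ^ (-(1 + j + c)) * (Real.Gamma (1 + j + c) / c * Real.exp (c ^ 2 + Real.pi ^ 2 / 8) *
      Real.exp (-(1/2) * y ^ 2)) := by ring

theorem Jkj_bd (j : ℕ) {c : ℝ} (hc : 0 < c) : ∃ C : ℝ, 0 < C ∧ ∀ Λ : ℝ, 0 < Λ → ∀ p : ℂ, 0 < p.re →
    ‖Jkj j Λ p‖ ≤ C * Λ ^ c * ‖p‖ ^ (-(1 + j + c)) := by
  set M : ℝ := ∫ y : ℝ, Real.Gamma (1 + j + c) / c * Real.exp (c ^ 2 + Real.pi ^ 2 / 8) *
      Real.exp (-(1/2) * y ^ 2) with hM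
  have hG0 : 0 < Real.Gamma (1 + j + c) := Real.Gamma_pos_of_pos (by positivity)
  have hM0 : 0 ≤ M := integral_nonneg fun y => by positivity
  refine ⟨1 / (2 * Real.pi) * M + 1, by positivity, ?_⟩
  intro Λ hΛ p hp
  rw [(Jkj_formula j hΛ hp hc).2, norm_mul, Complex.norm_real, Real.norm_of_nonneg (by positivity)]
  have hpn : (0:ℝ) ≤ ‖p‖ ^ (-(1 + j + c)) := by positivity
  have hΛn : (0:ℝ) ≤ Λ ^ c := by positivity
  have h1 : ‖∫ y : ℝ, cexp (((c:ℂ) + y * I) ^ 2) * (Λ:ℂ) ^ ((c:ℂ) + y * I) *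
      Complex.Gamma (1 + j + ((c:ℂ) + y * I)) * p ^ (-(1 + j + ((c:ℂ) + y * I))) / ((c:ℂ) + y * I)‖
      ≤ Λ ^ c * ‖p‖ ^ (-(1 + j + c)) * M := by
    rw [hM, ← integral_const_mul]
    apply norm_integral_le_of_norm_le
    · exact (m22_gauss _).const_mul _
    · exact Eventually.of_forall fun y => m22_pt j hc hΛ hp y
  calc 1 / (2 * Real.pi) * ‖∫ y : ℝ, cexp (((c:ℂ) + y * I) ^ 2) * (Λ:ℂ) ^ ((c:ℂ) + y * I) *
      Complex.Gamma (1 + j + ((c:ℂ) + y * I)) * p ^ (-(1 + j + ((c:ℂ) + y * I))) / ((c:ℂ) + y * I)‖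
      ≤ 1 / (2 * Real.pi) * (Λ ^ c * ‖p‖ ^ (-(1 + j + c)) * M) := by
        apply mul_le_mul_of_nonneg_left h1 (by positivity)
    _ = 1 / (2 * Real.pi) * M * Λ ^ c * ‖p‖ ^ (-(1 + j + c)) := by ring
    _ ≤ (1 / (2 * Real.pi) * M + 1) * Λ ^ c * ‖p‖ ^ (-(1 + j + c)) := by
        have : 1 / (2 * Real.pi) * M ≤ 1 / (2 * Real.pi) * M + 1 := by linarith
        gcongr

theorem Jk_bd {c : ℝ} (hc : 0 < c) : ∃ C : ℝ, 0 < C ∧ ∀ Λ : ℝ, 0 < Λ → ∀ p : ℂ, 0 < p.re →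
    ‖Jk Λ p‖ ≤ C * Λ ^ c * ‖p‖ ^ (-(1 + c)) := by
  obtain ⟨C, hC, h⟩ := Jkj_bd 0 hc
  refine ⟨C, hC, fun Λ hΛ p hp => ?_⟩
  have h1 := h Λ hΛ p hp
  have h2 : Jkj 0 Λ p = Jk Λ p := by
    unfold Jkj Jk
    simp
  rw [h2] at h1
  simpa using h1

end Pool.Agent.LibF4
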