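import Pool.Agent.LibF4.Defs
import Pool.Agent.LibM3.A2
import Pool.Agent.LibM3.E3
import Pool.Agent.LibZM.CS1
import Pool.Agent.LibZM.Asymp2

/-! Fourth moment, block M, row M01. -/

set_option autoImplicit false

namespace Pool.Agent.LibF4

open MeasureTheory Set Filter Topology Complex
open scoped ComplexConjugate
open Pool.Agent.LibM3 Pool.Agent.LibZM

theorem m01_sym (l : ℝ) : PhR l + PhR (-l) = 1 := by
  have h1 : PhR (-l) = ∫ x in Ioi l, 1 / (2 * √Real.pi) * Real.exp (-x ^ 2 / 4) := by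
    have h2 := integral_comp_neg_Ioi l (fun x : ℝ => 1 / (2 * √Real.pi) * Real.exp (-x ^ 2 / 4))
    simp only [neg_sq] at h2
    exact h2.symm
  have h3 := integral_add_compl (μ := volume) (measurableSet_Iic (a := l)) a1_gR_int
  rw [compl_Iic, a1_gR_total] at h3
  rw [h1]
  exact h3

theorem kp_mem (y : ℝ) : 0 ≤ kp y ∧ kp y ≤ 1 := PhR_mem _

theorem kp_inv {y : ℝ} (hy : 0 < y) : kp y + kp (1 / y) = 1 := by
  unfold kp
  rw [one_div, Real.log_inv]
  exact m01_sym _

theorem kp_le (c : ℝ) (hc : 0 ≤ c) : ∃ C : ℝ, 0 < C ∧ ∀ y : ℝ, 0 < y → kp y ≤ C * y ^ c := by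
  obtain ⟨C, hC, h⟩ := Ph_le 0 hc
  refine ⟨C, hC, fun y hy => ?_⟩
  have h1 := h (Real.log y)
  rw [Ph_zero, Complex.norm_real, Real.norm_eq_abs, abs_of_nonneg (PhR_mem _).1] at h1
  refine h1.trans (mul_le_mul_of_nonneg_left ?_ hC.le)
  refine (min_le_right _ _).trans ?_
  rw [Real.rpow_def_of_pos hy, mul_comm]

theorem kp_cont : ContinuousOn kp (Ioi 0) := by
  have h1 : Continuous PhR := continuous_iff_continuousAt.mpr fun l => (hasDerivAt_PhR l).continuousAt
  have h2 : ContinuousOn Real.log (Ioi 0) := Real.continuousOn_log.mono fun x hx => ne_of_gt hx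
  exact h1.comp_continuousOn h2

end Pool.Agent.LibF4
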