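import Pool.Agent.LibF4.Defs
import Pool.Agent.LibM3.A2
import Pool.Agent.LibM3.E3
import Pool.Agent.LibZM.CS1
import Pool.Agent.LibZM.Asymp2

/-! Fourth moment, block M, row M10. -/

set_option autoImplicit false

namespace Pool.Agent.LibF4

open MeasureTheory Set Filter Topology Complex
open scoped ComplexConjugate
open Pool.Agent.LibM3 Pool.Agent.LibZM

theorem m10_sinh {y : ℝ} (hy : 0 < y) :
    Real.exp (-y) / (1 - Real.exp (-y)) ^ 2 ≤ y ^ (-2 : ℝ) := by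
  have h1 : y / 2 ≤ Real.sinh (y / 2) := Real.self_le_sinh_iff.2 (by positivity)
  rw [Real.sinh_eq] at h1
  have h2 : y ≤ Real.exp (y / 2) - Real.exp (-(y / 2)) := by linarith
  have h3 : y * Real.exp (-(y / 2)) ≤ 1 - Real.exp (-y) := by
    have h4 := mul_le_mul_of_nonneg_right h2 (Real.exp_pos (-(y / 2))).le
    rw [sub_mul, ← Real.exp_add, ← Real.exp_add] at h4
    have e1 : y / 2 + -(y / 2) = 0 := by ring
    have e2 : -(y / 2) + -(y / 2) = -y := by ring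
    rw [e1, e2, Real.exp_zero] at h4
    exact h4
  have h5 : 0 < y * Real.exp (-(y / 2)) := by positivity
  have h6 : 0 < 1 - Real.exp (-y) := lt_of_lt_of_le h5 h3
  have h7 : y ^ 2 * Real.exp (-y) ≤ (1 - Real.exp (-y)) ^ 2 := by
    have h8 := pow_le_pow_left₀ h5.le h3 2
    have h9 : (y * Real.exp (-(y / 2))) ^ 2 = y ^ 2 * Real.exp (-y) := by
      rw [mul_pow, ← Real.exp_nat_mul]
      congr 2
      push_cast
      ring
    rw [h9] at h8
    exact h8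
  rw [Real.rpow_neg hy.le, div_le_iff₀ (by positivity)]
  have h10 : y ^ (2 : ℝ) = y ^ 2 := by norm_num
  rw [h10, inv_mul_eq_div, le_div_iff₀ (by positivity)]
  linarith

theorem m10_dv (n : ℕ) : 0 ≤ dv n ∧ dv n ≤ n := by
  unfold dv
  exact ⟨Nat.cast_nonneg _, by exact_mod_cast Nat.card_divisors_le_self n⟩

theorem m10_hasSum {y : ℝ} (hy : 0 < y) :
    HasSum (fun n : ℕ => (n : ℝ) * Real.exp (-(n * y)))
      (Real.exp (-y) / (1 - Real.exp (-y)) ^ 2) := by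
  have h1 : ‖Real.exp (-y)‖ < 1 := by
    rw [Real.norm_eq_abs, abs_of_pos (Real.exp_pos _)]
    exact (Real.exp_lt_exp.2 (by linarith)).trans_eq Real.exp_zero
  have h2 := hasSum_coe_mul_geometric_of_norm_lt_one h1
  refine h2.congr_fun ?_
  intro n
  rw [← Real.exp_nat_mul]
  congr 2
  ring

theorem dv_exp : ∃ C : ℝ, 0 < C ∧ ∀ y : ℝ, 0 < y → Summable (fun n : ℕ => dv n * Real.exp (-(n * y))) ∧
    ∑' n : ℕ, dv n * Real.exp (-(n * y)) ≤ C * y ^ (-2 : ℝ) := by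
  refine ⟨1, one_pos, fun y hy => ?_⟩
  have h1 := m10_hasSum hy
  have h2 : Summable (fun n : ℕ => dv n * Real.exp (-(n * y))) := by
    apply Summable.of_nonneg_of_le (fun n => mul_nonneg (m10_dv n).1 (Real.exp_pos _).le) _
      h1.summable
    intro n
    exact mul_le_mul_of_nonneg_right (m10_dv n).2 (Real.exp_pos _).le
  refine ⟨h2, ?_⟩
  rw [one_mul]
  refine (h2.tsum_le_tsum (fun n => ?_) h1.summable).trans ?_
  · exact mul_le_mul_of_nonneg_right (m10_dv n).2 (Real.exp_pos _).le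
  · rw [h1.tsum_eq]
    exact m10_sinh hy

theorem m10_norm (δ x : ℝ) (n : ℕ) :
    ‖((dv n : ℝ) : ℂ) * cexp (-((n:ℂ) * x * zd δ))‖ = dv n * Real.exp (-(n * (x * Real.sin δ))) := by
  rw [norm_mul, Complex.norm_real, Real.norm_eq_abs, abs_of_nonneg (m10_dv n).1, Complex.norm_exp]
  congr 2
  unfold zd
  have h1 : (n : ℂ) * x = ((n * x : ℝ) : ℂ) := by push_cast; ring
  rw [h1, Complex.neg_re, Complex.re_ofReal_mul, Complex.sub_re, Complex.ofReal_re,
    Complex.re_ofReal_mul, Complex.I_re, mul_zero, sub_zero]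
  ring

theorem m10_sin {δ : ℝ} (h0 : 0 < δ) (h1 : δ ≤ 1/4) : 0 < Real.sin δ :=
  Real.sin_pos_of_pos_of_lt_pi h0 (by linarith [Real.pi_gt_three])

theorem Sz_summable {δ : ℝ} (h0 : 0 < δ) (h1 : δ ≤ 1/4) {x : ℝ} (hx : 0 < x) :
    Summable (fun n : ℕ => ‖((dv n : ℝ) : ℂ) * cexp (-((n:ℂ) * x * zd δ))‖) := by
  obtain ⟨C, -, h⟩ := dv_exp
  simp only [m10_norm]
  exact (h _ (mul_pos hx (m10_sin h0 h1))).1

theorem Sz_bd : ∃ C : ℝ, 0 < C ∧ ∀ δ : ℝ, 0 < δ → δ ≤ 1/4 → ∀ x : ℝ, 0 < x →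
    ‖Sz δ x‖ ≤ C * (x * Real.sin δ) ^ (-2 : ℝ) := by
  obtain ⟨C, hC, h⟩ := dv_exp
  refine ⟨C, hC, fun δ h0 h1 x hx => ?_⟩
  unfold Sz
  refine (norm_tsum_le_tsum_norm (Sz_summable h0 h1 hx)).trans ?_
  simp only [m10_norm]
  exact (h _ (mul_pos hx (m10_sin h0 h1))).2

end Pool.Agent.LibF4
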