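import Pool.Agent.LibF4.Defs
import Pool.Agent.LibM3.A2
import Pool.Agent.LibM3.E3
import Pool.Agent.LibZM.CS1
import Pool.Agent.LibZM.Asymp2
import Pool.Agent.LibF4.M01
import Pool.Agent.LibF4.M10

/-! Fourth moment, block M, row M24. -/

set_option autoImplicit false

namespace Pool.Agent.LibF4

open MeasureTheory Set Filter Topology Complex
open scoped ComplexConjugate
open Pool.Agent.LibM3 Pool.Agent.LibZM

theorem m24_sin {δ : ℝ} (h0 : 0 < δ) (h1 : δ ≤ 1/4) : 0 < Real.sin δ := by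
  apply Real.sin_pos_of_pos_of_lt_pi h0
  have := Real.pi_gt_three
  linarith

theorem m24_dv_nonneg (n : ℕ) : 0 ≤ dv n := by
  unfold dv
  positivity

theorem m24_zd_re (δ : ℝ) : (zd δ).re = Real.sin δ := by
  unfold zd
  rw [Complex.sub_re, Complex.re_ofReal_mul, Complex.ofReal_re, Complex.I_re, mul_zero, sub_zero]

theorem m24_term_norm (δ : ℝ) (n : ℕ) (x : ℝ) :
    ‖((dv n : ℝ) : ℂ) * cexp (-((n:ℂ) * x * zd δ))‖ = dv n * Real.exp (-(n * (x * Real.sin δ))) := by
  rw [norm_mul, Complex.norm_real, Real.norm_of_nonneg (m24_dv_nonneg n), Complex.norm_exp]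
  congr 2
  have : ((n:ℂ) * x * zd δ) = (((n * x : ℝ)) : ℂ) * zd δ := by push_cast; ring
  rw [Complex.neg_re, this, Complex.re_ofReal_mul, m24_zd_re]
  ring

theorem m24_prod (δ : ℝ) (m n : ℕ) (a b : ℕ) (x : ℝ) :
    ((dv a : ℝ) : ℂ) * cexp (-((a:ℂ) * ((m * x : ℝ) : ℂ) * zd δ)) *
      conj (((dv b : ℝ) : ℂ) * cexp (-((b:ℂ) * ((n * x : ℝ) : ℂ) * zd δ)))
    = ((dv a * dv b : ℝ) : ℂ) * cexp (-(pf δ ((a:ℝ) * m + b * n) ((a:ℝ) * m - b * n) * x)) := by
  rw [map_mul, Complex.conj_ofReal, ← Complex.exp_conj, map_neg, map_mul, map_mul, Complex.conj_ofReal,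
    Complex.conj_natCast]
  have h1 : conj (zd δ) = ((Real.sin δ : ℝ) : ℂ) + ((Real.cos δ : ℝ) : ℂ) * I := by
    unfold zd
    rw [map_sub, map_mul, Complex.conj_ofReal, Complex.conj_ofReal, Complex.conj_I]
    ring
  rw [h1]
  rw [show ∀ u v w z : ℂ, u * v * (w * z) = u * w * (v * z) from fun u v w z => by ring, ← Complex.exp_add,
    ← Complex.ofReal_mul]
  congr 2
  unfold pf zd
  push_cast
  ring

theorem m24_pf_re (δ X r : ℝ) : (pf δ X r).re = X * Real.sin δ := by
  unfold pf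
  rw [Complex.sub_re, Complex.re_ofReal_mul, Complex.ofReal_re, Complex.I_re, mul_zero, sub_zero]

theorem m24_Lam_pos {m n : ℕ} (hm : 1 ≤ m) (hn : 1 ≤ n) : 0 < Lam m n := by
  unfold Lam
  have : (0:ℝ) < m := by exact_mod_cast hm
  have : (0:ℝ) < n := by exact_mod_cast hn
  positivity

/-- The majorant is integrable. -/
theorem m24_major {Λ : ℝ} (hΛ : 0 < Λ) (K : ℝ) (hK : 0 ≤ K) :
    IntegrableOn (fun x : ℝ => kp (Λ * x) * (K * x ^ (-4 : ℝ))) (Ioi 0) := by
  have hcont : ContinuousOn (fun x : ℝ => kp (Λ * x) * (K * x ^ (-4 : ℝ))) (Ioi 0) := by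
    apply ContinuousOn.mul
    · apply kp_cont.comp (by fun_prop)
      intro x hx
      exact mul_pos hΛ hx
    · apply ContinuousOn.mul continuousOn_const
      apply ContinuousOn.rpow_const continuousOn_id
      intro x hx
      exact Or.inl (ne_of_gt hx)
  rw [← Ioc_union_Ioi_eq_Ioi (zero_le_one : (0:ℝ) ≤ 1)]
  apply IntegrableOn.union
  · obtain ⟨C, hC, h⟩ := kp_le 4 (by norm_num)
    have hi : IntegrableOn (fun _ : ℝ => C * Λ ^ (4:ℝ) * K) (Ioc 0 1) :=
      integrableOn_const measure_Ioc_lt_top.ne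
    refine Integrable.mono' hi ?_ ?_
    · exact (hcont.mono Ioc_subset_Ioi_self).aestronglyMeasurable measurableSet_Ioc
    · rw [ae_restrict_iff' measurableSet_Ioc]
      refine Eventually.of_forall fun x hx => ?_
      have hx0 : 0 < x := hx.1
      have h1 := h (Λ * x) (mul_pos hΛ hx0)
      have h2 := (kp_mem (Λ * x)).1
      rw [Real.norm_of_nonneg (by positivity)]
      calc kp (Λ * x) * (K * x ^ (-4 : ℝ)) ≤ (C * (Λ * x) ^ (4:ℝ)) * (K * x ^ (-4 : ℝ)) := by
            gcongr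
        _ = C * Λ ^ (4:ℝ) * K * (x ^ (4:ℝ) * x ^ (-4 : ℝ)) := by
            rw [Real.mul_rpow hΛ.le hx0.le]
            ring
        _ = C * Λ ^ (4:ℝ) * K := by
            rw [← Real.rpow_add hx0]
            norm_num
  · have hi : IntegrableOn (fun x : ℝ => K * x ^ (-4 : ℝ)) (Ioi 1) :=
      (integrableOn_Ioi_rpow_of_lt (by norm_num) zero_lt_one).const_mul K
    refine Integrable.mono' hi ?_ ?_
    · exact (hcont.mono (Ioi_subset_Ioi zero_le_one)).aestronglyMeasurable measurableSet_Ioi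
    · rw [ae_restrict_iff' measurableSet_Ioi]
      refine Eventually.of_forall fun x hx => ?_
      have hx0 : 0 < x := lt_trans zero_lt_one hx
      have h2 := kp_mem (Λ * x)
      rw [Real.norm_of_nonneg (mul_nonneg h2.1 (by positivity))]
      calc kp (Λ * x) * (K * x ^ (-4 : ℝ)) ≤ 1 * (K * x ^ (-4 : ℝ)) := by
            gcongr
            exact h2.2
        _ = K * x ^ (-4 : ℝ) := one_mul _

theorem SS_expand {δ : ℝ} (h0 : 0 < δ) (h1 : δ ≤ 1/4) {m n : ℕ} (hm : 1 ≤ m) (hn : 1 ≤ n) :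
    Summable (fun ab : ℕ × ℕ => ‖T4 δ m n ab‖) ∧
    IntegrableOn (fun x : ℝ => ((kp (Lam m n * x) : ℝ) : ℂ) * (Sz δ (m * x) * conj (Sz δ (n * x)))) (Ioi 0) ∧
    ∫ x in Ioi (0:ℝ), ((kp (Lam m n * x) : ℝ) : ℂ) * (Sz δ (m * x) * conj (Sz δ (n * x))) = ∑' ab : ℕ × ℕ, T4 δ m n ab := by
  have hs := m24_sin h0 h1
  have hm0 : (0:ℝ) < m := by exact_mod_cast hm
  have hn0 : (0:ℝ) < n := by exact_mod_cast hn
  have hΛ := m24_Lam_pos hm hn
  obtain ⟨C, hC, hdv⟩ := dv_exp
  set K : ℝ := C * (m * Real.sin δ) ^ (-2 : ℝ) * (C * (n * Real.sin δ) ^ (-2 : ℝ)) with hKdef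
  have hK : 0 ≤ K := by positivity
  set F : ℕ × ℕ → ℝ → ℂ := fun ab x => ((kp (Lam m n * x) : ℝ) : ℂ) * (((dv ab.1 * dv ab.2 : ℝ) : ℂ) *
    cexp (-(pf δ ((ab.1:ℝ) * m + ab.2 * n) ((ab.1:ℝ) * m - ab.2 * n) * x))) with hF
  have hsum : ∀ x : ℝ, 0 < x → HasSum (fun ab => F ab x)
      (((kp (Lam m n * x) : ℝ) : ℂ) * (Sz δ (m * x) * conj (Sz δ (n * x)))) := by
    intro x hx
    have s1 := Sz_summable h0 h1 (mul_pos hm0 hx)
    have s2 := Sz_summable h0 h1 (mul_pos hn0 hx)
    have s2' : Summable (fun b : ℕ => ‖conj (((dv b : ℝ) : ℂ) * cexp (-((b:ℂ) * ((n * x : ℝ) : ℂ) * zd δ)))‖) := by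
      refine s2.congr fun b => ?_
      rw [RCLike.norm_conj]
    have h2 := summable_mul_of_summable_norm s1 s2'
    have h3 := tsum_mul_tsum_of_summable_norm s1 s2'
    have h4 : Sz δ (m * x) * conj (Sz δ (n * x))
        = ∑' ab : ℕ × ℕ, ((dv ab.1 * dv ab.2 : ℝ) : ℂ) *
          cexp (-(pf δ ((ab.1:ℝ) * m + ab.2 * n) ((ab.1:ℝ) * m - ab.2 * n) * x)) := by
      have h5 : conj (Sz δ (n * x)) = ∑' b : ℕ, conj (((dv b : ℝ) : ℂ) * cexp (-((b:ℂ) * ((n * x : ℝ) : ℂ) * zd δ))) := by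
        unfold Sz
        exact Complex.conj_tsum _
      rw [h5]
      unfold Sz
      rw [h3]
      apply tsum_congr
      intro ab
      exact m24_prod δ m n ab.1 ab.2 x
    have h6 : Summable fun ab : ℕ × ℕ => ((dv ab.1 * dv ab.2 : ℝ) : ℂ) *
          cexp (-(pf δ ((ab.1:ℝ) * m + ab.2 * n) ((ab.1:ℝ) * m - ab.2 * n) * x)) :=
      h2.congr fun ab => m24_prod δ m n ab.1 ab.2 x
    rw [h4]
    exact h6.hasSum.mul_left _
  have hnorm : ∀ (ab : ℕ × ℕ) (x : ℝ), 0 < x → ‖F ab x‖ = kp (Lam m n * x) *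
      ((dv ab.1 * Real.exp (-(ab.1 * (m * x * Real.sin δ)))) *
       (dv ab.2 * Real.exp (-(ab.2 * (n * x * Real.sin δ))))) := by
    intro ab x hx
    rw [hF]
    simp only
    rw [norm_mul, norm_mul, Complex.norm_real, Complex.norm_real, Real.norm_of_nonneg (kp_mem _).1,
      Real.norm_of_nonneg (mul_nonneg (m24_dv_nonneg _) (m24_dv_nonneg _)), Complex.norm_exp,
      Complex.neg_re, mul_comm (pf δ _ _) (x:ℂ), Complex.re_ofReal_mul, m24_pf_re]
    rw [show ∀ u v w z : ℝ, u * v * (w * z) = u * w * (v * z) from fun u v w z => by ring, ← Real.exp_add]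
    congr 3
    ring
  have hexp : ∀ x : ℝ, 0 < x → ∀ T : Finset (ℕ × ℕ), ∑ ab ∈ T, ‖F ab x‖ ≤
      kp (Lam m n * x) * (K * x ^ (-4 : ℝ)) := by
    intro x hx T
    have e1 := hdv (m * x * Real.sin δ) (by positivity)
    have e2 := hdv (n * x * Real.sin δ) (by positivity)
    rw [Finset.sum_congr rfl fun ab _ => hnorm ab x hx, ← Finset.mul_sum]
    apply mul_le_mul_of_nonneg_left _ (kp_mem _).1
    have s1 : Summable fun a : ℕ => ‖dv a * Real.exp (-(a * (m * x * Real.sin δ)))‖ := by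
      refine e1.1.congr fun a => ?_
      rw [Real.norm_of_nonneg (mul_nonneg (m24_dv_nonneg _) (Real.exp_pos _).le)]
    have s2 : Summable fun a : ℕ => ‖dv a * Real.exp (-(a * (n * x * Real.sin δ)))‖ := by
      refine e2.1.congr fun a => ?_
      rw [Real.norm_of_nonneg (mul_nonneg (m24_dv_nonneg _) (Real.exp_pos _).le)]
    have s3 := summable_mul_of_summable_norm s1 s2
    have s4 := tsum_mul_tsum_of_summable_norm s1 s2
    calc ∑ ab ∈ T, (dv ab.1 * Real.exp (-(ab.1 * (m * x * Real.sin δ)))) *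
          (dv ab.2 * Real.exp (-(ab.2 * (n * x * Real.sin δ))))
        ≤ ∑' ab : ℕ × ℕ, (dv ab.1 * Real.exp (-(ab.1 * (m * x * Real.sin δ)))) *
          (dv ab.2 * Real.exp (-(ab.2 * (n * x * Real.sin δ)))) := by
          apply s3.sum_le_tsum T
          intro ab _
          exact mul_nonneg (mul_nonneg (m24_dv_nonneg _) (Real.exp_pos _).le)
            (mul_nonneg (m24_dv_nonneg _) (Real.exp_pos _).le)
      _ = (∑' a : ℕ, dv a * Real.exp (-(a * (m * x * Real.sin δ)))) *
          ∑' a : ℕ, dv a * Real.exp (-(a * (n * x * Real.sin δ))) := s4.symm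
      _ ≤ (C * (m * x * Real.sin δ) ^ (-2 : ℝ)) * (C * (n * x * Real.sin δ) ^ (-2 : ℝ)) := by
          apply mul_le_mul e1.2 e2.2
          · exact tsum_nonneg fun a => mul_nonneg (m24_dv_nonneg _) (Real.exp_pos _).le
          · positivity
      _ = K * x ^ (-4 : ℝ) := by
          rw [hKdef, show (m:ℝ) * x * Real.sin δ = (m * Real.sin δ) * x by ring,
            show (n:ℝ) * x * Real.sin δ = (n * Real.sin δ) * x by ring,
            Real.mul_rpow (by positivity) hx.le, Real.mul_rpow (by positivity) hx.le,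
            show (-4:ℝ) = -2 + -2 by norm_num, Real.rpow_add hx]
          ring
  have hmaj := m24_major hΛ K hK
  have hFcont : ∀ ab, ContinuousOn (F ab) (Ioi 0) := by
    intro ab
    rw [hF]
    apply ContinuousOn.mul
    · apply Complex.continuous_ofReal.comp_continuousOn
      apply kp_cont.comp (by fun_prop)
      intro x hx
      exact mul_pos hΛ hx
    · fun_prop
  have hFint : ∀ ab, IntegrableOn (F ab) (Ioi 0) := by
    intro ab
    refine Integrable.mono' hmaj ((hFcont ab).aestronglyMeasurable measurableSet_Ioi) ?_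
    rw [ae_restrict_iff' measurableSet_Ioi]
    refine Eventually.of_forall fun x hx => ?_
    have := hexp x hx {ab}
    rwa [Finset.sum_singleton] at this
  have hFsum : Summable fun ab => ∫ x in Ioi (0:ℝ), ‖F ab x‖ := by
    apply summable_of_sum_le (c := ∫ x in Ioi (0:ℝ), kp (Lam m n * x) * (K * x ^ (-4 : ℝ)))
    · intro ab
      exact integral_nonneg fun x => norm_nonneg _
    · intro T
      rw [← integral_finsetSum T fun ab _ => (hFint ab).norm]
      apply setIntegral_mono_on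
      · exact integrable_finsetSum T fun ab _ => (hFint ab).norm
      · exact hmaj
      · exact measurableSet_Ioi
      · intro x hx
        exact hexp x hx T
  have hT4 : ∀ ab, ∫ x in Ioi (0:ℝ), F ab x = T4 δ m n ab := by
    intro ab
    unfold T4 Jk
    rw [← integral_const_mul]
    congr 1
    ext x
    rw [hF]
    ring
  have hmain := hasSum_integral_of_summable_integral_norm hFint hFsum
  have hcongr : ∫ x in Ioi (0:ℝ), ∑' ab, F ab x
      = ∫ x in Ioi (0:ℝ), ((kp (Lam m n * x) : ℝ) : ℂ) * (Sz δ (m * x) * conj (Sz δ (n * x))) := by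
    apply setIntegral_congr_fun measurableSet_Ioi
    intro x hx
    exact (hsum x hx).tsum_eq
  refine ⟨?_, ?_, ?_⟩
  · refine Summable.of_nonneg_of_le (fun ab => norm_nonneg _) (fun ab => ?_) hFsum
    rw [← hT4 ab]
    exact norm_integral_le_integral_norm _
  · refine Integrable.mono' hmaj ?_ ?_
    · apply aestronglyMeasurable_of_tendsto_ae (atTop : Filter (Finset (ℕ × ℕ)))
        (f := fun T x => ∑ ab ∈ T, F ab x)
      · intro T
        exact (integrable_finsetSum T fun ab _ => hFint ab).aestronglyMeasurable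
      · rw [ae_restrict_iff' measurableSet_Ioi]
        exact Eventually.of_forall fun x hx => hsum x hx
    · rw [ae_restrict_iff' measurableSet_Ioi]
      refine Eventually.of_forall fun x hx => ?_
      apply le_of_tendsto (hsum x hx).norm
      refine Eventually.of_forall fun T => ?_
      exact (norm_sum_le _ _).trans (hexp x hx T)
  · rw [← hcongr, ← hmain.tsum_eq]
    apply tsum_congr
    intro ab
    exact hT4 ab

end Pool.Agent.LibF4
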