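import Pool.Agent.LibF4.Defs
import Pool.Agent.LibM3.A2
import Pool.Agent.LibM3.E3
import Pool.Agent.LibZM.CS1
import Pool.Agent.LibZM.Asymp2
import Pool.Agent.LibF4.M22
import Pool.Agent.LibF4.M24

/-! Fourth moment, block M, row M25. -/

set_option autoImplicit false

namespace Pool.Agent.LibF4

open MeasureTheory Set Filter Topology Complex
open scoped ComplexConjugate
open Pool.Agent.LibM3 Pool.Agent.LibZM

/-- The weight on differences. -/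
noncomputable def m25_w (r : ℤ) : ℝ := if r = 0 then 1 else |(r:ℝ)| ^ (-(7/4) : ℝ)

theorem m25_w_nonneg (r : ℤ) : 0 ≤ m25_w r := by
  unfold m25_w; split_ifs
  · norm_num
  · positivity

theorem m25_w_neg (r : ℤ) : m25_w (-r) = m25_w r := by
  unfold m25_w
  by_cases h : r = 0
  · simp [h]
  · have : -r ≠ 0 := by omega
    simp [h]

theorem m25_w_summable : Summable m25_w := by
  have h1 : Summable (fun r : ℤ => |(r:ℝ)| ^ (-(7/4) : ℝ)) := by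
    exact Real.summable_abs_int_rpow (by norm_num)
  have h2 : Summable (fun r : ℤ => if r = 0 then (1:ℝ) else 0) :=
    summable_of_ne_finset_zero (s := {0}) (by
      intro b hb
      have : b ≠ 0 := by simpa using hb
      simp [this])
  refine Summable.of_nonneg_of_le m25_w_nonneg (fun r => ?_) (h1.add h2)
  unfold m25_w
  split_ifs with h
  · have : (0:ℝ) ≤ |(r:ℝ)| ^ (-(7/4) : ℝ) := by positivity
    linarith
  · simp

noncomputable def m25_f (n : ℕ) : ℝ := dv n ^ 2 * (n:ℝ) ^ (-(5/4) : ℝ)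

theorem m25_f_nonneg (n : ℕ) : 0 ≤ m25_f n := by unfold m25_f; positivity

theorem m25_f_summable : Summable m25_f := by
  have h := summable_tau (α := 4) (by norm_num) (σ := 5/4) (by norm_num)
  refine Summable.of_nonneg_of_le m25_f_nonneg (fun n => ?_) h
  unfold m25_f dv
  rcases Nat.eq_zero_or_pos n with rfl | hn
  · simp
  · have h1 := e3_card_sq_le n
    have h2 : (0:ℝ) < (n:ℝ) := by exact_mod_cast hn
    have h3 : (0:ℝ) ≤ (n:ℝ) ^ (-(5/4) : ℝ) := by positivity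
    calc ((n.divisors.card : ℝ)) ^ 2 * (n:ℝ) ^ (-(5/4) : ℝ) ≤ tau 4 n * (n:ℝ) ^ (-(5/4) : ℝ) :=
          mul_le_mul_of_nonneg_right h1 h3
      _ = _ := by ring_nf

theorem m25_pf_re (δ X r : ℝ) : (pf δ X r).re = X * Real.sin δ := by
  simp only [pf, Complex.sub_re, Complex.ofReal_re, Complex.mul_re, Complex.I_re, Complex.ofReal_im, Complex.I_im]
  ring

theorem m25_pf_im (δ X r : ℝ) : (pf δ X r).im = -(r * Real.cos δ) := by
  simp only [pf, Complex.sub_im, Complex.ofReal_re, Complex.mul_im, Complex.I_re, Complex.ofReal_im, Complex.I_im]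
  ring

theorem m25_pf_norm {δ : ℝ} (h0 : 0 < δ) (h1 : δ ≤ 1/4) {X r : ℝ} (hX : 0 ≤ X) :
    (δ * X + |r|) / 4 ≤ ‖pf δ X r‖ := by
  have h2 : X * Real.sin δ ≤ ‖pf δ X r‖ := by
    have := Complex.abs_re_le_norm (pf δ X r)
    rw [m25_pf_re] at this
    exact (le_abs_self _).trans this
  have h3 : |r| * Real.cos δ ≤ ‖pf δ X r‖ := by
    have := Complex.abs_im_le_norm (pf δ X r)
    rw [m25_pf_im, abs_neg, abs_mul] at this
    exact (mul_le_mul_of_nonneg_left (le_abs_self _) (abs_nonneg _)).trans this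
  have h4 : δ / 2 ≤ Real.sin δ := by
    have := Real.sin_gt_sub_cube h0
    nlinarith [sq_nonneg δ]
  have h5 : 1/2 ≤ Real.cos δ := by
    have := Real.one_sub_sq_div_two_le_cos (x := δ)
    nlinarith
  have h6 : X * (δ / 2) ≤ X * Real.sin δ := mul_le_mul_of_nonneg_left h4 hX
  have h7 : |r| * (1/2) ≤ |r| * Real.cos δ := mul_le_mul_of_nonneg_left h5 (abs_nonneg _)
  linarith

/-- The map `(a,b) ↦ (a, a-b)`. -/
def m25_i (ab : ℕ × ℕ) : ℕ × ℤ := (ab.1, (ab.1:ℤ) - ab.2)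

theorem m25_i_inj : Function.Injective m25_i := by
  rintro ⟨a, b⟩ ⟨c, d⟩ h
  simp only [m25_i, Prod.mk.injEq] at h
  ext
  · exact h.1
  · have h1 : a = c := h.1
    have h2 : (a:ℤ) - b = c - d := h.2
    subst h1
    have h3 : (b:ℤ) = d := by linarith
    show b = d
    exact_mod_cast h3

theorem m25_prod_summable : Summable (fun p : ℕ × ℤ => m25_f p.1 * m25_w p.2) :=
  m25_f_summable.mul_of_nonneg m25_w_summable m25_f_nonneg m25_w_nonneg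

noncomputable def m25_F (p : ℕ × ℤ) : ℝ := m25_f p.1 * m25_w p.2

theorem m25_F_nonneg (p : ℕ × ℤ) : 0 ≤ m25_F p := mul_nonneg (m25_f_nonneg _) (m25_w_nonneg _)

theorem m25_F_summable : Summable m25_F := m25_prod_summable

noncomputable def m25_G (ab : ℕ × ℕ) : ℝ := m25_f ab.1 * m25_w ((ab.1:ℤ) - ab.2)

theorem m25_G_eq (ab : ℕ × ℕ) : m25_G ab = m25_F (m25_i ab) := rfl

theorem m25_g1 : Summable m25_G ∧ ∑' ab : ℕ × ℕ, m25_G ab ≤ ∑' p : ℕ × ℤ, m25_F p := by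
  have h := m25_F_summable.comp_injective m25_i_inj
  have he : m25_F ∘ m25_i = m25_G := by
    funext ab
    exact (m25_G_eq ab).symm
  have h2 : ∑' ab : ℕ × ℕ, (m25_F ∘ m25_i) ab ≤ ∑' p : ℕ × ℤ, m25_F p :=
    Summable.tsum_le_tsum_of_inj m25_i m25_i_inj (fun c _ => m25_F_nonneg c) (fun _ => le_rfl) h m25_F_summable
  rw [he] at h h2
  exact ⟨h, h2⟩

noncomputable def m25_G2 (ab : ℕ × ℕ) : ℝ := m25_f ab.2 * m25_w ((ab.1:ℤ) - ab.2)

theorem m25_G2_eq (ab : ℕ × ℕ) : m25_G2 ab = m25_G (Equiv.prodComm ℕ ℕ ab) := by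
  unfold m25_G2 m25_G
  rw [← m25_w_neg]
  simp only [Equiv.prodComm_apply, Prod.fst_swap, Prod.snd_swap]
  congr 2
  ring

theorem m25_g2 : Summable m25_G2 ∧ ∑' ab : ℕ × ℕ, m25_G2 ab ≤ ∑' p : ℕ × ℤ, m25_F p := by
  have h := m25_g1
  have he : m25_G2 = m25_G ∘ (Equiv.prodComm ℕ ℕ) := by
    funext ab
    exact m25_G2_eq ab
  rw [he]
  refine ⟨(Equiv.prodComm ℕ ℕ).summable_iff.2 h.1, ?_⟩
  have h2 := (Equiv.prodComm ℕ ℕ).tsum_eq m25_G
  have h3 : ∑' ab : ℕ × ℕ, (m25_G ∘ (Equiv.prodComm ℕ ℕ)) ab = ∑' ab : ℕ × ℕ, m25_G ab := h2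
  rw [h3]
  exact h.2

theorem m25_point {C1 C2 δ : ℝ} (hC1 : 0 < C1) (hC2 : 0 < C2) (h0 : 0 < δ) (h1 : δ ≤ 1/4)
    {X r : ℝ} (hX : 0 < X) (k : ℤ) (hk : r = k) {J : ℂ} {p : ℝ} (hp : (δ * X + |r|) / 4 ≤ p)
    (hJ1 : ‖J‖ ≤ C1 * p ^ (-(1 + 1/4) : ℝ)) (hJ2 : ‖J‖ ≤ C2 * p ^ (-(1 + 2) : ℝ)) {a : ℝ} (ha : 0 < a) (haX : a ≤ X) :
    ‖J‖ ≤ (C1 + C2) * 64 * ((δ * a) ^ (-(5/4) : ℝ) * m25_w k) := by
  have hda : 0 < δ * a := mul_pos h0 ha
  have hdX : 0 < δ * X := mul_pos h0 hX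
  have hle : δ * a ≤ δ * X := mul_le_mul_of_nonneg_left haX h0.le
  have hp0 : 0 < p := by
    have := abs_nonneg r
    linarith
  have hpos : 0 < (δ * a) ^ (-(5/4) : ℝ) := by positivity
  unfold m25_w
  split_ifs with hk0
  · have h2 : p ^ (-(1 + 1/4) : ℝ) ≤ ((δ * a) / 4) ^ (-(5/4) : ℝ) := by
      have h3 : (-(1 + 1/4) : ℝ) = (-(5/4) : ℝ) := by norm_num
      rw [h3]
      refine Real.rpow_le_rpow_of_nonpos (by positivity) ?_ (by norm_num)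
      have := abs_nonneg r
      linarith
    have h4 : ((δ * a) / 4) ^ (-(5/4) : ℝ) = (δ * a) ^ (-(5/4) : ℝ) * (4:ℝ) ^ ((5/4) : ℝ) := by
      rw [Real.div_rpow hda.le (by norm_num), div_eq_mul_inv, ← Real.rpow_neg (by norm_num)]
      norm_num
    have h5 : (4:ℝ) ^ ((5/4) : ℝ) ≤ 64 := by
      calc (4:ℝ) ^ ((5/4) : ℝ) ≤ (4:ℝ) ^ ((3:ℕ) : ℝ) :=
            Real.rpow_le_rpow_of_exponent_le (by norm_num) (by norm_num)
        _ = 64 := by rw [Real.rpow_natCast]; norm_num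
    calc ‖J‖ ≤ C1 * p ^ (-(1 + 1/4) : ℝ) := hJ1
      _ ≤ C1 * ((δ * a) ^ (-(5/4) : ℝ) * 64) := by
          refine mul_le_mul_of_nonneg_left ?_ hC1.le
          rw [h4] at h2
          exact h2.trans (mul_le_mul_of_nonneg_left h5 hpos.le)
      _ ≤ _ := by nlinarith [mul_pos hC2 hpos]
  · have hr1 : 1 ≤ |r| := by
      rw [hk]
      exact_mod_cast Int.one_le_abs hk0
    have hr0 : 0 < |r| := by linarith
    rw [← hk]
    have hs : 0 < δ * X + |r| := by linarith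
    have h2 : p ^ (-(1 + 2) : ℝ) ≤ ((δ * X + |r|) / 4) ^ (-3 : ℝ) := by
      have h3 : (-(1 + 2) : ℝ) = (-3 : ℝ) := by norm_num
      rw [h3]
      exact Real.rpow_le_rpow_of_nonpos (by positivity) hp (by norm_num)
    have h4 : ((δ * X + |r|) / 4) ^ (-3 : ℝ) = (δ * X + |r|) ^ (-3 : ℝ) * 64 := by
      rw [Real.div_rpow hs.le (by norm_num), div_eq_mul_inv, ← Real.rpow_neg (by norm_num)]
      norm_num
    have h5 : (δ * X + |r|) ^ (-3 : ℝ) ≤ (δ * a) ^ (-(5/4) : ℝ) * |r| ^ (-(7/4) : ℝ) := by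
      have h6 : (δ * X + |r|) ^ (-3 : ℝ) = (δ * X + |r|) ^ (-(5/4) : ℝ) * (δ * X + |r|) ^ (-(7/4) : ℝ) := by
        rw [← Real.rpow_add hs]; norm_num
      rw [h6]
      refine mul_le_mul ?_ ?_ (by positivity) (by positivity)
      · exact Real.rpow_le_rpow_of_nonpos hda (by linarith) (by norm_num)
      · exact Real.rpow_le_rpow_of_nonpos hr0 (by linarith) (by norm_num)
    have hq : 0 ≤ (δ * a) ^ (-(5/4) : ℝ) * |r| ^ (-(7/4) : ℝ) := by positivity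
    calc ‖J‖ ≤ C2 * p ^ (-(1 + 2) : ℝ) := hJ2
      _ ≤ C2 * ((δ * a) ^ (-(5/4) : ℝ) * |r| ^ (-(7/4) : ℝ) * 64) := by
          refine mul_le_mul_of_nonneg_left ?_ hC2.le
          rw [h4] at h2
          exact h2.trans (mul_le_mul_of_nonneg_right h5 (by norm_num))
      _ ≤ _ := by nlinarith [mul_nonneg hC1.le hq]

theorem Jsum_bd : ∃ C : ℝ, 0 < C ∧ ∀ δ : ℝ, 0 < δ → δ ≤ 1/4 → ∑' ab : ℕ × ℕ, ‖T4 δ 1 1 ab‖ ≤ C * δ ^ (-(5/4) : ℝ) := by
  obtain ⟨c1, hc1, H1⟩ := Jk_bd (c := 1/4) (by norm_num)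
  obtain ⟨c2, hc2, H2⟩ := Jk_bd (c := 2) (by norm_num)
  have hL : 0 < Lam 1 1 := by unfold Lam; positivity
  set C1 : ℝ := c1 * Lam 1 1 ^ (1/4 : ℝ) with hC1d
  set C2 : ℝ := c2 * Lam 1 1 ^ (2 : ℝ) with hC2d
  have hC1 : 0 < C1 := by positivity
  have hC2 : 0 < C2 := by positivity
  set S : ℝ := ∑' p : ℕ × ℤ, m25_F p with hS
  have hS0 : 0 ≤ S := tsum_nonneg m25_F_nonneg
  refine ⟨(C1 + C2) * 64 * S + 1, by positivity, fun δ h0 h1 => ?_⟩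
  set K : ℝ := (C1 + C2) * 64 with hK
  have hK0 : 0 < K := by positivity
  have hd : 0 < δ ^ (-(5/4) : ℝ) := by positivity
  have key : ∀ ab : ℕ × ℕ, ‖T4 δ 1 1 ab‖ ≤
      K * δ ^ (-(5/4) : ℝ) / 2 * m25_G ab +
      K * δ ^ (-(5/4) : ℝ) / 2 * m25_G2 ab := by
    rintro ⟨a, b⟩
    show ‖T4 δ 1 1 (a, b)‖ ≤
      K * δ ^ (-(5/4) : ℝ) / 2 * (m25_f a * m25_w ((a:ℤ) - b)) +
      K * δ ^ (-(5/4) : ℝ) / 2 * (m25_f b * m25_w ((a:ℤ) - b))
    have hnn : 0 ≤ K * δ ^ (-(5/4) : ℝ) / 2 * (m25_f a * m25_w ((a:ℤ) - b)) +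
      K * δ ^ (-(5/4) : ℝ) / 2 * (m25_f b * m25_w ((a:ℤ) - b)) := by
      have := m25_f_nonneg a
      have := m25_f_nonneg b
      have := m25_w_nonneg ((a:ℤ) - b)
      positivity
    rcases Nat.eq_zero_or_pos a with rfl | ha
    · refine le_trans (le_of_eq ?_) hnn
      simp [T4, dv]
    rcases Nat.eq_zero_or_pos b with rfl | hb
    · refine le_trans (le_of_eq ?_) hnn
      simp [T4, dv]
    have ha' : (0:ℝ) < a := by exact_mod_cast ha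
    have hb' : (0:ℝ) < b := by exact_mod_cast hb
    have hT : ‖T4 δ 1 1 (a, b)‖ = dv a * dv b * ‖Jk (Lam 1 1) (pf δ ((a:ℝ) + b) ((a:ℝ) - b))‖ := by
      unfold T4
      have hda : 0 ≤ dv a := by unfold dv; positivity
      have hdb : 0 ≤ dv b := by unfold dv; positivity
      rw [norm_mul, Complex.norm_real, Real.norm_of_nonneg (mul_nonneg hda hdb)]
      simp
    have hre : 0 < (pf δ ((a:ℝ) + b) ((a:ℝ) - b)).re := by
      rw [m25_pf_re]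
      have hsin : 0 < Real.sin δ := Real.sin_pos_of_pos_of_lt_pi h0 (by linarith [Real.pi_gt_three])
      positivity
    have hp := m25_pf_norm h0 h1 (X := (a:ℝ) + b) (r := (a:ℝ) - b) (by positivity)
    have hJ1 := H1 (Lam 1 1) hL _ hre
    have hJ2 := H2 (Lam 1 1) hL _ hre
    have hk : ((a:ℝ) - b) = (((a:ℤ) - b : ℤ) : ℝ) := by push_cast; ring
    have hA := m25_point hC1 hC2 h0 h1 (X := (a:ℝ) + b) (by positivity) ((a:ℤ) - b) hk hp hJ1 hJ2 ha' (by linarith)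
    have hB := m25_point hC1 hC2 h0 h1 (X := (a:ℝ) + b) (by positivity) ((a:ℤ) - b) hk hp hJ1 hJ2 hb' (by linarith)
    rw [hT]
    set J : ℝ := ‖Jk (Lam 1 1) (pf δ ((a:ℝ) + b) ((a:ℝ) - b))‖ with hJ
    have hJ0 : 0 ≤ J := norm_nonneg _
    rw [Real.mul_rpow h0.le ha'.le] at hA
    rw [Real.mul_rpow h0.le hb'.le] at hB
    have h2 : dv a * dv b ≤ (dv a ^ 2 + dv b ^ 2) / 2 := by nlinarith [sq_nonneg (dv a - dv b)]
    calc dv a * dv b * J ≤ (dv a ^ 2 + dv b ^ 2) / 2 * J := mul_le_mul_of_nonneg_right h2 hJ0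
      _ = dv a ^ 2 / 2 * J + dv b ^ 2 / 2 * J := by ring
      _ ≤ dv a ^ 2 / 2 * (K * (δ ^ (-(5/4) : ℝ) * (a:ℝ) ^ (-(5/4) : ℝ) * m25_w ((a:ℤ) - b))) +
          dv b ^ 2 / 2 * (K * (δ ^ (-(5/4) : ℝ) * (b:ℝ) ^ (-(5/4) : ℝ) * m25_w ((a:ℤ) - b))) := by
          gcongr
      _ = _ := by unfold m25_f; ring
  have hsum := ((m25_g1.1.mul_left (K * δ ^ (-(5/4) : ℝ) / 2))).add ((m25_g2.1.mul_left (K * δ ^ (-(5/4) : ℝ) / 2)))
  have hT := (SS_expand h0 h1 (m := 1) (n := 1) le_rfl le_rfl).1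
  calc ∑' ab : ℕ × ℕ, ‖T4 δ 1 1 ab‖ ≤ ∑' ab : ℕ × ℕ, (K * δ ^ (-(5/4) : ℝ) / 2 * m25_G ab +
      K * δ ^ (-(5/4) : ℝ) / 2 * m25_G2 ab) := hT.tsum_le_tsum key hsum
    _ = K * δ ^ (-(5/4) : ℝ) / 2 * (∑' ab : ℕ × ℕ, m25_G ab) +
        K * δ ^ (-(5/4) : ℝ) / 2 * (∑' ab : ℕ × ℕ, m25_G2 ab) := by
        rw [(m25_g1.1.mul_left _).tsum_add (m25_g2.1.mul_left _), tsum_mul_left, tsum_mul_left]
    _ ≤ K * δ ^ (-(5/4) : ℝ) / 2 * S + K * δ ^ (-(5/4) : ℝ) / 2 * S := by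
        have := m25_g1.2
        have := m25_g2.2
        gcongr
    _ = K * S * δ ^ (-(5/4) : ℝ) := by ring
    _ ≤ (K * S + 1) * δ ^ (-(5/4) : ℝ) := by nlinarith

end Pool.Agent.LibF4
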