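import Pool.Agent.LibF4.Defs
import Pool.Agent.LibM3.A2
import Pool.Agent.LibM3.E3
import Pool.Agent.LibZM.CS1
import Pool.Agent.LibZM.Asymp2

/-! Fourth moment, block M, row M02. -/

set_option autoImplicit false

namespace Pool.Agent.LibF4

open MeasureTheory Set Filter Topology Complex
open scoped ComplexConjugate
open Pool.Agent.LibM3 Pool.Agent.LibZM

theorem m02_approx {s : ℂ} (hs : 1/4 ≤ s.re) (h1 : s ≠ 1) :
    ‖riemannZeta s - (1 - 1 / (1 - s))‖ ≤ 4 * ‖s‖ := by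
  have hs0 : 0 < s.re := by linarith
  have hz := zeta_approx hs0 h1 (le_refl 1)
  simp only [Finset.Icc_self, Finset.sum_singleton, Nat.cast_one, Complex.one_cpow,
    Real.one_rpow, mul_one] at hz
  have h3 : ‖s‖ / s.re ≤ 4 * ‖s‖ := by
    rw [div_le_iff₀ hs0]
    nlinarith [norm_nonneg s]
  exact hz.trans h3

theorem m02_zeta1 {s : ℂ} (hs : 1/4 ≤ s.re) :
    ‖riemannZeta₁ s‖ ≤ 1 + ‖s - 1‖ * (1 + 4 * ‖s‖) := by
  by_cases h1 : s = 1
  · subst h1
    simp [riemannZeta₁_one]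
  · have h2 : s - 1 ≠ 0 := sub_ne_zero.mpr h1
    have h2' : 1 - s ≠ 0 := sub_ne_zero.mpr (Ne.symm h1)
    have e : riemannZeta₁ s = (s - 1) * (riemannZeta s - (1 - 1 / (1 - s))) + (s - 1) + 1 := by
      rw [riemannZeta_eq_inv_sub_mul h1]
      field_simp
      ring
    calc ‖riemannZeta₁ s‖ ≤ ‖s - 1‖ * ‖riemannZeta s - (1 - 1 / (1 - s))‖ + ‖s - 1‖ + 1 := by
          rw [e]
          refine (norm_add_le _ _).trans ?_
          rw [norm_one]
          gcongr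
          refine (norm_add_le _ _).trans ?_
          rw [norm_mul]
      _ ≤ ‖s - 1‖ * (4 * ‖s‖) + ‖s - 1‖ + 1 := by
          have := m02_approx hs h1
          gcongr
      _ = _ := by ring

theorem m02_norm {s : ℂ} {a : ℝ} (h : |s.re| ≤ a) : ‖s‖ ≤ a + |s.im| :=
  (Complex.norm_le_abs_re_add_abs_im s).trans (by linarith)

theorem zeta_bd1 : ∃ C : ℝ, 0 < C ∧ ∀ s : ℂ, 1/4 ≤ s.re → s.re ≤ 2 → ‖riemannZeta₁ s‖ ≤ C * (1 + |s.im|) ^ 2 := by
  refine ⟨10, by norm_num, fun s h1 h2 => ?_⟩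
  have hy := abs_nonneg s.im
  have h3 : ‖s‖ ≤ 2 + |s.im| := m02_norm (by rw [abs_le]; constructor <;> linarith)
  have h4 : ‖s - 1‖ ≤ 1 + |s.im| := by
    have h5 := m02_norm (s := s - 1) (a := 1) (by
      rw [Complex.sub_re, Complex.one_re, abs_le]
      constructor <;> linarith)
    rw [Complex.sub_im, Complex.one_im, sub_zero] at h5
    exact h5
  calc ‖riemannZeta₁ s‖ ≤ 1 + ‖s - 1‖ * (1 + 4 * ‖s‖) := m02_zeta1 h1
    _ ≤ 1 + (1 + |s.im|) * (1 + 4 * (2 + |s.im|)) := by gcongr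
    _ ≤ 10 * (1 + |s.im|) ^ 2 := by nlinarith

theorem zeta_bd : ∃ C : ℝ, 0 < C ∧ ∀ s : ℂ, 1/4 ≤ s.re → s.re ≤ 3/4 → ‖riemannZeta s‖ ≤ C * (1 + |s.im|) := by
  refine ⟨9, by norm_num, fun s h1 h2 => ?_⟩
  have hy := abs_nonneg s.im
  have hne : s ≠ 1 := by
    rintro rfl
    norm_num at h2
  have h3 : ‖s‖ ≤ 1 + |s.im| := m02_norm (by rw [abs_le]; constructor <;> linarith)
  have h4 : 1/4 ≤ ‖1 - s‖ := by
    have h5 := Complex.abs_re_le_norm (1 - s)
    rw [Complex.sub_re, Complex.one_re] at h5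
    have h6 := le_abs_self (1 - s.re)
    linarith
  have h5 : ‖1 / (1 - s)‖ ≤ 4 := by
    rw [norm_div, norm_one, div_le_iff₀ (by linarith)]
    linarith
  have h6 := m02_approx h1 hne
  have h7 : riemannZeta s = (riemannZeta s - (1 - 1 / (1 - s))) + (1 - 1 / (1 - s)) := by ring
  rw [h7]
  have h8 : ‖(1 : ℂ) - 1 / (1 - s)‖ ≤ 1 + 4 := by
    refine (norm_sub_le _ _).trans ?_
    rw [norm_one]
    linarith
  refine (norm_add_le _ _).trans ?_
  linarith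

end Pool.Agent.LibF4
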