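import Pool.Agent.LibF4.Defs
import Pool.Agent.LibM3.A2
import Pool.Agent.LibM3.E3
import Pool.Agent.LibZM.CS1
import Pool.Agent.LibZM.Asymp2

/-! Fourth moment, block M, row M03. -/

set_option autoImplicit false

namespace Pool.Agent.LibF4

open MeasureTheory Set Filter Topology Complex
open scoped ComplexConjugate
open Pool.Agent.LibM3 Pool.Agent.LibZM

theorem m03_int {a r : ℝ} (ha : -1 < a) (hr : 0 < r) :
    IntegrableOn (fun t : ℝ => t ^ a * Real.exp (-(r * t))) (Ioi 0) := by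
  have h := integrableOn_rpow_mul_exp_neg_mul_rpow (p := 1) ha one_pos hr
  refine h.congr_fun ?_ measurableSet_Ioi
  intro t ht
  simp only [Real.rpow_one, neg_mul]

theorem m03_meas (s p : ℂ) : AEStronglyMeasurable (fun t : ℝ => (t : ℂ) ^ (s - 1) * cexp (-(p * t)))
    (volume.restrict (Ioi (0:ℝ))) := by
  apply ContinuousOn.aestronglyMeasurable _ measurableSet_Ioi
  intro t ht
  have ht0 : (0:ℝ) < t := ht
  apply ContinuousAt.continuousWithinAt
  apply ContinuousAt.mul
  · exact continuousAt_ofReal_cpow_const t (s - 1) (Or.inr ht0.ne')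
  · fun_prop

theorem m03_norm (s p : ℂ) {t : ℝ} (ht : 0 < t) :
    ‖(t : ℂ) ^ (s - 1) * cexp (-(p * t))‖ = t ^ (s.re - 1) * Real.exp (-(p.re * t)) := by
  rw [norm_mul, Complex.norm_cpow_eq_rpow_re_of_pos ht, Complex.norm_exp]
  have e1 : (s - 1).re = s.re - 1 := by simp
  have e2 : (-(p * (t:ℂ))).re = -(p.re * t) := by
    rw [neg_re, mul_re, ofReal_re, ofReal_im, mul_zero, sub_zero]
  rw [e1, e2]

theorem m03_diff {s : ℂ} (hs : 0 < s.re) {p : ℂ} (hp : 0 < p.re) :
    DifferentiableAt ℂ (fun p : ℂ => ∫ t in Ioi (0:ℝ), (t : ℂ) ^ (s - 1) * cexp (-(p * t))) p := by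
  have hU : {z : ℂ | p.re / 2 < z.re} ∈ 𝓝 p :=
    (isOpen_lt continuous_const Complex.continuous_re).mem_nhds (by
      show p.re / 2 < p.re
      linarith)
  refine (hasDerivAt_integral_of_dominated_loc_of_deriv_le (μ := volume.restrict (Ioi (0:ℝ)))
    (F := fun (z : ℂ) (t : ℝ) => (t : ℂ) ^ (s - 1) * cexp (-(z * t)))
    (F' := fun (z : ℂ) (t : ℝ) => (t : ℂ) ^ (s - 1) * (cexp (-(z * t)) * (-(t : ℂ))))
    (bound := fun t : ℝ => t ^ s.re * Real.exp (-(p.re / 2 * t))) hU ?_ ?_ ?_ ?_ ?_ ?_).2.differentiableAt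
  · exact Filter.Eventually.of_forall (fun z => m03_meas s z)
  · refine (m03_int (a := s.re - 1) (by linarith) hp).mono' (m03_meas s p) ?_
    refine (ae_restrict_iff' measurableSet_Ioi).2 (Filter.Eventually.of_forall ?_)
    intro t ht
    exact (m03_norm s p ht).le
  · have := (m03_meas s p).mul (Complex.continuous_ofReal.neg.aestronglyMeasurable (μ := volume.restrict (Ioi (0:ℝ))))
    refine this.congr (Filter.Eventually.of_forall ?_)
    intro t
    simp only [Pi.mul_apply, Pi.neg_apply]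
    ring
  · refine (ae_restrict_iff' measurableSet_Ioi).2 (Filter.Eventually.of_forall ?_)
    intro t ht z hz
    have ht0 : (0:ℝ) < t := ht
    have hz' : p.re / 2 < z.re := hz
    rw [← mul_assoc, norm_mul, m03_norm s z ht0, norm_neg, Complex.norm_real, Real.norm_eq_abs,
      abs_of_pos ht0]
    have e1 : t ^ s.re = t ^ (s.re - 1) * t := by
      rw [← Real.rpow_add_one ht0.ne']
      congr 1
      ring
    have e2 : Real.exp (-(z.re * t)) ≤ Real.exp (-(p.re / 2 * t)) := by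
      apply Real.exp_le_exp.2
      nlinarith
    rw [e1]
    have e3 : 0 ≤ t ^ (s.re - 1) := Real.rpow_nonneg ht0.le _
    calc t ^ (s.re - 1) * Real.exp (-(z.re * t)) * t = (t ^ (s.re - 1) * t) * Real.exp (-(z.re * t)) := by ring
      _ ≤ _ := by
        apply mul_le_mul_of_nonneg_left e2
        positivity
  · exact m03_int (by linarith) (by linarith)
  · refine Filter.Eventually.of_forall ?_
    intro t z _
    apply HasDerivAt.const_mul
    have h1 : HasDerivAt (fun x : ℂ => -(x * (t:ℂ))) (-(1 * (t : ℂ))) z :=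
      ((hasDerivAt_id z).mul_const (t : ℂ)).fun_neg
    rw [one_mul] at h1
    exact h1.cexp

theorem m03_eq {s : ℂ} (hs : 0 < s.re) {p : ℂ} (hp : 0 < p.re) :
    ∫ t in Ioi (0:ℝ), (t : ℂ) ^ (s - 1) * cexp (-(p * t)) = (1 / p) ^ s * Complex.Gamma s := by
  have hUo : IsOpen {z : ℂ | 0 < z.re} := isOpen_lt continuous_const Complex.continuous_re
  have hUc : Convex ℝ {z : ℂ | 0 < z.re} := convex_halfSpace_re_gt 0
  have hf : AnalyticOnNhd ℂ (fun p : ℂ => ∫ t in Ioi (0:ℝ), (t : ℂ) ^ (s - 1) * cexp (-(p * t)))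
      {z : ℂ | 0 < z.re} := by
    apply DifferentiableOn.analyticOnNhd _ hUo
    intro z hz
    exact (m03_diff hs hz).differentiableWithinAt
  have hg : AnalyticOnNhd ℂ (fun p : ℂ => (1 / p) ^ s * Complex.Gamma s) {z : ℂ | 0 < z.re} := by
    apply DifferentiableOn.analyticOnNhd _ hUo
    intro z hz
    have hz0 : (0:ℝ) < z.re := hz
    have hzne : z ≠ 0 := by
      intro h
      rw [h] at hz0
      simp at hz0
    have hre : 0 < (1 / z).re := by
      rw [one_div, Complex.inv_re]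
      exact div_pos hz0 (Complex.normSq_pos.2 hzne)
    apply DifferentiableAt.differentiableWithinAt
    apply DifferentiableAt.mul_const
    apply DifferentiableAt.cpow_const
    · exact (differentiableAt_const _).div differentiableAt_id hzne
    · exact Or.inl hre
  have h1 : (1:ℂ) ∈ {z : ℂ | 0 < z.re} := by simp
  have hfreq : ∃ᶠ z in 𝓝[≠] (1:ℂ), (fun p : ℂ => ∫ t in Ioi (0:ℝ), (t : ℂ) ^ (s - 1) * cexp (-(p * t))) z
      = (fun p : ℂ => (1 / p) ^ s * Complex.Gamma s) z := by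
    have hT : Tendsto (fun n : ℕ => ((1 + 1 / ((n:ℝ) + 1) : ℝ) : ℂ)) atTop (𝓝[≠] (1:ℂ)) := by
      rw [tendsto_nhdsWithin_iff]
      constructor
      · have : Tendsto (fun n : ℕ => (1 + 1 / ((n:ℝ) + 1) : ℝ)) atTop (𝓝 (1 + 0)) :=
          tendsto_const_nhds.add tendsto_one_div_add_atTop_nhds_zero_nat
        rw [add_zero] at this
        exact_mod_cast (Complex.continuous_ofReal.tendsto 1).comp this
      · refine Filter.Eventually.of_forall ?_
        intro n hn
        have : (1 + 1 / ((n:ℝ) + 1) : ℝ) = 1 := Complex.ofReal_eq_one.1 hn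
        have h2 : (0:ℝ) < 1 / ((n:ℝ) + 1) := by positivity
        linarith
    refine hT.frequently (Filter.Frequently.of_forall ?_)
    intro n
    have h2 : (0:ℝ) < 1 + 1 / ((n:ℝ) + 1) := by positivity
    exact Complex.integral_cpow_mul_exp_neg_mul_Ioi hs h2
  exact hf.eqOn_of_preconnected_of_frequently_eq hg hUc.isPreconnected h1 hfreq hp

/-
Let p = e^{iθ} = cos θ + i sin θ, Re p = cos θ > 0. Complex.integral_cpow_mul_exp_neg_mul_Ioi: ∫_{Ioi 0} t^(s-1) e^{-p t} dt = (1/p)^s Γ(s).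
1/p = e^{-iθ}, so ‖(1/p)^s‖ = ‖exp(-iθ s)‖ = exp(θ Im s) (log(1/p) = -iθ since |θ| < π/2 < π: Complex.log_exp; Complex.cpow_def_of_ne_zero).
Left side: norm ≤ ∫ t^(Re s - 1) e^{-t cos θ} dt = (1/cos θ)^(Re s) Γ(Re s) (Real.integral_rpow_mul_exp_neg_mul_Ioi).
norm_integral_le_integral_norm, Complex.norm_cpow_eq_rpow_re_of_pos, Complex.norm_exp.
-/

theorem gamma_bd {s : ℂ} (hs : 0 < s.re) {θ : ℝ} (hθ : |θ| < Real.pi / 2) :
    ‖Complex.Gamma s‖ * Real.exp (s.im * θ) ≤ Real.Gamma s.re * Real.cos θ ^ (-s.re) := by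
  have hc : 0 < Real.cos θ := Real.cos_pos_of_mem_Ioo ⟨by linarith [(abs_lt.1 hθ).1], (abs_lt.1 hθ).2⟩
  set p : ℂ := cexp ((θ : ℂ) * I) with hp
  have hpre : p.re = Real.cos θ := by
    rw [hp, Complex.exp_ofReal_mul_I_re]
  have h1 := m03_eq hs (p := p) (by rw [hpre]; exact hc)
  have h2 := Real.integral_rpow_mul_exp_neg_mul_Ioi hs hc
  have hinv : (1 / p) = cexp (-((θ : ℂ) * I)) := by
    rw [hp, one_div, ← Complex.exp_neg]
  have hlog : Complex.log (1 / p) = -((θ : ℂ) * I) := by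
    rw [hinv, Complex.log_exp]
    · simp only [neg_im, mul_im, ofReal_re, I_im, mul_one, ofReal_im, I_re, mul_zero, add_zero]
      linarith [(abs_lt.1 hθ).2, Real.pi_pos]
    · simp only [neg_im, mul_im, ofReal_re, I_im, mul_one, ofReal_im, I_re, mul_zero, add_zero]
      linarith [(abs_lt.1 hθ).1, Real.pi_pos]
  have hne : (1 / p) ≠ 0 := by
    rw [hinv]; exact Complex.exp_ne_zero _
  have hn : ‖(1 / p) ^ s‖ = Real.exp (s.im * θ) := by
    rw [Complex.cpow_def_of_ne_zero hne, hlog, Complex.norm_exp]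
    congr 1
    simp only [mul_re, neg_re, neg_im, mul_im, ofReal_re, I_im, mul_one, ofReal_im, I_re, mul_zero,
      add_zero, sub_zero]
    ring
  have h3 : ‖∫ t in Ioi (0:ℝ), (t : ℂ) ^ (s - 1) * cexp (-(p * t))‖
      ≤ ∫ t in Ioi (0:ℝ), t ^ (s.re - 1) * Real.exp (-(Real.cos θ * t)) := by
    refine (norm_integral_le_integral_norm _).trans (le_of_eq ?_)
    refine setIntegral_congr_fun measurableSet_Ioi ?_
    intro t ht
    have ht0 : (0:ℝ) < t := ht
    simp only [norm_mul]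
    rw [Complex.norm_cpow_eq_rpow_re_of_pos ht0, Complex.norm_exp]
    have e1 : (s - 1).re = s.re - 1 := by simp
    have e2 : (-(p * (t:ℂ))).re = -(Real.cos θ * t) := by
      rw [neg_re, mul_re, ofReal_re, ofReal_im, mul_zero, sub_zero, hpre]
    rw [e1, e2]
  rw [h1, h2, norm_mul, hn] at h3
  calc ‖Complex.Gamma s‖ * Real.exp (s.im * θ) = Real.exp (s.im * θ) * ‖Complex.Gamma s‖ := by ring
    _ ≤ (1 / Real.cos θ) ^ s.re * Real.Gamma s.re := h3
    _ = Real.Gamma s.re * Real.cos θ ^ (-s.re) := by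
      rw [one_div, Real.inv_rpow hc.le, Real.rpow_neg hc.le]
      ring

end Pool.Agent.LibF4
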