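import Pool.Agent.LibF4.Defs
import Pool.Agent.LibM3.A2
import Pool.Agent.LibM3.E3
import Pool.Agent.LibZM.CS1
import Pool.Agent.LibZM.Asymp2
import Pool.Agent.LibF4.M02
import Pool.Agent.LibF4.M03

/-! Fourth moment, block M, row M04. -/

set_option autoImplicit false

namespace Pool.Agent.LibF4

open MeasureTheory Set Filter Topology Complex
open scoped ComplexConjugate
open Pool.Agent.LibM3 Pool.Agent.LibZM

theorem m04_key {δ : ℝ} (h0 : 0 < δ) (h1 : δ ≤ 1/4) : ∃ C : ℝ, 0 < C ∧ ∀ s : ℂ, 1/4 ≤ s.re → s.re ≤ 2 →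
    ‖Complex.Gamma s‖ * ‖cexp (s * (((Real.pi / 2 - δ : ℝ) : ℂ) * I))‖ ≤ C * Real.exp (-(δ / 2 * |s.im|)) := by
  have hpi := Real.pi_gt_three
  have hs0 : 0 < Real.sin (δ / 2) := Real.sin_pos_of_pos_of_lt_pi (by linarith) (by linarith)
  have hs1 : Real.sin (δ / 2) ≤ 1 := Real.sin_le_one _
  have hcont : ContinuousOn Real.Gamma (Icc (1/4:ℝ) 2) := by
    intro x hx
    apply ContinuousAt.continuousWithinAt
    refine (Real.differentiableAt_Gamma (s := x) ?_).continuousAt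
    intro m hm
    have : (0:ℝ) ≤ m := Nat.cast_nonneg m
    linarith [hx.1]
  obtain ⟨G, hG⟩ := isCompact_Icc.exists_bound_of_continuousOn hcont
  have hG0 : 0 ≤ G := (norm_nonneg _).trans (hG (1/4) ⟨le_refl _, by norm_num⟩)
  refine ⟨(G + 1) * Real.sin (δ / 2) ^ (-2 : ℝ), by positivity, ?_⟩
  intro s hs hs2
  have hre : 0 < s.re := by linarith
  have hnorm : ‖cexp (s * (((Real.pi / 2 - δ : ℝ) : ℂ) * I))‖ = Real.exp (-((Real.pi / 2 - δ) * s.im)) := by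
    rw [Complex.norm_exp]
    congr 1
    simp only [mul_re, ofReal_re, I_re, mul_zero, ofReal_im, I_im, mul_one, sub_self, mul_im, add_zero]
    ring
  have hGs : Real.Gamma s.re ≤ G + 1 := by
    have := hG s.re ⟨hs, hs2⟩
    rw [Real.norm_eq_abs] at this
    linarith [le_abs_self (Real.Gamma s.re)]
  have hsin : Real.sin (δ / 2) ^ (-s.re) ≤ Real.sin (δ / 2) ^ (-2 : ℝ) :=
    Real.rpow_le_rpow_of_exponent_ge hs0 hs1 (by linarith)
  have hΓ0 : 0 ≤ Real.Gamma s.re := (Real.Gamma_pos_of_pos hre).le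
  -- common estimate
  have hcommon : ∀ θ : ℝ, |θ| < Real.pi / 2 → Real.cos θ = Real.sin (δ / 2) →
      -((Real.pi / 2 - δ) * s.im) ≤ s.im * θ + -(δ / 2 * |s.im|) →
      ‖Complex.Gamma s‖ * ‖cexp (s * (((Real.pi / 2 - δ : ℝ) : ℂ) * I))‖ ≤
        (G + 1) * Real.sin (δ / 2) ^ (-2 : ℝ) * Real.exp (-(δ / 2 * |s.im|)) := by
    intro θ hθ hcos hle
    have hb := gamma_bd hre hθ
    rw [hcos] at hb
    rw [hnorm]
    calc ‖Complex.Gamma s‖ * Real.exp (-((Real.pi / 2 - δ) * s.im))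
        ≤ ‖Complex.Gamma s‖ * (Real.exp (s.im * θ) * Real.exp (-(δ / 2 * |s.im|))) := by
          rw [← Real.exp_add]
          exact mul_le_mul_of_nonneg_left (Real.exp_le_exp.2 hle) (norm_nonneg _)
      _ = (‖Complex.Gamma s‖ * Real.exp (s.im * θ)) * Real.exp (-(δ / 2 * |s.im|)) := by ring
      _ ≤ (Real.Gamma s.re * Real.sin (δ / 2) ^ (-s.re)) * Real.exp (-(δ / 2 * |s.im|)) :=
          mul_le_mul_of_nonneg_right hb (Real.exp_pos _).le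
      _ ≤ ((G + 1) * Real.sin (δ / 2) ^ (-2 : ℝ)) * Real.exp (-(δ / 2 * |s.im|)) := by
          apply mul_le_mul_of_nonneg_right _ (Real.exp_pos _).le
          exact mul_le_mul hGs hsin (Real.rpow_nonneg hs0.le _) (by linarith)
  rcases le_total 0 s.im with hi | hi
  · apply hcommon (Real.pi / 2 - δ / 2)
    · rw [abs_lt]; constructor <;> linarith
    · rw [Real.cos_pi_div_two_sub]
    · rw [abs_of_nonneg hi]
      nlinarith
  · apply hcommon (-(Real.pi / 2 - δ / 2))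
    · rw [abs_lt]; constructor <;> linarith
    · rw [Real.cos_neg, Real.cos_pi_div_two_sub]
    · rw [abs_of_nonpos hi]
      nlinarith

theorem Az_bd {δ : ℝ} (h0 : 0 < δ) (h1 : δ ≤ 1/4) : ∃ C : ℝ, 0 < C ∧ ∀ s : ℂ, 1/4 ≤ s.re → s.re ≤ 3/4 →
    ‖Az δ s‖ ≤ C * (1 + |s.im|) ^ 2 * Real.exp (-(δ / 2 * |s.im|)) := by
  obtain ⟨C, hC, hk⟩ := m04_key h0 h1
  obtain ⟨D, hD, hz⟩ := zeta_bd
  refine ⟨C * D ^ 2, by positivity, ?_⟩
  intro s hs hs2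
  have hk' := hk s hs (by linarith)
  have hz' := hz s hs hs2
  unfold Az
  rw [norm_mul, norm_mul, norm_pow]
  have h2 : ‖riemannZeta s‖ ^ 2 ≤ (D * (1 + |s.im|)) ^ 2 := pow_le_pow_left₀ (norm_nonneg _) hz' 2
  calc ‖Complex.Gamma s‖ * ‖riemannZeta s‖ ^ 2 * ‖cexp (s * (((Real.pi / 2 - δ : ℝ) : ℂ) * I))‖
      = (‖Complex.Gamma s‖ * ‖cexp (s * (((Real.pi / 2 - δ : ℝ) : ℂ) * I))‖) * ‖riemannZeta s‖ ^ 2 := by ring
    _ ≤ (C * Real.exp (-(δ / 2 * |s.im|))) * (D * (1 + |s.im|)) ^ 2 := by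
        apply mul_le_mul hk' h2 (by positivity) (by positivity)
    _ = _ := by ring

theorem GZ_bd {δ : ℝ} (h0 : 0 < δ) (h1 : δ ≤ 1/4) : ∃ C : ℝ, 0 < C ∧ ∀ s : ℂ, 1/4 ≤ s.re → s.re ≤ 2 →
    ‖Complex.Gamma s * riemannZeta₁ s ^ 2 * cexp (s * (((Real.pi / 2 - δ : ℝ) : ℂ) * I))‖ ≤
      C * (1 + |s.im|) ^ 4 * Real.exp (-(δ / 2 * |s.im|)) := by
  obtain ⟨C, hC, hk⟩ := m04_key h0 h1
  obtain ⟨D, hD, hz⟩ := zeta_bd1
  refine ⟨C * D ^ 2, by positivity, ?_⟩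
  intro s hs hs2
  have hk' := hk s hs (by linarith)
  have hz' := hz s hs hs2
  rw [norm_mul, norm_mul, norm_pow]
  have h2 : ‖riemannZeta₁ s‖ ^ 2 ≤ (D * (1 + |s.im|) ^ 2) ^ 2 := pow_le_pow_left₀ (norm_nonneg _) hz' 2
  calc ‖Complex.Gamma s‖ * ‖riemannZeta₁ s‖ ^ 2 * ‖cexp (s * (((Real.pi / 2 - δ : ℝ) : ℂ) * I))‖
      = (‖Complex.Gamma s‖ * ‖cexp (s * (((Real.pi / 2 - δ : ℝ) : ℂ) * I))‖) * ‖riemannZeta₁ s‖ ^ 2 := by ring
    _ ≤ (C * Real.exp (-(δ / 2 * |s.im|))) * (D * (1 + |s.im|) ^ 2) ^ 2 := by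
        apply mul_le_mul hk' h2 (by positivity) (by positivity)
    _ = _ := by ring

end Pool.Agent.LibF4
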