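import Pool.Agent.LibF4.Defs
import Pool.Agent.LibM3.A2
import Pool.Agent.LibM3.E3
import Pool.Agent.LibZM.CS1
import Pool.Agent.LibZM.Asymp2

/-! Fourth moment, block M, row M05. -/

set_option autoImplicit false

namespace Pool.Agent.LibF4

open MeasureTheory Set Filter Topology Complex
open scoped ComplexConjugate
open Pool.Agent.LibM3 Pool.Agent.LibZM

theorem m05_exp {a : ℝ} (ha : 0 < a) : Integrable (fun y : ℝ => Real.exp (-(a * |y|))) := by
  rw [← integrableOn_univ, ← Set.Iic_union_Ioi (a := (0 : ℝ)), integrableOn_union]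
  constructor
  · refine (integrableOn_exp_mul_Iic ha 0).congr_fun (fun y hy => ?_) measurableSet_Iic
    show Real.exp (a * y) = Real.exp (-(a * |y|))
    rw [abs_of_nonpos hy]
    ring_nf
  · refine (integrableOn_exp_mul_Ioi (a := -a) (neg_lt_zero.2 ha) 0).congr_fun
      (fun y hy => ?_) measurableSet_Ioi
    show Real.exp (-a * y) = Real.exp (-(a * |y|))
    rw [abs_of_pos hy]
    ring_nf

theorem m05_le {δ : ℝ} (h0 : 0 < δ) (k : ℕ) (y : ℝ) :
    (1 + |y|) ^ k * Real.exp (-(δ / 2 * |y|))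
      ≤ (k.factorial * Real.exp (δ / 4) / (δ / 4) ^ k) * Real.exp (-(δ / 4 * |y|)) := by
  have hx : 0 ≤ δ / 4 * (1 + |y|) := by positivity
  have h1 := Real.pow_div_factorial_le_exp (δ / 4 * (1 + |y|)) hx k
  have h2 : (1 + |y|) ^ k ≤ k.factorial * Real.exp (δ / 4 * (1 + |y|)) / (δ / 4) ^ k := by
    rw [le_div_iff₀ (by positivity), mul_comm, ← mul_pow]
    rwa [div_le_iff₀ (by positivity), mul_comm (Real.exp _)] at h1
  have h3 : k.factorial * Real.exp (δ / 4 * (1 + |y|)) / (δ / 4) ^ k * Real.exp (-(δ / 2 * |y|))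
      = (k.factorial * Real.exp (δ / 4) / (δ / 4) ^ k) * Real.exp (-(δ / 4 * |y|)) := by
    have h4 : Real.exp (δ / 4 * (1 + |y|)) * Real.exp (-(δ / 2 * |y|))
        = Real.exp (δ / 4) * Real.exp (-(δ / 4 * |y|)) := by
      rw [← Real.exp_add, ← Real.exp_add]
      ring_nf
    rw [div_mul_eq_mul_div, mul_assoc, h4, ← mul_assoc, div_mul_eq_mul_div _ _ (Real.exp _)]
  rw [← h3]
  exact mul_le_mul_of_nonneg_right h2 (Real.exp_pos _).le

theorem m05_lim {a : ℝ} (ha : 0 < a) {l : Filter ℝ} (hl : Tendsto (fun y : ℝ => |y|) l atTop) :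
    Tendsto (fun y : ℝ => Real.exp (-(a * |y|))) l (𝓝 0) :=
  Real.tendsto_exp_neg_atTop_nhds_zero.comp (hl.const_mul_atTop ha)

theorem m05_tend {δ : ℝ} (h0 : 0 < δ) (k : ℕ) (c : ℝ) {l : Filter ℝ}
    (hl : Tendsto (fun y : ℝ => |y|) l atTop) :
    Tendsto (fun y : ℝ => c * ((1 + |y|) ^ k * Real.exp (-(δ / 2 * |y|)))) l (𝓝 0) := by
  have h1 : Tendsto (fun y : ℝ => (1 + |y|) ^ k * Real.exp (-(δ / 2 * |y|))) l (𝓝 0) := by
    refine squeeze_zero (fun y => by positivity) (m05_le h0 k) ?_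
    have h2 := (m05_lim (a := δ / 4) (by positivity) hl).const_mul
      ((k.factorial * Real.exp (δ / 4) / (δ / 4) ^ k : ℝ))
    rwa [mul_zero] at h2
  have h3 := h1.const_mul c
  rwa [mul_zero] at h3

theorem dom_int {δ : ℝ} (h0 : 0 < δ) (k : ℕ) (c : ℝ) :
    Integrable (fun y : ℝ => c * ((1 + |y|) ^ k * Real.exp (-(δ / 2 * |y|)))) ∧
    Tendsto (fun y : ℝ => c * ((1 + |y|) ^ k * Real.exp (-(δ / 2 * |y|)))) atTop (𝓝 0) ∧
    Tendsto (fun y : ℝ => c * ((1 + |y|) ^ k * Real.exp (-(δ / 2 * |y|)))) atBot (𝓝 0) := by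
  refine ⟨?_, m05_tend h0 k c tendsto_abs_atTop_atTop, m05_tend h0 k c tendsto_abs_atBot_atTop⟩
  refine Integrable.const_mul ?_ c
  refine Integrable.mono' ((m05_exp (a := δ / 4) (by positivity)).const_mul
    (k.factorial * Real.exp (δ / 4) / (δ / 4) ^ k)) ?_ (Eventually.of_forall fun y => ?_)
  · exact (by fun_prop : Continuous fun y : ℝ =>
      (1 + |y|) ^ k * Real.exp (-(δ / 2 * |y|))).aestronglyMeasurable
  · rw [Real.norm_of_nonneg (by positivity)]
    exact m05_le h0 k y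

end Pool.Agent.LibF4
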