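import Pool.Agent.LibF4.Defs
import Pool.Agent.LibM3.A2
import Pool.Agent.LibM3.E3
import Pool.Agent.LibZM.CS1
import Pool.Agent.LibZM.Asymp2
import Pool.Agent.LibF4.M04
import Pool.Agent.LibF4.M05

/-! Fourth moment, block M, row M06. -/

set_option autoImplicit false

namespace Pool.Agent.LibF4

open MeasureTheory Set Filter Topology Complex
open scoped ComplexConjugate
open Pool.Agent.LibM3 Pool.Agent.LibZM

theorem m06_diff {δ : ℝ} {x : ℝ} (hx : 0 < x) (s : ℂ) (hs0 : 1/4 ≤ s.re) (hs1 : s.re ≤ 3/4) :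
    DifferentiableAt ℂ (fun s : ℂ => Az δ s * (x:ℂ) ^ (-s)) s := by
  have hG : DifferentiableAt ℂ Complex.Gamma s := by
    apply Complex.differentiableAt_Gamma
    intro m h
    have h1 := congrArg Complex.re h
    simp at h1
    have h2 : (0:ℝ) ≤ m := Nat.cast_nonneg m
    linarith
  have hZ : DifferentiableAt ℂ riemannZeta s := by
    apply differentiableAt_riemannZeta
    intro h
    rw [h] at hs1
    simp at hs1
    linarith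
  have hx' : (x:ℂ) ≠ 0 := by exact_mod_cast hx.ne'
  have hP : DifferentiableAt ℂ (fun s : ℂ => (x:ℂ) ^ (-s)) s :=
    (differentiableAt_id.neg).const_cpow (Or.inl hx')
  have hE : DifferentiableAt ℂ (fun s : ℂ => cexp (s * (((Real.pi / 2 - δ : ℝ) : ℂ) * I))) s := by
    fun_prop
  have hA : DifferentiableAt ℂ (Az δ) s := (hG.mul (hZ.pow 2)).mul hE
  exact hA.mul hP

theorem m06_rpow {x σ : ℝ} (hx : 0 < x) (h0 : 1/4 ≤ σ) (h1 : σ ≤ 3/4) :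
    x ^ (-σ) ≤ x ^ (-(1/4) : ℝ) + x ^ (-(3/4) : ℝ) := by
  have p1 := Real.rpow_pos_of_pos hx (-(1/4) : ℝ)
  have p2 := Real.rpow_pos_of_pos hx (-(3/4) : ℝ)
  rcases le_total 1 x with h | h
  · have := Real.rpow_le_rpow_of_exponent_le h (show -σ ≤ -(1/4) by linarith)
    linarith
  · have := Real.rpow_le_rpow_of_exponent_ge hx h (show -(3/4) ≤ -σ by linarith)
    linarith

theorem m06_norm {x : ℝ} (hx : 0 < x) (σ y : ℝ) :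
    ‖(x:ℂ) ^ (-((σ:ℂ) + y * I))‖ = x ^ (-σ) := by
  rw [Complex.norm_cpow_eq_rpow_re_of_pos hx]
  congr 1
  simp

theorem m06_shift {δ : ℝ} (h0 : 0 < δ) (h1 : δ ≤ 1/4) {x : ℝ} (hx : 0 < x) {a b : ℝ} (hab : a ≤ b)
    (ha : 1/4 ≤ a) (hb : b ≤ 3/4) :
    (∀ σ ∈ Icc a b, Integrable fun y : ℝ => Az δ ((σ:ℂ) + y * I) * (x:ℂ) ^ (-((σ:ℂ) + y * I))) ∧
    ∫ y : ℝ, Az δ ((a:ℂ) + y * I) * (x:ℂ) ^ (-((a:ℂ) + y * I)) =
      ∫ y : ℝ, Az δ ((b:ℂ) + y * I) * (x:ℂ) ^ (-((b:ℂ) + y * I)) := by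
  obtain ⟨C, hC, hA⟩ := Az_bd h0 h1
  set c : ℝ := C * (x ^ (-(1/4) : ℝ) + x ^ (-(3/4) : ℝ)) with hc
  obtain ⟨g1, g2, g3⟩ := dom_int h0 2 c
  refine vertical_shift (G := fun s : ℂ => Az δ s * (x:ℂ) ^ (-s)) hab
    (fun s hs0 hs1 => m06_diff hx s (ha.trans hs0) (hs1.trans hb)) g1 g2 g3 ?_
  intro σ hσ y
  have hre : ((σ:ℂ) + y * I).re = σ := by simp
  have him : ((σ:ℂ) + y * I).im = y := by simp
  have e1 := hA ((σ:ℂ) + y * I) (by rw [hre]; exact ha.trans hσ.1) (by rw [hre]; exact hσ.2.trans hb)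
  rw [him] at e1
  have e2 := m06_rpow hx (ha.trans hσ.1) (hσ.2.trans hb)
  show ‖Az δ ((σ:ℂ) + y * I) * (x:ℂ) ^ (-((σ:ℂ) + y * I))‖ ≤ _
  rw [norm_mul, m06_norm hx]
  calc ‖Az δ ((σ:ℂ) + y * I)‖ * x ^ (-σ)
      ≤ (C * (1 + |y|) ^ 2 * Real.exp (-(δ / 2 * |y|))) * (x ^ (-(1/4) : ℝ) + x ^ (-(3/4) : ℝ)) :=
        mul_le_mul e1 e2 (Real.rpow_nonneg hx.le _) (by positivity)
    _ = c * ((1 + |y|) ^ 2 * Real.exp (-(δ / 2 * |y|))) := by rw [hc]; ring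

theorem Fl_int {δ : ℝ} (h0 : 0 < δ) (h1 : δ ≤ 1/4) {σ x : ℝ} (hσ : σ ∈ Icc (1/4:ℝ) (3/4)) (hx : 0 < x) :
    Integrable (fun y : ℝ => Az δ ((σ:ℂ) + y * I) * (x:ℂ) ^ (-((σ:ℂ) + y * I))) :=
  (m06_shift h0 h1 hx (a := 1/4) (b := 3/4) (by norm_num) le_rfl le_rfl).1 σ hσ

theorem Fl_eq {δ : ℝ} (h0 : 0 < δ) (h1 : δ ≤ 1/4) {σ x : ℝ} (hσ : σ ∈ Icc (1/4:ℝ) (3/4)) (hx : 0 < x) :
    Fl δ σ x = Fz δ x := by
  unfold Fz Fl
  congr 1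
  rcases le_total σ (1/2) with h | h
  · exact (m06_shift h0 h1 hx h hσ.1 (by norm_num)).2
  · exact (m06_shift h0 h1 hx h (by norm_num) hσ.2).2.symm

end Pool.Agent.LibF4
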