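import Pool.Agent.LibF4.Defs
import Pool.Agent.LibM3.A2
import Pool.Agent.LibM3.E3
import Pool.Agent.LibZM.CS1
import Pool.Agent.LibZM.Asymp2
import Pool.Agent.LibF4.M04
import Pool.Agent.LibF4.M05
import Pool.Agent.LibF4.M06

/-! Fourth moment, block M, row M07. -/

set_option autoImplicit false

namespace Pool.Agent.LibF4

open MeasureTheory Set Filter Topology Complex
open scoped ComplexConjugate
open Pool.Agent.LibM3 Pool.Agent.LibZM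

theorem m07_norm {x : ℝ} (hx : 0 < x) (σ y : ℝ) :
    ‖(x:ℂ) ^ (-((σ:ℂ) + y * I))‖ = x ^ (-σ) := by
  rw [Complex.norm_cpow_eq_rpow_re_of_pos hx]
  congr 1
  simp

theorem Fz_bd {δ : ℝ} (h0 : 0 < δ) (h1 : δ ≤ 1/4) : ∃ C : ℝ, 0 < C ∧ ∀ x : ℝ, 0 < x →
    ‖Fz δ x‖ ≤ C * x ^ (-(1/4) : ℝ) ∧ ‖Fz δ x‖ ≤ C * x ^ (-(3/4) : ℝ) := by
  obtain ⟨C, hC, hA⟩ := Az_bd h0 h1
  obtain ⟨g1, -, -⟩ := dom_int h0 2 C
  set K : ℝ := ∫ y : ℝ, C * ((1 + |y|) ^ 2 * Real.exp (-(δ / 2 * |y|))) with hK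
  have hK0 : 0 ≤ K := integral_nonneg fun y => by positivity
  have key : ∀ σ : ℝ, 1/4 ≤ σ → σ ≤ 3/4 → ∀ x : ℝ, 0 < x → ‖Fl δ σ x‖ ≤ (K + 1) * x ^ (-σ) := by
    intro σ hs0 hs1 x hx
    have hx' := Real.rpow_nonneg hx.le (-σ)
    unfold Fl
    rw [norm_mul]
    have e1 : ‖∫ y : ℝ, Az δ ((σ:ℂ) + y * I) * (x:ℂ) ^ (-((σ:ℂ) + y * I))‖ ≤ K * x ^ (-σ) := by
      rw [hK, ← integral_mul_const]
      refine norm_integral_le_of_norm_le (g1.mul_const _) (Eventually.of_forall fun y => ?_)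
      have hre : ((σ:ℂ) + y * I).re = σ := by simp
      have him : ((σ:ℂ) + y * I).im = y := by simp
      have e2 := hA ((σ:ℂ) + y * I) (by rw [hre]; exact hs0) (by rw [hre]; exact hs1)
      rw [him] at e2
      rw [norm_mul, m07_norm hx]
      refine mul_le_mul_of_nonneg_right (e2.trans (le_of_eq ?_)) hx'
      ring
    have e3 : ‖((1 / (2 * Real.pi) : ℝ) : ℂ)‖ ≤ 1 := by
      rw [Complex.norm_real, Real.norm_eq_abs, abs_of_pos (by positivity)]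
      rw [div_le_one (by positivity)]
      linarith [Real.pi_gt_three]
    calc ‖((1 / (2 * Real.pi) : ℝ) : ℂ)‖ * ‖∫ y : ℝ, Az δ ((σ:ℂ) + y * I) * (x:ℂ) ^ (-((σ:ℂ) + y * I))‖
        ≤ 1 * (K * x ^ (-σ)) := mul_le_mul e3 e1 (norm_nonneg _) zero_le_one
      _ ≤ (K + 1) * x ^ (-σ) := by nlinarith
  refine ⟨K + 1, by linarith, fun x hx => ⟨?_, ?_⟩⟩
  · rw [← Fl_eq h0 h1 (σ := 1/4) ⟨le_rfl, by norm_num⟩ hx]
    exact key (1/4) le_rfl (by norm_num) x hx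
  · rw [← Fl_eq h0 h1 (σ := 3/4) ⟨by norm_num, le_rfl⟩ hx]
    exact key (3/4) (by norm_num) le_rfl x hx

end Pool.Agent.LibF4
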