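import Pool.Agent.LibF4.Defs
import Pool.Agent.LibM3.A2
import Pool.Agent.LibM3.E3
import Pool.Agent.LibZM.CS1
import Pool.Agent.LibZM.Asymp2
import Pool.Agent.LibF4.M04
import Pool.Agent.LibF4.M05
import Pool.Agent.LibF4.M06
import Pool.Agent.LibF4.M07

/-! Fourth moment, block M, row M08. -/

set_option autoImplicit false

namespace Pool.Agent.LibF4

open MeasureTheory Set Filter Topology Complex
open scoped ComplexConjugate
open Pool.Agent.LibM3 Pool.Agent.LibZM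

theorem m08_Az_int {δ : ℝ} (h0 : 0 < δ) (h1 : δ ≤ 1/4) :
    Integrable (fun y : ℝ => Az δ ((1 / 2 : ℂ) + y * I)) := by
  have h := Fl_int h0 h1 (σ := 1 / 2) (x := 1) ⟨by norm_num, by norm_num⟩ one_pos
  refine h.congr (ae_of_all _ fun y => ?_)
  simp

theorem Fz_cont {δ : ℝ} (h0 : 0 < δ) (h1 : δ ≤ 1/4) : ContinuousOn (Fz δ) (Ioi 0) := by
  intro x hx
  refine ContinuousAt.continuousWithinAt ?_
  have hx0 : (0 : ℝ) < x := hx
  unfold Fz Fl
  refine ContinuousAt.mul continuousAt_const ?_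
  refine continuousAt_of_dominated (bound := fun y : ℝ =>
    ‖Az δ ((1 / 2 : ℂ) + y * I)‖ * (x / 2) ^ (-(1 / 2) : ℝ)) ?_ ?_ ?_ ?_
  · filter_upwards [lt_mem_nhds hx0] with u hu
    have h := (Fl_int h0 h1 (σ := 1 / 2) (x := u) ⟨by norm_num, by norm_num⟩ hu)
    exact h.aestronglyMeasurable
  · filter_upwards [lt_mem_nhds (half_lt_self hx0)] with u hu
    refine ae_of_all _ fun y => ?_
    have hu0 : 0 < u := lt_trans (half_pos hx0) hu
    rw [norm_mul, Complex.norm_cpow_eq_rpow_re_of_pos hu0]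
    have h2 : (-(((1 / 2 : ℝ) : ℂ) + y * I)).re = -(1 / 2) := by simp
    have h3 : (((1 / 2 : ℝ) : ℂ)) = (1 / 2 : ℂ) := by norm_num
    rw [h2, h3]
    refine mul_le_mul_of_nonneg_left ?_ (norm_nonneg _)
    exact Real.rpow_le_rpow_of_nonpos (half_pos hx0) hu.le (by norm_num)
  · exact (m08_Az_int h0 h1).norm.mul_const _
  · refine ae_of_all _ fun y => ?_
    refine ContinuousAt.mul continuousAt_const ?_
    have h2 : ContinuousAt (fun u : ℝ => (u : ℂ)) x := Complex.continuous_ofReal.continuousAt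
    exact h2.cpow continuousAt_const (Complex.ofReal_mem_slitPlane.2 hx0)

theorem Fz_sq_int {δ : ℝ} (h0 : 0 < δ) (h1 : δ ≤ 1/4) : IntegrableOn (fun x => ‖Fz δ x‖ ^ 2) (Ioi 0) := by
  obtain ⟨C, hC, hF⟩ := Fz_bd h0 h1
  have hc : ContinuousOn (fun x => ‖Fz δ x‖ ^ 2) (Ioi 0) := (Fz_cont h0 h1).norm.pow 2
  have hU : Ioi (0 : ℝ) = Ioc 0 1 ∪ Ioi 1 := (Ioc_union_Ioi_eq_Ioi zero_le_one).symm
  rw [hU]
  refine IntegrableOn.union ?_ ?_
  · have h2 : IntegrableOn (fun x : ℝ => C ^ 2 * x ^ (-(1 / 2) : ℝ)) (Ioc 0 1) := by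
      refine Integrable.const_mul ?_ _
      have h3 := intervalIntegral.intervalIntegrable_rpow' (a := 0) (b := 1)
        (r := (-(1 / 2) : ℝ)) (by norm_num)
      exact (intervalIntegrable_iff_integrableOn_Ioc_of_le zero_le_one).1 h3
    refine Integrable.mono' h2
      ((hc.mono Ioc_subset_Ioi_self).aestronglyMeasurable measurableSet_Ioc) ?_
    refine (ae_restrict_iff' measurableSet_Ioc).2 (ae_of_all _ fun x hx => ?_)
    have h3 := (hF x hx.1).1
    rw [Real.norm_of_nonneg (by positivity)]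
    calc ‖Fz δ x‖ ^ 2 ≤ (C * x ^ (-(1/4) : ℝ)) ^ 2 := pow_le_pow_left₀ (norm_nonneg _) h3 2
      _ = C ^ 2 * x ^ (-(1 / 2) : ℝ) := by
        rw [mul_pow, ← Real.rpow_natCast (x ^ (-(1/4) : ℝ)) 2, ← Real.rpow_mul hx.1.le]
        norm_num
  · have h2 : IntegrableOn (fun x : ℝ => C ^ 2 * x ^ (-(3 / 2) : ℝ)) (Ioi 1) :=
      (integrableOn_Ioi_rpow_of_lt (by norm_num) one_pos).const_mul _
    have hs : Ioi (1 : ℝ) ⊆ Ioi 0 := Ioi_subset_Ioi zero_le_one
    refine Integrable.mono' h2 ((hc.mono hs).aestronglyMeasurable measurableSet_Ioi) ?_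
    refine (ae_restrict_iff' measurableSet_Ioi).2 (ae_of_all _ fun x hx => ?_)
    have hx0 : (0 : ℝ) < x := hs hx
    have h3 := (hF x hx0).2
    rw [Real.norm_of_nonneg (by positivity)]
    calc ‖Fz δ x‖ ^ 2 ≤ (C * x ^ (-(3/4) : ℝ)) ^ 2 := pow_le_pow_left₀ (norm_nonneg _) h3 2
      _ = C ^ 2 * x ^ (-(3 / 2) : ℝ) := by
        rw [mul_pow, ← Real.rpow_natCast (x ^ (-(3/4) : ℝ)) 2, ← Real.rpow_mul hx0.le]
        norm_num

end Pool.Agent.LibF4
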