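import Pool.Agent.LibF4.Defs
import Pool.Agent.LibM3.A2
import Pool.Agent.LibM3.E3
import Pool.Agent.LibZM.CS1
import Pool.Agent.LibZM.Asymp2
import Pool.Agent.LibF4.M04
import Pool.Agent.LibF4.M05
import Pool.Agent.LibF4.M06
import Pool.Agent.LibF4.M07
import Pool.Agent.LibF4.M08

/-! Fourth moment, block M, row M16. -/

set_option autoImplicit false

namespace Pool.Agent.LibF4

open MeasureTheory Set Filter Topology Complex
open scoped ComplexConjugate
open Pool.Agent.LibM3 Pool.Agent.LibZM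

open scoped FourierTransform in
theorem m16_inv (δ : ℝ) {x : ℝ} (hx : 0 < x) :
    Fz δ x = (x : ℂ) ^ (-((1/2 : ℝ) : ℂ)) •
      𝓕⁻ (fun (y : ℝ) ↦ Az δ (((1/2 : ℝ) : ℂ) + 2 * Real.pi * y * I)) (-Real.log x) := by
  rw [← mellinInv_eq_fourierInv (1/2) (Az δ) hx]
  unfold Fz Fl mellinInv
  rw [Complex.real_smul]
  congr 1
  apply integral_congr_ae
  filter_upwards with y
  rw [smul_eq_mul, mul_comm]

open scoped FourierTransform in
theorem m16_G (δ : ℝ) (u : ℝ) :
    Real.exp (-(1/2 : ℝ) * u) • Fz δ (Real.exp (-u)) =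
      𝓕⁻ (fun (y : ℝ) ↦ Az δ (((1/2 : ℝ) : ℂ) + 2 * Real.pi * y * I)) u := by
  rw [m16_inv δ (Real.exp_pos (-u)), Real.log_exp, neg_neg]
  have h1 : ((Real.exp (-u) : ℝ) : ℂ) ^ (-((1/2 : ℝ) : ℂ)) = ((Real.exp (1/2 * u) : ℝ) : ℂ) := by
    rw [← Complex.ofReal_neg, ← Complex.ofReal_cpow (Real.exp_pos _).le, ← Real.exp_mul]
    congr 2
    ring
  rw [h1, Complex.real_smul, smul_eq_mul, ← mul_assoc, ← Complex.ofReal_mul, ← Real.exp_add]
  have h2 : -(1/2 : ℝ) * u + 1/2 * u = 0 := by ring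
  rw [h2, Real.exp_zero, Complex.ofReal_one, one_mul]

theorem m16_cont (δ : ℝ) : Continuous (fun y : ℝ => Az δ (((1/2 : ℝ) : ℂ) + 2 * Real.pi * y * I)) := by
  rw [continuous_iff_continuousAt]
  intro y
  unfold Az
  have hs : ContinuousAt (fun y : ℝ => (((1/2 : ℝ) : ℂ) + 2 * Real.pi * y * I)) y := by fun_prop
  have hre : ((((1/2 : ℝ) : ℂ) + 2 * Real.pi * y * I)).re = 1/2 := by simp
  have hG : ContinuousAt Complex.Gamma (((1/2 : ℝ) : ℂ) + 2 * Real.pi * y * I) := by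
    apply (Complex.differentiableAt_Gamma _ _).continuousAt
    intro m hm
    have := congrArg Complex.re hm
    rw [hre] at this
    simp at this
    have hm0 : (0 : ℝ) ≤ m := Nat.cast_nonneg m
    linarith
  have hZ : ContinuousAt riemannZeta (((1/2 : ℝ) : ℂ) + 2 * Real.pi * y * I) := by
    apply (differentiableAt_riemannZeta _).continuousAt
    intro h
    have := congrArg Complex.re h
    rw [hre] at this
    norm_num at this
  have hG' : ContinuousAt (fun y : ℝ => Complex.Gamma (((1/2 : ℝ) : ℂ) + 2 * Real.pi * y * I)) y :=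
    ContinuousAt.comp (g := Complex.Gamma) hG hs
  have hZ' : ContinuousAt (fun y : ℝ => riemannZeta (((1/2 : ℝ) : ℂ) + 2 * Real.pi * y * I)) y :=
    ContinuousAt.comp (g := riemannZeta) hZ hs
  have hE : ContinuousAt (fun y : ℝ => cexp ((((1/2 : ℝ) : ℂ) + 2 * Real.pi * y * I) *
      (((Real.pi / 2 - δ : ℝ) : ℂ) * I))) y := by fun_prop
  exact (hG'.mul (hZ'.pow 2)).mul hE

theorem m16_int {δ : ℝ} (h0 : 0 < δ) (h1 : δ ≤ 1/4) :
    Integrable (fun y : ℝ => Az δ (((1/2 : ℝ) : ℂ) + 2 * Real.pi * y * I)) := by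
  have h := Fl_int h0 h1 (σ := 1/2) (x := 1) ⟨by norm_num, by norm_num⟩ one_pos
  have h2 : Integrable (fun y : ℝ => Az δ (((1/2 : ℝ) : ℂ) + y * I)) := by
    refine h.congr ?_
    filter_upwards with y
    rw [Complex.ofReal_one, Complex.one_cpow, mul_one]
  have h3 := h2.comp_mul_left' (R := 2 * Real.pi) (by positivity)
  refine h3.congr ?_
  filter_upwards with y
  push_cast
  ring_nf

open scoped FourierTransform in
theorem m16_Gint {δ : ℝ} (h0 : 0 < δ) (h1 : δ ≤ 1/4) :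
    Integrable (𝓕⁻ (fun (y : ℝ) ↦ Az δ (((1/2 : ℝ) : ℂ) + 2 * Real.pi * y * I))) := by
  obtain ⟨C, hC, hb⟩ := Fz_bd h0 h1
  have hd := (dom_int (δ := 1/2) (by norm_num) 0 C).1
  have hcont : Continuous (𝓕⁻ (fun (y : ℝ) ↦ Az δ (((1/2 : ℝ) : ℂ) + 2 * Real.pi * y * I))) := by
    have hc : Continuous (𝓕 (fun (y : ℝ) ↦ Az δ (((1/2 : ℝ) : ℂ) + 2 * Real.pi * y * I))) :=
      VectorFourier.fourierIntegral_continuous Real.continuous_fourierChar
        (by exact continuous_inner) (m16_int h0 h1)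
    have he : 𝓕⁻ (fun (y : ℝ) ↦ Az δ (((1/2 : ℝ) : ℂ) + 2 * Real.pi * y * I)) =
        fun v => 𝓕 (fun (y : ℝ) ↦ Az δ (((1/2 : ℝ) : ℂ) + 2 * Real.pi * y * I)) (-v) := by
      funext v
      exact Real.fourierInv_eq_fourier_neg _ v
    rw [he]
    exact hc.comp continuous_neg
  refine Integrable.mono' hd hcont.aestronglyMeasurable ?_
  filter_upwards with u
  rw [← m16_G δ u, norm_smul, Real.norm_eq_abs, abs_of_pos (Real.exp_pos _)]
  have hx := hb (Real.exp (-u)) (Real.exp_pos _)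
  rw [← Real.exp_mul, ← Real.exp_mul] at hx
  rcases le_or_gt 0 u with hu | hu
  · rw [abs_of_nonneg hu]
    calc Real.exp (-(1/2 : ℝ) * u) * ‖Fz δ (Real.exp (-u))‖
        ≤ Real.exp (-(1/2 : ℝ) * u) * (C * Real.exp (-u * -(1/4))) :=
          mul_le_mul_of_nonneg_left hx.1 (Real.exp_pos _).le
      _ = C * (Real.exp (-(1/2 : ℝ) * u) * Real.exp (-u * -(1/4))) := by ring
      _ = C * ((1 + u) ^ 0 * Real.exp (-(1/2/2 * u))) := by
          rw [← Real.exp_add, pow_zero, one_mul]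
          congr 2
          ring
  · rw [abs_of_neg hu]
    calc Real.exp (-(1/2 : ℝ) * u) * ‖Fz δ (Real.exp (-u))‖
        ≤ Real.exp (-(1/2 : ℝ) * u) * (C * Real.exp (-u * -(3/4))) :=
          mul_le_mul_of_nonneg_left hx.2 (Real.exp_pos _).le
      _ = C * (Real.exp (-(1/2 : ℝ) * u) * Real.exp (-u * -(3/4))) := by ring
      _ = C * ((1 + -u) ^ 0 * Real.exp (-(1/2/2 * -u))) := by
          rw [← Real.exp_add, pow_zero, one_mul]
          congr 2
          ring

open scoped FourierTransform in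
theorem m16_mellin {δ : ℝ} (h0 : 0 < δ) (h1 : δ ≤ 1/4) (t : ℝ) :
    mellin (Fz δ) ((1/2 : ℂ) + t * I) = Az δ ((1/2:ℂ) + t * I) := by
  rw [mellin_eq_fourier]
  have hre : ((1/2 : ℂ) + t * I).re = 1/2 := by simp
  have him : ((1/2 : ℂ) + t * I).im = t := by simp
  rw [hre, him]
  have hf : (fun u : ℝ => Real.exp (-(1/2 : ℝ) * u) • Fz δ (Real.exp (-u))) =
      𝓕⁻ (fun (y : ℝ) ↦ Az δ (((1/2 : ℝ) : ℂ) + 2 * Real.pi * y * I)) := by
    funext u
    exact m16_G δ u
  rw [hf]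
  have hFint : Integrable (𝓕 (fun (y : ℝ) ↦ Az δ (((1/2 : ℝ) : ℂ) + 2 * Real.pi * y * I))) := by
    have hg := (m16_Gint h0 h1).comp_neg
    refine hg.congr ?_
    filter_upwards with v
    rw [Real.fourierInv_eq_fourier_neg, neg_neg]
  rw [Continuous.fourier_fourierInv_eq (m16_cont δ) (m16_int h0 h1) hFint]
  have hpi : (Real.pi : ℂ) ≠ 0 := by exact_mod_cast Real.pi_ne_zero
  push_cast
  field_simp

/-
Integrability: ‖.‖ = ‖Fz δ x‖ x^(-1/2) ≤ C x^(-3/4) on (0,1], ≤ C x^(-5/4) on [1,∞).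
Fourier inversion: a(t) = Az δ (1/2+it) is continuous and integrable (Az_bd, dom_int). By definition, for x = e^u: x^(1/2) Fz δ x = (1/2π) ∫ a(t) e^{-itu} dt
= (1/2π) 𝓕a(u/2π) (Mathlib's Fourier kernel e^{-2πi v t}). So 𝓕a(v) = 2π e^{πv} Fz δ (e^{2πv}), integrable in v (the substitution x = e^{2πv}).
Continuous.fourierInv_fourier_eq (continuous, integrable, 𝓕a integrable): 𝓕⁻(𝓕a) = a, i.e. a(t) = ∫ e^{2πi t v} 2π e^{πv} Fz δ (e^{2πv}) dv = ∫_0^∞ Fz(x) x^(-1/2+it) dx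
(x = e^{2πv}, dx = 2π x dv). Substitution: integral_comp_exp-type lemma, MeasureTheory.integral_image_eq_integral_abs_deriv_smul, or the Mathlib
lemmas mellin_eq_fourier / mellinInv_eq_fourierInv in Analysis/MellinInversion.lean: alternatively apply the inversion in the form
mellin of mellinInv built from mellinInv_eq_fourierInv and mellin_eq_fourier.
-/

theorem mellin_Fz {δ : ℝ} (h0 : 0 < δ) (h1 : δ ≤ 1/4) (t : ℝ) :
    IntegrableOn (fun x : ℝ => Fz δ x * (x:ℂ) ^ (-(1/2:ℂ) + t * I)) (Ioi 0) ∧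
    ∫ x in Ioi (0:ℝ), Fz δ x * (x:ℂ) ^ (-(1/2:ℂ) + t * I) = Az δ ((1/2:ℂ) + t * I) := by
  constructor
  · obtain ⟨C, hC, hb⟩ := Fz_bd h0 h1
    have hmeas : AEStronglyMeasurable (fun x : ℝ => Fz δ x * (x:ℂ) ^ (-(1/2:ℂ) + t * I))
        (volume.restrict (Ioi 0)) := by
      apply ContinuousOn.aestronglyMeasurable _ measurableSet_Ioi
      apply (Fz_cont h0 h1).mul
      intro x hx
      apply ContinuousAt.continuousWithinAt
      have hx0 : (x : ℂ) ∈ slitPlane := Complex.ofReal_mem_slitPlane.mpr hx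
      exact (Complex.continuous_ofReal.continuousAt).cpow continuousAt_const hx0
    have hnorm : ∀ x : ℝ, 0 < x → ‖Fz δ x * (x:ℂ) ^ (-(1/2:ℂ) + t * I)‖ =
        ‖Fz δ x‖ * x ^ (-(1/2) : ℝ) := by
      intro x hx
      rw [norm_mul, Complex.norm_cpow_eq_rpow_re_of_pos hx]
      congr 2
      simp
    rw [← Ioc_union_Ioi_eq_Ioi (zero_le_one (α := ℝ))]
    apply IntegrableOn.union
    · have hI : IntegrableOn (fun x : ℝ => C * x ^ (-(3/4) : ℝ)) (Ioc 0 1) := by
        have := (intervalIntegral.intervalIntegrable_rpow' (a := 0) (b := 1)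
          (show (-1 : ℝ) < -(3/4) by norm_num))
        rw [intervalIntegrable_iff_integrableOn_Ioc_of_le zero_le_one] at this
        exact this.const_mul C
      refine Integrable.mono' hI (hmeas.mono_measure (Measure.restrict_mono Ioc_subset_Ioi_self le_rfl)) ?_
      filter_upwards [ae_restrict_mem measurableSet_Ioc] with x hx
      rw [hnorm x hx.1]
      calc ‖Fz δ x‖ * x ^ (-(1/2) : ℝ) ≤ (C * x ^ (-(1/4) : ℝ)) * x ^ (-(1/2) : ℝ) :=
            mul_le_mul_of_nonneg_right (hb x hx.1).1 (Real.rpow_nonneg hx.1.le _)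
        _ = C * x ^ (-(3/4) : ℝ) := by
            rw [mul_assoc, ← Real.rpow_add hx.1]; norm_num
    · have hI : IntegrableOn (fun x : ℝ => C * x ^ (-(5/4) : ℝ)) (Ioi 1) :=
        (integrableOn_Ioi_rpow_of_lt (show -(5/4 : ℝ) < -1 by norm_num) one_pos).const_mul C
      refine Integrable.mono' hI (hmeas.mono_measure (Measure.restrict_mono
        (Ioi_subset_Ioi zero_le_one) le_rfl)) ?_
      filter_upwards [ae_restrict_mem measurableSet_Ioi] with x hx
      have hx0 : (0 : ℝ) < x := lt_trans one_pos hx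
      rw [hnorm x hx0]
      calc ‖Fz δ x‖ * x ^ (-(1/2) : ℝ) ≤ (C * x ^ (-(3/4) : ℝ)) * x ^ (-(1/2) : ℝ) :=
            mul_le_mul_of_nonneg_right (hb x hx0).2 (Real.rpow_nonneg hx0.le _)
        _ = C * x ^ (-(5/4) : ℝ) := by
            rw [mul_assoc, ← Real.rpow_add hx0]; norm_num
  · rw [← m16_mellin h0 h1 t]
    unfold mellin
    apply integral_congr_ae
    filter_upwards with x
    rw [smul_eq_mul, mul_comm]
    congr 2
    ring

end Pool.Agent.LibF4
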