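import Pool.Agent.LibF4.Defs
import Pool.Agent.LibM3.A2
import Pool.Agent.LibM3.E3
import Pool.Agent.LibZM.CS1
import Pool.Agent.LibZM.Asymp2

/-! Fourth moment, block M, row M17. -/

set_option autoImplicit false

namespace Pool.Agent.LibF4

open MeasureTheory Set Filter Topology Complex
open scoped ComplexConjugate
open Pool.Agent.LibM3 Pool.Agent.LibZM

theorem m17_conj (t : ℝ) : conj ((1/2:ℂ) - t * I) = crit t := by
  have h2 : conj (1/2 : ℂ) = 1/2 := by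
    rw [show (1/2 : ℂ) = ((1/2 : ℝ) : ℂ) by push_cast; rfl, Complex.conj_ofReal]
  rw [crit, map_sub, map_mul, Complex.conj_I, Complex.conj_ofReal, h2]
  ring

theorem m17_gamma (t : ℝ) : Complex.Gamma ((1/2:ℂ) - t * I) * conj (Complex.Gamma ((1/2:ℂ) - t * I)) =
    ((Real.pi / Real.cosh (Real.pi * t) : ℝ) : ℂ) := by
  rw [← Complex.Gamma_conj, m17_conj]
  have h1 : crit t = 1 - ((1/2:ℂ) - t * I) := by
    rw [crit]; ring
  rw [h1, Complex.Gamma_mul_Gamma_one_sub]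
  have h2 : (Real.pi : ℂ) * ((1/2:ℂ) - t * I) = Real.pi / 2 - (Real.pi * t : ℂ) * I := by ring
  rw [h2, Complex.sin_pi_div_two_sub, Complex.cos_mul_I]
  push_cast
  rfl

theorem Az_crit (δ t : ℝ) : Az δ ((1/2:ℂ) - t * I) * conj (Az δ ((1/2:ℂ) - t * I)) =
    ((2 * Real.pi * (‖riemannZeta (crit t)‖ ^ 4 *
      (Real.exp (-(2 * δ * t)) / (1 + Real.exp (-(2 * Real.pi * t))))) : ℝ) : ℂ) := by
  have hz : riemannZeta ((1/2:ℂ) - t * I) ^ 2 * conj (riemannZeta ((1/2:ℂ) - t * I) ^ 2) =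
      ((‖riemannZeta (crit t)‖ ^ 4 : ℝ) : ℂ) := by
    have h1 : riemannZeta (crit t) = conj (riemannZeta ((1/2:ℂ) - t * I)) := by
      rw [← m17_conj, riemannZeta_conj]
    rw [Complex.mul_conj, h1, Complex.norm_conj, Complex.normSq_eq_norm_sq, norm_pow, ← pow_mul]
  have he : cexp (((1/2:ℂ) - t * I) * (((Real.pi / 2 - δ : ℝ) : ℂ) * I)) *
      conj (cexp (((1/2:ℂ) - t * I) * (((Real.pi / 2 - δ : ℝ) : ℂ) * I))) =
      ((Real.exp (2 * t * (Real.pi / 2 - δ)) : ℝ) : ℂ) := by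
    rw [← Complex.exp_conj, ← Complex.exp_add, map_mul, m17_conj, map_mul, Complex.conj_I,
      Complex.conj_ofReal, crit, Complex.ofReal_exp]
    congr 1
    push_cast
    ring_nf
    rw [Complex.I_sq]
    ring
  have hg := m17_gamma t
  rw [Az, map_mul, map_mul]
  have h3 : Complex.Gamma ((1/2:ℂ) - t * I) * riemannZeta ((1/2:ℂ) - t * I) ^ 2 *
        cexp (((1/2:ℂ) - t * I) * (((Real.pi / 2 - δ : ℝ) : ℂ) * I)) *
      (conj (Complex.Gamma ((1/2:ℂ) - t * I)) * conj (riemannZeta ((1/2:ℂ) - t * I) ^ 2) *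
        conj (cexp (((1/2:ℂ) - t * I) * (((Real.pi / 2 - δ : ℝ) : ℂ) * I)))) =
      (Complex.Gamma ((1/2:ℂ) - t * I) * conj (Complex.Gamma ((1/2:ℂ) - t * I))) *
      (riemannZeta ((1/2:ℂ) - t * I) ^ 2 * conj (riemannZeta ((1/2:ℂ) - t * I) ^ 2)) *
      (cexp (((1/2:ℂ) - t * I) * (((Real.pi / 2 - δ : ℝ) : ℂ) * I)) *
        conj (cexp (((1/2:ℂ) - t * I) * (((Real.pi / 2 - δ : ℝ) : ℂ) * I)))) := by ring
  rw [h3, hg, hz, he, ← Complex.ofReal_mul, ← Complex.ofReal_mul]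
  congr 1
  have h4 : Real.cosh (Real.pi * t) = Real.exp (Real.pi * t) * (1 + Real.exp (-(2 * Real.pi * t))) / 2 := by
    rw [Real.cosh_eq, mul_add, mul_one, ← Real.exp_add]
    congr 3
    ring
  have h5 : Real.exp (2 * t * (Real.pi / 2 - δ)) = Real.exp (Real.pi * t) * Real.exp (-(2 * δ * t)) := by
    rw [← Real.exp_add]
    congr 1
    ring
  rw [h4, h5]
  have h6 : Real.exp (Real.pi * t) ≠ 0 := (Real.exp_pos _).ne'
  have h7 : 1 + Real.exp (-(2 * Real.pi * t)) ≠ 0 := by positivity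
  field_simp

end Pool.Agent.LibF4
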