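import Pool.Agent.LibF4.Defs
import Pool.Agent.LibM3.A2
import Pool.Agent.LibM3.E3
import Pool.Agent.LibZM.CS1
import Pool.Agent.LibZM.Asymp2
import Pool.Agent.LibF4.M04
import Pool.Agent.LibF4.M05
import Pool.Agent.LibF4.M06
import Pool.Agent.LibF4.M07
import Pool.Agent.LibF4.M08
import Pool.Agent.LibF4.M16
import Pool.Agent.LibF4.M17

/-! Fourth moment, block M, row M18. -/

set_option autoImplicit false

namespace Pool.Agent.LibF4

open MeasureTheory Set Filter Topology Complex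
open scoped ComplexConjugate
open Pool.Agent.LibM3 Pool.Agent.LibZM

theorem m18_conj {r : ℝ} (hr : 0 < r) (z : ℂ) : conj ((r : ℂ) ^ z) = (r : ℂ) ^ (conj z) := by
  have hr' : (r : ℂ) ≠ 0 := Complex.ofReal_ne_zero.2 hr.ne'
  rw [Complex.cpow_def_of_ne_zero hr', Complex.cpow_def_of_ne_zero hr', ← Complex.exp_conj,
    map_mul, ← Complex.ofReal_log hr.le, Complex.conj_ofReal]

theorem m18_Fz (δ x : ℝ) (hx : 0 < x) : conj (Fz δ x) =
    ((1 / (2 * Real.pi) : ℝ) : ℂ) * ∫ y : ℝ, conj (Az δ ((1/2:ℂ) + y * I)) *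
      (x:ℂ) ^ (-(1/2:ℂ) + y * I) := by
  unfold Fz Fl
  rw [map_mul, Complex.conj_ofReal, ← integral_conj]
  congr 1
  apply integral_congr_ae
  filter_upwards with y
  have h1 : (((1 / 2 : ℝ) : ℂ) + y * I) = (1 / 2 : ℂ) + y * I := by push_cast; rfl
  rw [map_mul, m18_conj hx, h1]
  congr 2
  simp only [map_neg, map_add, map_mul, Complex.conj_ofReal, Complex.conj_I]
  have h2 : (starRingEnd ℂ) (1 / 2 : ℂ) = 1 / 2 := by
    rw [map_div₀, map_one, map_ofNat]
  rw [h2]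
  ring

theorem m18_split {m n : ℕ} (hm : 1 ≤ m) (hn : 1 ≤ n) {x : ℝ} (hx : 0 < x) (z : ℂ) :
    (((n : ℝ) * x : ℝ) : ℂ) ^ z = (((n / m : ℝ)) : ℂ) ^ z * (((m : ℝ) * x : ℝ) : ℂ) ^ z := by
  have hm' : (0 : ℝ) < m := by exact_mod_cast hm
  have hn' : (0 : ℝ) < n := by exact_mod_cast hn
  rw [← Complex.mul_cpow_ofReal_nonneg (by positivity) (by positivity), ← Complex.ofReal_mul]
  congr 2
  field_simp

theorem m18_const {m n : ℕ} (hm : 1 ≤ m) (hn : 1 ≤ n) (t : ℝ) :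
    ((√((m:ℝ) * n) : ℝ) : ℂ) * ((m : ℝ) : ℂ)⁻¹ *
      (((n / m : ℝ)) : ℂ) ^ (-(1/2:ℂ) + ((-t : ℝ) : ℂ) * I) =
      cexp ((t * (Real.log m - Real.log n) : ℝ) * I) := by
  have hm' : (0 : ℝ) < m := by exact_mod_cast hm
  have hn' : (0 : ℝ) < n := by exact_mod_cast hn
  have h1 : (((n / m : ℝ)) : ℂ) ≠ 0 := Complex.ofReal_ne_zero.2 (by positivity)
  have h2 : √((m:ℝ) * n) = Real.exp ((Real.log m + Real.log n) / 2) := by
    rw [Real.sqrt_eq_rpow, Real.rpow_def_of_pos (by positivity), Real.log_mul hm'.ne' hn'.ne']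
    congr 1
    ring
  have h3 : ((m : ℝ) : ℂ)⁻¹ = cexp ((-Real.log m : ℝ) : ℂ) := by
    rw [← Complex.ofReal_exp, Real.exp_neg, Real.exp_log hm', Complex.ofReal_inv]
  rw [h2, h3, Complex.ofReal_exp, Complex.cpow_def_of_ne_zero h1, ← Complex.ofReal_log
    (by positivity), Real.log_div hn'.ne' hm'.ne', ← Complex.exp_add, ← Complex.exp_add]
  congr 1
  push_cast
  ring

theorem m18_Az_int {δ : ℝ} (h0 : 0 < δ) (h1 : δ ≤ 1/4) :
    Integrable (fun y : ℝ => Az δ ((1/2:ℂ) + y * I)) := by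
  have h2 := Fl_int h0 h1 (σ := 1 / 2) (x := 1) (by constructor <;> norm_num) one_pos
  refine h2.congr ?_
  filter_upwards with y
  rw [Complex.ofReal_one, Complex.one_cpow, mul_one]
  congr 2
  push_cast
  rfl

theorem parseval {δ : ℝ} (h0 : 0 < δ) (h1 : δ ≤ 1/4) {m n : ℕ} (hm : 1 ≤ m) (hn : 1 ≤ n) :
    I4 δ m n = ((√((m:ℝ) * n) : ℝ) : ℂ) * ∫ x in Ioi (0:ℝ), Fz δ (m * x) * conj (Fz δ (n * x)) := by
  have hm' : (0 : ℝ) < m := by exact_mod_cast hm
  have hn' : (0 : ℝ) < n := by exact_mod_cast hn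
  have hcomp : ∀ t : ℝ, IntegrableOn
      (fun x : ℝ => Fz δ (m * x) * (((m * x : ℝ)) : ℂ) ^ (-(1/2:ℂ) + t * I)) (Ioi 0) := by
    intro t
    have h2 := (mellin_Fz h0 h1 t).1
    have h3 := (integrableOn_Ioi_comp_mul_left_iff
      (fun x : ℝ => Fz δ x * (x:ℂ) ^ (-(1/2:ℂ) + t * I)) 0 hm').2 (by rwa [mul_zero])
    exact h3
  let f : ℝ → ℝ → ℂ := fun x y => Fz δ (m * x) * (conj (Az δ ((1/2:ℂ) + y * I)) *
    (((n * x : ℝ)) : ℂ) ^ (-(1/2:ℂ) + y * I))
  -- integrability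
  have hint : Integrable (Function.uncurry f) ((volume.restrict (Ioi 0)).prod volume) := by
    have hA := m18_Az_int h0 h1
    have hF := hcomp 0
    have hbase : Integrable (fun p : ℝ × ℝ =>
        ‖Fz δ (m * p.1) * (((m * p.1 : ℝ)) : ℂ) ^ (-(1/2:ℂ) + ((0 : ℝ) : ℂ) * I)‖ *
          ‖Az δ ((1/2:ℂ) + p.2 * I)‖) ((volume.restrict (Ioi 0)).prod volume) :=
      Integrable.mul_prod hF.norm hA.norm
    have hbase2 := hbase.const_mul ((n / m : ℝ) ^ (-(1/2) : ℝ))
    refine Integrable.mono' hbase2 ?_ ?_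
    · have m1 : AEStronglyMeasurable (fun x : ℝ => Fz δ (m * x)) (volume.restrict (Ioi 0)) := by
        have h2 : ContinuousOn (fun x : ℝ => Fz δ (m * x)) (Ioi 0) := by
          apply (Fz_cont h0 h1).comp (by fun_prop)
          intro x hx
          exact mul_pos hm' hx
        exact h2.aestronglyMeasurable measurableSet_Ioi
      have m2 : AEStronglyMeasurable (fun p : ℝ × ℝ => Fz δ (m * p.1))
          ((volume.restrict (Ioi 0)).prod volume) := m1.comp_fst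
      have m3 : AEStronglyMeasurable (fun p : ℝ × ℝ => Az δ ((1/2:ℂ) + p.2 * I))
          ((volume.restrict (Ioi 0)).prod volume) := hA.aestronglyMeasurable.comp_snd
      have m4 : AEStronglyMeasurable (fun p : ℝ × ℝ => conj (Az δ ((1/2:ℂ) + p.2 * I)))
          ((volume.restrict (Ioi 0)).prod volume) :=
        Complex.continuous_conj.comp_aestronglyMeasurable m3
      have m5 : AEStronglyMeasurable (fun p : ℝ × ℝ =>
          (((n * p.1 : ℝ)) : ℂ) ^ (-(1/2:ℂ) + p.2 * I))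
          ((volume.restrict (Ioi 0)).prod volume) := by
        apply Measurable.aestronglyMeasurable
        fun_prop
      exact m2.mul (m4.mul m5)
    · have hae : ∀ᵐ p : ℝ × ℝ ∂((volume.restrict (Ioi (0:ℝ))).prod volume), p.1 ∈ Ioi (0:ℝ) :=
        Measure.quasiMeasurePreserving_fst.ae (ae_restrict_mem measurableSet_Ioi)
      filter_upwards [hae] with p hp
      have hp' : 0 < p.1 := hp
      simp only [Function.uncurry, f]
      rw [norm_mul, norm_mul, norm_mul, RCLike.norm_conj,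
        Complex.norm_cpow_eq_rpow_re_of_pos (by positivity),
        Complex.norm_cpow_eq_rpow_re_of_pos (by positivity)]
      have e1 : (-(1/2:ℂ) + p.2 * I).re = -(1/2) := by simp
      have e2 : (-(1/2:ℂ) + ((0 : ℝ) : ℂ) * I).re = -(1/2) := by simp
      rw [e1, e2]
      have e3 : (n * p.1 : ℝ) ^ (-(1/2) : ℝ) = (n / m : ℝ) ^ (-(1/2) : ℝ) *
          (m * p.1 : ℝ) ^ (-(1/2) : ℝ) := by
        rw [← Real.mul_rpow (by positivity) (by positivity)]
        congr 1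
        field_simp
      rw [e3]
      apply le_of_eq
      ring
  -- the inner integral
  have hinner : ∀ y : ℝ, ∫ x in Ioi (0:ℝ), f x y = conj (Az δ ((1/2:ℂ) + y * I)) *
      (((n / m : ℝ)) : ℂ) ^ (-(1/2:ℂ) + y * I) * (((m : ℝ) : ℂ)⁻¹ * Az δ ((1/2:ℂ) + y * I)) := by
    intro y
    have h2 : ∫ x in Ioi (0:ℝ), f x y = ∫ x in Ioi (0:ℝ), (conj (Az δ ((1/2:ℂ) + y * I)) *
        (((n / m : ℝ)) : ℂ) ^ (-(1/2:ℂ) + y * I)) *
        (Fz δ (m * x) * (((m * x : ℝ)) : ℂ) ^ (-(1/2:ℂ) + y * I)) := by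
      apply setIntegral_congr_fun measurableSet_Ioi
      intro x hx
      simp only [f]
      rw [m18_split hm hn hx]
      ring
    rw [h2, integral_const_mul]
    have h3 := integral_comp_mul_left_Ioi
      (fun x : ℝ => Fz δ x * (x:ℂ) ^ (-(1/2:ℂ) + y * I)) 0 hm'
    rw [mul_zero, (mellin_Fz h0 h1 y).2] at h3
    rw [h3, Complex.real_smul, Complex.ofReal_inv]
  have houter : ∫ x in Ioi (0:ℝ), Fz δ (m * x) * conj (Fz δ (n * x)) =
      ((1 / (2 * Real.pi) : ℝ) : ℂ) * ∫ x in Ioi (0:ℝ), ∫ y : ℝ, f x y := by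
    rw [← integral_const_mul]
    apply setIntegral_congr_fun measurableSet_Ioi
    intro x hx
    have hx' : 0 < (n : ℝ) * x := mul_pos hn' hx
    simp only [f]
    rw [m18_Fz δ _ hx', integral_const_mul]
    ring
  rw [houter, integral_integral_swap hint]
  simp only [hinner]
  rw [← integral_neg_eq_self, ← mul_assoc, ← integral_const_mul]
  unfold I4
  apply integral_congr_ae
  filter_upwards with t
  have h2 := m18_const hm hn t
  have h3 := Az_crit δ t
  have h4 : (1/2:ℂ) + ((-t : ℝ) : ℂ) * I = (1/2:ℂ) - t * I := by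
    push_cast
    ring
  rw [h4, ← h2]
  have hpi : ((2 * Real.pi : ℝ) : ℂ) ≠ 0 := Complex.ofReal_ne_zero.2 (by positivity)
  have h5 : (((1 / (2 * Real.pi) : ℝ)) : ℂ) * (Az δ ((1/2:ℂ) - t * I) *
      conj (Az δ ((1/2:ℂ) - t * I))) = ((‖riemannZeta (crit t)‖ ^ 4 *
      (Real.exp (-(2 * δ * t)) / (1 + Real.exp (-(2 * Real.pi * t)))) : ℝ) : ℂ) := by
    rw [h3, ← Complex.ofReal_mul]
    congr 1
    field_simp
  rw [← h5]
  ring

end Pool.Agent.LibF4
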