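import Pool.Agent.LibF4.Defs
import Pool.Agent.LibM3.A2
import Pool.Agent.LibM3.E3
import Pool.Agent.LibZM.CS1
import Pool.Agent.LibZM.Asymp2

/-! Fourth moment, block M, row M19. -/

set_option autoImplicit false

namespace Pool.Agent.LibF4

open MeasureTheory Set Filter Topology Complex
open scoped ComplexConjugate
open Pool.Agent.LibM3 Pool.Agent.LibZM

theorem m19_cos_ne {s : ℂ} (h0 : 0 < s.re) (h1 : s.re < 1) : Complex.cos (Real.pi * s / 2) ≠ 0 := by
  intro h
  rw [Complex.cos_eq_zero_iff] at h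
  obtain ⟨k, hk⟩ := h
  have hpi : (Real.pi : ℂ) ≠ 0 := by exact_mod_cast Real.pi_ne_zero
  have hs : s = 2 * k + 1 := by
    field_simp at hk
    linear_combination hk
  have hre : s.re = 2 * k + 1 := by
    rw [hs]
    simp
  rw [hre] at h0 h1
  have h2 : (0:ℝ) < ((2 * k + 1 : ℤ) : ℝ) := by push_cast; exact h0
  have h3 : ((2 * k + 1 : ℤ) : ℝ) < ((1:ℤ):ℝ) := by push_cast; exact h1
  have h4 : 0 < 2 * k + 1 := by exact_mod_cast h2
  have h5 : 2 * k + 1 < 1 := by exact_mod_cast h3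
  omega

theorem Az_fe {s : ℂ} (h0 : 0 < s.re) (h1 : s.re < 1) :
    Complex.Gamma s * riemannZeta s ^ 2 = ((2 * Real.pi : ℝ) : ℂ) ^ (2 * s - 1) * Complex.tan (Real.pi * s / 2) *
      (Complex.Gamma (1 - s) * riemannZeta (1 - s) ^ 2) := by
  have hA := riemannZeta_one_sub (s := s) (by
    intro n h
    have h2 := congrArg Complex.re h
    simp only [Complex.neg_re, Complex.natCast_re] at h2
    have h3 : (0:ℝ) ≤ n := Nat.cast_nonneg n
    linarith) (by
    intro h
    rw [h] at h1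
    simp at h1)
  have hB := riemannZeta_one_sub (s := 1 - s) (by
    intro n h
    have h2 := congrArg Complex.re h
    simp only [Complex.neg_re, Complex.natCast_re, Complex.sub_re, Complex.one_re] at h2
    have h3 : (0:ℝ) ≤ n := Nat.cast_nonneg n
    linarith) (by
    intro h
    have h2 := congrArg Complex.re h
    simp only [Complex.sub_re, Complex.one_re] at h2
    linarith)
  rw [sub_sub_cancel] at hB
  have hcos : Complex.cos (Real.pi * (1 - s) / 2) = Complex.sin (Real.pi * s / 2) := by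
    rw [show (Real.pi : ℂ) * (1 - s) / 2 = Real.pi / 2 - Real.pi * s / 2 by ring, Complex.cos_pi_div_two_sub]
  rw [hcos] at hB
  have hc := m19_cos_ne h0 h1
  have h2pi : (2 * (Real.pi : ℂ)) ≠ 0 := by
    have : (Real.pi : ℂ) ≠ 0 := by exact_mod_cast Real.pi_ne_zero
    exact mul_ne_zero two_ne_zero this
  have hcast : ((2 * Real.pi : ℝ) : ℂ) = 2 * (Real.pi : ℂ) := by push_cast; rfl
  rw [hcast]
  have hp1 : (2 * (Real.pi : ℂ)) ^ (-s) * (2 * (Real.pi : ℂ)) ^ s = 1 := by
    rw [← Complex.cpow_add _ _ h2pi, neg_add_cancel, Complex.cpow_zero]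
  have hp2 : (2 * (Real.pi : ℂ)) ^ (2 * s - 1) = (2 * (Real.pi : ℂ)) ^ s * (2 * (Real.pi : ℂ)) ^ (-(1 - s)) := by
    rw [← Complex.cpow_add _ _ h2pi]
    congr 1
    ring
  rw [hp2, Complex.tan_eq_sin_div_cos]
  set G := Complex.Gamma s with hG
  set G1 := Complex.Gamma (1 - s) with hG1
  set Z := riemannZeta s with hZ
  set Z1 := riemannZeta (1 - s) with hZ1
  set C := Complex.cos (Real.pi * s / 2) with hC
  set S := Complex.sin (Real.pi * s / 2) with hS
  set P := (2 * (Real.pi : ℂ)) ^ s with hP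
  set P' := (2 * (Real.pi : ℂ)) ^ (-s) with hP'
  set R := (2 * (Real.pi : ℂ)) ^ (-(1 - s)) with hR
  have hA' : G * Z * C * 2 = P * Z1 := by
    rw [hA]
    linear_combination (-(2 * G * C * Z)) * hp1
  have hgoal : (G * Z ^ 2) * C = P * R * S * (G1 * Z1 ^ 2) := by
    have h5 : (G * Z ^ 2) * C * 2 = (P * Z1) * Z := by
      rw [← hA']; ring
    have h6 : (P * Z1) * Z = P * Z1 * (2 * R * G1 * S * Z1) := by
      rw [← hB]
    have h7 : (G * Z ^ 2) * C * 2 = (P * R * S * (G1 * Z1 ^ 2)) * 2 := by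
      rw [h5, h6]; ring
    exact mul_right_cancel₀ two_ne_zero h7
  field_simp
  linear_combination hgoal

theorem tan_bd (y : ℝ) : ‖Complex.tan (Real.pi * ((1/4:ℂ) + y * I) / 2) + I‖ ≤
    4 * Real.exp (Real.pi * y / 2 - Real.pi * |y| / 2) := by
  have hw : (Real.pi : ℂ) * ((1/4:ℂ) + y * I) / 2 = ((Real.pi / 8 : ℝ) : ℂ) + ((Real.pi * y / 2 : ℝ) : ℂ) * I := by
    push_cast
    ring
  rw [hw]
  set w : ℂ := ((Real.pi / 8 : ℝ) : ℂ) + ((Real.pi * y / 2 : ℝ) : ℂ) * I with hwdef
  have hre : (Complex.cos w).re = Real.cos (Real.pi / 8) * Real.cosh (Real.pi * y / 2) := by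
    rw [hwdef, Complex.cos_add_mul_I, ← Complex.ofReal_cos, ← Complex.ofReal_cosh, ← Complex.ofReal_sin,
      ← Complex.ofReal_sinh, ← Complex.ofReal_mul, ← Complex.ofReal_mul, Complex.sub_re, Complex.ofReal_re,
      Complex.re_ofReal_mul, Complex.I_re, mul_zero, sub_zero]
  have hcos8 : (1/2:ℝ) ≤ Real.cos (Real.pi / 8) := by
    rw [← Real.cos_pi_div_three]
    exact Real.cos_le_cos_of_nonneg_of_le_pi (by positivity) (by linarith [Real.pi_pos]) (by linarith [Real.pi_pos])
  have hcosh : Real.exp (Real.pi * |y| / 2) / 2 ≤ Real.cosh (Real.pi * y / 2) := by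
    rw [← Real.cosh_abs, Real.cosh_eq]
    have h1 : |Real.pi * y / 2| = Real.pi * |y| / 2 := by
      rw [abs_div, abs_mul, abs_of_pos Real.pi_pos, abs_of_pos (by norm_num : (0:ℝ) < 2)]
    rw [h1]
    have h2 := Real.exp_pos (-(Real.pi * |y| / 2))
    linarith
  have hlow : Real.exp (Real.pi * |y| / 2) / 4 ≤ ‖Complex.cos w‖ := by
    refine le_trans ?_ (Complex.re_le_norm _)
    rw [hre]
    have h3 := Real.exp_pos (Real.pi * |y| / 2)
    nlinarith
  have hpos : 0 < ‖Complex.cos w‖ := lt_of_lt_of_le (by positivity) hlow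
  have hne : Complex.cos w ≠ 0 := norm_pos_iff.1 hpos
  have hnum : Complex.tan w + I = I * cexp (-(w * I)) / Complex.cos w := by
    rw [Complex.tan_eq_sin_div_cos, eq_div_iff hne, add_mul, div_mul_cancel₀ _ hne]
    have h4 : cexp (-(w * I)) = Complex.cos w - Complex.sin w * I := by
      rw [show -(w * I) = (-w) * I by ring, Complex.exp_mul_I, Complex.cos_neg, Complex.sin_neg]
      ring
    rw [h4]
    linear_combination (Complex.sin w) * (Complex.I_sq)
  have hexp : ‖cexp (-(w * I))‖ = Real.exp (Real.pi * y / 2) := by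
    rw [Complex.norm_exp]
    congr 1
    rw [hwdef]
    simp
  rw [hnum, norm_div, norm_mul, Complex.norm_I, one_mul, hexp, div_le_iff₀ hpos]
  calc Real.exp (Real.pi * y / 2)
      = 4 * Real.exp (Real.pi * y / 2 - Real.pi * |y| / 2) * (Real.exp (Real.pi * |y| / 2) / 4) := by
        rw [Real.exp_sub]
        field_simp
    _ ≤ 4 * Real.exp (Real.pi * y / 2 - Real.pi * |y| / 2) * ‖Complex.cos w‖ :=
        mul_le_mul_of_nonneg_left hlow (by positivity)

end Pool.Agent.LibF4
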