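import Pool.Agent.LibF4.Defs
import Pool.Agent.LibM3.A2
import Pool.Agent.LibM3.E3
import Pool.Agent.LibZM.CS1
import Pool.Agent.LibZM.Asymp2
import Pool.Agent.LibF4.M02
import Pool.Agent.LibF4.M06
import Pool.Agent.LibF4.M19

/-! Fourth moment, block M, row M20. -/

set_option autoImplicit false

namespace Pool.Agent.LibF4

open MeasureTheory Set Filter Topology Complex
open scoped ComplexConjugate
open Pool.Agent.LibM3 Pool.Agent.LibZM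

theorem m20_norm_Gamma_le {s : ℂ} (hs : 0 < s.re) : ‖Complex.Gamma s‖ ≤ Real.Gamma s.re := by
  rw [Complex.Gamma_eq_integral hs, Real.Gamma_eq_integral hs, Complex.GammaIntegral]
  refine (norm_integral_le_integral_norm _).trans (le_of_eq ?_)
  refine setIntegral_congr_fun measurableSet_Ioi fun x hx => ?_
  have hx' : (0:ℝ) < x := hx
  rw [norm_mul, Complex.norm_cpow_eq_rpow_re_of_pos hx', Complex.norm_real, Real.norm_eq_abs, abs_of_pos (Real.exp_pos _)]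
  simp

theorem m20_exp (v : ℝ) (hv : 0 ≤ v) : (1 + v) ^ 2 * Real.exp (-v) ≤ 256 * (1 + v ^ 2)⁻¹ := by
  have h1 : 1 + v / 4 ≤ Real.exp (v / 4) := by
    have := Real.add_one_le_exp (v / 4); linarith
  have h2 : (1 + v / 4) ^ 4 ≤ Real.exp v := by
    calc (1 + v / 4) ^ 4 ≤ Real.exp (v / 4) ^ 4 := pow_le_pow_left₀ (by positivity) h1 4
      _ = Real.exp v := by rw [← Real.exp_nat_mul]; congr 1; push_cast; ring
  have h3 : (1 + v) ^ 2 * (1 + v ^ 2) ≤ 256 * Real.exp v := by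
    have h4 : (1 + v) ^ 4 ≤ 256 * (1 + v / 4) ^ 4 := by
      have : 256 * (1 + v / 4) ^ 4 = (4 + v) ^ 4 := by ring
      rw [this]
      exact pow_le_pow_left₀ (by positivity) (by linarith) 4
    have h5 : (1 + v) ^ 2 * (1 + v ^ 2) ≤ (1 + v) ^ 4 := by nlinarith [sq_nonneg (1 + v), mul_nonneg hv (sq_nonneg (1 + v))]
    linarith
  rw [Real.exp_neg]
  have he := Real.exp_pos v
  rw [← div_eq_mul_inv, ← div_eq_mul_inv, div_le_div_iff₀ he (by positivity)]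
  exact h3

/-- the base point of the first integrand -/
theorem m20_conj_Az (δ y : ℝ) : conj (Az δ (((3/4 : ℝ) : ℂ) + y * I)) =
    Complex.Gamma (1 - ((1/4 : ℂ) + y * I)) * riemannZeta (1 - ((1/4 : ℂ) + y * I)) ^ 2 *
      cexp (-((1 - ((1/4 : ℂ) + y * I)) * (((Real.pi / 2 - δ : ℝ) : ℂ) * I))) := by
  have hc : conj (((3/4 : ℝ) : ℂ) + y * I) = 1 - ((1/4 : ℂ) + y * I) := by
    rw [map_add, map_mul, Complex.conj_ofReal, Complex.conj_ofReal, Complex.conj_I]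
    push_cast
    ring
  unfold Az
  rw [map_mul, map_mul, map_pow, ← Complex.Gamma_conj, ← riemannZeta_conj, ← Complex.exp_conj,
    map_mul, map_mul, Complex.conj_ofReal, Complex.conj_I, hc]
  congr 2
  ring

theorem m20_point (δ : ℝ) {x : ℝ} (hx : 0 < x) (y : ℝ) :
    Az δ (((1/4 : ℝ) : ℂ) + y * I) * (x:ℂ) ^ (-(((1/4 : ℝ) : ℂ) + y * I)) -
      (-(2 * Real.pi * I * conj (zd δ)) / x) *
        conj (Az δ (((3/4 : ℝ) : ℂ) + y * I) *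
          ((4 * Real.pi ^ 2 / x : ℝ) : ℂ) ^ (-(((3/4 : ℝ) : ℂ) + y * I))) =
    ((2 * Real.pi : ℝ) : ℂ) ^ (2 * ((1/4 : ℂ) + y * I) - 1) *
      (Complex.tan (Real.pi * ((1/4:ℂ) + y * I) / 2) + I) *
      (Complex.Gamma (1 - ((1/4 : ℂ) + y * I)) * riemannZeta (1 - ((1/4 : ℂ) + y * I)) ^ 2) *
      cexp (((1/4 : ℂ) + y * I) * (((Real.pi / 2 - δ : ℝ) : ℂ) * I)) *
      (x:ℂ) ^ (-((1/4 : ℂ) + y * I)) := by
  have hx0 : (x : ℂ) ≠ 0 := Complex.ofReal_ne_zero.mpr hx.ne'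
  have hpi : (0 : ℝ) < 2 * Real.pi := by positivity
  have hP : (0 : ℝ) < 4 * Real.pi ^ 2 / x := by positivity
  rw [map_mul, m20_conj_Az]
  have hq : (((1/4 : ℝ) : ℂ) + y * I) = ((1/4 : ℂ) + y * I) := by push_cast; ring
  rw [hq]
  set s : ℂ := (1/4 : ℂ) + y * I with hs
  have hsre : s.re = 1/4 := by rw [hs]; simp
  have hA : Az δ s = (((2 * Real.pi : ℝ) : ℂ) ^ (2 * s - 1) * Complex.tan (Real.pi * s / 2) *
      (Complex.Gamma (1 - s) * riemannZeta (1 - s) ^ 2)) * cexp (s * (((Real.pi / 2 - δ : ℝ) : ℂ) * I)) := by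
    unfold Az
    rw [Az_fe (by rw [hsre]; norm_num) (by rw [hsre]; norm_num)]
  have hcp : conj (((4 * Real.pi ^ 2 / x : ℝ) : ℂ) ^ (-(((3/4 : ℝ) : ℂ) + y * I))) =
      ((4 * Real.pi ^ 2 / x : ℝ) : ℂ) ^ (s - 1) := by
    have hcj := Complex.cpow_conj ((4 * Real.pi ^ 2 / x : ℝ) : ℂ) (-(((3/4 : ℝ) : ℂ) + y * I))
      (by rw [Complex.arg_ofReal_of_nonneg hP.le]; exact Real.pi_pos.ne)
    rw [Complex.conj_ofReal] at hcj
    rw [← hcj]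
    congr 1
    rw [map_neg, map_add, map_mul, Complex.conj_ofReal, Complex.conj_ofReal, Complex.conj_I, hs]
    push_cast
    ring
  have hzd : conj (zd δ) = cexp (((Real.pi / 2 - δ : ℝ) : ℂ) * I) := by
    unfold zd
    rw [Complex.exp_mul_I, ← Complex.ofReal_cos, ← Complex.ofReal_sin, Real.cos_pi_div_two_sub,
      Real.sin_pi_div_two_sub, map_sub, map_mul, Complex.conj_ofReal, Complex.conj_ofReal, Complex.conj_I]
    ring
  have hbase : ((4 * Real.pi ^ 2 / x : ℝ) : ℂ) ^ (s - 1) =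
      ((2 * Real.pi : ℝ) : ℂ) ^ (2 * s - 1) * (x : ℂ) ^ (-s) * x / ((2 * Real.pi : ℝ) : ℂ) := by
    have h2 : ((2 * Real.pi : ℝ) : ℂ) ≠ 0 := Complex.ofReal_ne_zero.mpr hpi.ne'
    have e1 : ((4 * Real.pi ^ 2 / x : ℝ) : ℂ) ^ (s - 1) =
        cexp ((((2 * Real.log (2 * Real.pi) - Real.log x : ℝ)) : ℂ) * (s - 1)) := by
      rw [Complex.cpow_def_of_ne_zero (Complex.ofReal_ne_zero.mpr hP.ne'), ← Complex.ofReal_log hP.le]
      congr 3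
      rw [Real.log_div (by positivity) hx.ne']
      congr 1
      rw [show (4 : ℝ) * Real.pi ^ 2 = (2 * Real.pi) ^ 2 by ring, Real.log_pow]
      push_cast; ring
    have e2 : ((2 * Real.pi : ℝ) : ℂ) ^ (2 * s - 1) = cexp ((Real.log (2 * Real.pi) : ℂ) * (2 * s - 1)) := by
      rw [Complex.cpow_def_of_ne_zero h2, ← Complex.ofReal_log hpi.le]
    have e3 : (x : ℂ) ^ (-s) = cexp ((Real.log x : ℂ) * (-s)) := by
      rw [Complex.cpow_def_of_ne_zero hx0, ← Complex.ofReal_log hx.le]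
    have e4 : (x : ℂ) = cexp (Real.log x : ℂ) := by
      rw [← Complex.ofReal_exp, Real.exp_log hx]
    have e5 : ((2 * Real.pi : ℝ) : ℂ) = cexp (Real.log (2 * Real.pi) : ℂ) := by
      rw [← Complex.ofReal_exp, Real.exp_log hpi]
    rw [e1, e2, e3, eq_div_iff h2, e5, e4]
    rw [← Complex.exp_add, ← Complex.exp_add, ← Complex.exp_add]
    congr 1
    push_cast
    ring
  rw [hA, hcp, hzd, hbase]
  have hexp : cexp (((Real.pi / 2 - δ : ℝ) : ℂ) * I) * cexp (-((1 - s) * (((Real.pi / 2 - δ : ℝ) : ℂ) * I))) =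
      cexp (s * (((Real.pi / 2 - δ : ℝ) : ℂ) * I)) := by
    rw [← Complex.exp_add]
    congr 1
    ring
  rw [← hexp]
  have h2 : ((2 * Real.pi : ℝ) : ℂ) ≠ 0 := Complex.ofReal_ne_zero.mpr hpi.ne'
  have h2' : (2 * (Real.pi : ℂ)) ≠ 0 := by
    have := h2; push_cast at this; exact this
  push_cast
  field_simp
  ring

theorem m20_norm {C : ℝ} (hC : 0 < C) (hz : ∀ s : ℂ, 1/4 ≤ s.re → s.re ≤ 3/4 → ‖riemannZeta s‖ ≤ C * (1 + |s.im|))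
    {δ : ℝ} (h0 : 0 < δ) (h1 : δ ≤ 1/4) {x : ℝ} (hx : 0 < x) (y : ℝ) :
    ‖((2 * Real.pi : ℝ) : ℂ) ^ (2 * ((1/4 : ℂ) + y * I) - 1) *
      (Complex.tan (Real.pi * ((1/4:ℂ) + y * I) / 2) + I) *
      (Complex.Gamma (1 - ((1/4 : ℂ) + y * I)) * riemannZeta (1 - ((1/4 : ℂ) + y * I)) ^ 2) *
      cexp (((1/4 : ℂ) + y * I) * (((Real.pi / 2 - δ : ℝ) : ℂ) * I)) *
      (x:ℂ) ^ (-((1/4 : ℂ) + y * I))‖ ≤
    (1024 * Real.Gamma (3/4) * C ^ 2 * x ^ (-(1/4) : ℝ)) * (1 + y ^ 2)⁻¹ := by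
  have hpi : (0 : ℝ) < 2 * Real.pi := by positivity
  have hG : 0 < Real.Gamma (3/4) := Real.Gamma_pos_of_pos (by norm_num)
  rw [norm_mul, norm_mul, norm_mul, norm_mul, norm_mul, norm_pow]
  have a1 : ‖((2 * Real.pi : ℝ) : ℂ) ^ (2 * ((1/4 : ℂ) + y * I) - 1)‖ ≤ 1 := by
    rw [Complex.norm_cpow_eq_rpow_re_of_pos hpi]
    apply Real.rpow_le_one_of_one_le_of_nonpos
    · have := Real.pi_gt_three; linarith
    · simp; norm_num
  have a2 := tan_bd y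
  have a3 : ‖Complex.Gamma (1 - ((1/4 : ℂ) + y * I))‖ ≤ Real.Gamma (3/4) := by
    have hre : (1 - ((1/4 : ℂ) + y * I)).re = 3/4 := by simp; norm_num
    have := m20_norm_Gamma_le (s := 1 - ((1/4 : ℂ) + y * I)) (by rw [hre]; norm_num)
    rwa [hre] at this
  have a4 : ‖riemannZeta (1 - ((1/4 : ℂ) + y * I))‖ ≤ C * (1 + |y|) := by
    have hre : (1 - ((1/4 : ℂ) + y * I)).re = 3/4 := by simp; norm_num
    have him : (1 - ((1/4 : ℂ) + y * I)).im = -y := by simp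
    have := hz (1 - ((1/4 : ℂ) + y * I)) (by rw [hre]; norm_num) (by rw [hre])
    rwa [him, abs_neg] at this
  have a5 : ‖cexp (((1/4 : ℂ) + y * I) * (((Real.pi / 2 - δ : ℝ) : ℂ) * I))‖ =
      Real.exp (-(y * (Real.pi / 2 - δ))) := by
    rw [Complex.norm_exp]
    congr 1
    simp
  have a6 : ‖(x:ℂ) ^ (-((1/4 : ℂ) + y * I))‖ = x ^ (-(1/4) : ℝ) := by
    rw [Complex.norm_cpow_eq_rpow_re_of_pos hx]
    congr 1
    simp
  rw [a5, a6]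
  have hxp : 0 ≤ x ^ (-(1/4) : ℝ) := Real.rpow_nonneg hx.le _
  have hexp : Real.exp (Real.pi * y / 2 - Real.pi * |y| / 2) * Real.exp (-(y * (Real.pi / 2 - δ))) ≤
      Real.exp (-|y|) := by
    rw [← Real.exp_add, Real.exp_le_exp]
    have h3 : y * δ ≤ |y| * (1/4) := by
      calc y * δ ≤ |y| * δ := mul_le_mul_of_nonneg_right (le_abs_self y) h0.le
        _ ≤ |y| * (1/4) := mul_le_mul_of_nonneg_left h1 (abs_nonneg y)
    have h4 := Real.pi_gt_three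
    have h5 := abs_nonneg y
    nlinarith
  have hb := m20_exp |y| (abs_nonneg y)
  rw [sq_abs] at hb
  have e1 : ‖((2 * Real.pi : ℝ) : ℂ) ^ (2 * ((1/4 : ℂ) + y * I) - 1)‖ *
      ‖Complex.tan (Real.pi * ((1/4:ℂ) + y * I) / 2) + I‖ ≤ 1 * (4 * Real.exp (Real.pi * y / 2 - Real.pi * |y| / 2)) :=
    mul_le_mul a1 a2 (norm_nonneg _) zero_le_one
  have e2 : ‖Complex.Gamma (1 - ((1/4 : ℂ) + y * I))‖ * ‖riemannZeta (1 - ((1/4 : ℂ) + y * I))‖ ^ 2 ≤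
      Real.Gamma (3/4) * (C * (1 + |y|)) ^ 2 :=
    mul_le_mul a3 (pow_le_pow_left₀ (norm_nonneg _) a4 2) (by positivity) hG.le
  have e3 := mul_le_mul e1 e2 (by positivity) (by positivity)
  have hE0 : 0 ≤ Real.exp (-(y * (Real.pi / 2 - δ))) := (Real.exp_pos _).le
  have e4 := mul_le_mul_of_nonneg_right e3 hE0
  have e5 := mul_le_mul_of_nonneg_right e4 hxp
  refine e5.trans ?_
  have e6 : 1 * (4 * Real.exp (Real.pi * y / 2 - Real.pi * |y| / 2)) * (Real.Gamma (3/4) * (C * (1 + |y|)) ^ 2) *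
      Real.exp (-(y * (Real.pi / 2 - δ))) * x ^ (-(1/4) : ℝ) =
      (4 * Real.Gamma (3/4) * C ^ 2 * x ^ (-(1/4) : ℝ)) * ((1 + |y|) ^ 2 *
        (Real.exp (Real.pi * y / 2 - Real.pi * |y| / 2) * Real.exp (-(y * (Real.pi / 2 - δ))))) := by ring
  rw [e6]
  have hK : 0 ≤ 4 * Real.Gamma (3/4) * C ^ 2 * x ^ (-(1/4) : ℝ) := by positivity
  calc (4 * Real.Gamma (3/4) * C ^ 2 * x ^ (-(1/4) : ℝ)) * ((1 + |y|) ^ 2 *
        (Real.exp (Real.pi * y / 2 - Real.pi * |y| / 2) * Real.exp (-(y * (Real.pi / 2 - δ)))))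
      ≤ (4 * Real.Gamma (3/4) * C ^ 2 * x ^ (-(1/4) : ℝ)) * ((1 + |y|) ^ 2 * Real.exp (-|y|)) :=
        mul_le_mul_of_nonneg_left (mul_le_mul_of_nonneg_left hexp (by positivity)) hK
    _ ≤ (4 * Real.Gamma (3/4) * C ^ 2 * x ^ (-(1/4) : ℝ)) * (256 * (1 + y ^ 2)⁻¹) :=
        mul_le_mul_of_nonneg_left hb hK
    _ = _ := by ring

/-
Fz δ x = Fl δ (1/4) x = (1/2π) ∫ Az(s) x^(-s) dy, s = 1/4+iy (Fl_eq). conj(Fz δ (4π²/x)) = conj(Fl δ (3/4) (4π²/x)) = (1/2π) ∫ conj(Az(3/4+iy)) (4π²/x)^(-(3/4-iy)) dy;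
conj(Az(3/4+iy)) = Γ(1-s)ζ(1-s)² exp(-(1-s)(π/2-δ)i) with s = 1/4+iy (Γ, ζ conjugation, 3/4 - iy = 1 - s). Then
(-(2πi conj z)/x) · that = (1/2π) ∫ (-i) (2π)^(2s-1) Γ(1-s)ζ(1-s)² exp(s(π/2-δ)i) x^(-s) dy
(conj z = e^{(π/2-δ)i}, so conj z · exp(-(1-s)(π/2-δ)i) = exp(s(π/2-δ)i); (4π²/x)^(s-1) 2π/x = (2π)^(2s-1) x^(-s)).
Difference = (1/2π) ∫ (2π)^(2s-1) (tan(πs/2) + i) Γ(1-s)ζ(1-s)² exp(s(π/2-δ)i) x^(-s) dy by Az_fe. Norm of the integrand ≤ x^(-1/4) · 1 ·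
4 e^{πy/2-π|y|/2} · Γ(3/4) · C(1+|y|)² · e^{-(π/2-δ)y} ≤ C' x^(-1/4) (1+|y|)² e^{-|y|}:
y ≥ 0: e^{-(π/2-δ)y} ≤ e^{-y}; y < 0: e^{-π|y|} e^{(π/2-δ)|y|} ≤ e^{-|y|}. (‖Γ(3/4-iy)‖ ≤ Γ(3/4): LibM3.a6_norm_Gamma_le in A6 or prove via the integral; ‖(2π)^(2s-1)‖ = (2π)^(-1/2) ≤ 1.)
Everything is integrable (Fl_int), so the difference of integrals is the integral of the difference.
-/

theorem fold : ∃ C : ℝ, 0 < C ∧ ∀ δ : ℝ, 0 < δ → δ ≤ 1/4 → ∀ x : ℝ, 0 < x →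
    ‖Fz δ x - (-(2 * Real.pi * I * conj (zd δ)) / x) * conj (Fz δ (4 * Real.pi ^ 2 / x))‖ ≤ C * x ^ (-(1/4) : ℝ) := by
  obtain ⟨C, hC, hz⟩ := zeta_bd
  have hG : 0 < Real.Gamma (3/4) := Real.Gamma_pos_of_pos (by norm_num)
  refine ⟨512 * Real.Gamma (3/4) * C ^ 2, by positivity, ?_⟩
  intro δ h0 h1 x hx
  have hP : (0 : ℝ) < 4 * Real.pi ^ 2 / x := by positivity
  have hi1 := Fl_int h0 h1 (σ := 1/4) (x := x) ⟨le_rfl, by norm_num⟩ hx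
  have hi2 := Fl_int h0 h1 (σ := 3/4) (x := 4 * Real.pi ^ 2 / x) ⟨by norm_num, le_rfl⟩ hP
  have hi2c : Integrable (fun y : ℝ => conj (Az δ (((3/4 : ℝ) : ℂ) + y * I) *
          ((4 * Real.pi ^ 2 / x : ℝ) : ℂ) ^ (-(((3/4 : ℝ) : ℂ) + y * I)))) :=
    (Complex.conjCLE.toContinuousLinearMap.integrable_comp hi2)
  rw [← Fl_eq h0 h1 (σ := 1/4) ⟨le_rfl, by norm_num⟩ hx,
    ← Fl_eq h0 h1 (σ := 3/4) ⟨by norm_num, le_rfl⟩ hP]
  unfold Fl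
  rw [map_mul, Complex.conj_ofReal, ← integral_conj]
  have hcomb : ((1 / (2 * Real.pi) : ℝ) : ℂ) * (∫ y : ℝ, Az δ (((1/4 : ℝ) : ℂ) + y * I) *
        (x:ℂ) ^ (-(((1/4 : ℝ) : ℂ) + y * I))) -
      (-(2 * Real.pi * I * conj (zd δ)) / x) * (((1 / (2 * Real.pi) : ℝ) : ℂ) *
        ∫ y : ℝ, conj (Az δ (((3/4 : ℝ) : ℂ) + y * I) *
          ((4 * Real.pi ^ 2 / x : ℝ) : ℂ) ^ (-(((3/4 : ℝ) : ℂ) + y * I)))) =
      ((1 / (2 * Real.pi) : ℝ) : ℂ) * ∫ y : ℝ, (Az δ (((1/4 : ℝ) : ℂ) + y * I) *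
        (x:ℂ) ^ (-(((1/4 : ℝ) : ℂ) + y * I)) - (-(2 * Real.pi * I * conj (zd δ)) / x) *
        conj (Az δ (((3/4 : ℝ) : ℂ) + y * I) *
          ((4 * Real.pi ^ 2 / x : ℝ) : ℂ) ^ (-(((3/4 : ℝ) : ℂ) + y * I)))) := by
    rw [integral_sub hi1 (hi2c.const_mul _), integral_const_mul]
    ring
  rw [hcomb, norm_mul, Complex.norm_real, Real.norm_eq_abs, abs_of_pos (by positivity)]
  have hbound : ‖∫ y : ℝ, (Az δ (((1/4 : ℝ) : ℂ) + y * I) *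
        (x:ℂ) ^ (-(((1/4 : ℝ) : ℂ) + y * I)) - (-(2 * Real.pi * I * conj (zd δ)) / x) *
        conj (Az δ (((3/4 : ℝ) : ℂ) + y * I) *
          ((4 * Real.pi ^ 2 / x : ℝ) : ℂ) ^ (-(((3/4 : ℝ) : ℂ) + y * I))))‖ ≤
      ∫ y : ℝ, (1024 * Real.Gamma (3/4) * C ^ 2 * x ^ (-(1/4) : ℝ)) * (1 + y ^ 2)⁻¹ := by
    apply norm_integral_le_of_norm_le (integrable_inv_one_add_sq.const_mul _)
    filter_upwards with y
    rw [m20_point δ hx y]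
    exact m20_norm hC hz h0 h1 hx y
  rw [integral_const_mul, integral_univ_inv_one_add_sq] at hbound
  calc 1 / (2 * Real.pi) * _ ≤ 1 / (2 * Real.pi) *
        ((1024 * Real.Gamma (3/4) * C ^ 2 * x ^ (-(1/4) : ℝ)) * Real.pi) :=
        mul_le_mul_of_nonneg_left hbound (by positivity)
    _ = _ := by
        field_simp
        ring

end Pool.Agent.LibF4
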