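import Pool.Agent.LibF4.Defs
import Pool.Agent.LibM3.A2
import Pool.Agent.LibM3.E3
import Pool.Agent.LibZM.CS1
import Pool.Agent.LibZM.Asymp2
import Pool.Agent.LibF4.M03
import Pool.Agent.LibF4.M05

/-! Fourth moment, block M, row M09. -/

set_option autoImplicit false

namespace Pool.Agent.LibF4

open MeasureTheory Set Filter Topology Complex
open scoped ComplexConjugate
open Pool.Agent.LibM3 Pool.Agent.LibZM

theorem m09_zd (δ : ℝ) : zd δ = cexp (-(((Real.pi / 2 - δ : ℝ) : ℂ) * I)) := by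
  have h1 : -(((Real.pi / 2 - δ : ℝ) : ℂ) * I) = ((-(Real.pi / 2 - δ) : ℝ) : ℂ) * I := by
    push_cast
    ring
  rw [h1, Complex.exp_mul_I, ← Complex.ofReal_cos, ← Complex.ofReal_sin, Real.cos_neg, Real.sin_neg,
    Real.cos_pi_div_two_sub, Real.sin_pi_div_two_sub]
  unfold zd
  push_cast
  ring

theorem m09_int (a : ℝ) (ha : -1 < a) (b : ℝ) (hb : 0 < b) :
    IntegrableOn (fun t : ℝ => t ^ a * Real.exp (-(b * t))) (Ioi 0) := by
  have h := integrableOn_rpow_mul_exp_neg_mul_rpow (p := 1) (s := a) (b := b) ha zero_lt_one hb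
  refine h.congr_fun (fun t _ => ?_) measurableSet_Ioi
  simp only [Real.rpow_one]
  ring_nf

/-- Laplace transform of a power, complex argument. -/
theorem m09_rot {s : ℂ} (hs : 0 < s.re) {z : ℂ} (hz : 0 < z.re) :
    ∫ t in Ioi (0:ℝ), (t:ℂ) ^ (s - 1) * cexp (-(z * t)) = (1 / z) ^ s * Complex.Gamma s := by
  set U : Set ℂ := {z | 0 < z.re} with hU
  have hUo : IsOpen U := isOpen_lt continuous_const Complex.continuous_re
  have hUc : IsPreconnected U := (convex_halfSpace_re_gt 0).isPreconnected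
  have hcont : ∀ (a z : ℂ), ContinuousOn (fun t : ℝ => (t:ℂ) ^ a * cexp (-(z * t))) (Ioi 0) := by
    intro a z
    apply ContinuousOn.mul
    · intro t ht
      have ht' : (0:ℝ) < t := ht
      apply ContinuousAt.continuousWithinAt
      apply ContinuousAt.cpow (Complex.continuous_ofReal.continuousAt) continuousAt_const
      exact Or.inl (by simpa using ht')
    · fun_prop
  have hnorm : ∀ (a z : ℂ) (t : ℝ), 0 < t → ‖(t:ℂ) ^ a * cexp (-(z * t))‖ = t ^ a.re * Real.exp (-(z.re * t)) := by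
    intro a z t ht
    rw [norm_mul, Complex.norm_cpow_eq_rpow_re_of_pos ht, Complex.norm_exp, Complex.neg_re, mul_comm z,
      Complex.re_ofReal_mul, mul_comm t]
  have hF : DifferentiableOn ℂ (fun z : ℂ => ∫ t in Ioi (0:ℝ), (t:ℂ) ^ (s - 1) * cexp (-(z * t))) U := by
    intro z₀ hz₀
    have hz₀' : 0 < z₀.re := hz₀
    apply DifferentiableAt.differentiableWithinAt
    have h := hasDerivAt_integral_of_dominated_loc_of_deriv_le (𝕜 := ℂ) (μ := volume.restrict (Ioi (0:ℝ)))
      (F := fun z t => (t:ℂ) ^ (s - 1) * cexp (-(z * t)))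
      (F' := fun z t => -((t:ℂ) ^ s * cexp (-(z * t))))
      (bound := fun t => t ^ s.re * Real.exp (-(z₀.re / 2 * t)))
      (x₀ := z₀) (s := {z | z₀.re / 2 < z.re})
      ((isOpen_lt continuous_const Complex.continuous_re).mem_nhds (by
        show z₀.re / 2 < z₀.re
        linarith))
      (Eventually.of_forall fun z => (hcont _ z).aestronglyMeasurable measurableSet_Ioi)
      ?_ ?_ ?_ ?_ ?_
    · exact h.2.differentiableAt
    · have h1 := m09_int (s.re - 1) (by linarith) z₀.re hz₀'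
      refine Integrable.mono' h1 ((hcont _ z₀).aestronglyMeasurable measurableSet_Ioi) ?_
      rw [ae_restrict_iff' measurableSet_Ioi]
      refine Eventually.of_forall fun t ht => ?_
      rw [hnorm _ _ t ht]
      simp
    · exact ((hcont _ z₀).aestronglyMeasurable measurableSet_Ioi).neg
    · rw [ae_restrict_iff' measurableSet_Ioi]
      refine Eventually.of_forall fun t ht z hz => ?_
      have ht' : (0:ℝ) < t := ht
      have hz' : z₀.re / 2 < z.re := hz
      rw [norm_neg, hnorm _ _ t ht']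
      apply mul_le_mul_of_nonneg_left _ (by positivity)
      apply Real.exp_le_exp.2
      have := mul_le_mul_of_nonneg_right hz'.le ht'.le
      linarith
    · exact m09_int s.re (by linarith) _ (by linarith)
    · rw [ae_restrict_iff' measurableSet_Ioi]
      refine Eventually.of_forall fun t ht z hz => ?_
      have ht' : (0:ℝ) < t := ht
      have ht0 : (t:ℂ) ≠ 0 := by exact_mod_cast ht'.ne'
      have h2 : HasDerivAt (fun z : ℂ => -(z * t)) (-(1 * (t:ℂ))) z := ((hasDerivAt_id z).mul_const (t:ℂ)).neg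
      have h3 := (h2.cexp).const_mul ((t:ℂ) ^ (s - 1))
      refine h3.congr_deriv ?_
      have h4 : (t:ℂ) ^ s = (t:ℂ) ^ (s - 1) * t := by
        conv_lhs => rw [show s = (s - 1) + 1 by ring]
        rw [Complex.cpow_add _ _ ht0, Complex.cpow_one]
      rw [h4]
      ring
  have hG : DifferentiableOn ℂ (fun z : ℂ => (1 / z) ^ s * Complex.Gamma s) U := by
    intro z₀ hz₀
    have hz₀' : 0 < z₀.re := hz₀
    apply DifferentiableAt.differentiableWithinAt
    have hne : z₀ ≠ 0 := by
      intro h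
      rw [h] at hz₀'
      simp at hz₀'
    apply DifferentiableAt.mul_const
    apply DifferentiableAt.cpow_const
    · exact (differentiableAt_const 1).div differentiableAt_id hne
    · left
      rw [one_div, Complex.inv_re]
      apply div_pos hz₀'
      exact Complex.normSq_pos.2 hne
  have h1U : (1:ℂ) ∈ U := by
    show 0 < (1:ℂ).re
    simp
  have hfreq : ∃ᶠ z in 𝓝[≠] (1:ℂ), (∫ t in Ioi (0:ℝ), (t:ℂ) ^ (s - 1) * cexp (-(z * t)))
      = (1 / z) ^ s * Complex.Gamma s := by
    have ht : Tendsto (fun r : ℝ => (r:ℂ)) (𝓝[≠] (1:ℝ)) (𝓝[≠] (1:ℂ)) := by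
      apply tendsto_nhdsWithin_iff.2
      refine ⟨?_, ?_⟩
      · have : Tendsto (fun r : ℝ => (r:ℂ)) (𝓝 (1:ℝ)) (𝓝 ((1:ℝ):ℂ)) := Complex.continuous_ofReal.continuousAt
        rw [Complex.ofReal_one] at this
        exact this.mono_left nhdsWithin_le_nhds
      · filter_upwards [self_mem_nhdsWithin] with r hr
        intro h
        apply hr
        have h' : (r:ℂ) = 1 := h
        exact_mod_cast h'
    apply ht.frequently
    apply Eventually.frequently
    have hpos : ∀ᶠ r : ℝ in 𝓝[≠] (1:ℝ), 0 < r :=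
      (lt_mem_nhds (by norm_num : (0:ℝ) < 1)).filter_mono nhdsWithin_le_nhds
    filter_upwards [hpos] with r hr
    exact Complex.integral_cpow_mul_exp_neg_mul_Ioi hs hr
  exact (hF.analyticOnNhd hUo).eqOn_of_preconnected_of_frequently_eq (hG.analyticOnNhd hUo) hUc h1U hfreq hz

theorem exp_mellin {δ : ℝ} (h0 : 0 < δ) (h1 : δ ≤ 1/4) {x : ℝ} (hx : 0 < x) :
    Integrable (fun y : ℝ => Complex.Gamma ((2:ℂ) + y * I) * cexp (((2:ℂ) + y * I) * (((Real.pi / 2 - δ : ℝ) : ℂ) * I)) *
      (x:ℂ) ^ (-((2:ℂ) + y * I))) ∧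
    cexp (-((x:ℂ) * zd δ)) = ((1 / (2 * Real.pi) : ℝ) : ℂ) * ∫ y : ℝ, Complex.Gamma ((2:ℂ) + y * I) *
      cexp (((2:ℂ) + y * I) * (((Real.pi / 2 - δ : ℝ) : ℂ) * I)) * (x:ℂ) ^ (-((2:ℂ) + y * I)) := by
  have hpi := Real.pi_gt_three
  have hpi4 := Real.pi_lt_four
  have hsin : 0 < Real.sin δ := Real.sin_pos_of_pos_of_lt_pi h0 (by linarith)
  have hzre : (zd δ).re = Real.sin δ := by
    unfold zd
    rw [Complex.sub_re, Complex.re_ofReal_mul, Complex.ofReal_re, Complex.I_re, mul_zero, sub_zero]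
  have hz : 0 < (zd δ).re := by rw [hzre]; exact hsin
  have hxc : (x:ℂ) ≠ 0 := by exact_mod_cast hx.ne'
  -- the Mellin transform
  have hmel : ∀ s : ℂ, 0 < s.re → mellin (fun t : ℝ => cexp (-((t:ℂ) * zd δ))) s
      = Complex.Gamma s * cexp (s * (((Real.pi / 2 - δ : ℝ) : ℂ) * I)) := by
    intro s hs
    unfold mellin
    have e1 : ∀ t : ℝ, (t:ℂ) ^ (s - 1) • cexp (-((t:ℂ) * zd δ)) = (t:ℂ) ^ (s - 1) * cexp (-(zd δ * t)) := by
      intro t
      rw [smul_eq_mul, mul_comm (t:ℂ) (zd δ)]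
    simp_rw [e1]
    rw [m09_rot hs hz, mul_comm]
    congr 1
    have e2 : 1 / zd δ = cexp (((Real.pi / 2 - δ : ℝ) : ℂ) * I) := by
      rw [m09_zd, Complex.exp_neg, one_div, inv_inv]
    rw [e2, Complex.cpow_def_of_ne_zero (Complex.exp_ne_zero _), Complex.log_exp]
    · ring_nf
    · simp only [Complex.mul_im, Complex.ofReal_re, Complex.I_im, mul_one, Complex.ofReal_im, Complex.I_re,
        mul_zero, add_zero]
      linarith
    · simp only [Complex.mul_im, Complex.ofReal_re, Complex.I_im, mul_one, Complex.ofReal_im, Complex.I_re,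
        mul_zero, add_zero]
      linarith
  have hre : ∀ y : ℝ, ((2:ℂ) + y * I).re = 2 := by intro y; simp
  have him : ∀ y : ℝ, ((2:ℂ) + y * I).im = y := by intro y; simp
  set θ : ℝ := Real.pi / 2 - δ / 2 with hθ
  have hθ0 : 0 < θ := by rw [hθ]; linarith
  have hθ1 : θ < Real.pi / 2 := by rw [hθ]; linarith
  set C : ℝ := Real.Gamma 2 * Real.cos θ ^ (-2 : ℝ) with hC
  have hbd : ∀ y : ℝ, ‖Complex.Gamma ((2:ℂ) + y * I) * cexp (((2:ℂ) + y * I) * (((Real.pi / 2 - δ : ℝ) : ℂ) * I))‖
      ≤ C * ((1 + |y|) ^ 0 * Real.exp (-(δ / 2 * |y|))) := by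
    intro y
    have hC0 : 0 ≤ C := by
      rw [hC]
      have := Real.Gamma_pos_of_pos (by norm_num : (0:ℝ) < 2)
      have hcos : 0 < Real.cos θ := Real.cos_pos_of_mem_Ioo ⟨by linarith, hθ1⟩
      positivity
    have e1 : ‖cexp (((2:ℂ) + y * I) * (((Real.pi / 2 - δ : ℝ) : ℂ) * I))‖ = Real.exp (-(y * (Real.pi / 2 - δ))) := by
      rw [Complex.norm_exp]
      congr 1
      have : ((2:ℂ) + y * I) * (((Real.pi / 2 - δ : ℝ) : ℂ) * I)
          = ((-(y * (Real.pi / 2 - δ)) : ℝ) : ℂ) + ((2 * (Real.pi / 2 - δ) : ℝ) : ℂ) * I := by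
        have hI := Complex.I_sq
        push_cast
        linear_combination ((y:ℂ) * (Real.pi / 2 - δ)) * hI
      rw [this]
      simp
    rw [norm_mul, e1, pow_zero, one_mul]
    rcases le_or_gt 0 y with hy | hy
    · have hg := gamma_bd (s := (2:ℂ) + y * I) (by rw [hre]; norm_num) (θ := θ)
        (by rw [abs_of_pos hθ0]; exact hθ1)
      rw [hre, him] at hg
      rw [abs_of_nonneg hy]
      have e2 : Real.exp (-(y * (Real.pi / 2 - δ))) ≤ Real.exp (y * θ) * Real.exp (-(δ / 2 * y)) := by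
        rw [← Real.exp_add]
        apply Real.exp_le_exp.2
        rw [hθ]
        nlinarith
      calc ‖Complex.Gamma ((2:ℂ) + y * I)‖ * Real.exp (-(y * (Real.pi / 2 - δ)))
          ≤ ‖Complex.Gamma ((2:ℂ) + y * I)‖ * (Real.exp (y * θ) * Real.exp (-(δ / 2 * y))) := by gcongr
        _ = (‖Complex.Gamma ((2:ℂ) + y * I)‖ * Real.exp (y * θ)) * Real.exp (-(δ / 2 * y)) := by ring
        _ ≤ C * Real.exp (-(δ / 2 * y)) := by gcongr
    · have hg := gamma_bd (s := (2:ℂ) + y * I) (by rw [hre]; norm_num) (θ := -θ)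
        (by rw [abs_neg, abs_of_pos hθ0]; exact hθ1)
      rw [hre, him, Real.cos_neg] at hg
      rw [abs_of_neg hy]
      have e2 : Real.exp (-(y * (Real.pi / 2 - δ))) ≤ Real.exp (y * (-θ)) * Real.exp (-(δ / 2 * (-y))) := by
        rw [← Real.exp_add]
        apply Real.exp_le_exp.2
        rw [hθ]
        nlinarith
      calc ‖Complex.Gamma ((2:ℂ) + y * I)‖ * Real.exp (-(y * (Real.pi / 2 - δ)))
          ≤ ‖Complex.Gamma ((2:ℂ) + y * I)‖ * (Real.exp (y * (-θ)) * Real.exp (-(δ / 2 * (-y)))) := by gcongr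
        _ = (‖Complex.Gamma ((2:ℂ) + y * I)‖ * Real.exp (y * (-θ))) * Real.exp (-(δ / 2 * (-y))) := by ring
        _ ≤ C * Real.exp (-(δ / 2 * (-y))) := by gcongr
  have hGcont : Continuous (fun y : ℝ => Complex.Gamma ((2:ℂ) + y * I) *
      cexp (((2:ℂ) + y * I) * (((Real.pi / 2 - δ : ℝ) : ℂ) * I))) := by
    apply Continuous.mul
    · rw [continuous_iff_continuousAt]
      intro y
      have hd : DifferentiableAt ℂ Complex.Gamma ((2:ℂ) + y * I) := by
        apply Complex.differentiableAt_Gamma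
        intro k hk
        have := congrArg Complex.re hk
        rw [hre, Complex.neg_re, Complex.natCast_re] at this
        have hk0 : (0:ℝ) ≤ k := Nat.cast_nonneg k
        linarith
      have hc : ContinuousAt (fun y : ℝ => (2:ℂ) + y * I) y := by fun_prop
      exact ContinuousAt.comp (f := fun y : ℝ => (2:ℂ) + y * I) hd.continuousAt hc
    · fun_prop
  have hGint : Integrable (fun y : ℝ => Complex.Gamma ((2:ℂ) + y * I) *
      cexp (((2:ℂ) + y * I) * (((Real.pi / 2 - δ : ℝ) : ℂ) * I))) :=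
    Integrable.mono' (dom_int h0 0 C).1 hGcont.aestronglyMeasurable (Eventually.of_forall hbd)
  have hxcont : Continuous (fun y : ℝ => (x:ℂ) ^ (-((2:ℂ) + y * I))) := by
    apply Continuous.const_cpow (by fun_prop)
    exact Or.inl hxc
  refine ⟨?_, ?_⟩
  · have h2 := Integrable.bdd_mul (c := x ^ (-2 : ℝ)) (f := fun y : ℝ => (x:ℂ) ^ (-((2:ℂ) + y * I))) hGint
      hxcont.aestronglyMeasurable (Eventually.of_forall fun y => by
        rw [Complex.norm_cpow_eq_rpow_re_of_pos hx, Complex.neg_re, hre])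
    refine h2.congr (Eventually.of_forall fun y => ?_)
    simp only
    ring
  · have hconv : MellinConvergent (fun t : ℝ => cexp (-((t:ℂ) * zd δ))) ((2:ℝ):ℂ) := by
      unfold MellinConvergent
      have h3 := m09_int 1 (by norm_num) (Real.sin δ) hsin
      refine Integrable.mono' h3 ?_ ?_
      · apply ContinuousOn.aestronglyMeasurable _ measurableSet_Ioi
        apply ContinuousOn.fun_smul
        · intro t ht
          have ht' : (0:ℝ) < t := ht
          apply ContinuousAt.continuousWithinAt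
          apply ContinuousAt.cpow (Complex.continuous_ofReal.continuousAt) continuousAt_const
          exact Or.inl (by simpa using ht')
        · fun_prop
      · rw [ae_restrict_iff' measurableSet_Ioi]
        refine Eventually.of_forall fun t ht => ?_
        have ht' : (0:ℝ) < t := ht
        rw [norm_smul, Complex.norm_cpow_eq_rpow_re_of_pos ht', Complex.norm_exp, Complex.neg_re,
          Complex.re_ofReal_mul, hzre]
        have e3 : (((2:ℝ):ℂ) - 1).re = 1 := by
          simp
          norm_num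
        rw [e3, mul_comm t (Real.sin δ)]
    have hvert : VerticalIntegrable (mellin (fun t : ℝ => cexp (-((t:ℂ) * zd δ)))) 2 := by
      unfold VerticalIntegrable
      refine hGint.congr (Eventually.of_forall fun y => ?_)
      have := hmel ((2:ℂ) + y * I) (by rw [hre]; norm_num)
      simp only [Complex.ofReal_ofNat]
      exact this.symm
    have hinv := mellinInv_mellin_eq 2 (fun t : ℝ => cexp (-((t:ℂ) * zd δ))) hx hconv hvert
      (by fun_prop)
    rw [← hinv]
    unfold mellinInv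
    have e4 : ∀ y : ℝ, (x:ℂ) ^ (-(((2:ℝ):ℂ) + y * I)) • mellin (fun t : ℝ => cexp (-((t:ℂ) * zd δ))) (((2:ℝ):ℂ) + y * I)
        = Complex.Gamma ((2:ℂ) + y * I) * cexp (((2:ℂ) + y * I) * (((Real.pi / 2 - δ : ℝ) : ℂ) * I)) *
          (x:ℂ) ^ (-((2:ℂ) + y * I)) := by
      intro y
      rw [Complex.ofReal_ofNat, hmel _ (by rw [hre]; norm_num), smul_eq_mul]
      ring
    simp_rw [e4]
    rw [Complex.real_smul]

end Pool.Agent.LibF4
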