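import Pool.Agent.LibF4.Defs
import Pool.Agent.LibM3.A2
import Pool.Agent.LibM3.E3
import Pool.Agent.LibZM.CS1
import Pool.Agent.LibZM.Asymp2
import Pool.Agent.LibZM.CS3

/-! Fourth moment, block M, row M11. -/

set_option autoImplicit false

namespace Pool.Agent.LibF4

open MeasureTheory Set Filter Topology Complex
open scoped ComplexConjugate
open Pool.Agent.LibM3 Pool.Agent.LibZM

theorem m11_hasSum {s : ℂ} (hs : 1 < s.re) :
    HasSum (fun n : ℕ => ((dv n : ℝ) : ℂ) * (n:ℂ) ^ (-s)) (riemannZeta s ^ 2) := by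
  have h := Pool.Agent.LibZM.LSeriesHasSum_tau 2 hs
  unfold LSeriesHasSum at h
  have e : (fun n : ℕ => ((dv n : ℝ) : ℂ) * (n:ℂ) ^ (-s)) =
      LSeries.term (fun n => ((tau ((2:ℕ):ℝ) n : ℝ) : ℂ)) s := by
    funext n
    rw [LSeries.term_def]
    by_cases h0 : n = 0
    · subst h0
      simp [dv]
    · rw [if_neg h0, div_eq_mul_inv, ← Complex.cpow_neg, dv, e3_card]
      norm_num
  rw [e]
  exact h

theorem zeta_sq_series {s : ℂ} (hs : 1 < s.re) : Summable (fun n : ℕ => ‖((dv n : ℝ) : ℂ) * (n:ℂ) ^ (-s)‖) ∧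
    riemannZeta s ^ 2 = ∑' n : ℕ, ((dv n : ℝ) : ℂ) * (n:ℂ) ^ (-s) :=
  ⟨(m11_hasSum hs).summable.norm, (m11_hasSum hs).tsum_eq.symm⟩

end Pool.Agent.LibF4
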