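import Pool.Agent.LibF4.Defs
import Pool.Agent.LibM3.A2
import Pool.Agent.LibM3.E3
import Pool.Agent.LibZM.CS1
import Pool.Agent.LibZM.Asymp2
import Pool.Agent.LibF4.M09
import Pool.Agent.LibF4.M10
import Pool.Agent.LibF4.M11

/-! Fourth moment, block M, row M12. -/

set_option autoImplicit false

namespace Pool.Agent.LibF4

open MeasureTheory Set Filter Topology Complex
open scoped ComplexConjugate
open Pool.Agent.LibM3 Pool.Agent.LibZM

theorem m12_norm {n : ℕ} (hn : 0 < n) (y : ℝ) :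
    ‖(n:ℂ) ^ (-((2:ℂ) + y * I))‖ = ‖(n:ℂ) ^ (-(2:ℂ))‖ := by
  rw [Complex.norm_natCast_cpow_of_pos hn, Complex.norm_natCast_cpow_of_pos hn]
  simp

theorem m12_dv0 : dv 0 = 0 := by simp [dv]

theorem Sz_mellin {δ : ℝ} (h0 : 0 < δ) (h1 : δ ≤ 1/4) {x : ℝ} (hx : 0 < x) :
    Integrable (fun y : ℝ => Az δ (((2:ℝ):ℂ) + y * I) * (x:ℂ) ^ (-(((2:ℝ):ℂ) + y * I))) ∧ Sz δ x = Fl δ 2 x := by
  have h22 : ((2:ℝ):ℂ) = (2:ℂ) := by norm_num
  set g : ℝ → ℂ := fun y => Complex.Gamma ((2:ℂ) + y * I) *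
    cexp (((2:ℂ) + y * I) * (((Real.pi / 2 - δ : ℝ) : ℂ) * I)) with hg
  have hx0 : (x:ℂ) ≠ 0 := by exact_mod_cast hx.ne'
  obtain ⟨hint, -⟩ := exp_mellin h0 h1 hx
  have hre : ∀ y : ℝ, 1 < ((2:ℂ) + y * I).re := by intro y; simp
  have hsum2 : Summable (fun n : ℕ => ‖((dv n : ℝ) : ℂ) * (n:ℂ) ^ (-(2:ℂ))‖) :=
    (zeta_sq_series (s := 2) (by simp)).1
  -- the terms
  set F : ℕ → ℝ → ℂ := fun n y => ((dv n : ℝ) : ℂ) * (g y * (x:ℂ) ^ (-((2:ℂ) + y * I))) *
    (n:ℂ) ^ (-((2:ℂ) + y * I)) with hF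
  have hFnorm : ∀ n y, ‖F n y‖ = ‖((dv n : ℝ) : ℂ) * (n:ℂ) ^ (-(2:ℂ))‖ *
      ‖g y * (x:ℂ) ^ (-((2:ℂ) + y * I))‖ := by
    intro n y
    rcases Nat.eq_zero_or_pos n with hn | hn
    · subst hn; simp [hF, m12_dv0]
    · simp only [hF]
      rw [norm_mul, norm_mul, m12_norm hn y, norm_mul ((dv n : ℝ) : ℂ)]
      ring
  have hcpow : ∀ {n : ℕ}, 0 < n → ∀ y : ℝ, (((n:ℝ) * x : ℝ) : ℂ) ^ (-((2:ℂ) + y * I)) =
      (n:ℂ) ^ (-((2:ℂ) + y * I)) * (x:ℂ) ^ (-((2:ℂ) + y * I)) := by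
    intro n hn y
    rw [Complex.ofReal_mul, Complex.mul_cpow_ofReal_nonneg (by positivity) hx.le]
    norm_cast
  have hF2 : ∀ {n : ℕ}, 0 < n → ∀ y : ℝ, F n y = ((dv n : ℝ) : ℂ) *
      (Complex.Gamma ((2:ℂ) + y * I) * cexp (((2:ℂ) + y * I) * (((Real.pi / 2 - δ : ℝ) : ℂ) * I)) *
      (((n:ℝ) * x : ℝ) : ℂ) ^ (-((2:ℂ) + y * I))) := by
    intro n hn y
    rw [hcpow hn y]
    simp only [hF, hg]
    ring
  have hFint : ∀ n, Integrable (F n) := by
    intro n
    rcases Nat.eq_zero_or_pos n with hn | hn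
    · subst hn
      have : F 0 = fun _ => 0 := by funext y; simp [hF, m12_dv0]
      rw [this]; exact integrable_zero _ _ _
    · have hnx : 0 < (n:ℝ) * x := by positivity
      have h := ((exp_mellin h0 h1 hnx).1).const_mul ((dv n : ℝ) : ℂ)
      exact h.congr (Filter.Eventually.of_forall fun y => (hF2 hn y).symm)
  have hFsum : Summable fun n => ∫ y, ‖F n y‖ := by
    have : (fun n => ∫ y, ‖F n y‖) = fun n => ‖((dv n : ℝ) : ℂ) * (n:ℂ) ^ (-(2:ℂ))‖ *
        ∫ y : ℝ, ‖g y * (x:ℂ) ^ (-((2:ℂ) + y * I))‖ := by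
      funext n
      rw [← integral_const_mul]
      exact integral_congr_ae (Filter.Eventually.of_forall fun y => hFnorm n y)
    rw [this]
    exact hsum2.mul_right _
  have hmain := hasSum_integral_of_summable_integral_norm hFint hFsum
  have hts : ∀ y : ℝ, ∑' n, F n y = Az δ (((2:ℝ):ℂ) + y * I) * (x:ℂ) ^ (-(((2:ℝ):ℂ) + y * I)) := by
    intro y
    rw [h22]
    have h := (zeta_sq_series (hre y)).2
    simp only [Az]
    rw [h]
    have : ∀ n, F n y = (g y * (x:ℂ) ^ (-((2:ℂ) + y * I))) *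
        (((dv n : ℝ) : ℂ) * (n:ℂ) ^ (-((2:ℂ) + y * I))) := by
      intro n; simp only [hF]; ring
    rw [tsum_congr this, tsum_mul_left]
    simp only [hg]
    ring
  have hFi : ∀ n, ∫ y, F n y = ((2 * Real.pi : ℝ) : ℂ) *
      (((dv n : ℝ) : ℂ) * cexp (-((n:ℂ) * x * zd δ))) := by
    intro n
    rcases Nat.eq_zero_or_pos n with hn | hn
    · subst hn; simp [hF, m12_dv0]
    · have hnx : 0 < (n:ℝ) * x := by positivity
      have h := (exp_mellin h0 h1 hnx).2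
      have hcast : ((((n:ℝ) * x : ℝ) : ℂ)) = (n:ℂ) * x := by push_cast; ring
      rw [hcast] at h
      rw [h, integral_congr_ae (Filter.Eventually.of_forall fun y => hF2 hn y),
        integral_const_mul, hcast]
      have hpi : (Real.pi : ℂ) ≠ 0 := by exact_mod_cast Real.pi_ne_zero
      have h2 : ((2 * Real.pi : ℝ) : ℂ) * ((1 / (2 * Real.pi) : ℝ) : ℂ) = 1 := by
        push_cast
        field_simp
      rw [mul_left_comm, ← mul_assoc ((2 * Real.pi : ℝ) : ℂ), h2, one_mul]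
  refine ⟨?_, ?_⟩
  · -- integrability
    have hcont : Continuous fun y : ℝ => riemannZeta ((2:ℂ) + y * I) ^ 2 := by
      refine Continuous.pow ?_ 2
      refine continuous_iff_continuousAt.2 fun y => ?_
      have h1' : (2:ℂ) + y * I ≠ 1 := by
        intro h
        have := congrArg Complex.re h
        simp at this
      exact ContinuousAt.comp (f := fun y : ℝ => (2:ℂ) + y * I) (g := riemannZeta)
        (differentiableAt_riemannZeta h1').continuousAt (by fun_prop)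
    have hbd : ∀ y : ℝ, ‖riemannZeta ((2:ℂ) + y * I) ^ 2‖ ≤
        ∑' n : ℕ, ‖((dv n : ℝ) : ℂ) * (n:ℂ) ^ (-(2:ℂ))‖ := by
      intro y
      rw [(zeta_sq_series (hre y)).2]
      refine (norm_tsum_le_tsum_norm (zeta_sq_series (hre y)).1).trans (le_of_eq ?_)
      refine tsum_congr fun n => ?_
      rcases Nat.eq_zero_or_pos n with hn | hn
      · subst hn; simp [m12_dv0]
      · rw [norm_mul, norm_mul, m12_norm hn y]
    have hprod := hint.bdd_mul hcont.aestronglyMeasurable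
      (Filter.Eventually.of_forall hbd)
    refine hprod.congr (Filter.Eventually.of_forall fun y => ?_)
    simp only [Az, h22]
    ring
  · unfold Sz Fl
    rw [integral_congr_ae (Filter.Eventually.of_forall fun y => (hts y).symm), ← hmain.tsum_eq,
      tsum_congr hFi, tsum_mul_left, ← mul_assoc]
    have hpi : (Real.pi : ℂ) ≠ 0 := by exact_mod_cast Real.pi_ne_zero
    have : ((1 / (2 * Real.pi) : ℝ) : ℂ) * ((2 * Real.pi : ℝ) : ℂ) = 1 := by
      push_cast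
      field_simp
    rw [this, one_mul]

end Pool.Agent.LibF4
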