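import Pool.Agent.LibF4.Defs
import Pool.Agent.LibM3.A2
import Pool.Agent.LibM3.E3
import Pool.Agent.LibZM.CS1
import Pool.Agent.LibZM.Asymp2

/-! Fourth moment, block M, row M13. -/

set_option autoImplicit false

namespace Pool.Agent.LibF4

open MeasureTheory Set Filter Topology Complex
open scoped ComplexConjugate
open Pool.Agent.LibM3 Pool.Agent.LibZM

theorem m13_norm_exp_sq (x y : ℝ) : ‖cexp (((x:ℂ) + y * I) ^ 2)‖ = Real.exp (x ^ 2 - y ^ 2) := by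
  rw [Complex.norm_exp]
  congr 1
  simp [sq]

theorem m13_int_gauss (c : ℝ) : Integrable (fun y : ℝ => c * Real.exp (1 - y ^ 2)) ∧
    Tendsto (fun y : ℝ => c * Real.exp (1 - y ^ 2)) atTop (𝓝 0) ∧
    Tendsto (fun y : ℝ => c * Real.exp (1 - y ^ 2)) atBot (𝓝 0) := by
  refine ⟨?_, ?_, ?_⟩
  · have h := (integrable_exp_neg_mul_sq (by norm_num : (0:ℝ) < 1)).const_mul (c * Real.exp 1)
    refine h.congr (Eventually.of_forall fun y => ?_)
    show c * Real.exp 1 * Real.exp (-1 * y ^ 2) = c * Real.exp (1 - y ^ 2)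
    rw [mul_assoc, ← Real.exp_add]
    congr 2
    ring
  · have h1 : Tendsto (fun y : ℝ => 1 - y ^ 2) atTop atBot := by
      have h2 : Tendsto (fun y : ℝ => y ^ 2) atTop atTop := tendsto_pow_atTop (by norm_num)
      have h3 := tendsto_atBot_add_const_left atTop (1:ℝ) (tendsto_neg_atTop_atBot.comp h2)
      refine h3.congr fun y => ?_
      simp [sub_eq_add_neg]
    simpa using (Real.tendsto_exp_atBot.comp h1).const_mul c
  · have h1 : Tendsto (fun y : ℝ => 1 - y ^ 2) atBot atBot := by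
      have h2 : Tendsto (fun y : ℝ => y ^ 2) atBot atTop := by
        have := (tendsto_pow_atTop (α := ℝ) (n := 2) (by norm_num)).comp tendsto_neg_atBot_atTop
        refine this.congr fun y => ?_
        simp
      have h3 := tendsto_atBot_add_const_left atBot (1:ℝ) (tendsto_neg_atTop_atBot.comp h2)
      refine h3.congr fun y => ?_
      simp [sub_eq_add_neg]
    simpa using (Real.tendsto_exp_atBot.comp h1).const_mul c

theorem m13_sq_ge {x : ℝ} (hx : 1/2 ≤ x) (y : ℝ) : 1/4 ≤ ‖((x:ℂ) + y * I) ^ 2‖ := by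
  rw [norm_pow]
  have h1 : x ≤ ‖(x:ℂ) + y * I‖ := by
    have := Complex.re_le_norm ((x:ℂ) + y * I)
    simpa using this
  nlinarith

theorem m13_ne {x : ℝ} (hx : x ≠ 0) (y : ℝ) : (x:ℂ) + y * I ≠ 0 := by
  intro h
  apply hx
  have := congrArg Complex.re h
  simpa using this

theorem m13_G_bd {x : ℝ} (h0 : 1/2 ≤ x) (h1 : x ≤ 1) (y : ℝ) :
    ‖cexp (((x:ℂ) + y * I) ^ 2) / ((x:ℂ) + y * I) ^ 2‖ ≤ 4 * Real.exp (1 - y ^ 2) := by
  rw [norm_div, m13_norm_exp_sq]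
  have h2 := m13_sq_ge h0 y
  rw [div_le_iff₀ (by linarith)]
  have h3 : Real.exp (x ^ 2 - y ^ 2) ≤ Real.exp (1 - y ^ 2) := by
    apply Real.exp_le_exp.mpr
    nlinarith
  have h4 := Real.exp_pos (1 - y ^ 2)
  nlinarith

theorem m13_int_simple {x : ℝ} (h0 : 1/2 ≤ x) (h1 : x ≤ 1) :
    Integrable (fun y : ℝ => cexp (((x:ℂ) + y * I) ^ 2) / ((x:ℂ) + y * I)) := by
  have hx : x ≠ 0 := by
    intro h
    rw [h] at h0
    norm_num at h0
  refine Integrable.mono' (m13_int_gauss 2).1 ?_ (Eventually.of_forall fun y => ?_)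
  · apply Continuous.aestronglyMeasurable
    exact Continuous.div (by fun_prop) (by fun_prop) fun y => m13_ne hx y
  · rw [norm_div, m13_norm_exp_sq]
    have h2 : x ≤ ‖(x:ℂ) + y * I‖ := by
      have := Complex.re_le_norm ((x:ℂ) + y * I)
      simpa using this
    rw [div_le_iff₀ (by linarith)]
    have h3 : Real.exp (x ^ 2 - y ^ 2) ≤ Real.exp (1 - y ^ 2) := by
      apply Real.exp_le_exp.mpr
      nlinarith
    have h4 := Real.exp_pos (1 - y ^ 2)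
    nlinarith

theorem ker_simple : Integrable (fun y : ℝ => cexp (((1:ℂ) + y * I) ^ 2) / ((1:ℂ) + y * I)) ∧
    Integrable (fun y : ℝ => cexp ((-(1/2:ℂ) + y * I) ^ 2) / (-(1/2:ℂ) + y * I)) ∧
    (((1 / (2 * Real.pi) : ℝ) : ℂ) * ∫ y : ℝ, cexp (((1:ℂ) + y * I) ^ 2) / ((1:ℂ) + y * I)) -
    (((1 / (2 * Real.pi) : ℝ) : ℂ) * ∫ y : ℝ, cexp ((-(1/2:ℂ) + y * I) ^ 2) / (-(1/2:ℂ) + y * I)) = 1 := by
  have e1 : (fun y : ℝ => cexp (((1:ℂ) + y * I) ^ 2) / ((1:ℂ) + y * I)) =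
      fun y : ℝ => cexp ((((1:ℝ):ℂ) + y * I) ^ 2) / (((1:ℝ):ℂ) + y * I) := by
    simp
  have e2 : ∀ y : ℝ, cexp ((-(1/2:ℂ) + y * I) ^ 2) / (-(1/2:ℂ) + y * I) =
      -(cexp ((((1/2:ℝ):ℂ) + (-y : ℝ) * I) ^ 2) / (((1/2:ℝ):ℂ) + (-y : ℝ) * I)) := by
    intro y
    have h : (-(1/2:ℂ) + y * I) = -(((1/2:ℝ):ℂ) + (-y : ℝ) * I) := by
      push_cast
      ring
    rw [h, neg_sq, div_neg]
  have i1 := m13_int_simple (x := 1) (by norm_num) le_rfl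
  have i2 := m13_int_simple (x := 1/2) le_rfl (by norm_num)
  have c1 := a2_const (c := 1) (by norm_num)
  have c2 := a2_const (c := 1/2) (by norm_num)
  refine ⟨?_, ?_, ?_⟩
  · rw [e1]
    exact i1
  · simp_rw [e2]
    exact (i2.comp_neg).neg
  · have h2 : ∫ y : ℝ, cexp ((-(1/2:ℂ) + y * I) ^ 2) / (-(1/2:ℂ) + y * I) = -(Real.pi : ℂ) := by
      simp_rw [e2]
      rw [integral_neg]
      rw [integral_neg_eq_self (fun y : ℝ => cexp ((((1/2:ℝ):ℂ) + y * I) ^ 2) / (((1/2:ℝ):ℂ) + y * I)) volume]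
      rw [c2]
    rw [h2, e1, c1]
    have hpi : (Real.pi : ℂ) ≠ 0 := by
      exact_mod_cast Real.pi_ne_zero
    push_cast
    field_simp
    ring

theorem ker_double : Integrable (fun y : ℝ => cexp (((1:ℂ) + y * I) ^ 2) / ((1:ℂ) + y * I) ^ 2) ∧
    Integrable (fun y : ℝ => cexp ((-(1/2:ℂ) + y * I) ^ 2) / (-(1/2:ℂ) + y * I) ^ 2) ∧
    (∫ y : ℝ, cexp (((1:ℂ) + y * I) ^ 2) / ((1:ℂ) + y * I) ^ 2) =
    ∫ y : ℝ, cexp ((-(1/2:ℂ) + y * I) ^ 2) / (-(1/2:ℂ) + y * I) ^ 2 := by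
  obtain ⟨g1, g2, g3⟩ := m13_int_gauss 4
  have hd : ∀ s : ℂ, (1/2:ℝ) ≤ s.re → s.re ≤ 1 → DifferentiableAt ℂ (fun s : ℂ => cexp (s ^ 2) / s ^ 2) s := by
    intro s h0 _
    have hs : s ≠ 0 := by
      intro h
      rw [h] at h0
      norm_num at h0
    have hs2 : s ^ 2 ≠ 0 := pow_ne_zero 2 hs
    exact DifferentiableAt.div (by fun_prop) (by fun_prop) hs2
  obtain ⟨h1, h2⟩ := vertical_shift (G := fun s : ℂ => cexp (s ^ 2) / s ^ 2) (a := 1/2) (b := 1) (by norm_num) hd g1 g2 g3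
    (fun x hx y => m13_G_bd hx.1 hx.2 y)
  have e1 : (fun y : ℝ => cexp (((1:ℂ) + y * I) ^ 2) / ((1:ℂ) + y * I) ^ 2) =
      fun y : ℝ => cexp ((((1:ℝ):ℂ) + y * I) ^ 2) / (((1:ℝ):ℂ) + y * I) ^ 2 := by
    simp
  have e2 : ∀ y : ℝ, cexp ((-(1/2:ℂ) + y * I) ^ 2) / (-(1/2:ℂ) + y * I) ^ 2 =
      cexp ((((1/2:ℝ):ℂ) + (-y : ℝ) * I) ^ 2) / (((1/2:ℝ):ℂ) + (-y : ℝ) * I) ^ 2 := by
    intro y
    have h : (-(1/2:ℂ) + y * I) = -(((1/2:ℝ):ℂ) + (-y : ℝ) * I) := by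
      push_cast
      ring
    rw [h, neg_sq]
  have i2 := h1 (1/2) ⟨le_rfl, by norm_num⟩
  refine ⟨?_, ?_, ?_⟩
  · rw [e1]
    exact h1 1 ⟨by norm_num, le_rfl⟩
  · simp_rw [e2]
    exact i2.comp_neg
  · rw [e1]
    simp_rw [e2]
    rw [integral_neg_eq_self (fun y : ℝ => cexp ((((1/2:ℝ):ℂ) + y * I) ^ 2) / (((1/2:ℝ):ℂ) + y * I) ^ 2) volume]
    exact h2.symm

end Pool.Agent.LibF4
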