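import Pool.Agent.LibF4.Defs
import Pool.Agent.LibM3.A2
import Pool.Agent.LibM3.E3
import Pool.Agent.LibZM.CS1
import Pool.Agent.LibZM.Asymp2
import Pool.Agent.LibF4.M13

/-! Fourth moment, block M, row M14. -/

set_option autoImplicit false

namespace Pool.Agent.LibF4

open MeasureTheory Set Filter Topology Complex
open scoped ComplexConjugate
open Pool.Agent.LibM3 Pool.Agent.LibZM

theorem m14_gauss (c : ℝ) : Integrable (fun y : ℝ => c * Real.exp (1 - y ^ 2 / 2)) ∧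
    Tendsto (fun y : ℝ => c * Real.exp (1 - y ^ 2 / 2)) atTop (𝓝 0) ∧
    Tendsto (fun y : ℝ => c * Real.exp (1 - y ^ 2 / 2)) atBot (𝓝 0) := by
  refine ⟨?_, ?_, ?_⟩
  · have h := (integrable_exp_neg_mul_sq (by norm_num : (0:ℝ) < 1/2)).const_mul (c * Real.exp 1)
    refine h.congr (Eventually.of_forall fun y => ?_)
    show c * Real.exp 1 * Real.exp (-(1/2) * y ^ 2) = c * Real.exp (1 - y ^ 2 / 2)
    rw [mul_assoc, ← Real.exp_add]
    congr 2
    ring
  · have h1 : Tendsto (fun y : ℝ => 1 - y ^ 2 / 2) atTop atBot := by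
      have h2 : Tendsto (fun y : ℝ => y ^ 2 / 2) atTop atTop :=
        (tendsto_pow_atTop (by norm_num)).atTop_div_const (by norm_num)
      have h3 := tendsto_atBot_add_const_left atTop (1:ℝ) (tendsto_neg_atTop_atBot.comp h2)
      refine h3.congr fun y => ?_
      simp [sub_eq_add_neg]
    simpa using (Real.tendsto_exp_atBot.comp h1).const_mul c
  · have h1 : Tendsto (fun y : ℝ => 1 - y ^ 2 / 2) atBot atBot := by
      have h2 : Tendsto (fun y : ℝ => y ^ 2 / 2) atBot atTop := by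
        have := ((tendsto_pow_atTop (α := ℝ) (n := 2) (by norm_num)).comp tendsto_neg_atBot_atTop).atTop_div_const
          (by norm_num : (0:ℝ) < 2)
        refine this.congr fun y => ?_
        simp
      have h3 := tendsto_atBot_add_const_left atBot (1:ℝ) (tendsto_neg_atTop_atBot.comp h2)
      refine h3.congr fun y => ?_
      simp [sub_eq_add_neg]
    simpa using (Real.tendsto_exp_atBot.comp h1).const_mul c

theorem m14_G_diff {f : ℂ → ℂ} (hf : ∀ s : ℂ, 0 < s.re → DifferentiableAt ℂ f s) :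
    ∀ s : ℂ, 0 < s.re → DifferentiableAt ℂ (dslope (dslope f 1) 1) s := by
  have hU : IsOpen {s : ℂ | 0 < s.re} := isOpen_lt continuous_const Complex.continuous_re
  have h1 : {s : ℂ | 0 < s.re} ∈ 𝓝 (1:ℂ) := hU.mem_nhds (by simp)
  have h2 : DifferentiableOn ℂ f {s : ℂ | 0 < s.re} := fun s hs => (hf s hs).differentiableWithinAt
  have h3 : DifferentiableOn ℂ (dslope (dslope f 1) 1) {s : ℂ | 0 < s.re} :=
    (Complex.differentiableOn_dslope h1).mpr ((Complex.differentiableOn_dslope h1).mpr h2)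
  intro s hs
  exact (h3 s hs).differentiableAt (hU.mem_nhds hs)

theorem m14_G_eq {f : ℂ → ℂ} (h0 : f 1 = 0) (h1 : deriv f 1 = 0) {s : ℂ} (hs : s ≠ 1) :
    dslope (dslope f 1) 1 s = f s / (s - 1) ^ 2 := by
  have hs' : s - 1 ≠ 0 := sub_ne_zero.mpr hs
  rw [dslope_of_ne _ hs, slope_def_field, dslope_same, h1, dslope_of_ne _ hs, slope_def_field, h0]
  field_simp
  simp

theorem m14_rect {G : ℂ → ℂ} (hG : ∀ s : ℂ, 0 < s.re → DifferentiableAt ℂ G s) :
    ∃ K : ℝ, 0 ≤ K ∧ ∀ x ∈ Icc (1/2:ℝ) 2, ∀ y ∈ Icc (-1:ℝ) 1, ‖G (x + y * I)‖ ≤ K := by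
  have hc : IsCompact (Icc (1/2:ℝ) 2 ×ˢ Icc (-1:ℝ) 1) := isCompact_Icc.prod isCompact_Icc
  have hcont : ContinuousOn (fun p : ℝ × ℝ => G ((p.1:ℂ) + p.2 * I)) (Icc (1/2:ℝ) 2 ×ˢ Icc (-1:ℝ) 1) := by
    intro p hp
    have hp1 : (1/2:ℝ) ≤ p.1 := hp.1.1
    have h1 : ContinuousAt G ((p.1:ℂ) + p.2 * I) := (hG _ (by simp; linarith)).continuousAt
    have h2 : ContinuousAt (fun p : ℝ × ℝ => (p.1:ℂ) + p.2 * I) p := by fun_prop
    exact (ContinuousAt.comp (f := fun p : ℝ × ℝ => (p.1:ℂ) + p.2 * I) h1 h2).continuousWithinAt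
  obtain ⟨K, hK⟩ := hc.exists_bound_of_continuousOn hcont
  refine ⟨max K 0, le_max_right _ _, fun x hx y hy => ?_⟩
  exact (hK (x, y) ⟨hx, hy⟩).trans (le_max_left _ _)

theorem double_pole {H : ℂ → ℂ} (hH : ∀ s : ℂ, 0 < s.re → DifferentiableAt ℂ H s) {g : ℝ → ℝ} (hg : Integrable g)
    (hg0 : Tendsto g atTop (𝓝 0)) (hg1 : Tendsto g atBot (𝓝 0)) (hgc : Continuous g)
    (hb : ∀ x ∈ Icc (1/2:ℝ) 2, ∀ y : ℝ, ‖H (x + y * I)‖ ≤ g y) :
    Integrable (fun y : ℝ => H ((2:ℂ) + y * I) / ((1:ℂ) + y * I) ^ 2) ∧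
    Integrable (fun y : ℝ => H ((1/2:ℂ) + y * I) / (-(1/2:ℂ) + y * I) ^ 2) ∧
    (((1 / (2 * Real.pi) : ℝ) : ℂ) * ∫ y : ℝ, H ((2:ℂ) + y * I) / ((1:ℂ) + y * I) ^ 2) -
    (((1 / (2 * Real.pi) : ℝ) : ℂ) * ∫ y : ℝ, H ((1/2:ℂ) + y * I) / (-(1/2:ℂ) + y * I) ^ 2) = deriv H 1 := by
  set f : ℂ → ℂ := fun s => H s - cexp ((s - 1) ^ 2) * (H 1 + deriv H 1 * (s - 1)) with hf
  have hH1 : DifferentiableAt ℂ H 1 := hH 1 (by simp)
  have hfd : ∀ s : ℂ, 0 < s.re → DifferentiableAt ℂ f s := by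
    intro s hs
    exact (hH s hs).sub (by fun_prop)
  have hf1 : f 1 = 0 := by simp [hf]
  have hf2 : deriv f 1 = 0 := by
    have e1 : HasDerivAt (fun s : ℂ => cexp ((s - 1) ^ 2)) 0 1 := by
      have h1 : HasDerivAt (fun s : ℂ => (s - 1) ^ 2) 0 1 := by
        have := ((hasDerivAt_id (1:ℂ)).sub_const 1).fun_pow 2
        simpa using this
      simpa using h1.cexp
    have e2 : HasDerivAt (fun s : ℂ => H 1 + deriv H 1 * (s - 1)) (deriv H 1) 1 := by
      have := (((hasDerivAt_id (1:ℂ)).sub_const 1).const_mul (deriv H 1)).const_add (H 1)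
      simpa using this
    have e3 := hH1.hasDerivAt.sub (e1.mul e2)
    have e4 := e3.deriv
    have e5 : f = H - (fun s : ℂ => cexp ((s - 1) ^ 2)) * (fun s : ℂ => H 1 + deriv H 1 * (s - 1)) := by
      funext s
      simp [hf]
    rw [e5, e4]
    simp
  set G : ℂ → ℂ := dslope (dslope f 1) 1 with hGdef
  have hGd : ∀ s : ℂ, 0 < s.re → DifferentiableAt ℂ G s := m14_G_diff hfd
  have hGe : ∀ s : ℂ, s ≠ 1 → G s = f s / (s - 1) ^ 2 := fun s hs => m14_G_eq hf1 hf2 hs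
  obtain ⟨K, hK0, hK⟩ := m14_rect hGd
  set A := ‖H 1‖ with hA
  set B := ‖deriv H 1‖ with hB
  have hA0 : 0 ≤ A := norm_nonneg _
  have hB0 : 0 ≤ B := norm_nonneg _
  obtain ⟨q1, q2, q3⟩ := m14_gauss (A + 2 * B + K)
  have hg_nonneg : ∀ y, 0 ≤ g y := fun y => (norm_nonneg _).trans (hb 1 ⟨by norm_num, by norm_num⟩ y)
  have hdom : ∀ x ∈ Icc (1/2:ℝ) 2, ∀ y : ℝ, ‖G (x + y * I)‖ ≤ g y + (A + 2 * B + K) * Real.exp (1 - y ^ 2 / 2) := by
    intro x hx y
    have hE := Real.exp_pos (1 - y ^ 2 / 2)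
    rcases le_or_gt |y| 1 with hy | hy
    · have hy' := abs_le.mp hy
      have h1 := hK x hx y hy'
      have h2 : 1 ≤ Real.exp (1 - y ^ 2 / 2) := by
        apply Real.one_le_exp
        have : y ^ 2 ≤ 1 := by nlinarith [hy'.1, hy'.2]
        linarith
      have h3 := hg_nonneg y
      nlinarith [mul_nonneg hA0 hE.le, mul_nonneg hB0 hE.le, mul_nonneg hK0 (sub_nonneg.mpr h2)]
    · have hs : (x:ℂ) + y * I ≠ 1 := by
        intro h
        have := congrArg Complex.im h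
        simp at this
        rw [this] at hy
        simp at hy
        linarith
      have hy2 : 1 ≤ y ^ 2 := by
        have := sq_abs y
        nlinarith
      have hsub : (x:ℂ) + y * I - 1 = ((x - 1 : ℝ) : ℂ) + y * I := by push_cast; ring
      have hn1 : 1 ≤ ‖((x:ℂ) + y * I - 1) ^ 2‖ := by
        rw [norm_pow]
        have h1 : |y| ≤ ‖(x:ℂ) + y * I - 1‖ := by
          have := Complex.abs_im_le_norm ((x:ℂ) + y * I - 1)
          simpa using this
        nlinarith [norm_nonneg ((x:ℂ) + y * I - 1)]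
      rw [hGe _ hs, norm_div]
      have hf3 : ‖f ((x:ℂ) + y * I)‖ ≤ g y + (A + 2 * B) * Real.exp (1 - y ^ 2 / 2) := by
        have h1 : ‖f ((x:ℂ) + y * I)‖ ≤ ‖H ((x:ℂ) + y * I)‖ +
            ‖cexp (((x:ℂ) + y * I - 1) ^ 2)‖ * ‖H 1 + deriv H 1 * ((x:ℂ) + y * I - 1)‖ := by
          rw [← norm_mul]
          exact norm_sub_le _ _
        have h2 : ‖cexp (((x:ℂ) + y * I - 1) ^ 2)‖ ≤ Real.exp (1 - y ^ 2) := by
          rw [hsub, Complex.norm_exp]
          apply Real.exp_le_exp.mpr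
          have : ((((x - 1 : ℝ) : ℂ) + y * I) ^ 2).re = (x - 1) ^ 2 - y ^ 2 := by
            simp [sq]
          rw [this]
          have := hx.1
          have := hx.2
          nlinarith
        have h3 : ‖H 1 + deriv H 1 * ((x:ℂ) + y * I - 1)‖ ≤ A + B * (1 + |y|) := by
          refine (norm_add_le _ _).trans ?_
          rw [norm_mul]
          have h4 : ‖(x:ℂ) + y * I - 1‖ ≤ 1 + |y| := by
            rw [hsub]
            refine (norm_add_le _ _).trans ?_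
            rw [norm_mul, Complex.norm_I, mul_one, Complex.norm_real, Complex.norm_real, Real.norm_eq_abs,
              Real.norm_eq_abs]
            have : |x - 1| ≤ 1 := abs_le.mpr ⟨by linarith [hx.1], by linarith [hx.2]⟩
            linarith
          have := mul_le_mul_of_nonneg_left h4 hB0
          linarith
        have h5 : Real.exp (1 - y ^ 2) * (A + B * (1 + |y|)) ≤ (A + 2 * B) * Real.exp (1 - y ^ 2 / 2) := by
          have e1 : Real.exp (1 - y ^ 2 / 2) = Real.exp (1 - y ^ 2) * Real.exp (y ^ 2 / 2) := by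
            rw [← Real.exp_add]
            congr 1
            ring
          have e2 := Real.add_one_le_exp (y ^ 2 / 2)
          have e3 : |y| ≤ 1 + y ^ 2 := by
            have := sq_abs y
            nlinarith [sq_nonneg (|y| - 1), abs_nonneg y]
          rw [e1]
          have e4 := Real.exp_pos (1 - y ^ 2)
          have e5 : A + B * (1 + |y|) ≤ (A + 2 * B) * Real.exp (y ^ 2 / 2) := by
            nlinarith [mul_nonneg hA0 (by linarith : (0:ℝ) ≤ Real.exp (y ^ 2 / 2) - 1),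
              mul_nonneg hB0 (by linarith : (0:ℝ) ≤ Real.exp (y ^ 2 / 2) - (y ^ 2 / 2 + 1)),
              mul_nonneg hB0 (by linarith : (0:ℝ) ≤ 1 + y ^ 2 - |y|)]
          nlinarith [mul_nonneg e4.le (sub_nonneg.mpr e5)]
        have h6 := hb x hx y
        have h7 := mul_le_mul h2 h3 (norm_nonneg _) (Real.exp_pos _).le
        linarith
      have h8 : ‖f ((x:ℂ) + y * I)‖ / ‖((x:ℂ) + y * I - 1) ^ 2‖ ≤ ‖f ((x:ℂ) + y * I)‖ :=
        div_le_self (norm_nonneg _) hn1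
      nlinarith [mul_nonneg hK0 hE.le]
  have r1 : Integrable (fun y : ℝ => g y + (A + 2 * B + K) * Real.exp (1 - y ^ 2 / 2)) := hg.add q1
  have r2 : Tendsto (fun y : ℝ => g y + (A + 2 * B + K) * Real.exp (1 - y ^ 2 / 2)) atTop (𝓝 0) := by
    simpa using hg0.add q2
  have r3 : Tendsto (fun y : ℝ => g y + (A + 2 * B + K) * Real.exp (1 - y ^ 2 / 2)) atBot (𝓝 0) := by
    simpa using hg1.add q3
  obtain ⟨v1, v2⟩ := vertical_shift (G := G) (a := 1/2) (b := 2) (by norm_num)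
    (fun s h0 _ => hGd s (by linarith)) r1 r2 r3 hdom
  have i1 := v1 2 ⟨by norm_num, le_rfl⟩
  have i2 := v1 (1/2) ⟨le_rfl, by norm_num⟩
  obtain ⟨s1, s2, s3⟩ := ker_simple
  obtain ⟨d1, d2, d3⟩ := ker_double
  have k1 : ∀ y : ℝ, H ((2:ℂ) + y * I) / ((1:ℂ) + y * I) ^ 2 = G (((2:ℝ):ℂ) + y * I) +
      H 1 * (cexp (((1:ℂ) + y * I) ^ 2) / ((1:ℂ) + y * I) ^ 2) +
      deriv H 1 * (cexp (((1:ℂ) + y * I) ^ 2) / ((1:ℂ) + y * I)) := by
    intro y
    have hne : (1:ℂ) + y * I ≠ 0 := by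
      intro h
      have := congrArg Complex.re h
      simp at this
    have hsub : ((2:ℝ):ℂ) + y * I - 1 = (1:ℂ) + y * I := by push_cast; ring
    have hs : ((2:ℝ):ℂ) + y * I ≠ 1 := by
      intro h
      apply hne
      rw [← hsub, h]
      ring
    rw [hGe _ hs, hsub]
    simp only [hf, hsub]
    have : ((2:ℝ):ℂ) = 2 := by norm_num
    rw [this]
    field_simp
    ring
  have k2 : ∀ y : ℝ, H ((1/2:ℂ) + y * I) / (-(1/2:ℂ) + y * I) ^ 2 = G (((1/2:ℝ):ℂ) + y * I) +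
      H 1 * (cexp ((-(1/2:ℂ) + y * I) ^ 2) / (-(1/2:ℂ) + y * I) ^ 2) +
      deriv H 1 * (cexp ((-(1/2:ℂ) + y * I) ^ 2) / (-(1/2:ℂ) + y * I)) := by
    intro y
    have hne : -(1/2:ℂ) + y * I ≠ 0 := by
      intro h
      have := congrArg Complex.re h
      norm_num at this
    have hsub : ((1/2:ℝ):ℂ) + y * I - 1 = -(1/2:ℂ) + y * I := by push_cast; ring
    have hs : ((1/2:ℝ):ℂ) + y * I ≠ 1 := by
      intro h
      apply hne
      rw [← hsub, h]
      ring
    rw [hGe _ hs, hsub]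
    simp only [hf, hsub]
    have : ((1/2:ℝ):ℂ) = 1/2 := by push_cast; ring
    rw [this]
    generalize -(1/2:ℂ) + y * I = w at hne ⊢
    field_simp
    ring
  have j1 : Integrable (fun y : ℝ => G (((2:ℝ):ℂ) + y * I) +
      H 1 * (cexp (((1:ℂ) + y * I) ^ 2) / ((1:ℂ) + y * I) ^ 2)) := i1.add (d1.const_mul _)
  have j2 : Integrable (fun y : ℝ => G (((1/2:ℝ):ℂ) + y * I) +
      H 1 * (cexp ((-(1/2:ℂ) + y * I) ^ 2) / (-(1/2:ℂ) + y * I) ^ 2)) := i2.add (d2.const_mul _)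
  simp_rw [k1, k2]
  refine ⟨j1.add (s1.const_mul _), j2.add (s2.const_mul _), ?_⟩
  rw [integral_add j1 (s1.const_mul _), integral_add i1 (d1.const_mul _),
    integral_add j2 (s2.const_mul _), integral_add i2 (d2.const_mul _)]
  simp only [integral_const_mul]
  have v3 : ∫ y : ℝ, G (((1/2:ℝ):ℂ) + y * I) = ∫ y : ℝ, G (((2:ℝ):ℂ) + y * I) := v2
  rw [v3, d3]
  linear_combination (deriv H 1) * s3

end Pool.Agent.LibF4
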