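import Pool.Agent.LibF4.Defs
import Pool.Agent.LibM3.A2
import Pool.Agent.LibM3.E3
import Pool.Agent.LibZM.CS1
import Pool.Agent.LibZM.Asymp2
import Pool.Agent.LibF4.M04
import Pool.Agent.LibF4.M05
import Pool.Agent.LibF4.M12
import Pool.Agent.LibF4.M14

/-! Fourth moment, block M, row M15. -/

set_option autoImplicit false

namespace Pool.Agent.LibF4

open MeasureTheory Set Filter Topology Complex
open scoped ComplexConjugate
open Pool.Agent.LibM3 Pool.Agent.LibZM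

/-- The integrand without its pole. -/
noncomputable def m15_H (δ x : ℝ) (s : ℂ) : ℂ :=
  Complex.Gamma s * riemannZeta₁ s ^ 2 * cexp (s * (((Real.pi / 2 - δ : ℝ) : ℂ) * I)) *
    (x : ℂ) ^ (-s)

theorem m15_zd (δ : ℝ) : cexp (((Real.pi / 2 - δ : ℝ) : ℂ) * I) * zd δ = 1 := by
  rw [Complex.exp_mul_I]
  have h1 : Complex.cos ((Real.pi / 2 - δ : ℝ) : ℂ) = ((Real.sin δ : ℝ) : ℂ) := by
    rw [← Complex.ofReal_cos, Real.cos_pi_div_two_sub]
  have h2 : Complex.sin ((Real.pi / 2 - δ : ℝ) : ℂ) = ((Real.cos δ : ℝ) : ℂ) := by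
    rw [← Complex.ofReal_sin, Real.sin_pi_div_two_sub]
  rw [h1, h2]
  unfold zd
  have h3 : ((Real.sin δ : ℝ) : ℂ) ^ 2 + ((Real.cos δ : ℝ) : ℂ) ^ 2 = 1 := by
    rw [← Complex.ofReal_pow, ← Complex.ofReal_pow, ← Complex.ofReal_add,
      Real.sin_sq_add_cos_sq, Complex.ofReal_one]
  linear_combination h3 - ((Real.cos δ : ℝ) : ℂ) ^ 2 * Complex.I_sq

theorem m15_diff {δ x : ℝ} (hx : 0 < x) (s : ℂ) (hs : 0 < s.re) :
    DifferentiableAt ℂ (m15_H δ x) s := by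
  have h1 : DifferentiableAt ℂ Complex.Gamma s := by
    apply Complex.differentiableAt_Gamma
    intro m hm
    rw [hm, Complex.neg_re, Complex.natCast_re] at hs
    have : (0 : ℝ) ≤ m := Nat.cast_nonneg m
    linarith
  have h2 : DifferentiableAt ℂ riemannZeta₁ s := differentiable_riemannZeta₁ s
  have h3 : DifferentiableAt ℂ (fun s : ℂ => (x : ℂ) ^ (-s)) s :=
    differentiableAt_id.neg.const_cpow (Or.inl (Complex.ofReal_ne_zero.2 hx.ne'))
  unfold m15_H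
  exact ((h1.mul (h2.pow 2)).mul (by fun_prop)).mul h3

theorem m15_deriv {δ x : ℝ} (hx : 0 < x) : deriv (m15_H δ x) 1 = Pz δ x := by
  have hx' : (x : ℂ) ≠ 0 := Complex.ofReal_ne_zero.2 hx.ne'
  have h1 := Complex.hasDerivAt_Gamma_one
  have h2 : HasDerivAt riemannZeta₁ (Real.eulerMascheroniConstant : ℂ) 1 := by
    rw [← deriv_riemannZeta₁_one]
    exact (differentiable_riemannZeta₁ 1).hasDerivAt
  have h3 : HasDerivAt (fun s : ℂ => cexp (s * (((Real.pi / 2 - δ : ℝ) : ℂ) * I)))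
      (cexp (1 * (((Real.pi / 2 - δ : ℝ) : ℂ) * I)) *
        (1 * (((Real.pi / 2 - δ : ℝ) : ℂ) * I))) 1 :=
    ((hasDerivAt_id (1 : ℂ)).mul_const _).cexp
  have h4 : HasDerivAt (fun s : ℂ => (x : ℂ) ^ (-s)) ((x : ℂ) ^ (-1 : ℂ) * Complex.log x * (-1)) 1 :=
    (hasDerivAt_neg (1 : ℂ)).const_cpow (Or.inl hx')
  have h5 := ((h1.mul (h2.pow 2)).mul h3).mul h4
  have h6 : HasDerivAt (m15_H δ x) _ 1 := h5
  rw [h6.deriv]
  have h7 := m15_zd δ
  have hz : zd δ ≠ 0 := by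
    intro h
    rw [h, mul_zero] at h7
    exact zero_ne_one h7
  unfold Pz
  have h9 : ((Real.eulerMascheroniConstant - Real.log x : ℝ) : ℂ)
      = (Real.eulerMascheroniConstant : ℂ) - Complex.log x := by
    rw [Complex.ofReal_sub, Complex.ofReal_log hx.le]
  rw [eq_div_iff (mul_ne_zero hz hx'), Complex.cpow_neg_one, h9]
  simp only [Pi.mul_apply, Pi.pow_apply, Complex.Gamma_one, riemannZeta₁_one, one_pow, one_mul,
    mul_one]
  have h8 : (x : ℂ)⁻¹ * x = 1 := inv_mul_cancel₀ hx'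
  generalize cexp (((Real.pi / 2 - δ : ℝ) : ℂ) * I) = E at *
  generalize (((Real.pi / 2 - δ : ℝ) : ℂ) * I) = c at *
  push_cast
  linear_combination (((Real.eulerMascheroniConstant : ℂ) + c - Complex.log x) * E * zd δ) * h8 +
    ((Real.eulerMascheroniConstant : ℂ) + c - Complex.log x) * h7

theorem m15_az {δ x : ℝ} {s : ℂ} (hs : s ≠ 1) :
    Az δ s * (x : ℂ) ^ (-s) = m15_H δ x s / (s - 1) ^ 2 := by
  unfold Az m15_H
  rw [riemannZeta_eq_inv_sub_mul hs]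
  have h1 : s - 1 ≠ 0 := sub_ne_zero.2 hs
  field_simp

theorem m15_pow {x r : ℝ} (hx : 0 < x) (h1 : 1 / 2 ≤ r) (h2 : r ≤ 2) :
    x ^ (-r) ≤ x ^ (-(1 / 2) : ℝ) + x ^ (-2 : ℝ) := by
  have a1 : 0 ≤ x ^ (-(1 / 2) : ℝ) := Real.rpow_nonneg hx.le _
  have a2 : 0 ≤ x ^ (-2 : ℝ) := Real.rpow_nonneg hx.le _
  rcases le_or_gt 1 x with h | h
  · have h3 := Real.rpow_le_rpow_of_exponent_le h (show -r ≤ -(1 / 2) by linarith)
    linarith
  · have h3 := Real.rpow_le_rpow_of_exponent_ge hx h.le (show (-2 : ℝ) ≤ -r by linarith)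
    linarith

theorem Fz_eq {δ : ℝ} (h0 : 0 < δ) (h1 : δ ≤ 1/4) {x : ℝ} (hx : 0 < x) : Fz δ x = Sz δ x - Pz δ x := by
  obtain ⟨C, hC, hCb⟩ := GZ_bd h0 h1
  set M : ℝ := x ^ (-(1 / 2) : ℝ) + x ^ (-2 : ℝ) with hM
  have hM0 : 0 ≤ M := add_nonneg (Real.rpow_nonneg hx.le _) (Real.rpow_nonneg hx.le _)
  obtain ⟨d1, d2, d3⟩ := dom_int h0 4 (C * M)
  have hb : ∀ a ∈ Icc (1/2:ℝ) 2, ∀ y : ℝ, ‖m15_H δ x (a + y * I)‖ ≤
      C * M * ((1 + |y|) ^ 4 * Real.exp (-(δ / 2 * |y|))) := by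
    intro a ha y
    have hre : ((a : ℂ) + y * I).re = a := by simp
    have him : ((a : ℂ) + y * I).im = y := by simp
    have h2 := hCb ((a : ℂ) + y * I) (by rw [hre]; linarith [ha.1]) (by rw [hre]; exact ha.2)
    rw [him] at h2
    unfold m15_H
    rw [norm_mul, Complex.norm_cpow_eq_rpow_re_of_pos hx, Complex.neg_re, hre]
    have h3 := m15_pow hx ha.1 ha.2
    have h4 := mul_le_mul h2 h3 (Real.rpow_nonneg hx.le _) (by positivity)
    refine h4.trans_eq ?_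
    ring
  obtain ⟨-, -, hmain⟩ := double_pole (m15_diff (δ := δ) hx) d1 d2 d3 (by fun_prop) hb
  rw [m15_deriv hx] at hmain
  obtain ⟨-, hS⟩ := Sz_mellin h0 h1 hx
  rw [hS]
  unfold Fz Fl
  rw [← hmain]
  have e1 : ∀ y : ℝ, Az δ (((2 : ℝ) : ℂ) + y * I) * (x : ℂ) ^ (-(((2 : ℝ) : ℂ) + y * I))
      = m15_H δ x ((2:ℂ) + y * I) / ((1:ℂ) + y * I) ^ 2 := by
    intro y
    have hs : (((2 : ℝ) : ℂ) + y * I) ≠ 1 := by
      intro h
      have h2 := congrArg Complex.re h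
      simp at h2
    rw [m15_az hs]
    have h3 : (((2 : ℝ) : ℂ) + y * I) = (2 : ℂ) + y * I := by push_cast; rfl
    rw [h3]
    congr 2
    ring
  have e2 : ∀ y : ℝ, Az δ (((1 / 2 : ℝ) : ℂ) + y * I) * (x : ℂ) ^ (-(((1 / 2 : ℝ) : ℂ) + y * I))
      = m15_H δ x ((1/2:ℂ) + y * I) / (-(1/2:ℂ) + y * I) ^ 2 := by
    intro y
    have hs : (((1 / 2 : ℝ) : ℂ) + y * I) ≠ 1 := by
      intro h
      have h2 := congrArg Complex.re h
      simp at h2
    rw [m15_az hs]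
    have h3 : (((1 / 2 : ℝ) : ℂ) + y * I) = (1 / 2 : ℂ) + y * I := by push_cast; rfl
    rw [h3]
    congr 2
    ring
  simp only [e1, e2]
  ring

end Pool.Agent.LibF4
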