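import Pool.Agent.LibF4.Defs
import Pool.Agent.LibM3.A2
import Pool.Agent.LibM3.E3
import Pool.Agent.LibZM.CS1
import Pool.Agent.LibZM.Asymp2
import Pool.Agent.LibF4.M01

/-! Fourth moment, block M, row M26. -/

set_option autoImplicit false

namespace Pool.Agent.LibF4

open MeasureTheory Set Filter Topology Complex
open scoped ComplexConjugate
open Pool.Agent.LibM3 Pool.Agent.LibZM

theorem m26_zd (δ : ℝ) : ‖zd δ‖ = 1 := by
  have h : zd δ = ((Real.sin δ : ℝ) : ℂ) + ((-Real.cos δ : ℝ) : ℂ) * I := by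
    unfold zd; push_cast; ring
  rw [h, Complex.norm_add_mul_I]
  have : Real.sin δ ^ 2 + (-Real.cos δ) ^ 2 = 1 := by
    have := Real.sin_sq_add_cos_sq δ
    nlinarith
  rw [this, Real.sqrt_one]

theorem m26_Pz {δ : ℝ} (h0 : 0 < δ) (h1 : δ ≤ 1/4) {u : ℝ} (hu : 0 < u) :
    ‖Pz δ u‖ ^ 2 ≤ 98 * (u ^ (-(3/2) : ℝ) + u ^ (-(5/2) : ℝ)) := by
  have hpi := Real.pi_lt_d2
  have hpi3 := Real.pi_gt_three
  have hg := Real.eulerMascheroniConstant_lt_two_thirds
  have hg' := Real.one_half_lt_eulerMascheroniConstant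
  set v : ℝ := u ^ (1/4 : ℝ) with hv
  have hvpos : 0 < v := Real.rpow_pos_of_pos hu _
  have hvinv : u ^ (-(1/4) : ℝ) = v⁻¹ := by rw [Real.rpow_neg hu.le]
  have hlog1 : Real.log u ≤ 4 * v := by
    have := Real.log_le_rpow_div hu.le (by norm_num : (0:ℝ) < 1/4)
    rw [← hv] at this
    linarith
  have hlog2 : -Real.log u ≤ 4 * v⁻¹ := by
    have := Real.log_le_rpow_div (inv_pos.2 hu).le (by norm_num : (0:ℝ) < 1/4)
    rw [Real.log_inv, Real.inv_rpow hu.le, ← hv] at this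
    linarith
  have hvv : 2 ≤ v + v⁻¹ := by
    have h2 : 0 ≤ (v - 1) ^ 2 / v := by positivity
    have h3 : (v - 1) ^ 2 / v = v + v⁻¹ - 2 := by
      field_simp; ring
    linarith
  have hvi : 0 < v⁻¹ := inv_pos.2 hvpos
  have habs : |Real.log u| ≤ 4 * (v + v⁻¹) := by
    rw [abs_le]; constructor <;> linarith
  have hnum : ‖((Real.eulerMascheroniConstant - Real.log u : ℝ) : ℂ) +
      ((Real.pi / 2 - δ : ℝ) : ℂ) * I‖ ≤ 7 * (v + v⁻¹) := by
    refine (norm_add_le _ _).trans ?_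
    rw [norm_mul, Complex.norm_I, mul_one, Complex.norm_real, Complex.norm_real,
      Real.norm_eq_abs, Real.norm_eq_abs]
    have e1 : |Real.eulerMascheroniConstant - Real.log u| ≤ 2/3 + 4 * (v + v⁻¹) := by
      refine (abs_sub _ _).trans ?_
      rw [abs_of_pos (by linarith : 0 < Real.eulerMascheroniConstant)]
      linarith
    have e2 : |Real.pi / 2 - δ| ≤ 2 := by
      rw [abs_le]; constructor <;> linarith
    linarith
  have hP : ‖Pz δ u‖ ≤ 7 * (v + v⁻¹) / u := by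
    unfold Pz
    rw [norm_div, norm_mul, m26_zd, one_mul, Complex.norm_real, Real.norm_eq_abs, abs_of_pos hu]
    exact div_le_div_of_nonneg_right hnum hu.le
  have hsq : ‖Pz δ u‖ ^ 2 ≤ (7 * (v + v⁻¹) / u) ^ 2 := by
    exact pow_le_pow_left₀ (norm_nonneg _) hP 2
  have hle : (7 * (v + v⁻¹) / u) ^ 2 ≤ 98 * ((v ^ 2 + (v⁻¹) ^ 2) / u ^ 2) := by
    have : (7 * (v + v⁻¹) / u) ^ 2 = 49 * (v + v⁻¹) ^ 2 / u ^ 2 := by ring
    rw [this, ← mul_div_assoc]
    apply div_le_div_of_nonneg_right _ (by positivity)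
    nlinarith [sq_nonneg (v - v⁻¹)]
  have hv2 : v ^ 2 / u ^ 2 = u ^ (-(3/2) : ℝ) := by
    rw [hv, ← Real.rpow_natCast, ← Real.rpow_natCast u, ← Real.rpow_mul hu.le,
      ← Real.rpow_sub hu]
    norm_num
  have hvi2 : (v⁻¹) ^ 2 / u ^ 2 = u ^ (-(5/2) : ℝ) := by
    rw [← hvinv, ← Real.rpow_natCast, ← Real.rpow_natCast u, ← Real.rpow_mul hu.le,
      ← Real.rpow_sub hu]
    norm_num
  calc ‖Pz δ u‖ ^ 2 ≤ 98 * ((v ^ 2 + (v⁻¹) ^ 2) / u ^ 2) := hsq.trans hle
    _ = 98 * (u ^ (-(3/2) : ℝ) + u ^ (-(5/2) : ℝ)) := by rw [add_div, hv2, hvi2]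

theorem Pz_bd : ∃ C : ℝ, 0 < C ∧ ∀ δ : ℝ, 0 < δ → δ ≤ 1/4 → ∀ m n k : ℕ, 1 ≤ m → 1 ≤ n → (k = m ∨ k = n) →
    IntegrableOn (fun x : ℝ => kp (Lam m n * x) * ‖Pz δ (k * x)‖ ^ 2) (Ioi 0) ∧
    ∫ x in Ioi (0:ℝ), kp (Lam m n * x) * ‖Pz δ (k * x)‖ ^ 2 ≤ C * ((m:ℝ) * n) ^ 2 := by
  obtain ⟨C2, hC2, hkp⟩ := kp_le 2 (by norm_num)
  refine ⟨98 * (8/3) * (C2 + 1), by positivity, ?_⟩
  intro δ h0 h1 m n k hm hn hk
  have hk1 : 1 ≤ k := by rcases hk with h | h <;> omega
  have hmR : (1:ℝ) ≤ m := by exact_mod_cast hm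
  have hnR : (1:ℝ) ≤ n := by exact_mod_cast hn
  have hkR : (1:ℝ) ≤ k := by exact_mod_cast hk1
  have hmn : (1:ℝ) ≤ (m:ℝ) * n := by nlinarith
  have hL : 0 < Lam m n := by
    unfold Lam
    have : 0 < (m:ℝ) * n := by positivity
    positivity
  have hL2 : Lam m n ^ 2 ≤ (m:ℝ) * n := by
    unfold Lam
    rw [div_pow, Real.sq_sqrt (by positivity)]
    apply div_le_self (by positivity)
    nlinarith [Real.pi_gt_three]
  set f : ℝ → ℝ := fun x => kp (Lam m n * x) * ‖Pz δ (k * x)‖ ^ 2 with hf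
  have hmono : ∀ {x : ℝ}, 0 < x → ∀ {e : ℝ}, 0 ≤ e → ((k:ℝ) * x) ^ (-e) ≤ x ^ (-e) := by
    intro x hx e he
    apply Real.rpow_le_rpow_of_nonpos hx _ (by linarith)
    nlinarith
  have hPk : ∀ {x : ℝ}, 0 < x → ‖Pz δ (k * x)‖ ^ 2 ≤ 98 * (x ^ (-(3/2) : ℝ) + x ^ (-(5/2) : ℝ)) := by
    intro x hx
    refine (m26_Pz h0 h1 (by positivity : 0 < (k:ℝ) * x)).trans ?_
    have e1 := hmono hx (e := 3/2) (by norm_num)
    have e2 := hmono hx (e := 5/2) (by norm_num)
    linarith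
  have hf0 : ∀ x, 0 ≤ f x := fun x => mul_nonneg (kp_mem _).1 (by positivity)
  have hfbig : ∀ {x : ℝ}, 0 < x → f x ≤ 98 * (x ^ (-(3/2) : ℝ) + x ^ (-(5/2) : ℝ)) := by
    intro x hx
    have := hPk hx
    calc f x ≤ 1 * ‖Pz δ (k * x)‖ ^ 2 :=
          mul_le_mul_of_nonneg_right (kp_mem _).2 (by positivity)
      _ ≤ _ := by rw [one_mul]; exact this
  have hfsmall : ∀ {x : ℝ}, 0 < x →
      f x ≤ 98 * C2 * ((m:ℝ) * n) * (x ^ (1/2 : ℝ) + x ^ (-(1/2) : ℝ)) := by
    intro x hx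
    have hk' : kp (Lam m n * x) ≤ C2 * (((m:ℝ) * n) * x ^ 2) := by
      refine (hkp _ (by positivity)).trans ?_
      have : (Lam m n * x) ^ (2:ℝ) = Lam m n ^ 2 * x ^ 2 := by
        rw [show (2:ℝ) = ((2:ℕ):ℝ) by norm_num, Real.rpow_natCast]; ring
      rw [this]
      apply mul_le_mul_of_nonneg_left _ hC2.le
      exact mul_le_mul_of_nonneg_right hL2 (by positivity)
    have hx1 : x ^ 2 * x ^ (-(3/2) : ℝ) = x ^ (1/2 : ℝ) := by
      rw [← Real.rpow_natCast, ← Real.rpow_add hx]; norm_num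
    have hx2 : x ^ 2 * x ^ (-(5/2) : ℝ) = x ^ (-(1/2) : ℝ) := by
      rw [← Real.rpow_natCast, ← Real.rpow_add hx]; norm_num
    calc f x ≤ (C2 * (((m:ℝ) * n) * x ^ 2)) * (98 * (x ^ (-(3/2) : ℝ) + x ^ (-(5/2) : ℝ))) :=
          mul_le_mul hk' (hPk hx) (by positivity) (by positivity)
      _ = 98 * C2 * ((m:ℝ) * n) * (x ^ 2 * x ^ (-(3/2) : ℝ) + x ^ 2 * x ^ (-(5/2) : ℝ)) := by ring
      _ = _ := by rw [hx1, hx2]
  -- measurability
  have hzd : zd δ ≠ 0 := by
    intro h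
    have := m26_zd δ
    rw [h, norm_zero] at this
    norm_num at this
  have hcont : ContinuousOn f (Ioi 0) := by
    have hc1 : ContinuousOn (fun x : ℝ => kp (Lam m n * x)) (Ioi 0) :=
      kp_cont.comp (by fun_prop) (fun x hx => mul_pos hL hx)
    have hc2 : ContinuousOn (fun x : ℝ => Pz δ (k * x)) (Ioi 0) := by
      unfold Pz
      refine ContinuousOn.div ?_ (by fun_prop) ?_
      · refine ContinuousOn.add ?_ continuousOn_const
        refine Complex.continuous_ofReal.comp_continuousOn ?_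
        refine continuousOn_const.sub (ContinuousOn.log (by fun_prop) ?_)
        intro x hx
        have hx' : 0 < x := hx
        positivity
      · intro x hx
        have hx' : 0 < x := hx
        refine mul_ne_zero hzd ?_
        have : (k:ℝ) * x ≠ 0 := by positivity
        exact_mod_cast this
    exact hc1.mul (hc2.norm.pow 2)
  have hms : AEStronglyMeasurable f (volume.restrict (Ioi 0)) :=
    hcont.aestronglyMeasurable measurableSet_Ioi
  -- the two dominating functions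
  have hi1 : IntegrableOn (fun x : ℝ => 98 * C2 * ((m:ℝ) * n) * (x ^ (1/2 : ℝ) + x ^ (-(1/2) : ℝ)))
      (Ioc 0 1) := by
    have a1 : IntegrableOn (fun x : ℝ => x ^ (1/2 : ℝ)) (Ioc 0 1) :=
      (intervalIntegrable_iff_integrableOn_Ioc_of_le zero_le_one).1
        (intervalIntegral.intervalIntegrable_rpow' (by norm_num))
    have a2 : IntegrableOn (fun x : ℝ => x ^ (-(1/2) : ℝ)) (Ioc 0 1) :=
      (intervalIntegrable_iff_integrableOn_Ioc_of_le zero_le_one).1
        (intervalIntegral.intervalIntegrable_rpow' (by norm_num))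
    exact (a1.add a2).const_mul _
  have hi2 : IntegrableOn (fun x : ℝ => 98 * (x ^ (-(3/2) : ℝ) + x ^ (-(5/2) : ℝ))) (Ioi 1) := by
    have a1 : IntegrableOn (fun x : ℝ => x ^ (-(3/2) : ℝ)) (Ioi 1) :=
      integrableOn_Ioi_rpow_of_lt (by norm_num) one_pos
    have a2 : IntegrableOn (fun x : ℝ => x ^ (-(5/2) : ℝ)) (Ioi 1) :=
      integrableOn_Ioi_rpow_of_lt (by norm_num) one_pos
    exact (a1.add a2).const_mul _
  have hf1 : IntegrableOn f (Ioc 0 1) := by
    refine Integrable.mono' hi1 (hms.mono_measure (Measure.restrict_mono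
      (fun x hx => hx.1) le_rfl)) ?_
    filter_upwards [ae_restrict_mem measurableSet_Ioc] with x hx
    rw [Real.norm_eq_abs, abs_of_nonneg (hf0 x)]
    exact hfsmall hx.1
  have hf2 : IntegrableOn f (Ioi 1) := by
    have hsub : Ioi (1:ℝ) ⊆ Ioi 0 := Ioi_subset_Ioi zero_le_one
    refine Integrable.mono' hi2 (hms.mono_measure (Measure.restrict_mono hsub le_rfl)) ?_
    filter_upwards [ae_restrict_mem measurableSet_Ioi] with x hx
    rw [Real.norm_eq_abs, abs_of_nonneg (hf0 x)]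
    exact hfbig (zero_lt_one.trans hx)
  have hun : Ioc (0:ℝ) 1 ∪ Ioi 1 = Ioi 0 := Ioc_union_Ioi_eq_Ioi zero_le_one
  have hdis : Disjoint (Ioc (0:ℝ) 1) (Ioi 1) := by
    rw [Set.disjoint_left]
    intro x hx hx'
    exact absurd hx.2 (not_le.2 hx')
  refine ⟨?_, ?_⟩
  · rw [← hun]
    exact hf1.union hf2
  · rw [← hun, setIntegral_union hdis measurableSet_Ioi hf1 hf2]
    have b1 : ∫ x in Ioc (0:ℝ) 1, f x ≤ 98 * C2 * ((m:ℝ) * n) * (8/3) := by
      calc ∫ x in Ioc (0:ℝ) 1, f x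
          ≤ ∫ x in Ioc (0:ℝ) 1, 98 * C2 * ((m:ℝ) * n) * (x ^ (1/2 : ℝ) + x ^ (-(1/2) : ℝ)) :=
            setIntegral_mono_on hf1 hi1 measurableSet_Ioc fun x hx => hfsmall hx.1
        _ = 98 * C2 * ((m:ℝ) * n) * (8/3) := by
            rw [integral_const_mul, ← intervalIntegral.integral_of_le zero_le_one,
              intervalIntegral.integral_add
                (intervalIntegral.intervalIntegrable_rpow' (by norm_num))
                (intervalIntegral.intervalIntegrable_rpow' (by norm_num)),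
              integral_rpow (Or.inl (by norm_num)), integral_rpow (Or.inl (by norm_num))]
            rw [Real.one_rpow, Real.one_rpow, Real.zero_rpow (by norm_num),
              Real.zero_rpow (by norm_num)]
            norm_num
    have b2 : ∫ x in Ioi (1:ℝ), f x ≤ 98 * (8/3) := by
      have a1 : IntegrableOn (fun x : ℝ => x ^ (-(3/2) : ℝ)) (Ioi 1) :=
        integrableOn_Ioi_rpow_of_lt (by norm_num) one_pos
      have a2 : IntegrableOn (fun x : ℝ => x ^ (-(5/2) : ℝ)) (Ioi 1) :=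
        integrableOn_Ioi_rpow_of_lt (by norm_num) one_pos
      calc ∫ x in Ioi (1:ℝ), f x
          ≤ ∫ x in Ioi (1:ℝ), 98 * (x ^ (-(3/2) : ℝ) + x ^ (-(5/2) : ℝ)) :=
            setIntegral_mono_on hf2 hi2 measurableSet_Ioi fun x hx => hfbig (zero_lt_one.trans hx)
        _ = 98 * (8/3) := by
            rw [integral_const_mul, integral_add a1 a2,
              integral_Ioi_rpow_of_lt (by norm_num) one_pos,
              integral_Ioi_rpow_of_lt (by norm_num) one_pos]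
            rw [Real.one_rpow, Real.one_rpow]
            norm_num
    have hmn2 : (m:ℝ) * n ≤ ((m:ℝ) * n) ^ 2 := by nlinarith
    have hC2' : 98 * C2 * ((m:ℝ) * n) * (8/3) ≤ 98 * (8/3) * C2 * ((m:ℝ) * n) ^ 2 := by
      have : 0 ≤ 98 * (8/3) * C2 := by positivity
      nlinarith [mul_le_mul_of_nonneg_left hmn2 this]
    have h3 : (1:ℝ) ≤ ((m:ℝ) * n) ^ 2 := by nlinarith
    nlinarith

end Pool.Agent.LibF4
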