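import Pool.Agent.LibF4.Defs
import Pool.Agent.LibM3.A2
import Pool.Agent.LibM3.E3
import Pool.Agent.LibZM.CS1
import Pool.Agent.LibZM.Asymp2
import Pool.Agent.LibF4.M01
import Pool.Agent.LibF4.M08
import Pool.Agent.LibF4.M15
import Pool.Agent.LibF4.M20
import Pool.Agent.LibF4.M24
import Pool.Agent.LibF4.M25
import Pool.Agent.LibF4.M26

/-! Fourth moment, block M, row M27. -/

set_option autoImplicit false

namespace Pool.Agent.LibF4

open MeasureTheory Set Filter Topology Complex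
open scoped ComplexConjugate
open Pool.Agent.LibM3 Pool.Agent.LibZM

theorem m27_image {c : ℝ} (hc : 0 < c) : (fun x : ℝ => c / x) '' (Ioi 0) = Ioi 0 := by
  ext y
  constructor
  · rintro ⟨x, hx, rfl⟩
    have hx' : 0 < x := hx
    exact div_pos hc hx'
  · intro hy
    have hy' : 0 < y := hy
    refine ⟨c / y, div_pos hc hy', ?_⟩
    field_simp

theorem m27_deriv {c : ℝ} (x : ℝ) (hx : x ∈ Ioi (0:ℝ)) :
    HasDerivWithinAt (fun x : ℝ => c / x) (-(c / x ^ 2)) (Ioi 0) x := by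
  have hx' : 0 < x := hx
  have h := (hasDerivAt_inv (ne_of_gt hx')).const_mul c
  have h2 : HasDerivAt (fun x : ℝ => c / x) (-(c / x ^ 2)) x := by
    have e : (fun x : ℝ => c / x) = fun x => c * x⁻¹ := by
      funext t; rw [div_eq_mul_inv]
    rw [e]
    have e2 : -(c / x ^ 2) = c * -(x ^ 2)⁻¹ := by
      rw [div_eq_mul_inv]; ring
    rw [e2]; exact h
  exact h2.hasDerivWithinAt

theorem m27_inj {c : ℝ} (hc : 0 < c) : InjOn (fun x : ℝ => c / x) (Ioi 0) := by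
  intro x hx y hy h
  have hx' : 0 < x := hx
  have hy' : 0 < y := hy
  have h' : c / x = c / y := h
  rw [div_eq_div_iff (ne_of_gt hx') (ne_of_gt hy')] at h'
  have := mul_left_cancel₀ (ne_of_gt hc) h'
  exact this.symm

theorem m27_sub {c : ℝ} (hc : 0 < c) {E : Type*} [NormedAddCommGroup E] [NormedSpace ℝ E] (g : ℝ → E) :
    ∫ x in Ioi (0:ℝ), (c / x ^ 2) • g (c / x) = ∫ y in Ioi (0:ℝ), g y := by
  have h := integral_image_eq_integral_abs_deriv_smul (f := fun x : ℝ => c / x)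
    (f' := fun x => -(c / x ^ 2)) (s := Ioi 0) measurableSet_Ioi (fun x hx => m27_deriv x hx)
    (m27_inj hc) g
  rw [m27_image hc] at h
  rw [h]
  refine setIntegral_congr_fun measurableSet_Ioi ?_
  intro x hx
  have hx' : 0 < x := hx
  show (c / x ^ 2) • g (c / x) = |-(c / x ^ 2)| • g (c / x)
  rw [abs_neg, abs_of_pos (by positivity)]

theorem m27_sub_int {c : ℝ} (hc : 0 < c) {E : Type*} [NormedAddCommGroup E] [NormedSpace ℝ E] {g : ℝ → E}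
    (hg : IntegrableOn g (Ioi 0)) :
    IntegrableOn (fun x : ℝ => (c / x ^ 2) • g (c / x)) (Ioi 0) := by
  have h := (integrableOn_image_iff_integrableOn_abs_deriv_smul (f := fun x : ℝ => c / x)
    (f' := fun x => -(c / x ^ 2)) (s := Ioi 0) measurableSet_Ioi (fun x hx => m27_deriv x hx)
    (m27_inj hc) g)
  rw [m27_image hc] at h
  refine (h.mp hg).congr_fun ?_ measurableSet_Ioi
  intro x hx
  have hx' : 0 < x := hx
  show |-(c / x ^ 2)| • g (c / x) = (c / x ^ 2) • g (c / x)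
  rw [abs_neg, abs_of_pos (by positivity)]

theorem m27_norm_zd (δ : ℝ) : ‖zd δ‖ = 1 := by
  have h : zd δ = cexp (((δ - Real.pi / 2 : ℝ) : ℂ) * I) := by
    rw [Complex.exp_mul_I, ← Complex.ofReal_cos, ← Complex.ofReal_sin]
    unfold zd
    rw [Real.cos_sub_pi_div_two, Real.sin_sub_pi_div_two]
    push_cast
    ring
  rw [h, Complex.norm_exp_ofReal_mul_I]

/-- A fixed integrable majorant for `kp (1/(Λ x)) x^(-1/2)`. -/
theorem m27_w : ∃ D : ℝ, 0 < D ∧ ∃ w : ℝ → ℝ, IntegrableOn w (Ioi 0) ∧ ∫ x in Ioi (0:ℝ), w x ≤ D ∧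
    ∀ x : ℝ, 0 < x → ∀ L : ℝ, 1 / (2 * Real.pi) ≤ L → kp (1 / (L * x)) * x ^ (-(1/2) : ℝ) ≤ w x := by
  obtain ⟨C, hC, hk⟩ := kp_le 1 zero_le_one
  have i1 : IntegrableOn (fun x : ℝ => x ^ (-(1/2) : ℝ)) (Ioc 0 1) := by
    have := (intervalIntegral.intervalIntegrable_rpow' (a := 0) (b := 1) (r := -(1/2)) (by norm_num))
    rwa [intervalIntegrable_iff_integrableOn_Ioc_of_le zero_le_one] at this
  have i2 : IntegrableOn (fun x : ℝ => C * (2 * Real.pi) * x ^ (-(3/2) : ℝ)) (Ioi 1) :=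
    (integrableOn_Ioi_rpow_of_lt (by norm_num) zero_lt_one).const_mul _
  have hpi := Real.pi_pos
  have i3 : IntegrableOn (fun x : ℝ => if x ≤ 1 then x ^ (-(1/2) : ℝ) else C * (2 * Real.pi) * x ^ (-(3/2) : ℝ)) (Ioi 0) := by
    have hu : Ioi (0:ℝ) = Ioc 0 1 ∪ Ioi 1 := (Ioc_union_Ioi_eq_Ioi zero_le_one).symm
    rw [hu]
    refine IntegrableOn.union ?_ ?_
    · refine i1.congr_fun ?_ measurableSet_Ioc
      intro x hx
      have hx2 : x ≤ 1 := hx.2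
      show x ^ (-(1/2) : ℝ) = if x ≤ 1 then x ^ (-(1/2) : ℝ) else C * (2 * Real.pi) * x ^ (-(3/2) : ℝ)
      rw [if_pos hx2]
    · refine i2.congr_fun ?_ measurableSet_Ioi
      intro x hx
      have hx2 : ¬ x ≤ 1 := not_le.mpr hx
      show C * (2 * Real.pi) * x ^ (-(3/2) : ℝ) = if x ≤ 1 then x ^ (-(1/2) : ℝ) else C * (2 * Real.pi) * x ^ (-(3/2) : ℝ)
      rw [if_neg hx2]
  refine ⟨max 1 (∫ x in Ioi (0:ℝ), (if x ≤ 1 then x ^ (-(1/2) : ℝ) else C * (2 * Real.pi) * x ^ (-(3/2) : ℝ))),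
    lt_of_lt_of_le one_pos (le_max_left _ _), _, i3, le_max_right _ _, ?_⟩
  intro x hx L hL
  have hL0 : 0 < L := lt_of_lt_of_le (by positivity) hL
  have hx2 : 0 ≤ x ^ (-(1/2) : ℝ) := Real.rpow_nonneg hx.le _
  show kp (1 / (L * x)) * x ^ (-(1/2) : ℝ) ≤ if x ≤ 1 then x ^ (-(1/2) : ℝ) else C * (2 * Real.pi) * x ^ (-(3/2) : ℝ)
  split_ifs with h
  · exact mul_le_of_le_one_left hx2 (kp_mem _).2
  · have h1 := hk (1 / (L * x)) (by positivity)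
    rw [Real.rpow_one] at h1
    have h2 : 1 / (L * x) ≤ 2 * Real.pi * (1 / x) := by
      have h3 : 1 / L ≤ 2 * Real.pi := by
        rw [div_le_iff₀ hL0]
        rw [div_le_iff₀ (by positivity)] at hL
        linarith
      have h4 : 1 / (L * x) = 1 / L * (1 / x) := by field_simp
      rw [h4]
      exact mul_le_mul_of_nonneg_right h3 (by positivity)
    have h5 : x ^ (-(3/2) : ℝ) = (1 / x) * x ^ (-(1/2) : ℝ) := by
      rw [show (-(3/2) : ℝ) = -1 + -(1/2) by norm_num, Real.rpow_add hx, Real.rpow_neg_one, one_div x]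
    rw [h5]
    have h6 : kp (1 / (L * x)) ≤ C * (2 * Real.pi * (1 / x)) :=
      h1.trans (mul_le_mul_of_nonneg_left h2 hC.le)
    have h7 := mul_le_mul_of_nonneg_right h6 hx2
    have h8 : C * (2 * Real.pi * (1 / x)) * x ^ (-(1/2) : ℝ) = C * (2 * Real.pi) * (1 / x * x ^ (-(1/2) : ℝ)) := by ring
    rw [h8] at h7
    exact h7

theorem m27_kp_int {f : ℝ → ℝ} (hf : ContinuousOn f (Ioi 0)) (hf0 : ∀ x, 0 < x → 0 < f x) {E : Type*}
    [NormedAddCommGroup E] [NormedSpace ℝ E] {g : ℝ → E} (hg : IntegrableOn g (Ioi 0)) :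
    IntegrableOn (fun x => kp (f x) • g x) (Ioi 0) := by
  have hm : AEStronglyMeasurable (fun x => kp (f x)) (volume.restrict (Ioi 0)) :=
    (kp_cont.comp hf (fun x hx => hf0 x hx)).aestronglyMeasurable measurableSet_Ioi
  refine Integrable.mono hg (hm.smul hg.aestronglyMeasurable) ?_
  filter_upwards with x
  rw [norm_smul]
  refine mul_le_of_le_one_left (norm_nonneg _) ?_
  rw [Real.norm_eq_abs, abs_of_nonneg (kp_mem _).1]
  exact (kp_mem _).2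

theorem m27_M (δ : ℝ) {x : ℝ} (hx : 0 < x) (v : ℂ) :
    ‖(-(2 * Real.pi * I * conj (zd δ)) / x) * conj v‖ ^ 2 = 4 * Real.pi ^ 2 / x ^ 2 * ‖v‖ ^ 2 := by
  have hpi := Real.pi_pos
  rw [norm_mul, norm_div, norm_neg, norm_mul, norm_mul, norm_mul, Complex.norm_conj, Complex.norm_conj,
    m27_norm_zd, Complex.norm_I, Complex.norm_real, Complex.norm_real, Real.norm_eq_abs, Real.norm_eq_abs,
    abs_of_pos hx, abs_of_pos hpi, Complex.norm_ofNat]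
  rw [mul_one, mul_one, mul_pow, div_pow]
  ring

theorem Fz_L2 : ∃ C : ℝ, 0 < C ∧ ∀ δ : ℝ, 0 < δ → δ ≤ 1/4 → ∫ x in Ioi (0:ℝ), ‖Fz δ x‖ ^ 2 ≤ C * δ ^ (-(5/4) : ℝ) := by
  obtain ⟨C1, hC1, hfold⟩ := fold
  obtain ⟨C2, hC2, hJ⟩ := Jsum_bd
  obtain ⟨C3, hC3, hP⟩ := Pz_bd
  obtain ⟨D, hD, w, hw, hwD, hwb⟩ := m27_w
  have hpi := Real.pi_pos
  refine ⟨3 * (2 * C2 + 2 * C3) + 2 * C1 ^ 2 * D, by positivity, ?_⟩
  intro δ h0 h1
  have hΛ : Lam 1 1 = 1 / (2 * Real.pi) := by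
    unfold Lam
    rw [Nat.cast_one, mul_one, Real.sqrt_one]
  have hΛ0 : 0 < Lam 1 1 := by rw [hΛ]; positivity
  have hc : (0:ℝ) < 4 * Real.pi ^ 2 := by positivity
  have hFi := Fz_sq_int h0 h1
  have hcont1 : ContinuousOn (fun x : ℝ => Lam 1 1 * x) (Ioi 0) := (continuous_const.mul continuous_id).continuousOn
  have hcont2 : ContinuousOn (fun x : ℝ => 1 / (Lam 1 1 * x)) (Ioi 0) := by
    refine ContinuousOn.div continuousOn_const hcont1 ?_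
    intro x hx
    have hx' : 0 < x := hx
    positivity
  have iK : IntegrableOn (fun x => kp (Lam 1 1 * x) * ‖Fz δ x‖ ^ 2) (Ioi 0) := by
    have := m27_kp_int hcont1 (fun x hx => by positivity) hFi
    simpa only [smul_eq_mul] using this
  have iK' : IntegrableOn (fun x => kp (1 / (Lam 1 1 * x)) * ‖Fz δ x‖ ^ 2) (Ioi 0) := by
    have := m27_kp_int hcont2 (fun x hx => by positivity) hFi
    simpa only [smul_eq_mul] using this
  have hsplit : ∫ x in Ioi (0:ℝ), ‖Fz δ x‖ ^ 2 =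
      (∫ x in Ioi (0:ℝ), kp (Lam 1 1 * x) * ‖Fz δ x‖ ^ 2) + ∫ x in Ioi (0:ℝ), kp (1 / (Lam 1 1 * x)) * ‖Fz δ x‖ ^ 2 := by
    rw [← integral_add iK iK']
    refine setIntegral_congr_fun measurableSet_Ioi ?_
    intro x hx
    have hx' : 0 < x := hx
    show ‖Fz δ x‖ ^ 2 = kp (Lam 1 1 * x) * ‖Fz δ x‖ ^ 2 + kp (1 / (Lam 1 1 * x)) * ‖Fz δ x‖ ^ 2
    rw [← add_mul, kp_inv (by positivity), one_mul]
  -- the reflected part
  have iS := m27_sub_int hc iK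
  have eS := m27_sub hc (fun x => kp (Lam 1 1 * x) * ‖Fz δ x‖ ^ 2)
  have hK' : ∫ x in Ioi (0:ℝ), kp (1 / (Lam 1 1 * x)) * ‖Fz δ x‖ ^ 2 ≤
      2 * (∫ x in Ioi (0:ℝ), kp (Lam 1 1 * x) * ‖Fz δ x‖ ^ 2) + 2 * C1 ^ 2 * D := by
    have hb : ∫ x in Ioi (0:ℝ), kp (1 / (Lam 1 1 * x)) * ‖Fz δ x‖ ^ 2 ≤
        ∫ x in Ioi (0:ℝ), (2 * ((4 * Real.pi ^ 2 / x ^ 2) • (kp (Lam 1 1 * (4 * Real.pi ^ 2 / x)) * ‖Fz δ (4 * Real.pi ^ 2 / x)‖ ^ 2)) +
          2 * C1 ^ 2 * w x) := by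
      refine setIntegral_mono_on iK' ((iS.const_mul 2).add (hw.const_mul (2 * C1 ^ 2))) measurableSet_Ioi ?_
      intro x hx
      have hx' : 0 < x := hx
      have hk0 := (kp_mem (1 / (Lam 1 1 * x))).1
      have hf := hfold δ h0 h1 x hx'
      have hM := m27_M δ hx' (Fz δ (4 * Real.pi ^ 2 / x))
      have hnn : ‖Fz δ x‖ ≤ ‖(-(2 * Real.pi * I * conj (zd δ)) / x) * conj (Fz δ (4 * Real.pi ^ 2 / x))‖ + C1 * x ^ (-(1/4) : ℝ) := by
        have h := norm_add_le (Fz δ x - (-(2 * Real.pi * I * conj (zd δ)) / x) * conj (Fz δ (4 * Real.pi ^ 2 / x)))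
          ((-(2 * Real.pi * I * conj (zd δ)) / x) * conj (Fz δ (4 * Real.pi ^ 2 / x)))
        rw [sub_add_cancel] at h
        linarith
      have hsq : ‖Fz δ x‖ ^ 2 ≤ 2 * (4 * Real.pi ^ 2 / x ^ 2 * ‖Fz δ (4 * Real.pi ^ 2 / x)‖ ^ 2) + 2 * (C1 ^ 2 * x ^ (-(1/2) : ℝ)) := by
        have e1 : (C1 * x ^ (-(1/4) : ℝ)) ^ 2 = C1 ^ 2 * x ^ (-(1/2) : ℝ) := by
          rw [mul_pow, ← Real.rpow_natCast (x ^ (-(1/4) : ℝ)), ← Real.rpow_mul hx'.le]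
          norm_num
        rw [← hM, ← e1]
        have h2 := pow_le_pow_left₀ (norm_nonneg _) hnn 2
        nlinarith [sq_nonneg (‖(-(2 * Real.pi * I * conj (zd δ)) / x) * conj (Fz δ (4 * Real.pi ^ 2 / x))‖ - C1 * x ^ (-(1/4) : ℝ))]
      have hΛx : Lam 1 1 * (4 * Real.pi ^ 2 / x) = 1 / (Lam 1 1 * x) := by
        rw [hΛ]; field_simp; ring
      have hwx := hwb x hx' (Lam 1 1) (le_of_eq hΛ.symm)
      show kp (1 / (Lam 1 1 * x)) * ‖Fz δ x‖ ^ 2 ≤ 2 * ((4 * Real.pi ^ 2 / x ^ 2) • (kp (Lam 1 1 * (4 * Real.pi ^ 2 / x)) * ‖Fz δ (4 * Real.pi ^ 2 / x)‖ ^ 2)) +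
          2 * C1 ^ 2 * w x
      rw [hΛx, smul_eq_mul]
      have h3 := mul_le_mul_of_nonneg_left hsq hk0
      have h4 := mul_le_mul_of_nonneg_left hwx (by positivity : (0:ℝ) ≤ 2 * C1 ^ 2)
      nlinarith [h3, h4]
    refine hb.trans ?_
    rw [integral_add (iS.const_mul 2) (hw.const_mul (2 * C1 ^ 2)), integral_const_mul, integral_const_mul]
    have e : ∫ x in Ioi (0:ℝ), (4 * Real.pi ^ 2 / x ^ 2) • (kp (Lam 1 1 * (4 * Real.pi ^ 2 / x)) * ‖Fz δ (4 * Real.pi ^ 2 / x)‖ ^ 2) =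
        ∫ x in Ioi (0:ℝ), kp (Lam 1 1 * x) * ‖Fz δ x‖ ^ 2 := eS
    rw [e]
    have := mul_le_mul_of_nonneg_left hwD (by positivity : (0:ℝ) ≤ 2 * C1 ^ 2)
    linarith
  -- the direct part
  have hK : ∫ x in Ioi (0:ℝ), kp (Lam 1 1 * x) * ‖Fz δ x‖ ^ 2 ≤ 2 * (C2 * δ ^ (-(5/4) : ℝ)) + 2 * C3 := by
    obtain ⟨_, hS1, hS2⟩ := SS_expand h0 h1 (m := 1) (n := 1) le_rfl le_rfl
    obtain ⟨hP1, hP2⟩ := hP δ h0 h1 1 1 1 le_rfl le_rfl (Or.inl rfl)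
    simp only [Nat.cast_one, one_mul, one_pow, mul_one] at hS1 hS2 hP1 hP2
    have eq1 : ∀ x : ℝ, (((kp (Lam 1 1 * x) : ℝ) : ℂ) * (Sz δ x * conj (Sz δ x))) = ((kp (Lam 1 1 * x) * ‖Sz δ x‖ ^ 2 : ℝ) : ℂ) := by
      intro x
      rw [Complex.mul_conj, Complex.normSq_eq_norm_sq]
      push_cast
      ring
    simp only [eq1] at hS1 hS2
    have hS1' : IntegrableOn (fun x => kp (Lam 1 1 * x) * ‖Sz δ x‖ ^ 2) (Ioi 0) := by
      have h5 := hS1.re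
      exact h5
    have hS3 : ∫ x in Ioi (0:ℝ), kp (Lam 1 1 * x) * ‖Sz δ x‖ ^ 2 ≤ C2 * δ ^ (-(5/4) : ℝ) := by
      have h5 : ((∫ x in Ioi (0:ℝ), kp (Lam 1 1 * x) * ‖Sz δ x‖ ^ 2 : ℝ) : ℂ) = ∑' ab : ℕ × ℕ, T4 δ 1 1 ab := by
        rw [← hS2]
        exact (integral_ofReal (𝕜 := ℂ)).symm
      have h6 : ‖((∫ x in Ioi (0:ℝ), kp (Lam 1 1 * x) * ‖Sz δ x‖ ^ 2 : ℝ) : ℂ)‖ ≤ ∑' ab : ℕ × ℕ, ‖T4 δ 1 1 ab‖ := by
        rw [h5]; exact norm_tsum_le_tsum_norm (by assumption)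
      rw [Complex.norm_real] at h6
      exact (le_abs_self _).trans (h6.trans (hJ δ h0 h1))
    have hb : ∫ x in Ioi (0:ℝ), kp (Lam 1 1 * x) * ‖Fz δ x‖ ^ 2 ≤
        ∫ x in Ioi (0:ℝ), (2 * (kp (Lam 1 1 * x) * ‖Sz δ x‖ ^ 2) + 2 * (kp (Lam 1 1 * x) * ‖Pz δ x‖ ^ 2)) := by
      refine setIntegral_mono_on iK ((hS1'.const_mul 2).add (hP1.const_mul 2)) measurableSet_Ioi ?_
      intro x hx
      have hx' : 0 < x := hx
      show kp (Lam 1 1 * x) * ‖Fz δ x‖ ^ 2 ≤ 2 * (kp (Lam 1 1 * x) * ‖Sz δ x‖ ^ 2) + 2 * (kp (Lam 1 1 * x) * ‖Pz δ x‖ ^ 2)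
      have hk0 := (kp_mem (Lam 1 1 * x)).1
      rw [Fz_eq h0 h1 hx']
      have h7 := norm_sub_le (Sz δ x) (Pz δ x)
      have h8 : ‖Sz δ x - Pz δ x‖ ^ 2 ≤ 2 * ‖Sz δ x‖ ^ 2 + 2 * ‖Pz δ x‖ ^ 2 := by
        have h9 := pow_le_pow_left₀ (norm_nonneg _) h7 2
        nlinarith [sq_nonneg (‖Sz δ x‖ - ‖Pz δ x‖)]
      have := mul_le_mul_of_nonneg_left h8 hk0
      nlinarith [this]
    refine hb.trans ?_
    rw [integral_add (hS1'.const_mul 2) (hP1.const_mul 2), integral_const_mul, integral_const_mul]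
    linarith
  have hδ : 1 ≤ δ ^ (-(5/4) : ℝ) := Real.one_le_rpow_of_pos_of_le_one_of_nonpos h0 (by linarith) (by norm_num)
  rw [hsplit]
  have hX : 0 ≤ C3 := hC3.le
  have hY : 0 ≤ C1 ^ 2 * D := by positivity
  nlinarith [hK, hK', mul_le_mul_of_nonneg_left hδ hX, mul_le_mul_of_nonneg_left hδ hY]

end Pool.Agent.LibF4
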