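import Pool.Agent.LibF4.Defs
import Pool.Agent.LibM3.A2
import Pool.Agent.LibM3.E3
import Pool.Agent.LibZM.CS1
import Pool.Agent.LibZM.Asymp2
import Pool.Agent.LibF4.M01
import Pool.Agent.LibF4.M08
import Pool.Agent.LibF4.M20
import Pool.Agent.LibF4.M27

/-! Fourth moment, block M, row M28. -/

set_option autoImplicit false

namespace Pool.Agent.LibF4

open MeasureTheory Set Filter Topology Complex
open scoped ComplexConjugate
open Pool.Agent.LibM3 Pool.Agent.LibZM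

theorem m28_image {c : ℝ} (hc : 0 < c) : (fun x : ℝ => c / x) '' (Ioi 0) = Ioi 0 := by
  ext y
  constructor
  · rintro ⟨x, hx, rfl⟩
    have hx' : 0 < x := hx
    exact div_pos hc hx'
  · intro hy
    have hy' : 0 < y := hy
    refine ⟨c / y, div_pos hc hy', ?_⟩
    field_simp

theorem m28_deriv {c : ℝ} (x : ℝ) (hx : x ∈ Ioi (0:ℝ)) :
    HasDerivWithinAt (fun x : ℝ => c / x) (-(c / x ^ 2)) (Ioi 0) x := by
  have hx' : 0 < x := hx
  have h := (hasDerivAt_inv (ne_of_gt hx')).const_mul c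
  have h2 : HasDerivAt (fun x : ℝ => c / x) (-(c / x ^ 2)) x := by
    have e : (fun x : ℝ => c / x) = fun x => c * x⁻¹ := by
      funext t; rw [div_eq_mul_inv]
    rw [e]
    have e2 : -(c / x ^ 2) = c * -(x ^ 2)⁻¹ := by
      rw [div_eq_mul_inv]; ring
    rw [e2]; exact h
  exact h2.hasDerivWithinAt

theorem m28_inj {c : ℝ} (hc : 0 < c) : InjOn (fun x : ℝ => c / x) (Ioi 0) := by
  intro x hx y hy h
  have hx' : 0 < x := hx
  have hy' : 0 < y := hy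
  have h' : c / x = c / y := h
  rw [div_eq_div_iff (ne_of_gt hx') (ne_of_gt hy')] at h'
  have := mul_left_cancel₀ (ne_of_gt hc) h'
  exact this.symm

theorem m28_sub {c : ℝ} (hc : 0 < c) {E : Type*} [NormedAddCommGroup E] [NormedSpace ℝ E] (g : ℝ → E) :
    ∫ x in Ioi (0:ℝ), (c / x ^ 2) • g (c / x) = ∫ y in Ioi (0:ℝ), g y := by
  have h := integral_image_eq_integral_abs_deriv_smul (f := fun x : ℝ => c / x)
    (f' := fun x => -(c / x ^ 2)) (s := Ioi 0) measurableSet_Ioi (fun x hx => m28_deriv x hx)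
    (m28_inj hc) g
  rw [m28_image hc] at h
  rw [h]
  refine setIntegral_congr_fun measurableSet_Ioi ?_
  intro x hx
  have hx' : 0 < x := hx
  show (c / x ^ 2) • g (c / x) = |-(c / x ^ 2)| • g (c / x)
  rw [abs_neg, abs_of_pos (by positivity)]

theorem m28_sub_int {c : ℝ} (hc : 0 < c) {E : Type*} [NormedAddCommGroup E] [NormedSpace ℝ E] {g : ℝ → E}
    (hg : IntegrableOn g (Ioi 0)) :
    IntegrableOn (fun x : ℝ => (c / x ^ 2) • g (c / x)) (Ioi 0) := by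
  have h := (integrableOn_image_iff_integrableOn_abs_deriv_smul (f := fun x : ℝ => c / x)
    (f' := fun x => -(c / x ^ 2)) (s := Ioi 0) measurableSet_Ioi (fun x hx => m28_deriv x hx)
    (m28_inj hc) g)
  rw [m28_image hc] at h
  refine (h.mp hg).congr_fun ?_ measurableSet_Ioi
  intro x hx
  have hx' : 0 < x := hx
  show |-(c / x ^ 2)| • g (c / x) = (c / x ^ 2) • g (c / x)
  rw [abs_neg, abs_of_pos (by positivity)]

theorem m28_norm_zd (δ : ℝ) : ‖zd δ‖ = 1 := by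
  have h : zd δ = cexp (((δ - Real.pi / 2 : ℝ) : ℂ) * I) := by
    rw [Complex.exp_mul_I, ← Complex.ofReal_cos, ← Complex.ofReal_sin]
    unfold zd
    rw [Real.cos_sub_pi_div_two, Real.sin_sub_pi_div_two]
    push_cast
    ring
  rw [h, Complex.norm_exp_ofReal_mul_I]

/-- A fixed integrable majorant for `kp (1/(Λ x)) x^(-1/2)`. -/
theorem m28_w : ∃ D : ℝ, 0 < D ∧ ∃ w : ℝ → ℝ, IntegrableOn w (Ioi 0) ∧ ∫ x in Ioi (0:ℝ), w x ≤ D ∧
    ∀ x : ℝ, 0 < x → ∀ L : ℝ, 1 / (2 * Real.pi) ≤ L → kp (1 / (L * x)) * x ^ (-(1/2) : ℝ) ≤ w x := by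
  obtain ⟨C, hC, hk⟩ := kp_le 1 zero_le_one
  have i1 : IntegrableOn (fun x : ℝ => x ^ (-(1/2) : ℝ)) (Ioc 0 1) := by
    have := (intervalIntegral.intervalIntegrable_rpow' (a := 0) (b := 1) (r := -(1/2)) (by norm_num))
    rwa [intervalIntegrable_iff_integrableOn_Ioc_of_le zero_le_one] at this
  have i2 : IntegrableOn (fun x : ℝ => C * (2 * Real.pi) * x ^ (-(3/2) : ℝ)) (Ioi 1) :=
    (integrableOn_Ioi_rpow_of_lt (by norm_num) zero_lt_one).const_mul _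
  have hpi := Real.pi_pos
  have i3 : IntegrableOn (fun x : ℝ => if x ≤ 1 then x ^ (-(1/2) : ℝ) else C * (2 * Real.pi) * x ^ (-(3/2) : ℝ)) (Ioi 0) := by
    have hu : Ioi (0:ℝ) = Ioc 0 1 ∪ Ioi 1 := (Ioc_union_Ioi_eq_Ioi zero_le_one).symm
    rw [hu]
    refine IntegrableOn.union ?_ ?_
    · refine i1.congr_fun ?_ measurableSet_Ioc
      intro x hx
      have hx2 : x ≤ 1 := hx.2
      show x ^ (-(1/2) : ℝ) = if x ≤ 1 then x ^ (-(1/2) : ℝ) else C * (2 * Real.pi) * x ^ (-(3/2) : ℝ)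
      rw [if_pos hx2]
    · refine i2.congr_fun ?_ measurableSet_Ioi
      intro x hx
      have hx2 : ¬ x ≤ 1 := not_le.mpr hx
      show C * (2 * Real.pi) * x ^ (-(3/2) : ℝ) = if x ≤ 1 then x ^ (-(1/2) : ℝ) else C * (2 * Real.pi) * x ^ (-(3/2) : ℝ)
      rw [if_neg hx2]
  refine ⟨max 1 (∫ x in Ioi (0:ℝ), (if x ≤ 1 then x ^ (-(1/2) : ℝ) else C * (2 * Real.pi) * x ^ (-(3/2) : ℝ))),
    lt_of_lt_of_le one_pos (le_max_left _ _), _, i3, le_max_right _ _, ?_⟩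
  intro x hx L hL
  have hL0 : 0 < L := lt_of_lt_of_le (by positivity) hL
  have hx2 : 0 ≤ x ^ (-(1/2) : ℝ) := Real.rpow_nonneg hx.le _
  show kp (1 / (L * x)) * x ^ (-(1/2) : ℝ) ≤ if x ≤ 1 then x ^ (-(1/2) : ℝ) else C * (2 * Real.pi) * x ^ (-(3/2) : ℝ)
  split_ifs with h
  · exact mul_le_of_le_one_left hx2 (kp_mem _).2
  · have h1 := hk (1 / (L * x)) (by positivity)
    rw [Real.rpow_one] at h1
    have h2 : 1 / (L * x) ≤ 2 * Real.pi * (1 / x) := by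
      have h3 : 1 / L ≤ 2 * Real.pi := by
        rw [div_le_iff₀ hL0]
        rw [div_le_iff₀ (by positivity)] at hL
        linarith
      have h4 : 1 / (L * x) = 1 / L * (1 / x) := by field_simp
      rw [h4]
      exact mul_le_mul_of_nonneg_right h3 (by positivity)
    have h5 : x ^ (-(3/2) : ℝ) = (1 / x) * x ^ (-(1/2) : ℝ) := by
      rw [show (-(3/2) : ℝ) = -1 + -(1/2) by norm_num, Real.rpow_add hx, Real.rpow_neg_one, one_div x]
    rw [h5]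
    have h6 : kp (1 / (L * x)) ≤ C * (2 * Real.pi * (1 / x)) :=
      h1.trans (mul_le_mul_of_nonneg_left h2 hC.le)
    have h7 := mul_le_mul_of_nonneg_right h6 hx2
    have h8 : C * (2 * Real.pi * (1 / x)) * x ^ (-(1/2) : ℝ) = C * (2 * Real.pi) * (1 / x * x ^ (-(1/2) : ℝ)) := by ring
    rw [h8] at h7
    exact h7

theorem m28_kp_int {f : ℝ → ℝ} (hf : ContinuousOn f (Ioi 0)) (hf0 : ∀ x, 0 < x → 0 < f x) {E : Type*}
    [NormedAddCommGroup E] [NormedSpace ℝ E] {g : ℝ → E} (hg : IntegrableOn g (Ioi 0)) :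
    IntegrableOn (fun x => kp (f x) • g x) (Ioi 0) := by
  have hm : AEStronglyMeasurable (fun x => kp (f x)) (volume.restrict (Ioi 0)) :=
    (kp_cont.comp hf (fun x hx => hf0 x hx)).aestronglyMeasurable measurableSet_Ioi
  refine Integrable.mono hg (hm.smul hg.aestronglyMeasurable) ?_
  filter_upwards with x
  rw [norm_smul]
  refine mul_le_of_le_one_left (norm_nonneg _) ?_
  rw [Real.norm_eq_abs, abs_of_nonneg (kp_mem _).1]
  exact (kp_mem _).2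

theorem m28_M (δ : ℝ) {x : ℝ} (hx : 0 < x) (v : ℂ) :
    ‖(-(2 * Real.pi * I * conj (zd δ)) / x) * conj v‖ ^ 2 = 4 * Real.pi ^ 2 / x ^ 2 * ‖v‖ ^ 2 := by
  have hpi := Real.pi_pos
  rw [norm_mul, norm_div, norm_neg, norm_mul, norm_mul, norm_mul, Complex.norm_conj, Complex.norm_conj,
    m28_norm_zd, Complex.norm_I, Complex.norm_real, Complex.norm_real, Real.norm_eq_abs, Real.norm_eq_abs,
    abs_of_pos hx, abs_of_pos hpi, Complex.norm_ofNat]
  rw [mul_one, mul_one, mul_pow, div_pow]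
  ring

theorem m28_Lam {m n : ℕ} (hm : 1 ≤ m) (hn : 1 ≤ n) : 1 / (2 * Real.pi) ≤ Lam m n := by
  have hpi := Real.pi_pos
  have hm' : (1:ℝ) ≤ m := by exact_mod_cast hm
  have hn' : (1:ℝ) ≤ n := by exact_mod_cast hn
  unfold Lam
  refine div_le_div_of_nonneg_right ?_ (by positivity)
  rw [Real.one_le_sqrt]
  nlinarith

theorem m28_Lam_sq (m n : ℕ) : Lam m n ^ 2 = ((m:ℝ) * n) / (4 * Real.pi ^ 2) := by
  unfold Lam
  rw [div_pow, Real.sq_sqrt (by positivity)]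
  ring

theorem fold_int : ∃ C : ℝ, 0 < C ∧ ∀ δ : ℝ, 0 < δ → δ ≤ 1/4 → ∀ m n : ℕ, 1 ≤ m → 1 ≤ n →
    ‖(∫ x in Ioi (0:ℝ), Fz δ (m * x) * conj (Fz δ (n * x))) -
      2 * ∫ x in Ioi (0:ℝ), ((kp (Lam m n * x) : ℝ) : ℂ) * (Fz δ (m * x) * conj (Fz δ (n * x)))‖ ≤
      C * δ ^ (-(5/8) : ℝ) := by
  obtain ⟨C1, hC1, hfold⟩ := fold
  obtain ⟨C2, hC2, hL2⟩ := Fz_L2
  obtain ⟨D, hD, w, hw, hwD, hwb⟩ := m28_w
  have hpi := Real.pi_pos
  refine ⟨C2 + 2 * C1 ^ 2 * D, by positivity, ?_⟩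
  intro δ h0 h1 m n hm hn
  have hm' : (1:ℝ) ≤ m := by exact_mod_cast hm
  have hn' : (1:ℝ) ≤ n := by exact_mod_cast hn
  have hm0 : (0:ℝ) < m := by linarith
  have hn0 : (0:ℝ) < n := by linarith
  have hΛ := m28_Lam hm hn
  have hΛ0 : 0 < Lam m n := lt_of_lt_of_le (by positivity) hΛ
  have hΛsq := m28_Lam_sq m n
  have hFi := Fz_sq_int h0 h1
  -- rescaled functions
  have sc : ∀ k : ℝ, 1 ≤ k → IntegrableOn (fun x => ‖Fz δ (k * x)‖ ^ 2) (Ioi 0) ∧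
      ∫ x in Ioi (0:ℝ), ‖Fz δ (k * x)‖ ^ 2 ≤ C2 * δ ^ (-(5/4) : ℝ) := by
    intro k hk
    have hk0 : 0 < k := by linarith
    constructor
    · have := (integrableOn_Ioi_comp_mul_left_iff (fun x => ‖Fz δ x‖ ^ 2) 0 hk0).mpr
      rw [mul_zero] at this
      exact this hFi
    · have e := integral_comp_mul_left_Ioi (fun x => ‖Fz δ x‖ ^ 2) 0 hk0
      rw [mul_zero] at e
      rw [e, smul_eq_mul]
      have h2 := hL2 δ h0 h1
      have h3 : 0 ≤ ∫ x in Ioi (0:ℝ), ‖Fz δ x‖ ^ 2 := integral_nonneg (fun x => by positivity)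
      have h4 : k⁻¹ ≤ 1 := inv_le_one_of_one_le₀ hk
      have h5 := mul_le_mul_of_nonneg_right h4 h3
      rw [one_mul] at h5
      exact h5.trans h2
  have cF : ∀ k : ℝ, 1 ≤ k → ContinuousOn (fun x => Fz δ (k * x)) (Ioi 0) := by
    intro k hk
    have hk0 : 0 < k := by linarith
    refine (Fz_cont h0 h1).comp (continuous_const.mul continuous_id).continuousOn ?_
    intro x hx
    have hx' : 0 < x := hx
    exact mul_pos hk0 hx'
  obtain ⟨ia, ba⟩ := sc m hm'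
  obtain ⟨ib, bb⟩ := sc n hn'
  have iG : IntegrableOn (fun x => Fz δ (m * x) * conj (Fz δ (n * x))) (Ioi 0) := by
    refine Integrable.mono' ((ia.add ib)) ?_ ?_
    · refine (((cF m hm').mul ?_)).aestronglyMeasurable measurableSet_Ioi
      exact Complex.continuous_conj.comp_continuousOn (cF n hn')
    · filter_upwards with x
      rw [norm_mul, Complex.norm_conj]
      show ‖Fz δ (m * x)‖ * ‖Fz δ (n * x)‖ ≤ ‖Fz δ (m * x)‖ ^ 2 + ‖Fz δ (n * x)‖ ^ 2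
      nlinarith [sq_nonneg (‖Fz δ (m * x)‖ - ‖Fz δ (n * x)‖), sq_nonneg (‖Fz δ (m * x)‖), sq_nonneg (‖Fz δ (n * x)‖)]
  have hcont1 : ContinuousOn (fun x : ℝ => Lam m n * x) (Ioi 0) := (continuous_const.mul continuous_id).continuousOn
  have hcont2 : ContinuousOn (fun x : ℝ => 1 / (Lam m n * x)) (Ioi 0) := by
    refine ContinuousOn.div continuousOn_const hcont1 ?_
    intro x hx
    have hx' : 0 < x := hx
    positivity
  have iK : IntegrableOn (fun x => ((kp (Lam m n * x) : ℝ) : ℂ) * (Fz δ (m * x) * conj (Fz δ (n * x)))) (Ioi 0) := by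
    have h := m28_kp_int hcont1 (fun x hx => by positivity) iG
    refine h.congr_fun ?_ measurableSet_Ioi
    intro x _
    exact Complex.real_smul
  have iK' : IntegrableOn (fun x => ((kp (1 / (Lam m n * x)) : ℝ) : ℂ) * (Fz δ (m * x) * conj (Fz δ (n * x)))) (Ioi 0) := by
    have h := m28_kp_int hcont2 (fun x hx => by positivity) iG
    refine h.congr_fun ?_ measurableSet_Ioi
    intro x _
    exact Complex.real_smul
  have hsplit : ∫ x in Ioi (0:ℝ), Fz δ (m * x) * conj (Fz δ (n * x)) =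
      (∫ x in Ioi (0:ℝ), ((kp (Lam m n * x) : ℝ) : ℂ) * (Fz δ (m * x) * conj (Fz δ (n * x)))) +
      ∫ x in Ioi (0:ℝ), ((kp (1 / (Lam m n * x)) : ℝ) : ℂ) * (Fz δ (m * x) * conj (Fz δ (n * x))) := by
    rw [← integral_add iK iK']
    refine setIntegral_congr_fun measurableSet_Ioi ?_
    intro x hx
    have hx' : 0 < x := hx
    have hk := kp_inv (y := Lam m n * x) (by positivity)
    have hk' : ((kp (Lam m n * x) : ℝ) : ℂ) + ((kp (1 / (Lam m n * x)) : ℝ) : ℂ) = 1 := by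
      rw [← Complex.ofReal_add, hk, Complex.ofReal_one]
    show Fz δ (m * x) * conj (Fz δ (n * x)) = ((kp (Lam m n * x) : ℝ) : ℂ) * (Fz δ (m * x) * conj (Fz δ (n * x))) +
      ((kp (1 / (Lam m n * x)) : ℝ) : ℂ) * (Fz δ (m * x) * conj (Fz δ (n * x)))
    rw [← add_mul, hk', one_mul]
  -- substitution
  have hc : (0:ℝ) < 4 * Real.pi ^ 2 / (m * n) := by positivity
  have iS := m28_sub_int hc iK
  have eS := m28_sub hc (fun x => ((kp (Lam m n * x) : ℝ) : ℂ) * (Fz δ (m * x) * conj (Fz δ (n * x))))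
  have key : ∀ x : ℝ, 0 < x → ‖((kp (1 / (Lam m n * x)) : ℝ) : ℂ) * (Fz δ (m * x) * conj (Fz δ (n * x))) -
      (4 * Real.pi ^ 2 / (m * n) / x ^ 2) • (((kp (Lam m n * (4 * Real.pi ^ 2 / (m * n) / x)) : ℝ) : ℂ) *
        (Fz δ (m * (4 * Real.pi ^ 2 / (m * n) / x)) * conj (Fz δ (n * (4 * Real.pi ^ 2 / (m * n) / x)))))‖ ≤
      (δ ^ (5/8 : ℝ) / 2) * ‖Fz δ (m * x)‖ ^ 2 + (δ ^ (5/8 : ℝ) / 2) * ‖Fz δ (n * x)‖ ^ 2 +
        (2 * C1 ^ 2 * δ ^ (-(5/8) : ℝ)) * w x := by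
    intro x hx
    have hx0 : x ≠ 0 := hx.ne'
    have hmx : 0 < (m:ℝ) * x := by positivity
    have hnx : 0 < (n:ℝ) * x := by positivity
    have r1 : Lam m n * (4 * Real.pi ^ 2 / (m * n) / x) = 1 / (Lam m n * x) := by
      rw [eq_div_iff (by positivity)]
      have : Lam m n * (4 * Real.pi ^ 2 / (m * n) / x) * (Lam m n * x) = Lam m n ^ 2 * (4 * Real.pi ^ 2 / (m * n)) := by
        field_simp
      rw [this, hΛsq]
      field_simp
    have r2 : (m:ℝ) * (4 * Real.pi ^ 2 / (m * n) / x) = 4 * Real.pi ^ 2 / (n * x) := by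
      field_simp
    have r3 : (n:ℝ) * (4 * Real.pi ^ 2 / (m * n) / x) = 4 * Real.pi ^ 2 / (m * x) := by
      field_simp
    rw [r1, r2, r3]
    have f1 := hfold δ h0 h1 (m * x) hmx
    have f2 := hfold δ h0 h1 (n * x) hnx
    -- errors
    have x4 : ∀ k : ℝ, 1 ≤ k → (k * x) ^ (-(1/4) : ℝ) ≤ x ^ (-(1/4) : ℝ) := by
      intro k hk
      refine Real.rpow_le_rpow_of_nonpos hx ?_ (by norm_num)
      nlinarith
    have f1' := f1.trans (mul_le_mul_of_nonneg_left (x4 m hm') hC1.le)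
    have f2' := f2.trans (mul_le_mul_of_nonneg_left (x4 n hn') hC1.le)
    generalize hA : Fz δ (m * x) = A at f1' ⊢
    generalize hB : Fz δ (n * x) = B at f2' ⊢
    generalize hP : Fz δ (4 * Real.pi ^ 2 / (m * x)) = P at f1' ⊢
    generalize hQ : Fz δ (4 * Real.pi ^ 2 / (n * x)) = Q at f2' ⊢
    have hz : zd δ * conj (zd δ) = 1 := by
      rw [Complex.mul_conj, Complex.normSq_eq_norm_sq, m28_norm_zd]
      norm_num
    generalize hM1 : (-(2 * Real.pi * I * conj (zd δ)) / ((m * x : ℝ) : ℂ)) * conj P = M1 at f1'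
    generalize hM2 : (-(2 * Real.pi * I * conj (zd δ)) / ((n * x : ℝ) : ℂ)) * conj Q = M2 at f2'
    have hxC : (x:ℂ) ≠ 0 := by exact_mod_cast hx0
    have hmC : (m:ℂ) ≠ 0 := by exact_mod_cast hm0.ne'
    have hnC : (n:ℂ) ≠ 0 := by exact_mod_cast hn0.ne'
    have hMM : (4 * Real.pi ^ 2 / (m * n) / x ^ 2) • (((kp (1 / (Lam m n * x)) : ℝ) : ℂ) * (Q * conj P)) =
        ((kp (1 / (Lam m n * x)) : ℝ) : ℂ) * (M1 * conj M2) := by
      rw [← hM1, ← hM2, Complex.real_smul]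
      have e1 : conj (-(2 * (Real.pi:ℂ) * I * conj (zd δ)) / ((n * x : ℝ) : ℂ) * conj Q) =
          (2 * Real.pi * I * zd δ) / ((n * x : ℝ) : ℂ) * Q := by
        simp only [map_mul, map_div₀, map_neg, Complex.conj_conj, Complex.conj_ofReal, Complex.conj_I, map_ofNat]
        ring
      rw [e1]
      have e2 : (-(2 * (Real.pi:ℂ) * I * conj (zd δ)) / ((m * x : ℝ) : ℂ)) * conj P * ((2 * Real.pi * I * zd δ) / ((n * x : ℝ) : ℂ) * Q) =
          (-(I ^ 2)) * (zd δ * conj (zd δ)) * (4 * (Real.pi:ℂ) ^ 2 / (((m * x : ℝ) : ℂ) * ((n * x : ℝ) : ℂ))) * (Q * conj P) := by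
        ring
      rw [e2, hz, Complex.I_sq]
      push_cast
      field_simp
    rw [hMM, ← mul_sub, norm_mul, Complex.norm_real, Real.norm_eq_abs, abs_of_nonneg (kp_mem _).1]
    have hk0 := (kp_mem (1 / (Lam m n * x))).1
    have hk1 := (kp_mem (1 / (Lam m n * x))).2
    generalize hE : C1 * x ^ (-(1/4) : ℝ) = e at f1' f2'
    have he2 : e ^ 2 = C1 ^ 2 * x ^ (-(1/2) : ℝ) := by
      rw [← hE, mul_pow, ← Real.rpow_natCast (x ^ (-(1/4) : ℝ)), ← Real.rpow_mul hx.le]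
      norm_num
    have hwx := hwb x hx (Lam m n) hΛ
    have hke : kp (1 / (Lam m n * x)) * e ^ 2 ≤ C1 ^ 2 * w x := by
      rw [he2]
      have := mul_le_mul_of_nonneg_left hwx (sq_nonneg C1)
      nlinarith [this]
    have hdiff : ‖A * conj B - M1 * conj M2‖ ≤ e * ‖B‖ + ‖A‖ * e + e ^ 2 := by
      have e3 : A * conj B - M1 * conj M2 = (A - M1) * conj B + A * conj (B - M2) - (A - M1) * conj (B - M2) := by
        rw [map_sub]; ring
      rw [e3]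
      refine (norm_sub_le _ _).trans ?_
      refine (add_le_add (norm_add_le _ _) le_rfl).trans ?_
      rw [norm_mul, norm_mul, norm_mul, Complex.norm_conj, Complex.norm_conj]
      have q1 := mul_le_mul_of_nonneg_right f1' (norm_nonneg B)
      have q2 := mul_le_mul_of_nonneg_left f2' (norm_nonneg A)
      have q3 := mul_le_mul f1' f2' (norm_nonneg _) ((norm_nonneg _).trans f1')
      nlinarith [q1, q2, q3]
    have he0 : 0 ≤ e := (norm_nonneg _).trans f1'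
    have hd1 : (0:ℝ) < δ ^ (5/8 : ℝ) := Real.rpow_pos_of_pos h0 _
    have hd2 : (0:ℝ) < δ ^ (-(5/8) : ℝ) := Real.rpow_pos_of_pos h0 _
    have hdd : δ ^ (5/8 : ℝ) * δ ^ (-(5/8) : ℝ) = 1 := by
      rw [← Real.rpow_add h0]; norm_num
    have hone : 1 ≤ δ ^ (-(5/8) : ℝ) := Real.one_le_rpow_of_pos_of_le_one_of_nonpos h0 (by linarith) (by norm_num)
    have amgm : ∀ t : ℝ, 0 ≤ t → e * t ≤ δ ^ (5/8 : ℝ) / 2 * t ^ 2 + δ ^ (-(5/8) : ℝ) / 2 * e ^ 2 := by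
      intro t ht
      have h2 := sq_nonneg (δ ^ (5/8 : ℝ) * t - e)
      have h3 := mul_nonneg hd2.le h2
      have h4 : δ ^ (-(5/8) : ℝ) * (δ ^ (5/8 : ℝ) * t - e) ^ 2 =
          (δ ^ (5/8 : ℝ) * δ ^ (-(5/8) : ℝ)) * δ ^ (5/8 : ℝ) * t ^ 2 - 2 * (δ ^ (5/8 : ℝ) * δ ^ (-(5/8) : ℝ)) * (e * t) + δ ^ (-(5/8) : ℝ) * e ^ 2 := by ring
      rw [h4, hdd] at h3
      linarith
    have a1 := amgm ‖B‖ (norm_nonneg _)
    have a2 := amgm ‖A‖ (norm_nonneg _)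
    have t1 : ‖A * conj B - M1 * conj M2‖ ≤ (δ ^ (5/8 : ℝ) / 2 * ‖A‖ ^ 2 + δ ^ (5/8 : ℝ) / 2 * ‖B‖ ^ 2) + 2 * δ ^ (-(5/8) : ℝ) * e ^ 2 := by
      have : e ^ 2 ≤ δ ^ (-(5/8) : ℝ) * e ^ 2 := le_mul_of_one_le_left (sq_nonneg e) hone
      linarith
    have t2 := mul_le_mul_of_nonneg_left t1 hk0
    refine t2.trans ?_
    have t3 : 0 ≤ δ ^ (5/8 : ℝ) / 2 * ‖A‖ ^ 2 + δ ^ (5/8 : ℝ) / 2 * ‖B‖ ^ 2 := by positivity
    have t4 := mul_le_mul_of_nonneg_right hk1 t3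
    have t5 := mul_le_mul_of_nonneg_left hke (by positivity : (0:ℝ) ≤ 2 * δ ^ (-(5/8) : ℝ))
    nlinarith [t4, t5]
  have iD := (iK'.sub iS)
  have iR : IntegrableOn (fun x => (δ ^ (5/8 : ℝ) / 2) * ‖Fz δ (m * x)‖ ^ 2 + (δ ^ (5/8 : ℝ) / 2) * ‖Fz δ (n * x)‖ ^ 2 +
        (2 * C1 ^ 2 * δ ^ (-(5/8) : ℝ)) * w x) (Ioi 0) :=
    ((ia.const_mul _).add (ib.const_mul _)).add (hw.const_mul _)
  have eT : (∫ x in Ioi (0:ℝ), Fz δ (m * x) * conj (Fz δ (n * x))) -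
      2 * ∫ x in Ioi (0:ℝ), ((kp (Lam m n * x) : ℝ) : ℂ) * (Fz δ (m * x) * conj (Fz δ (n * x))) =
      ∫ x in Ioi (0:ℝ), (((kp (1 / (Lam m n * x)) : ℝ) : ℂ) * (Fz δ (m * x) * conj (Fz δ (n * x))) -
      (4 * Real.pi ^ 2 / (m * n) / x ^ 2) • (((kp (Lam m n * (4 * Real.pi ^ 2 / (m * n) / x)) : ℝ) : ℂ) *
        (Fz δ (m * (4 * Real.pi ^ 2 / (m * n) / x)) * conj (Fz δ (n * (4 * Real.pi ^ 2 / (m * n) / x)))))) := by
    rw [integral_sub iK' iS]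
    have eS' : ∫ x in Ioi (0:ℝ), (4 * Real.pi ^ 2 / (m * n) / x ^ 2) • (((kp (Lam m n * (4 * Real.pi ^ 2 / (m * n) / x)) : ℝ) : ℂ) *
        (Fz δ (m * (4 * Real.pi ^ 2 / (m * n) / x)) * conj (Fz δ (n * (4 * Real.pi ^ 2 / (m * n) / x))))) =
        ∫ x in Ioi (0:ℝ), ((kp (Lam m n * x) : ℝ) : ℂ) * (Fz δ (m * x) * conj (Fz δ (n * x))) := eS
    rw [eS', hsplit]
    ring
  rw [eT]
  refine (norm_integral_le_integral_norm _).trans ?_
  refine (setIntegral_mono_on iD.norm iR measurableSet_Ioi (fun x hx => key x hx)).trans ?_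
  have j1 : IntegrableOn (fun x => δ ^ (5/8 : ℝ) / 2 * ‖Fz δ (m * x)‖ ^ 2) (Ioi 0) := ia.const_mul _
  have j2 : IntegrableOn (fun x => δ ^ (5/8 : ℝ) / 2 * ‖Fz δ (n * x)‖ ^ 2) (Ioi 0) := ib.const_mul _
  have j3 : IntegrableOn (fun x => (2 * C1 ^ 2 * δ ^ (-(5/8) : ℝ)) * w x) (Ioi 0) := hw.const_mul _
  have j12 : IntegrableOn (fun x => δ ^ (5/8 : ℝ) / 2 * ‖Fz δ (m * x)‖ ^ 2 + δ ^ (5/8 : ℝ) / 2 * ‖Fz δ (n * x)‖ ^ 2) (Ioi 0) :=
    j1.add j2
  rw [integral_add j12 j3, integral_add j1 j2, integral_const_mul, integral_const_mul, integral_const_mul]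
  have hd1 : (0:ℝ) < δ ^ (5/8 : ℝ) := Real.rpow_pos_of_pos h0 _
  have hd2 : (0:ℝ) < δ ^ (-(5/8) : ℝ) := Real.rpow_pos_of_pos h0 _
  have hdd : δ ^ (5/8 : ℝ) * δ ^ (-(5/4) : ℝ) = δ ^ (-(5/8) : ℝ) := by
    rw [← Real.rpow_add h0]; norm_num
  have b1 := mul_le_mul_of_nonneg_left ba (by positivity : (0:ℝ) ≤ δ ^ (5/8 : ℝ) / 2)
  have b2 := mul_le_mul_of_nonneg_left bb (by positivity : (0:ℝ) ≤ δ ^ (5/8 : ℝ) / 2)
  have b3 := mul_le_mul_of_nonneg_left hwD (by positivity : (0:ℝ) ≤ 2 * C1 ^ 2 * δ ^ (-(5/8) : ℝ))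
  have b4 : δ ^ (5/8 : ℝ) / 2 * (C2 * δ ^ (-(5/4) : ℝ)) = C2 / 2 * δ ^ (-(5/8) : ℝ) := by
    rw [← hdd]; ring
  rw [b4] at b1 b2
  linarith

end Pool.Agent.LibF4
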