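import Pool.Agent.LibF4.Defs
import Pool.Agent.LibM3.A2
import Pool.Agent.LibM3.E3
import Pool.Agent.LibZM.CS1
import Pool.Agent.LibZM.Asymp2
import Pool.Agent.LibF4.M01
import Pool.Agent.LibF4.M08
import Pool.Agent.LibF4.M15
import Pool.Agent.LibF4.M24
import Pool.Agent.LibF4.M26
import Pool.Agent.LibF4.M27

/-! Fourth moment, block M, row M29. -/

set_option autoImplicit false

namespace Pool.Agent.LibF4

open MeasureTheory Set Filter Topology Complex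
open scoped ComplexConjugate
open Pool.Agent.LibM3 Pool.Agent.LibZM

theorem m29_conv {f : ℝ → ℂ} {k : ℕ} (hk : 1 ≤ k) (hc : ContinuousOn f (Ioi 0))
    (hi : IntegrableOn (fun x => ‖f x‖ ^ 2) (Ioi 0)) :
    ContinuousOn (fun x : ℝ => f (k * x)) (Ioi 0) ∧
    IntegrableOn (fun x : ℝ => ‖f (k * x)‖ ^ 2) (Ioi 0) ∧
    ∫ x in Ioi (0:ℝ), ‖f (k * x)‖ ^ 2 ≤ ∫ x in Ioi (0:ℝ), ‖f x‖ ^ 2 := by
  have hk0 : (0:ℝ) < k := by exact_mod_cast hk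
  have hk1 : (1:ℝ) ≤ k := by exact_mod_cast hk
  refine ⟨hc.comp (by fun_prop) fun x hx => mul_pos hk0 hx, ?_, ?_⟩
  · have := (integrableOn_Ioi_comp_mul_left_iff (fun x => ‖f x‖ ^ 2) 0 hk0)
    rw [mul_zero] at this
    exact this.mpr hi
  · rw [integral_comp_mul_left_Ioi (fun x => ‖f x‖ ^ 2) 0 hk0, mul_zero, smul_eq_mul]
    have h0 : 0 ≤ ∫ x in Ioi (0:ℝ), ‖f x‖ ^ 2 :=
      setIntegral_nonneg measurableSet_Ioi fun x _ => by positivity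
    have h1 : (k:ℝ)⁻¹ ≤ 1 := inv_le_one_of_one_le₀ hk1
    nlinarith

theorem polar_int : ∃ C : ℝ, 0 < C ∧ ∀ δ : ℝ, 0 < δ → δ ≤ 1/4 → ∀ m n : ℕ, 1 ≤ m → 1 ≤ n →
    ‖(∫ x in Ioi (0:ℝ), ((kp (Lam m n * x) : ℝ) : ℂ) * (Fz δ (m * x) * conj (Fz δ (n * x)))) -
      ∫ x in Ioi (0:ℝ), ((kp (Lam m n * x) : ℝ) : ℂ) * (Sz δ (m * x) * conj (Sz δ (n * x)))‖ ≤
      C * ((m:ℝ) * n) ^ 2 * δ ^ (-(5/8) : ℝ) := by
  obtain ⟨C1, hC1, hP⟩ := Pz_bd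
  obtain ⟨C2, hC2, hF⟩ := Fz_L2
  refine ⟨C2 + 2 * C1, by positivity, fun δ h0 h1 m n hm hn => ?_⟩
  have hm0 : (0:ℝ) < m := by exact_mod_cast hm
  have hn0 : (0:ℝ) < n := by exact_mod_cast hn
  have hm1 : (1:ℝ) ≤ m := by exact_mod_cast hm
  have hn1 : (1:ℝ) ≤ n := by exact_mod_cast hn
  have hmn1 : (1:ℝ) ≤ (m:ℝ) * n := by nlinarith
  have hLam : 0 < Lam m n := by
    unfold Lam
    have : 0 < √((m:ℝ) * n) := Real.sqrt_pos.mpr (by positivity)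
    positivity
  obtain ⟨ca, ia, ba⟩ := m29_conv hm (Fz_cont h0 h1) (Fz_sq_int h0 h1)
  obtain ⟨cb, ib, bb⟩ := m29_conv hn (Fz_cont h0 h1) (Fz_sq_int h0 h1)
  obtain ⟨ip, bp⟩ := hP δ h0 h1 m n m hm hn (Or.inl rfl)
  obtain ⟨iq, bq⟩ := hP δ h0 h1 m n n hm hn (Or.inr rfl)
  obtain ⟨-, iS, -⟩ := SS_expand h0 h1 hm hn
  have hJ := hF δ h0 h1
  have ck : ContinuousOn (fun x : ℝ => kp (Lam m n * x)) (Ioi 0) :=
    kp_cont.comp (by fun_prop) fun x hx => mul_pos hLam hx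
  have iF : IntegrableOn (fun x : ℝ => ((kp (Lam m n * x) : ℝ) : ℂ) *
      (Fz δ (m * x) * conj (Fz δ (n * x)))) (Ioi 0) := by
    have hbd := (ia.add ib).const_mul (1/2 : ℝ)
    refine Integrable.mono' hbd ?_ ?_
    · refine ContinuousOn.aestronglyMeasurable ?_ measurableSet_Ioi
      exact (Complex.continuous_ofReal.comp_continuousOn ck).mul
        (ca.mul (Complex.continuous_conj.comp_continuousOn cb))
    · refine Eventually.of_forall fun x => ?_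
      obtain ⟨k0, k1⟩ := kp_mem (Lam m n * x)
      rw [norm_mul, norm_mul, Complex.norm_real, Real.norm_of_nonneg k0, RCLike.norm_conj]
      have := sq_nonneg (‖Fz δ (m * x)‖ - ‖Fz δ (n * x)‖)
      have h2 : 0 ≤ ‖Fz δ (m * x)‖ * ‖Fz δ (n * x)‖ := by positivity
      simp only [Pi.add_apply]
      nlinarith
  set η : ℝ := δ ^ (5/8 : ℝ) with hη
  have hη0 : 0 < η := Real.rpow_pos_of_pos h0 _
  have hηi : η⁻¹ = δ ^ (-(5/8) : ℝ) := by rw [hη, Real.rpow_neg h0.le]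
  have hη1 : 1 ≤ η⁻¹ := by
    rw [hηi]
    exact Real.one_le_rpow_of_pos_of_le_one_of_nonpos h0 (by linarith) (by norm_num)
  have hηJ : η * δ ^ (-(5/4) : ℝ) = δ ^ (-(5/8) : ℝ) := by
    rw [hη, ← Real.rpow_add h0]; norm_num
  rw [← integral_sub iF iS]
  let h : ℝ → ℝ := fun x => 1/2 * η * (‖Fz δ (m * x)‖ ^ 2 + ‖Fz δ (n * x)‖ ^ 2) +
    (1/2 * η⁻¹ + 1/2) * (kp (Lam m n * x) * ‖Pz δ (m * x)‖ ^ 2 +
      kp (Lam m n * x) * ‖Pz δ (n * x)‖ ^ 2)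
  have ih : IntegrableOn h (Ioi 0) := ((ia.add ib).const_mul (1/2 * η)).add
    ((ip.add iq).const_mul (1/2 * η⁻¹ + 1/2))
  have hle : ‖∫ x in Ioi (0:ℝ), (((kp (Lam m n * x) : ℝ) : ℂ) *
      (Fz δ (m * x) * conj (Fz δ (n * x))) - ((kp (Lam m n * x) : ℝ) : ℂ) *
      (Sz δ (m * x) * conj (Sz δ (n * x))))‖ ≤ ∫ x in Ioi (0:ℝ), h x := by
    refine norm_integral_le_of_norm_le ih ?_
    refine (ae_restrict_iff' measurableSet_Ioi).mpr (Eventually.of_forall fun x hx => ?_)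
    have hx0 : (0:ℝ) < x := hx
    obtain ⟨k0, k1⟩ := kp_mem (Lam m n * x)
    have e1 : Sz δ (m * x) = Fz δ (m * x) + Pz δ (m * x) := by
      rw [Fz_eq h0 h1 (mul_pos hm0 hx0)]; ring
    have e2 : Sz δ (n * x) = Fz δ (n * x) + Pz δ (n * x) := by
      rw [Fz_eq h0 h1 (mul_pos hn0 hx0)]; ring
    set a := Fz δ (m * x)
    set b := Fz δ (n * x)
    set p := Pz δ (m * x)
    set q := Pz δ (n * x)
    set w := kp (Lam m n * x)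
    have e3 : ((w : ℝ) : ℂ) * (a * conj b) - ((w : ℝ) : ℂ) * (Sz δ (m * x) * conj (Sz δ (n * x))) =
        -(((w : ℝ) : ℂ) * (a * conj q + p * conj b + p * conj q)) := by
      rw [e1, e2, map_add]; ring
    rw [e3, norm_neg, norm_mul, Complex.norm_real, Real.norm_of_nonneg k0]
    have e4 : ‖a * conj q + p * conj b + p * conj q‖ ≤ ‖a‖ * ‖q‖ + ‖p‖ * ‖b‖ + ‖p‖ * ‖q‖ := by
      refine (norm_add₃_le).trans ?_
      simp only [norm_mul, RCLike.norm_conj]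
      exact le_rfl
    have e5 : 2 * (‖a‖ * ‖q‖) ≤ η * ‖a‖ ^ 2 + η⁻¹ * ‖q‖ ^ 2 := by
      have := sq_nonneg (η * ‖a‖ - ‖q‖)
      have h3 : η⁻¹ * (η * ‖a‖ - ‖q‖) ^ 2 = η * ‖a‖ ^ 2 + η⁻¹ * ‖q‖ ^ 2 - 2 * (‖a‖ * ‖q‖) := by
        field_simp
        ring
      have h4 : 0 ≤ η⁻¹ * (η * ‖a‖ - ‖q‖) ^ 2 := by positivity
      linarith
    have e6 : 2 * (‖p‖ * ‖b‖) ≤ η * ‖b‖ ^ 2 + η⁻¹ * ‖p‖ ^ 2 := by
      have h3 : η⁻¹ * (η * ‖b‖ - ‖p‖) ^ 2 = η * ‖b‖ ^ 2 + η⁻¹ * ‖p‖ ^ 2 - 2 * (‖p‖ * ‖b‖) := by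
        field_simp
        ring
      have h4 : 0 ≤ η⁻¹ * (η * ‖b‖ - ‖p‖) ^ 2 := by positivity
      linarith
    have e7 : 2 * (‖p‖ * ‖q‖) ≤ ‖p‖ ^ 2 + ‖q‖ ^ 2 := by nlinarith [sq_nonneg (‖p‖ - ‖q‖)]
    have e8 : w * ‖a * conj q + p * conj b + p * conj q‖ ≤
        w * (1/2 * (η * (‖a‖ ^ 2 + ‖b‖ ^ 2)) + 1/2 * ((η⁻¹ + 1) * (‖p‖ ^ 2 + ‖q‖ ^ 2))) := by
      refine mul_le_mul_of_nonneg_left ?_ k0
      linarith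
    have e9 : w * (1/2 * (η * (‖a‖ ^ 2 + ‖b‖ ^ 2))) ≤ 1/2 * (η * (‖a‖ ^ 2 + ‖b‖ ^ 2)) :=
      mul_le_of_le_one_left (by positivity) k1
    calc w * ‖a * conj q + p * conj b + p * conj q‖ ≤
        w * (1/2 * (η * (‖a‖ ^ 2 + ‖b‖ ^ 2))) +
          w * (1/2 * ((η⁻¹ + 1) * (‖p‖ ^ 2 + ‖q‖ ^ 2))) := by rw [← mul_add]; exact e8
      _ ≤ 1/2 * (η * (‖a‖ ^ 2 + ‖b‖ ^ 2)) + w * (1/2 * ((η⁻¹ + 1) * (‖p‖ ^ 2 + ‖q‖ ^ 2))) := by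
        linarith
      _ = h x := by
        change _ = 1/2 * η * (‖a‖ ^ 2 + ‖b‖ ^ 2) +
          (1/2 * η⁻¹ + 1/2) * (w * ‖p‖ ^ 2 + w * ‖q‖ ^ 2)
        ring
  refine hle.trans ?_
  have hint : ∫ x in Ioi (0:ℝ), h x = 1/2 * η * ((∫ x in Ioi (0:ℝ), ‖Fz δ (m * x)‖ ^ 2) +
      ∫ x in Ioi (0:ℝ), ‖Fz δ (n * x)‖ ^ 2) + (1/2 * η⁻¹ + 1/2) *
      ((∫ x in Ioi (0:ℝ), kp (Lam m n * x) * ‖Pz δ (m * x)‖ ^ 2) +
        ∫ x in Ioi (0:ℝ), kp (Lam m n * x) * ‖Pz δ (n * x)‖ ^ 2) := by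
    have i1 := (ia.add ib).const_mul (1/2 * η)
    have i2 := (ip.add iq).const_mul (1/2 * η⁻¹ + 1/2)
    have e1 := integral_add i1 i2
    rw [integral_const_mul, integral_const_mul, integral_add' ia ib, integral_add' ip iq] at e1
    exact e1
  rw [hint]
  have g1 : (∫ x in Ioi (0:ℝ), ‖Fz δ (m * x)‖ ^ 2) + ∫ x in Ioi (0:ℝ), ‖Fz δ (n * x)‖ ^ 2 ≤
      2 * (C2 * δ ^ (-(5/4) : ℝ)) := by linarith
  have g2 : (∫ x in Ioi (0:ℝ), kp (Lam m n * x) * ‖Pz δ (m * x)‖ ^ 2) +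
      ∫ x in Ioi (0:ℝ), kp (Lam m n * x) * ‖Pz δ (n * x)‖ ^ 2 ≤ 2 * (C1 * ((m:ℝ) * n) ^ 2) := by
    linarith
  have g3 : (1:ℝ) ≤ ((m:ℝ) * n) ^ 2 := one_le_pow₀ hmn1
  calc _ ≤ 1/2 * η * (2 * (C2 * δ ^ (-(5/4) : ℝ))) + (1/2 * η⁻¹ + 1/2) *
        (2 * (C1 * ((m:ℝ) * n) ^ 2)) := by gcongr
    _ = C2 * (η * δ ^ (-(5/4) : ℝ)) + (η⁻¹ + 1) * (C1 * ((m:ℝ) * n) ^ 2) := by ring
    _ ≤ C2 * (((m:ℝ) * n) ^ 2 * η⁻¹) + (2 * η⁻¹) * (C1 * ((m:ℝ) * n) ^ 2) := by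
      rw [hηJ, ← hηi]
      gcongr
      · have : 0 < η⁻¹ := by positivity
        nlinarith
      · linarith
    _ = (C2 + 2 * C1) * ((m:ℝ) * n) ^ 2 * δ ^ (-(5/8) : ℝ) := by rw [← hηi]; ring

end Pool.Agent.LibF4
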