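import Pool.Agent.LibF4.Defs
import Pool.Agent.LibM3.A2
import Pool.Agent.LibM3.E3
import Pool.Agent.LibZM.CS1
import Pool.Agent.LibZM.Asymp2
import Pool.Agent.LibF4.M18
import Pool.Agent.LibF4.M24
import Pool.Agent.LibF4.M28
import Pool.Agent.LibF4.M29

/-! Fourth moment, block M, row M30. -/

set_option autoImplicit false

namespace Pool.Agent.LibF4

open MeasureTheory Set Filter Topology Complex
open scoped ComplexConjugate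
open Pool.Agent.LibM3 Pool.Agent.LibZM

theorem M_main : ∃ C : ℝ, 0 < C ∧ ∀ δ : ℝ, 0 < δ → δ ≤ 1/4 → ∀ m n : ℕ, 1 ≤ m → 1 ≤ n →
    ‖I4 δ m n - 2 * ((√((m:ℝ) * n) : ℝ) : ℂ) * ∑' ab : ℕ × ℕ, T4 δ m n ab‖ ≤ C * ((m:ℝ) * n) ^ 3 * δ ^ (-(5/8) : ℝ) := by
  obtain ⟨C1, hC1, h1⟩ := fold_int
  obtain ⟨C2, hC2, h2⟩ := polar_int
  refine ⟨C1 + 2 * C2, by positivity, fun δ d0 d1 m n hm hn => ?_⟩
  have hm1 : (1:ℝ) ≤ m := by exact_mod_cast hm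
  have hn1 : (1:ℝ) ≤ n := by exact_mod_cast hn
  have hmn1 : (1:ℝ) ≤ (m:ℝ) * n := by nlinarith
  have b1 := h1 δ d0 d1 m n hm hn
  have b2 := h2 δ d0 d1 m n hm hn
  rw [parseval d0 d1 hm hn, ← (SS_expand d0 d1 hm hn).2.2]
  set A := ∫ x in Ioi (0:ℝ), Fz δ (m * x) * conj (Fz δ (n * x))
  set B := ∫ x in Ioi (0:ℝ), ((kp (Lam m n * x) : ℝ) : ℂ) * (Fz δ (m * x) * conj (Fz δ (n * x)))
  set D := ∫ x in Ioi (0:ℝ), ((kp (Lam m n * x) : ℝ) : ℂ) * (Sz δ (m * x) * conj (Sz δ (n * x)))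
  have hs : √((m:ℝ) * n) ≤ (m:ℝ) * n := by
    rw [Real.sqrt_le_left (by linarith)]
    nlinarith
  have hs0 : 0 ≤ √((m:ℝ) * n) := Real.sqrt_nonneg _
  have e : ((√((m:ℝ) * n) : ℝ) : ℂ) * A - 2 * ((√((m:ℝ) * n) : ℝ) : ℂ) * D =
      ((√((m:ℝ) * n) : ℝ) : ℂ) * ((A - 2 * B) + 2 * (B - D)) := by ring
  have hδ : 0 < δ ^ (-(5/8) : ℝ) := Real.rpow_pos_of_pos d0 _
  have hM2 : (1:ℝ) ≤ ((m:ℝ) * n) ^ 2 := one_le_pow₀ hmn1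
  rw [e, norm_mul, Complex.norm_real, Real.norm_of_nonneg hs0]
  have b3 : ‖(A - 2 * B) + 2 * (B - D)‖ ≤ C1 * δ ^ (-(5/8) : ℝ) +
      2 * (C2 * ((m:ℝ) * n) ^ 2 * δ ^ (-(5/8) : ℝ)) := by
    refine (norm_add_le _ _).trans (add_le_add b1 ?_)
    rw [norm_mul, Complex.norm_ofNat]
    gcongr
  calc √((m:ℝ) * n) * ‖(A - 2 * B) + 2 * (B - D)‖ ≤ ((m:ℝ) * n) * (C1 * δ ^ (-(5/8) : ℝ) +
        2 * (C2 * ((m:ℝ) * n) ^ 2 * δ ^ (-(5/8) : ℝ))) := by gcongr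
    _ ≤ ((m:ℝ) * n) * (C1 * ((m:ℝ) * n) ^ 2 * δ ^ (-(5/8) : ℝ) +
        2 * (C2 * ((m:ℝ) * n) ^ 2 * δ ^ (-(5/8) : ℝ))) := by
      gcongr
      nlinarith [mul_pos hC1 hδ]
    _ = (C1 + 2 * C2) * ((m:ℝ) * n) ^ 3 * δ ^ (-(5/8) : ℝ) := by ring

end Pool.Agent.LibF4
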