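import Pool.Agent.LibF4.Defs
import Pool.Agent.LibM3.A2
import Pool.Agent.LibM3.E3
import Pool.Agent.LibZM.CS1
import Pool.Agent.LibZM.Asymp2
import Pool.Agent.LibF4.M02

/-! Fourth moment, block M, row M31. -/

set_option autoImplicit false

namespace Pool.Agent.LibF4

open MeasureTheory Set Filter Topology Complex
open scoped ComplexConjugate
open Pool.Agent.LibM3 Pool.Agent.LibZM

theorem m31_cont : Continuous fun t : ℝ => riemannZeta (crit t) := by
  have hc : Continuous fun t : ℝ => crit t := by unfold crit; fun_prop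
  rw [continuous_iff_continuousAt]
  intro t
  have h1 : crit t ≠ 1 := by
    intro h
    have := congrArg Complex.re h
    simp [crit] at this
  exact (differentiableAt_riemannZeta h1).continuousAt.comp hc.continuousAt

theorem m31_poly {η x : ℝ} (hη : 0 < η) (hx : 0 ≤ x) :
    (1 + x) ^ 4 * Real.exp (-(2 * η * x)) ≤ 720 * η⁻¹ ^ 6 * Real.exp η * (1 + x ^ 2)⁻¹ := by
  have h1 : (η * (1 + x)) ^ 6 ≤ 720 * Real.exp (η * (1 + x)) := by
    have := Real.pow_div_factorial_le_exp (η * (1 + x)) (by positivity) 6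
    have h6 : ((6 : ℕ).factorial : ℝ) = 720 := by norm_num [Nat.factorial]
    rw [h6, div_le_iff₀ (by norm_num)] at this
    linarith
  have h2 : (1 + x) ^ 4 * (1 + x ^ 2) ≤ (1 + x) ^ 6 := by
    have : 1 + x ^ 2 ≤ (1 + x) ^ 2 := by nlinarith
    calc (1 + x) ^ 4 * (1 + x ^ 2) ≤ (1 + x) ^ 4 * (1 + x) ^ 2 := by gcongr
      _ = (1 + x) ^ 6 := by ring
  have h3 : (1 + x) ^ 6 ≤ 720 * η⁻¹ ^ 6 * Real.exp (η * (1 + x)) := by
    calc (1 + x) ^ 6 = η⁻¹ ^ 6 * (η * (1 + x)) ^ 6 := by field_simp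
      _ ≤ η⁻¹ ^ 6 * (720 * Real.exp (η * (1 + x))) := by gcongr
      _ = _ := by ring
  have h4 : Real.exp (η * (1 + x)) * Real.exp (-(2 * η * x)) ≤ Real.exp η := by
    rw [← Real.exp_add]
    apply Real.exp_le_exp.mpr
    nlinarith
  have h5 : 0 < 1 + x ^ 2 := by positivity
  rw [← div_eq_mul_inv, le_div_iff₀ h5]
  calc (1 + x) ^ 4 * Real.exp (-(2 * η * x)) * (1 + x ^ 2)
      = ((1 + x) ^ 4 * (1 + x ^ 2)) * Real.exp (-(2 * η * x)) := by ring
    _ ≤ (720 * η⁻¹ ^ 6 * Real.exp (η * (1 + x))) * Real.exp (-(2 * η * x)) :=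
      mul_le_mul_of_nonneg_right (h2.trans h3) (Real.exp_pos _).le
    _ = 720 * η⁻¹ ^ 6 * (Real.exp (η * (1 + x)) * Real.exp (-(2 * η * x))) := by ring
    _ ≤ 720 * η⁻¹ ^ 6 * Real.exp η := by gcongr

theorem I4_half : ∃ C : ℝ, 0 < C ∧ ∀ δ : ℝ, 0 < δ → δ ≤ 1/4 → ∀ m n : ℕ, 1 ≤ m → 1 ≤ n →
    IntegrableOn (fun t : ℝ => ‖riemannZeta (crit t)‖ ^ 4 * Real.exp (-(2 * δ * t))) (Ioi 0) ∧
    ‖I4 δ m n - I4p δ m n‖ ≤ C := by
  obtain ⟨C, hC, hz⟩ := zeta_bd
  have hZ : ∀ t : ℝ, ‖riemannZeta (crit t)‖ ^ 4 ≤ C ^ 4 * (1 + |t|) ^ 4 := by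
    intro t
    have h1 := hz (crit t) (by simp [crit]; norm_num) (by simp [crit]; norm_num)
    have h2 : (crit t).im = t := by simp [crit]
    rw [h2] at h1
    rw [← mul_pow]
    exact pow_le_pow_left₀ (norm_nonneg _) h1 4
  have hcont := m31_cont
  set B : ℝ → ℝ := fun t => C ^ 4 * ((1 + |t|) ^ 4 * Real.exp (-|t|)) with hB
  have hBc : Continuous B := by fun_prop
  have hBi : Integrable B := by
    refine Integrable.mono' (integrable_inv_one_add_sq.const_mul
      (C ^ 4 * (720 * (1/2 : ℝ)⁻¹ ^ 6 * Real.exp (1/2)))) hBc.aestronglyMeasurable ?_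
    refine Eventually.of_forall fun t => ?_
    have h1 := m31_poly (η := 1/2) (by norm_num) (abs_nonneg t)
    rw [sq_abs, show -(2 * (1/2 : ℝ) * |t|) = -|t| by ring] at h1
    rw [Real.norm_of_nonneg (by positivity)]
    calc B t ≤ C ^ 4 * (720 * (1/2 : ℝ)⁻¹ ^ 6 * Real.exp (1/2) * (1 + t ^ 2)⁻¹) := by
          simp only [hB]; gcongr
      _ = _ := by ring
  refine ⟨(∫ t, B t) + 1, ?_, fun δ d0 d1 m n hm hn => ?_⟩
  · have : 0 ≤ ∫ t, B t := integral_nonneg fun t => by simp only [hB]; positivity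
    linarith
  have hi1 : IntegrableOn (fun t : ℝ => ‖riemannZeta (crit t)‖ ^ 4 * Real.exp (-(2 * δ * t)))
      (Ioi 0) := by
    have hmaj : IntegrableOn (fun t : ℝ => C ^ 4 * (720 * δ⁻¹ ^ 6 * Real.exp δ) * (1 + t ^ 2)⁻¹)
        (Ioi 0) := (integrable_inv_one_add_sq.const_mul _).integrableOn
    refine Integrable.mono' hmaj ?_ ?_
    · exact (by fun_prop : Continuous fun t : ℝ => ‖riemannZeta (crit t)‖ ^ 4 *
        Real.exp (-(2 * δ * t))).aestronglyMeasurable
    · refine (ae_restrict_iff' measurableSet_Ioi).mpr (Eventually.of_forall fun t ht => ?_)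
      have ht0 : (0:ℝ) < t := ht
      have h1 := m31_poly d0 ht0.le
      have h2 := hZ t
      rw [abs_of_pos ht0] at h2
      rw [Real.norm_of_nonneg (by positivity)]
      calc ‖riemannZeta (crit t)‖ ^ 4 * Real.exp (-(2 * δ * t))
          ≤ C ^ 4 * (1 + t) ^ 4 * Real.exp (-(2 * δ * t)) := by gcongr
        _ = C ^ 4 * ((1 + t) ^ 4 * Real.exp (-(2 * δ * t))) := by ring
        _ ≤ C ^ 4 * (720 * δ⁻¹ ^ 6 * Real.exp δ * (1 + t ^ 2)⁻¹) := by gcongr
        _ = _ := by ring
  refine ⟨hi1, ?_⟩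
  set E : ℝ → ℂ := fun t => cexp ((t * (Real.log m - Real.log n) : ℝ) * I) with hE
  have hEn : ∀ t, ‖E t‖ = 1 := fun t => Complex.norm_exp_ofReal_mul_I _
  have hEc : Continuous E := by fun_prop
  set f : ℝ → ℂ := fun t => ((‖riemannZeta (crit t)‖ ^ 4 * Real.exp (-(2 * δ * t)) : ℝ) : ℂ) * E t
    with hf
  set g : ℝ → ℂ := fun t => ((‖riemannZeta (crit t)‖ ^ 4 * (Real.exp (-(2 * δ * t)) /
    (1 + Real.exp (-(2 * Real.pi * t)))) : ℝ) : ℂ) * E t with hg
  have hfc : Continuous f := by fun_prop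
  have hgc : Continuous g := by
    have h0 : ∀ t : ℝ, 1 + Real.exp (-(2 * Real.pi * t)) ≠ 0 := fun t => by positivity
    have h1 : Continuous fun t : ℝ => Real.exp (-(2 * δ * t)) / (1 + Real.exp (-(2 * Real.pi * t))) :=
      Continuous.div (by fun_prop) (by fun_prop) h0
    have h2 : Continuous fun t : ℝ => ‖riemannZeta (crit t)‖ ^ 4 := by fun_prop
    exact (Complex.continuous_ofReal.comp (h2.mul h1)).mul hEc
  have hfi : IntegrableOn f (Ioi 0) := by
    refine Integrable.mono hi1 hfc.aestronglyMeasurable (Eventually.of_forall fun t => ?_)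
    rw [hf]
    simp only [norm_mul, hEn, mul_one, Complex.norm_real]
    exact le_rfl
  have hind : Integrable ((Ioi (0:ℝ)).indicator f) := by
    rw [integrable_indicator_iff measurableSet_Ioi]; exact hfi
  have hD : ∀ t, ‖g t - (Ioi (0:ℝ)).indicator f t‖ ≤ B t := by
    intro t
    by_cases ht : t ∈ Ioi (0:ℝ)
    · have ht0 : (0:ℝ) < t := ht
      rw [Set.indicator_of_mem ht]
      have e1 : g t - f t = ((‖riemannZeta (crit t)‖ ^ 4 * Real.exp (-(2 * δ * t)) *
          (-(Real.exp (-(2 * Real.pi * t)) / (1 + Real.exp (-(2 * Real.pi * t))))) : ℝ) : ℂ) * E t := by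
        have h0 : 1 + Real.exp (-(2 * Real.pi * t)) ≠ 0 := by positivity
        simp only [hf, hg]
        rw [← sub_mul, ← Complex.ofReal_sub]
        congr 2
        field_simp
        ring
      rw [e1, norm_mul, hEn, mul_one, Complex.norm_real, Real.norm_eq_abs, abs_mul, abs_neg,
        abs_of_nonneg (by positivity), abs_of_nonneg (by positivity)]
      have h1 : Real.exp (-(2 * δ * t)) ≤ 1 := Real.exp_le_one_iff.mpr (by nlinarith)
      have h2 : Real.exp (-(2 * Real.pi * t)) / (1 + Real.exp (-(2 * Real.pi * t))) ≤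
          Real.exp (-|t|) := by
        have h3 : Real.exp (-(2 * Real.pi * t)) ≤ Real.exp (-|t|) := by
          apply Real.exp_le_exp.mpr
          rw [abs_of_pos ht0]
          nlinarith [Real.pi_gt_three]
        have h4 := Real.exp_pos (-(2 * Real.pi * t))
        exact (div_le_self h4.le (by linarith)).trans h3
      calc ‖riemannZeta (crit t)‖ ^ 4 * Real.exp (-(2 * δ * t)) *
            (Real.exp (-(2 * Real.pi * t)) / (1 + Real.exp (-(2 * Real.pi * t))))
          ≤ (C ^ 4 * (1 + |t|) ^ 4) * 1 * Real.exp (-|t|) := by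
            gcongr
            exact hZ t
        _ = B t := by simp only [hB]; ring
    · have ht0 : t ≤ 0 := not_lt.mp ht
      rw [Set.indicator_of_notMem ht, sub_zero]
      simp only [hg]
      rw [norm_mul, hEn, mul_one, Complex.norm_real, Real.norm_of_nonneg (by positivity)]
      have h2 : Real.exp (-(2 * δ * t)) / (1 + Real.exp (-(2 * Real.pi * t))) ≤
          Real.exp (-|t|) := by
        have h4 := Real.exp_pos (-(2 * Real.pi * t))
        rw [div_le_iff₀ (by positivity)]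
        have h5 : Real.exp (-(2 * δ * t)) ≤ Real.exp (-|t|) * Real.exp (-(2 * Real.pi * t)) := by
          rw [← Real.exp_add]
          apply Real.exp_le_exp.mpr
          rw [abs_of_nonpos ht0]
          nlinarith [Real.pi_gt_three]
        have h6 := Real.exp_pos (-|t|)
        nlinarith
      calc ‖riemannZeta (crit t)‖ ^ 4 * (Real.exp (-(2 * δ * t)) / (1 + Real.exp (-(2 * Real.pi * t))))
          ≤ (C ^ 4 * (1 + |t|) ^ 4) * Real.exp (-|t|) := by
            gcongr
            exact hZ t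
        _ = B t := by simp only [hB]; ring
  have hDi : Integrable fun t => g t - (Ioi (0:ℝ)).indicator f t :=
    Integrable.mono' hBi (hgc.aestronglyMeasurable.sub hind.aestronglyMeasurable)
      (Eventually.of_forall hD)
  have hgi : Integrable g := by
    have := hDi.add hind
    refine this.congr (Eventually.of_forall fun t => ?_)
    simp
  have e2 : I4 δ m n - I4p δ m n = ∫ t, (g t - (Ioi (0:ℝ)).indicator f t) := by
    rw [integral_sub hgi hind, integral_indicator measurableSet_Ioi]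
    rfl
  rw [e2]
  refine (norm_integral_le_of_norm_le hBi (Eventually.of_forall hD)).trans ?_
  linarith

end Pool.Agent.LibF4
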