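import Mathlib
import Pool.Agent.LibZM.Asymp2

/-! The constant `6/π²`. -/

set_option autoImplicit false

namespace Pool.Agent.LibF4

open MeasureTheory Set Filter Topology
open Pool.Agent

theorem A2_dcoef (a : ℕ) : LibZM.dcoef 2 a = a + 1 := by
  induction a with
  | zero => simp
  | succ a ih =>
    have h := LibZM.dcoef_succ 2 a
    rw [ih] at h
    have hne : ((a : ℝ) + 1) ≠ 0 := by positivity
    push_cast
    apply mul_right_cancel₀ hne
    rw [h]
    ring

theorem Gsum_two {z : ℝ} (hz : 0 ≤ z) (hz1 : z < 1) : LibZM.Gsum 2 z = (1 + z) / (1 - z) ^ 3 := by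
  have hn : ‖z‖ < 1 := by rwa [Real.norm_of_nonneg hz]
  have h2 := hasSum_choose_mul_geometric_of_norm_lt_one 2 hn
  have h1 := hasSum_choose_mul_geometric_of_norm_lt_one 1 hn
  have h := (h2.mul_left 2).sub h1
  have hne : (1 - z) ≠ 0 := by linarith
  unfold LibZM.Gsum
  have e : (fun a : ℕ => LibZM.dcoef 2 a ^ 2 * z ^ a) = fun n : ℕ =>
      2 * (((n + 2).choose 2 : ℕ) * z ^ n) - ((n + 1).choose 1 : ℕ) * z ^ n := by
    funext n
    rw [A2_dcoef, Nat.choose_one_right, Nat.cast_choose_two]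
    push_cast
    ring
  rw [e, h.tsum_eq]
  field_simp
  ring

/-- The Euler factor at exponent two. -/
theorem A2_Efac {z : ℝ} (hz : 0 ≤ z) (hz1 : z < 1) : LibZM.Efac 2 z = 1 - z ^ 2 := by
  unfold LibZM.Efac
  rw [Gsum_two hz hz1]
  have hne : (1 - z) ≠ 0 := by linarith
  have e : ((2 : ℝ) ^ 2) = ((4 : ℕ) : ℝ) := by norm_num
  rw [e, Real.rpow_natCast]
  field_simp
  ring

/-- The function `n ↦ 1/n²`. -/
noncomputable def A2_f : ℕ →*₀ ℝ where
  toFun n := ((n : ℝ) ^ 2)⁻¹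
  map_zero' := by simp
  map_one' := by simp
  map_mul' m n := by
    push_cast
    rw [mul_pow, mul_inv]

theorem A2_f_apply (n : ℕ) : A2_f n = 1 / (n : ℝ) ^ 2 := (one_div _).symm

theorem Aconst_two : LibZM.Aconst 2 = 6 / Real.pi ^ 2 := by
  have hs := hasSum_zeta_two
  have hf : (fun n : ℕ => 1 / (n : ℝ) ^ 2) = fun n => A2_f n := by
    funext n
    rw [A2_f_apply]
  rw [hf] at hs
  have hsum : Summable fun n => ‖A2_f n‖ := hs.summable.norm
  have h := EulerProduct.eulerProduct_completely_multiplicative_hasProd hsum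
  rw [hs.tsum_eq] at h
  have hpi : Real.pi ^ 2 / 6 ≠ 0 := by positivity
  have h' : HasProd (fun p : Nat.Primes => LibZM.Efac 2 ((p : ℝ)⁻¹)) (Real.pi ^ 2 / 6)⁻¹ := by
    unfold HasProd at h ⊢
    refine (h.inv₀ hpi).congr fun s => ?_
    rw [← Finset.prod_inv_distrib]
    refine Finset.prod_congr rfl fun p _ => ?_
    have hp : (2 : ℝ) ≤ (p : ℕ) := by exact_mod_cast p.prop.two_le
    have hp1 : ((p : ℕ) : ℝ)⁻¹ < 1 := inv_lt_one_of_one_lt₀ (by linarith)
    have h3 : LibZM.Efac 2 (((p : ℕ) : ℝ)⁻¹) = 1 - A2_f (p : ℕ) := by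
      rw [A2_Efac (by positivity) hp1, A2_f_apply, inv_pow, one_div]
    rw [inv_inv]
    exact h3.symm
  unfold LibZM.Aconst
  rw [h'.tprod_eq, inv_div]

end Pool.Agent.LibF4
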