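import Mathlib
import Pool.Agent.LibM3.A1

/-! Fourth moment (FOUR genuine factors), block M: definitions. -/

set_option autoImplicit false

namespace Pool.Agent.LibF4

open MeasureTheory Set Filter Topology Complex
open scoped ComplexConjugate
open Pool.Agent.LibM3 Pool.Agent.LibZM

/-- The number of divisors. -/
noncomputable def dv (n : ℕ) : ℝ := (n.divisors.card : ℝ)

/-- The smooth cutoff `kp y = PhR (log y)`: tends to `0` at `0` and to `1` at infinity, `kp y + kp (1/y) = 1`. -/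
noncomputable def kp (y : ℝ) : ℝ := PhR (Real.log y)

/-- `z = e^{-i(π/2-δ)} = sin δ - i cos δ`. -/
noncomputable def zd (δ : ℝ) : ℂ := ((Real.sin δ : ℝ) : ℂ) - ((Real.cos δ : ℝ) : ℂ) * I

/-- `A(s) = Γ(s) ζ(s)² z^{-s}`. -/
noncomputable def Az (δ : ℝ) (s : ℂ) : ℂ :=
  Complex.Gamma s * riemannZeta s ^ 2 * cexp (s * (((Real.pi / 2 - δ : ℝ) : ℂ) * I))

/-- Inverse Mellin transform of `A` on the line `Re s = σ`. -/
noncomputable def Fl (δ σ x : ℝ) : ℂ :=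
  ((1 / (2 * Real.pi) : ℝ) : ℂ) * ∫ y : ℝ, Az δ ((σ:ℂ) + y * I) * (x:ℂ) ^ (-((σ:ℂ) + y * I))

/-- `F(x)`, the inverse Mellin transform on the critical line. -/
noncomputable def Fz (δ x : ℝ) : ℂ := Fl δ (1/2) x

/-- `S(x) = Σ d(n) e^{-nzx}`. -/
noncomputable def Sz (δ x : ℝ) : ℂ := ∑' n : ℕ, ((dv n : ℝ) : ℂ) * cexp (-((n:ℂ) * x * zd δ))

/-- `P(x) = (γ - log(zx))/(zx)`. -/
noncomputable def Pz (δ x : ℝ) : ℂ :=
  (((Real.eulerMascheroniConstant - Real.log x : ℝ) : ℂ) + ((Real.pi / 2 - δ : ℝ) : ℂ) * I) / (zd δ * x)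

/-- `Jk Λ p = ∫₀^∞ kp(Λx) e^{-px} dx`. -/
noncomputable def Jk (Λ : ℝ) (p : ℂ) : ℂ := ∫ x in Ioi (0:ℝ), ((kp (Λ * x) : ℝ) : ℂ) * cexp (-(p * x))

/-- `∫₀^∞ x^j kp(Λx) e^{-px} dx`. -/
noncomputable def Jkj (j : ℕ) (Λ : ℝ) (p : ℂ) : ℂ :=
  ∫ x in Ioi (0:ℝ), (((x ^ j * kp (Λ * x) : ℝ)) : ℂ) * cexp (-(p * x))

/-- The frequency `X sin δ - i r cos δ`. -/
noncomputable def pf (δ X r : ℝ) : ℂ := ((X * Real.sin δ : ℝ) : ℂ) - ((r * Real.cos δ : ℝ) : ℂ) * I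

/-- `Λ(m,n) = √(mn)/(2π)`. -/
noncomputable def Lam (m n : ℕ) : ℝ := √((m:ℝ) * n) / (2 * Real.pi)

/-- The twisted fourth moment with the full weight. -/
noncomputable def I4 (δ : ℝ) (m n : ℕ) : ℂ :=
  ∫ t : ℝ, ((‖riemannZeta (crit t)‖ ^ 4 * (Real.exp (-(2 * δ * t)) / (1 + Real.exp (-(2 * Real.pi * t)))) : ℝ) : ℂ) *
    cexp ((t * (Real.log m - Real.log n) : ℝ) * I)

/-- The twisted fourth moment with exponential weight on the half line. -/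
noncomputable def I4p (δ : ℝ) (m n : ℕ) : ℂ :=
  ∫ t in Ioi (0:ℝ), ((‖riemannZeta (crit t)‖ ^ 4 * Real.exp (-(2 * δ * t)) : ℝ) : ℂ) *
    cexp ((t * (Real.log m - Real.log n) : ℝ) * I)

/-- Terms of the expansion. -/
noncomputable def T4 (δ : ℝ) (m n : ℕ) (ab : ℕ × ℕ) : ℂ :=
  ((dv ab.1 * dv ab.2 : ℝ) : ℂ) *
    Jk (Lam m n) (pf δ ((ab.1:ℝ) * m + ab.2 * n) ((ab.1:ℝ) * m - ab.2 * n))

end Pool.Agent.LibF4
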