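import Mathlib

/-! Karamata polynomials. -/

set_option autoImplicit false

namespace Pool.Agent.LibF4

open MeasureTheory Set Filter Topology
open scoped Polynomial

/-- The function of Karamata's proof. -/
noncomputable def karg (x : ℝ) : ℝ := if Real.exp (-1) ≤ x then 1 / x else 0

/-- A continuous cut of `1/x` starting at `c`. -/
noncomputable def K1_phi (s c x : ℝ) : ℝ :=
  min (1 / max x (Real.exp (-1))) (max 0 (Real.exp 1 * (x - c) / s))

theorem K1_phi_cont (s c : ℝ) : Continuous (K1_phi s c) := by
  have h : ∀ x : ℝ, max x (Real.exp (-1)) ≠ 0 := fun x =>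
    (lt_of_lt_of_le (Real.exp_pos _) (le_max_right _ _)).ne'
  unfold K1_phi
  refine Continuous.min (Continuous.div continuous_const (continuous_id.max continuous_const) h) ?_
  fun_prop

theorem K1_inv_exp : 1 / Real.exp (-1) = Real.exp 1 := by
  rw [Real.exp_neg, one_div, inv_inv]

theorem K1_phi_nonneg (s c x : ℝ) : 0 ≤ K1_phi s c x := by
  have h : 0 < max x (Real.exp (-1)) := lt_of_lt_of_le (Real.exp_pos _) (le_max_right _ _)
  exact le_min (by positivity) (le_max_left _ _)

theorem K1_phi_le (s c x : ℝ) : K1_phi s c x ≤ Real.exp 1 := by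
  refine (min_le_left _ _).trans ?_
  rw [← K1_inv_exp]
  exact one_div_le_one_div_of_le (Real.exp_pos _) (le_max_right _ _)

/-- Far to the right the cut is the function `1/x`. -/
theorem K1_phi_right {s c x : ℝ} (hs : 0 < s) (hx : Real.exp (-1) ≤ x) (hc : c + s ≤ x) :
    K1_phi s c x = 1 / x := by
  unfold K1_phi
  rw [max_eq_left hx]
  apply min_eq_left
  have h0 : 0 < x := lt_of_lt_of_le (Real.exp_pos _) hx
  have h1 : 1 / x ≤ Real.exp 1 := by
    rw [← K1_inv_exp]
    exact one_div_le_one_div_of_le (Real.exp_pos _) hx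
  have h2 : Real.exp 1 ≤ Real.exp 1 * (x - c) / s := by
    rw [le_div_iff₀ hs]
    exact mul_le_mul_of_nonneg_left (by linarith) (Real.exp_pos 1).le
  exact h1.trans (h2.trans (le_max_right _ _))

/-- To the left the cut vanishes. -/
theorem K1_phi_left {s c x : ℝ} (hs : 0 < s) (hc : x ≤ c) : K1_phi s c x = 0 := by
  unfold K1_phi
  have h : 0 < max x (Real.exp (-1)) := lt_of_lt_of_le (Real.exp_pos _) (le_max_right _ _)
  rw [max_eq_left (div_nonpos_of_nonpos_of_nonneg
    (mul_nonpos_of_nonneg_of_nonpos (Real.exp_pos 1).le (by linarith)) hs.le)]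
  exact min_eq_right (by positivity)

/-- Karamata polynomials. -/
theorem kar_poly {ε : ℝ} (hε : 0 < ε) : ∃ p q : ℝ[X], (∀ x ∈ Icc (0:ℝ) 1, p.eval x ≤ karg x ∧ karg x ≤ q.eval x) ∧
    (∫ x in (0:ℝ)..1, (q.eval x - p.eval x)) ≤ ε := by
  have he := Real.exp_pos 1
  set a : ℝ := Real.exp (-1) with ha
  set s : ℝ := ε / (4 * Real.exp 1) with hs_def
  have hs : 0 < s := by positivity
  set gp : ℝ → ℝ := K1_phi s (a - s) with hgp
  set gm : ℝ → ℝ := K1_phi s a with hgm
  have cp : Continuous gp := K1_phi_cont _ _
  have cm : Continuous gm := K1_phi_cont _ _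
  have hup : ∀ x, karg x ≤ gp x := by
    intro x
    unfold karg
    split_ifs with h
    · rw [hgp, K1_phi_right hs h (by rw [ha]; linarith)]
    · exact K1_phi_nonneg _ _ _
  have hlo : ∀ x, gm x ≤ karg x := by
    intro x
    unfold karg
    split_ifs with h
    · refine (min_le_left _ _).trans ?_
      rw [max_eq_left h]
    · rw [hgm, K1_phi_left hs (le_of_lt (not_le.1 h))]
  have hind : ∀ x, gp x - gm x ≤ (Icc (a - s) (a + s)).indicator (fun _ => Real.exp 1) x := by
    intro x
    by_cases hx : x ∈ Icc (a - s) (a + s)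
    · rw [indicator_of_mem hx]
      have h1 := K1_phi_le s (a - s) x
      have h2 := K1_phi_nonneg s a x
      linarith
    · rw [indicator_of_notMem hx]
      rcases lt_or_ge x (a - s) with h | h
      · rw [hgp, hgm, K1_phi_left hs h.le, K1_phi_left hs (by linarith), sub_zero]
      · have h3 : a + s < x := by
          by_contra h4
          exact hx ⟨h, not_lt.1 h4⟩
        rw [hgp, hgm, K1_phi_right hs (by linarith) (by linarith),
          K1_phi_right hs (by linarith) (by linarith), sub_self]
  have hint : ∫ x in (0:ℝ)..1, (gp x - gm x) ≤ ε / 2 := by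
    rw [intervalIntegral.integral_of_le zero_le_one]
    have hi : Integrable ((Icc (a - s) (a + s)).indicator fun _ : ℝ => Real.exp 1) := by
      rw [integrable_indicator_iff measurableSet_Icc]
      exact integrableOn_const (by simp)
    calc ∫ x in Ioc (0:ℝ) 1, (gp x - gm x)
        ≤ ∫ x in Ioc (0:ℝ) 1, (Icc (a - s) (a + s)).indicator (fun _ => Real.exp 1) x :=
          setIntegral_mono ((cp.sub cm).integrableOn_Icc.mono_set Ioc_subset_Icc_self)
            hi.integrableOn hind
      _ ≤ ∫ x, (Icc (a - s) (a + s)).indicator (fun _ => Real.exp 1) x :=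
          setIntegral_le_integral hi (Eventually.of_forall fun x =>
            indicator_nonneg (fun _ _ => he.le) x)
      _ = ε / 2 := by
          rw [integral_indicator measurableSet_Icc, setIntegral_const, Measure.real,
            Real.volume_Icc, ENNReal.toReal_ofReal (by linarith), smul_eq_mul, hs_def]
          field_simp
          ring
  have hδ : 0 < ε / 8 := by positivity
  obtain ⟨q, hq⟩ := exists_polynomial_near_of_continuousOn 0 1 (fun x => gp x + ε / 8)
    (cp.add continuous_const).continuousOn _ hδ
  obtain ⟨p, hp⟩ := exists_polynomial_near_of_continuousOn 0 1 (fun x => gm x - ε / 8)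
    (cm.sub continuous_const).continuousOn _ hδ
  refine ⟨p, q, fun x hx => ⟨?_, ?_⟩, ?_⟩
  · have h1 := abs_lt.1 (hp x hx)
    have h2 := hlo x
    linarith [h1.2]
  · have h1 := abs_lt.1 (hq x hx)
    have h2 := hup x
    linarith [h1.1]
  · have h3 : ∫ x in (0:ℝ)..1, (q.eval x - p.eval x) ≤ ∫ x in (0:ℝ)..1, ((gp x - gm x) + ε / 2) := by
      apply intervalIntegral.integral_mono_on zero_le_one
      · exact (q.continuous.sub p.continuous).intervalIntegrable _ _
      · exact ((cp.sub cm).add continuous_const).intervalIntegrable _ _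
      · intro x hx
        have h1 := abs_lt.1 (hp x hx)
        have h2 := abs_lt.1 (hq x hx)
        linarith [h1.1, h2.2]
    have ci : IntervalIntegrable (fun x => gp x - gm x) volume 0 1 :=
      (cp.sub cm).intervalIntegrable _ _
    rw [intervalIntegral.integral_add ci
      (continuous_const.intervalIntegrable _ _), intervalIntegral.integral_const] at h3
    simp only [sub_zero, smul_eq_mul, one_mul] at h3
    linarith

end Pool.Agent.LibF4
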