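import Mathlib
import Pool.Agent.LibF4.K1

/-! Karamata's theorem with errors. -/

set_option autoImplicit false

namespace Pool.Agent.LibF4

open MeasureTheory Set Filter Topology
open scoped Polynomial

/-- The integral of a polynomial over the unit interval. -/
theorem K2_int (r : ℝ[X]) {N : ℕ} (hN : r.natDegree < N) :
    ∫ x in (0:ℝ)..1, r.eval x = ∑ i ∈ Finset.range N, r.coeff i * (1 / ((i + 1 : ℕ) : ℝ)) := by
  have h : ∀ x : ℝ, r.eval x = ∑ i ∈ Finset.range N, r.coeff i * x ^ i := fun x =>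
    Polynomial.eval_eq_sum_range' hN x
  simp only [h]
  rw [intervalIntegral.integral_finsetSum]
  · refine Finset.sum_congr rfl fun i _ => ?_
    rw [intervalIntegral.integral_const_mul, integral_pow]
    simp
  · intro i _
    exact (continuous_const.mul (continuous_pow i)).intervalIntegrable _ _

theorem K2_term (x : ℝ) (r : ℝ[X]) {N : ℕ} (hN : r.natDegree < N) (g : ℝ) :
    g * (x * r.eval x) = ∑ i ∈ Finset.range N, r.coeff i * (g * x ^ (i + 1)) := by
  rw [Polynomial.eval_eq_sum_range' hN x, Finset.mul_sum, Finset.mul_sum]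
  exact Finset.sum_congr rfl fun i _ => by ring

/-- The average of `G` against a polynomial in `exp(-t/T)`. -/
theorem K2_avg {G : ℝ → ℝ} {T M K η : ℝ} {N : ℕ}
    (hi : ∀ j ∈ Finset.Icc 1 N, IntegrableOn (fun t => G t * Real.exp (-((j:ℝ) * t / T))) (Ioi 0))
    (hb : ∀ j ∈ Finset.Icc 1 N, |(1 / T) * (∫ t in Ioi (0:ℝ), G t * Real.exp (-((j:ℝ) * t / T))) -
      M / j| ≤ η * K) (r : ℝ[X]) (hN : r.natDegree < N) :
    IntegrableOn (fun t => G t * (Real.exp (-(t / T)) * r.eval (Real.exp (-(t / T))))) (Ioi 0) ∧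
    |(1 / T) * (∫ t in Ioi (0:ℝ), G t * (Real.exp (-(t / T)) * r.eval (Real.exp (-(t / T))))) -
      M * ∫ x in (0:ℝ)..1, r.eval x| ≤ (∑ i ∈ Finset.range N, |r.coeff i|) * (η * K) := by
  have hex : ∀ (t : ℝ) (i : ℕ), Real.exp (-(t / T)) ^ (i + 1) =
      Real.exp (-(((i + 1 : ℕ) : ℝ) * t / T)) := by
    intro t i
    rw [← Real.exp_nat_mul]
    congr 1
    ring
  have hfun : (fun t => G t * (Real.exp (-(t / T)) * r.eval (Real.exp (-(t / T))))) =
      fun t => ∑ i ∈ Finset.range N,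
        r.coeff i * (G t * Real.exp (-(((i + 1 : ℕ) : ℝ) * t / T))) := by
    funext t
    rw [K2_term _ r hN]
    exact Finset.sum_congr rfl fun i _ => by rw [hex]
  have hmem : ∀ i ∈ Finset.range N, i + 1 ∈ Finset.Icc 1 N := by
    intro i h
    rw [Finset.mem_range] at h
    rw [Finset.mem_Icc]
    omega
  have hint : ∀ i ∈ Finset.range N, IntegrableOn (fun t => r.coeff i *
      (G t * Real.exp (-(((i + 1 : ℕ) : ℝ) * t / T)))) (Ioi 0) := fun i h =>
    (hi _ (hmem i h)).const_mul _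
  rw [hfun]
  constructor
  · exact integrable_finsetSum _ hint
  · rw [integral_finsetSum _ hint, K2_int r hN, Finset.mul_sum, Finset.mul_sum,
      ← Finset.sum_sub_distrib, Finset.sum_mul]
    refine (Finset.abs_sum_le_sum_abs _ _).trans (Finset.sum_le_sum fun i h => ?_)
    rw [integral_const_mul]
    have e : 1 / T * (r.coeff i * ∫ t in Ioi (0:ℝ),
        G t * Real.exp (-(((i + 1 : ℕ) : ℝ) * t / T))) - M * (r.coeff i * (1 / ((i + 1 : ℕ) : ℝ))) =
        r.coeff i * ((1 / T) * (∫ t in Ioi (0:ℝ),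
          G t * Real.exp (-(((i + 1 : ℕ) : ℝ) * t / T))) - M / ((i + 1 : ℕ) : ℝ)) := by ring
    rw [e, abs_mul]
    exact mul_le_mul_of_nonneg_left (hb _ (hmem i h)) (abs_nonneg _)

/-- The integral of `1/x` over `[1/e, 1]`. -/
theorem K2_log : ∫ x in (Real.exp (-1))..1, 1 / x = 1 := by
  rw [integral_one_div_of_pos (Real.exp_pos _) one_pos, Real.log_div one_ne_zero
    (Real.exp_pos _).ne', Real.log_one, Real.log_exp]
  ring

theorem K2_exp_le : Real.exp (-1) ≤ 1 := by
  rw [Real.exp_le_one_iff]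
  norm_num

theorem K2_split (r : ℝ[X]) : ∫ x in (0:ℝ)..1, r.eval x =
    (∫ x in (0:ℝ)..(Real.exp (-1)), r.eval x) + ∫ x in (Real.exp (-1))..1, r.eval x :=
  (intervalIntegral.integral_add_adjacent_intervals (r.continuous.intervalIntegrable _ _)
    (r.continuous.intervalIntegrable _ _)).symm

theorem K2_ii : IntervalIntegrable (fun x : ℝ => 1 / x) volume (Real.exp (-1)) 1 := by
  apply intervalIntegral.intervalIntegrable_one_div
  · intro x hx
    rw [uIcc_of_le K2_exp_le] at hx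
    exact (lt_of_lt_of_le (Real.exp_pos _) hx.1).ne'
  · exact continuousOn_id

theorem K2_up {q : ℝ[X]} (h : ∀ x ∈ Icc (0:ℝ) 1, karg x ≤ q.eval x) :
    1 ≤ ∫ x in (0:ℝ)..1, q.eval x := by
  rw [K2_split]
  have h1 : 0 ≤ ∫ x in (0:ℝ)..(Real.exp (-1)), q.eval x := by
    apply intervalIntegral.integral_nonneg (Real.exp_pos _).le
    intro x hx
    refine le_trans ?_ (h x ⟨hx.1, hx.2.trans K2_exp_le⟩)
    unfold karg
    split_ifs with h0
    · exact one_div_nonneg.2 hx.1
    · exact le_rfl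
  have h2 : ∫ x in (Real.exp (-1))..1, 1 / x ≤ ∫ x in (Real.exp (-1))..1, q.eval x := by
    apply intervalIntegral.integral_mono_on K2_exp_le K2_ii (q.continuous.intervalIntegrable _ _)
    intro x hx
    have h3 := h x ⟨(Real.exp_pos _).le.trans hx.1, hx.2⟩
    rwa [karg, if_pos hx.1] at h3
  rw [K2_log] at h2
  linarith

theorem K2_lo {p : ℝ[X]} (h : ∀ x ∈ Icc (0:ℝ) 1, p.eval x ≤ karg x) :
    ∫ x in (0:ℝ)..1, p.eval x ≤ 1 := by
  rw [K2_split]
  have h1 : ∫ x in (0:ℝ)..(Real.exp (-1)), p.eval x ≤ ∫ x in (0:ℝ)..(Real.exp (-1)), (0:ℝ) := by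
    apply intervalIntegral.integral_mono_on_of_le_Ioo (Real.exp_pos _).le
      (p.continuous.intervalIntegrable _ _) (continuous_const.intervalIntegrable _ _)
    intro x hx
    refine (h x ⟨hx.1.le, hx.2.le.trans K2_exp_le⟩).trans ?_
    rw [karg, if_neg (not_le.2 hx.2)]
  have h2 : ∫ x in (Real.exp (-1))..1, p.eval x ≤ ∫ x in (Real.exp (-1))..1, 1 / x := by
    apply intervalIntegral.integral_mono_on K2_exp_le (p.continuous.intervalIntegrable _ _) K2_ii
    intro x hx
    have h3 := h x ⟨(Real.exp_pos _).le.trans hx.1, hx.2⟩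
    rwa [karg, if_pos hx.1] at h3
  rw [K2_log] at h2
  rw [intervalIntegral.integral_zero] at h1
  linarith

/-- `x * karg x` at `x = exp(-t/T)` is the indicator of `t ≤ T`. -/
theorem K2_ind {t T : ℝ} (hT : 0 < T) :
    Real.exp (-(t / T)) * karg (Real.exp (-(t / T))) = if t ≤ T then 1 else 0 := by
  unfold karg
  have h : Real.exp (-1) ≤ Real.exp (-(t / T)) ↔ t ≤ T := by
    rw [Real.exp_le_exp, neg_le_neg_iff, div_le_one hT]
  by_cases h1 : t ≤ T
  · rw [if_pos (h.2 h1), if_pos h1, mul_one_div_cancel (Real.exp_pos _).ne']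
  · rw [if_neg (fun h2 => h1 (h.1 h2)), if_neg h1, mul_zero]

/-- Karamata's theorem with errors. -/
theorem karamata {ε : ℝ} (hε : 0 < ε) : ∃ (N : ℕ) (η : ℝ), 0 < η ∧ ∀ (G : ℝ → ℝ) (T M K : ℝ), 0 < T → 0 ≤ M → M ≤ K →
    Continuous G → (∀ t, 0 ≤ G t) →
    (∀ j ∈ Finset.Icc 1 N, IntegrableOn (fun t => G t * Real.exp (-((j:ℝ) * t / T))) (Ioi 0)) →
    (∀ j ∈ Finset.Icc 1 N, |(1 / T) * (∫ t in Ioi (0:ℝ), G t * Real.exp (-((j:ℝ) * t / T))) - M / j| ≤ η * K) →
    |(1 / T) * (∫ t in (0:ℝ)..T, G t) - M| ≤ ε * K := by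
  obtain ⟨p, q, hpq, hint⟩ := kar_poly (half_pos hε)
  set N := max p.natDegree q.natDegree + 1 with hN
  have hp : p.natDegree < N := by omega
  have hq : q.natDegree < N := by omega
  set Sp := ∑ i ∈ Finset.range N, |p.coeff i| with hSp
  set Sq := ∑ i ∈ Finset.range N, |q.coeff i| with hSq
  have hSp0 : 0 ≤ Sp := Finset.sum_nonneg fun i _ => abs_nonneg _
  have hSq0 : 0 ≤ Sq := Finset.sum_nonneg fun i _ => abs_nonneg _
  have hS : 0 < 1 + Sp + Sq := by linarith
  refine ⟨N, (ε / 2) / (1 + Sp + Sq), by positivity, ?_⟩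
  intro G T M K hT hM hMK hG hG0 hi hb
  have hK : 0 ≤ K := hM.trans hMK
  obtain ⟨ip, bp⟩ := K2_avg hi hb p hp
  obtain ⟨iq, bq⟩ := K2_avg hi hb q hq
  have hup := K2_up (q := q) fun x hx => (hpq x hx).2
  have hlo := K2_lo (p := p) fun x hx => (hpq x hx).1
  rw [intervalIntegral.integral_sub (q.continuous.intervalIntegrable _ _)
    (p.continuous.intervalIntegrable _ _)] at hint
  have hGi : ∫ t in (0:ℝ)..T, G t = ∫ t in Ioi (0:ℝ), G t * (if t ≤ T then 1 else 0) := by
    rw [intervalIntegral.integral_of_le hT.le]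
    have h1 : (fun t => G t * (if t ≤ T then (1:ℝ) else 0)) = (Iic T).indicator G := by
      funext t
      by_cases h : t ≤ T
      · rw [if_pos h, mul_one, indicator_of_mem (mem_Iic.2 h)]
      · rw [if_neg h, mul_zero, indicator_of_notMem (fun h2 => h (mem_Iic.1 h2))]
    rw [h1, setIntegral_indicator measurableSet_Iic, Ioi_inter_Iic]
  have hmid : IntegrableOn (fun t => G t * (if t ≤ T then (1:ℝ) else 0)) (Ioi 0) := by
    have h1 : (fun t => G t * (if t ≤ T then (1:ℝ) else 0)) = (Iic T).indicator G := by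
      funext t
      by_cases h : t ≤ T
      · rw [if_pos h, mul_one, indicator_of_mem (mem_Iic.2 h)]
      · rw [if_neg h, mul_zero, indicator_of_notMem (fun h2 => h (mem_Iic.1 h2))]
    rw [h1]
    rw [IntegrableOn, integrable_indicator_iff measurableSet_Iic, IntegrableOn,
      Measure.restrict_restrict measurableSet_Iic, inter_comm, Ioi_inter_Iic]
    exact hG.integrableOn_Icc.mono_set Ioc_subset_Icc_self
  have hx : ∀ t : ℝ, 0 < t → Real.exp (-(t / T)) ∈ Icc (0:ℝ) 1 := fun t ht =>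
    ⟨(Real.exp_pos _).le, Real.exp_le_one_iff.2 (by have := div_pos ht hT; linarith)⟩
  have hle1 : ∫ t in Ioi (0:ℝ), G t * (if t ≤ T then 1 else 0) ≤
      ∫ t in Ioi (0:ℝ), G t * (Real.exp (-(t / T)) * q.eval (Real.exp (-(t / T)))) := by
    apply setIntegral_mono_on hmid iq measurableSet_Ioi
    intro t ht
    refine mul_le_mul_of_nonneg_left ?_ (hG0 t)
    rw [← K2_ind hT]
    exact mul_le_mul_of_nonneg_left (hpq _ (hx t ht)).2 (Real.exp_pos _).le
  have hle2 : ∫ t in Ioi (0:ℝ), G t * (Real.exp (-(t / T)) * p.eval (Real.exp (-(t / T)))) ≤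
      ∫ t in Ioi (0:ℝ), G t * (if t ≤ T then 1 else 0) := by
    apply setIntegral_mono_on ip hmid measurableSet_Ioi
    intro t ht
    refine mul_le_mul_of_nonneg_left ?_ (hG0 t)
    rw [← K2_ind hT]
    exact mul_le_mul_of_nonneg_left (hpq _ (hx t ht)).1 (Real.exp_pos _).le
  rw [← hGi] at hle1 hle2
  have hT1 : 0 ≤ 1 / T := by positivity
  have hle1' := mul_le_mul_of_nonneg_left hle1 hT1
  have hle2' := mul_le_mul_of_nonneg_left hle2 hT1
  have hη : Sp * ((ε / 2) / (1 + Sp + Sq) * K) ≤ ε / 2 * K := by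
    have h1 : Sp * ((ε / 2) / (1 + Sp + Sq) * K) = (ε / 2 * K) * (Sp / (1 + Sp + Sq)) := by ring
    rw [h1]
    refine mul_le_of_le_one_right (by positivity) ?_
    rw [div_le_one hS]
    linarith
  have hη' : Sq * ((ε / 2) / (1 + Sp + Sq) * K) ≤ ε / 2 * K := by
    have h1 : Sq * ((ε / 2) / (1 + Sp + Sq) * K) = (ε / 2 * K) * (Sq / (1 + Sp + Sq)) := by ring
    rw [h1]
    refine mul_le_of_le_one_right (by positivity) ?_
    rw [div_le_one hS]
    linarith
  have bp' := (abs_le.1 bp).1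
  have bq' := (abs_le.1 bq).2
  have e1 : M * ∫ x in (0:ℝ)..1, q.eval x ≤ M + ε / 2 * K := by
    have h1 : M * ∫ x in (0:ℝ)..1, q.eval x ≤ M * (1 + ε / 2) :=
      mul_le_mul_of_nonneg_left (by linarith) hM
    nlinarith [mul_le_mul_of_nonneg_left hMK (half_pos hε).le]
  have e2 : M - ε / 2 * K ≤ M * ∫ x in (0:ℝ)..1, p.eval x := by
    have h1 : M * (1 - ε / 2) ≤ M * ∫ x in (0:ℝ)..1, p.eval x :=
      mul_le_mul_of_nonneg_left (by linarith) hM
    nlinarith [mul_le_mul_of_nonneg_left hMK (half_pos hε).le]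
  rw [abs_le]
  constructor
  · linarith
  · linarith

end Pool.Agent.LibF4
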