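import Pool.Agent.LibF4.Defs
import Pool.Agent.LibM3.A2
import Pool.Agent.LibM3.E3
import Pool.Agent.LibZM.CS1
import Pool.Agent.LibZM.Asymp2
import Pool.Agent.LibF4.M01

/-! Fourth moment, block M, row M23. -/

set_option autoImplicit false

namespace Pool.Agent.LibF4

open MeasureTheory Set Filter Topology Complex
open scoped ComplexConjugate
open Pool.Agent.LibM3 Pool.Agent.LibZM

theorem m23_cont (j : ℕ) {Λ : ℝ} (hΛ : 0 < Λ) (q : ℂ) :
    ContinuousOn (fun x : ℝ => (((x ^ j * kp (Λ * x) : ℝ)) : ℂ) * cexp (-(q * x))) (Ioi 0) := by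
  have h1 : ContinuousOn (fun x : ℝ => kp (Λ * x)) (Ioi 0) := by
    refine kp_cont.comp (by fun_prop) ?_
    intro x hx
    exact mul_pos hΛ hx
  have h2 : ContinuousOn (fun x : ℝ => x ^ j * kp (Λ * x)) (Ioi 0) :=
    ContinuousOn.mul (by fun_prop) h1
  have h3 : ContinuousOn (fun x : ℝ => (((x ^ j * kp (Λ * x) : ℝ)) : ℂ)) (Ioi 0) :=
    Complex.continuous_ofReal.comp_continuousOn h2
  exact h3.mul (by fun_prop)

theorem m23_norm (j : ℕ) {Λ : ℝ} (q : ℂ) {b x : ℝ} (hx : 0 < x) (hq : b ≤ q.re) :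
    ‖(((x ^ j * kp (Λ * x) : ℝ)) : ℂ) * cexp (-(q * x))‖ ≤ x ^ (j : ℝ) * Real.exp (-b * x ^ (1 : ℝ)) := by
  rw [norm_mul, Complex.norm_real, Complex.norm_exp, Real.norm_eq_abs, abs_mul,
    abs_of_nonneg (pow_nonneg hx.le j), abs_of_nonneg (kp_mem (Λ * x)).1, Real.rpow_one,
    Real.rpow_natCast]
  have h1 : (-(q * x)).re = -(q.re * x) := by simp
  rw [h1]
  have h2 : Real.exp (-(q.re * x)) ≤ Real.exp (-b * x) := by
    apply Real.exp_le_exp.mpr
    nlinarith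
  have h3 : x ^ j * kp (Λ * x) ≤ x ^ j := by
    have := mul_le_mul_of_nonneg_left (kp_mem (Λ * x)).2 (pow_nonneg hx.le j)
    rwa [mul_one] at this
  exact mul_le_mul h3 h2 (Real.exp_nonneg _) (pow_nonneg hx.le j)

theorem m23_int (j : ℕ) {b : ℝ} (hb : 0 < b) :
    IntegrableOn (fun x : ℝ => x ^ (j : ℝ) * Real.exp (-b * x ^ (1 : ℝ))) (Ioi 0) := by
  refine integrableOn_rpow_mul_exp_neg_mul_rpow ?_ one_pos hb
  have : (0 : ℝ) ≤ j := Nat.cast_nonneg j
  linarith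

theorem m23_meas (j : ℕ) {Λ : ℝ} (hΛ : 0 < Λ) (q : ℂ) :
    AEStronglyMeasurable (fun x : ℝ => (((x ^ j * kp (Λ * x) : ℝ)) : ℂ) * cexp (-(q * x)))
      (volume.restrict (Ioi 0)) :=
  (m23_cont j hΛ q).aestronglyMeasurable measurableSet_Ioi

theorem m23_integrable (j : ℕ) {Λ : ℝ} (hΛ : 0 < Λ) {q : ℂ} (hq : 0 < q.re) :
    Integrable (fun x : ℝ => (((x ^ j * kp (Λ * x) : ℝ)) : ℂ) * cexp (-(q * x)))
      (volume.restrict (Ioi 0)) := by
  refine Integrable.mono' (m23_int j hq) (m23_meas j hΛ q) ?_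
  filter_upwards [ae_restrict_mem measurableSet_Ioi] with x hx
  exact m23_norm j q hx le_rfl

theorem Jkj_deriv (j : ℕ) {Λ : ℝ} (hΛ : 0 < Λ) {p : ℂ} (hp : 0 < p.re) :
    HasDerivAt (Jkj j Λ) (-(Jkj (j + 1) Λ p)) p := by
  have hs : Metric.ball p (p.re / 2) ∈ 𝓝 p := Metric.ball_mem_nhds p (by linarith)
  have hball : ∀ q ∈ Metric.ball p (p.re / 2), p.re / 2 ≤ q.re := by
    intro q hq
    have h1 : ‖q - p‖ < p.re / 2 := by rwa [← dist_eq_norm]
    have h2 : |(q - p).re| ≤ ‖q - p‖ := Complex.abs_re_le_norm _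
    rw [Complex.sub_re] at h2
    have h3 := neg_abs_le (q.re - p.re)
    linarith
  have key := hasDerivAt_integral_of_dominated_loc_of_deriv_le (μ := volume.restrict (Ioi 0))
    (F := fun (q : ℂ) (x : ℝ) => (((x ^ j * kp (Λ * x) : ℝ)) : ℂ) * cexp (-(q * x)))
    (x₀ := p) (s := Metric.ball p (p.re / 2))
    (bound := fun x => x ^ (((j + 1 : ℕ)) : ℝ) * Real.exp (-(p.re / 2) * x ^ (1 : ℝ))) hs
    (Filter.Eventually.of_forall fun q => m23_meas j hΛ q) (m23_integrable j hΛ hp)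
    (F' := fun (q : ℂ) (x : ℝ) => -((((x ^ (j + 1) * kp (Λ * x) : ℝ)) : ℂ) * cexp (-(q * x))))
    (m23_meas (j + 1) hΛ p).neg ?_ (m23_int (j + 1) (by linarith)) ?_
  · have h := key.2
    rw [integral_neg] at h
    exact h
  · filter_upwards [ae_restrict_mem measurableSet_Ioi] with x hx
    intro q hq
    rw [norm_neg]
    exact m23_norm (j + 1) q hx (hball q hq)
  · filter_upwards [ae_restrict_mem measurableSet_Ioi] with x hx
    intro q _
    have h1 : HasDerivAt (fun q : ℂ => -(q * (x : ℂ))) (-(1 * (x : ℂ))) q :=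
      ((hasDerivAt_id q).mul_const (x : ℂ)).neg
    have h2 := (h1.cexp).const_mul (((x ^ j * kp (Λ * x) : ℝ)) : ℂ)
    refine h2.congr_deriv ?_
    push_cast
    ring

end Pool.Agent.LibF4
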