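import Pool.Agent.LibF4.M15
import Pool.Agent.LibF4.M21
import Pool.Agent.LibF4.M22
import Pool.Agent.LibF4.M23
import Pool.Agent.LibF4.M24
import Pool.Agent.LibF4.M30
import Pool.Agent.LibF4.M31
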