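import Mathlib
import Pool.Agent.LibF4.Defs
import Pool.Agent.LibF4D.DDefs

/-! Twisted fourth moment, block O: main terms. Definitions. -/

set_option autoImplicit false

namespace Pool.Agent.LibF4

open MeasureTheory Set Filter Topology Complex
open scoped ComplexConjugate

/-- `p ^ -(β - α + z)` -/
noncomputable def py (α β z : ℂ) (p : ℕ) : ℂ := (p : ℂ) ^ (-(β - α + z))

/-- `p ^ -(1 + s + z)` -/
noncomputable def px (s z : ℂ) (p : ℕ) : ℂ := (p : ℂ) ^ (-(1 + s + z))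

/-- Local factor of the off-diagonal functional at `p ^ j`, with `y = py`, `x = px (α+β) z`, `q = px (α+β) (-z)`. -/
noncomputable def Fp (α β z : ℂ) (p j : ℕ) : ℂ :=
  (∑ i ∈ Finset.range (j + 1), py α β z p ^ i -
    (px (α + β) z p + px (α + β) (-z) p * py α β z p) * ∑ i ∈ Finset.range j, py α β z p ^ i +
    px (α + β) (-z) p * px (α + β) z p * py α β z p * ∑ i ∈ Finset.range (j - 1), py α β z p ^ i) /
  (1 - px (α + β) z p * px (α + β) (-z) p)

/-- product of the local factors, `m`, `n` coprime -/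
noncomputable def FF (m n : ℕ) (α β z : ℂ) : ℂ :=
  (∏ p ∈ m.primeFactors, Fp α β z p (m.factorization p)) * ∏ p ∈ n.primeFactors, Fp β α z p (n.factorization p)

/-- the off-diagonal functional, `m`, `n` coprime -/
noncomputable def JF (m n : ℕ) (α β z : ℂ) : ℂ :=
  (m : ℂ) ^ (-α) * (n : ℂ) ^ (-β) * ((m * n : ℕ) : ℂ) ^ ((z - 1) / 2) * FF m n α β z

/-- local factors of the diagonal functional -/
noncomputable def DD (m n : ℕ) (z : ℂ) : ℂ :=
  ∏ p ∈ (m * n).primeFactors,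
    (1 + ((m * n).factorization p : ℂ) * (1 - (p : ℂ) ^ (-(1 + z))) / (1 + (p : ℂ) ^ (-(1 + z))))

/-- the diagonal functional -/
noncomputable def JD (m n : ℕ) (z : ℂ) : ℂ := ((m * n : ℕ) : ℂ) ^ (-(1 + z) / 2) * DD m n z

/-- average over the circle of radius `ρ` -/
noncomputable def Av (ρ : ℝ) (h : ℂ → ℂ) : ℂ :=
  ((1 / (2 * Real.pi) : ℝ) : ℂ) * ∫ θ in (0 : ℝ)..(2 * Real.pi), h (ρ * cexp (θ * I))

/-- integral over the vertical line, normalised -/
noncomputable def VL (c : ℝ) (h : ℂ → ℂ) : ℂ := ((1 / (2 * Real.pi) : ℝ) : ℂ) * ∫ y : ℝ, h ((c : ℂ) + y * I)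

/-- the kernel with `Av ρ (fun α => wk α * Y ^ α) = log Y + 2γ` -/
noncomputable def wk (α : ℂ) : ℂ := 1 / α + 2 * (Real.eulerMascheroniConstant : ℝ)

/-- the smooth weights that occur -/
noncomputable def fe (δ : ℝ) (m n : ℕ) (r e : ℝ) (y : ℝ) : ℂ := Jk (Lam m n) (pf δ (2 * y + r) e)

/-- the main part of the off-diagonal terms -/
noncomputable def OM (δ : ℝ) (m n : ℕ) : ℂ :=
  ∑' r : ℕ, (LibF4D.MM m n (r + 1) (fe δ m n 0 (r + 1)) + LibF4D.MM n m (r + 1) (fe δ m n 0 (-(r + 1))))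

/-- constant factor in front of the off-diagonal terms -/
noncomputable def cs (δ : ℝ) (s : ℂ) : ℂ :=
  Complex.Gamma (1 + s) * ((2 * Real.sin δ : ℝ) : ℂ) ^ (-1 - s) * ((2 * Real.pi : ℝ) : ℂ) ^ (-s) / riemannZeta (2 + 2 * s)

/-- kernel of the off-diagonal terms without the functional -/
noncomputable def Kz (s z : ℂ) : ℂ := cexp (z ^ 2) / z * riemannZeta (1 + s - z) * riemannZeta (1 + s + z)

/-- kernel of the diagonal terms without the functional -/
noncomputable def Dz (δ : ℝ) (z : ℂ) : ℂ :=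
  cexp (z ^ 2) / z * Complex.Gamma (1 + z) * ((4 * Real.pi * Real.sin δ : ℝ) : ℂ) ^ (-z) * riemannZeta (1 + z) ^ 4 /
    riemannZeta (2 + 2 * z)

/-- the integrand on the line for a fixed `r` -/
noncomputable def Rz (δ Λ r : ℝ) (s z : ℂ) : ℂ :=
  cexp (z ^ 2) * (Λ:ℂ) ^ z * Complex.Gamma (z - s) * (2 * Complex.cos (Real.pi * (z - s) / 2)) *
    ((r * Real.cos δ : ℝ) : ℂ) ^ (-(z - s)) / z

/-- functionals with the symmetry of the off-diagonal terms -/
structure OddJ (J : ℂ → ℂ → ℂ → ℂ) (B : ℝ) : Prop where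
  diff : ∀ α β : ℂ, ‖α‖ ≤ 1/8 → ‖β‖ ≤ 1/8 → Differentiable ℂ (fun z => J α β z)
  cont : ContinuousOn (fun p : ℂ × ℂ × ℂ => J p.1 p.2.1 p.2.2)
    (Metric.closedBall 0 (1/8) ×ˢ (Metric.closedBall 0 (1/8) ×ˢ univ))
  symm : ∀ α β z : ℂ, J α β (-z) = J β α z
  bd : ∀ α β z : ℂ, ‖α‖ ≤ 1/8 → ‖β‖ ≤ 1/8 → |z.re| ≤ 3/2 → ‖J α β z‖ ≤ B

end Pool.Agent.LibF4
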