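import Mathlib
import Pool.Agent.LibF4.ODefs
import Pool.Agent.LibF4.M22
import Pool.Agent.LibF4.M23

/-! Row O01.
p = pf δ (2y+r) e = (2y+r) sin δ - i e cos δ, Re p > 0. |p| ≥ |e| cos δ ≥ r/2 (δ ≤ 1/4) and |p| ≥ 2 y sin δ ≥ y δ; r ≥ 1, so 1 + yδ ≤ 3|p|, hence |p|^{-4} ≤ (3X/(X+y))^4 with X = 1/δ.
Jkj_bd with c = 13: |Jkj j| ≤ C Λ^13 |p|^{-(14+j)}; (2 y sin δ)^j ≤ |p|^j·(1) so y^j |f_j| ≤ C Λ^13 |p|^{-14} ≤ C Λ^13 (2/r)^{10} 81 Wt X y; Λ = √(mn)/2π, Λ^13 ≤ (mn)^7.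
Derivatives: chain rule with Jkj_deriv 0, 1 (Jkj 0 = Jk by simp [Jkj, Jk]). Continuity of f2 from differentiability (Jkj_deriv 2).
-/

set_option autoImplicit false

namespace Pool.Agent.LibF4

open MeasureTheory Set Filter Topology Complex
open scoped ComplexConjugate

theorem O01_bd (j : ℕ) : ∃ C : ℝ, 0 < C ∧ ∀ Λ : ℝ, 0 < Λ → ∀ p : ℂ, 0 < p.re →
    ‖Jkj j Λ p‖ * ‖p‖ ^ j ≤ C * Λ ^ 13 * (‖p‖ ^ 14)⁻¹ := by
  obtain ⟨C, hC, h⟩ := Jkj_bd j (c := 13) (by norm_num)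
  refine ⟨C, hC, fun Λ hΛ p hp => ?_⟩
  have hn : 0 < ‖p‖ := norm_pos_iff.2 (by rintro rfl; simp at hp)
  have h1 := h Λ hΛ p hp
  have h2 : (-(1 + (j : ℝ) + 13)) = -(((14 + j : ℕ)) : ℝ) := by
    push_cast
    ring
  have h3 : Λ ^ (13 : ℝ) = Λ ^ 13 := by exact_mod_cast Real.rpow_natCast Λ 13
  rw [h2, Real.rpow_neg hn.le, Real.rpow_natCast, h3] at h1
  refine (mul_le_mul_of_nonneg_right h1 (pow_nonneg hn.le j)).trans (le_of_eq ?_)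
  rw [pow_add]
  field_simp

theorem O01_Jk0 (Λ : ℝ) (p : ℂ) : Jkj 0 Λ p = Jk Λ p := by
  simp [Jkj, Jk]

theorem O01_pf_re (δ X r : ℝ) : (pf δ X r).re = X * Real.sin δ := by
  simp [pf, -Complex.ofReal_mul]

theorem O01_pf_im (δ X r : ℝ) : (pf δ X r).im = -(r * Real.cos δ) := by
  simp [pf, -Complex.ofReal_mul]

theorem O01_sin {δ : ℝ} (h0 : 0 < δ) (h1 : δ ≤ 1 / 4) : δ / 2 ≤ Real.sin δ := by
  have h2 := Real.mul_le_sin h0.le (by linarith [Real.pi_gt_three])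
  refine le_trans ?_ h2
  rw [div_mul_eq_mul_div, div_le_div_iff₀ two_pos Real.pi_pos]
  nlinarith [Real.pi_le_four]

theorem O01_cos {δ : ℝ} (h0 : 0 < δ) (h1 : δ ≤ 1 / 4) : 1 / 2 ≤ Real.cos δ := by
  have h2 := Real.one_sub_sq_div_two_le_cos (x := δ)
  nlinarith

theorem O01_deriv (δ r e y : ℝ) :
    HasDerivAt (fun y : ℝ => pf δ (2 * y + r) e) (((2 * Real.sin δ : ℝ)) : ℂ) y := by
  unfold pf
  have h1 : HasDerivAt (fun y : ℝ => (2 * y + r) * Real.sin δ) (2 * Real.sin δ) y := by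
    have h2 := (((hasDerivAt_id y).const_mul 2).add_const r).mul_const (Real.sin δ)
    simpa using h2
  exact h1.ofReal_comp.sub_const _

/-- the lower bounds for `p` -/
theorem O01_low {δ r e y : ℝ} (h0 : 0 < δ) (h1 : δ ≤ 1 / 4) (hr : 1 ≤ r) (he : |e| = r)
    (hy : 0 < y) : 0 < (pf δ (2 * y + r) e).re ∧ r ≤ 2 * ‖pf δ (2 * y + r) e‖ ∧
      y * (2 * Real.sin δ) ≤ ‖pf δ (2 * y + r) e‖ ∧ 1 + y * δ ≤ 3 * ‖pf δ (2 * y + r) e‖ := by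
  have hs := O01_sin h0 h1
  have hc := O01_cos h0 h1
  have hs0 : 0 < Real.sin δ := by linarith
  have hre : 0 < (pf δ (2 * y + r) e).re := by
    rw [O01_pf_re]
    positivity
  have ha : r ≤ 2 * ‖pf δ (2 * y + r) e‖ := by
    have h2 := Complex.abs_im_le_norm (pf δ (2 * y + r) e)
    rw [O01_pf_im, abs_neg, abs_mul, he, abs_of_nonneg (by linarith : (0 : ℝ) ≤ Real.cos δ)] at h2
    nlinarith
  have hb : y * (2 * Real.sin δ) ≤ ‖pf δ (2 * y + r) e‖ := by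
    have h2 := Complex.abs_re_le_norm (pf δ (2 * y + r) e)
    rw [abs_of_pos hre, O01_pf_re] at h2
    nlinarith
  refine ⟨hre, ha, hb, ?_⟩
  nlinarith

/-- the decay -/
theorem O01_dec {δ r y P : ℝ} (h0 : 0 < δ) (hr : 1 ≤ r) (hy : 0 < y) (hP : 0 < P)
    (ha : r ≤ 2 * P) (hb : 1 + y * δ ≤ 3 * P) :
    (P ^ 14)⁻¹ ≤ 82944 * LibF4D.Wt (1 / δ) y / r ^ 10 := by
  have hw : LibF4D.Wt (1 / δ) y = ((1 + y * δ) ^ 4)⁻¹ := by
    unfold LibF4D.Wt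
    rw [← inv_pow]
    congr 1
    have : (1 : ℝ) + y * δ ≠ 0 := by positivity
    field_simp
  rw [hw]
  have h1 : r ^ 10 ≤ (2 * P) ^ 10 := pow_le_pow_left₀ (by linarith) ha 10
  have h2 : (1 + y * δ) ^ 4 ≤ (3 * P) ^ 4 := pow_le_pow_left₀ (by positivity) hb 4
  have h3 : r ^ 10 * (1 + y * δ) ^ 4 ≤ (2 * P) ^ 10 * (3 * P) ^ 4 :=
    mul_le_mul h1 h2 (by positivity) (by positivity)
  have h4 : (2 * P) ^ 10 * (3 * P) ^ 4 = 82944 * P ^ 14 := by ring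
  rw [h4] at h3
  have h5 : 82944 * ((1 + y * δ) ^ 4)⁻¹ / r ^ 10 = 82944 / (r ^ 10 * (1 + y * δ) ^ 4) := by
    field_simp
  rw [h5, le_div_iff₀ (by positivity), inv_mul_eq_div, div_le_iff₀ (by positivity)]
  exact h3

theorem O01_Lam {m n : ℕ} (hm : 1 ≤ m) (hn : 1 ≤ n) :
    0 < Lam m n ∧ Lam m n ^ 13 ≤ ((m : ℝ) * n) ^ 7 := by
  have hmn : (1 : ℝ) ≤ (m : ℝ) * n := by exact_mod_cast Nat.mul_pos hm hn
  have h1 : 1 ≤ √((m : ℝ) * n) := Real.one_le_sqrt.2 hmn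
  have hpos : 0 < Lam m n := by
    unfold Lam
    positivity
  refine ⟨hpos, ?_⟩
  have h2 : Lam m n ≤ √((m : ℝ) * n) := by
    unfold Lam
    exact div_le_self (by positivity) (by linarith [Real.pi_gt_three])
  calc Lam m n ^ 13 ≤ √((m : ℝ) * n) ^ 13 := pow_le_pow_left₀ hpos.le h2 13
    _ ≤ √((m : ℝ) * n) ^ 14 := pow_le_pow_right₀ h1 (by norm_num)
    _ = (√((m : ℝ) * n) ^ 2) ^ 7 := by rw [← pow_mul]
    _ = _ := by rw [Real.sq_sqrt (by positivity)]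

/-- the bound for `y ^ j` times the `j`-th derivative -/
theorem O01_fin {C δ r e y : ℝ} {m n j : ℕ} (hC : 0 < C) (h0 : 0 < δ) (h1 : δ ≤ 1 / 4)
    (hm : 1 ≤ m) (hn : 1 ≤ n) (hr : 1 ≤ r) (he : |e| = r) (hy : 0 < y)
    (h : ∀ Λ : ℝ, 0 < Λ → ∀ p : ℂ, 0 < p.re → ‖Jkj j Λ p‖ * ‖p‖ ^ j ≤ C * Λ ^ 13 * (‖p‖ ^ 14)⁻¹) :
    (2 * Real.sin δ) ^ j * ‖Jkj j (Lam m n) (pf δ (2 * y + r) e)‖ ≤
      82944 * C * ((m : ℝ) * n) ^ 7 / r ^ 10 * LibF4D.Wt (1 / δ) y / y ^ j := by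
  obtain ⟨hre, ha, hb, hc⟩ := O01_low h0 h1 hr he hy
  obtain ⟨hL, hL'⟩ := O01_Lam hm hn
  set P := ‖pf δ (2 * y + r) e‖ with hPdef
  have hP : 0 < P := by linarith
  have hs0 : 0 < Real.sin δ := by linarith [O01_sin h0 h1]
  have hd := O01_dec h0 hr hy hP ha hc
  have hj := h _ hL _ hre
  rw [← hPdef] at hj
  rw [le_div_iff₀ (by positivity)]
  calc (2 * Real.sin δ) ^ j * ‖Jkj j (Lam m n) (pf δ (2 * y + r) e)‖ * y ^ j
      = ‖Jkj j (Lam m n) (pf δ (2 * y + r) e)‖ * (y * (2 * Real.sin δ)) ^ j := by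
        rw [mul_pow y]; ring
    _ ≤ ‖Jkj j (Lam m n) (pf δ (2 * y + r) e)‖ * P ^ j :=
        mul_le_mul_of_nonneg_left (pow_le_pow_left₀ (by positivity) hb j) (norm_nonneg _)
    _ ≤ C * Lam m n ^ 13 * (P ^ 14)⁻¹ := hj
    _ ≤ C * ((m : ℝ) * n) ^ 7 * (82944 * LibF4D.Wt (1 / δ) y / r ^ 10) :=
        mul_le_mul (mul_le_mul_of_nonneg_left hL' hC.le) hd (by positivity) (by positivity)
    _ = _ := by ring

/-- O01: the weights are flat -/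
theorem O01_flat : ∃ C : ℝ, 1 ≤ C ∧ ∀ (δ : ℝ) (m n r : ℕ) (e : ℝ), 0 < δ → δ ≤ 1/4 → 1 ≤ m → 1 ≤ n → 1 ≤ r → |e| = r →
    LibF4D.Flat (fe δ m n r e) (fun y => -((2 * Real.sin δ : ℝ) : ℂ) * Jkj 1 (Lam m n) (pf δ (2 * y + r) e))
      (fun y => ((4 * Real.sin δ ^ 2 : ℝ) : ℂ) * Jkj 2 (Lam m n) (pf δ (2 * y + r) e))
      (C * ((m:ℝ) * n) ^ 7 / (r:ℝ) ^ 10) (1 / δ) := by
  obtain ⟨C0, hC0, h0⟩ := O01_bd 0
  obtain ⟨C1, hC1, h1⟩ := O01_bd 1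
  obtain ⟨C2, hC2, h2⟩ := O01_bd 2
  refine ⟨1 + 82944 * (C0 + C1 + C2), by nlinarith, fun δ m n r e hδ hδ' hm hn hr he => ?_⟩
  have hr' : (1 : ℝ) ≤ r := by exact_mod_cast hr
  obtain ⟨hL, -⟩ := O01_Lam hm hn
  have hs0 : 0 < Real.sin δ := by linarith [O01_sin hδ hδ']
  have hre : ∀ y : ℝ, 0 < y → 0 < (pf δ (2 * y + r) e).re := fun y hy =>
    (O01_low hδ hδ' hr' he hy).1
  have hder : ∀ (j : ℕ) (y : ℝ), 0 < y → HasDerivAt
      (fun y : ℝ => Jkj j (Lam m n) (pf δ (2 * y + r) e))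
      (-(Jkj (j + 1) (Lam m n) (pf δ (2 * y + r) e)) * ((2 * Real.sin δ : ℝ) : ℂ)) y :=
    fun j y hy => by
      have h3 := HasDerivAt.comp (h₂ := Jkj j (Lam m n))
        (h := fun y : ℝ => pf δ (2 * y + r) e) y (Jkj_deriv j hL (hre y hy)) (O01_deriv δ r e y)
      exact h3
  have hle : ∀ (Cj : ℝ) (y w : ℝ) (j : ℕ), 0 < y → Cj ≤ C0 + C1 + C2 →
      w ≤ 82944 * Cj * ((m : ℝ) * n) ^ 7 / (r : ℝ) ^ 10 * LibF4D.Wt (1 / δ) y / y ^ j →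
      w ≤ (1 + 82944 * (C0 + C1 + C2)) * ((m : ℝ) * n) ^ 7 / (r : ℝ) ^ 10 *
        LibF4D.Wt (1 / δ) y / y ^ j := by
    intro Cj y w j hy hCj hw
    refine hw.trans ?_
    have hW : 0 ≤ LibF4D.Wt (1 / δ) y := by
      unfold LibF4D.Wt
      positivity
    have h3 : 82944 * Cj ≤ 1 + 82944 * (C0 + C1 + C2) := by linarith
    gcongr
  refine ⟨fun y hy => ?_, fun y hy => ?_, fun y hy => ?_, fun y hy => ?_, fun y hy => ?_,
    fun y hy => ?_⟩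
  · have h3 := hder 0 y hy
    have h4 : (fun y : ℝ => Jkj 0 (Lam m n) (pf δ (2 * y + r) e)) = fe δ m n r e := by
      funext y
      rw [O01_Jk0]
      rfl
    rw [h4] at h3
    refine h3.congr_deriv ?_
    ring
  · refine ((hder 1 y hy).const_mul (-((2 * Real.sin δ : ℝ) : ℂ))).congr_deriv ?_
    push_cast
    ring
  · refine (continuousWithinAt_const.mul ?_)
    exact (hder 2 y hy).continuousAt.continuousWithinAt
  · refine (hle C0 y _ 0 hy (by linarith) ?_).trans_eq (by rw [pow_zero, div_one])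
    have h3 := O01_fin (e := e) hC0 hδ hδ' hm hn hr' he hy h0
    rw [pow_zero, one_mul, O01_Jk0] at h3
    exact h3
  · refine (hle C1 y _ 1 hy (by linarith) ?_).trans_eq (by rw [pow_one])
    have h3 := O01_fin (e := e) hC1 hδ hδ' hm hn hr' he hy h1
    refine le_trans (le_of_eq ?_) h3
    rw [norm_mul, norm_neg, Complex.norm_real, Real.norm_of_nonneg (by positivity), pow_one]
  · refine (hle C2 y _ 2 hy (by linarith) ?_)
    have h3 := O01_fin (e := e) hC2 hδ hδ' hm hn hr' he hy h2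
    refine le_trans (le_of_eq ?_) h3
    rw [norm_mul, Complex.norm_real, Real.norm_of_nonneg (by positivity)]
    ring

end Pool.Agent.LibF4
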