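import Mathlib
import Pool.Agent.LibF4.ODefs
import Pool.Agent.LibF4.M24
import Pool.Agent.LibF4D.D14
import Pool.Agent.LibF4D.D20

/-! Bridge between the blocks. -/

set_option autoImplicit false

namespace Pool.Agent.LibF4

open MeasureTheory Set Filter Topology Complex
open scoped ComplexConjugate

theorem T4_summable {δ : ℝ} (h0 : 0 < δ) (h1 : δ ≤ 1/4) {m n : ℕ} (hm : 1 ≤ m) (hn : 1 ≤ n) :
    Summable (fun ab : ℕ × ℕ => ‖T4 δ m n ab‖) := (SS_expand h0 h1 hm hn).1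

theorem D20_final : ∃ C : ℝ, 1 ≤ C ∧ ∀ (m n r : ℕ) (f f1 f2 : ℝ → ℂ) (K X : ℝ), 1 ≤ m → 1 ≤ n → 1 ≤ r →
    LibF4D.Flat f f1 f2 K X → 0 ≤ K → 1 ≤ X →
    ‖LibF4D.Sr m n r f - LibF4D.MM m n r f‖ ≤ C * K * ((m : ℝ) * n * r) ^ 8 * X ^ (7 / 8 : ℝ) := LibF4D.D20_final

theorem D14_cr_le {l r : ℕ} (hr : 1 ≤ r) : |LibF4D.cr l r| ≤ (r : ℤ) ^ 2 := LibF4D.D14_cr_le hr

theorem D14_lr_ge {l m : ℕ} (hl : 1 ≤ l) (hm : 1 ≤ m) :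
    1 ≤ LibF4D.lr l m ∧ LibF4D.lr l m ≤ l ∧ l ≤ LibF4D.lr l m * m := LibF4D.D14_lr_ge hl hm

end Pool.Agent.LibF4
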