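import Mathlib
import Pool.Agent.LibF4.ODefs
import Pool.Agent.LibF4.OBridge

/-! Row O02.
Partition ℕ×ℕ by the integer a m - b n = 0, r+1, -(r+1) (r : ℕ). Terms with a = 0 or b = 0 vanish (dv 0 = 0). a m = b n, coprime: a = n k, b = m k, k ≥ 1.
a m = b n + (r+1): indexed by b with m ∣ b n + r + 1 (a is determined): this is LibF4D.Sr m n (r+1) (fe ..) by definition (fe δ m n (r+1) (r+1) (b n) = Jk (Lam m n) (pf δ (am+bn) (am-bn)));
b n = a m + (r+1): LibF4D.Sr n m (r+1) (fe δ m n (r+1) (-(r+1))). All absolutely summable by T4_summable: use Summable over a sigma type / tsum over the fibres (e.g. Equiv ℕ×ℕ ≃ Σ i, fibre, Summable.tsum_sigma,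
HasSum.sigma), fibres over ℤ, then split ℤ (HasSum.of_nat_of_neg_add_one or int tsum lemmas).
-/

set_option autoImplicit false

namespace Pool.Agent.LibF4

open MeasureTheory Set Filter Topology Complex
open scoped ComplexConjugate

theorem O02_fib {γ : Type} {f : ℕ × ℕ → ℂ} (c : ℤ) (φ : ℕ × ℕ → ℤ) (g : γ → ℕ × ℕ)
    (hg : Function.Injective g) (hs : ∀ ab, φ ab = c → f ab ≠ 0 → ab ∈ Set.range g) :
    ∑' b : (φ ⁻¹' {c} : Set (ℕ × ℕ)), f b = ∑' x, if φ (g x) = c then f (g x) else 0 := by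
  classical
  rw [tsum_subtype (φ ⁻¹' {c} : Set (ℕ × ℕ)) f, ← hg.tsum_eq]
  · apply tsum_congr
    intro x
    rw [Set.indicator_apply]
    by_cases h : φ (g x) = c
    · have h' : g x ∈ (φ ⁻¹' {c} : Set (ℕ × ℕ)) := h
      rw [if_pos h', if_pos h]
    · have h' : g x ∉ (φ ⁻¹' {c} : Set (ℕ × ℕ)) := h
      rw [if_neg h', if_neg h]
  · intro ab hab
    rw [Function.mem_support, Set.indicator_apply] at hab
    by_cases h : ab ∈ (φ ⁻¹' {c} : Set (ℕ × ℕ))
    · rw [if_pos h] at hab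
      exact hs ab h hab
    · rw [if_neg h] at hab
      exact absurd rfl hab

theorem O02_T4_ne {δ : ℝ} {m n : ℕ} {ab : ℕ × ℕ} (h : T4 δ m n ab ≠ 0) :
    1 ≤ ab.1 ∧ 1 ≤ ab.2 := by
  constructor
  · by_contra hc
    have h0 : ab.1 = 0 := by omega
    apply h
    unfold T4 dv
    rw [h0]
    simp
  · by_contra hc
    have h0 : ab.2 = 0 := by omega
    apply h
    unfold T4 dv
    rw [h0]
    simp

theorem O02_plus {δ : ℝ} {m n : ℕ} (hm : 1 ≤ m) (r : ℕ) :
    ∑' b : ((fun ab : ℕ × ℕ => (ab.1 : ℤ) * m - ab.2 * n) ⁻¹' {((r + 1 : ℕ) : ℤ)} : Set (ℕ × ℕ)),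
      T4 δ m n b = LibF4D.Sr m n (r + 1) (fe δ m n (r + 1) (r + 1)) := by
  rw [O02_fib ((r + 1 : ℕ) : ℤ) (fun ab : ℕ × ℕ => (ab.1 : ℤ) * m - ab.2 * n)
    (fun b : ℕ => ((b * n + (r + 1)) / m, b))]
  · unfold LibF4D.Sr
    apply tsum_congr
    intro b
    have hiff : (((b * n + (r + 1)) / m : ℕ) : ℤ) * m - b * n = ((r + 1 : ℕ) : ℤ)
        ↔ m ∣ b * n + (r + 1) := by
      constructor
      · intro h
        have h2 : ((b * n + (r + 1)) / m) * m = b * n + (r + 1) := by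
          have h3 : ((((b * n + (r + 1)) / m) * m : ℕ) : ℤ) = ((b * n + (r + 1) : ℕ) : ℤ) := by
            push_cast at h ⊢
            linarith
          exact_mod_cast h3
        exact Dvd.intro_left _ h2
      · intro h
        have h2 := Nat.div_mul_cancel h
        have h3 : ((((b * n + (r + 1)) / m) * m : ℕ) : ℤ) = ((b * n + (r + 1) : ℕ) : ℤ) := by
          rw [h2]
        push_cast at h3 ⊢
        linarith
    simp only []
    by_cases hd : m ∣ b * n + (r + 1)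
    · by_cases hb : 1 ≤ b
      · rw [if_pos (hiff.2 hd), if_pos ⟨hb, hd⟩]
        have h2 := Nat.div_mul_cancel hd
        have h3 : ((((b * n + (r + 1)) / m : ℕ) : ℝ)) * m = b * n + (r + 1) := by
          exact_mod_cast h2
        have h4 : pf δ ((((b * n + (r + 1)) / m : ℕ) : ℝ) * m + (b : ℝ) * n)
            ((((b * n + (r + 1)) / m : ℕ) : ℝ) * m - (b : ℝ) * n)
            = pf δ (2 * ((b * n : ℕ) : ℝ) + ((r : ℝ) + 1)) ((r : ℝ) + 1) := by
          rw [h3]
          congr 1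
          · push_cast
            ring
          · ring
        unfold T4 fe
        simp only []
        rw [h4]
        rfl
      · rw [if_pos (hiff.2 hd), if_neg (fun h => hb h.1)]
        by_contra hne
        exact hb (O02_T4_ne hne).2
    · rw [if_neg (fun h => hd (hiff.1 h)), if_neg (fun h => hd h.2)]
  · intro b b' hbb
    exact (Prod.mk.inj hbb).2
  · intro ab hab _
    refine ⟨ab.2, ?_⟩
    have h1 : ab.2 * n + (r + 1) = ab.1 * m := by
      have h3 : ((ab.2 * n + (r + 1) : ℕ) : ℤ) = ((ab.1 * m : ℕ) : ℤ) := by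
        push_cast at hab ⊢
        linarith
      exact_mod_cast h3
    have h2 : (ab.2 * n + (r + 1)) / m = ab.1 := by
      rw [h1]
      exact Nat.mul_div_cancel _ (by omega)
    simp only []
    rw [h2]

theorem O02_minus {δ : ℝ} {m n : ℕ} (hn : 1 ≤ n) (r : ℕ) :
    ∑' b : ((fun ab : ℕ × ℕ => (ab.1 : ℤ) * m - ab.2 * n) ⁻¹' {-((r + 1 : ℕ) : ℤ)} : Set (ℕ × ℕ)),
      T4 δ m n b = LibF4D.Sr n m (r + 1) (fe δ m n (r + 1) (-(r + 1))) := by
  rw [O02_fib (-((r + 1 : ℕ) : ℤ)) (fun ab : ℕ × ℕ => (ab.1 : ℤ) * m - ab.2 * n)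
    (fun a : ℕ => (a, (a * m + (r + 1)) / n))]
  · unfold LibF4D.Sr
    apply tsum_congr
    intro a
    have hiff : (a : ℤ) * m - (((a * m + (r + 1)) / n : ℕ) : ℤ) * n = -((r + 1 : ℕ) : ℤ)
        ↔ n ∣ a * m + (r + 1) := by
      constructor
      · intro h
        have h2 : ((a * m + (r + 1)) / n) * n = a * m + (r + 1) := by
          have h3 : ((((a * m + (r + 1)) / n) * n : ℕ) : ℤ) = ((a * m + (r + 1) : ℕ) : ℤ) := by
            push_cast at h ⊢
            linarith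
          exact_mod_cast h3
        exact Dvd.intro_left _ h2
      · intro h
        have h2 := Nat.div_mul_cancel h
        have h3 : ((((a * m + (r + 1)) / n) * n : ℕ) : ℤ) = ((a * m + (r + 1) : ℕ) : ℤ) := by
          rw [h2]
        push_cast at h3 ⊢
        linarith
    simp only []
    by_cases hd : n ∣ a * m + (r + 1)
    · by_cases hb : 1 ≤ a
      · rw [if_pos (hiff.2 hd), if_pos ⟨hb, hd⟩]
        have h2 := Nat.div_mul_cancel hd
        have h3 : ((((a * m + (r + 1)) / n : ℕ) : ℝ)) * n = a * m + (r + 1) := by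
          exact_mod_cast h2
        have h4 : pf δ ((a : ℝ) * m + (((a * m + (r + 1)) / n : ℕ) : ℝ) * n)
            ((a : ℝ) * m - (((a * m + (r + 1)) / n : ℕ) : ℝ) * n)
            = pf δ (2 * ((a * m : ℕ) : ℝ) + ((r : ℝ) + 1)) (-((r : ℝ) + 1)) := by
          rw [h3]
          congr 1
          · push_cast
            ring
          · ring
        have h5 : LibF4D.dv ((a * m + (r + 1)) / n) * LibF4D.dv a
            = dv a * dv ((a * m + (r + 1)) / n) := by
          rw [mul_comm]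
          rfl
        unfold T4 fe
        simp only []
        rw [h4, h5]
      · rw [if_pos (hiff.2 hd), if_neg (fun h => hb h.1)]
        by_contra hne
        exact hb (O02_T4_ne hne).1
    · rw [if_neg (fun h => hd (hiff.1 h)), if_neg (fun h => hd h.2)]
  · intro b b' hbb
    exact (Prod.mk.inj hbb).1
  · intro ab hab _
    refine ⟨ab.1, ?_⟩
    have h1 : ab.1 * m + (r + 1) = ab.2 * n := by
      have h3 : ((ab.1 * m + (r + 1) : ℕ) : ℤ) = ((ab.2 * n : ℕ) : ℤ) := by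
        push_cast at hab ⊢
        linarith
      exact_mod_cast h3
    have h2 : (ab.1 * m + (r + 1)) / n = ab.2 := by
      rw [h1]
      exact Nat.mul_div_cancel _ (by omega)
    simp only []
    rw [h2]

theorem O02_diag {δ : ℝ} {m n : ℕ} (k : ℕ) :
    T4 δ m n (n * (k + 1), m * (k + 1)) = ((dv (n * (k + 1)) * dv (m * (k + 1)) : ℝ) : ℂ) *
      Jk (Lam m n) (pf δ (2 * ((m:ℝ) * n * (k + 1))) 0) := by
  unfold T4
  have h4 : pf δ (((n * (k + 1) : ℕ) : ℝ) * m + ((m * (k + 1) : ℕ) : ℝ) * n)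
      (((n * (k + 1) : ℕ) : ℝ) * m - ((m * (k + 1) : ℕ) : ℝ) * n)
      = pf δ (2 * ((m:ℝ) * n * (k + 1))) 0 := by
    congr 1
    · push_cast
      ring
    · push_cast
      ring
  simp only []
  rw [h4]

theorem O02_inj {m n : ℕ} (hn : 1 ≤ n) :
    Function.Injective (fun k : ℕ => ((n * (k + 1), m * (k + 1)) : ℕ × ℕ)) := by
  intro k k' h
  have h1 := (Prod.mk.inj h).1
  have h2 := Nat.eq_of_mul_eq_mul_left (by omega : 0 < n) h1
  omega

theorem O02_zero {δ : ℝ} {m n : ℕ} (hn : 1 ≤ n) (h : Nat.Coprime m n) :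
    ∑' b : ((fun ab : ℕ × ℕ => (ab.1 : ℤ) * m - ab.2 * n) ⁻¹' {(0 : ℤ)} : Set (ℕ × ℕ)),
      T4 δ m n b = ∑' k : ℕ, ((dv (n * (k + 1)) * dv (m * (k + 1)) : ℝ) : ℂ) *
        Jk (Lam m n) (pf δ (2 * ((m:ℝ) * n * (k + 1))) 0) := by
  rw [O02_fib (0 : ℤ) (fun ab : ℕ × ℕ => (ab.1 : ℤ) * m - ab.2 * n)
    (fun k : ℕ => ((n * (k + 1), m * (k + 1)) : ℕ × ℕ)) (O02_inj hn)]
  · apply tsum_congr
    intro k
    rw [if_pos, O02_diag]
    simp only []
    push_cast
    ring
  · intro ab hab hne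
    obtain ⟨h1, h2⟩ := O02_T4_ne hne
    have h3 : ab.1 * m = ab.2 * n := by
      have h3 : ((ab.1 * m : ℕ) : ℤ) = ((ab.2 * n : ℕ) : ℤ) := by
        push_cast at hab ⊢
        linarith
      exact_mod_cast h3
    have h4 : n ∣ ab.1 := by
      apply (Nat.Coprime.symm h).dvd_of_dvd_mul_right
      rw [h3]
      exact Nat.dvd_mul_left _ _
    obtain ⟨c, hc⟩ := h4
    have hc1 : 1 ≤ c := by
      by_contra hc0
      have : c = 0 := by omega
      rw [this, mul_zero] at hc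
      omega
    have h5 : ab.2 = m * c := by
      have h6 : n * (m * c) = n * ab.2 := by
        calc n * (m * c) = ab.1 * m := by rw [hc]; ring
          _ = n * ab.2 := by rw [h3]; ring
      exact (Nat.eq_of_mul_eq_mul_left (by omega : 0 < n) h6).symm
    refine ⟨c - 1, ?_⟩
    simp only []
    rw [Nat.sub_add_cancel hc1, ← hc, ← h5]

/-- O02: splitting of the double sum -/
theorem O02_split {δ : ℝ} (h0 : 0 < δ) (h1 : δ ≤ 1/4) {m n : ℕ} (hm : 1 ≤ m) (hn : 1 ≤ n) (h : Nat.Coprime m n) :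
    Summable (fun r : ℕ => LibF4D.Sr m n (r + 1) (fe δ m n (r + 1) (r + 1)) +
      LibF4D.Sr n m (r + 1) (fe δ m n (r + 1) (-(r + 1)))) ∧
    Summable (fun k : ℕ => ‖((dv (n * (k + 1)) * dv (m * (k + 1)) : ℝ) : ℂ) *
      Jk (Lam m n) (pf δ (2 * ((m:ℝ) * n * (k + 1))) 0)‖) ∧
    ∑' ab : ℕ × ℕ, T4 δ m n ab =
      (∑' k : ℕ, ((dv (n * (k + 1)) * dv (m * (k + 1)) : ℝ) : ℂ) * Jk (Lam m n) (pf δ (2 * ((m:ℝ) * n * (k + 1))) 0)) +
      ∑' r : ℕ, (LibF4D.Sr m n (r + 1) (fe δ m n (r + 1) (r + 1)) +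
        LibF4D.Sr n m (r + 1) (fe δ m n (r + 1) (-(r + 1)))) := by
  have hS := T4_summable h0 h1 hm hn
  have hH : HasSum (T4 δ m n) (∑' ab : ℕ × ℕ, T4 δ m n ab) := hS.of_norm.hasSum
  have h2 := (hH.tsum_fiberwise (fun ab : ℕ × ℕ => (ab.1 : ℤ) * m - ab.2 * n)).nat_add_neg
  have h3 := (hasSum_nat_add_iff' 1).2 h2
  simp only [Finset.range_one, Finset.sum_singleton] at h3
  have h4 : HasSum (fun r : ℕ => LibF4D.Sr m n (r + 1) (fe δ m n (r + 1) (r + 1)) +
      LibF4D.Sr n m (r + 1) (fe δ m n (r + 1) (-(r + 1))))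
      ((∑' ab : ℕ × ℕ, T4 δ m n ab) -
        ∑' k : ℕ, ((dv (n * (k + 1)) * dv (m * (k + 1)) : ℝ) : ℂ) *
          Jk (Lam m n) (pf δ (2 * ((m:ℝ) * n * (k + 1))) 0)) := by
    rw [← O02_zero hn h]
    have h5 : ∀ a b : ℂ, a - b = a + b - (b + b) := fun a b => by ring
    rw [h5]
    refine h3.congr_fun ?_
    intro r
    rw [← O02_plus hm r, ← O02_minus hn r]
  refine ⟨h4.summable, ?_, ?_⟩
  · have h6 := hS.comp_injective (O02_inj (m := m) hn)
    refine h6.congr ?_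
    intro k
    simp only [Function.comp_apply]
    rw [O02_diag]
  · rw [h4.tsum_eq]
    ring

end Pool.Agent.LibF4
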