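import Mathlib
import Pool.Agent.LibF4.ODefs
import Pool.Agent.LibF4.O01
import Pool.Agent.LibF4.OBridge

/-! Row O03.
D20_final with f = fe δ m n r (±r), K = C (mn)^7/r^10, X = 1/δ; for the second term use D20 with (n,m,r) and the same Flat statement. Each is ≤ C' (mn)^15 r^{-2} δ^{-7/8}; sum over r.
-/

set_option autoImplicit false

namespace Pool.Agent.LibF4

open MeasureTheory Set Filter Topology Complex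
open scoped ComplexConjugate

theorem F4O03_pt (C C1 : ℝ) (hC : 1 ≤ C) (hC1 : 1 ≤ C1)
    (hD : ∀ (m n r : ℕ) (f f1 f2 : ℝ → ℂ) (K X : ℝ), 1 ≤ m → 1 ≤ n → 1 ≤ r →
    LibF4D.Flat f f1 f2 K X → 0 ≤ K → 1 ≤ X →
    ‖LibF4D.Sr m n r f - LibF4D.MM m n r f‖ ≤ C * K * ((m : ℝ) * n * r) ^ 8 * X ^ (7 / 8 : ℝ))
    (hO : ∀ (δ : ℝ) (m n r : ℕ) (e : ℝ), 0 < δ → δ ≤ 1/4 → 1 ≤ m → 1 ≤ n → 1 ≤ r → |e| = r →
    LibF4D.Flat (fe δ m n r e) (fun y => -((2 * Real.sin δ : ℝ) : ℂ) * Jkj 1 (Lam m n) (pf δ (2 * y + r) e))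
      (fun y => ((4 * Real.sin δ ^ 2 : ℝ) : ℂ) * Jkj 2 (Lam m n) (pf δ (2 * y + r) e))
      (C1 * ((m:ℝ) * n) ^ 7 / (r:ℝ) ^ 10) (1 / δ))
    (δ : ℝ) (m n r : ℕ) (h0 : 0 < δ) (h1 : δ ≤ 1/4) (hm : 1 ≤ m) (hn : 1 ≤ n) :
    ‖(LibF4D.Sr m n (r + 1) (fe δ m n (r + 1) (r + 1)) +
      LibF4D.Sr n m (r + 1) (fe δ m n (r + 1) (-(r + 1)))) -
      (LibF4D.MM m n (r + 1) (fe δ m n (r + 1) (r + 1)) + LibF4D.MM n m (r + 1) (fe δ m n (r + 1) (-(r + 1))))‖ ≤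
      (2 * C * C1 * ((m:ℝ) * n) ^ 15 * δ ^ (-(7/8) : ℝ)) * (1 / ((r:ℝ) + 1) ^ 2) := by
  have hm' : (1:ℝ) ≤ m := by exact_mod_cast hm
  have hn' : (1:ℝ) ≤ n := by exact_mod_cast hn
  have hr' : (0:ℝ) < (r:ℝ) + 1 := by positivity
  have hX : (1:ℝ) ≤ 1 / δ := by
    rw [le_div_iff₀ h0]
    linarith
  have hXp : (1 / δ) ^ (7 / 8 : ℝ) = δ ^ (-(7/8) : ℝ) := by
    rw [one_div, Real.inv_rpow h0.le, Real.rpow_neg h0.le]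
  have habs1 : |((r:ℝ) + 1)| = ((r + 1 : ℕ) : ℝ) := by
    push_cast
    exact abs_of_pos hr'
  have habs2 : |(-((r:ℝ) + 1))| = ((r + 1 : ℕ) : ℝ) := by
    rw [abs_neg, habs1]
  have hK : 0 ≤ C1 * ((m:ℝ) * n) ^ 7 / ((r + 1 : ℕ) : ℝ) ^ 10 := by positivity
  have A1 := hD m n (r + 1) _ _ _ _ _ hm hn (by omega)
    (hO δ m n (r + 1) ((r:ℝ) + 1) h0 h1 hm hn (by omega) habs1) hK hX
  have A2 := hD n m (r + 1) _ _ _ _ _ hn hm (by omega)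
    (hO δ m n (r + 1) (-((r:ℝ) + 1)) h0 h1 hm hn (by omega) habs2) hK hX
  push_cast at A1 A2
  rw [hXp] at A1 A2
  have e1 : C * (C1 * ((m:ℝ) * n) ^ 7 / ((r:ℝ) + 1) ^ 10) * ((m:ℝ) * n * ((r:ℝ) + 1)) ^ 8 *
      δ ^ (-(7/8) : ℝ) = (C * C1 * ((m:ℝ) * n) ^ 15 * δ ^ (-(7/8) : ℝ)) * (1 / ((r:ℝ) + 1) ^ 2) := by
    field_simp
  have e2 : C * (C1 * ((m:ℝ) * n) ^ 7 / ((r:ℝ) + 1) ^ 10) * ((n:ℝ) * m * ((r:ℝ) + 1)) ^ 8 *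
      δ ^ (-(7/8) : ℝ) = (C * C1 * ((m:ℝ) * n) ^ 15 * δ ^ (-(7/8) : ℝ)) * (1 / ((r:ℝ) + 1) ^ 2) := by
    rw [← e1, mul_comm (n:ℝ) m]
  rw [e1] at A1
  rw [e2] at A2
  calc _ = ‖(LibF4D.Sr m n (r + 1) (fe δ m n (r + 1) (r + 1)) -
        LibF4D.MM m n (r + 1) (fe δ m n (r + 1) (r + 1))) +
        (LibF4D.Sr n m (r + 1) (fe δ m n (r + 1) (-(r + 1))) -
        LibF4D.MM n m (r + 1) (fe δ m n (r + 1) (-(r + 1))))‖ := by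
        congr 1
        ring
    _ ≤ _ := norm_add_le _ _
    _ ≤ (C * C1 * ((m:ℝ) * n) ^ 15 * δ ^ (-(7/8) : ℝ)) * (1 / ((r:ℝ) + 1) ^ 2) +
        (C * C1 * ((m:ℝ) * n) ^ 15 * δ ^ (-(7/8) : ℝ)) * (1 / ((r:ℝ) + 1) ^ 2) := add_le_add A1 A2
    _ = _ := by ring

theorem F4O03_sum : Summable (fun r : ℕ => 1 / ((r:ℝ) + 1) ^ 2) := by
  have h := (summable_nat_add_iff 1).2 (Real.summable_one_div_nat_pow.2 (le_refl 2))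
  simpa using h

/-- O03: the additive divisor problem applied -/
theorem O03_err : ∃ C : ℝ, 1 ≤ C ∧ ∀ (δ : ℝ) (m n : ℕ), 0 < δ → δ ≤ 1/4 → 1 ≤ m → 1 ≤ n →
    Summable (fun r : ℕ => ‖(LibF4D.Sr m n (r + 1) (fe δ m n (r + 1) (r + 1)) +
      LibF4D.Sr n m (r + 1) (fe δ m n (r + 1) (-(r + 1)))) -
      (LibF4D.MM m n (r + 1) (fe δ m n (r + 1) (r + 1)) + LibF4D.MM n m (r + 1) (fe δ m n (r + 1) (-(r + 1))))‖) ∧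
    ∑' r : ℕ, ‖(LibF4D.Sr m n (r + 1) (fe δ m n (r + 1) (r + 1)) +
      LibF4D.Sr n m (r + 1) (fe δ m n (r + 1) (-(r + 1)))) -
      (LibF4D.MM m n (r + 1) (fe δ m n (r + 1) (r + 1)) + LibF4D.MM n m (r + 1) (fe δ m n (r + 1) (-(r + 1))))‖ ≤
      C * ((m:ℝ) * n) ^ 15 * δ ^ (-(7/8) : ℝ) := by
  obtain ⟨C, hC, hD⟩ := D20_final
  obtain ⟨C1, hC1, hO⟩ := O01_flat
  set S : ℝ := ∑' r : ℕ, 1 / ((r:ℝ) + 1) ^ 2 with hS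
  have hS0 : 0 ≤ S := tsum_nonneg fun r => by positivity
  refine ⟨2 * C * C1 * S + 1, ?_, ?_⟩
  · have : 0 ≤ 2 * C * C1 * S := by positivity
    linarith
  intro δ m n h0 h1 hm hn
  have hpt := fun r : ℕ => F4O03_pt C C1 hC hC1 hD hO δ m n r h0 h1 hm hn
  have hsum2 := F4O03_sum.mul_left (2 * C * C1 * ((m:ℝ) * n) ^ 15 * δ ^ (-(7/8) : ℝ))
  have hsum := Summable.of_nonneg_of_le (fun r => norm_nonneg _) hpt hsum2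
  refine ⟨hsum, ?_⟩
  refine (hsum.tsum_le_tsum hpt hsum2).trans ?_
  rw [tsum_mul_left, ← hS]
  have hP : 0 ≤ ((m:ℝ) * n) ^ 15 * δ ^ (-(7/8) : ℝ) := by positivity
  nlinarith

end Pool.Agent.LibF4
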