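import Mathlib
import Pool.Agent.LibF4.ODefs
import Pool.Agent.LibF4.M22
import Pool.Agent.LibF4.M23

/-! Row O04.
|p| ≥ r/2 and 1 + yδ ≤ 3|p| as in O01 (also for r' = 0). |Jkj 0| ≤ C Λ^11 |p|^{-12} ≤ C (mn)^7 r^{-9}(1+yδ)^{-2}·const, |Jkj 1| ≤ C Λ^11 |p|^{-13}. |Lg(y/A)| ≤ C((y/A)^{1/8}+(y/A)^{-1/8}) ≤ C A^{1/8}(y^{1/8}+y^{-1/8}) (A ≥ 1),
so |Lg Lg| ≤ C (AB)^{1/8}(y^{1/4}+1+y^{-1/4})·const. ∫(1+yδ)^{-2}(y^{1/4}+1+y^{-1/4})dy ≤ C δ^{-5/4}. Difference: mean value: |fe r - fe 0| ≤ r sin δ sup|Jkj 1| over the segment (Re p > 0 convex), gains δ.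
Measurability: fe continuous in y on (0,∞) (Jkj_deriv), Lg continuous.
-/

set_option autoImplicit false

namespace Pool.Agent.LibF4

open MeasureTheory Set Filter Topology Complex
open scoped ComplexConjugate

theorem F4O04_p {δ : ℝ} (h0 : 0 < δ) (h1 : δ ≤ 1/4) {r : ℕ} {e : ℝ} (hr : 1 ≤ r) (he : |e| = r)
    {y t : ℝ} (hy : 0 < y) (ht : 0 ≤ t) :
    0 < (pf δ (2 * y + t) e).re ∧ (r : ℝ) / 2 ≤ ‖pf δ (2 * y + t) e‖ ∧
      1 + y * δ ≤ 3 * ‖pf δ (2 * y + t) e‖ := by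
  have hre : (pf δ (2 * y + t) e).re = (2 * y + t) * Real.sin δ := by
    rw [pf, Complex.sub_re, Complex.ofReal_re, Complex.mul_re, Complex.I_re, Complex.I_im,
      Complex.ofReal_re, Complex.ofReal_im]
    ring
  have him : (pf δ (2 * y + t) e).im = -(e * Real.cos δ) := by
    rw [pf, Complex.sub_im, Complex.ofReal_im, Complex.mul_im, Complex.I_re, Complex.I_im,
      Complex.ofReal_re, Complex.ofReal_im]
    ring
  have hr1 : (1 : ℝ) ≤ r := by exact_mod_cast hr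
  have hsin : δ / 2 ≤ Real.sin δ := by
    have := Real.sin_gt_sub_cube h0
    nlinarith [pow_pos h0 3, mul_pos h0 h0]
  have hcos : 1 / 2 ≤ Real.cos δ := by
    have := Real.one_sub_sq_div_two_le_cos (x := δ)
    nlinarith
  have hsin0 : 0 < Real.sin δ := by linarith
  have h2 : (r : ℝ) / 2 ≤ ‖pf δ (2 * y + t) e‖ := by
    have h3 := Complex.abs_im_le_norm (pf δ (2 * y + t) e)
    rw [him, abs_neg, abs_mul, he, abs_of_pos (by linarith : 0 < Real.cos δ)] at h3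
    nlinarith
  have h4 : y * δ ≤ ‖pf δ (2 * y + t) e‖ := by
    have h3 := Complex.abs_re_le_norm (pf δ (2 * y + t) e)
    rw [hre] at h3
    have h5 := le_abs_self ((2 * y + t) * Real.sin δ)
    nlinarith [mul_pos hy h0, mul_nonneg ht hsin0.le]
  refine ⟨?_, h2, ?_⟩
  · rw [hre]
    positivity
  · linarith

theorem F4O04_Lam {m n : ℕ} (hm : 1 ≤ m) (hn : 1 ≤ n) :
    0 < Lam m n ∧ Lam m n ^ 11 ≤ ((m : ℝ) * n) ^ 7 := by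
  have hm1 : (1 : ℝ) ≤ m := by exact_mod_cast hm
  have hn1 : (1 : ℝ) ≤ n := by exact_mod_cast hn
  have hmn : (1 : ℝ) ≤ (m : ℝ) * n := by nlinarith
  have hs : 1 ≤ √((m : ℝ) * n) := Real.one_le_sqrt.2 hmn
  have hpi : 1 ≤ 2 * Real.pi := by
    have := Real.pi_gt_three
    linarith
  have h1 : Lam m n ≤ √((m : ℝ) * n) := by
    unfold Lam
    exact div_le_self (by positivity) hpi
  have h0 : 0 < Lam m n := by
    unfold Lam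
    positivity
  refine ⟨h0, ?_⟩
  calc Lam m n ^ 11 ≤ √((m : ℝ) * n) ^ 11 := pow_le_pow_left₀ h0.le h1 11
    _ ≤ √((m : ℝ) * n) ^ 14 := pow_le_pow_right₀ hs (by norm_num)
    _ = (√((m : ℝ) * n) ^ 2) ^ 7 := by ring
    _ = ((m : ℝ) * n) ^ 7 := by rw [Real.sq_sqrt (by positivity)]

theorem F4O04_bd : ∃ C : ℝ, 1 ≤ C ∧ ∀ (δ : ℝ) (m n r : ℕ) (e : ℝ), 0 < δ → δ ≤ 1/4 → 1 ≤ m →
    1 ≤ n → 1 ≤ r → |e| = r → ∀ y t : ℝ, 0 < y → 0 ≤ t →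
    ‖Jkj 0 (Lam m n) (pf δ (2 * y + t) e)‖ ≤
      C * ((m : ℝ) * n) ^ 7 / (r : ℝ) ^ 8 * ((1 + δ * y) ^ 2)⁻¹ ∧
    ‖Jkj 1 (Lam m n) (pf δ (2 * y + t) e)‖ ≤
      C * ((m : ℝ) * n) ^ 7 / (r : ℝ) ^ 9 * ((1 + δ * y) ^ 2)⁻¹ := by
  obtain ⟨C₀, hC₀, hb₀⟩ := Jkj_bd 0 (c := 11) (by norm_num)
  obtain ⟨C₁, hC₁, hb₁⟩ := Jkj_bd 1 (c := 11) (by norm_num)
  refine ⟨1 + (C₀ + C₁) * (9 * 2 ^ 11), by
    have : 0 < (C₀ + C₁) * (9 * 2 ^ 11) := by positivity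
    linarith, ?_⟩
  intro δ m n r e h0 h1 hm hn hr he y t hy ht
  obtain ⟨hre, hp1, hp2⟩ := F4O04_p h0 h1 hr he hy ht
  obtain ⟨hL0, hL⟩ := F4O04_Lam hm hn
  have hr1 : (1 : ℝ) ≤ r := by exact_mod_cast hr
  have hm1 : (1 : ℝ) ≤ m := by exact_mod_cast hm
  have hn1 : (1 : ℝ) ≤ n := by exact_mod_cast hn
  have hM : (0 : ℝ) < ((m : ℝ) * n) ^ 7 := by positivity
  set p := pf δ (2 * y + t) e with hp
  have hpn : 0 < ‖p‖ := by linarith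
  have hy1 : 0 < 1 + δ * y := by positivity
  have hq : (1 + δ * y) / 3 ≤ ‖p‖ := by
    rw [mul_comm δ y]
    linarith
  have hq2 : (1 + δ * y) ^ 2 / 9 ≤ ‖p‖ ^ 2 := by
    calc (1 + δ * y) ^ 2 / 9 = ((1 + δ * y) / 3) ^ 2 := by ring
      _ ≤ ‖p‖ ^ 2 := pow_le_pow_left₀ (by positivity) hq 2
  constructor
  · have h2 := hb₀ (Lam m n) hL0 p hre
    have h3 : ‖p‖ ^ (-(1 + ((0 : ℕ) : ℝ) + 11)) = (‖p‖ ^ 12)⁻¹ := by
      rw [Real.rpow_neg hpn.le]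
      congr 1
      rw [← Real.rpow_natCast]
      norm_num
    have h4 : Lam m n ^ (11 : ℝ) = Lam m n ^ 11 := by
      rw [← Real.rpow_natCast]
      norm_num
    rw [h3, h4] at h2
    have h5 : (r : ℝ) ^ 8 * (1 + δ * y) ^ 2 / (9 * 2 ^ 11) ≤ ‖p‖ ^ 12 := by
      calc (r : ℝ) ^ 8 * (1 + δ * y) ^ 2 / (9 * 2 ^ 11)
          ≤ (r : ℝ) ^ 10 * (1 + δ * y) ^ 2 / (9 * 2 ^ 10) := by
            have h6 : (r : ℝ) ^ 8 ≤ (r : ℝ) ^ 10 := pow_le_pow_right₀ hr1 (by norm_num)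
            have h7 : (0 : ℝ) ≤ (1 + δ * y) ^ 2 := by positivity
            rw [div_le_div_iff₀ (by positivity) (by positivity)]
            nlinarith [mul_le_mul_of_nonneg_right h6 h7, mul_nonneg (pow_nonneg (by linarith : (0:ℝ) ≤ r) 8) h7]
        _ = ((1 + δ * y) ^ 2 / 9) * ((r : ℝ) / 2) ^ 10 := by ring
        _ ≤ ‖p‖ ^ 2 * ‖p‖ ^ 10 :=
            mul_le_mul hq2 (pow_le_pow_left₀ (by positivity) hp1 10) (by positivity)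
              (by positivity)
        _ = ‖p‖ ^ 12 := by ring
    calc ‖Jkj 0 (Lam m n) p‖ ≤ C₀ * Lam m n ^ 11 * (‖p‖ ^ 12)⁻¹ := h2
      _ ≤ C₀ * ((m : ℝ) * n) ^ 7 * ((r : ℝ) ^ 8 * (1 + δ * y) ^ 2 / (9 * 2 ^ 11))⁻¹ := by
          gcongr
      _ = (C₀ * (9 * 2 ^ 11)) * (((m : ℝ) * n) ^ 7 / (r : ℝ) ^ 8 * ((1 + δ * y) ^ 2)⁻¹) := by
          field_simp
      _ ≤ (1 + (C₀ + C₁) * (9 * 2 ^ 11)) *
          (((m : ℝ) * n) ^ 7 / (r : ℝ) ^ 8 * ((1 + δ * y) ^ 2)⁻¹) := by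
          gcongr
          nlinarith
      _ = _ := by ring
  · have h2 := hb₁ (Lam m n) hL0 p hre
    have h3 : ‖p‖ ^ (-(1 + ((1 : ℕ) : ℝ) + 11)) = (‖p‖ ^ 13)⁻¹ := by
      rw [Real.rpow_neg hpn.le]
      congr 1
      rw [← Real.rpow_natCast]
      norm_num
    have h4 : Lam m n ^ (11 : ℝ) = Lam m n ^ 11 := by
      rw [← Real.rpow_natCast]
      norm_num
    rw [h3, h4] at h2
    have h5 : (r : ℝ) ^ 9 * (1 + δ * y) ^ 2 / (9 * 2 ^ 11) ≤ ‖p‖ ^ 13 := by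
      calc (r : ℝ) ^ 9 * (1 + δ * y) ^ 2 / (9 * 2 ^ 11)
          ≤ (r : ℝ) ^ 11 * (1 + δ * y) ^ 2 / (9 * 2 ^ 11) := by
            have h6 : (r : ℝ) ^ 9 ≤ (r : ℝ) ^ 11 := pow_le_pow_right₀ hr1 (by norm_num)
            gcongr
        _ = ((1 + δ * y) ^ 2 / 9) * ((r : ℝ) / 2) ^ 11 := by ring
        _ ≤ ‖p‖ ^ 2 * ‖p‖ ^ 11 :=
            mul_le_mul hq2 (pow_le_pow_left₀ (by positivity) hp1 11) (by positivity)
              (by positivity)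
        _ = ‖p‖ ^ 13 := by ring
    calc ‖Jkj 1 (Lam m n) p‖ ≤ C₁ * Lam m n ^ 11 * (‖p‖ ^ 13)⁻¹ := h2
      _ ≤ C₁ * ((m : ℝ) * n) ^ 7 * ((r : ℝ) ^ 9 * (1 + δ * y) ^ 2 / (9 * 2 ^ 11))⁻¹ := by
          gcongr
      _ = (C₁ * (9 * 2 ^ 11)) * (((m : ℝ) * n) ^ 7 / (r : ℝ) ^ 9 * ((1 + δ * y) ^ 2)⁻¹) := by
          field_simp
      _ ≤ (1 + (C₀ + C₁) * (9 * 2 ^ 11)) *
          (((m : ℝ) * n) ^ 7 / (r : ℝ) ^ 9 * ((1 + δ * y) ^ 2)⁻¹) := by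
          gcongr
          nlinarith
      _ = _ := by ring

theorem F4O04_fe (δ : ℝ) (m n : ℕ) (t e y : ℝ) :
    fe δ m n t e y = Jkj 0 (Lam m n) (pf δ (2 * y + t) e) := by
  simp [fe, Jkj, Jk]

theorem F4O04_cont {δ : ℝ} (h0 : 0 < δ) (h1 : δ ≤ 1/4) {m n r : ℕ} (hm : 1 ≤ m) (hn : 1 ≤ n)
    (hr : 1 ≤ r) {e : ℝ} (he : |e| = r) {t : ℝ} (ht : 0 ≤ t) :
    ContinuousOn (fe δ m n t e) (Ioi 0) := by
  intro y hy
  have h2 : ContinuousAt (fun y : ℝ => pf δ (2 * y + t) e) y := by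
    unfold pf
    fun_prop
  have h3 := (Jkj_deriv 0 (F4O04_Lam hm hn).1 (F4O04_p h0 h1 hr he (mem_Ioi.1 hy) ht).1).continuousAt
  have h4 : ContinuousAt (fun y : ℝ => Jkj 0 (Lam m n) (pf δ (2 * y + t) e)) y :=
    ContinuousAt.comp (f := fun y : ℝ => pf δ (2 * y + t) e) (g := Jkj 0 (Lam m n)) h3 h2
  have h5 : fe δ m n t e = fun y : ℝ => Jkj 0 (Lam m n) (pf δ (2 * y + t) e) := by
    funext y
    exact F4O04_fe δ m n t e y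
  rw [h5]
  exact h4.continuousWithinAt

theorem F4O04_diff {C δ : ℝ} {m n r : ℕ} {e : ℝ} (h0 : 0 < δ) (h1 : δ ≤ 1/4) (hm : 1 ≤ m)
    (hn : 1 ≤ n) (hr : 1 ≤ r) (he : |e| = r) {y : ℝ} (hy : 0 < y) (hC : 0 ≤ C)
    (hb : ∀ t : ℝ, 0 ≤ t → ‖Jkj 1 (Lam m n) (pf δ (2 * y + t) e)‖ ≤
      C * ((m : ℝ) * n) ^ 7 / (r : ℝ) ^ 9 * ((1 + δ * y) ^ 2)⁻¹) :
    ‖fe δ m n r e y - fe δ m n 0 e y‖ ≤
      C * ((m : ℝ) * n) ^ 7 / (r : ℝ) ^ 8 * ((1 + δ * y) ^ 2)⁻¹ * δ := by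
  have hr1 : (1 : ℝ) ≤ r := by exact_mod_cast hr
  have hd : ∀ t : ℝ, 0 ≤ t → HasDerivAt (fun t : ℝ => Jkj 0 (Lam m n) (pf δ (2 * y + t) e))
      (-(Jkj 1 (Lam m n) (pf δ (2 * y + t) e)) * ((1 * Real.sin δ : ℝ) : ℂ)) t := by
    intro t ht
    have h2 : HasDerivAt (fun t : ℝ => pf δ (2 * y + t) e) ((1 * Real.sin δ : ℝ) : ℂ) t := by
      unfold pf
      exact ((((hasDerivAt_id t).const_add (2 * y)).mul_const (Real.sin δ)).ofReal_comp).sub_const _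
    have h3 := Jkj_deriv 0 (F4O04_Lam hm hn).1 (F4O04_p h0 h1 hr he hy ht).1
    exact HasDerivAt.comp (𝕜' := ℂ) t h3 h2
  have hsin : |Real.sin δ| ≤ δ := by
    have := Real.abs_sin_le_abs (x := δ)
    rwa [abs_of_pos h0] at this
  have h4 := norm_image_sub_le_of_norm_deriv_le_segment'
    (f := fun t : ℝ => Jkj 0 (Lam m n) (pf δ (2 * y + t) e)) (a := 0) (b := r)
    (C := C * ((m : ℝ) * n) ^ 7 / (r : ℝ) ^ 9 * ((1 + δ * y) ^ 2)⁻¹ * δ)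
    (fun t ht => (hd t ht.1).hasDerivWithinAt)
    (fun t ht => by
      rw [norm_mul, norm_neg, one_mul, Complex.norm_real, Real.norm_eq_abs]
      exact mul_le_mul (hb t ht.1) hsin (abs_nonneg _) (by positivity)) r ⟨by linarith, le_rfl⟩
  rw [F4O04_fe, F4O04_fe]
  refine h4.trans (le_of_eq ?_)
  have hr0 : (r : ℝ) ≠ 0 := by linarith
  have hy1 : (1 + δ * y) ≠ 0 := by positivity
  field_simp
  ring

theorem F4O04_Lg {Y : ℝ} (hY : 0 < Y) :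
    |LibF4D.Lg Y| ≤ 9 * (Y ^ (1/8 : ℝ) + Y ^ (-(1/8) : ℝ)) := by
  have hg1 := Real.eulerMascheroniConstant_lt_two_thirds
  have hg2 := Real.one_half_lt_eulerMascheroniConstant
  have ha : 0 < Y ^ (1/8 : ℝ) := Real.rpow_pos_of_pos hY _
  have hb : 0 < Y ^ (-(1/8) : ℝ) := Real.rpow_pos_of_pos hY _
  have hab : Y ^ (1/8 : ℝ) * Y ^ (-(1/8) : ℝ) = 1 := by
    rw [← Real.rpow_add hY]
    norm_num
  have h2 : 2 ≤ Y ^ (1/8 : ℝ) + Y ^ (-(1/8) : ℝ) := by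
    nlinarith [sq_nonneg (Y ^ (1/8 : ℝ) - Y ^ (-(1/8) : ℝ))]
  have h3 : Real.log Y ≤ 8 * Y ^ (1/8 : ℝ) := by
    have := Real.log_le_rpow_div hY.le (by norm_num : (0 : ℝ) < 1/8)
    linarith
  have h4 : -Real.log Y ≤ 8 * Y ^ (-(1/8) : ℝ) := by
    have := Real.log_le_rpow_div (inv_pos.2 hY).le (by norm_num : (0 : ℝ) < 1/8)
    rw [Real.log_inv, Real.inv_rpow hY.le, ← Real.rpow_neg hY.le] at this
    linarith
  unfold LibF4D.Lg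
  rw [abs_le]
  constructor <;> nlinarith

theorem F4O04_LgA {y A : ℝ} (hy : 0 < y) (hA : 1 ≤ A) :
    |LibF4D.Lg (y / A)| ≤ 9 * A ^ (1/8 : ℝ) * (y ^ (1/8 : ℝ) + y ^ (-(1/8) : ℝ)) := by
  have hA0 : 0 < A := by linarith
  have h1 := F4O04_Lg (div_pos hy hA0)
  rw [Real.div_rpow hy.le hA0.le, Real.div_rpow hy.le hA0.le, Real.rpow_neg hA0.le (1/8),
    div_inv_eq_mul] at h1
  have h2 : 1 ≤ A ^ (1/8 : ℝ) := Real.one_le_rpow hA (by norm_num)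
  have h3 : y ^ (1/8 : ℝ) / A ^ (1/8 : ℝ) ≤ A ^ (1/8 : ℝ) * y ^ (1/8 : ℝ) := by
    have h4 : 0 < y ^ (1/8 : ℝ) := Real.rpow_pos_of_pos hy _
    rw [div_le_iff₀ (by positivity)]
    nlinarith [mul_le_mul h2 h2 zero_le_one (by linarith)]
  nlinarith

/-- the dominating function -/
noncomputable def F4O04_G (t : ℝ) : ℝ := ((1 + t) ^ 2)⁻¹ * (t ^ (1/8 : ℝ) + t ^ (-(1/8) : ℝ)) ^ 2

theorem F4O04_G_int : IntegrableOn F4O04_G (Ioi 0) := by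
  have hc : ContinuousOn F4O04_G (Ioi 0) := by
    intro t ht
    have ht0 : (0 : ℝ) < t := ht
    have h1 : ContinuousAt (fun t : ℝ => t ^ (1/8 : ℝ)) t :=
      Real.continuousAt_rpow_const t _ (Or.inl ht0.ne')
    have h2 : ContinuousAt (fun t : ℝ => t ^ (-(1/8) : ℝ)) t :=
      Real.continuousAt_rpow_const t _ (Or.inl ht0.ne')
    have h3 : ContinuousAt (fun t : ℝ => ((1 + t) ^ 2)⁻¹) t := by
      refine ContinuousAt.inv₀ (by fun_prop) ?_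
      positivity
    exact (h3.mul ((h1.add h2).pow 2)).continuousWithinAt
  have hU : Ioi (0 : ℝ) = Ioc 0 1 ∪ Ioi 1 := (Ioc_union_Ioi_eq_Ioi zero_le_one).symm
  have hnn : ∀ t : ℝ, 0 ≤ F4O04_G t := fun t => by
    unfold F4O04_G
    positivity
  rw [hU]
  refine IntegrableOn.union ?_ ?_
  · have h2 : IntegrableOn (fun x : ℝ => 4 * x ^ (-(1/4) : ℝ)) (Ioc 0 1) := by
      refine Integrable.const_mul ?_ _
      have h3 := intervalIntegral.intervalIntegrable_rpow' (a := 0) (b := 1)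
        (r := (-(1/4) : ℝ)) (by norm_num)
      exact (intervalIntegrable_iff_integrableOn_Ioc_of_le zero_le_one).1 h3
    refine Integrable.mono' h2
      ((hc.mono Ioc_subset_Ioi_self).aestronglyMeasurable measurableSet_Ioc) ?_
    refine (ae_restrict_iff' measurableSet_Ioc).2 (ae_of_all _ fun x hx => ?_)
    rw [Real.norm_of_nonneg (hnn x)]
    have hx0 : 0 < x := hx.1
    have h4 : x ^ (1/8 : ℝ) ≤ x ^ (-(1/8) : ℝ) :=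
      Real.rpow_le_rpow_of_exponent_ge hx0 hx.2 (by norm_num)
    have h5 : 0 < x ^ (1/8 : ℝ) := Real.rpow_pos_of_pos hx0 _
    have h6 : (x ^ (-(1/8) : ℝ)) ^ 2 = x ^ (-(1/4) : ℝ) := by
      rw [← Real.rpow_natCast, ← Real.rpow_mul hx0.le]
      norm_num
    have h7 : ((1 + x) ^ 2)⁻¹ ≤ 1 := inv_le_one_of_one_le₀ (by nlinarith)
    unfold F4O04_G
    calc ((1 + x) ^ 2)⁻¹ * (x ^ (1/8 : ℝ) + x ^ (-(1/8) : ℝ)) ^ 2
        ≤ 1 * (2 * x ^ (-(1/8) : ℝ)) ^ 2 := by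
          gcongr
          linarith
      _ = 4 * x ^ (-(1/4) : ℝ) := by
          rw [mul_pow, h6]
          ring
  · have h2 : IntegrableOn (fun x : ℝ => 4 * x ^ (-(7/4) : ℝ)) (Ioi 1) :=
      (integrableOn_Ioi_rpow_of_lt (by norm_num) one_pos).const_mul _
    have hs : Ioi (1 : ℝ) ⊆ Ioi 0 := Ioi_subset_Ioi zero_le_one
    refine Integrable.mono' h2 ((hc.mono hs).aestronglyMeasurable measurableSet_Ioi) ?_
    refine (ae_restrict_iff' measurableSet_Ioi).2 (ae_of_all _ fun x hx => ?_)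
    rw [Real.norm_of_nonneg (hnn x)]
    have hx1 : (1 : ℝ) ≤ x := le_of_lt hx
    have hx0 : 0 < x := by linarith
    have h4 : x ^ (-(1/8) : ℝ) ≤ x ^ (1/8 : ℝ) :=
      Real.rpow_le_rpow_of_exponent_le hx1 (by norm_num)
    have h5 : 0 < x ^ (-(1/8) : ℝ) := Real.rpow_pos_of_pos hx0 _
    have h6 : (x ^ 2)⁻¹ * (x ^ (1/8 : ℝ)) ^ 2 = x ^ (-(7/4) : ℝ) := by
      rw [← Real.rpow_natCast (x ^ (1/8 : ℝ)), ← Real.rpow_mul hx0.le, ← Real.rpow_natCast x 2,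
        ← Real.rpow_neg hx0.le, ← Real.rpow_add hx0]
      norm_num
    have h7 : ((1 + x) ^ 2)⁻¹ ≤ (x ^ 2)⁻¹ := by
      gcongr
      linarith
    unfold F4O04_G
    calc ((1 + x) ^ 2)⁻¹ * (x ^ (1/8 : ℝ) + x ^ (-(1/8) : ℝ)) ^ 2
        ≤ (x ^ 2)⁻¹ * (2 * x ^ (1/8 : ℝ)) ^ 2 := by
          gcongr
          linarith
      _ = 4 * ((x ^ 2)⁻¹ * (x ^ (1/8 : ℝ)) ^ 2) := by ring
      _ = 4 * x ^ (-(7/4) : ℝ) := by rw [h6]

theorem F4O04_scale {δ y : ℝ} (h0 : 0 < δ) (h1 : δ ≤ 1/4) (hy : 0 < y) :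
    ((1 + δ * y) ^ 2)⁻¹ * (y ^ (1/8 : ℝ) + y ^ (-(1/8) : ℝ)) ^ 2 ≤
      δ ^ (-(1/4) : ℝ) * F4O04_G (δ * y) := by
  have h2 : y ^ (1/8 : ℝ) + y ^ (-(1/8) : ℝ) ≤
      δ ^ (-(1/8) : ℝ) * ((δ * y) ^ (1/8 : ℝ) + (δ * y) ^ (-(1/8) : ℝ)) := by
    rw [Real.mul_rpow h0.le hy.le, Real.mul_rpow h0.le hy.le, mul_add, ← mul_assoc, ← mul_assoc,
      ← Real.rpow_add h0, ← Real.rpow_add h0]
    have h3 : δ ^ (-(1/8) + 1/8 : ℝ) = 1 := by norm_num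
    have h4 : 1 ≤ δ ^ (-(1/8) + -(1/8) : ℝ) :=
      Real.one_le_rpow_of_pos_of_le_one_of_nonpos h0 (by linarith) (by norm_num)
    have h5 : 0 < y ^ (-(1/8) : ℝ) := Real.rpow_pos_of_pos hy _
    rw [h3, one_mul]
    nlinarith
  have h6 : (δ ^ (-(1/8) : ℝ)) ^ 2 = δ ^ (-(1/4) : ℝ) := by
    rw [← Real.rpow_natCast, ← Real.rpow_mul h0.le]
    norm_num
  unfold F4O04_G
  have h7 : 0 ≤ y ^ (1/8 : ℝ) + y ^ (-(1/8) : ℝ) := by positivity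
  calc ((1 + δ * y) ^ 2)⁻¹ * (y ^ (1/8 : ℝ) + y ^ (-(1/8) : ℝ)) ^ 2
      ≤ ((1 + δ * y) ^ 2)⁻¹ *
        (δ ^ (-(1/8) : ℝ) * ((δ * y) ^ (1/8 : ℝ) + (δ * y) ^ (-(1/8) : ℝ))) ^ 2 := by
        gcongr
    _ = (δ ^ (-(1/8) : ℝ)) ^ 2 * (((1 + δ * y) ^ 2)⁻¹ *
        ((δ * y) ^ (1/8 : ℝ) + (δ * y) ^ (-(1/8) : ℝ)) ^ 2) := by ring
    _ = _ := by rw [h6]

/-- pointwise bound of the product with the logarithms -/
theorem F4O04_pt {K δ y A B : ℝ} {w : ℂ} (hK : 0 ≤ K) (h0 : 0 < δ) (h1 : δ ≤ 1/4) (hy : 0 < y)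
    (hA : 1 ≤ A) (hB : 1 ≤ B) (hw : ‖w‖ ≤ K * ((1 + δ * y) ^ 2)⁻¹) :
    ‖w * ((LibF4D.Lg (y / A) * LibF4D.Lg (y / B) : ℝ) : ℂ)‖ ≤
      K * 81 * (A * B) ^ (1/8 : ℝ) * δ ^ (-(1/4) : ℝ) * F4O04_G (δ * y) := by
  have hA0 : 0 < A := by linarith
  have hB0 : 0 < B := by linarith
  have h2 := F4O04_LgA hy hA
  have h3 := F4O04_LgA hy hB
  have h4 := F4O04_scale h0 h1 hy
  have h5 : 0 ≤ y ^ (1/8 : ℝ) + y ^ (-(1/8) : ℝ) := by positivity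
  rw [norm_mul, Complex.norm_real, Real.norm_eq_abs, abs_mul]
  calc ‖w‖ * (|LibF4D.Lg (y / A)| * |LibF4D.Lg (y / B)|)
      ≤ (K * ((1 + δ * y) ^ 2)⁻¹) * ((9 * A ^ (1/8 : ℝ) * (y ^ (1/8 : ℝ) + y ^ (-(1/8) : ℝ))) *
        (9 * B ^ (1/8 : ℝ) * (y ^ (1/8 : ℝ) + y ^ (-(1/8) : ℝ)))) := by
        gcongr
    _ = K * 81 * (A ^ (1/8 : ℝ) * B ^ (1/8 : ℝ)) *
        (((1 + δ * y) ^ 2)⁻¹ * (y ^ (1/8 : ℝ) + y ^ (-(1/8) : ℝ)) ^ 2) := by ring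
    _ ≤ K * 81 * (A ^ (1/8 : ℝ) * B ^ (1/8 : ℝ)) *
        (δ ^ (-(1/4) : ℝ) * F4O04_G (δ * y)) := by gcongr
    _ = _ := by
        rw [Real.mul_rpow hA0.le hB0.le]
        ring

/-- O04a: integrals with logarithms; removing the shift `r` -/
theorem O04_int : ∃ C : ℝ, 1 ≤ C ∧ ∀ (δ : ℝ) (m n r : ℕ) (e A B : ℝ), 0 < δ → δ ≤ 1/4 → 1 ≤ m → 1 ≤ n → 1 ≤ r → |e| = r →
    1 ≤ A → 1 ≤ B → ∀ r' : ℝ, (r' = 0 ∨ r' = r) →
    IntegrableOn (fun y : ℝ => fe δ m n r' e y * ((LibF4D.Lg (y / A) * LibF4D.Lg (y / B) : ℝ) : ℂ)) (Ioi 0) ∧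
    ‖∫ y in Ioi (0:ℝ), fe δ m n r' e y * ((LibF4D.Lg (y / A) * LibF4D.Lg (y / B) : ℝ) : ℂ)‖ ≤
      C * ((m:ℝ) * n) ^ 7 / (r:ℝ) ^ 8 * (A * B) ^ (1/8 : ℝ) * δ ^ (-(5/4) : ℝ) ∧
    ‖(∫ y in Ioi (0:ℝ), fe δ m n r e y * ((LibF4D.Lg (y / A) * LibF4D.Lg (y / B) : ℝ) : ℂ)) -
      ∫ y in Ioi (0:ℝ), fe δ m n 0 e y * ((LibF4D.Lg (y / A) * LibF4D.Lg (y / B) : ℝ) : ℂ)‖ ≤
      C * ((m:ℝ) * n) ^ 7 / (r:ℝ) ^ 8 * (A * B) ^ (1/8 : ℝ) * δ ^ (-(1/4) : ℝ) := by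
  obtain ⟨C₀, hC₀, hb⟩ := F4O04_bd
  set I₀ : ℝ := ∫ t in Ioi (0:ℝ), F4O04_G t with hI₀
  have hnn : ∀ t : ℝ, 0 ≤ F4O04_G t := fun t => by
    unfold F4O04_G
    positivity
  have hI0 : 0 ≤ I₀ := integral_nonneg hnn
  refine ⟨1 + C₀ * 81 * I₀, by
    have : 0 ≤ C₀ * 81 * I₀ := by positivity
    linarith, ?_⟩
  intro δ m n r e A B h0 h1 hm hn hr he hA hB r' hr'
  have hA0 : 0 < A := by linarith
  have hB0 : 0 < B := by linarith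
  have hr1 : (1 : ℝ) ≤ r := by exact_mod_cast hr
  have hb' := hb δ m n r e h0 h1 hm hn hr he
  set W : ℝ := ((m:ℝ) * n) ^ 7 / (r:ℝ) ^ 8 with hW
  have hW0 : 0 ≤ W := by positivity
  -- scaling of the dominating function
  have hGi : IntegrableOn (fun y : ℝ => F4O04_G (δ * y)) (Ioi 0) := by
    have h2 := (integrableOn_Ioi_comp_mul_left_iff F4O04_G 0 h0).2 (by
      rw [mul_zero]
      exact F4O04_G_int)
    exact h2
  have hGint : ∫ y in Ioi (0:ℝ), F4O04_G (δ * y) = δ⁻¹ * I₀ := by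
    rw [integral_comp_mul_left_Ioi F4O04_G 0 h0, mul_zero, smul_eq_mul]
  have hLc : ∀ D : ℝ, 0 < D → ContinuousOn (fun y : ℝ => LibF4D.Lg (y / D)) (Ioi 0) := by
    intro D hD y hy
    have hy0 : (0 : ℝ) < y := hy
    have h2 : ContinuousAt (fun y : ℝ => Real.log (y / D)) y := by
      refine ContinuousAt.log (by fun_prop) ?_
      positivity
    exact (h2.add continuousAt_const).continuousWithinAt
  have hLL : ContinuousOn (fun y : ℝ => ((LibF4D.Lg (y / A) * LibF4D.Lg (y / B) : ℝ) : ℂ))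
      (Ioi 0) :=
    Complex.continuous_ofReal.comp_continuousOn ((hLc A hA0).mul (hLc B hB0))
  -- integrability
  have hint : ∀ t : ℝ, 0 ≤ t → IntegrableOn (fun y : ℝ => fe δ m n t e y *
      ((LibF4D.Lg (y / A) * LibF4D.Lg (y / B) : ℝ) : ℂ)) (Ioi 0) := by
    intro t ht
    refine Integrable.mono' (hGi.const_mul (C₀ * W * 81 * (A * B) ^ (1/8 : ℝ) *
      δ ^ (-(1/4) : ℝ))) (((F4O04_cont h0 h1 hm hn hr he ht).mul hLL).aestronglyMeasurable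
        measurableSet_Ioi) ?_
    refine (ae_restrict_iff' measurableSet_Ioi).2 (ae_of_all _ fun y hy => ?_)
    refine F4O04_pt (by positivity) h0 h1 hy hA hB ?_
    rw [F4O04_fe]
    have h2 := (hb' y t hy ht).1
    rw [hW, ← mul_div_assoc]
    exact h2
  have ht' : 0 ≤ r' := by
    rcases hr' with h | h
    · rw [h]
    · rw [h]
      positivity
  have hfin : ∀ s : ℝ, 0 ≤ s → C₀ * W * s * 81 * (A * B) ^ (1/8 : ℝ) * δ ^ (-(1/4) : ℝ) *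
      (δ⁻¹ * I₀) ≤ (1 + C₀ * 81 * I₀) * ((m:ℝ) * n) ^ 7 / (r:ℝ) ^ 8 * (A * B) ^ (1/8 : ℝ) *
        (δ ^ (-(5/4) : ℝ) * s) := by
    intro s hs
    have h2 : δ ^ (-(5/4) : ℝ) = δ ^ (-(1/4) : ℝ) * δ⁻¹ := by
      rw [← Real.rpow_neg_one, ← Real.rpow_add h0]
      norm_num
    rw [h2, mul_div_assoc, ← hW]
    have h3 : 0 ≤ W * (A * B) ^ (1/8 : ℝ) * (δ ^ (-(1/4) : ℝ) * δ⁻¹ * s) := by positivity
    calc C₀ * W * s * 81 * (A * B) ^ (1/8 : ℝ) * δ ^ (-(1/4) : ℝ) * (δ⁻¹ * I₀)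
        = (C₀ * 81 * I₀) * (W * (A * B) ^ (1/8 : ℝ) * (δ ^ (-(1/4) : ℝ) * δ⁻¹ * s)) := by ring
      _ ≤ (1 + C₀ * 81 * I₀) * (W * (A * B) ^ (1/8 : ℝ) *
          (δ ^ (-(1/4) : ℝ) * δ⁻¹ * s)) := by
          gcongr
          linarith
      _ = _ := by ring
  refine ⟨hint r' ht', ?_, ?_⟩
  · have h2 := norm_integral_le_of_norm_le (μ := volume.restrict (Ioi (0:ℝ)))
      (hGi.const_mul (C₀ * W * 81 * (A * B) ^ (1/8 : ℝ) * δ ^ (-(1/4) : ℝ)))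
      (f := fun y : ℝ => fe δ m n r' e y * ((LibF4D.Lg (y / A) * LibF4D.Lg (y / B) : ℝ) : ℂ)) (by
        refine (ae_restrict_iff' measurableSet_Ioi).2 (ae_of_all _ fun y hy => ?_)
        refine F4O04_pt (by positivity) h0 h1 hy hA hB ?_
        rw [F4O04_fe]
        have h2 := (hb' y r' hy ht').1
        rw [hW, ← mul_div_assoc]
        exact h2)
    rw [integral_const_mul, hGint] at h2
    have h3 := hfin 1 zero_le_one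
    rw [mul_one, mul_one] at h3
    exact h2.trans h3
  · rw [← integral_sub (hint r (by positivity)) (hint 0 le_rfl)]
    have h2 := norm_integral_le_of_norm_le (μ := volume.restrict (Ioi (0:ℝ)))
      (hGi.const_mul (C₀ * W * δ * 81 * (A * B) ^ (1/8 : ℝ) * δ ^ (-(1/4) : ℝ)))
      (f := fun y : ℝ => fe δ m n r e y * ((LibF4D.Lg (y / A) * LibF4D.Lg (y / B) : ℝ) : ℂ) -
        fe δ m n 0 e y * ((LibF4D.Lg (y / A) * LibF4D.Lg (y / B) : ℝ) : ℂ)) (by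
        refine (ae_restrict_iff' measurableSet_Ioi).2 (ae_of_all _ fun y hy => ?_)
        rw [← sub_mul]
        refine F4O04_pt (by positivity) h0 h1 hy hA hB ?_
        have h2 := F4O04_diff h0 h1 hm hn hr he hy (by linarith : 0 ≤ C₀)
          (fun t ht => (hb' y t hy ht).2)
        refine h2.trans (le_of_eq ?_)
        rw [hW]
        ring)
    rw [integral_const_mul, hGint] at h2
    have h3 := hfin δ h0.le
    have h4 : δ ^ (-(5/4) : ℝ) * δ = δ ^ (-(1/4) : ℝ) := by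
      nth_rw 2 [← Real.rpow_one δ]
      rw [← Real.rpow_add h0]
      norm_num
    rw [h4] at h3
    exact h2.trans h3

end Pool.Agent.LibF4
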