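import Mathlib
import Pool.Agent.LibF4.ODefs
import Pool.Agent.LibF4.O04
import Pool.Agent.LibF4.OBridge

/-! Row O05.
Unfold LibF4D.MM; A = m (lr l m)², B = n (lr l n)² ≥ 1, (AB)^{1/8} ≤ (mn)^{1/8} l^{1/2}; |cr| ≤ r²; 1/(lr l m * lr l n) ≤ m n/l²; so the l-series converge like l^{-3/2}: ‖MM(fe 0)‖ ≤ C (mn)^8 r^{-6} δ^{-5/4}; the same for fe r; difference of the series termwise (tsum_sub).
For MM n m: Lam m n in fe does not change; roles of A, B exchanged (mul_comm).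
-/

set_option autoImplicit false

namespace Pool.Agent.LibF4

open MeasureTheory Set Filter Topology Complex
open scoped ComplexConjugate

theorem O05_coef {m n p q l r : ℕ} (hp : 1 ≤ p) (hq : 1 ≤ q) (hpq : p * q = m * n) (hl : 1 ≤ l)
    (hr : 1 ≤ r) {C0 D : ℝ} (hC0 : 0 ≤ C0) (hD : 0 ≤ D) {I : ℂ}
    (hI : ‖I‖ ≤ C0 * ((m:ℝ) * n) ^ 7 / (r:ℝ) ^ 8 *
      (((p:ℝ) * (LibF4D.lr l p : ℝ) ^ 2) * ((q:ℝ) * (LibF4D.lr l q : ℝ) ^ 2)) ^ (1/8 : ℝ) * D) :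
    ‖((((LibF4D.cr l r : ℤ) : ℝ) / ((LibF4D.lr l p : ℝ) * (LibF4D.lr l q : ℝ)) : ℝ) : ℂ) * I‖ ≤
      C0 * ((m:ℝ) * n) ^ 9 / (r:ℝ) ^ 6 * D * (l:ℝ) ^ (-(3/2) : ℝ) := by
  obtain ⟨ha1, hal, hla⟩ := D14_lr_ge hl hp
  obtain ⟨hb1, hbl, hlb⟩ := D14_lr_ge hl hq
  have hc := D14_cr_le (l := l) hr
  set a : ℝ := (LibF4D.lr l p : ℝ) with ha
  set b : ℝ := (LibF4D.lr l q : ℝ) with hb
  have ha1' : 1 ≤ a := by rw [ha]; exact_mod_cast ha1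
  have hb1' : 1 ≤ b := by rw [hb]; exact_mod_cast hb1
  have hal' : a ≤ l := by rw [ha]; exact_mod_cast hal
  have hbl' : b ≤ l := by rw [hb]; exact_mod_cast hbl
  have hla' : (l : ℝ) ≤ a * p := by rw [ha]; exact_mod_cast hla
  have hlb' : (l : ℝ) ≤ b * q := by rw [hb]; exact_mod_cast hlb
  have hl1 : (1 : ℝ) ≤ l := by exact_mod_cast hl
  have hr1 : (1 : ℝ) ≤ r := by exact_mod_cast hr
  have hp1 : (1 : ℝ) ≤ p := by exact_mod_cast hp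
  have hq1 : (1 : ℝ) ≤ q := by exact_mod_cast hq
  have hl0 : (0 : ℝ) < l := by linarith
  have hr0 : (0 : ℝ) < r := by linarith
  have hpq' : (p : ℝ) * q = (m : ℝ) * n := by exact_mod_cast hpq
  have hmn1 : (1 : ℝ) ≤ (m : ℝ) * n := by
    rw [← hpq']; exact one_le_mul_of_one_le_of_one_le hp1 hq1
  have hc' : |((LibF4D.cr l r : ℤ) : ℝ)| ≤ (r : ℝ) ^ 2 := by exact_mod_cast hc
  have h1 : |((LibF4D.cr l r : ℤ) : ℝ)| / (a * b) ≤ (r : ℝ) ^ 2 * (((m : ℝ) * n) / (l : ℝ) ^ 2) := by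
    rw [div_le_iff₀ (by positivity)]
    have h2 : (l : ℝ) ^ 2 ≤ (a * b) * ((m : ℝ) * n) := by
      calc (l : ℝ) ^ 2 = l * l := by ring
        _ ≤ (a * p) * (b * q) := by gcongr
        _ = (a * b) * ((p : ℝ) * q) := by ring
        _ = _ := by rw [hpq']
    have h3 : 1 ≤ ((m : ℝ) * n) / (l : ℝ) ^ 2 * (a * b) := by
      rw [div_mul_eq_mul_div, one_le_div (by positivity)]
      linarith
    calc |((LibF4D.cr l r : ℤ) : ℝ)| ≤ (r : ℝ) ^ 2 := hc'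
      _ = (r : ℝ) ^ 2 * 1 := by ring
      _ ≤ (r : ℝ) ^ 2 * (((m : ℝ) * n) / (l : ℝ) ^ 2 * (a * b)) := by gcongr
      _ = _ := by ring
  have h4 : (((p:ℝ) * a ^ 2) * ((q:ℝ) * b ^ 2)) ^ (1/8 : ℝ) ≤ ((m : ℝ) * n) * (l : ℝ) ^ (1/2 : ℝ) := by
    have h5 : ((p:ℝ) * a ^ 2) * ((q:ℝ) * b ^ 2) ≤ ((m : ℝ) * n) * (l : ℝ) ^ 4 := by
      calc ((p:ℝ) * a ^ 2) * ((q:ℝ) * b ^ 2) = ((p : ℝ) * q) * (a ^ 2 * b ^ 2) := by ring
        _ ≤ ((p : ℝ) * q) * ((l : ℝ) ^ 2 * (l : ℝ) ^ 2) := by gcongr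
        _ = _ := by rw [hpq']; ring
    calc (((p:ℝ) * a ^ 2) * ((q:ℝ) * b ^ 2)) ^ (1/8 : ℝ)
        ≤ (((m : ℝ) * n) * (l : ℝ) ^ 4) ^ (1/8 : ℝ) :=
          Real.rpow_le_rpow (by positivity) h5 (by norm_num)
      _ = ((m : ℝ) * n) ^ (1/8 : ℝ) * ((l : ℝ) ^ 4) ^ (1/8 : ℝ) :=
          Real.mul_rpow (by positivity) (by positivity)
      _ = ((m : ℝ) * n) ^ (1/8 : ℝ) * (l : ℝ) ^ (1/2 : ℝ) := by
          rw [← Real.rpow_natCast, ← Real.rpow_mul hl0.le]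
          norm_num
      _ ≤ ((m : ℝ) * n) * (l : ℝ) ^ (1/2 : ℝ) := by
          gcongr
          calc ((m : ℝ) * n) ^ (1/8 : ℝ) ≤ ((m : ℝ) * n) ^ (1 : ℝ) :=
                Real.rpow_le_rpow_of_exponent_le hmn1 (by norm_num)
            _ = _ := Real.rpow_one _
  have h6 : (l : ℝ) ^ (1/2 : ℝ) / (l : ℝ) ^ 2 = (l : ℝ) ^ (-(3/2) : ℝ) := by
    rw [← Real.rpow_natCast, ← Real.rpow_sub hl0]
    norm_num
  rw [norm_mul, Complex.norm_real, Real.norm_eq_abs, abs_div, abs_of_pos (by positivity : 0 < a * b)]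
  calc |((LibF4D.cr l r : ℤ) : ℝ)| / (a * b) * ‖I‖
      ≤ ((r : ℝ) ^ 2 * (((m : ℝ) * n) / (l : ℝ) ^ 2)) *
        (C0 * ((m:ℝ) * n) ^ 7 / (r:ℝ) ^ 8 * (((m : ℝ) * n) * (l : ℝ) ^ (1/2 : ℝ)) * D) := by
        refine mul_le_mul h1 (hI.trans ?_) (norm_nonneg _) (by positivity)
        gcongr
    _ = C0 * ((m:ℝ) * n) ^ 9 / (r:ℝ) ^ 6 * D * ((l : ℝ) ^ (1/2 : ℝ) / (l : ℝ) ^ 2) := by
        field_simp
    _ = _ := by rw [h6]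

theorem O05_aux : ∃ C : ℝ, 1 ≤ C ∧ ∀ (δ : ℝ) (m n p q r : ℕ) (e : ℝ), 0 < δ → δ ≤ 1/4 → 1 ≤ m →
    1 ≤ n → 1 ≤ p → 1 ≤ q → p * q = m * n → 1 ≤ r → |e| = r →
    ‖LibF4D.MM p q r (fe δ m n 0 e)‖ ≤ C * ((m:ℝ) * n) ^ 9 * δ ^ (-(5/4) : ℝ) * (1 / (r:ℝ) ^ 6) ∧
    ‖LibF4D.MM p q r (fe δ m n r e) - LibF4D.MM p q r (fe δ m n 0 e)‖ ≤
      C * ((m:ℝ) * n) ^ 9 * δ ^ (-(1/4) : ℝ) * (1 / (r:ℝ) ^ 6) := by
  obtain ⟨C0, hC0, H⟩ := O04_int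
  have hsum : Summable fun l : ℕ => (l:ℝ) ^ (-(3/2) : ℝ) := Real.summable_nat_rpow.2 (by norm_num)
  set Z : ℝ := ∑' l : ℕ, (l:ℝ) ^ (-(3/2) : ℝ) with hZ
  have hZ0 : 0 ≤ Z := tsum_nonneg fun l => Real.rpow_nonneg (Nat.cast_nonneg _) _
  refine ⟨C0 * Z + 1, by nlinarith, ?_⟩
  intro δ m n p q r e h0 h1 hm hn hp hq hpq hr he
  have hp1 : (1 : ℝ) ≤ p := by exact_mod_cast hp
  have hq1 : (1 : ℝ) ≤ q := by exact_mod_cast hq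
  have hm1 : (1 : ℝ) ≤ m := by exact_mod_cast hm
  have hn1 : (1 : ℝ) ≤ n := by exact_mod_cast hn
  have hr1 : (1 : ℝ) ≤ r := by exact_mod_cast hr
  have hr0 : (0 : ℝ) < r := by linarith
  set T : ℝ → ℕ → ℂ := fun r' l => if 1 ≤ l then
      ((((LibF4D.cr l r : ℤ) : ℝ) / ((LibF4D.lr l p : ℝ) * (LibF4D.lr l q : ℝ)) : ℝ) : ℂ) *
      ∫ y in Ioi (0 : ℝ), fe δ m n r' e y * ((LibF4D.Lg (y / (p * (LibF4D.lr l p : ℝ) ^ 2)) *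
        LibF4D.Lg (y / (q * (LibF4D.lr l q : ℝ) ^ 2)) : ℝ) : ℂ) else 0 with hT
  have hMM : ∀ r' : ℝ, LibF4D.MM p q r (fe δ m n r' e) = (1 / ((p : ℂ) * q)) * ∑' l : ℕ, T r' l := by
    intro r'
    rfl
  have hA : ∀ l : ℕ, 1 ≤ l → (1 : ℝ) ≤ (p : ℝ) * (LibF4D.lr l p : ℝ) ^ 2 ∧
      (1 : ℝ) ≤ (q : ℝ) * (LibF4D.lr l q : ℝ) ^ 2 := by
    intro l hl
    have ha1 : (1 : ℝ) ≤ (LibF4D.lr l p : ℝ) := by exact_mod_cast (D14_lr_ge hl hp).1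
    have hb1 : (1 : ℝ) ≤ (LibF4D.lr l q : ℝ) := by exact_mod_cast (D14_lr_ge hl hq).1
    exact ⟨one_le_mul_of_one_le_of_one_le hp1 (one_le_pow₀ ha1),
      one_le_mul_of_one_le_of_one_le hq1 (one_le_pow₀ hb1)⟩
  have hTb : ∀ r' : ℝ, (r' = 0 ∨ r' = r) → ∀ l : ℕ, ‖T r' l‖ ≤
      C0 * ((m:ℝ) * n) ^ 9 / (r:ℝ) ^ 6 * δ ^ (-(5/4) : ℝ) * (l:ℝ) ^ (-(3/2) : ℝ) := by
    intro r' hr' l
    by_cases hl : 1 ≤ l
    · simp only [hT, if_pos hl]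
      exact O05_coef hp hq hpq hl hr (by linarith) (by positivity)
        (H δ m n r e _ _ h0 h1 hm hn hr he (hA l hl).1 (hA l hl).2 r' hr').2.1
    · simp only [hT, if_neg hl, norm_zero]
      positivity
  have hTd : ∀ l : ℕ, ‖T r l - T 0 l‖ ≤
      C0 * ((m:ℝ) * n) ^ 9 / (r:ℝ) ^ 6 * δ ^ (-(1/4) : ℝ) * (l:ℝ) ^ (-(3/2) : ℝ) := by
    intro l
    by_cases hl : 1 ≤ l
    · simp only [hT, if_pos hl]
      rw [← mul_sub]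
      exact O05_coef hp hq hpq hl hr (by linarith) (by positivity)
        (H δ m n r e _ _ h0 h1 hm hn hr he (hA l hl).1 (hA l hl).2 0 (Or.inl rfl)).2.2
    · simp only [hT, if_neg hl, sub_zero, norm_zero]
      positivity
  have hTs : ∀ r' : ℝ, (r' = 0 ∨ r' = r) → Summable fun l : ℕ => T r' l := fun r' hr' =>
    Summable.of_norm_bounded (hsum.mul_left _) (hTb r' hr')
  have hpqn : ‖(1 / ((p : ℂ) * q))‖ ≤ 1 := by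
    rw [norm_div, norm_one, norm_mul, Complex.norm_natCast, Complex.norm_natCast,
      div_le_one (by positivity)]
    exact one_le_mul_of_one_le_of_one_le hp1 hq1
  have hfin : ∀ D : ℝ, 0 ≤ D → C0 * ((m:ℝ) * n) ^ 9 / (r:ℝ) ^ 6 * D * Z ≤
      (C0 * Z + 1) * ((m:ℝ) * n) ^ 9 * D * (1 / (r:ℝ) ^ 6) := by
    intro D hD
    have : C0 * ((m:ℝ) * n) ^ 9 / (r:ℝ) ^ 6 * D * Z =
        (C0 * Z) * (((m:ℝ) * n) ^ 9 * D * (1 / (r:ℝ) ^ 6)) := by ring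
    rw [this, mul_assoc (C0 * Z + 1), mul_assoc (C0 * Z + 1)]
    exact mul_le_mul_of_nonneg_right (by linarith) (by positivity)
  constructor
  · rw [hMM, norm_mul]
    calc ‖(1 / ((p : ℂ) * q))‖ * ‖∑' l : ℕ, T 0 l‖
        ≤ 1 * (C0 * ((m:ℝ) * n) ^ 9 / (r:ℝ) ^ 6 * δ ^ (-(5/4) : ℝ) * Z) := by
          refine mul_le_mul hpqn ?_ (norm_nonneg _) zero_le_one
          rw [hZ, ← tsum_mul_left]
          exact tsum_of_norm_bounded (hsum.mul_left _).hasSum (hTb 0 (Or.inl rfl))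
      _ ≤ _ := by
          rw [one_mul]
          exact hfin _ (by positivity)
  · rw [hMM, hMM, ← mul_sub, ← (hTs r (Or.inr rfl)).tsum_sub (hTs 0 (Or.inl rfl)), norm_mul]
    calc ‖(1 / ((p : ℂ) * q))‖ * ‖∑' l : ℕ, (T r l - T 0 l)‖
        ≤ 1 * (C0 * ((m:ℝ) * n) ^ 9 / (r:ℝ) ^ 6 * δ ^ (-(1/4) : ℝ) * Z) := by
          refine mul_le_mul hpqn ?_ (norm_nonneg _) zero_le_one
          rw [hZ, ← tsum_mul_left]
          exact tsum_of_norm_bounded (hsum.mul_left _).hasSum hTd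
      _ ≤ _ := by
          rw [one_mul]
          exact hfin _ (by positivity)

/-- O05: the sum over `l` and `r` -/
theorem O05_MM : ∃ C : ℝ, 1 ≤ C ∧ ∀ (δ : ℝ) (m n : ℕ), 0 < δ → δ ≤ 1/4 → 1 ≤ m → 1 ≤ n →
    Summable (fun r : ℕ => LibF4D.MM m n (r + 1) (fe δ m n 0 (r + 1)) + LibF4D.MM n m (r + 1) (fe δ m n 0 (-(r + 1)))) ∧
    Summable (fun r : ℕ => ‖(LibF4D.MM m n (r + 1) (fe δ m n (r + 1) (r + 1)) +
      LibF4D.MM n m (r + 1) (fe δ m n (r + 1) (-(r + 1)))) -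
      (LibF4D.MM m n (r + 1) (fe δ m n 0 (r + 1)) + LibF4D.MM n m (r + 1) (fe δ m n 0 (-(r + 1))))‖) ∧
    ∑' r : ℕ, ‖(LibF4D.MM m n (r + 1) (fe δ m n (r + 1) (r + 1)) +
      LibF4D.MM n m (r + 1) (fe δ m n (r + 1) (-(r + 1)))) -
      (LibF4D.MM m n (r + 1) (fe δ m n 0 (r + 1)) + LibF4D.MM n m (r + 1) (fe δ m n 0 (-(r + 1))))‖ ≤
      C * ((m:ℝ) * n) ^ 10 * δ ^ (-(1/4) : ℝ) := by
  obtain ⟨C, hC, H⟩ := O05_aux
  have hsum : Summable fun r : ℕ => (1 / ((r + 1 : ℕ) : ℝ) ^ 6) :=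
    (summable_nat_add_iff 1).2 (Real.summable_one_div_nat_pow.2 (by norm_num))
  set W : ℝ := ∑' r : ℕ, (1 / ((r + 1 : ℕ) : ℝ) ^ 6) with hW
  have hW0 : 0 ≤ W := tsum_nonneg fun r => by positivity
  refine ⟨2 * C * W + 1, by nlinarith, ?_⟩
  intro δ m n h0 h1 hm hn
  have hm1 : (1 : ℝ) ≤ m := by exact_mod_cast hm
  have hn1 : (1 : ℝ) ≤ n := by exact_mod_cast hn
  have hmn : (1 : ℝ) ≤ (m : ℝ) * n := one_le_mul_of_one_le_of_one_le hm1 hn1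
  have hA : ∀ r : ℕ, _ := fun r => H δ m n m n (r + 1) ((r : ℝ) + 1) h0 h1 hm hn hm hn rfl
    (by omega) (by rw [abs_of_nonneg (by positivity)]; push_cast; rfl)
  have hB : ∀ r : ℕ, _ := fun r => H δ m n n m (r + 1) (-((r : ℝ) + 1)) h0 h1 hm hn hn hm
    (mul_comm n m) (by omega) (by rw [abs_neg, abs_of_nonneg (by positivity)]; push_cast; rfl)
  have hbd : ∀ r : ℕ, ‖(LibF4D.MM m n (r + 1) (fe δ m n (r + 1) (r + 1)) +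
      LibF4D.MM n m (r + 1) (fe δ m n (r + 1) (-(r + 1)))) -
      (LibF4D.MM m n (r + 1) (fe δ m n 0 (r + 1)) + LibF4D.MM n m (r + 1) (fe δ m n 0 (-(r + 1))))‖ ≤
      (2 * C * ((m:ℝ) * n) ^ 9 * δ ^ (-(1/4) : ℝ)) * (1 / ((r + 1 : ℕ) : ℝ) ^ 6) := by
    intro r
    have h2 := (hA r).2
    have h3 := (hB r).2
    push_cast at h2 h3 ⊢
    rw [add_sub_add_comm]
    refine (norm_add_le _ _).trans ((add_le_add h2 h3).trans (le_of_eq ?_))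
    ring
  refine ⟨?_, ?_, ?_⟩
  · refine Summable.of_norm_bounded (g := fun r : ℕ => (2 * C * ((m:ℝ) * n) ^ 9 * δ ^ (-(5/4) : ℝ)) *
      (1 / ((r + 1 : ℕ) : ℝ) ^ 6)) (hsum.mul_left _) fun r => ?_
    have h2 := (hA r).1
    have h3 := (hB r).1
    refine (norm_add_le _ _).trans ((add_le_add h2 h3).trans (le_of_eq ?_))
    ring
  · exact Summable.of_nonneg_of_le (fun _ => norm_nonneg _) hbd (hsum.mul_left _)
  · calc _ ≤ ∑' r : ℕ, (2 * C * ((m:ℝ) * n) ^ 9 * δ ^ (-(1/4) : ℝ)) * (1 / ((r + 1 : ℕ) : ℝ) ^ 6) :=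
          (Summable.of_nonneg_of_le (fun _ => norm_nonneg _) hbd (hsum.mul_left _)).tsum_le_tsum hbd
            (hsum.mul_left _)
      _ = (2 * C * W) * (((m:ℝ) * n) ^ 9 * δ ^ (-(1/4) : ℝ)) := by
          rw [tsum_mul_left, ← hW]
          ring
      _ ≤ (2 * C * W + 1) * (((m:ℝ) * n) ^ 10 * δ ^ (-(1/4) : ℝ)) := by
          gcongr
          · linarith
          · norm_num
      _ = _ := by ring

end Pool.Agent.LibF4
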