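import Mathlib
import Pool.Agent.LibF4.ODefs
import Pool.Agent.LibF4.O02
import Pool.Agent.LibF4.O03
import Pool.Agent.LibF4.O05

/-! Row O06.
Triangle inequality: T4-sum - diagonal = ∑ Sr-terms (O02); minus OM = ∑(Sr - MM) + ∑(MM - MM0). δ^{-1/4} ≤ δ^{-7/8}.
-/

set_option autoImplicit false

namespace Pool.Agent.LibF4

open MeasureTheory Set Filter Topology Complex
open scoped ComplexConjugate

/-- O06: diagonal plus off-diagonal main term -/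
theorem O06_T4 : ∃ C : ℝ, 1 ≤ C ∧ ∀ (δ : ℝ) (m n : ℕ), 0 < δ → δ ≤ 1/4 → 1 ≤ m → 1 ≤ n → Nat.Coprime m n →
    ‖(∑' ab : ℕ × ℕ, T4 δ m n ab) -
      (∑' k : ℕ, ((dv (n * (k + 1)) * dv (m * (k + 1)) : ℝ) : ℂ) * Jk (Lam m n) (pf δ (2 * ((m:ℝ) * n * (k + 1))) 0)) -
      OM δ m n‖ ≤ C * ((m:ℝ) * n) ^ 15 * δ ^ (-(7/8) : ℝ) := by
  obtain ⟨C3, hC3, H3⟩ := O03_err
  obtain ⟨C5, hC5, H5⟩ := O05_MM
  refine ⟨C3 + C5, by linarith, ?_⟩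
  intro δ m n h0 h1 hm hn hco
  obtain ⟨hS, -, hsplit⟩ := O02_split h0 h1 hm hn hco
  obtain ⟨hE1, hE1'⟩ := H3 δ m n h0 h1 hm hn
  obtain ⟨hM0, hE2, hE2'⟩ := H5 δ m n h0 h1 hm hn
  rw [hsplit]
  unfold OM
  have hd := hS.tsum_sub hM0
  have hdec := hE1.of_norm.tsum_add hE2.of_norm
  have heq : ∑' r : ℕ, ((LibF4D.Sr m n (r + 1) (fe δ m n (r + 1) (r + 1)) +
        LibF4D.Sr n m (r + 1) (fe δ m n (r + 1) (-(r + 1)))) -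
      (LibF4D.MM m n (r + 1) (fe δ m n 0 (r + 1)) + LibF4D.MM n m (r + 1) (fe δ m n 0 (-(r + 1))))) =
      ∑' r : ℕ, (((LibF4D.Sr m n (r + 1) (fe δ m n (r + 1) (r + 1)) +
      LibF4D.Sr n m (r + 1) (fe δ m n (r + 1) (-(r + 1)))) -
      (LibF4D.MM m n (r + 1) (fe δ m n (r + 1) (r + 1)) + LibF4D.MM n m (r + 1) (fe δ m n (r + 1) (-(r + 1))))) +
      ((LibF4D.MM m n (r + 1) (fe δ m n (r + 1) (r + 1)) +
      LibF4D.MM n m (r + 1) (fe δ m n (r + 1) (-(r + 1)))) -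
      (LibF4D.MM m n (r + 1) (fe δ m n 0 (r + 1)) + LibF4D.MM n m (r + 1) (fe δ m n 0 (-(r + 1)))))) :=
    tsum_congr fun r => by ring
  rw [add_sub_cancel_left, ← hd, heq, hdec]
  have hm1 : (1 : ℝ) ≤ m := by exact_mod_cast hm
  have hn1 : (1 : ℝ) ≤ n := by exact_mod_cast hn
  have hmn : (1 : ℝ) ≤ (m : ℝ) * n := one_le_mul_of_one_le_of_one_le hm1 hn1
  have hδ : δ ^ (-(1/4) : ℝ) ≤ δ ^ (-(7/8) : ℝ) :=
    Real.rpow_le_rpow_of_exponent_ge h0 (by linarith) (by norm_num)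
  have hp : ((m : ℝ) * n) ^ 10 ≤ ((m : ℝ) * n) ^ 15 := pow_le_pow_right₀ hmn (by norm_num)
  calc _ ≤ _ := norm_add_le _ _
    _ ≤ C3 * ((m:ℝ) * n) ^ 15 * δ ^ (-(7/8) : ℝ) + C5 * ((m:ℝ) * n) ^ 10 * δ ^ (-(1/4) : ℝ) :=
        add_le_add ((norm_tsum_le_tsum_norm hE1).trans hE1') ((norm_tsum_le_tsum_norm hE2).trans hE2')
    _ ≤ C3 * ((m:ℝ) * n) ^ 15 * δ ^ (-(7/8) : ℝ) + C5 * ((m:ℝ) * n) ^ 15 * δ ^ (-(7/8) : ℝ) := by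
        gcongr
    _ = _ := by ring

end Pool.Agent.LibF4
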