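import Mathlib
import Pool.Agent.LibF4.ODefs

/-! Row O07.
Av ρ h = (2πi)⁻¹ ∮ h(α)/α dα (circleIntegral unfolds to this). h = (1/α + 2γ) e^{α log Y}: Cauchy formula for the value at 0 (2γ) and for the derivative at 0 of e^{α log Y} (log Y)
(Complex.circleIntegral_sub_inv_smul..., and the derivative formula Complex.two_pi_I_inv_smul_circleIntegral_sub_sq_inv_smul_of_differentiable or cauchyPowerSeries).
-/

set_option autoImplicit false

namespace Pool.Agent.LibF4

open MeasureTheory Set Filter Topology Complex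
open scoped ComplexConjugate

theorem F4O07_cont {ρ : ℝ} (hρ : 0 < ρ) (n : ℕ) (L : ℂ) :
    Continuous fun θ : ℝ => deriv (circleMap 0 ρ) θ •
      ((circleMap 0 ρ θ - 0) ^ n)⁻¹ • cexp (L * circleMap 0 ρ θ) := by
  have hc : Continuous (circleMap 0 ρ) := continuous_circleMap 0 ρ
  have hne : ∀ θ, circleMap 0 ρ θ - 0 ≠ 0 := fun θ => by
    rw [sub_zero]
    exact circleMap_ne_center hρ.ne'
  simp only [deriv_circleMap, smul_eq_mul]
  refine (hc.mul continuous_const).mul (Continuous.mul ?_ ?_)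
  · exact ((hc.sub continuous_const).pow n).inv₀ fun θ => pow_ne_zero _ (hne θ)
  · exact Complex.continuous_exp.comp (continuous_const.mul hc)

/-- O07: logarithms as circle averages -/
theorem O07_Lg {ρ : ℝ} (hρ : 0 < ρ) {Y : ℝ} (hY : 0 < Y) :
    ((LibF4D.Lg Y : ℝ) : ℂ) = Av ρ (fun α => wk α * (Y:ℂ) ^ α) := by
  set L : ℂ := ((Real.log Y : ℝ) : ℂ) with hL
  have hY0 : (Y : ℂ) ≠ 0 := by exact_mod_cast hY.ne'
  have hg : ∀ α : ℂ, (Y : ℂ) ^ α = cexp (L * α) := fun α => by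
    rw [Complex.cpow_def_of_ne_zero hY0, hL, Complex.ofReal_log hY.le]
  have hd : Differentiable ℂ fun α : ℂ => cexp (L * α) :=
    (differentiable_id.const_mul L).cexp
  have h0 : (0 : ℂ) ∈ Metric.ball (0 : ℂ) ρ := Metric.mem_ball_self hρ
  have hpi : (2 * Real.pi * I : ℂ) ≠ 0 := by
    simp [Real.pi_ne_zero, I_ne_zero]
  have h1 := Complex.two_pi_I_inv_smul_circleIntegral_sub_sq_inv_smul_of_differentiable
    (isOpen_univ) (Set.subset_univ (Metric.closedBall (0 : ℂ) ρ)) hd.differentiableOn h0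
  have hder : deriv (fun α : ℂ => cexp (L * α)) 0 = L := by
    have : HasDerivAt (fun α : ℂ => cexp (L * α)) (cexp (L * 0) * (L * 1)) 0 :=
      ((hasDerivAt_id (0 : ℂ)).const_mul L).cexp
    rw [this.deriv]
    simp
  rw [hder] at h1
  have h2 := (hd.diffContOnCl (s := Metric.ball (0 : ℂ) ρ)).circleIntegral_sub_inv_smul h0
  have h1' : (∮ z in C((0 : ℂ), ρ), ((z - 0) ^ 2)⁻¹ • cexp (L * z)) = 2 * Real.pi * I * L := by
    rw [smul_eq_mul, inv_mul_eq_iff_eq_mul₀ hpi] at h1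
    exact h1
  have h2' : (∮ z in C((0 : ℂ), ρ), ((z - 0) ^ 1)⁻¹ • cexp (L * z)) = 2 * Real.pi * I := by
    simp only [pow_one]
    rw [h2]
    simp
  unfold circleIntegral at h1' h2'
  have hpt : ∀ θ : ℝ, wk (ρ * cexp (θ * I)) * (Y : ℂ) ^ (ρ * cexp (θ * I) : ℂ) =
      I⁻¹ * (deriv (circleMap 0 ρ) θ • ((circleMap 0 ρ θ - 0) ^ 2)⁻¹ •
        cexp (L * circleMap 0 ρ θ)) +
      I⁻¹ * (2 * (Real.eulerMascheroniConstant : ℂ)) * (deriv (circleMap 0 ρ) θ •
        ((circleMap 0 ρ θ - 0) ^ 1)⁻¹ • cexp (L * circleMap 0 ρ θ)) := by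
    intro θ
    have hc : (ρ * cexp (θ * I) : ℂ) = circleMap 0 ρ θ := by simp [circleMap]
    have hne : circleMap 0 ρ θ ≠ 0 := circleMap_ne_center hρ.ne'
    rw [hc, hg, deriv_circleMap, wk, sub_zero]
    simp only [smul_eq_mul]
    have hI := I_ne_zero
    field_simp
  unfold Av
  simp only [hpt]
  rw [intervalIntegral.integral_add, intervalIntegral.integral_const_mul,
    intervalIntegral.integral_const_mul, h1', h2']
  · rw [LibF4D.Lg]
    have hI := I_ne_zero
    have hp : (Real.pi : ℂ) ≠ 0 := by exact_mod_cast Real.pi_ne_zero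
    push_cast
    rw [← hL]
    field_simp
  · exact ((F4O07_cont hρ 2 L).const_mul _).intervalIntegrable _ _
  · exact ((F4O07_cont hρ 1 L).const_mul _).intervalIntegrable _ _

end Pool.Agent.LibF4
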