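import Mathlib
import Pool.Agent.LibF4.ODefs

/-! Row O08.
Substitute x = 2 y sin δ: need ∫_0^∞ x^s (x - iR)^{-1-z} dx = (-iR)^{s-z} B(1+s, z-s), R = e cos δ ≠ 0. For η > 0: (x+η-iR)^{-1-z} Γ(1+z) = ∫_0^∞ t^z e^{-(x+η-iR)t} dt (Complex.integral_cpow_mul_exp_neg_mul_Ioi), Fubini, ∫x^s e^{-xt}dx = Γ(1+s)t^{-1-s},
∫ t^{z-s-1} e^{-(η-iR)t} dt = Γ(z-s)(η-iR)^{s-z}; then η → 0+ by dominated convergence (|x+η-iR| ≥ |x-iR|, |(..)^{-1-z}| = |..|^{-1-Re z} e^{Im z arg} bounded by e^{π|Im z|/2}). Continuity of cpow at -iR (slit plane).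
-/

set_option autoImplicit false

namespace Pool.Agent.LibF4

open MeasureTheory Set Filter Topology Complex
open scoped ComplexConjugate

theorem F4O08_exp_int {σ b : ℝ} (hσ : -1 < σ) (hb : 0 < b) :
    IntegrableOn (fun t : ℝ => t ^ σ * Real.exp (-(b * t))) (Ioi 0) := by
  have h := integrableOn_rpow_mul_exp_neg_mul_rpow (p := 1) (s := σ) (b := b) hσ one_pos hb
  refine h.congr_fun (fun t ht => ?_) measurableSet_Ioi
  simp only [Real.rpow_one]
  ring_nf

theorem F4O08_norm {s : ℂ} {y : ℝ} (hy : 0 < y) : ‖(y:ℂ) ^ s‖ = y ^ s.re := by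
  rw [Complex.norm_cpow_eq_rpow_re_of_pos hy]

theorem F4O08_inv {r a : ℂ} (hr : 0 < r.re) : (1 / r) ^ a = r ^ (-a) := by
  rw [one_div, Complex.inv_cpow, Complex.cpow_neg]
  intro h
  have h1 := Complex.arg_eq_pi_iff.mp h
  linarith [h1.1]

theorem F4O08_diff {a : ℂ} (ha : 0 < a.re) {r : ℂ} (hr : 0 < r.re) :
    DifferentiableAt ℂ (fun r : ℂ => ∫ t in Ioi (0:ℝ), (t:ℂ) ^ (a - 1) * cexp (-(r * t))) r := by
  have h := hasDerivAt_integral_of_dominated_loc_of_deriv_le
    (μ := volume.restrict (Ioi (0:ℝ)))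
    (F := fun (r : ℂ) (t : ℝ) => (t:ℂ) ^ (a - 1) * cexp (-(r * t)))
    (F' := fun (r : ℂ) (t : ℝ) => (t:ℂ) ^ (a - 1) * (cexp (-(r * t)) * (-(1 * (t:ℂ)))))
    (x₀ := r) (s := Metric.ball r (r.re / 2))
    (bound := fun t : ℝ => t ^ a.re * Real.exp (-(r.re / 2 * t)))
    (Metric.ball_mem_nhds r (by linarith)) ?_ ?_ ?_ ?_ ?_ ?_
  · exact h.2.differentiableAt
  · exact Eventually.of_forall fun x => by
      apply Measurable.aestronglyMeasurable
      fun_prop
  · have h1 : IntegrableOn (fun t : ℝ => t ^ (a.re - 1) * Real.exp (-(r.re * t))) (Ioi 0) :=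
      F4O08_exp_int (by linarith) hr
    refine Integrable.mono' h1 ?_ ?_
    · apply Measurable.aestronglyMeasurable
      fun_prop
    · filter_upwards [ae_restrict_mem measurableSet_Ioi] with t ht
      have ht' : 0 < t := ht
      rw [norm_mul, F4O08_norm ht', Complex.norm_exp]
      simp
  · apply Measurable.aestronglyMeasurable
    fun_prop
  · filter_upwards [ae_restrict_mem measurableSet_Ioi] with t ht
    intro x hx
    have ht' : 0 < t := ht
    have hx1 : r.re / 2 ≤ x.re := by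
      have h1 : |(x - r).re| ≤ ‖x - r‖ := Complex.abs_re_le_norm _
      rw [Metric.mem_ball, dist_eq_norm] at hx
      have h2 := (abs_le.mp h1).1
      rw [Complex.sub_re] at h2
      linarith
    rw [norm_mul, norm_mul, F4O08_norm ht', Complex.norm_exp, norm_neg, one_mul,
      Complex.norm_real, Real.norm_eq_abs, abs_of_pos ht']
    have h3 : t ^ a.re = t ^ (a - 1).re * t := by
      rw [Complex.sub_re, Complex.one_re, Real.rpow_sub ht', Real.rpow_one]
      field_simp
    rw [h3]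
    have h4 : (-(x * (t:ℂ))).re = -(x.re * t) := by simp
    rw [h4]
    have h5 : Real.exp (-(x.re * t)) ≤ Real.exp (-(r.re / 2 * t)) := by
      apply Real.exp_le_exp.mpr
      nlinarith
    have h6 : 0 < t ^ (a - 1).re := Real.rpow_pos_of_pos ht' _
    calc t ^ (a - 1).re * (Real.exp (-(x.re * t)) * t)
        ≤ t ^ (a - 1).re * (Real.exp (-(r.re / 2 * t)) * t) := by gcongr
      _ = _ := by ring
  · exact F4O08_exp_int (by linarith) (by linarith)
  · filter_upwards [ae_restrict_mem measurableSet_Ioi] with t ht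
    intro x hx
    exact (((hasDerivAt_id x).mul_const (t:ℂ)).neg.cexp).const_mul _

theorem F4O08_laplace {a : ℂ} (ha : 0 < a.re) {r : ℂ} (hr : 0 < r.re) :
    ∫ t in Ioi (0:ℝ), (t:ℂ) ^ (a - 1) * cexp (-(r * t)) = r ^ (-a) * Complex.Gamma a := by
  have hU : IsOpen {r : ℂ | 0 < r.re} := isOpen_lt continuous_const Complex.continuous_re
  have hf : AnalyticOnNhd ℂ (fun r : ℂ => ∫ t in Ioi (0:ℝ), (t:ℂ) ^ (a - 1) * cexp (-(r * t)))
      {r : ℂ | 0 < r.re} := by
    apply DifferentiableOn.analyticOnNhd _ hU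
    intro x hx
    exact (F4O08_diff ha hx).differentiableWithinAt
  have hg : AnalyticOnNhd ℂ (fun r : ℂ => r ^ (-a) * Complex.Gamma a) {r : ℂ | 0 < r.re} := by
    apply DifferentiableOn.analyticOnNhd _ hU
    intro x hx
    apply DifferentiableAt.differentiableWithinAt
    apply DifferentiableAt.mul_const
    apply DifferentiableAt.cpow differentiableAt_id (differentiableAt_const _)
    rw [Complex.mem_slitPlane_iff]
    left
    exact hx
  have hconn : IsPreconnected {r : ℂ | 0 < r.re} :=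
    (convex_halfSpace_re_gt 0).isPreconnected
  refine hf.eqOn_of_preconnected_of_frequently_eq hg hconn (z₀ := 1) (by simp) ?_ hr
  have ht : Tendsto (fun x : ℝ => (x : ℂ)) (𝓝[≠] 1) (𝓝[≠] 1) := by
    apply tendsto_nhdsWithin_of_tendsto_nhds_of_eventually_within
    · have h1 : Tendsto (fun x : ℝ => (x : ℂ)) (𝓝 1) (𝓝 ((1:ℝ):ℂ)) :=
        Complex.continuous_ofReal.tendsto 1
      rw [Complex.ofReal_one] at h1
      exact h1.mono_left nhdsWithin_le_nhds
    · filter_upwards [self_mem_nhdsWithin] with x hx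
      simpa using hx
  apply ht.frequently
  apply Filter.Eventually.frequently
  have h1 : ∀ᶠ x : ℝ in 𝓝[≠] 1, 0 < x := nhdsWithin_le_nhds (eventually_gt_nhds one_pos)
  filter_upwards [h1] with x hx
  rw [Complex.integral_cpow_mul_exp_neg_mul_Ioi ha hx]
  congr 1
  exact F4O08_inv (by simpa using hx)

/-- the formula with `Re w > 0` -/
theorem F4O08_main {s z w : ℂ} {a : ℝ} (ha : 0 < a) (hs : -1 < s.re) (hz : s.re < z.re)
    (hw : 0 < w.re) :
    ∫ y in Ioi (0:ℝ), (y:ℂ) ^ s * (((a * y : ℝ) : ℂ) + w) ^ (-(1 + z)) =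
      (a : ℂ) ^ (-1 - s) * w ^ (s - z) * Complex.Gamma (1 + s) * Complex.Gamma (z - s) /
        Complex.Gamma (1 + z) := by
  set f : ℝ → ℝ → ℂ := fun t y => (y:ℂ) ^ s * ((t:ℂ) ^ z * cexp (-((((a * y : ℝ) : ℂ) + w) * t)))
    with hf
  have h1z : 0 < (1 + z).re := by simp; linarith
  have h1s : 0 < (1 + s).re := by simp; linarith
  have hzs : 0 < (z - s).re := by simp; linarith
  have hG : Complex.Gamma (1 + z) ≠ 0 := Complex.Gamma_ne_zero_of_re_pos h1z
  have hnorm : ∀ t y : ℝ, 0 < t → 0 < y → ‖f t y‖ =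
      (y ^ s.re * Real.exp (-((a * t) * y))) * (t ^ z.re * Real.exp (-(w.re * t))) := by
    intro t y ht hy
    rw [hf]
    simp only
    rw [norm_mul, norm_mul, F4O08_norm hy, F4O08_norm ht, Complex.norm_exp]
    have h1 : (-((((a * y : ℝ) : ℂ) + w) * t)).re = -((a * t) * y) + -(w.re * t) := by
      simp
      ring
    rw [h1, Real.exp_add]
    ring
  -- inner integrals
  have hin1 : ∀ y : ℝ, 0 < y → ∫ t in Ioi (0:ℝ), f t y =
      ((y:ℂ) ^ s * (((a * y : ℝ) : ℂ) + w) ^ (-(1 + z))) * Complex.Gamma (1 + z) := by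
    intro y hy
    have hr : 0 < (((a * y : ℝ) : ℂ) + w).re := by
      rw [Complex.add_re, Complex.ofReal_re]
      positivity
    have h1 := F4O08_laplace h1z hr
    rw [add_sub_cancel_left] at h1
    rw [hf]
    simp only
    rw [integral_const_mul, h1]
    ring
  have hin2 : ∀ t : ℝ, 0 < t → ∫ y in Ioi (0:ℝ), f t y =
      ((a : ℂ) ^ (-1 - s) * Complex.Gamma (1 + s)) *
        ((t:ℂ) ^ (z - s - 1) * cexp (-(w * t))) := by
    intro t ht
    have hr : 0 < ((a * t : ℝ) : ℂ).re := by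
      rw [Complex.ofReal_re]
      positivity
    have h1 := F4O08_laplace h1s hr
    rw [add_sub_cancel_left] at h1
    have h2 : ∀ y : ℝ, f t y = ((t:ℂ) ^ z * cexp (-(w * t))) *
        ((y:ℂ) ^ s * cexp (-(((a * t : ℝ) : ℂ) * y))) := by
      intro y
      rw [hf]
      simp only
      have h3 : (-((((a * y : ℝ) : ℂ) + w) * t)) = -(w * t) + -(((a * t : ℝ) : ℂ) * y) := by
        push_cast
        ring
      rw [h3, Complex.exp_add]
      ring
    simp only [h2]
    rw [integral_const_mul, h1]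
    have h4 : ((a * t : ℝ) : ℂ) ^ (-(1 + s)) = (a:ℂ) ^ (-1 - s) * (t:ℂ) ^ (-(1 + s)) := by
      rw [Complex.ofReal_mul, Complex.mul_cpow_ofReal_nonneg ha.le ht.le]
      congr 2
      ring
    have h5 : (t:ℂ) ^ z * (t:ℂ) ^ (-(1 + s)) = (t:ℂ) ^ (z - s - 1) := by
      rw [← Complex.cpow_add _ _ (by exact_mod_cast ht.ne')]
      congr 1
      ring
    rw [h4, ← h5]
    ring
  -- Fubini
  have hmeas : Measurable (Function.uncurry f) := by
    rw [hf]
    unfold Function.uncurry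
    fun_prop
  have hint : Integrable (Function.uncurry f)
      ((volume.restrict (Ioi (0:ℝ))).prod (volume.restrict (Ioi (0:ℝ)))) := by
    rw [integrable_prod_iff hmeas.aestronglyMeasurable]
    constructor
    · filter_upwards [ae_restrict_mem measurableSet_Ioi] with t ht
      have ht' : 0 < t := ht
      have h1 : IntegrableOn (fun y : ℝ => (y ^ s.re * Real.exp (-((a * t) * y))) *
          (t ^ z.re * Real.exp (-(w.re * t)))) (Ioi 0) :=
        (F4O08_exp_int hs (mul_pos ha ht')).mul_const _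
      refine Integrable.mono' h1 ?_ ?_
      · exact (hmeas.comp measurable_prodMk_left).aestronglyMeasurable
      · filter_upwards [ae_restrict_mem measurableSet_Ioi] with y hy
        exact (hnorm t y ht' hy).le
    · have h1 : IntegrableOn (fun t : ℝ => (a ^ (-(1 + s.re)) * Real.Gamma (1 + s.re)) *
          (t ^ (z.re - s.re - 1) * Real.exp (-(w.re * t)))) (Ioi 0) :=
        (F4O08_exp_int (by linarith) hw).const_mul _
      refine h1.congr_fun (fun t ht => ?_) measurableSet_Ioi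
      have ht' : 0 < t := ht
      simp only [Function.uncurry]
      rw [setIntegral_congr_fun measurableSet_Ioi (fun y hy => hnorm t y ht' hy)]
      rw [integral_mul_const]
      have h2 := Real.integral_rpow_mul_exp_neg_mul_Ioi (a := 1 + s.re) (r := a * t)
        (by linarith) (mul_pos ha ht')
      rw [add_sub_cancel_left] at h2
      rw [h2, one_div, Real.inv_rpow (by positivity), ← Real.rpow_neg (by positivity),
        Real.mul_rpow ha.le ht'.le]
      have h3 : t ^ z.re * t ^ (-(1 + s.re)) = t ^ (z.re - s.re - 1) := by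
        rw [← Real.rpow_add ht']
        congr 1
        ring
      rw [← h3]
      ring
  have hswap := integral_integral_swap (f := f) hint
  rw [setIntegral_congr_fun measurableSet_Ioi (fun t ht => hin2 t ht),
    setIntegral_congr_fun measurableSet_Ioi (fun y hy => hin1 y hy),
    integral_const_mul, integral_mul_const,
    F4O08_laplace hzs hw] at hswap
  rw [eq_div_iff hG, ← hswap, neg_sub]
  ring

/-- the dominating function -/
noncomputable def F4O08_G (a c σ x K : ℝ) (y : ℝ) : ℝ :=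
  if y ≤ 1 then K * (|c| ^ (-(1 + x)) * y ^ σ) else K * (a ^ (-(1 + x)) * y ^ (σ - x - 1))

theorem F4O08_G_int {a c σ x : ℝ} (K : ℝ) (hσ : -1 < σ) (hx : σ < x) :
    IntegrableOn (F4O08_G a c σ x K) (Ioi 0) := by
  have h0 : Ioi (0:ℝ) = Ioc 0 1 ∪ Ioi 1 := (Ioc_union_Ioi_eq_Ioi zero_le_one).symm
  rw [h0]
  apply IntegrableOn.union
  · have h1 : IntegrableOn (fun y : ℝ => K * (|c| ^ (-(1 + x)) * y ^ σ)) (Ioc 0 1) := by
      have h2 : IntervalIntegrable (fun y : ℝ => y ^ σ) volume 0 1 :=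
        intervalIntegral.intervalIntegrable_rpow' hσ
      rw [intervalIntegrable_iff_integrableOn_Ioc_of_le zero_le_one] at h2
      exact (h2.const_mul _).const_mul _
    refine h1.congr_fun (fun y hy => ?_) measurableSet_Ioc
    unfold F4O08_G
    rw [if_pos hy.2]
  · have h1 : IntegrableOn (fun y : ℝ => K * (a ^ (-(1 + x)) * y ^ (σ - x - 1))) (Ioi 1) :=
      ((integrableOn_Ioi_rpow_of_lt (by linarith) one_pos).const_mul _).const_mul _
    refine h1.congr_fun (fun y hy => ?_) measurableSet_Ioi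
    unfold F4O08_G
    rw [if_neg (not_le.mpr hy)]

theorem F4O08_bound {s z : ℂ} {a c η y : ℝ} (ha : 0 < a) (hc : c ≠ 0) (hη : 0 ≤ η) (hy : 0 < y)
    (hz : -1 < z.re) :
    ‖(y:ℂ) ^ s * (((a * y : ℝ) : ℂ) + ((η : ℂ) - ((c : ℝ) : ℂ) * I)) ^ (-(1 + z))‖ ≤
      F4O08_G a c s.re z.re (Real.exp (Real.pi * |z.im|)) y := by
  set u : ℂ := ((a * y : ℝ) : ℂ) + ((η : ℂ) - ((c : ℝ) : ℂ) * I) with hu
  have hure : u.re = a * y + η := by
    rw [hu]
    simp
  have huim : u.im = -c := by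
    rw [hu]
    simp
  have hay : 0 < a * y := mul_pos ha hy
  have hu0 : u ≠ 0 := by
    intro h
    rw [h] at hure
    simp at hure
    linarith
  have hn1 : |c| ≤ ‖u‖ := by
    have := Complex.abs_im_le_norm u
    rwa [huim, abs_neg] at this
  have hn2 : a * y ≤ ‖u‖ := by
    have := Complex.re_le_norm u
    rw [hure] at this
    linarith
  have hc0 : 0 < |c| := abs_pos.mpr hc
  have hun : 0 < ‖u‖ := norm_pos_iff.mpr hu0
  rw [norm_mul, F4O08_norm hy, Complex.norm_cpow_of_ne_zero hu0]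
  have h1 : (-(1 + z)).re = -(1 + z.re) := by simp
  have h2 : (-(1 + z)).im = -z.im := by simp
  rw [h1, h2]
  have h3 : ‖u‖ ^ (-(1 + z.re)) / Real.exp (u.arg * -z.im) ≤
      Real.exp (Real.pi * |z.im|) * ‖u‖ ^ (-(1 + z.re)) := by
    rw [div_eq_mul_inv, ← Real.exp_neg, mul_comm]
    apply mul_le_mul_of_nonneg_right _ (by positivity)
    apply Real.exp_le_exp.mpr
    have h4 : |u.arg * z.im| ≤ Real.pi * |z.im| := by
      rw [abs_mul]
      exact mul_le_mul_of_nonneg_right (Complex.abs_arg_le_pi u) (abs_nonneg _)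
    have h5 := le_abs_self (u.arg * z.im)
    linarith
  have hpos : 0 < Real.exp (Real.pi * |z.im|) := Real.exp_pos _
  unfold F4O08_G
  split_ifs with hy1
  · calc y ^ s.re * (‖u‖ ^ (-(1 + z.re)) / Real.exp (u.arg * -z.im))
        ≤ y ^ s.re * (Real.exp (Real.pi * |z.im|) * ‖u‖ ^ (-(1 + z.re))) := by gcongr
      _ ≤ y ^ s.re * (Real.exp (Real.pi * |z.im|) * |c| ^ (-(1 + z.re))) := by
        have h6 : ‖u‖ ^ (-(1 + z.re)) ≤ |c| ^ (-(1 + z.re)) :=
          Real.rpow_le_rpow_of_nonpos hc0 hn1 (by linarith)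
        gcongr
      _ = _ := by ring
  · calc y ^ s.re * (‖u‖ ^ (-(1 + z.re)) / Real.exp (u.arg * -z.im))
        ≤ y ^ s.re * (Real.exp (Real.pi * |z.im|) * ‖u‖ ^ (-(1 + z.re))) := by gcongr
      _ ≤ y ^ s.re * (Real.exp (Real.pi * |z.im|) * (a * y) ^ (-(1 + z.re))) := by
        have h6 : ‖u‖ ^ (-(1 + z.re)) ≤ (a * y) ^ (-(1 + z.re)) :=
          Real.rpow_le_rpow_of_nonpos hay hn2 (by linarith)
        gcongr
      _ = _ := by
        rw [Real.mul_rpow ha.le hy.le]
        have h7 : y ^ s.re * y ^ (-(1 + z.re)) = y ^ (s.re - z.re - 1) := by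
          rw [← Real.rpow_add hy]
          congr 1
          ring
        rw [← h7]
        ring

theorem F4O08_slit {a y η c : ℝ} (ha : 0 < a) (hη : 0 ≤ η) (hy : 0 < y) :
    ((a * y : ℝ) : ℂ) + ((η : ℂ) - ((c : ℝ) : ℂ) * I) ∈ slitPlane := by
  rw [Complex.mem_slitPlane_iff]
  left
  have h1 : (((a * y : ℝ) : ℂ) + ((η : ℂ) - ((c : ℝ) : ℂ) * I)).re = a * y + η := by simp
  rw [h1]
  positivity

theorem F4O08_meas {s z : ℂ} {a c η : ℝ} :
    Measurable (fun y : ℝ => (y:ℂ) ^ s * (((a * y : ℝ) : ℂ) + ((η : ℂ) - ((c : ℝ) : ℂ) * I)) ^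
      (-(1 + z))) := by
  fun_prop

/-- O08: the Beta integral -/
theorem O08_beta {δ e : ℝ} (h0 : 0 < δ) (h1 : δ ≤ 1/4) (he : e ≠ 0) {s z : ℂ} (hs : -1 < s.re) (hz : s.re < z.re) :
    IntegrableOn (fun y : ℝ => (y:ℂ) ^ s * (pf δ (2 * y) e) ^ (-(1 + z))) (Ioi 0) ∧
    ∫ y in Ioi (0:ℝ), (y:ℂ) ^ s * (pf δ (2 * y) e) ^ (-(1 + z)) =
      ((2 * Real.sin δ : ℝ) : ℂ) ^ (-1 - s) * (-(((e * Real.cos δ : ℝ) : ℂ) * I)) ^ (s - z) *
        Complex.Gamma (1 + s) * Complex.Gamma (z - s) / Complex.Gamma (1 + z) := by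
  have hpi := Real.pi_gt_three
  have hsin : 0 < Real.sin δ := Real.sin_pos_of_pos_of_lt_pi h0 (by linarith)
  have hcos : 0 < Real.cos δ := Real.cos_pos_of_mem_Ioo ⟨by linarith, by linarith⟩
  set a : ℝ := 2 * Real.sin δ with ha
  set c : ℝ := e * Real.cos δ with hc
  have ha0 : 0 < a := by positivity
  have hc0 : c ≠ 0 := mul_ne_zero he hcos.ne'
  have hz1 : -1 < z.re := by linarith
  have hpf : ∀ y : ℝ, pf δ (2 * y) e = ((a * y : ℝ) : ℂ) + (((0 : ℝ) : ℂ) - ((c : ℝ) : ℂ) * I) := by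
    intro y
    unfold pf
    rw [ha, hc]
    push_cast
    ring
  have hGint := F4O08_G_int (a := a) (c := c) (Real.exp (Real.pi * |z.im|)) hs hz
  simp only [hpf]
  constructor
  · refine Integrable.mono' hGint F4O08_meas.aestronglyMeasurable ?_
    filter_upwards [ae_restrict_mem measurableSet_Ioi] with y hy
    exact F4O08_bound ha0 hc0 le_rfl hy hz1
  · -- the limit `η → 0+`
    have hlim1 : Tendsto (fun η : ℝ => ∫ y in Ioi (0:ℝ), (y:ℂ) ^ s *
        (((a * y : ℝ) : ℂ) + ((η : ℂ) - ((c : ℝ) : ℂ) * I)) ^ (-(1 + z))) (𝓝[>] 0)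
        (𝓝 (∫ y in Ioi (0:ℝ), (y:ℂ) ^ s *
        (((a * y : ℝ) : ℂ) + (((0 : ℝ) : ℂ) - ((c : ℝ) : ℂ) * I)) ^ (-(1 + z)))) := by
      apply tendsto_integral_filter_of_dominated_convergence _ _ _ hGint
      · filter_upwards [ae_restrict_mem measurableSet_Ioi] with y hy
        have hy' : 0 < y := hy
        have hcont : ContinuousAt (fun η : ℝ => (y:ℂ) ^ s *
            (((a * y : ℝ) : ℂ) + ((η : ℂ) - ((c : ℝ) : ℂ) * I)) ^ (-(1 + z))) 0 := by
          apply ContinuousAt.mul continuousAt_const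
          exact ContinuousAt.cpow (by fun_prop) continuousAt_const
            (F4O08_slit ha0 le_rfl hy')
        exact hcont.tendsto.mono_left nhdsWithin_le_nhds
      · exact Eventually.of_forall fun η => F4O08_meas.aestronglyMeasurable
      · filter_upwards [self_mem_nhdsWithin] with η hη
        filter_upwards [ae_restrict_mem measurableSet_Ioi] with y hy
        exact F4O08_bound ha0 hc0 (le_of_lt hη) hy hz1
    have hlim2 : Tendsto (fun η : ℝ => (a : ℂ) ^ (-1 - s) *
        ((η : ℂ) - ((c : ℝ) : ℂ) * I) ^ (s - z) * Complex.Gamma (1 + s) *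
        Complex.Gamma (z - s) / Complex.Gamma (1 + z)) (𝓝[>] 0)
        (𝓝 ((a : ℂ) ^ (-1 - s) * (((0 : ℝ) : ℂ) - ((c : ℝ) : ℂ) * I) ^ (s - z) *
          Complex.Gamma (1 + s) * Complex.Gamma (z - s) / Complex.Gamma (1 + z))) := by
      have hcont : ContinuousAt (fun η : ℝ => ((η : ℂ) - ((c : ℝ) : ℂ) * I) ^ (s - z)) 0 := by
        apply ContinuousAt.cpow (by fun_prop) continuousAt_const
        rw [Complex.mem_slitPlane_iff]
        right
        simpa using hc0
      exact ((((hcont.tendsto.mono_left nhdsWithin_le_nhds).const_mul _).mul_const _).mul_const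
        _).div_const _
    have heq : (fun η : ℝ => ∫ y in Ioi (0:ℝ), (y:ℂ) ^ s *
        (((a * y : ℝ) : ℂ) + ((η : ℂ) - ((c : ℝ) : ℂ) * I)) ^ (-(1 + z))) =ᶠ[𝓝[>] 0]
        (fun η : ℝ => (a : ℂ) ^ (-1 - s) *
        ((η : ℂ) - ((c : ℝ) : ℂ) * I) ^ (s - z) * Complex.Gamma (1 + s) *
        Complex.Gamma (z - s) / Complex.Gamma (1 + z)) := by
      filter_upwards [self_mem_nhdsWithin] with η hη
      apply F4O08_main ha0 hs hz
      simpa using hη
    have h := tendsto_nhds_unique (hlim1.congr' heq) hlim2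
    rw [h]
    congr 5
    push_cast
    ring

end Pool.Agent.LibF4
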