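import Mathlib
import Pool.Agent.LibF4.ODefs
import Pool.Agent.LibF4.M21
import Pool.Agent.LibF4.O08

/-! Row O09.
Jkj_formula 0 with c = 3/2 (Jk = Jkj 0), Fubini over (y, line): |y^s||p|^{-5/2} e^{π|t|/2}|Γ(1+z)| Λ^{3/2} |e^{z²}|, Γ bounded on the line by Γ(5/2), e^{z²} = e^{9/4 - t²}; y-integrable since |s| ≤ 1/4, |p| ≥ |e| cos δ > 0 and |p| ≥ 2y sin δ. Then O08 for every z on the line.
-/

set_option autoImplicit false

namespace Pool.Agent.LibF4

open MeasureTheory Set Filter Topology Complex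
open scoped ComplexConjugate

theorem F4O09_Gamma_le {s : ℂ} (hs : 0 < s.re) : ‖Complex.Gamma s‖ ≤ Real.Gamma s.re := by
  rw [Complex.Gamma_eq_integral hs, Real.Gamma_eq_integral hs, Complex.GammaIntegral]
  refine (norm_integral_le_integral_norm _).trans (le_of_eq ?_)
  refine setIntegral_congr_fun measurableSet_Ioi fun x hx => ?_
  have hx' : (0:ℝ) < x := hx
  rw [norm_mul, Complex.norm_cpow_eq_rpow_re_of_pos hx', Complex.norm_real, Real.norm_eq_abs, abs_of_pos (Real.exp_pos _)]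
  simp

theorem F4O09_pf_re (δ X r : ℝ) : (pf δ X r).re = X * Real.sin δ := by
  unfold pf
  rw [Complex.sub_re, Complex.re_ofReal_mul, Complex.ofReal_re, Complex.I_re, mul_zero, sub_zero]

/-- the two variable integrand -/
noncomputable def F4O09_F (δ e Λ : ℝ) (s : ℂ) (y t : ℝ) : ℂ :=
  (cexp ((((3/2 : ℝ) : ℂ) + t * I) ^ 2) * (Λ:ℂ) ^ (((3/2 : ℝ) : ℂ) + t * I) *
    Complex.Gamma (1 + (((3/2 : ℝ) : ℂ) + t * I)) / (((3/2 : ℝ) : ℂ) + t * I)) *
    ((y:ℂ) ^ s * (pf δ (2 * y) e) ^ (-(1 + (((3/2 : ℝ) : ℂ) + t * I))))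

/-- the bound -/
theorem F4O09_bd {δ e Λ : ℝ} (h0 : 0 < δ) (h1 : δ ≤ 1/4) (hΛ : 0 < Λ) (s : ℂ) {y : ℝ} (hy : 0 < y)
    (t : ℝ) : ‖F4O09_F δ e Λ s y t‖ ≤ ‖(y:ℂ) ^ s * (pf δ (2 * y) e) ^ (-(1 + ((3/2 : ℝ) : ℂ)))‖ *
      (Real.exp (9/4 + Real.pi ^ 2 / 8) * Λ ^ (3/2 : ℝ) * Real.Gamma (5/2) * Real.exp (-(1/2) * t ^ 2)) := by
  have hsin : 0 < Real.sin δ := Real.sin_pos_of_pos_of_lt_pi h0 (by have := Real.pi_gt_three; linarith)
  set w : ℂ := ((3/2 : ℝ) : ℂ) + t * I with hw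
  have hwre : w.re = 3/2 := by rw [hw]; simp
  have hwim : w.im = t := by rw [hw]; simp
  set p : ℂ := pf δ (2 * y) e with hp
  have hpre : 0 < p.re := by
    rw [hp, F4O09_pf_re]
    positivity
  have hp0 : p ≠ 0 := by
    intro h
    rw [h] at hpre
    simp at hpre
  have harg : |Complex.arg p| ≤ Real.pi / 2 := Complex.abs_arg_le_pi_div_two_iff.2 hpre.le
  have e1 : ‖cexp (w ^ 2)‖ = Real.exp (9/4 - t ^ 2) := by
    rw [Complex.norm_exp]
    congr 1
    rw [pow_two, Complex.mul_re, hwre, hwim]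
    ring
  have e2 : ‖(Λ:ℂ) ^ w‖ = Λ ^ (3/2 : ℝ) := by
    rw [Complex.norm_cpow_eq_rpow_re_of_pos hΛ, hwre]
  have e3 : ‖Complex.Gamma (1 + w)‖ ≤ Real.Gamma (5/2) := by
    have h2 : (1 + w).re = 5/2 := by
      rw [Complex.add_re, Complex.one_re, hwre]
      norm_num
    have := F4O09_Gamma_le (s := 1 + w) (by rw [h2]; norm_num)
    rwa [h2] at this
  have e6 : 1 ≤ ‖w‖ := by
    have := Complex.abs_re_le_norm w
    rw [hwre] at this
    have h9 : |(3/2 : ℝ)| = 3/2 := abs_of_pos (by norm_num)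
    rw [h9] at this
    linarith
  have e4 : ‖p ^ (-(1 + w))‖ ≤ ‖p ^ (-(1 + ((3/2 : ℝ) : ℂ)))‖ * Real.exp (Real.pi / 2 * |t|) := by
    rw [Complex.norm_cpow_of_ne_zero hp0, Complex.norm_cpow_of_ne_zero hp0]
    have g1 : (-(1 + w)).re = (-(1 + ((3/2 : ℝ) : ℂ))).re := by
      have g0 : (1 + w).re = 1 + 3/2 := by rw [Complex.add_re, hwre, Complex.one_re]
      rw [Complex.neg_re, Complex.neg_re, g0, Complex.add_re, Complex.ofReal_re, Complex.one_re]
    have g2 : (-(1 + w)).im = -t := by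
      rw [Complex.neg_im, Complex.add_im, hwim, Complex.one_im, zero_add]
    have g3 : (-(1 + ((3/2 : ℝ) : ℂ))).im = 0 := by
      rw [Complex.neg_im, Complex.add_im, Complex.ofReal_im, Complex.one_im, zero_add, neg_zero]
    rw [g1, g2, g3, mul_zero, Real.exp_zero, div_one, div_eq_mul_inv, ← Real.exp_neg]
    apply mul_le_mul_of_nonneg_left _ (by positivity)
    apply Real.exp_le_exp.2
    have h5 : Complex.arg p * t ≤ |Complex.arg p| * |t| := by
      rw [← abs_mul]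
      exact le_abs_self _
    have h6 : |Complex.arg p| * |t| ≤ Real.pi / 2 * |t| := mul_le_mul_of_nonneg_right harg (abs_nonneg t)
    linarith
  have e7 : Real.exp (9/4 - t ^ 2) * Real.exp (Real.pi / 2 * |t|) ≤
      Real.exp (9/4 + Real.pi ^ 2 / 8) * Real.exp (-(1/2) * t ^ 2) := by
    rw [← Real.exp_add, ← Real.exp_add]
    apply Real.exp_le_exp.2
    have : (0:ℝ) ≤ (|t| - Real.pi / 2) ^ 2 := sq_nonneg _
    have h7 : |t| ^ 2 = t ^ 2 := sq_abs t
    nlinarith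
  have hG : 0 < Real.Gamma (5/2) := Real.Gamma_pos_of_pos (by norm_num)
  unfold F4O09_F
  rw [← hw, ← hp, norm_mul, norm_div, norm_mul, norm_mul, norm_mul, norm_mul, e1, e2]
  calc Real.exp (9/4 - t ^ 2) * Λ ^ (3/2 : ℝ) * ‖Complex.Gamma (1 + w)‖ / ‖w‖ * (‖(y:ℂ) ^ s‖ * ‖p ^ (-(1 + w))‖)
      ≤ Real.exp (9/4 - t ^ 2) * Λ ^ (3/2 : ℝ) * Real.Gamma (5/2) / 1 *
        (‖(y:ℂ) ^ s‖ * (‖p ^ (-(1 + ((3/2 : ℝ) : ℂ)))‖ * Real.exp (Real.pi / 2 * |t|))) := by
        gcongr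
    _ = ‖(y:ℂ) ^ s‖ * ‖p ^ (-(1 + ((3/2 : ℝ) : ℂ)))‖ * (Λ ^ (3/2 : ℝ) * Real.Gamma (5/2) *
        (Real.exp (9/4 - t ^ 2) * Real.exp (Real.pi / 2 * |t|))) := by ring
    _ ≤ ‖(y:ℂ) ^ s‖ * ‖p ^ (-(1 + ((3/2 : ℝ) : ℂ)))‖ * (Λ ^ (3/2 : ℝ) * Real.Gamma (5/2) *
        (Real.exp (9/4 + Real.pi ^ 2 / 8) * Real.exp (-(1/2) * t ^ 2))) := by
        gcongr
    _ = _ := by ring

theorem F4O09_int {δ e Λ : ℝ} (h0 : 0 < δ) (h1 : δ ≤ 1/4) (he : e ≠ 0) (hΛ : 0 < Λ) {s : ℂ} (hs : ‖s‖ ≤ 1/4) :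
    Integrable (fun q : ℝ × ℝ => F4O09_F δ e Λ s q.1 q.2) ((volume.restrict (Ioi (0:ℝ))).prod volume) := by
  have hsin : 0 < Real.sin δ := Real.sin_pos_of_pos_of_lt_pi h0 (by have := Real.pi_gt_three; linarith)
  have hsre := abs_le.1 ((Complex.abs_re_le_norm s).trans hs)
  have hi := (O08_beta h0 h1 he (s := s) (z := ((3/2 : ℝ) : ℂ)) (by linarith)
    (by rw [Complex.ofReal_re]; linarith)).1
  have hg : Integrable (fun t : ℝ => Real.exp (9/4 + Real.pi ^ 2 / 8) * Λ ^ (3/2 : ℝ) * Real.Gamma (5/2) *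
      Real.exp (-(1/2) * t ^ 2)) := (integrable_exp_neg_mul_sq (by norm_num : (0:ℝ) < 1/2)).const_mul _
  have hprod := hi.norm.mul_prod hg
  have hme : (volume.restrict (Ioi (0:ℝ))).prod (volume : Measure ℝ) =
      (volume.prod volume).restrict (Ioi (0:ℝ) ×ˢ univ) := by
    rw [← Measure.prod_restrict, Measure.restrict_univ]
  refine Integrable.mono' hprod ?_ ?_
  · rw [hme]
    apply ContinuousOn.aestronglyMeasurable _ (measurableSet_Ioi.prod MeasurableSet.univ)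
    have hw : Continuous (fun q : ℝ × ℝ => ((3/2 : ℝ) : ℂ) + q.2 * I) := by fun_prop
    have hwre : ∀ t : ℝ, (((3/2 : ℝ) : ℂ) + t * I).re = 3/2 := by intro t; simp
    have hΛc : (Λ:ℂ) ≠ 0 := by exact_mod_cast hΛ.ne'
    unfold F4O09_F
    apply ContinuousOn.mul
    · apply Continuous.continuousOn
      apply Continuous.div
      · apply Continuous.mul
        · apply Continuous.mul
          · fun_prop
          · exact hw.const_cpow (Or.inl hΛc)
        · rw [continuous_iff_continuousAt]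
          intro q
          have hd : DifferentiableAt ℂ Complex.Gamma (1 + (((3/2 : ℝ) : ℂ) + q.2 * I)) := by
            apply Complex.differentiableAt_Gamma
            intro k hk
            have := congrArg Complex.re hk
            rw [Complex.neg_re, Complex.natCast_re, Complex.add_re, hwre, Complex.one_re] at this
            have hk0 : (0:ℝ) ≤ k := Nat.cast_nonneg k
            linarith
          exact ContinuousAt.comp (f := fun q : ℝ × ℝ => 1 + (((3/2 : ℝ) : ℂ) + q.2 * I)) hd.continuousAt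
            (by fun_prop)
      · exact hw
      · intro q h
        have := congrArg Complex.re h
        rw [hwre, Complex.zero_re] at this
        norm_num at this
    · intro q hq
      have hq1 : (0:ℝ) < q.1 := hq.1
      apply ContinuousAt.continuousWithinAt
      apply ContinuousAt.mul
      · apply ContinuousAt.cpow (by fun_prop) continuousAt_const
        exact Or.inl (by simpa using hq1)
      · apply ContinuousAt.cpow
        · unfold pf
          fun_prop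
        · fun_prop
        · left
          rw [F4O09_pf_re]
          positivity
  · rw [hme, ae_restrict_iff' (measurableSet_Ioi.prod MeasurableSet.univ)]
    refine Eventually.of_forall fun q hq => ?_
    exact F4O09_bd h0 h1 hΛ s hq.1 q.2

/-- O09: Mellin transform of the weight -/
theorem O09_mellin {δ e Λ : ℝ} (h0 : 0 < δ) (h1 : δ ≤ 1/4) (he : e ≠ 0) (hΛ : 0 < Λ) {s : ℂ} (hs : ‖s‖ ≤ 1/4) :
    IntegrableOn (fun y : ℝ => Jk Λ (pf δ (2 * y) e) * (y:ℂ) ^ s) (Ioi 0) ∧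
    Integrable (fun y : ℝ => (fun z : ℂ => cexp (z ^ 2) * (Λ:ℂ) ^ z * Complex.Gamma (z - s) *
      (-(((e * Real.cos δ : ℝ) : ℂ) * I)) ^ (s - z) / z) (((3/2 : ℝ) : ℂ) + y * I)) ∧
    ∫ y in Ioi (0:ℝ), Jk Λ (pf δ (2 * y) e) * (y:ℂ) ^ s =
      Complex.Gamma (1 + s) * ((2 * Real.sin δ : ℝ) : ℂ) ^ (-1 - s) *
        VL (3/2) (fun z => cexp (z ^ 2) * (Λ:ℂ) ^ z * Complex.Gamma (z - s) *
          (-(((e * Real.cos δ : ℝ) : ℂ) * I)) ^ (s - z) / z) := by
  have hsin : 0 < Real.sin δ := Real.sin_pos_of_pos_of_lt_pi h0 (by have := Real.pi_gt_three; linarith)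
  have hsre := abs_le.1 ((Complex.abs_re_le_norm s).trans hs)
  have hF := F4O09_int h0 h1 he hΛ hs
  have hJ : ∀ y : ℝ, 0 < y → Jk Λ (pf δ (2 * y) e) * (y:ℂ) ^ s =
      ((1 / (2 * Real.pi) : ℝ) : ℂ) * ∫ t : ℝ, F4O09_F δ e Λ s y t := by
    intro y hy
    have hpre : 0 < (pf δ (2 * y) e).re := by
      rw [F4O09_pf_re]
      positivity
    have h2 := (Jkj_formula 0 hΛ hpre (c := 3/2) (by norm_num)).2
    have h3 : Jkj 0 Λ (pf δ (2 * y) e) = Jk Λ (pf δ (2 * y) e) := by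
      unfold Jkj Jk
      simp
    rw [← h3, h2, mul_assoc, ← integral_mul_const]
    congr 1
    apply integral_congr_ae
    refine Eventually.of_forall fun t => ?_
    simp only [Nat.cast_zero, add_zero]
    unfold F4O09_F
    ring
  set K0 : ℂ := Complex.Gamma (1 + s) * ((2 * Real.sin δ : ℝ) : ℂ) ^ (-1 - s) with hK0
  have hK0ne : K0 ≠ 0 := by
    apply mul_ne_zero
    · apply Complex.Gamma_ne_zero_of_re_pos
      rw [Complex.add_re, Complex.one_re]
      linarith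
    · rw [Complex.cpow_def_of_ne_zero (by exact_mod_cast (by positivity : 2 * Real.sin δ ≠ 0))]
      exact Complex.exp_ne_zero _
  have hin : ∀ t : ℝ, ∫ y in Ioi (0:ℝ), F4O09_F δ e Λ s y t = K0 *
      ((fun z : ℂ => cexp (z ^ 2) * (Λ:ℂ) ^ z * Complex.Gamma (z - s) *
      (-(((e * Real.cos δ : ℝ) : ℂ) * I)) ^ (s - z) / z) (((3/2 : ℝ) : ℂ) + t * I)) := by
    intro t
    have hwre : (((3/2 : ℝ) : ℂ) + t * I).re = 3/2 := by simp
    have hw0 : (((3/2 : ℝ) : ℂ) + t * I) ≠ 0 := by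
      intro h
      have := congrArg Complex.re h
      rw [hwre, Complex.zero_re] at this
      norm_num at this
    have h2 := (O08_beta h0 h1 he (s := s) (z := ((3/2 : ℝ) : ℂ) + t * I) (by linarith)
      (by rw [hwre]; linarith)).2
    unfold F4O09_F
    rw [integral_const_mul, h2]
    have hG : Complex.Gamma (1 + (((3/2 : ℝ) : ℂ) + t * I)) ≠ 0 := by
      apply Complex.Gamma_ne_zero_of_re_pos
      rw [Complex.add_re, hwre, Complex.one_re]
      norm_num
    rw [hK0]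
    simp only
    generalize (((3/2 : ℝ) : ℂ) + t * I) = w at *
    field_simp
  refine ⟨?_, ?_, ?_⟩
  · have h2 : Integrable (fun y : ℝ => ∫ t : ℝ, F4O09_F δ e Λ s y t) (volume.restrict (Ioi (0:ℝ))) := hF.integral_prod_left
    refine (h2.const_mul (((1 / (2 * Real.pi) : ℝ) : ℂ))).congr ?_
    filter_upwards [ae_restrict_mem measurableSet_Ioi] with y hy
    exact (hJ y hy).symm
  · have h2 : Integrable (fun t : ℝ => ∫ y in Ioi (0:ℝ), F4O09_F δ e Λ s y t) := hF.integral_prod_right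
    refine (h2.const_mul K0⁻¹).congr (Eventually.of_forall fun t => ?_)
    simp only
    rw [hin t, ← mul_assoc, inv_mul_cancel₀ hK0ne, one_mul]
  · rw [setIntegral_congr_fun measurableSet_Ioi fun y hy => hJ y hy, integral_const_mul,
      integral_integral_swap hF]
    unfold VL
    simp_rw [hin]
    rw [integral_const_mul]
    ring

end Pool.Agent.LibF4
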