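import Mathlib
import Pool.Agent.LibF4.ODefs

/-! Row O10.
(-(e i))^{-w} = e^{-w} e^{iπw/2}, (e i)^{-w} = e^{-w}e^{-iπw/2} (Complex.mul_cpow_ofReal_nonneg, log of ±I), cos w = (e^{iw}+e^{-iw})/2.
-/

set_option autoImplicit false

namespace Pool.Agent.LibF4

open MeasureTheory Set Filter Topology Complex
open scoped ComplexConjugate

/-- O10: the two signs -/
theorem O10_signs {e : ℝ} (he : 0 < e) (w : ℂ) :
    (-(((e : ℝ) : ℂ) * I)) ^ (-w) + (((e : ℝ) : ℂ) * I) ^ (-w) = 2 * Complex.cos (Real.pi * w / 2) * (e:ℂ) ^ (-w) := by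
  have he' : (e : ℂ) ≠ 0 := Complex.ofReal_ne_zero.2 he.ne'
  have h1 : -(((e : ℝ) : ℂ) * I) = (e : ℂ) * (-I) := by ring
  have h2 : Complex.log ((e : ℂ) * I) = Real.log e + Real.pi / 2 * I := by
    rw [Complex.log_ofReal_mul he I_ne_zero, Complex.log_I]
  have h3 : Complex.log ((e : ℂ) * (-I)) = Real.log e + -(Real.pi / 2) * I := by
    rw [Complex.log_ofReal_mul he (neg_ne_zero.2 I_ne_zero), Complex.log_neg_I]
  rw [h1, Complex.cpow_def_of_ne_zero (mul_ne_zero he' (neg_ne_zero.2 I_ne_zero)),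
    Complex.cpow_def_of_ne_zero (mul_ne_zero he' I_ne_zero), Complex.cpow_def_of_ne_zero he',
    h2, h3, ← Complex.ofReal_log he.le, Complex.cos]
  have h4 : ((Real.log e : ℂ) + -(Real.pi / 2) * I) * -w =
      (Real.pi * w / 2) * I + (Real.log e : ℂ) * -w := by ring
  have h5 : ((Real.log e : ℂ) + (Real.pi / 2) * I) * -w =
      -(Real.pi * w / 2) * I + (Real.log e : ℂ) * -w := by ring
  rw [h4, h5, Complex.exp_add, Complex.exp_add]
  ring

end Pool.Agent.LibF4
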