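import Mathlib
import Pool.Agent.LibF4.ODefs
import Pool.Agent.LibF4.M22
import Pool.Agent.LibF4.M23
import Pool.Agent.LibF4.O04
import Pool.Agent.LibF4.O07
import Pool.Agent.LibF4.O09
import Pool.Agent.LibF4.O10

/-! Row O11.
Insert O07 for both logarithms (Y = y/A, y/B), (y/A)^α = y^α A^{-α}; Fubini for the bounded circle averages: |fe(y)| |y^{α+β}| integrable uniformly (|fe| ≤ C|p|^{-3}, exponents within 1/4); y^{α}y^{β} = y^{α+β}; O09 for e = r and e = -r; the sum of the two line integrands is Rz by O10 with e → r cos δ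
(note -((−r cos δ) I) = (r cos δ) I). fe δ m n 0 e y has 2*y+0.
-/

set_option autoImplicit false

namespace Pool.Agent.LibF4

open MeasureTheory Set Filter Topology Complex
open scoped ComplexConjugate

theorem o11_swap {G : ℝ → ℂ} (hGm : AEStronglyMeasurable G (volume.restrict (Ioi 0))) {g : ℝ → ℝ}
    (hg : IntegrableOn g (Ioi 0)) {E : ℝ × ℝ → ℂ} (hE : Continuous E)
    (hb : ∀ y : ℝ, 0 < y → ∀ θ : ℝ, θ ∈ Ioc 0 (2 * Real.pi) → ‖G y * E (Real.log y, θ)‖ ≤ g y) :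
    ∫ y in Ioi (0:ℝ), G y * (∫ θ in (0:ℝ)..(2 * Real.pi), E (Real.log y, θ)) =
      ∫ θ in (0:ℝ)..(2 * Real.pi), ∫ y in Ioi (0:ℝ), G y * E (Real.log y, θ) := by
  have hpi := Real.pi_pos
  have h2 : (0:ℝ) ≤ 2 * Real.pi := by positivity
  simp only [intervalIntegral.integral_of_le h2]
  have h3 : ∀ y : ℝ, G y * (∫ θ in Ioc 0 (2 * Real.pi), E (Real.log y, θ)) =
      ∫ θ in Ioc 0 (2 * Real.pi), G y * E (Real.log y, θ) := by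
    intro y
    rw [integral_const_mul]
  simp only [h3]
  refine integral_integral_swap (f := fun y θ => G y * E (Real.log y, θ)) ?_
  have : IsFiniteMeasure (volume.restrict (Ioc (0:ℝ) (2 * Real.pi))) := ⟨by
    rw [Measure.restrict_apply_univ, Real.volume_Ioc]; exact ENNReal.ofReal_lt_top⟩
  refine Integrable.mono' (Integrable.comp_fst hg _) ?_ ?_
  · refine AEStronglyMeasurable.mul hGm.comp_fst ?_
    refine Measurable.aestronglyMeasurable ?_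
    exact hE.measurable.comp ((Real.measurable_log.comp measurable_fst).prodMk measurable_snd)
  · rw [Measure.prod_restrict]
    refine ae_restrict_of_forall_mem (measurableSet_Ioi.prod measurableSet_Ioc) ?_
    rintro ⟨y, θ⟩ hp
    obtain ⟨hy, hθ⟩ := Set.mem_prod.mp hp
    exact hb y hy θ hθ

/-- exchange of an integral over the half line with a double circle average -/
theorem o11_swap2 {G : ℝ → ℂ} (hGm : AEStronglyMeasurable G (volume.restrict (Ioi 0))) {g : ℝ → ℝ}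
    (hg : IntegrableOn g (Ioi 0)) {S w : ℝ × ℝ → ℂ} (hS : Continuous S) (hw : Continuous w)
    (hb : ∀ y : ℝ, 0 < y → ∀ p : ℝ × ℝ, ‖G y‖ * ‖cexp (Real.log y * S p)‖ ≤ g y) :
    ∫ y in Ioi (0:ℝ), G y * (∫ θ in (0:ℝ)..(2 * Real.pi), ∫ φ in (0:ℝ)..(2 * Real.pi), w (θ, φ) * cexp (Real.log y * S (θ, φ))) =
      ∫ θ in (0:ℝ)..(2 * Real.pi), ∫ φ in (0:ℝ)..(2 * Real.pi), w (θ, φ) * ∫ y in Ioi (0:ℝ), G y * cexp (Real.log y * S (θ, φ)) := by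
  have hpi := Real.pi_pos
  have h2 : (0:ℝ) ≤ 2 * Real.pi := by positivity
  -- bound for w
  obtain ⟨W, hW⟩ := (isCompact_Icc.prod isCompact_Icc : IsCompact (Icc (0:ℝ) (2 * Real.pi) ×ˢ Icc (0:ℝ) (2 * Real.pi))).exists_bound_of_continuousOn hw.continuousOn
  have hW0 : 0 ≤ W := (norm_nonneg _).trans (hW (0, 0) (Set.mem_prod.mpr ⟨⟨le_rfl, h2⟩, ⟨le_rfl, h2⟩⟩))
  have hg0 : ∀ y : ℝ, 0 < y → 0 ≤ g y := fun y hy => (mul_nonneg (norm_nonneg _) (norm_nonneg _)).trans (hb y hy (0, 0))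
  -- the joint kernel
  have hK : Continuous (fun q : (ℝ × ℝ) × ℝ => w (q.1.2, q.2) * cexp (q.1.1 * S (q.1.2, q.2))) := by
    have m1 : Continuous (fun q : (ℝ × ℝ) × ℝ => (q.1.2, q.2)) := by fun_prop
    refine (hw.comp m1).mul (Complex.continuous_exp.comp (Continuous.mul ?_ (hS.comp m1)))
    fun_prop
  have hKb : ∀ y : ℝ, 0 < y → ∀ θ φ : ℝ, θ ∈ Ioc 0 (2 * Real.pi) → φ ∈ Ioc 0 (2 * Real.pi) →
      ‖G y * (w (θ, φ) * cexp (Real.log y * S (θ, φ)))‖ ≤ W * g y := by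
    intro y hy θ φ hθ hφ
    rw [norm_mul, norm_mul]
    have k1 := hW (θ, φ) (Set.mem_prod.mpr ⟨⟨hθ.1.le, hθ.2⟩, ⟨hφ.1.le, hφ.2⟩⟩)
    have k2 := hb y hy (θ, φ)
    have k3 := mul_le_mul k1 k2 (mul_nonneg (norm_nonneg _) (norm_nonneg _)) hW0
    refine (le_of_eq ?_).trans k3
    ring
  have hE1 : Continuous (fun p : ℝ × ℝ => ∫ φ in (0:ℝ)..(2 * Real.pi), w (p.2, φ) * cexp (p.1 * S (p.2, φ))) :=
    intervalIntegral.continuous_parametric_intervalIntegral_of_continuous' (f := fun (p : ℝ × ℝ) (φ : ℝ) => w (p.2, φ) * cexp (p.1 * S (p.2, φ))) hK _ _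
  have s1 := o11_swap (g := fun y => 2 * Real.pi * (W * g y)) hGm ((hg.const_mul W).const_mul (2 * Real.pi)) hE1 (by
    intro y hy θ hθ
    show ‖G y * ∫ φ in (0:ℝ)..(2 * Real.pi), w (θ, φ) * cexp (Real.log y * S (θ, φ))‖ ≤ 2 * Real.pi * (W * g y)
    rw [← intervalIntegral.integral_const_mul]
    have h4 : ‖∫ φ in (0:ℝ)..(2 * Real.pi), G y * (w (θ, φ) * cexp (Real.log y * S (θ, φ)))‖ ≤ (W * g y) * |2 * Real.pi - 0| := by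
      refine intervalIntegral.norm_integral_le_of_norm_le_const (fun φ hφ => ?_)
      rw [Set.uIoc_of_le h2] at hφ
      exact hKb y hy θ φ hθ hφ
    rw [sub_zero, abs_of_nonneg h2] at h4
    linarith)
  have s1' : ∫ y in Ioi (0:ℝ), G y * (∫ θ in (0:ℝ)..(2 * Real.pi), ∫ φ in (0:ℝ)..(2 * Real.pi), w (θ, φ) * cexp (Real.log y * S (θ, φ))) =
      ∫ θ in (0:ℝ)..(2 * Real.pi), ∫ y in Ioi (0:ℝ), G y * ∫ φ in (0:ℝ)..(2 * Real.pi), w (θ, φ) * cexp (Real.log y * S (θ, φ)) := s1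
  rw [s1']
  refine intervalIntegral.integral_congr_ae ?_
  refine Filter.Eventually.of_forall ?_
  intro θ hθ
  rw [Set.uIoc_of_le h2] at hθ
  have hE2 : Continuous (fun p : ℝ × ℝ => w (θ, p.2) * cexp (p.1 * S (θ, p.2))) := by
    have m2 : Continuous (fun p : ℝ × ℝ => (((p.1, θ), p.2) : (ℝ × ℝ) × ℝ)) := by fun_prop
    exact hK.comp m2
  have s2 := o11_swap (g := fun y => W * g y) hGm (hg.const_mul W) hE2 (fun y hy φ hφ => hKb y hy θ φ hθ hφ)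
  have s2' : ∫ y in Ioi (0:ℝ), G y * (∫ φ in (0:ℝ)..(2 * Real.pi), w (θ, φ) * cexp (Real.log y * S (θ, φ))) =
      ∫ φ in (0:ℝ)..(2 * Real.pi), ∫ y in Ioi (0:ℝ), G y * (w (θ, φ) * cexp (Real.log y * S (θ, φ))) := s2
  rw [s2']
  refine intervalIntegral.integral_congr (fun φ _ => ?_)
  show ∫ y in Ioi (0:ℝ), G y * (w (θ, φ) * cexp (Real.log y * S (θ, φ))) =
    w (θ, φ) * ∫ y in Ioi (0:ℝ), G y * cexp (Real.log y * S (θ, φ))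
  rw [← integral_const_mul]
  refine integral_congr_ae (Filter.Eventually.of_forall (fun y => ?_))
  show G y * (w (θ, φ) * cexp (Real.log y * S (θ, φ))) = w (θ, φ) * (G y * cexp (Real.log y * S (θ, φ)))
  ring

theorem o11_cpow {y : ℝ} (hy : 0 < y) (s : ℂ) : (y:ℂ) ^ s = cexp (Real.log y * s) := by
  rw [Complex.cpow_def_of_ne_zero (by exact_mod_cast hy.ne'), Complex.ofReal_log hy.le]

theorem o11_norm {y : ℝ} (hy : 0 < y) {s : ℂ} (hs : ‖s‖ ≤ 1/4) :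
    ‖(y:ℂ) ^ s‖ ≤ ‖(y:ℂ) ^ (((1/4 : ℝ)) : ℂ)‖ + ‖(y:ℂ) ^ (((-(1/4) : ℝ)) : ℂ)‖ := by
  rw [Complex.norm_cpow_eq_rpow_re_of_pos hy, Complex.norm_cpow_eq_rpow_re_of_pos hy, Complex.norm_cpow_eq_rpow_re_of_pos hy,
    Complex.ofReal_re, Complex.ofReal_re]
  have h1 := Complex.abs_re_le_norm s
  have h2 := abs_le.mp (h1.trans hs)
  rcases le_total 1 y with h | h
  · have := Real.rpow_le_rpow_of_exponent_le h h2.2
    have := Real.rpow_nonneg hy.le (-(1/4) : ℝ)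
    linarith
  · have := Real.rpow_le_rpow_of_exponent_ge hy h h2.1
    have := Real.rpow_nonneg hy.le (1/4 : ℝ)
    linarith

theorem o11_circle {ρ : ℝ} (hρ : 0 < ρ) (θ : ℝ) : ‖(ρ:ℂ) * cexp (θ * I)‖ = ρ := by
  rw [norm_mul, Complex.norm_exp_ofReal_mul_I, mul_one, Complex.norm_real, Real.norm_eq_abs, abs_of_pos hρ]

theorem o11_Lg {ρ : ℝ} (hρ : 0 < ρ) {y A : ℝ} (hy : 0 < y) (hA : 0 < A) :
    ((LibF4D.Lg (y / A) : ℝ) : ℂ) = ((1 / (2 * Real.pi) : ℝ) : ℂ) *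
      ∫ θ in (0:ℝ)..(2 * Real.pi), (wk (ρ * cexp (θ * I)) * (A:ℂ) ^ (-(ρ * cexp (θ * I)))) * cexp (Real.log y * (ρ * cexp (θ * I))) := by
  rw [O07_Lg hρ (div_pos hy hA)]
  unfold Av
  congr 1
  refine intervalIntegral.integral_congr (fun θ _ => ?_)
  show wk (ρ * cexp (θ * I)) * (((y / A : ℝ)) : ℂ) ^ (ρ * cexp (θ * I)) = _
  rw [o11_cpow (div_pos hy hA), o11_cpow hA, Real.log_div hy.ne' hA.ne']
  rw [mul_assoc, ← Complex.exp_add]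
  congr 2
  push_cast
  ring

/-- O11: one pair `±r`, one `l` -/
theorem O11_pair {δ ρ A B : ℝ} (h0 : 0 < δ) (h1 : δ ≤ 1/4) (hρ : 0 < ρ) (hρ1 : ρ ≤ 1/8) (hA : 1 ≤ A) (hB : 1 ≤ B)
    {m n r : ℕ} (hm : 1 ≤ m) (hn : 1 ≤ n) (hr : 1 ≤ r) :
    (∫ y in Ioi (0:ℝ), fe δ m n 0 r y * ((LibF4D.Lg (y / A) * LibF4D.Lg (y / B) : ℝ) : ℂ)) +
      (∫ y in Ioi (0:ℝ), fe δ m n 0 (-r) y * ((LibF4D.Lg (y / A) * LibF4D.Lg (y / B) : ℝ) : ℂ)) =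
    Av ρ (fun α => Av ρ (fun β => wk α * wk β * ((A:ℂ) ^ (-α) * (B:ℂ) ^ (-β)) *
      (Complex.Gamma (1 + (α + β)) * ((2 * Real.sin δ : ℝ) : ℂ) ^ (-1 - (α + β)) *
        VL (3/2) (Rz δ (Lam m n) r (α + β))))) := by
  have hpi := Real.pi_pos
  have hA0 : 0 < A := by linarith
  have hB0 : 0 < B := by linarith
  have hr0 : (0:ℝ) < r := by exact_mod_cast hr
  have hm0 : (0:ℝ) < m := by exact_mod_cast hm
  have hn0 : (0:ℝ) < n := by exact_mod_cast hn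
  have hΛ : 0 < Lam m n := by unfold Lam; positivity
  have hcos : 0 < Real.cos δ := Real.cos_pos_of_mem_Ioo ⟨by linarith, by linarith [Real.pi_gt_three]⟩
  have hfe : ∀ e y : ℝ, fe δ m n 0 e y = Jk (Lam m n) (pf δ (2 * y) e) := by
    intro e y; unfold fe; rw [add_zero]
  obtain ⟨C, _, hint⟩ := O04_int
  have i1 := (hint δ m n r r A B h0 h1 hm hn hr (abs_of_pos hr0) hA hB 0 (Or.inl rfl)).1
  have i2 := (hint δ m n r (-r) A B h0 h1 hm hn hr (by rw [abs_neg, abs_of_pos hr0]) hA hB 0 (Or.inl rfl)).1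
  rw [← integral_add i1 i2]
  -- the Mellin transforms
  have me1 := fun (s : ℂ) (hs : ‖s‖ ≤ 1/4) => O09_mellin (e := (r:ℝ)) h0 h1 hr0.ne' hΛ hs
  have me2 := fun (s : ℂ) (hs : ‖s‖ ≤ 1/4) => O09_mellin (e := -(r:ℝ)) h0 h1 (neg_ne_zero.mpr hr0.ne') hΛ hs
  simp only [hfe]
  obtain ⟨G, hG⟩ : ∃ G : ℝ → ℂ, G = fun y => Jk (Lam m n) (pf δ (2 * y) r) + Jk (Lam m n) (pf δ (2 * y) (-r)) := ⟨_, rfl⟩
  have iG : ∀ s : ℂ, ‖s‖ ≤ 1/4 → IntegrableOn (fun y : ℝ => G y * (y:ℂ) ^ s) (Ioi 0) := by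
    intro s hs
    have h := (me1 s hs).1.add (me2 s hs).1
    refine h.congr_fun ?_ measurableSet_Ioi
    intro y _
    rw [hG]
    show Jk (Lam m n) (pf δ (2 * y) r) * (y:ℂ) ^ s + Jk (Lam m n) (pf δ (2 * y) (-r)) * (y:ℂ) ^ s = _
    ring
  have hGm : AEStronglyMeasurable G (volume.restrict (Ioi 0)) := by
    have h := (iG 0 (by simp)).aestronglyMeasurable
    simpa using h
  have n1 : ‖(((1/4 : ℝ)) : ℂ)‖ ≤ 1/4 := by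
    rw [Complex.norm_real, Real.norm_eq_abs, abs_of_pos (by norm_num)]
  have n2 : ‖(((-(1/4) : ℝ)) : ℂ)‖ ≤ 1/4 := by
    rw [Complex.norm_real, Real.norm_eq_abs, abs_neg, abs_of_pos (by norm_num)]
  have ig : IntegrableOn (fun y : ℝ => ‖G y * (y:ℂ) ^ (((1/4 : ℝ)) : ℂ)‖ + ‖G y * (y:ℂ) ^ (((-(1/4) : ℝ)) : ℂ)‖) (Ioi 0) :=
    (iG _ n1).norm.add (iG _ n2).norm
  have hcα : ∀ θ : ℝ, ‖(ρ:ℂ) * cexp (θ * I)‖ = ρ := fun θ => o11_circle hρ θ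
  have hns : ∀ p : ℝ × ℝ, ‖(ρ:ℂ) * cexp (p.1 * I) + (ρ:ℂ) * cexp (p.2 * I)‖ ≤ 1/4 := by
    intro p
    refine (norm_add_le _ _).trans ?_
    rw [hcα, hcα]; linarith
  have hbd : ∀ y : ℝ, 0 < y → ∀ p : ℝ × ℝ, ‖G y‖ * ‖cexp (Real.log y * ((ρ:ℂ) * cexp (p.1 * I) + (ρ:ℂ) * cexp (p.2 * I)))‖ ≤
      ‖G y * (y:ℂ) ^ (((1/4 : ℝ)) : ℂ)‖ + ‖G y * (y:ℂ) ^ (((-(1/4) : ℝ)) : ℂ)‖ := by
    intro y hy p
    rw [← o11_cpow hy, norm_mul, norm_mul]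
    have k1 := o11_norm hy (hns p)
    have k2 := norm_nonneg (G y)
    have k3 := mul_le_mul_of_nonneg_left k1 k2
    rw [mul_add] at k3
    exact k3
  -- continuity
  have hAC : (A:ℂ) ≠ 0 := by exact_mod_cast hA0.ne'
  have hBC : (B:ℂ) ≠ 0 := by exact_mod_cast hB0.ne'
  have cS : Continuous (fun p : ℝ × ℝ => (ρ:ℂ) * cexp (p.1 * I) + (ρ:ℂ) * cexp (p.2 * I)) := by fun_prop
  have cwk : Continuous (fun θ : ℝ => wk ((ρ:ℂ) * cexp (θ * I))) := by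
    unfold wk
    refine Continuous.add (Continuous.div continuous_const (by fun_prop) ?_) continuous_const
    intro θ
    rw [← norm_ne_zero_iff, hcα]; exact hρ.ne'
  have cw : Continuous (fun p : ℝ × ℝ => wk ((ρ:ℂ) * cexp (p.1 * I)) * wk ((ρ:ℂ) * cexp (p.2 * I)) *
      ((A:ℂ) ^ (-((ρ:ℂ) * cexp (p.1 * I))) * (B:ℂ) ^ (-((ρ:ℂ) * cexp (p.2 * I))))) := by
    refine Continuous.mul (Continuous.mul (cwk.comp continuous_fst) (cwk.comp continuous_snd)) (Continuous.mul ?_ ?_)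
    · exact Continuous.const_cpow (by fun_prop) (Or.inl hAC)
    · exact Continuous.const_cpow (by fun_prop) (Or.inl hBC)
  have sw := o11_swap2 hGm ig cS cw hbd
  -- left side
  have hL : ∫ y in Ioi (0:ℝ), (Jk (Lam m n) (pf δ (2 * y) r) * ((LibF4D.Lg (y / A) * LibF4D.Lg (y / B) : ℝ) : ℂ) +
        Jk (Lam m n) (pf δ (2 * y) (-r)) * ((LibF4D.Lg (y / A) * LibF4D.Lg (y / B) : ℝ) : ℂ)) =
      (((1 / (2 * Real.pi) : ℝ) : ℂ) * ((1 / (2 * Real.pi) : ℝ) : ℂ)) *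
      ∫ y in Ioi (0:ℝ), G y * (∫ θ in (0:ℝ)..(2 * Real.pi), ∫ φ in (0:ℝ)..(2 * Real.pi),
        (wk ((ρ:ℂ) * cexp (θ * I)) * wk ((ρ:ℂ) * cexp (φ * I)) *
      ((A:ℂ) ^ (-((ρ:ℂ) * cexp (θ * I))) * (B:ℂ) ^ (-((ρ:ℂ) * cexp (φ * I))))) *
        cexp (Real.log y * ((ρ:ℂ) * cexp (θ * I) + (ρ:ℂ) * cexp (φ * I)))) := by
    rw [← integral_const_mul]
    refine setIntegral_congr_fun measurableSet_Ioi ?_
    intro y hy
    have hy' : 0 < y := hy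
    show (Jk (Lam m n) (pf δ (2 * y) r) * ((LibF4D.Lg (y / A) * LibF4D.Lg (y / B) : ℝ) : ℂ) +
        Jk (Lam m n) (pf δ (2 * y) (-r)) * ((LibF4D.Lg (y / A) * LibF4D.Lg (y / B) : ℝ) : ℂ)) =
      (((1 / (2 * Real.pi) : ℝ) : ℂ) * ((1 / (2 * Real.pi) : ℝ) : ℂ)) * (G y * (∫ θ in (0:ℝ)..(2 * Real.pi), ∫ φ in (0:ℝ)..(2 * Real.pi),
        (wk ((ρ:ℂ) * cexp (θ * I)) * wk ((ρ:ℂ) * cexp (φ * I)) *
      ((A:ℂ) ^ (-((ρ:ℂ) * cexp (θ * I))) * (B:ℂ) ^ (-((ρ:ℂ) * cexp (φ * I))))) *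
        cexp (Real.log y * ((ρ:ℂ) * cexp (θ * I) + (ρ:ℂ) * cexp (φ * I)))))
    have e1 : (∫ θ in (0:ℝ)..(2 * Real.pi), ∫ φ in (0:ℝ)..(2 * Real.pi),
        (wk ((ρ:ℂ) * cexp (θ * I)) * wk ((ρ:ℂ) * cexp (φ * I)) *
      ((A:ℂ) ^ (-((ρ:ℂ) * cexp (θ * I))) * (B:ℂ) ^ (-((ρ:ℂ) * cexp (φ * I))))) *
        cexp (Real.log y * ((ρ:ℂ) * cexp (θ * I) + (ρ:ℂ) * cexp (φ * I)))) =
        (∫ θ in (0:ℝ)..(2 * Real.pi), (wk (ρ * cexp (θ * I)) * (A:ℂ) ^ (-(ρ * cexp (θ * I)))) * cexp (Real.log y * (ρ * cexp (θ * I)))) *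
        ∫ φ in (0:ℝ)..(2 * Real.pi), (wk (ρ * cexp (φ * I)) * (B:ℂ) ^ (-(ρ * cexp (φ * I)))) * cexp (Real.log y * (ρ * cexp (φ * I))) := by
      rw [← intervalIntegral.integral_mul_const]
      refine intervalIntegral.integral_congr (fun θ _ => ?_)
      show (∫ φ in (0:ℝ)..(2 * Real.pi),
        (wk ((ρ:ℂ) * cexp (θ * I)) * wk ((ρ:ℂ) * cexp (φ * I)) *
      ((A:ℂ) ^ (-((ρ:ℂ) * cexp (θ * I))) * (B:ℂ) ^ (-((ρ:ℂ) * cexp (φ * I))))) *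
        cexp (Real.log y * ((ρ:ℂ) * cexp (θ * I) + (ρ:ℂ) * cexp (φ * I)))) =
        ((wk (ρ * cexp (θ * I)) * (A:ℂ) ^ (-(ρ * cexp (θ * I)))) * cexp (Real.log y * (ρ * cexp (θ * I)))) *
        ∫ φ in (0:ℝ)..(2 * Real.pi), (wk (ρ * cexp (φ * I)) * (B:ℂ) ^ (-(ρ * cexp (φ * I)))) * cexp (Real.log y * (ρ * cexp (φ * I)))
      rw [← intervalIntegral.integral_const_mul]
      refine intervalIntegral.integral_congr (fun φ _ => ?_)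
      show (wk ((ρ:ℂ) * cexp (θ * I)) * wk ((ρ:ℂ) * cexp (φ * I)) *
      ((A:ℂ) ^ (-((ρ:ℂ) * cexp (θ * I))) * (B:ℂ) ^ (-((ρ:ℂ) * cexp (φ * I))))) *
        cexp (Real.log y * ((ρ:ℂ) * cexp (θ * I) + (ρ:ℂ) * cexp (φ * I))) =
        ((wk (ρ * cexp (θ * I)) * (A:ℂ) ^ (-(ρ * cexp (θ * I)))) * cexp (Real.log y * (ρ * cexp (θ * I)))) *
        ((wk (ρ * cexp (φ * I)) * (B:ℂ) ^ (-(ρ * cexp (φ * I)))) * cexp (Real.log y * (ρ * cexp (φ * I))))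
      rw [mul_add, Complex.exp_add]
      ring
    rw [e1, Complex.ofReal_mul, o11_Lg hρ hy' hA0, o11_Lg hρ hy' hB0, hG]
    ring
  rw [hL, sw]
  -- right side
  unfold Av
  rw [mul_assoc, ← intervalIntegral.integral_const_mul (((1 / (2 * Real.pi) : ℝ)) : ℂ)]
  congr 1
  refine intervalIntegral.integral_congr (fun θ _ => ?_)
  show ((1 / (2 * Real.pi) : ℝ) : ℂ) * (∫ φ in (0:ℝ)..(2 * Real.pi), (wk ((ρ:ℂ) * cexp (θ * I)) * wk ((ρ:ℂ) * cexp (φ * I)) *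
      ((A:ℂ) ^ (-((ρ:ℂ) * cexp (θ * I))) * (B:ℂ) ^ (-((ρ:ℂ) * cexp (φ * I))))) *
      ∫ y in Ioi (0:ℝ), G y * cexp (Real.log y * ((ρ:ℂ) * cexp (θ * I) + (ρ:ℂ) * cexp (φ * I)))) =
    ((1 / (2 * Real.pi) : ℝ) : ℂ) * ∫ φ in (0:ℝ)..(2 * Real.pi), wk ((ρ:ℂ) * cexp (θ * I)) * wk ((ρ:ℂ) * cexp (φ * I)) *
      ((A:ℂ) ^ (-((ρ:ℂ) * cexp (θ * I))) * (B:ℂ) ^ (-((ρ:ℂ) * cexp (φ * I)))) *
      (Complex.Gamma (1 + ((ρ:ℂ) * cexp (θ * I) + (ρ:ℂ) * cexp (φ * I))) * ((2 * Real.sin δ : ℝ) : ℂ) ^ (-1 - ((ρ:ℂ) * cexp (θ * I) + (ρ:ℂ) * cexp (φ * I))) *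
        VL (3/2) (Rz δ (Lam m n) r ((ρ:ℂ) * cexp (θ * I) + (ρ:ℂ) * cexp (φ * I))))
  congr 1
  refine intervalIntegral.integral_congr (fun φ _ => ?_)
  show (wk ((ρ:ℂ) * cexp (θ * I)) * wk ((ρ:ℂ) * cexp (φ * I)) *
      ((A:ℂ) ^ (-((ρ:ℂ) * cexp (θ * I))) * (B:ℂ) ^ (-((ρ:ℂ) * cexp (φ * I))))) *
      (∫ y in Ioi (0:ℝ), G y * cexp (Real.log y * ((ρ:ℂ) * cexp (θ * I) + (ρ:ℂ) * cexp (φ * I)))) =
    wk ((ρ:ℂ) * cexp (θ * I)) * wk ((ρ:ℂ) * cexp (φ * I)) *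
      ((A:ℂ) ^ (-((ρ:ℂ) * cexp (θ * I))) * (B:ℂ) ^ (-((ρ:ℂ) * cexp (φ * I)))) *
      (Complex.Gamma (1 + ((ρ:ℂ) * cexp (θ * I) + (ρ:ℂ) * cexp (φ * I))) * ((2 * Real.sin δ : ℝ) : ℂ) ^ (-1 - ((ρ:ℂ) * cexp (θ * I) + (ρ:ℂ) * cexp (φ * I))) *
        VL (3/2) (Rz δ (Lam m n) r ((ρ:ℂ) * cexp (θ * I) + (ρ:ℂ) * cexp (φ * I))))
  have hs := hns (θ, φ)
  have hs' : ‖(ρ:ℂ) * cexp (θ * I) + (ρ:ℂ) * cexp (φ * I)‖ ≤ 1/4 := hs
  generalize hsd : (ρ:ℂ) * cexp (θ * I) + (ρ:ℂ) * cexp (φ * I) = s at hs' ⊢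
  congr 1
  obtain ⟨a1, a2, a3⟩ := me1 s hs'
  obtain ⟨b1, b2, b3⟩ := me2 s hs'
  have e2 : ∫ y in Ioi (0:ℝ), G y * cexp (Real.log y * s) =
      (∫ y in Ioi (0:ℝ), Jk (Lam m n) (pf δ (2 * y) r) * (y:ℂ) ^ s) + ∫ y in Ioi (0:ℝ), Jk (Lam m n) (pf δ (2 * y) (-r)) * (y:ℂ) ^ s := by
    rw [← integral_add a1 b1]
    refine setIntegral_congr_fun measurableSet_Ioi ?_
    intro y hy
    show G y * cexp (Real.log y * s) = Jk (Lam m n) (pf δ (2 * y) r) * (y:ℂ) ^ s + Jk (Lam m n) (pf δ (2 * y) (-r)) * (y:ℂ) ^ s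
    rw [← o11_cpow hy, hG]
    ring
  rw [e2, a3, b3, ← mul_add]
  congr 1
  unfold VL
  rw [← mul_add, ← integral_add a2 b2]
  congr 1
  refine integral_congr_ae (Filter.Eventually.of_forall (fun y => ?_))
  have he : 0 < (r:ℝ) * Real.cos δ := mul_pos hr0 hcos
  have sg := O10_signs he ((((3/2 : ℝ) : ℂ) + y * I) - s)
  unfold Rz
  show cexp ((((3/2 : ℝ) : ℂ) + y * I) ^ 2) * (Lam m n : ℂ) ^ (((3/2 : ℝ) : ℂ) + y * I) * Complex.Gamma ((((3/2 : ℝ) : ℂ) + y * I) - s) *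
      (-((((r:ℝ) * Real.cos δ : ℝ) : ℂ) * I)) ^ (s - (((3/2 : ℝ) : ℂ) + y * I)) / (((3/2 : ℝ) : ℂ) + y * I) +
    cexp ((((3/2 : ℝ) : ℂ) + y * I) ^ 2) * (Lam m n : ℂ) ^ (((3/2 : ℝ) : ℂ) + y * I) * Complex.Gamma ((((3/2 : ℝ) : ℂ) + y * I) - s) *
      (-(((-(r:ℝ) * Real.cos δ : ℝ) : ℂ) * I)) ^ (s - (((3/2 : ℝ) : ℂ) + y * I)) / (((3/2 : ℝ) : ℂ) + y * I) = _
  have e3 : (-(((-(r:ℝ) * Real.cos δ : ℝ) : ℂ) * I)) = ((((r:ℝ) * Real.cos δ : ℝ) : ℂ) * I) := by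
    push_cast
    ring
  have e4 : s - (((3/2 : ℝ) : ℂ) + y * I) = -((((3/2 : ℝ) : ℂ) + y * I) - s) := by ring
  rw [e3, e4]
  have e5 : cexp ((((3/2 : ℝ) : ℂ) + y * I) ^ 2) * (Lam m n : ℂ) ^ (((3/2 : ℝ) : ℂ) + y * I) * Complex.Gamma ((((3/2 : ℝ) : ℂ) + y * I) - s) *
      (-((((r:ℝ) * Real.cos δ : ℝ) : ℂ) * I)) ^ (-((((3/2 : ℝ) : ℂ) + y * I) - s)) / (((3/2 : ℝ) : ℂ) + y * I) +
    cexp ((((3/2 : ℝ) : ℂ) + y * I) ^ 2) * (Lam m n : ℂ) ^ (((3/2 : ℝ) : ℂ) + y * I) * Complex.Gamma ((((3/2 : ℝ) : ℂ) + y * I) - s) *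
      ((((r:ℝ) * Real.cos δ : ℝ) : ℂ) * I) ^ (-((((3/2 : ℝ) : ℂ) + y * I) - s)) / (((3/2 : ℝ) : ℂ) + y * I) =
      cexp ((((3/2 : ℝ) : ℂ) + y * I) ^ 2) * (Lam m n : ℂ) ^ (((3/2 : ℝ) : ℂ) + y * I) * Complex.Gamma ((((3/2 : ℝ) : ℂ) + y * I) - s) *
      ((-((((r:ℝ) * Real.cos δ : ℝ) : ℂ) * I)) ^ (-((((3/2 : ℝ) : ℂ) + y * I) - s)) +
      ((((r:ℝ) * Real.cos δ : ℝ) : ℂ) * I) ^ (-((((3/2 : ℝ) : ℂ) + y * I) - s))) / (((3/2 : ℝ) : ℂ) + y * I) := by ring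
  rw [e5, sg]
  ring

end Pool.Agent.LibF4
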