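import Mathlib
import Pool.Agent.LibF4.ODefs

/-! Row O12.
cr l r = ∑_{d | l, d | r} d μ(l/d). ∑_r r^{-w} over multiples of d is d^{-w} ζ(w) (zeta_eq_tsum_one_div_nat_add_one_cpow). Norms: ≤ ∑_{d|l} d ∑_{d | r} r^{-σ} = ∑ d^{1-σ} ζ(σ) ≤ card * ζ(σ), ζ(σ) ≤ 1 + 1/(σ-1) (in LibM3.A8: a8_zeta_le, or integral comparison).
-/

set_option autoImplicit false

namespace Pool.Agent.LibF4

open MeasureTheory Set Filter Topology Complex
open scoped ComplexConjugate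

theorem O12_sum {σ : ℝ} (h : 1 < σ) : Summable (fun n : ℕ => ((n : ℝ) + 1) ^ (-σ)) ∧
    ∑' n : ℕ, ((n : ℝ) + 1) ^ (-σ) ≤ 1 + 1 / (σ - 1) := by
  have h1 := ZetaAsymptotics.zeta_limit_aux1 h
  have h2 : 0 ≤ ZetaAsymptotics.termTSum σ :=
    tsum_nonneg fun n => ZetaAsymptotics.term_nonneg _ _
  have h3 : (fun n : ℕ => ((n : ℝ) + 1) ^ (-σ)) = fun n : ℕ => 1 / ((n : ℝ) + 1) ^ σ := by
    funext n
    rw [Real.rpow_neg (by positivity), one_div]
  have h4 : Summable (fun n : ℕ => 1 / ((n : ℝ) + 1) ^ σ) := by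
    have := (Real.summable_nat_rpow_inv (p := σ)).mpr h
    refine ((summable_nat_add_iff 1).mpr this).congr fun n => ?_
    push_cast
    rw [one_div]
  rw [h3]
  refine ⟨h4, ?_⟩
  nlinarith

theorem O12_cr (l r : ℕ) (hl : 1 ≤ l) : ((LibF4D.cr l (r + 1) : ℤ) : ℂ) =
    ∑ d ∈ l.divisors, ((d : ℂ) * ((ArithmeticFunction.moebius (l / d) : ℤ) : ℂ)) *
      (if d ∣ r + 1 then 1 else 0) := by
  unfold LibF4D.cr
  have h1 : (Nat.gcd l (r + 1)).divisors = l.divisors.filter (fun d => d ∣ r + 1) := by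
    ext d
    simp only [Nat.mem_divisors, Finset.mem_filter, Nat.dvd_gcd_iff]
    have : Nat.gcd l (r + 1) ≠ 0 := Nat.gcd_ne_zero_left (by omega)
    have h0 : l ≠ 0 := by omega
    tauto
  rw [h1, Finset.sum_filter]
  push_cast
  refine Finset.sum_congr rfl fun d _ => ?_
  split_ifs <;> simp

theorem O12_mult {d : ℕ} (hd : 1 ≤ d) {E : Type*} [AddCommMonoid E] [TopologicalSpace E]
    (F : ℕ → E) (a : E) :
    HasSum (fun r : ℕ => if d ∣ r + 1 then F (r + 1) else 0) a ↔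
      HasSum (fun k : ℕ => F (d * (k + 1))) a := by
  have hinj : Function.Injective (fun k : ℕ => d * (k + 1) - 1) := by
    intro a b hab
    simp only at hab
    have h1 : 1 ≤ d * (a + 1) := Nat.mul_pos hd (Nat.succ_pos a)
    have h2 : 1 ≤ d * (b + 1) := Nat.mul_pos hd (Nat.succ_pos b)
    have h3 : d * (a + 1) = d * (b + 1) := by omega
    have := Nat.eq_of_mul_eq_mul_left hd h3
    omega
  have hf : ∀ x, x ∉ Set.range (fun k : ℕ => d * (k + 1) - 1) →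
      (fun r : ℕ => if d ∣ r + 1 then F (r + 1) else 0) x = 0 := by
    intro x hx
    simp only
    rw [if_neg]
    rintro ⟨c, hc⟩
    apply hx
    have hc0 : c ≠ 0 := by
      rintro rfl
      omega
    refine ⟨c - 1, ?_⟩
    simp only
    rw [show c - 1 + 1 = c by omega, ← hc]
    omega
  rw [← Function.Injective.hasSum_iff hinj hf]
  have h3 : ((fun r : ℕ => if d ∣ r + 1 then F (r + 1) else 0) ∘ fun k : ℕ => d * (k + 1) - 1) =
      fun k : ℕ => F (d * (k + 1)) := by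
    funext k
    have h1 : 1 ≤ d * (k + 1) := Nat.mul_pos hd (Nat.succ_pos k)
    simp only [Function.comp]
    rw [show d * (k + 1) - 1 + 1 = d * (k + 1) by omega, if_pos (Dvd.intro _ rfl)]
  rw [h3]

/-- O12: Dirichlet series of Ramanujan sums over `r` -/
theorem O12_cr_series {l : ℕ} (hl : 1 ≤ l) {w : ℂ} (hw : 1 < w.re) :
    Summable (fun r : ℕ => ‖((LibF4D.cr l (r + 1) : ℤ) : ℂ) * ((r + 1 : ℕ) : ℂ) ^ (-w)‖) ∧
    ∑' r : ℕ, ‖((LibF4D.cr l (r + 1) : ℤ) : ℂ) * ((r + 1 : ℕ) : ℂ) ^ (-w)‖ ≤ (l.divisors.card : ℝ) * (1 + 1 / (w.re - 1)) ∧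
    ∑' r : ℕ, ((LibF4D.cr l (r + 1) : ℤ) : ℂ) * ((r + 1 : ℕ) : ℂ) ^ (-w) =
      riemannZeta w * ∑ d ∈ l.divisors, ((ArithmeticFunction.moebius (l / d) : ℤ) : ℂ) * (d:ℂ) ^ (1 - w) := by
  obtain ⟨hs, hle⟩ := O12_sum hw
  set σ := w.re with hσ
  -- complex sums over multiples
  have hz : HasSum (fun k : ℕ => ((k + 1 : ℕ) : ℂ) ^ (-w)) (riemannZeta w) := by
    rw [zeta_eq_tsum_one_div_nat_add_one_cpow hw]
    have hsum : Summable (fun k : ℕ => ((k + 1 : ℕ) : ℂ) ^ (-w)) := by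
      refine Summable.of_norm ?_
      refine hs.congr fun n => ?_
      rw [Complex.norm_natCast_cpow_of_pos (Nat.succ_pos n)]
      simp [hσ]
    refine (hsum.hasSum_iff).2 (tsum_congr fun n => ?_)
    rw [Complex.cpow_neg, one_div]
    push_cast
    rfl
  have hd1 : ∀ d ∈ l.divisors, 1 ≤ d := fun d hd => Nat.pos_of_mem_divisors hd
  have hC : ∀ d ∈ l.divisors, HasSum (fun r : ℕ => if d ∣ r + 1 then ((r + 1 : ℕ) : ℂ) ^ (-w) else 0)
      ((d : ℂ) ^ (-w) * riemannZeta w) := by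
    intro d hd
    rw [O12_mult (hd1 d hd) (fun n : ℕ => (n : ℂ) ^ (-w))]
    have h1 := hz.mul_left ((d : ℂ) ^ (-w))
    have e : (fun k : ℕ => ((d * (k + 1) : ℕ) : ℂ) ^ (-w)) =
        fun k : ℕ => (d : ℂ) ^ (-w) * ((k + 1 : ℕ) : ℂ) ^ (-w) := by
      funext k
      rw [Nat.cast_mul, Complex.natCast_mul_natCast_cpow]
    rw [e]
    exact h1
  have hnorm : ∀ m : ℕ, 1 ≤ m → ‖(m : ℂ) ^ (-w)‖ = (m : ℝ) ^ (-σ) := by
    intro m hm
    rw [Complex.norm_natCast_cpow_of_pos hm, Complex.neg_re]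
  have hR : ∀ d ∈ l.divisors, HasSum
      (fun r : ℕ => if d ∣ r + 1 then ‖((r + 1 : ℕ) : ℂ) ^ (-w)‖ else 0)
      ((d : ℝ) ^ (-σ) * ∑' n : ℕ, ((n : ℝ) + 1) ^ (-σ)) := by
    intro d hd
    rw [O12_mult (hd1 d hd) (fun n : ℕ => ‖(n : ℂ) ^ (-w)‖)]
    have h1 := hs.hasSum.mul_left ((d : ℝ) ^ (-σ))
    have e : (fun k : ℕ => ‖((d * (k + 1) : ℕ) : ℂ) ^ (-w)‖) =
        fun k : ℕ => (d : ℝ) ^ (-σ) * ((k : ℝ) + 1) ^ (-σ) := by
      funext k
      rw [hnorm _ (Nat.mul_pos (hd1 d hd) (Nat.succ_pos k)), Nat.cast_mul,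
        Real.mul_rpow (Nat.cast_nonneg _) (Nat.cast_nonneg _)]
      push_cast
      rfl
    rw [e]
    exact h1
  have hG : HasSum (fun r : ℕ => ∑ d ∈ l.divisors, (d : ℝ) *
      (if d ∣ r + 1 then ‖((r + 1 : ℕ) : ℂ) ^ (-w)‖ else 0))
      (∑ d ∈ l.divisors, (d : ℝ) * ((d : ℝ) ^ (-σ) * ∑' n : ℕ, ((n : ℝ) + 1) ^ (-σ))) :=
    hasSum_sum fun d hd => (hR d hd).mul_left (d : ℝ)
  have hbd : ∀ r : ℕ, ‖((LibF4D.cr l (r + 1) : ℤ) : ℂ) * ((r + 1 : ℕ) : ℂ) ^ (-w)‖ ≤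
      ∑ d ∈ l.divisors, (d : ℝ) * (if d ∣ r + 1 then ‖((r + 1 : ℕ) : ℂ) ^ (-w)‖ else 0) := by
    intro r
    rw [O12_cr l r hl, Finset.sum_mul]
    refine (norm_sum_le _ _).trans (Finset.sum_le_sum fun d _ => ?_)
    have hmu : ‖((ArithmeticFunction.moebius (l / d) : ℤ) : ℂ)‖ ≤ 1 := by
      rw [Complex.norm_intCast]
      exact_mod_cast ArithmeticFunction.abs_moebius_le_one
    rw [norm_mul, norm_mul, norm_mul, Complex.norm_natCast]
    have h0 : 0 ≤ ‖((r + 1 : ℕ) : ℂ) ^ (-w)‖ := norm_nonneg _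
    have hd0 : (0 : ℝ) ≤ d := Nat.cast_nonneg d
    by_cases hdr : d ∣ r + 1
    · rw [if_pos hdr, if_pos hdr, norm_one, mul_one]
      have : (d : ℝ) * ‖((ArithmeticFunction.moebius (l / d) : ℤ) : ℂ)‖ ≤ (d : ℝ) * 1 :=
        mul_le_mul_of_nonneg_left hmu hd0
      rw [mul_one] at this
      exact mul_le_mul_of_nonneg_right this h0
    · rw [if_neg hdr, if_neg hdr]
      simp
  have hsum := Summable.of_nonneg_of_le (fun r => norm_nonneg _) hbd hG.summable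
  have hZ0 : 0 ≤ ∑' n : ℕ, ((n : ℝ) + 1) ^ (-σ) := tsum_nonneg fun n => by positivity
  refine ⟨hsum, ?_, ?_⟩
  · refine (hsum.tsum_le_tsum hbd hG.summable).trans ?_
    rw [hG.tsum_eq]
    calc ∑ d ∈ l.divisors, (d : ℝ) * ((d : ℝ) ^ (-σ) * ∑' n : ℕ, ((n : ℝ) + 1) ^ (-σ))
        ≤ ∑ d ∈ l.divisors, (1 + 1 / (σ - 1)) := by
          refine Finset.sum_le_sum fun d hd => ?_
          have hd0 : (1 : ℝ) ≤ d := by exact_mod_cast hd1 d hd
          have h1 : (d : ℝ) * (d : ℝ) ^ (-σ) ≤ 1 := by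
            have h2 : (d : ℝ) * (d : ℝ) ^ (-σ) = (d : ℝ) ^ (1 + -σ) := by
              rw [Real.rpow_add (by linarith), Real.rpow_one]
            rw [h2]
            exact Real.rpow_le_one_of_one_le_of_nonpos hd0 (by linarith)
          rw [← mul_assoc]
          calc (d : ℝ) * (d : ℝ) ^ (-σ) * ∑' n : ℕ, ((n : ℝ) + 1) ^ (-σ)
              ≤ 1 * ∑' n : ℕ, ((n : ℝ) + 1) ^ (-σ) := mul_le_mul_of_nonneg_right h1 hZ0
            _ ≤ 1 + 1 / (σ - 1) := by rw [one_mul]; exact hle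
      _ = (l.divisors.card : ℝ) * (1 + 1 / (σ - 1)) := by
          rw [Finset.sum_const, nsmul_eq_mul]
  · have h1 : HasSum (fun r : ℕ => ((LibF4D.cr l (r + 1) : ℤ) : ℂ) * ((r + 1 : ℕ) : ℂ) ^ (-w))
        (∑ d ∈ l.divisors, ((d : ℂ) * ((ArithmeticFunction.moebius (l / d) : ℤ) : ℂ)) *
          ((d : ℂ) ^ (-w) * riemannZeta w)) := by
      have h2 := hasSum_sum (s := l.divisors) fun d hd =>
        (hC d hd).mul_left ((d : ℂ) * ((ArithmeticFunction.moebius (l / d) : ℤ) : ℂ))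
      have e : (fun r : ℕ => ((LibF4D.cr l (r + 1) : ℤ) : ℂ) * ((r + 1 : ℕ) : ℂ) ^ (-w)) =
          fun r : ℕ => ∑ d ∈ l.divisors, ((d : ℂ) *
            ((ArithmeticFunction.moebius (l / d) : ℤ) : ℂ)) *
              (if d ∣ r + 1 then ((r + 1 : ℕ) : ℂ) ^ (-w) else 0) := by
        funext r
        rw [O12_cr l r hl, Finset.sum_mul]
        refine Finset.sum_congr rfl fun d _ => ?_
        split_ifs <;> simp
      rw [e]
      exact h2
    rw [h1.tsum_eq, Finset.mul_sum]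
    refine Finset.sum_congr rfl fun d hd => ?_
    have hd0 : (d : ℂ) ≠ 0 := by
      have := hd1 d hd
      exact_mod_cast (by omega : d ≠ 0)
    have h3 : (d : ℂ) ^ (1 - w) = (d : ℂ) * (d : ℂ) ^ (-w) := by
      rw [sub_eq_add_neg, Complex.cpow_add _ _ hd0, Complex.cpow_one]
    rw [h3]
    ring

end Pool.Agent.LibF4
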