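import Mathlib
import Pool.Agent.LibF4.ODefs

/-! Row O13.
Directly EulerProduct.eulerProduct_hasProd (Mathlib.NumberTheory.EulerProduct.Basic).
-/

set_option autoImplicit false

namespace Pool.Agent.LibF4

open MeasureTheory Set Filter Topology Complex
open scoped ComplexConjugate

/-- O13: Euler product, general comparison of a multiplicative function with a product of zeta functions -/
theorem O13_euler {h : ℕ → ℂ} (h1 : h 1 = 1) (h0 : h 0 = 0) (hmul : ∀ a b : ℕ, Nat.Coprime a b → h (a * b) = h a * h b)
    (hs : Summable (fun n => ‖h n‖)) {E : ℕ → ℂ} (hE : ∀ p : ℕ, p.Prime → ∑' k : ℕ, h (p ^ k) = E p) :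
    HasProd (fun p : Nat.Primes => E p) (∑' n : ℕ, h n) := by
  have h2 := EulerProduct.eulerProduct_hasProd (f := h) h1 (fun {m n} hc => hmul m n hc) hs h0
  have h3 : (fun p : Nat.Primes => E p) = fun p : Nat.Primes => ∑' e : ℕ, h ((p : ℕ) ^ e) := by
    funext p
    exact (hE p p.2).symm
  rw [h3]
  exact h2

end Pool.Agent.LibF4
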