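import Mathlib
import Pool.Agent.LibF4.ODefs

/-! Row O15.
∑_{d | p^i} μ(p^i/d) d^{1-w} = p^{i(1-w)} - p^{(i-1)(1-w)} (i ≥ 1), 1 for i = 0 (Nat.divisors_prime_pow; only d = p^i, p^{i-1}). With θ = p^{-1-2α}, φ = p^{-1-2β}, Q = p^{1-w}, q = 1/Q = px(-z), z = w+α+β: y = φ Q = py, x = θ φ Q = px.
Sum = 1 + (1-q)(∑_{i=1}^{j} y^i + y^j x/(1-x)); times (1-x): elementary algebra gives the numerator of Fp (j ≥ 1), resp. 1 - x q for j = 0. |x| ≤ p^{-7/4}.
-/

set_option autoImplicit false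

namespace Pool.Agent.LibF4

open MeasureTheory Set Filter Topology Complex
open scoped ComplexConjugate

theorem O15_pow (p : ℕ) (s : ℂ) (k : ℕ) : ((p ^ k : ℕ) : ℂ) ^ s = ((p : ℂ) ^ s) ^ k := by
  induction k with
  | zero => simp
  | succ k ih =>
    rw [pow_succ, pow_succ, Nat.cast_mul, Complex.natCast_mul_natCast_cpow, ih]

theorem O15_A (w : ℂ) {p : ℕ} (hp : p.Prime) (i : ℕ) (q : ℂ) (hq : (p : ℂ) ^ (1 - w) * q = 1) :
    ∑ d ∈ (p ^ i).divisors, ((ArithmeticFunction.moebius (p ^ i / d) : ℤ) : ℂ) * (d:ℂ) ^ (1 - w) =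
      if i = 0 then 1 else ((p : ℂ) ^ (1 - w)) ^ i * (1 - q) := by
  rcases i with _ | k
  · simp
  · rw [Nat.sum_divisors_prime_pow hp, Finset.sum_range_succ, Finset.sum_range_succ]
    have h0 : ∑ x ∈ Finset.range k,
        ((ArithmeticFunction.moebius (p ^ (k + 1) / p ^ x) : ℤ) : ℂ) * ((p ^ x : ℕ) : ℂ) ^ (1 - w) = 0 := by
      refine Finset.sum_eq_zero ?_
      intro x hx
      have hx' : x < k := Finset.mem_range.1 hx
      rw [Nat.pow_div (by omega) hp.pos,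
        ArithmeticFunction.moebius_apply_prime_pow hp (by omega), if_neg (by omega)]
      simp
    rw [h0, Nat.pow_div (by omega) hp.pos, Nat.pow_div (by omega) hp.pos, O15_pow, O15_pow]
    have h1 : k + 1 - k = 1 := by omega
    rw [h1, Nat.sub_self, if_neg (by omega), pow_zero, pow_one,
      ArithmeticFunction.moebius_apply_prime hp, ArithmeticFunction.moebius_apply_one]
    push_cast
    have : ((p : ℂ) ^ (1 - w)) ^ (k + 1) * (1 - q)
        = ((p : ℂ) ^ (1 - w)) ^ (k + 1) - ((p : ℂ) ^ (1 - w)) ^ k * ((p : ℂ) ^ (1 - w) * q) := by ring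
    rw [this, hq]
    ring

theorem O15_alg (x y q : ℂ) (j : ℕ) (hj : j ≠ 0) :
    (1 - x) * (1 + ∑ i ∈ Finset.range j, y ^ (i + 1) * (1 - q)) + y ^ j * (1 - q) * x =
      ∑ i ∈ Finset.range (j + 1), y ^ i - (x + q * y) * ∑ i ∈ Finset.range j, y ^ i +
        q * x * y * ∑ i ∈ Finset.range (j - 1), y ^ i := by
  obtain ⟨k, rfl⟩ := Nat.exists_eq_succ_of_ne_zero hj
  have h1 : ∑ i ∈ Finset.range (k + 1), y ^ (i + 1) * (1 - q)
      = y * (1 - q) * ∑ i ∈ Finset.range (k + 1), y ^ i := by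
    rw [Finset.mul_sum]
    refine Finset.sum_congr rfl fun i _ => ?_
    ring
  have h2 : ∑ i ∈ Finset.range (k + 1), y ^ i = y * ∑ i ∈ Finset.range k, y ^ i + 1 := by
    rw [Finset.sum_range_succ', Finset.mul_sum]
    simp [pow_succ, mul_comm]
  have h3 : ∑ i ∈ Finset.range (k + 1), y ^ i = ∑ i ∈ Finset.range k, y ^ i + y ^ k :=
    Finset.sum_range_succ _ _
  have h4 : ∑ i ∈ Finset.range (k + 1 + 1), y ^ i = ∑ i ∈ Finset.range (k + 1), y ^ i + y ^ (k + 1) :=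
    Finset.sum_range_succ _ _
  simp only [Nat.succ_eq_add_one, Nat.add_sub_cancel]
  rw [h1, h4, h2]
  have h5 : y ^ k = y * ∑ i ∈ Finset.range k, y ^ i + 1 - ∑ i ∈ Finset.range k, y ^ i := by
    rw [← h2, h3]; ring
  rw [pow_succ, h5]
  ring

/-- O15: the local factor as a series -/
theorem O15_local {α β w : ℂ} (hα : ‖α‖ ≤ 1/8) (hβ : ‖β‖ ≤ 1/8) (hw : 5/4 ≤ w.re) {p : ℕ} (hp : p.Prime) (j : ℕ) :
    Summable (fun i : ℕ => ‖((p:ℂ) ^ (-1 - 2 * α)) ^ (i - min i j) * ((p:ℂ) ^ (-1 - 2 * β)) ^ i *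
      ∑ d ∈ (p ^ i).divisors, ((ArithmeticFunction.moebius (p ^ i / d) : ℤ) : ℂ) * (d:ℂ) ^ (1 - w)‖) ∧
    (1 - (p:ℂ) ^ (-(1 + 2 * (α + β) + w))) * (∑' i : ℕ, ((p:ℂ) ^ (-1 - 2 * α)) ^ (i - min i j) * ((p:ℂ) ^ (-1 - 2 * β)) ^ i *
      ∑ d ∈ (p ^ i).divisors, ((ArithmeticFunction.moebius (p ^ i / d) : ℤ) : ℂ) * (d:ℂ) ^ (1 - w)) =
      (1 - (p:ℂ) ^ (-(2 + 2 * (α + β)))) * (if j = 0 then 1 else Fp α β (w + (α + β)) p j) := by
  have hp0 : (p : ℂ) ≠ 0 := by exact_mod_cast hp.ne_zero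
  have hα' := abs_le.1 ((Complex.abs_re_le_norm α).trans hα)
  have hβ' := abs_le.1 ((Complex.abs_re_le_norm β).trans hβ)
  set θ : ℂ := (p:ℂ) ^ (-1 - 2 * α) with hθ
  set φ : ℂ := (p:ℂ) ^ (-1 - 2 * β) with hφ
  set Q : ℂ := (p:ℂ) ^ (1 - w) with hQ
  set x : ℂ := px (α + β) (w + (α + β)) p with hx
  set y : ℂ := py α β (w + (α + β)) p with hy
  set q : ℂ := px (α + β) (-(w + (α + β))) p with hq
  have hQq : Q * q = 1 := by
    rw [hQ, hq, px, ← Complex.cpow_add _ _ hp0]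
    have : 1 - w + -(1 + (α + β) + -(w + (α + β))) = 0 := by ring
    rw [this, Complex.cpow_zero]
  have hyQ : φ * Q = y := by
    rw [hφ, hQ, hy, py, ← Complex.cpow_add _ _ hp0]
    congr 1; ring
  have hxQ : θ * φ * Q = x := by
    rw [hθ, hφ, hQ, hx, px, ← Complex.cpow_add _ _ hp0, ← Complex.cpow_add _ _ hp0]
    congr 1; ring
  have hx' : (p:ℂ) ^ (-(1 + 2 * (α + β) + w)) = x := by
    rw [hx, px]; congr 1; ring
  have hxq : (p:ℂ) ^ (-(2 + 2 * (α + β))) = x * q := by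
    rw [hx, hq, px, px, ← Complex.cpow_add _ _ hp0]
    congr 1; ring
  have hxn : ‖x‖ < 1 := by
    rw [← hx', Complex.norm_natCast_cpow_of_pos hp.pos]
    apply Real.rpow_lt_one_of_one_lt_of_neg
    · exact_mod_cast hp.one_lt
    · simp only [Complex.neg_re, Complex.add_re, Complex.mul_re, Complex.one_re, Complex.re_ofNat,
        Complex.im_ofNat]
      nlinarith [hα'.1, hβ'.1]
  have hxqn : ‖x * q‖ < 1 := by
    rw [← hxq, Complex.norm_natCast_cpow_of_pos hp.pos]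
    apply Real.rpow_lt_one_of_one_lt_of_neg
    · exact_mod_cast hp.one_lt
    · simp only [Complex.neg_re, Complex.add_re, Complex.mul_re, Complex.re_ofNat,
        Complex.im_ofNat]
      nlinarith [hα'.1, hβ'.1]
  have hxq1 : 1 - x * q ≠ 0 := by
    intro h
    have : x * q = 1 := by linear_combination -h
    rw [this] at hxqn
    simp at hxqn
  have hx1 : 1 - x ≠ 0 := by
    intro h
    have : x = 1 := by linear_combination -h
    rw [this] at hxn
    simp at hxn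
  -- the terms
  have hT : ∀ i : ℕ, θ ^ (i - min i j) * φ ^ i *
      ∑ d ∈ (p ^ i).divisors, ((ArithmeticFunction.moebius (p ^ i / d) : ℤ) : ℂ) * (d:ℂ) ^ (1 - w) =
      θ ^ (i - min i j) * φ ^ i * (if i = 0 then 1 else Q ^ i * (1 - q)) := by
    intro i
    rw [O15_A w hp i q hQq]
  simp only [hT]
  set T : ℕ → ℂ := fun i => θ ^ (i - min i j) * φ ^ i * (if i = 0 then 1 else Q ^ i * (1 - q)) with hTd
  have hT0 : T 0 = 1 := by simp [hTd]
  have hT1 : ∀ i, i < j → T (i + 1) = y ^ (i + 1) * (1 - q) := by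
    intro i hi
    simp only [hTd]
    rw [min_eq_left (by omega), Nat.sub_self, if_neg (by omega), ← hyQ, mul_pow]
    ring
  have hT2 : ∀ i, T (i + (j + 1)) = y ^ j * (1 - q) * x * x ^ i := by
    intro i
    simp only [hTd]
    rw [min_eq_right (by omega), if_neg (by omega), ← hxQ, ← hyQ]
    have : i + (j + 1) - j = i + 1 := by omega
    rw [this]
    ring
  have hgeo : Summable fun i : ℕ => ‖T (i + (j + 1))‖ := by
    simp only [hT2, norm_mul, norm_pow]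
    exact (summable_geometric_of_lt_one (norm_nonneg x) hxn).mul_left _
  have hsum : Summable fun i : ℕ => ‖T i‖ := (summable_nat_add_iff (j + 1)).1 hgeo
  refine ⟨hsum, ?_⟩
  have hts : ∑' i, T i = 1 + ∑ i ∈ Finset.range j, y ^ (i + 1) * (1 - q) + y ^ j * (1 - q) * x * (1 - x)⁻¹ := by
    rw [← hsum.of_norm.sum_add_tsum_nat_add (j + 1), Finset.sum_range_succ', hT0,
      Finset.sum_congr rfl (fun i hi => hT1 i (Finset.mem_range.1 hi))]
    simp only [hT2]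
    rw [tsum_mul_left, tsum_geometric_of_norm_lt_one hxn]
    ring
  change (1 - (p:ℂ) ^ (-(1 + 2 * (α + β) + w))) * (∑' i, T i) = _
  rw [hts, hx', hxq]
  have e1 : (1 - x) * (1 + ∑ i ∈ Finset.range j, y ^ (i + 1) * (1 - q) + y ^ j * (1 - q) * x * (1 - x)⁻¹)
      = (1 - x) * (1 + ∑ i ∈ Finset.range j, y ^ (i + 1) * (1 - q)) + y ^ j * (1 - q) * x := by
    rw [mul_add, mul_comm (1 - x) (y ^ j * (1 - q) * x * (1 - x)⁻¹), mul_assoc (y ^ j * (1 - q) * x),
      inv_mul_cancel₀ hx1, mul_one]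
  rw [e1]
  split_ifs with hj
  · subst hj
    simp
    ring
  · rw [O15_alg x y q j hj, Fp, ← hx, ← hy, ← hq, mul_div_cancel₀ _ hxq1]

end Pool.Agent.LibF4
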