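import Mathlib
import Pool.Agent.LibF4.ODefs
import Pool.Agent.LibF4.O13
import Pool.Agent.LibF4.O15
import Pool.Agent.LibF4.OBridge

/-! Row O14.
h(l) = the summand is multiplicative in l (gcd(l,m) is multiplicative in l; convolution of μ and d^{1-w}). Summability: |h(l)| ≤ (mn)^{3/4} l^{-3/2} d(l). O13: HasProd of E_p = local series: for p ∤ mn: j = 0; p^j ‖ m: O15 with (α,β,j) ; p^j ‖ n: O15 with (β,α,j) (same α+β).
Multiply by the Euler product of ζ(2+2s): HasProd (1-p^{-(2+2s)})⁻¹ (riemannZeta_eulerProduct_hasProd), compare with ζ(1+2s+w) and the finite product FF (hasProd of a function equal to 1 outside a finite set); uniqueness of HasProd.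
-/

set_option autoImplicit false

namespace Pool.Agent.LibF4

open MeasureTheory Set Filter Topology Complex
open scoped ComplexConjugate

theorem F4O14_summ : Summable (fun l : ℕ => (l.divisors.card : ℝ) * (l:ℝ) ^ (-(3/2) : ℝ)) := by
  have hz : LSeriesSummable (fun n => ((ArithmeticFunction.zeta : ArithmeticFunction ℂ)) n)
      (3/2 : ℂ) := by
    have h1 := (ArithmeticFunction.LSeriesSummable_zeta_iff (s := (3/2:ℂ))).mpr (by norm_num)
    simpa using h1
  have h2 := (ArithmeticFunction.LSeriesSummable_mul hz hz).norm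
  refine h2.congr (fun l => ?_)
  rw [LSeries.norm_term_eq]
  split_ifs with hl
  · subst hl
    simp
  · have h3 : ((ArithmeticFunction.zeta : ArithmeticFunction ℂ) *
        (ArithmeticFunction.zeta : ArithmeticFunction ℂ)) l = (l.divisors.card : ℂ) := by
      rw [ArithmeticFunction.coe_zeta_mul_apply]
      have h4 : ∀ i ∈ l.divisors, (ArithmeticFunction.zeta : ArithmeticFunction ℂ) i = 1 := by
        intro i hi
        have h5 : i ≠ 0 := by
          have := Nat.pos_of_mem_divisors hi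
          omega
        simp [h5]
      rw [Finset.sum_congr rfl h4, Finset.sum_const, nsmul_eq_mul, mul_one]
    rw [h3, Complex.norm_natCast]
    have h6 : ((3/2 : ℂ)).re = 3/2 := by norm_num
    rw [h6, Real.rpow_neg (Nat.cast_nonneg l), div_eq_mul_inv]

/-- the convolution of `μ` and `d ^ c` -/
noncomputable def F4O14_S (c : ℂ) (l : ℕ) : ℂ :=
  ∑ d ∈ l.divisors, ((ArithmeticFunction.moebius (l / d) : ℤ) : ℂ) * (d:ℂ) ^ c

/-- `d ^ c` as an arithmetic function -/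
noncomputable def F4O14_pw (c : ℂ) : ArithmeticFunction ℂ :=
  ⟨fun d => if d = 0 then 0 else (d:ℂ) ^ c, by simp⟩

theorem F4O14_pw_mult (c : ℂ) : (F4O14_pw c).IsMultiplicative := by
  constructor
  · simp [F4O14_pw]
  · intro a b _
    simp only [F4O14_pw, ArithmeticFunction.coe_mk]
    by_cases ha : a = 0
    · simp [ha]
    by_cases hb : b = 0
    · simp [hb]
    rw [if_neg ha, if_neg hb, if_neg (mul_ne_zero ha hb), Nat.cast_mul,
      Complex.natCast_mul_natCast_cpow]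

theorem F4O14_S_eq (c : ℂ) (l : ℕ) :
    F4O14_S c l = (((ArithmeticFunction.moebius : ArithmeticFunction ℤ) : ArithmeticFunction ℂ) *
      F4O14_pw c) l := by
  rw [ArithmeticFunction.mul_apply, Nat.sum_divisorsAntidiagonal'
    (fun a b => ((ArithmeticFunction.moebius : ArithmeticFunction ℤ) : ArithmeticFunction ℂ) a *
      F4O14_pw c b)]
  unfold F4O14_S
  refine Finset.sum_congr rfl fun d hd => ?_
  have h5 : d ≠ 0 := by
    have := Nat.pos_of_mem_divisors hd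
    omega
  simp [F4O14_pw, h5]

theorem F4O14_S_mul (c : ℂ) {a b : ℕ} (hab : Nat.Coprime a b) :
    F4O14_S c (a * b) = F4O14_S c a * F4O14_S c b := by
  rw [F4O14_S_eq, F4O14_S_eq, F4O14_S_eq]
  exact (ArithmeticFunction.isMultiplicative_moebius.intCast.mul
    (F4O14_pw_mult c)).map_mul_of_coprime hab

theorem F4O14_S_bound {c : ℂ} (hc : c.re ≤ 0) (l : ℕ) :
    ‖F4O14_S c l‖ ≤ (l.divisors.card : ℝ) := by
  unfold F4O14_S
  refine (norm_sum_le _ _).trans ?_
  have h1 : ∀ d ∈ l.divisors,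
      ‖((ArithmeticFunction.moebius (l / d) : ℤ) : ℂ) * (d:ℂ) ^ c‖ ≤ 1 := by
    intro d hd
    have h5 : 0 < d := Nat.pos_of_mem_divisors hd
    rw [norm_mul, Complex.norm_natCast_cpow_of_pos h5]
    have h6 : ‖((ArithmeticFunction.moebius (l / d) : ℤ) : ℂ)‖ ≤ 1 := by
      rw [Complex.norm_intCast]
      exact_mod_cast ArithmeticFunction.abs_moebius_le_one
    have h7 : (d:ℝ) ^ c.re ≤ 1 := by
      apply Real.rpow_le_one_of_one_le_of_nonpos _ hc
      exact_mod_cast h5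
    have h8 : 0 ≤ (d:ℝ) ^ c.re := by positivity
    calc _ ≤ 1 * 1 := mul_le_mul h6 h7 h8 zero_le_one
      _ = 1 := one_mul 1
  refine (Finset.sum_le_sum h1).trans ?_
  rw [Finset.sum_const, nsmul_eq_mul, mul_one]

theorem F4O14_lr_mul {a b : ℕ} (m : ℕ) (hab : Nat.Coprime a b) :
    LibF4D.lr (a * b) m = LibF4D.lr a m * LibF4D.lr b m := by
  unfold LibF4D.lr
  rw [Nat.gcd_comm (a * b) m, Nat.Coprime.gcd_mul m hab, Nat.gcd_comm m a, Nat.gcd_comm m b]
  exact (Nat.div_mul_div_comm (Nat.gcd_dvd_left a m) (Nat.gcd_dvd_left b m)).symm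

theorem F4O14_cast_pow (a : ℕ) (i : ℕ) (c : ℂ) : ((a ^ i : ℕ) : ℂ) ^ c = ((a : ℂ) ^ c) ^ i := by
  induction i with
  | zero => simp
  | succ i ih =>
    rw [pow_succ, Nat.cast_mul, Complex.natCast_mul_natCast_cpow, ih, pow_succ]

theorem F4O14_lr_pow {p m : ℕ} (hp : p.Prime) (hm : 1 ≤ m) (i : ℕ) :
    LibF4D.lr (p ^ i) m = p ^ (i - min i (m.factorization p)) := by
  have hm0 : m ≠ 0 := by omega
  set j := m.factorization p with hj
  have h1 : Nat.gcd (p ^ i) m = p ^ (min i j) := by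
    have h2 : p ^ j * (m / p ^ j) = m := Nat.ordProj_mul_ordCompl_eq_self m p
    have h3 : Nat.Coprime (m / p ^ j) (p ^ i) :=
      (Nat.Coprime.pow_left i (Nat.coprime_ordCompl hp hm0)).symm
    have h4 : Nat.gcd (p ^ i) m = Nat.gcd (p ^ i) (p ^ j) := by
      rw [← h2]
      exact Nat.Coprime.gcd_mul_right_cancel_right (p ^ j) h3
    rw [h4]
    rcases le_total i j with h | h
    · rw [min_eq_left h, Nat.gcd_eq_left (pow_dvd_pow p h)]
    · rw [min_eq_right h, Nat.gcd_eq_right (pow_dvd_pow p h)]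
  unfold LibF4D.lr
  rw [h1, Nat.pow_div (min_le_left _ _) hp.pos]

/-- the summand -/
noncomputable def F4O14_h (m n : ℕ) (α β w : ℂ) (l : ℕ) : ℂ :=
  if 1 ≤ l then (LibF4D.lr l m : ℂ) ^ (-1 - 2 * α) * (LibF4D.lr l n : ℂ) ^ (-1 - 2 * β) *
    F4O14_S (1 - w) l else 0

theorem F4O14_h_one {m n : ℕ} (α β w : ℂ) : F4O14_h m n α β w 1 = 1 := by
  simp [F4O14_h, LibF4D.lr, F4O14_S]

theorem F4O14_h_mul {m n : ℕ} (α β w : ℂ) {a b : ℕ} (hab : Nat.Coprime a b) :
    F4O14_h m n α β w (a * b) = F4O14_h m n α β w a * F4O14_h m n α β w b := by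
  unfold F4O14_h
  by_cases ha : 1 ≤ a
  · by_cases hb : 1 ≤ b
    · rw [if_pos ha, if_pos hb, if_pos (show 1 ≤ a * b from Nat.mul_pos ha hb), F4O14_lr_mul m hab,
        F4O14_lr_mul n hab, F4O14_S_mul _ hab, Nat.cast_mul, Nat.cast_mul,
        Complex.natCast_mul_natCast_cpow, Complex.natCast_mul_natCast_cpow]
      ring
    · have hb0 : b = 0 := by omega
      subst hb0
      simp
  · have ha0 : a = 0 := by omega
    subst ha0
    simp

theorem F4O14_lr_bound {l m : ℕ} (hl : 1 ≤ l) (hm : 1 ≤ m) {α : ℂ} (hα : ‖α‖ ≤ 1/8) :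
    ‖(LibF4D.lr l m : ℂ) ^ (-1 - 2 * α)‖ ≤ (m:ℝ) ^ (3/4 : ℝ) * (l:ℝ) ^ (-(3/4) : ℝ) := by
  obtain ⟨h1, h2, h3⟩ := D14_lr_ge hl hm
  rw [Complex.norm_natCast_cpow_of_pos h1]
  have h4 : (-1 - 2 * α).re = -1 - 2 * α.re := by simp
  have h5 := (abs_le.mp ((Complex.abs_re_le_norm α).trans hα)).1
  have h6 : (1:ℝ) ≤ (LibF4D.lr l m : ℝ) := by exact_mod_cast h1
  have hl0 : (0:ℝ) < l := by exact_mod_cast hl
  have hm0 : (0:ℝ) < m := by exact_mod_cast hm
  rw [h4]
  calc (LibF4D.lr l m : ℝ) ^ (-1 - 2 * α.re) ≤ (LibF4D.lr l m : ℝ) ^ (-(3/4) : ℝ) :=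
        Real.rpow_le_rpow_of_exponent_le h6 (by linarith)
    _ ≤ ((l:ℝ) / m) ^ (-(3/4) : ℝ) := by
        apply Real.rpow_le_rpow_of_nonpos (by positivity) _ (by norm_num)
        rw [div_le_iff₀ hm0]
        exact_mod_cast h3
    _ = (m:ℝ) ^ (3/4 : ℝ) * (l:ℝ) ^ (-(3/4) : ℝ) := by
        rw [Real.div_rpow hl0.le hm0.le, Real.rpow_neg hm0.le (3/4)]
        field_simp

theorem F4O14_h_summ {m n : ℕ} (hm : 1 ≤ m) (hn : 1 ≤ n) {α β w : ℂ} (hα : ‖α‖ ≤ 1/8)
    (hβ : ‖β‖ ≤ 1/8) (hw : 5/4 ≤ w.re) : Summable (fun l => ‖F4O14_h m n α β w l‖) := by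
  refine Summable.of_nonneg_of_le (fun l => norm_nonneg _) ?_
    (F4O14_summ.mul_left ((m:ℝ) ^ (3/4 : ℝ) * (n:ℝ) ^ (3/4 : ℝ)))
  intro l
  unfold F4O14_h
  split_ifs with hl
  · rw [norm_mul, norm_mul]
    have h1 := F4O14_lr_bound hl hm hα
    have h2 := F4O14_lr_bound hl hn hβ
    have h3 := F4O14_S_bound (c := 1 - w) (by
      rw [Complex.sub_re, Complex.one_re]
      linarith) l
    have hl0 : (0:ℝ) < l := by exact_mod_cast hl
    calc _ ≤ ((m:ℝ) ^ (3/4 : ℝ) * (l:ℝ) ^ (-(3/4) : ℝ)) *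
          ((n:ℝ) ^ (3/4 : ℝ) * (l:ℝ) ^ (-(3/4) : ℝ)) * (l.divisors.card : ℝ) := by gcongr
      _ = (m:ℝ) ^ (3/4 : ℝ) * (n:ℝ) ^ (3/4 : ℝ) * ((l.divisors.card : ℝ) *
          ((l:ℝ) ^ (-(3/4) : ℝ) * (l:ℝ) ^ (-(3/4) : ℝ))) := by ring
      _ = _ := by
        rw [← Real.rpow_add hl0]
        norm_num
  · rw [norm_zero]
    positivity

/-- the local factor as a product -/
noncomputable def F4O14_L (m n : ℕ) (α β w : ℂ) (p : ℕ) : ℂ :=
  (if p ∈ m.primeFactors then Fp α β (w + (α + β)) p (m.factorization p) else 1) *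
    (if p ∈ n.primeFactors then Fp β α (w + (α + β)) p (n.factorization p) else 1)

theorem F4O14_h_pow {m n p : ℕ} (hp : p.Prime) (hm : 1 ≤ m) (hn : 1 ≤ n) (α β w : ℂ) (i : ℕ) :
    F4O14_h m n α β w (p ^ i) =
      ((p:ℂ) ^ (-1 - 2 * α)) ^ (i - min i (m.factorization p)) *
        ((p:ℂ) ^ (-1 - 2 * β)) ^ (i - min i (n.factorization p)) * F4O14_S (1 - w) (p ^ i) := by
  unfold F4O14_h
  rw [if_pos (show 1 ≤ p ^ i from Nat.pos_of_ne_zero (pow_ne_zero i hp.ne_zero)), F4O14_lr_pow hp hm,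
    F4O14_lr_pow hp hn, F4O14_cast_pow, F4O14_cast_pow]

theorem F4O14_local {m n : ℕ} (hm : 1 ≤ m) (hn : 1 ≤ n) (hc : Nat.Coprime m n) {α β w : ℂ}
    (hα : ‖α‖ ≤ 1/8) (hβ : ‖β‖ ≤ 1/8) (hw : 5/4 ≤ w.re) {p : ℕ} (hp : p.Prime) :
    (1 - (p:ℂ) ^ (-(1 + 2 * (α + β) + w))) * (∑' i : ℕ, F4O14_h m n α β w (p ^ i)) =
      (1 - (p:ℂ) ^ (-(2 + 2 * (α + β)))) * F4O14_L m n α β w p := by
  have hm0 : m ≠ 0 := by omega
  have hn0 : n ≠ 0 := by omega
  simp only [F4O14_h_pow hp hm hn]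
  unfold F4O14_L
  by_cases hpm : p ∣ m
  · have hpn : ¬ p ∣ n := fun h => hp.one_lt.ne' (Nat.eq_one_of_dvd_coprimes hc hpm h)
    have h1 : n.factorization p = 0 := Nat.factorization_eq_zero_of_not_dvd hpn
    have h2 : m.factorization p ≠ 0 := by
      have := hp.factorization_pos_of_dvd hm0 hpm
      omega
    rw [if_pos (Nat.mem_primeFactors.mpr ⟨hp, hpm, hm0⟩),
      if_neg (fun h => hpn (Nat.dvd_of_mem_primeFactors h)), mul_one, h1]
    have h3 := (O15_local hα hβ hw hp (m.factorization p)).2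
    rw [if_neg h2] at h3
    rw [← h3]
    simp only [Nat.min_zero, Nat.sub_zero]
    rfl
  · have h1 : m.factorization p = 0 := Nat.factorization_eq_zero_of_not_dvd hpm
    rw [if_neg (fun h => hpm (Nat.dvd_of_mem_primeFactors h)), one_mul, h1]
    by_cases hpn : p ∣ n
    · have h2 : n.factorization p ≠ 0 := by
        have := hp.factorization_pos_of_dvd hn0 hpn
        omega
      rw [if_pos (Nat.mem_primeFactors.mpr ⟨hp, hpn, hn0⟩)]
      have h3 := (O15_local hβ hα hw hp (n.factorization p)).2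
      rw [if_neg h2, add_comm β α] at h3
      rw [← h3]
      congr 1
      refine tsum_congr fun i => ?_
      simp only [Nat.min_zero, Nat.sub_zero]
      rw [mul_comm (((p:ℂ) ^ (-1 - 2 * α)) ^ i)]
      rfl
    · have h2 : n.factorization p = 0 := Nat.factorization_eq_zero_of_not_dvd hpn
      rw [if_neg (fun h => hpn (Nat.dvd_of_mem_primeFactors h)), h2]
      have h3 := (O15_local hα hβ hw hp 0).2
      rw [if_pos rfl] at h3
      rw [← h3]
      simp only [Nat.min_zero, Nat.sub_zero]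
      rfl

theorem F4O14_hasProd_fin (s : Finset ℕ) (hs : ∀ p ∈ s, p.Prime) (f : ℕ → ℂ) :
    HasProd (fun p : {p : ℕ // p.Prime} => if (p : ℕ) ∈ s then f p else 1) (∏ p ∈ s, f p) := by
  have h1 : ∏ p ∈ s, f p = ∏ p ∈ Finset.subtype Nat.Prime s,
      (if (p : ℕ) ∈ s then f p else 1) := by
    rw [← Finset.prod_subtype_of_mem f hs]
    refine Finset.prod_congr rfl fun p hp => ?_
    rw [if_pos (Finset.mem_subtype.mp hp)]
  rw [h1]
  apply hasProd_prod_of_ne_finset_one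
  intro p hp
  rw [Finset.mem_subtype] at hp
  rw [if_neg hp]

theorem F4O14_ne {p : ℕ} (hp : p.Prime) {s : ℂ} (hs : 0 < s.re) :
    1 - (p:ℂ) ^ (-s) ≠ 0 := by
  intro h
  have h1 : (p:ℂ) ^ (-s) = 1 := (sub_eq_zero.mp h).symm
  have h2 : ‖(p:ℂ) ^ (-s)‖ = 1 := by rw [h1, norm_one]
  rw [Complex.norm_natCast_cpow_of_pos hp.pos, Complex.neg_re] at h2
  have h3 : (p:ℝ) ^ (-s.re) < 1 := by
    apply Real.rpow_lt_one_of_one_lt_of_neg _ (by linarith)
    exact_mod_cast hp.one_lt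
  linarith

/-- O14: the sum over `l` -/
theorem O14_l_series {m n : ℕ} (hm : 1 ≤ m) (hn : 1 ≤ n) (hc : Nat.Coprime m n) {α β w : ℂ} (hα : ‖α‖ ≤ 1/8) (hβ : ‖β‖ ≤ 1/8)
    (hw : 5/4 ≤ w.re) :
    Summable (fun l : ℕ => ‖if 1 ≤ l then (LibF4D.lr l m : ℂ) ^ (-1 - 2 * α) * (LibF4D.lr l n : ℂ) ^ (-1 - 2 * β) *
      ∑ d ∈ l.divisors, ((ArithmeticFunction.moebius (l / d) : ℤ) : ℂ) * (d:ℂ) ^ (1 - w) else 0‖) ∧
    riemannZeta (2 + 2 * (α + β)) * (∑' l : ℕ, if 1 ≤ l then (LibF4D.lr l m : ℂ) ^ (-1 - 2 * α) * (LibF4D.lr l n : ℂ) ^ (-1 - 2 * β) *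
      ∑ d ∈ l.divisors, ((ArithmeticFunction.moebius (l / d) : ℤ) : ℂ) * (d:ℂ) ^ (1 - w) else 0) =
      riemannZeta (1 + 2 * (α + β) + w) * FF m n α β (w + (α + β)) := by
  have hsum := F4O14_h_summ hm hn hα hβ hw
  refine ⟨hsum, ?_⟩
  change riemannZeta (2 + 2 * (α + β)) * (∑' l : ℕ, F4O14_h m n α β w l) = _
  have hαr := abs_le.mp ((Complex.abs_re_le_norm α).trans hα)
  have hβr := abs_le.mp ((Complex.abs_re_le_norm β).trans hβ)
  have hs1 : 1 < (1 + 2 * (α + β) + w).re := by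
    simp only [Complex.add_re, Complex.mul_re, Complex.one_re]
    norm_num
    linarith [hαr.1, hβr.1]
  have hs2 : 1 < (2 + 2 * (α + β)).re := by
    simp only [Complex.add_re, Complex.mul_re]
    norm_num
    linarith [hαr.1, hβr.1]
  have hE := O13_euler (h := F4O14_h m n α β w) (F4O14_h_one α β w) (by simp [F4O14_h])
    (fun a b hab => F4O14_h_mul α β w hab) hsum
    (E := fun p => ∑' i : ℕ, F4O14_h m n α β w (p ^ i)) (fun p _ => rfl)
  have hZ2 := riemannZeta_eulerProduct_hasProd hs2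
  have hZ1 := riemannZeta_eulerProduct_hasProd hs1
  have hm1 : HasProd (fun p : Nat.Primes => if (p : ℕ) ∈ m.primeFactors then
      Fp α β (w + (α + β)) p (m.factorization p) else 1)
      (∏ p ∈ m.primeFactors, Fp α β (w + (α + β)) p (m.factorization p)) :=
    F4O14_hasProd_fin m.primeFactors (fun p hp => Nat.prime_of_mem_primeFactors hp)
    (fun p => Fp α β (w + (α + β)) p (m.factorization p))
  have hn1 : HasProd (fun p : Nat.Primes => if (p : ℕ) ∈ n.primeFactors then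
      Fp β α (w + (α + β)) p (n.factorization p) else 1)
      (∏ p ∈ n.primeFactors, Fp β α (w + (α + β)) p (n.factorization p)) :=
    F4O14_hasProd_fin n.primeFactors (fun p hp => Nat.prime_of_mem_primeFactors hp)
    (fun p => Fp β α (w + (α + β)) p (n.factorization p))
  have hL := hZ2.mul hE
  have hR := hZ1.mul (hm1.mul hn1)
  refine HasProd.unique hL ?_
  have heq : (fun p : Nat.Primes => (1 - ((p : ℕ) : ℂ) ^ (-(2 + 2 * (α + β))))⁻¹ *
      ∑' i : ℕ, F4O14_h m n α β w ((p : ℕ) ^ i)) = fun p : Nat.Primes =>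
      (1 - ((p : ℕ) : ℂ) ^ (-(1 + 2 * (α + β) + w)))⁻¹ *
      ((if (p : ℕ) ∈ m.primeFactors then Fp α β (w + (α + β)) p (m.factorization p) else 1) *
      (if (p : ℕ) ∈ n.primeFactors then Fp β α (w + (α + β)) p (n.factorization p) else 1)) := by
    funext p
    have h1 := F4O14_local hm hn hc hα hβ hw p.2
    have h2 := F4O14_ne p.2 (s := 2 + 2 * (α + β)) (by linarith)
    have h3 := F4O14_ne p.2 (s := 1 + 2 * (α + β) + w) (by linarith)
    unfold F4O14_L at h1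
    rw [inv_mul_eq_iff_eq_mul₀ h2, mul_left_comm, ← h1, inv_mul_cancel_left₀ h3]
  have hR' : HasProd (fun p : Nat.Primes =>
      (1 - ((p : ℕ) : ℂ) ^ (-(1 + 2 * (α + β) + w)))⁻¹ *
      ((if (p : ℕ) ∈ m.primeFactors then Fp α β (w + (α + β)) p (m.factorization p) else 1) *
      (if (p : ℕ) ∈ n.primeFactors then Fp β α (w + (α + β)) p (n.factorization p) else 1)))
      (riemannZeta (1 + 2 * (α + β) + w) * FF m n α β (w + (α + β))) := hR
  rw [← heq] at hR'
  exact hR'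

end Pool.Agent.LibF4
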