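import Mathlib
import Pool.Agent.LibF4.ODefs
import Pool.Agent.LibF4.O12
import Pool.Agent.LibF4.O14
import Pool.Agent.LibF4.OBridge

/-! Row O16a.
Factor out: (m l1²)^{-α} = m^{-α} l1^{-2α}; 1/(l1 l2) l1^{-2α} l2^{-2β} = l1^{-1-2α} l2^{-1-2β}; (r cos δ)^{-(z-s)} = r^{-(z-s)} (cos δ)^{s-z}; w = z - s, Re w ≥ 5/4. Inner sum over r by O12, then over l by O14. Γ(w) 2cos(πw/2) ζ(w) = (2π)^w ζ(1-w) (riemannZeta_one_sub).
Collect powers: √(mn) (mn)^{-1} Λ^z = (mn)^{(z-1)/2}(2π)^{-z}; result cs * 2 * (cos δ)^{s-z} Kz JF. Summability: norms ≤ C l^{-3/2} d(l) r^{-5/4}...: use O12 second part.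
-/

set_option autoImplicit false

namespace Pool.Agent.LibF4

open MeasureTheory Set Filter Topology Complex
open scoped ComplexConjugate

lemma O16a_div_summable : Summable (fun l : ℕ => (l.divisors.card : ℝ) * (l:ℝ) ^ (-(3/2) : ℝ)) := by
  have hz : LSeriesSummable (fun n => ((ArithmeticFunction.zeta : ArithmeticFunction ℂ) n)) ((3/2 : ℝ) : ℂ) := by
    have := (ArithmeticFunction.LSeriesSummable_zeta_iff (s := ((3/2:ℝ):ℂ))).2 (by
      rw [Complex.ofReal_re]; norm_num)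
    simpa using this
  have h := ArithmeticFunction.LSeriesSummable_mul hz hz
  refine (h.norm).congr fun n => ?_
  rcases Nat.eq_zero_or_pos n with hn | hn
  · subst hn; simp
  · have h1 : ∑ i ∈ n.divisors, (ArithmeticFunction.zeta : ArithmeticFunction ℂ) i = (n.divisors.card : ℂ) := by
      rw [Finset.sum_congr rfl (g := fun _ => (1:ℂ)) ?_, Finset.sum_const, nsmul_eq_mul, mul_one]
      intro i hi
      have : i ≠ 0 := (Nat.pos_of_mem_divisors hi).ne'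
      rw [ArithmeticFunction.natCoe_apply, ArithmeticFunction.zeta_apply_ne this, Nat.cast_one]
    rw [LSeries.norm_term_eq, if_neg hn.ne', ArithmeticFunction.coe_zeta_mul_apply, h1,
      Complex.norm_natCast, Complex.ofReal_re, Real.rpow_neg (Nat.cast_nonneg n), div_eq_mul_inv]

lemma O16a_one {l m : ℕ} (hl : 1 ≤ l) (hm : 1 ≤ m) {α : ℂ} (hα : ‖α‖ ≤ 1/8) :
    ‖(LibF4D.lr l m : ℂ) ^ (-1 - 2 * α)‖ ≤ (m:ℝ) ^ (3/4 : ℝ) * (l:ℝ) ^ (-(3/4) : ℝ) := by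
  obtain ⟨h1, -, h3⟩ := D14_lr_ge hl hm
  have hl0 : (0:ℝ) < l := by exact_mod_cast hl
  have hm0 : (0:ℝ) < m := by exact_mod_cast hm
  have hre : (-1 - 2 * α).re ≤ -(3/4) := by
    have h4 := (abs_le.1 ((Complex.abs_re_le_norm α).trans hα)).1
    simp only [Complex.sub_re, Complex.neg_re, Complex.one_re, Complex.mul_re, Complex.re_ofNat,
      Complex.im_ofNat, zero_mul, sub_zero]
    linarith
  rw [Complex.norm_natCast_cpow_of_pos h1]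
  have h1' : (1:ℝ) ≤ (LibF4D.lr l m : ℝ) := by exact_mod_cast h1
  have h3' : (l:ℝ) / m ≤ (LibF4D.lr l m : ℝ) := by
    rw [div_le_iff₀ hm0]
    exact_mod_cast h3
  calc (LibF4D.lr l m : ℝ) ^ (-1 - 2 * α).re ≤ (LibF4D.lr l m : ℝ) ^ (-(3/4) : ℝ) :=
        Real.rpow_le_rpow_of_exponent_le h1' hre
    _ ≤ ((l:ℝ) / m) ^ (-(3/4) : ℝ) :=
        Real.rpow_le_rpow_of_nonpos (by positivity) h3' (by norm_num)
    _ = (m:ℝ) ^ (3/4 : ℝ) * (l:ℝ) ^ (-(3/4) : ℝ) := by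
        rw [Real.div_rpow hl0.le hm0.le, Real.rpow_neg hm0.le, div_inv_eq_mul, mul_comm]

/-- the `l` part -/
noncomputable def O16a_G (m n : ℕ) (α β : ℂ) (l : ℕ) : ℂ :=
  if 1 ≤ l then (LibF4D.lr l m : ℂ) ^ (-1 - 2 * α) * (LibF4D.lr l n : ℂ) ^ (-1 - 2 * β) else 0

/-- the `r` part -/
noncomputable def O16a_T (w : ℂ) (l r : ℕ) : ℂ :=
  if 1 ≤ r then ((LibF4D.cr l r : ℤ) : ℂ) * (r : ℂ) ^ (-w) else 0

lemma O16a_G_le {m n : ℕ} (hm : 1 ≤ m) (hn : 1 ≤ n) {α β : ℂ} (hα : ‖α‖ ≤ 1/8) (hβ : ‖β‖ ≤ 1/8) (l : ℕ) :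
    ‖O16a_G m n α β l‖ ≤ ((m:ℝ) ^ (3/4 : ℝ) * (n:ℝ) ^ (3/4 : ℝ)) * (l:ℝ) ^ (-(3/2) : ℝ) := by
  unfold O16a_G
  split_ifs with hl
  · have hl0 : (0:ℝ) < l := by exact_mod_cast hl
    rw [norm_mul]
    refine (mul_le_mul (O16a_one hl hm hα) (O16a_one hl hn hβ) (norm_nonneg _) (by positivity)).trans
      (le_of_eq ?_)
    have : (l:ℝ) ^ (-(3/2) : ℝ) = (l:ℝ) ^ (-(3/4) : ℝ) * (l:ℝ) ^ (-(3/4) : ℝ) := by
      rw [← Real.rpow_add hl0]; norm_num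
    rw [this]
    ring
  · rw [norm_zero]
    positivity

lemma O16a_T_series {l : ℕ} (hl : 1 ≤ l) {w : ℂ} (hw : 5/4 ≤ w.re) :
    Summable (fun r : ℕ => ‖O16a_T w l r‖) ∧
    ∑' r : ℕ, ‖O16a_T w l r‖ ≤ 5 * (l.divisors.card : ℝ) ∧
    ∑' r : ℕ, O16a_T w l r =
      riemannZeta w * ∑ d ∈ l.divisors, ((ArithmeticFunction.moebius (l / d) : ℤ) : ℂ) * (d:ℂ) ^ (1 - w) := by
  obtain ⟨h1, h2, h3⟩ := O12_cr_series hl (w := w) (by linarith)
  have h0 : O16a_T w l 0 = 0 := by simp [O16a_T]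
  have hs : ∀ r : ℕ, O16a_T w l (r + 1) = ((LibF4D.cr l (r + 1) : ℤ) : ℂ) * ((r + 1 : ℕ) : ℂ) ^ (-w) := by
    intro r
    unfold O16a_T
    rw [if_pos (by omega)]
  have hsum : Summable (fun r : ℕ => ‖O16a_T w l r‖) := by
    rw [← summable_nat_add_iff 1]
    simp only [hs]
    exact h1
  refine ⟨hsum, ?_, ?_⟩
  · rw [hsum.tsum_eq_zero_add, h0, norm_zero, zero_add]
    simp only [hs]
    refine h2.trans ?_
    have h4 : 1 / (w.re - 1) ≤ 4 := by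
      rw [div_le_iff₀ (by linarith)]
      linarith
    have h5 : (0:ℝ) ≤ (l.divisors.card : ℝ) := Nat.cast_nonneg _
    nlinarith
  · rw [hsum.of_norm.tsum_eq_zero_add, h0, zero_add]
    simp only [hs]
    exact h3

lemma O16a_pair {m n : ℕ} (hm : 1 ≤ m) (hn : 1 ≤ n) {α β w : ℂ} (hα : ‖α‖ ≤ 1/8) (hβ : ‖β‖ ≤ 1/8)
    (hw : 5/4 ≤ w.re) :
    Summable (fun p : ℕ × ℕ => ‖O16a_G m n α β p.1 * O16a_T w p.1 p.2‖) ∧
    ∑' p : ℕ × ℕ, O16a_G m n α β p.1 * O16a_T w p.1 p.2 =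
      riemannZeta w * ∑' l : ℕ, (if 1 ≤ l then (LibF4D.lr l m : ℂ) ^ (-1 - 2 * α) * (LibF4D.lr l n : ℂ) ^ (-1 - 2 * β) *
      ∑ d ∈ l.divisors, ((ArithmeticFunction.moebius (l / d) : ℤ) : ℂ) * (d:ℂ) ^ (1 - w) else 0) := by
  have hsum : Summable (fun p : ℕ × ℕ => ‖O16a_G m n α β p.1 * O16a_T w p.1 p.2‖) := by
    rw [summable_prod_of_nonneg (fun p => norm_nonneg _)]
    have hin : ∀ l : ℕ, Summable (fun r : ℕ => ‖O16a_G m n α β l * O16a_T w l r‖) := by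
      intro l
      by_cases hl : 1 ≤ l
      · simp only [norm_mul]
        exact (O16a_T_series hl hw).1.mul_left _
      · have : O16a_G m n α β l = 0 := by unfold O16a_G; rw [if_neg hl]
        simp only [this, zero_mul, norm_zero]
        exact summable_zero
    refine ⟨hin, ?_⟩
    refine Summable.of_nonneg_of_le (fun l => tsum_nonneg fun r => norm_nonneg _) (fun l => ?_)
      (O16a_div_summable.mul_left (5 * ((m:ℝ) ^ (3/4 : ℝ) * (n:ℝ) ^ (3/4 : ℝ))))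
    by_cases hl : 1 ≤ l
    · simp only [norm_mul]
      rw [tsum_mul_left]
      refine (mul_le_mul (O16a_G_le hm hn hα hβ l) (O16a_T_series hl hw).2.1
        (tsum_nonneg fun r => norm_nonneg _) (by positivity)).trans (le_of_eq (by ring))
    · have : O16a_G m n α β l = 0 := by unfold O16a_G; rw [if_neg hl]
      simp only [this, zero_mul, norm_zero, tsum_zero]
      positivity
  refine ⟨hsum, ?_⟩
  rw [hsum.of_norm.tsum_prod, ← tsum_mul_left]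
  refine tsum_congr fun l => ?_
  by_cases hl : 1 ≤ l
  · change ∑' r : ℕ, O16a_G m n α β l * O16a_T w l r = _
    rw [tsum_mul_left, (O16a_T_series hl hw).2.2, if_pos hl]
    unfold O16a_G
    rw [if_pos hl]
    ring
  · have : O16a_G m n α β l = 0 := by unfold O16a_G; rw [if_neg hl]
    simp only [this, zero_mul, tsum_zero]
    rw [if_neg hl, mul_zero]

lemma O16a_pow {m : ℕ} (hm : 1 ≤ m) {l : ℕ} (hl : 1 ≤ l) (α : ℂ) :
    (((m:ℝ) * (LibF4D.lr l m : ℝ) ^ 2 : ℝ) : ℂ) ^ (-α) / (LibF4D.lr l m : ℂ) =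
      (m:ℂ) ^ (-α) * (LibF4D.lr l m : ℂ) ^ (-1 - 2 * α) := by
  obtain ⟨h1, -, -⟩ := D14_lr_ge hl hm
  have h0 : (LibF4D.lr l m : ℂ) ≠ 0 := by
    exact_mod_cast (show LibF4D.lr l m ≠ 0 by omega)
  rw [Complex.ofReal_mul, Complex.mul_cpow_ofReal_nonneg (Nat.cast_nonneg m) (by positivity), pow_two,
    Complex.ofReal_mul, Complex.mul_cpow_ofReal_nonneg (Nat.cast_nonneg _) (Nat.cast_nonneg _),
    Complex.ofReal_natCast, Complex.ofReal_natCast, ← Complex.cpow_add _ _ h0,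
    show (-1 - 2 * α : ℂ) = (-α + -α) - 1 by ring, Complex.cpow_sub _ _ h0, Complex.cpow_one]
  ring

lemma O16a_term {δ : ℝ} (h0 : 0 < δ) (h1 : δ ≤ 1/4) {m n : ℕ} (hm : 1 ≤ m) (hn : 1 ≤ n)
    (α β z : ℂ) (l r : ℕ) :
    (if 1 ≤ l ∧ 1 ≤ r then (((LibF4D.cr l r : ℝ) / (LibF4D.lr l m * LibF4D.lr l n) : ℝ) : ℂ) *
      ((((m:ℝ) * (LibF4D.lr l m : ℝ) ^ 2 : ℝ) : ℂ) ^ (-α) * (((n:ℝ) * (LibF4D.lr l n : ℝ) ^ 2 : ℝ) : ℂ) ^ (-β)) *
      Rz δ (Lam m n) r (α + β) z else 0) =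
    (cexp (z ^ 2) * (Lam m n : ℂ) ^ z * Complex.Gamma (z - (α + β)) * (2 * Complex.cos (Real.pi * (z - (α + β)) / 2)) *
      ((Real.cos δ : ℝ) : ℂ) ^ (-(z - (α + β))) / z * ((m:ℂ) ^ (-α) * (n:ℂ) ^ (-β))) *
      (O16a_G m n α β l * O16a_T (z - (α + β)) l r) := by
  have hcos : 0 ≤ Real.cos δ := Real.cos_nonneg_of_neg_pi_div_two_le_of_le (by linarith [Real.pi_pos])
    (by linarith [Real.pi_gt_three])
  by_cases hl : 1 ≤ l
  · by_cases hr : 1 ≤ r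
    · rw [if_pos ⟨hl, hr⟩]
      unfold O16a_G O16a_T Rz
      rw [if_pos hl, if_pos hr]
      have e1 := O16a_pow hm hl α
      have e2 := O16a_pow hn hl β
      have e3 : (((r:ℝ) * Real.cos δ : ℝ) : ℂ) ^ (-(z - (α + β))) =
          (r:ℂ) ^ (-(z - (α + β))) * ((Real.cos δ : ℝ) : ℂ) ^ (-(z - (α + β))) := by
        rw [Complex.ofReal_mul, Complex.mul_cpow_ofReal_nonneg (Nat.cast_nonneg r) hcos,
          Complex.ofReal_natCast]
      have e4 : (((LibF4D.cr l r : ℝ) / (LibF4D.lr l m * LibF4D.lr l n) : ℝ) : ℂ) *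
          ((((m:ℝ) * (LibF4D.lr l m : ℝ) ^ 2 : ℝ) : ℂ) ^ (-α) * (((n:ℝ) * (LibF4D.lr l n : ℝ) ^ 2 : ℝ) : ℂ) ^ (-β)) =
          ((LibF4D.cr l r : ℤ) : ℂ) * ((((m:ℝ) * (LibF4D.lr l m : ℝ) ^ 2 : ℝ) : ℂ) ^ (-α) / (LibF4D.lr l m : ℂ)) *
            ((((n:ℝ) * (LibF4D.lr l n : ℝ) ^ 2 : ℝ) : ℂ) ^ (-β) / (LibF4D.lr l n : ℂ)) := by
        rw [Complex.ofReal_div, Complex.ofReal_mul, Complex.ofReal_intCast, Complex.ofReal_natCast,
          Complex.ofReal_natCast]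
        ring
      rw [e4, e1, e2, e3]
      ring
    · rw [if_neg (fun h => hr h.2)]
      unfold O16a_T
      rw [if_neg hr]
      ring
  · rw [if_neg (fun h => hl h.1)]
    unfold O16a_G
    rw [if_neg hl]
    ring

lemma O16a_cpow {x : ℝ} (hx : 0 < x) (z : ℂ) : (x:ℂ) ^ z = cexp ((Real.log x : ℝ) * z) := by
  rw [Complex.cpow_def_of_ne_zero (by exact_mod_cast hx.ne'), Complex.ofReal_log hx.le]

lemma O16a_collect {m n : ℕ} (hm : 1 ≤ m) (hn : 1 ≤ n) (s z : ℂ) :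
    ((√((m:ℝ) * n) : ℝ) : ℂ) * (1 / ((m:ℂ) * n)) * ((Lam m n : ℂ) ^ z * ((2 * Real.pi : ℝ) : ℂ) ^ (z - s)) =
      ((2 * Real.pi : ℝ) : ℂ) ^ (-s) * ((m * n : ℕ) : ℂ) ^ ((z - 1) / 2) := by
  have hm0 : (0:ℝ) < m := by exact_mod_cast hm
  have hn0 : (0:ℝ) < n := by exact_mod_cast hn
  have hN : (0:ℝ) < (m:ℝ) * n := mul_pos hm0 hn0
  have hpi : (0:ℝ) < 2 * Real.pi := by positivity
  have hL : 0 < Lam m n := by unfold Lam; positivity
  have e1 : ((√((m:ℝ) * n) : ℝ) : ℂ) = cexp (((Real.log ((m:ℝ) * n) : ℝ) : ℂ) / 2) := by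
    have : √((m:ℝ) * n) = Real.exp (Real.log ((m:ℝ) * n) / 2) := by
      rw [← Real.log_sqrt hN.le, Real.exp_log (Real.sqrt_pos.2 hN)]
    rw [this, Complex.ofReal_exp]
    push_cast
    ring_nf
  have e2 : (1 / ((m:ℂ) * n)) = cexp (-((Real.log ((m:ℝ) * n) : ℝ) : ℂ)) := by
    have : (1 / ((m:ℂ) * n)) = (((Real.exp (-Real.log ((m:ℝ) * n))) : ℝ) : ℂ) := by
      rw [Real.exp_neg, Real.exp_log hN]
      push_cast
      ring
    rw [this, Complex.ofReal_exp, Complex.ofReal_neg]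
  have e3 : Real.log (Lam m n) = Real.log ((m:ℝ) * n) / 2 - Real.log (2 * Real.pi) := by
    unfold Lam
    rw [Real.log_div (Real.sqrt_pos.2 hN).ne' hpi.ne', Real.log_sqrt hN.le]
  have e4 : ((m * n : ℕ) : ℂ) = (((m:ℝ) * n : ℝ) : ℂ) := by push_cast; ring
  rw [e4, O16a_cpow hN, O16a_cpow hL, O16a_cpow hpi, O16a_cpow hpi, e1, e2, e3, ← Complex.exp_add,
    ← Complex.exp_add, ← Complex.exp_add, ← Complex.exp_add]
  congr 1
  push_cast
  ring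

/-- O16a: the double series at one point of the line -/
theorem O16a_point {δ : ℝ} (h0 : 0 < δ) (h1 : δ ≤ 1/4) {m n : ℕ} (hm : 1 ≤ m) (hn : 1 ≤ n) (hc : Nat.Coprime m n)
    {α β z : ℂ} (hα : ‖α‖ ≤ 1/8) (hβ : ‖β‖ ≤ 1/8) (hz : z.re = 3/2) :
    Summable (fun p : ℕ × ℕ => ‖if 1 ≤ p.1 ∧ 1 ≤ p.2 then (((LibF4D.cr p.1 p.2 : ℝ) / (LibF4D.lr p.1 m * LibF4D.lr p.1 n) : ℝ) : ℂ) *
      ((((m:ℝ) * (LibF4D.lr p.1 m : ℝ) ^ 2 : ℝ) : ℂ) ^ (-α) * (((n:ℝ) * (LibF4D.lr p.1 n : ℝ) ^ 2 : ℝ) : ℂ) ^ (-β)) *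
      Rz δ (Lam m n) p.2 (α + β) z else 0‖) ∧
    2 * ((√((m:ℝ) * n) : ℝ) : ℂ) * (1 / ((m:ℂ) * n)) * (Complex.Gamma (1 + (α + β)) * ((2 * Real.sin δ : ℝ) : ℂ) ^ (-1 - (α + β))) *
      (∑' p : ℕ × ℕ, if 1 ≤ p.1 ∧ 1 ≤ p.2 then (((LibF4D.cr p.1 p.2 : ℝ) / (LibF4D.lr p.1 m * LibF4D.lr p.1 n) : ℝ) : ℂ) *
      ((((m:ℝ) * (LibF4D.lr p.1 m : ℝ) ^ 2 : ℝ) : ℂ) ^ (-α) * (((n:ℝ) * (LibF4D.lr p.1 n : ℝ) ^ 2 : ℝ) : ℂ) ^ (-β)) *
      Rz δ (Lam m n) p.2 (α + β) z else 0) =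
      cs δ (α + β) * (2 * (((Real.cos δ : ℝ) : ℂ) ^ ((α + β) - z) * (Kz (α + β) z * JF m n α β z))) := by
  have hsre : |(α + β).re| ≤ 1/4 := (Complex.abs_re_le_norm _).trans ((norm_add_le _ _).trans (by linarith))
  have hs1 := (abs_le.1 hsre).1
  have hs2 := (abs_le.1 hsre).2
  set s : ℂ := α + β with hs
  have hwre : 5/4 ≤ (z - s).re := by
    rw [Complex.sub_re, hz]
    linarith
  have hpair := O16a_pair hm hn hα hβ hwre
  have hterm := fun p : ℕ × ℕ => O16a_term h0 h1 hm hn α β z p.1 p.2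
  rw [← hs] at hterm
  simp only [hterm]
  refine ⟨?_, ?_⟩
  · simp only [norm_mul _ (O16a_G m n α β _ * O16a_T (z - s) _ _)]
    exact hpair.1.mul_left _
  rw [tsum_mul_left, hpair.2]
  obtain ⟨-, hO14⟩ := O14_l_series hm hn hc hα hβ hwre
  rw [← hs] at hO14
  have hzeta : riemannZeta (2 + 2 * s) ≠ 0 := by
    apply riemannZeta_ne_zero_of_one_lt_re
    have : (2 + 2 * s).re = 2 + 2 * s.re := by simp
    rw [this]
    linarith
  set S : ℂ := ∑' l : ℕ, (if 1 ≤ l then (LibF4D.lr l m : ℂ) ^ (-1 - 2 * α) * (LibF4D.lr l n : ℂ) ^ (-1 - 2 * β) *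
      ∑ d ∈ l.divisors, ((ArithmeticFunction.moebius (l / d) : ℤ) : ℂ) * (d:ℂ) ^ (1 - (z - s)) else 0) with hS
  have hSe : S = riemannZeta (1 + s + z) * FF m n α β z / riemannZeta (2 + 2 * s) := by
    rw [eq_div_iff hzeta, mul_comm, hO14, show 1 + 2 * s + (z - s) = 1 + s + z by ring,
      show z - s + s = z by ring]
  have hfe := riemannZeta_one_sub (s := z - s) (fun k hk => by
    have := congrArg Complex.re hk
    rw [Complex.neg_re, Complex.natCast_re] at this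
    have h3 : (0:ℝ) ≤ k := Nat.cast_nonneg k
    linarith) (fun hk => by
    have := congrArg Complex.re hk
    rw [Complex.one_re] at this
    linarith)
  rw [show 1 - (z - s) = 1 + s - z by ring] at hfe
  have hpi : ((2 * Real.pi : ℝ) : ℂ) ≠ 0 := by
    exact_mod_cast (by positivity : (2 * Real.pi : ℝ) ≠ 0)
  have hfe2 : Complex.Gamma (z - s) * (2 * Complex.cos (Real.pi * (z - s) / 2)) * riemannZeta (z - s) =
      ((2 * Real.pi : ℝ) : ℂ) ^ (z - s) * riemannZeta (1 + s - z) := by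
    rw [hfe]
    have e1 : ((2 * Real.pi : ℝ) : ℂ) ^ (z - s) * (2 * (Real.pi:ℂ)) ^ (-(z - s)) = 1 := by
      rw [Complex.ofReal_mul, Complex.ofReal_ofNat] at hpi ⊢
      rw [Complex.cpow_neg, mul_inv_cancel₀]
      rw [Complex.cpow_ne_zero_iff_of_exponent_ne_zero]
      · exact hpi
      · intro h
        have := congrArg Complex.re h
        rw [Complex.zero_re] at this
        linarith
    linear_combination (-(2 * Complex.Gamma (z - s) * Complex.cos (Real.pi * (z - s) / 2) * riemannZeta (z - s))) * e1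
  have hcol := O16a_collect hm hn s z
  rw [hSe]
  unfold cs Kz JF
  rw [show s - z = -(z - s) by ring]
  have key : ((√((m:ℝ) * n) : ℝ) : ℂ) * (1 / ((m:ℂ) * n)) * ((Lam m n : ℂ) ^ z *
      (Complex.Gamma (z - s) * (2 * Complex.cos (Real.pi * (z - s) / 2)) * riemannZeta (z - s))) =
      ((2 * Real.pi : ℝ) : ℂ) ^ (-s) * ((m * n : ℕ) : ℂ) ^ ((z - 1) / 2) * riemannZeta (1 + s - z) := by
    rw [hfe2, ← hcol]
    ring
  linear_combination (2 * (Complex.Gamma (1 + s) * ((2 * Real.sin δ : ℝ) : ℂ) ^ (-1 - s)) * (cexp (z ^ 2) / z) *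
    ((Real.cos δ : ℝ) : ℂ) ^ (-(z - s)) * ((m:ℂ) ^ (-α) * (n:ℂ) ^ (-β)) *
    (riemannZeta (1 + s + z) * FF m n α β z / riemannZeta (2 + 2 * s))) * key

end Pool.Agent.LibF4
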