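import Mathlib
import Pool.Agent.LibF4.ODefs
import Pool.Agent.LibF4.O04
import Pool.Agent.LibF4.O05
import Pool.Agent.LibF4.O11
import Pool.Agent.LibF4.O12
import Pool.Agent.LibF4.O16a
import Pool.Agent.LibF4.OBridge

/-! Row O16.
OM = (1/mn)∑_r ∑_l (cr/(l1 l2)) [pair integral, A = m l1², B = n l2²] = (1/mn)∑∑ (cr/(l1l2)) Av Av(... VL(Rz)) by O11. Exchange sums with Av, Av, VL (Fubini/ integral_tsum; dominated: ‖Rz δ Λ r s (3/2+iy)‖ ≤ C_Λ r^{-5/4} e^{-y²/2}, ‖wk‖ ≤ 1/ρ+2, everything continuous), then O16a pointwise.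
MM n m (r+1) has lr l n, lr l m in the other order: mul_comm. For the absolute convergence over (l,r) use the norm bound of O12 (σ = 5/4) and 1/(l1 l2) ≤ mn/l², (m l1²)^{1/8}(n l2²)^{1/8} ≤ (mn)^{1/8} l^{1/2}.
-/

set_option autoImplicit false

namespace Pool.Agent.LibF4

open MeasureTheory Set Filter Topology Complex
open scoped ComplexConjugate

theorem F4O16_iter (F : ℝ → ℝ → ℝ → ℂ) (hF : StronglyMeasurable (fun q : ℝ × ℝ × ℝ => F q.1 q.2.1 q.2.2))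
    (w : ℝ → ℝ) (hw : Integrable w) (K : ℝ) (hbd : ∀ θ φ y, ‖F θ φ y‖ ≤ K * w y) :
    Integrable (fun q : ℝ × ℝ × ℝ => F q.1 q.2.1 q.2.2)
      ((volume.restrict (Ioc 0 (2 * Real.pi))).prod ((volume.restrict (Ioc 0 (2 * Real.pi))).prod volume)) ∧
    ∫ q : ℝ × ℝ × ℝ, F q.1 q.2.1 q.2.2
      ∂((volume.restrict (Ioc 0 (2 * Real.pi))).prod ((volume.restrict (Ioc 0 (2 * Real.pi))).prod volume))
      = ∫ θ in (0:ℝ)..(2 * Real.pi), ∫ φ in (0:ℝ)..(2 * Real.pi), ∫ y : ℝ, F θ φ y := by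
  set μ : Measure ℝ := volume.restrict (Ioc 0 (2 * Real.pi)) with hμ
  have hp : (0 : ℝ) ≤ 2 * Real.pi := by positivity
  have h2 : Integrable (fun q : ℝ × ℝ => K * w q.2) (μ.prod volume) := (hw.const_mul K).comp_snd μ
  have h3 : Integrable (fun q : ℝ × ℝ × ℝ => K * w q.2.2) (μ.prod (μ.prod volume)) := h2.comp_snd μ
  have hI : Integrable (fun q : ℝ × ℝ × ℝ => F q.1 q.2.1 q.2.2) (μ.prod (μ.prod volume)) :=
    Integrable.mono' h3 hF.aestronglyMeasurable (Eventually.of_forall fun q => hbd _ _ _)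
  refine ⟨hI, ?_⟩
  rw [integral_prod _ hI, intervalIntegral.integral_of_le hp]
  apply integral_congr_ae
  refine Eventually.of_forall fun θ => ?_
  have hs : StronglyMeasurable (fun q : ℝ × ℝ => F θ q.1 q.2) :=
    hF.comp_measurable (measurable_const.prodMk measurable_id)
  have hI2 : Integrable (fun q : ℝ × ℝ => F θ q.1 q.2) (μ.prod volume) :=
    Integrable.mono' h2 hs.aestronglyMeasurable (Eventually.of_forall fun q => hbd _ _ _)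
  show ∫ q : ℝ × ℝ, F θ q.1 q.2 ∂(μ.prod volume) = _
  rw [integral_prod _ hI2]
  simp only
  rw [intervalIntegral.integral_of_le hp]

theorem F4O16_exch {ι : Type} [Countable ι] (H : ι → ℝ → ℝ → ℝ → ℂ)
    (hc : ∀ p, Continuous (fun q : ℝ × ℝ × ℝ => H p q.1 q.2.1 q.2.2))
    (w : ℝ → ℝ) (hw : Integrable w) (D : ι → ℝ) (hD : Summable D)
    (hbd : ∀ p θ φ y, ‖H p θ φ y‖ ≤ D p * w y) :
    HasSum (fun p => ∫ θ in (0:ℝ)..(2 * Real.pi), ∫ φ in (0:ℝ)..(2 * Real.pi), ∫ y : ℝ, H p θ φ y)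
      (∫ θ in (0:ℝ)..(2 * Real.pi), ∫ φ in (0:ℝ)..(2 * Real.pi), ∫ y : ℝ, ∑' p, H p θ φ y) := by
  set μ : Measure ℝ := volume.restrict (Ioc 0 (2 * Real.pi)) with hμ
  have hsm : ∀ θ φ y, Summable (fun p => H p θ φ y) := fun θ φ y =>
    Summable.of_norm_bounded (hD.mul_right (w y)) fun p => hbd p θ φ y
  have hmeas : ∀ p, StronglyMeasurable (fun q : ℝ × ℝ × ℝ => H p q.1 q.2.1 q.2.2) := fun p =>
    (hc p).stronglyMeasurable
  have hT : StronglyMeasurable (fun q : ℝ × ℝ × ℝ => ∑' p, H p q.1 q.2.1 q.2.2) := by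
    apply Measurable.stronglyMeasurable
    apply measurable_of_tendsto_metrizable' (atTop : Filter (Finset ι))
      (f := fun T (q : ℝ × ℝ × ℝ) => ∑ p ∈ T, H p q.1 q.2.1 q.2.2)
    · intro T
      exact Finset.measurable_fun_sum T fun p _ => (hmeas p).measurable
    · rw [tendsto_pi_nhds]
      intro q
      exact (hsm q.1 q.2.1 q.2.2).hasSum
  have h2 := F4O16_iter (fun θ φ y => ∑' p, H p θ φ y) hT w hw (∑' p, D p) (by
    intro θ φ y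
    have h3 : ‖∑' p, H p θ φ y‖ ≤ ∑' p, D p * w y :=
      tsum_of_norm_bounded (hD.mul_right (w y)).hasSum fun p => hbd p θ φ y
    rwa [tsum_mul_right] at h3)
  rw [← h2.2]
  have h4 := fun p => F4O16_iter (fun θ φ y => H p θ φ y) (hmeas p) w hw (D p) (hbd p)
  have h5 : (fun p => ∫ θ in (0:ℝ)..(2 * Real.pi), ∫ φ in (0:ℝ)..(2 * Real.pi), ∫ y : ℝ, H p θ φ y)
      = fun p => ∫ q : ℝ × ℝ × ℝ, H p q.1 q.2.1 q.2.2 ∂(μ.prod (μ.prod volume)) := by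
    funext p
    exact (h4 p).2.symm
  rw [h5]
  apply hasSum_integral_of_summable_integral_norm
  · exact fun p => (h4 p).1
  · have h6 : Integrable (fun q : ℝ × ℝ × ℝ => w q.2.2) (μ.prod (μ.prod volume)) :=
      (hw.comp_snd μ).comp_snd μ
    refine Summable.of_nonneg_of_le (fun p => integral_nonneg fun q => norm_nonneg _) (fun p => ?_)
      (hD.mul_right (∫ q : ℝ × ℝ × ℝ, w q.2.2 ∂(μ.prod (μ.prod volume))))
    rw [← integral_const_mul]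
    exact integral_mono (h4 p).1.norm (h6.const_mul _) fun q => hbd p _ _ _

theorem F4O16_Gamma_le {s : ℂ} (hs : 0 < s.re) : ‖Complex.Gamma s‖ ≤ Real.Gamma s.re := by
  rw [Complex.Gamma_eq_integral hs, Real.Gamma_eq_integral hs, Complex.GammaIntegral]
  refine (norm_integral_le_integral_norm _).trans (le_of_eq ?_)
  refine setIntegral_congr_fun measurableSet_Ioi fun x hx => ?_
  have hx' : (0:ℝ) < x := hx
  rw [norm_mul, Complex.norm_cpow_eq_rpow_re_of_pos hx', Complex.norm_real, Real.norm_eq_abs, abs_of_pos (Real.exp_pos _)]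
  simp

theorem F4O16_Gamma_cont {X : Type} [TopologicalSpace X] {f : X → ℂ} (hf : Continuous f) (hp : ∀ x, 0 < (f x).re) :
    Continuous fun x => Complex.Gamma (f x) := by
  rw [continuous_iff_continuousAt]
  intro x
  have hd : DifferentiableAt ℂ Complex.Gamma (f x) := by
    apply Complex.differentiableAt_Gamma
    intro k hk
    have := congrArg Complex.re hk
    rw [Complex.neg_re, Complex.natCast_re] at this
    have hk0 : (0:ℝ) ≤ k := Nat.cast_nonneg k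
    have := hp x
    linarith
  exact ContinuousAt.comp (f := f) hd.continuousAt hf.continuousAt

theorem F4O16_cos_bd (w : ℂ) : ‖Complex.cos w‖ ≤ Real.exp |w.im| := by
  unfold Complex.cos
  have h1 : ‖cexp (w * I)‖ ≤ Real.exp |w.im| := by
    rw [Complex.norm_exp]
    apply Real.exp_le_exp.2
    simp only [Complex.mul_re, Complex.I_re, mul_zero, Complex.I_im, mul_one, zero_sub]
    exact neg_le_abs _
  have h2 : ‖cexp (-w * I)‖ ≤ Real.exp |w.im| := by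
    rw [Complex.norm_exp]
    apply Real.exp_le_exp.2
    simp only [Complex.mul_re, Complex.I_re, mul_zero, Complex.I_im, mul_one, zero_sub, Complex.neg_im, neg_neg]
    exact le_abs_self _
  rw [norm_div, Complex.norm_ofNat]
  have h3 := norm_add_le (cexp (w * I)) (cexp (-w * I))
  linarith

theorem F4O16_G1 {x : ℝ} (h1 : 1 ≤ x) (h2 : x ≤ 2) : Real.Gamma x ≤ 1 := by
  have h := Real.convexOn_Gamma.le_max_of_mem_Icc (x := 1) (y := 2) (z := x) (by simp) (by simp) ⟨h1, h2⟩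
  rw [Real.Gamma_one, Real.Gamma_two, max_self] at h
  exact h

/-- The bound for the integrand. -/
theorem F4O16_Rz {δ Λ : ℝ} (h0 : 0 < δ) (h1 : δ ≤ 1/4) (hΛ : 0 < Λ) {r : ℕ} (hr : 1 ≤ r) {s : ℂ} (hs : |s.re| ≤ 1/4)
    (hs' : |s.im| ≤ 1/4) (y : ℝ) :
    ‖Rz δ Λ r s (((3/2 : ℝ) : ℂ) + y * I)‖ ≤ 8 * Real.exp (9/4 + Real.pi / 8 + Real.pi ^ 2 / 8) * Λ ^ (3/2 : ℝ) *
      (r:ℝ) ^ (-(3/2 - s.re)) * Real.exp (-(1/2) * y ^ 2) := by
  have hpi := Real.pi_pos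
  have hr0 : (0:ℝ) < r := by exact_mod_cast hr
  have hcos : 1/2 ≤ Real.cos δ := by
    have := Real.one_sub_sq_div_two_le_cos (x := δ)
    nlinarith
  have hcos0 : 0 < Real.cos δ := by linarith
  have hrc : 0 < r * Real.cos δ := mul_pos hr0 hcos0
  have hre := abs_le.1 hs
  have him := abs_le.1 hs'
  set z : ℂ := ((3/2 : ℝ) : ℂ) + y * I with hz
  have hzre : z.re = 3/2 := by rw [hz]; simp
  have hzim : z.im = y := by rw [hz]; simp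
  have e1 : ‖cexp (z ^ 2)‖ = Real.exp (9/4 - y ^ 2) := by
    rw [Complex.norm_exp]
    congr 1
    rw [pow_two, Complex.mul_re, hzre, hzim]
    ring
  have e2 : ‖(Λ:ℂ) ^ z‖ = Λ ^ (3/2 : ℝ) := by
    rw [Complex.norm_cpow_eq_rpow_re_of_pos hΛ, hzre]
  have hzs : (z - s).re = 3/2 - s.re := by rw [Complex.sub_re, hzre]
  have e3 : ‖Complex.Gamma (z - s)‖ ≤ 1 := by
    refine (F4O16_Gamma_le (by rw [hzs]; linarith)).trans ?_
    rw [hzs]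
    exact F4O16_G1 (by linarith) (by linarith)
  have e4 : ‖2 * Complex.cos (Real.pi * (z - s) / 2)‖ ≤ 2 * Real.exp (Real.pi / 2 * |y| + Real.pi / 8) := by
    rw [norm_mul, Complex.norm_ofNat]
    apply mul_le_mul_of_nonneg_left _ (by norm_num)
    refine (F4O16_cos_bd _).trans (Real.exp_le_exp.2 ?_)
    have h5 : (Real.pi * (z - s) / 2).im = Real.pi / 2 * (y - s.im) := by
      have : (Real.pi * (z - s) / 2 : ℂ) = ((Real.pi / 2 : ℝ) : ℂ) * (z - s) := by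
        push_cast
        ring
      rw [this, Complex.im_ofReal_mul, Complex.sub_im, hzim]
    rw [h5, abs_mul, abs_of_pos (by positivity : 0 < Real.pi / 2)]
    have h6 : |y - s.im| ≤ |y| + 1/4 := (abs_sub _ _).trans (by linarith)
    have h7 := mul_le_mul_of_nonneg_left h6 (by positivity : 0 ≤ Real.pi / 2)
    linarith
  have e5 : ‖((r * Real.cos δ : ℝ) : ℂ) ^ (-(z - s))‖ ≤ 4 * (r:ℝ) ^ (-(3/2 - s.re)) := by
    rw [Complex.norm_cpow_eq_rpow_re_of_pos hrc, Complex.neg_re, hzs, Real.mul_rpow hr0.le hcos0.le, mul_comm]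
    apply mul_le_mul_of_nonneg_right _ (by positivity)
    calc Real.cos δ ^ (-(3/2 - s.re)) ≤ (1/2 : ℝ) ^ (-(3/2 - s.re)) :=
          Real.rpow_le_rpow_of_nonpos (by norm_num) hcos (by linarith)
      _ ≤ (1/2 : ℝ) ^ (-2 : ℝ) :=
          Real.rpow_le_rpow_of_exponent_ge (by norm_num) (by norm_num) (by linarith)
      _ = 4 := by
          rw [Real.rpow_neg (by norm_num)]
          norm_num
  have e6 : 1 ≤ ‖z‖ := by
    have := Complex.abs_re_le_norm z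
    rw [hzre] at this
    have h9 : |(3/2 : ℝ)| = 3/2 := abs_of_pos (by norm_num)
    rw [h9] at this
    linarith
  unfold Rz
  rw [norm_div, norm_mul, norm_mul, norm_mul, norm_mul, e1, e2]
  have e7 : Real.exp (9/4 - y ^ 2) * Real.exp (Real.pi / 2 * |y| + Real.pi / 8) ≤
      Real.exp (9/4 + Real.pi / 8 + Real.pi ^ 2 / 8) * Real.exp (-(1/2) * y ^ 2) := by
    rw [← Real.exp_add, ← Real.exp_add]
    apply Real.exp_le_exp.2
    have : (0:ℝ) ≤ (|y| - Real.pi / 2) ^ 2 := sq_nonneg _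
    have h7 : |y| ^ 2 = y ^ 2 := sq_abs y
    nlinarith
  calc Real.exp (9/4 - y ^ 2) * Λ ^ (3/2 : ℝ) * ‖Complex.Gamma (z - s)‖ * ‖2 * Complex.cos (Real.pi * (z - s) / 2)‖ *
        ‖((r * Real.cos δ : ℝ) : ℂ) ^ (-(z - s))‖ / ‖z‖
      ≤ Real.exp (9/4 - y ^ 2) * Λ ^ (3/2 : ℝ) * 1 * (2 * Real.exp (Real.pi / 2 * |y| + Real.pi / 8)) *
        (4 * (r:ℝ) ^ (-(3/2 - s.re))) / 1 := by
        gcongr
    _ = 8 * (Real.exp (9/4 - y ^ 2) * Real.exp (Real.pi / 2 * |y| + Real.pi / 8)) * (Λ ^ (3/2 : ℝ) *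
        (r:ℝ) ^ (-(3/2 - s.re))) := by ring
    _ ≤ 8 * (Real.exp (9/4 + Real.pi / 8 + Real.pi ^ 2 / 8) * Real.exp (-(1/2) * y ^ 2)) * (Λ ^ (3/2 : ℝ) *
        (r:ℝ) ^ (-(3/2 - s.re))) := by
        gcongr
    _ = _ := by ring

/-- `a^t ≤ a^τ + a^{-τ}` for `|t| ≤ τ`. -/
theorem F4O16_pow {a t τ : ℝ} (ha : 0 < a) (ht : |t| ≤ τ) : a ^ t ≤ a ^ τ + a ^ (-τ) := by
  have h := abs_le.1 ht
  have p1 : 0 < a ^ τ := Real.rpow_pos_of_pos ha _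
  have p2 : 0 < a ^ (-τ) := Real.rpow_pos_of_pos ha _
  rcases le_total 1 a with h1 | h1
  · have := Real.rpow_le_rpow_of_exponent_le h1 h.2
    linarith
  · have := Real.rpow_le_rpow_of_exponent_ge ha h1 h.1
    linarith

theorem F4O16_wk {ρ : ℝ} {α : ℂ} (hα : ‖α‖ = ρ) : ‖wk α‖ ≤ 1 / ρ + 2 := by
  unfold wk
  have h1 : ‖(2 * (Real.eulerMascheroniConstant : ℝ) : ℂ)‖ ≤ 2 := by
    rw [norm_mul, Complex.norm_ofNat, Complex.norm_real, Real.norm_eq_abs]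
    have h2 := Real.one_half_lt_eulerMascheroniConstant
    have h3 := Real.eulerMascheroniConstant_lt_two_thirds
    rw [abs_of_pos (by linarith)]
    linarith
  refine (norm_add_le _ _).trans ?_
  rw [norm_div, norm_one, hα]
  linarith

theorem F4O16_Gam1 {s : ℂ} (hs : |s.re| ≤ 1/4) : ‖Complex.Gamma (1 + s)‖ ≤ max (Real.Gamma (3/4)) (Real.Gamma (5/4)) := by
  have h := abs_le.1 hs
  have h1 : (1 + s).re = 1 + s.re := by simp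
  refine (F4O16_Gamma_le (by rw [h1]; linarith)).trans ?_
  rw [h1]
  exact Real.convexOn_Gamma.le_max_of_mem_Icc (x := 3/4) (y := 5/4) (by norm_num) (by norm_num)
    ⟨by linarith, by linarith⟩

theorem F4O16_sin {δ : ℝ} (h0 : 0 < δ) (h1 : δ ≤ 1/4) : 0 < 2 * Real.sin δ := by
  have := Real.sin_pos_of_pos_of_lt_pi h0 (by have := Real.pi_gt_three; linarith)
  linarith

theorem F4O16_sinpow {δ : ℝ} (h0 : 0 < δ) (h1 : δ ≤ 1/4) {s : ℂ} (hs : |s.re| ≤ 1/4) :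
    ‖((2 * Real.sin δ : ℝ) : ℂ) ^ (-1 - s)‖ ≤
      (2 * Real.sin δ) ^ (-1 : ℝ) * ((2 * Real.sin δ) ^ (1/4 : ℝ) + (2 * Real.sin δ) ^ (-(1/4) : ℝ)) := by
  have h2 := F4O16_sin h0 h1
  rw [Complex.norm_cpow_eq_rpow_re_of_pos h2]
  have h3 : (-1 - s).re = -1 + -s.re := by
    simp
    ring
  rw [h3, Real.rpow_add h2]
  apply mul_le_mul_of_nonneg_left _ (by positivity)
  exact F4O16_pow h2 (by rwa [abs_neg])

/-- the constant -/
noncomputable def F4O16_K (δ ρ Λ : ℝ) : ℝ :=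
  (1 / ρ + 2) * (1 / ρ + 2) * (max (Real.Gamma (3/4)) (Real.Gamma (5/4))) *
    ((2 * Real.sin δ) ^ (-1 : ℝ) * ((2 * Real.sin δ) ^ (1/4 : ℝ) + (2 * Real.sin δ) ^ (-(1/4) : ℝ))) *
    (8 * Real.exp (9/4 + Real.pi / 8 + Real.pi ^ 2 / 8) * Λ ^ (3/2 : ℝ))

theorem F4O16_main {δ ρ Λ : ℝ} (h0 : 0 < δ) (h1 : δ ≤ 1/4) (hρ : 0 < ρ) (hρ1 : ρ ≤ 1/8) (hΛ : 0 < Λ) {r : ℕ} (hr : 1 ≤ r)
    {A B : ℝ} (hA : 0 < A) (hB : 0 < B) {α β : ℂ} (hα : ‖α‖ = ρ) (hβ : ‖β‖ = ρ) (y : ℝ) :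
    ‖wk α * wk β * ((A:ℂ) ^ (-α) * (B:ℂ) ^ (-β)) * (Complex.Gamma (1 + (α + β)) *
      ((2 * Real.sin δ : ℝ) : ℂ) ^ (-1 - (α + β)) * Rz δ Λ r (α + β) (((3/2 : ℝ) : ℂ) + y * I))‖ ≤
    F4O16_K δ ρ Λ * ((r:ℝ) ^ (-(3/2) : ℝ) * (((r / A) ^ (1/8 : ℝ) + (r / A) ^ (-(1/8) : ℝ)) *
      ((r / B) ^ (1/8 : ℝ) + (r / B) ^ (-(1/8) : ℝ)))) * Real.exp (-(1/2) * y ^ 2) := by
  have hr0 : (0:ℝ) < r := by exact_mod_cast hr
  have ha1 : |α.re| ≤ 1/8 := (Complex.abs_re_le_norm α).trans (by rw [hα]; exact hρ1)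
  have ha2 : |α.im| ≤ 1/8 := (Complex.abs_im_le_norm α).trans (by rw [hα]; exact hρ1)
  have hb1 : |β.re| ≤ 1/8 := (Complex.abs_re_le_norm β).trans (by rw [hβ]; exact hρ1)
  have hb2 : |β.im| ≤ 1/8 := (Complex.abs_im_le_norm β).trans (by rw [hβ]; exact hρ1)
  have hs1 : |(α + β).re| ≤ 1/4 := by
    rw [Complex.add_re]
    exact (abs_add_le _ _).trans (by linarith)
  have hs2 : |(α + β).im| ≤ 1/4 := by
    rw [Complex.add_im]
    exact (abs_add_le _ _).trans (by linarith)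
  have f1 := F4O16_wk hα
  have f2 := F4O16_wk hβ
  have f3 := F4O16_Gam1 hs1
  have f4 := F4O16_sinpow h0 h1 hs1
  have f5 := F4O16_Rz h0 h1 hΛ hr hs1 hs2 y
  have f6 : ‖(A:ℂ) ^ (-α)‖ = A ^ (-α.re) := by
    rw [Complex.norm_cpow_eq_rpow_re_of_pos hA, Complex.neg_re]
  have f7 : ‖(B:ℂ) ^ (-β)‖ = B ^ (-β.re) := by
    rw [Complex.norm_cpow_eq_rpow_re_of_pos hB, Complex.neg_re]
  have f8 : A ^ (-α.re) * B ^ (-β.re) * (r:ℝ) ^ (-(3/2 - (α + β).re)) ≤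
      (r:ℝ) ^ (-(3/2) : ℝ) * (((r / A) ^ (1/8 : ℝ) + (r / A) ^ (-(1/8) : ℝ)) *
      ((r / B) ^ (1/8 : ℝ) + (r / B) ^ (-(1/8) : ℝ))) := by
    have g1 : A ^ (-α.re) * B ^ (-β.re) * (r:ℝ) ^ (-(3/2 - (α + β).re))
        = (r:ℝ) ^ (-(3/2) : ℝ) * ((r / A) ^ α.re * (r / B) ^ β.re) := by
      rw [Complex.add_re, show -(3/2 - (α.re + β.re)) = -(3/2) + α.re + β.re by ring, Real.rpow_add hr0,
        Real.rpow_add hr0, Real.div_rpow hr0.le hA.le, Real.div_rpow hr0.le hB.le, Real.rpow_neg hA.le,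
        Real.rpow_neg hB.le]
      ring
    rw [g1]
    have g2 := F4O16_pow (div_pos hr0 hA) ha1
    have g3 := F4O16_pow (div_pos hr0 hB) hb1
    gcongr
  have hG : 0 ≤ max (Real.Gamma (3/4)) (Real.Gamma (5/4)) :=
    le_max_of_le_left (Real.Gamma_pos_of_pos (by norm_num)).le
  have hsn := F4O16_sin h0 h1
  rw [norm_mul, norm_mul, norm_mul, norm_mul, norm_mul, norm_mul, f6, f7]
  calc ‖wk α‖ * ‖wk β‖ * (A ^ (-α.re) * B ^ (-β.re)) * (‖Complex.Gamma (1 + (α + β))‖ *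
        ‖((2 * Real.sin δ : ℝ) : ℂ) ^ (-1 - (α + β))‖ * ‖Rz δ Λ r (α + β) (((3/2 : ℝ) : ℂ) + y * I)‖)
      ≤ (1 / ρ + 2) * (1 / ρ + 2) * (A ^ (-α.re) * B ^ (-β.re)) * ((max (Real.Gamma (3/4)) (Real.Gamma (5/4))) *
        ((2 * Real.sin δ) ^ (-1 : ℝ) * ((2 * Real.sin δ) ^ (1/4 : ℝ) + (2 * Real.sin δ) ^ (-(1/4) : ℝ))) *
        (8 * Real.exp (9/4 + Real.pi / 8 + Real.pi ^ 2 / 8) * Λ ^ (3/2 : ℝ) *
      (r:ℝ) ^ (-(3/2 - (α + β).re)) * Real.exp (-(1/2) * y ^ 2))) := by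
        gcongr
    _ = F4O16_K δ ρ Λ * (A ^ (-α.re) * B ^ (-β.re) * (r:ℝ) ^ (-(3/2 - (α + β).re))) * Real.exp (-(1/2) * y ^ 2) := by
        unfold F4O16_K
        ring
    _ ≤ _ := by
        have hK : 0 ≤ F4O16_K δ ρ Λ := by
          unfold F4O16_K
          positivity
        gcongr

/-- the coefficient -/
noncomputable def F4O16_c (m n l r : ℕ) : ℝ := (LibF4D.cr l r : ℝ) / (LibF4D.lr l m * LibF4D.lr l n)

/-- the scale -/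
noncomputable def F4O16_A (m l : ℕ) : ℝ := (m:ℝ) * (LibF4D.lr l m : ℝ) ^ 2

theorem F4O16_A1 {m l : ℕ} (hm : 1 ≤ m) (hl : 1 ≤ l) : 1 ≤ F4O16_A m l := by
  unfold F4O16_A
  have h1 := (D14_lr_ge hl hm).1
  have h2 : (1:ℝ) ≤ m := by exact_mod_cast hm
  have h3 : (1:ℝ) ≤ LibF4D.lr l m := by exact_mod_cast h1
  nlinarith

theorem F4O16_Lam_pos {m n : ℕ} (hm : 1 ≤ m) (hn : 1 ≤ n) : 0 < Lam m n := by
  unfold Lam
  have : (0:ℝ) < m := by exact_mod_cast hm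
  have : (0:ℝ) < n := by exact_mod_cast hn
  positivity

/-- `Rz` separates at a real point -/
theorem F4O16_sep {δ : ℝ} (h0 : 0 < δ) (h1 : δ ≤ 1/4) (Λ : ℝ) {r : ℕ} (hr : 1 ≤ r) (s : ℝ) :
    Rz δ Λ r (s:ℂ) ((3/2 : ℝ) : ℂ) = Rz δ Λ 1 (s:ℂ) ((3/2 : ℝ) : ℂ) * (((r:ℝ) ^ (-(3/2 - s)) : ℝ) : ℂ) := by
  have hr0 : (0:ℝ) < r := by exact_mod_cast hr
  have hcos : 0 < Real.cos δ := Real.cos_pos_of_mem_Ioo ⟨by have := Real.pi_gt_three; linarith, by have := Real.pi_gt_three; linarith⟩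
  unfold Rz
  have e1 : ((r * Real.cos δ : ℝ) : ℂ) ^ (-(((3/2 : ℝ) : ℂ) - (s:ℂ)))
      = ((1 * Real.cos δ : ℝ) : ℂ) ^ (-(((3/2 : ℝ) : ℂ) - (s:ℂ))) * (((r:ℝ) ^ (-(3/2 - s)) : ℝ) : ℂ) := by
    rw [Complex.ofReal_mul, Complex.mul_cpow_ofReal_nonneg hr0.le hcos.le, one_mul, mul_comm]
    congr 1
    rw [Complex.ofReal_cpow hr0.le]
    push_cast
    rfl
  rw [e1]
  ring

theorem F4O16_ne {δ Λ : ℝ} (h0 : 0 < δ) (h1 : δ ≤ 1/4) (hΛ : 0 < Λ) {s : ℝ} (hs : |s| ≤ 1/4) :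
    0 < ‖Rz δ Λ 1 (s:ℂ) ((3/2 : ℝ) : ℂ)‖ := by
  rw [norm_pos_iff]
  have hcos : 0 < Real.cos δ := Real.cos_pos_of_mem_Ioo ⟨by have := Real.pi_gt_three; linarith, by have := Real.pi_gt_three; linarith⟩
  have hs' := abs_le.1 hs
  have hpi := Real.pi_pos
  unfold Rz
  have g1 : Complex.Gamma (((3/2 : ℝ) : ℂ) - (s:ℂ)) ≠ 0 := by
    apply Complex.Gamma_ne_zero_of_re_pos
    rw [Complex.sub_re, Complex.ofReal_re, Complex.ofReal_re]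
    linarith
  have g2 : Complex.cos (Real.pi * (((3/2 : ℝ) : ℂ) - (s:ℂ)) / 2) ≠ 0 := by
    have e : (Real.pi * (((3/2 : ℝ) : ℂ) - (s:ℂ)) / 2) = ((Real.pi * (3/2 - s) / 2 : ℝ) : ℂ) := by
      push_cast
      ring
    rw [e, ← Complex.ofReal_cos]
    have : Real.cos (Real.pi * (3/2 - s) / 2) < 0 := by
      apply Real.cos_neg_of_pi_div_two_lt_of_lt
      · nlinarith
      · nlinarith
    exact_mod_cast this.ne
  have g3 : ((1 * Real.cos δ : ℝ) : ℂ) ^ (-(((3/2 : ℝ) : ℂ) - (s:ℂ))) ≠ 0 := by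
    rw [Complex.cpow_def_of_ne_zero (by rw [one_mul]; exact_mod_cast hcos.ne')]
    exact Complex.exp_ne_zero _
  have g4 : (Λ:ℂ) ^ ((3/2 : ℝ) : ℂ) ≠ 0 := by
    rw [Complex.cpow_def_of_ne_zero (by exact_mod_cast hΛ.ne')]
    exact Complex.exp_ne_zero _
  have g5 : ((3/2 : ℝ) : ℂ) ≠ 0 := by
    exact_mod_cast (by norm_num : (3/2 : ℝ) ≠ 0)
  have g6 := Complex.exp_ne_zero ((((3/2 : ℝ) : ℂ)) ^ 2)
  exact div_ne_zero (mul_ne_zero (mul_ne_zero (mul_ne_zero (mul_ne_zero g6 g4) g1) (mul_ne_zero two_ne_zero g2)) g3) g5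

/-- one of the four majorants -/
theorem F4O16_sum1 {δ : ℝ} (h0 : 0 < δ) (h1 : δ ≤ 1/4) {m n : ℕ} (hm : 1 ≤ m) (hn : 1 ≤ n) (hc : Nat.Coprime m n)
    {a b : ℝ} (ha : |a| ≤ 1/8) (hb : |b| ≤ 1/8) :
    Summable (fun p : ℕ × ℕ => if 1 ≤ p.1 ∧ 1 ≤ p.2 then |F4O16_c m n p.1 p.2| *
      ((p.2:ℝ) ^ (-(3/2) : ℝ) * ((p.2 / F4O16_A m p.1) ^ a * (p.2 / F4O16_A n p.1) ^ b)) else 0) := by
  have hΛ := F4O16_Lam_pos hm hn
  have h := (O16a_point h0 h1 hm hn hc (α := (a:ℂ)) (β := (b:ℂ)) (z := ((3/2 : ℝ) : ℂ))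
    (by rw [Complex.norm_real]; exact ha) (by rw [Complex.norm_real]; exact hb) (Complex.ofReal_re _)).1
  have hab : |a + b| ≤ 1/4 := (abs_add_le _ _).trans (by linarith)
  have hne := F4O16_ne h0 h1 hΛ hab
  refine (h.mul_left (‖Rz δ (Lam m n) 1 ((a + b : ℝ) : ℂ) ((3/2 : ℝ) : ℂ)‖⁻¹)).congr fun p => ?_
  by_cases hp : 1 ≤ p.1 ∧ 1 ≤ p.2
  · rw [if_pos hp, if_pos hp]
    have hA := F4O16_A1 hm hp.1
    have hB := F4O16_A1 hn hp.1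
    have hr0 : (0:ℝ) < p.2 := by exact_mod_cast hp.2
    have hA0 : 0 < F4O16_A m p.1 := by linarith
    have hB0 : 0 < F4O16_A n p.1 := by linarith
    have hs : (a:ℂ) + (b:ℂ) = ((a + b : ℝ) : ℂ) := by push_cast; ring
    rw [hs, F4O16_sep h0 h1 (Lam m n) hp.2 (a + b), norm_mul, norm_mul, norm_mul, norm_mul, Complex.norm_real,
      Complex.norm_real]
    have e1 : ‖(((m:ℝ) * (LibF4D.lr p.1 m : ℝ) ^ 2 : ℝ) : ℂ) ^ (-(a:ℂ))‖ = F4O16_A m p.1 ^ (-a) := by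
      show ‖((F4O16_A m p.1 : ℝ) : ℂ) ^ (-(a:ℂ))‖ = _
      rw [Complex.norm_cpow_eq_rpow_re_of_pos hA0, Complex.neg_re, Complex.ofReal_re]
    have e2 : ‖(((n:ℝ) * (LibF4D.lr p.1 n : ℝ) ^ 2 : ℝ) : ℂ) ^ (-(b:ℂ))‖ = F4O16_A n p.1 ^ (-b) := by
      show ‖((F4O16_A n p.1 : ℝ) : ℂ) ^ (-(b:ℂ))‖ = _
      rw [Complex.norm_cpow_eq_rpow_re_of_pos hB0, Complex.neg_re, Complex.ofReal_re]
    rw [e1, e2, Real.norm_of_nonneg (Real.rpow_nonneg hr0.le _), Real.norm_eq_abs]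
    have e3 : (p.2:ℝ) ^ (-(3/2 - (a + b))) = (p.2:ℝ) ^ (-(3/2) : ℝ) * ((p.2:ℝ) ^ a * (p.2:ℝ) ^ b) := by
      rw [show -(3/2 - (a + b)) = -(3/2) + (a + b) by ring, Real.rpow_add hr0, Real.rpow_add hr0]
    rw [e3, Real.div_rpow hr0.le hA0.le, Real.div_rpow hr0.le hB0.le, Real.rpow_neg hA0.le, Real.rpow_neg hB0.le]
    unfold F4O16_c
    field_simp
  · rw [if_neg hp, if_neg hp]
    simp

/-- the majorant -/
noncomputable def F4O16_D (m n : ℕ) (p : ℕ × ℕ) : ℝ := if 1 ≤ p.1 ∧ 1 ≤ p.2 then |F4O16_c m n p.1 p.2| *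
      ((p.2:ℝ) ^ (-(3/2) : ℝ) * (((p.2 / F4O16_A m p.1) ^ (1/8 : ℝ) + (p.2 / F4O16_A m p.1) ^ (-(1/8) : ℝ)) *
      ((p.2 / F4O16_A n p.1) ^ (1/8 : ℝ) + (p.2 / F4O16_A n p.1) ^ (-(1/8) : ℝ)))) else 0

theorem F4O16_Dsum {δ : ℝ} (h0 : 0 < δ) (h1 : δ ≤ 1/4) {m n : ℕ} (hm : 1 ≤ m) (hn : 1 ≤ n) (hc : Nat.Coprime m n) :
    Summable (F4O16_D m n) := by
  have t1 : |(1/8 : ℝ)| ≤ 1/8 := by rw [abs_of_pos (by norm_num)]
  have t2 : |(-(1/8) : ℝ)| ≤ 1/8 := by rw [abs_neg, abs_of_pos (by norm_num)]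
  have s1 := F4O16_sum1 h0 h1 hm hn hc t1 t1
  have s2 := F4O16_sum1 h0 h1 hm hn hc t1 t2
  have s3 := F4O16_sum1 h0 h1 hm hn hc t2 t1
  have s4 := F4O16_sum1 h0 h1 hm hn hc t2 t2
  refine ((s1.add s2).add (s3.add s4)).congr fun p => ?_
  unfold F4O16_D
  by_cases hp : 1 ≤ p.1 ∧ 1 ≤ p.2
  · simp only [if_pos hp]
    ring
  · simp only [if_neg hp]
    ring

/-- the integrand of a term -/
noncomputable def F4O16_X (δ : ℝ) (m n l r : ℕ) (α β : ℂ) (y : ℝ) : ℂ :=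
  wk α * wk β * ((F4O16_A m l : ℂ) ^ (-α) * (F4O16_A n l : ℂ) ^ (-β)) * (Complex.Gamma (1 + (α + β)) *
      ((2 * Real.sin δ : ℝ) : ℂ) ^ (-1 - (α + β)) * Rz δ (Lam m n) r (α + β) (((3/2 : ℝ) : ℂ) + y * I))

theorem F4O16_Xcont {δ ρ : ℝ} (h0 : 0 < δ) (h1 : δ ≤ 1/4) (hρ : 0 < ρ) (hρ1 : ρ ≤ 1/8)
    {m n : ℕ} (hm : 1 ≤ m) (hn : 1 ≤ n) {l r : ℕ} (hl : 1 ≤ l) (hr : 1 ≤ r) :
    Continuous (fun q : ℝ × ℝ × ℝ => F4O16_X δ m n l r (ρ * cexp (q.1 * I)) (ρ * cexp (q.2.1 * I)) q.2.2) := by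
  have hA := F4O16_A1 hm hl
  have hB := F4O16_A1 hn hl
  have hAc : (F4O16_A m l : ℂ) ≠ 0 := by exact_mod_cast (by linarith : F4O16_A m l ≠ 0)
  have hBc : (F4O16_A n l : ℂ) ≠ 0 := by exact_mod_cast (by linarith : F4O16_A n l ≠ 0)
  have hΛ : (Lam m n : ℂ) ≠ 0 := by exact_mod_cast (F4O16_Lam_pos hm hn).ne'
  have hsn : ((2 * Real.sin δ : ℝ) : ℂ) ≠ 0 := by exact_mod_cast (F4O16_sin h0 h1).ne'
  have hcos : 0 < Real.cos δ := Real.cos_pos_of_mem_Ioo ⟨by have := Real.pi_gt_three; linarith, by have := Real.pi_gt_three; linarith⟩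
  have hr0 : (0:ℝ) < r := by exact_mod_cast hr
  have hrc : ((r * Real.cos δ : ℝ) : ℂ) ≠ 0 := by exact_mod_cast (mul_pos hr0 hcos).ne'
  have ha : Continuous (fun q : ℝ × ℝ × ℝ => (ρ:ℂ) * cexp (q.1 * I)) := by fun_prop
  have hb : Continuous (fun q : ℝ × ℝ × ℝ => (ρ:ℂ) * cexp (q.2.1 * I)) := by fun_prop
  have hρc : (ρ:ℂ) ≠ 0 := by exact_mod_cast hρ.ne'
  have hnorm : ∀ θ : ℝ, ‖(ρ:ℂ) * cexp (θ * I)‖ = ρ := by
    intro θ
    rw [norm_mul, Complex.norm_exp_ofReal_mul_I, mul_one, Complex.norm_real, Real.norm_of_nonneg hρ.le]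
  have hre : ∀ θ : ℝ, |((ρ:ℂ) * cexp (θ * I)).re| ≤ 1/8 := fun θ =>
    (Complex.abs_re_le_norm _).trans (by rw [hnorm]; exact hρ1)
  have hz : Continuous (fun q : ℝ × ℝ × ℝ => ((3/2 : ℝ) : ℂ) + q.2.2 * I) := by fun_prop
  have hzne : ∀ y : ℝ, ((3/2 : ℝ) : ℂ) + y * I ≠ 0 := by
    intro y h
    have := congrArg Complex.re h
    simp at this
  have hwk : ∀ f : ℝ × ℝ × ℝ → ℂ, Continuous f → (∀ q, f q ≠ 0) → Continuous fun q => wk (f q) := by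
    intro f hf hne
    unfold wk
    exact (continuous_const.div hf hne).add continuous_const
  unfold F4O16_X
  refine (((hwk _ ha fun q => ?_).mul (hwk _ hb fun q => ?_)).mul ?_).mul ?_
  · exact mul_ne_zero hρc (Complex.exp_ne_zero _)
  · exact mul_ne_zero hρc (Complex.exp_ne_zero _)
  · exact (ha.neg.const_cpow (Or.inl hAc)).mul (hb.neg.const_cpow (Or.inl hBc))
  · refine ((F4O16_Gamma_cont (continuous_const.add (ha.add hb)) fun q => ?_).mul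
      ((continuous_const.sub (ha.add hb)).const_cpow (Or.inl hsn))).mul ?_
    · have g1 := abs_le.1 (hre q.1)
      have g2 := abs_le.1 (hre q.2.1)
      show 0 < (1 + ((ρ:ℂ) * cexp (q.1 * I) + (ρ:ℂ) * cexp (q.2.1 * I))).re
      rw [Complex.add_re, Complex.add_re, Complex.one_re]
      linarith
    · unfold Rz
      refine ((((?_ : Continuous _).mul ?_).mul ?_).mul ?_ |>.mul ?_).div hz fun q => hzne _
      · fun_prop
      · exact hz.const_cpow (Or.inl hΛ)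
      · refine F4O16_Gamma_cont (hz.sub (ha.add hb)) fun q => ?_
        have g1 := abs_le.1 (hre q.1)
        have g2 := abs_le.1 (hre q.2.1)
        have g3 : (((3/2 : ℝ) : ℂ) + q.2.2 * I).re = 3/2 := by simp
        show 0 < ((((3/2 : ℝ) : ℂ) + q.2.2 * I) - ((ρ:ℂ) * cexp (q.1 * I) + (ρ:ℂ) * cexp (q.2.1 * I))).re
        rw [Complex.sub_re, g3, Complex.add_re]
        linarith
      · fun_prop
      · exact (hz.sub (ha.add hb)).neg.const_cpow (Or.inl hrc)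

theorem F4O16_lsum {δ : ℝ} (h0 : 0 < δ) (h1 : δ ≤ 1/4) {m n : ℕ} (hm : 1 ≤ m) (hn : 1 ≤ n) {r : ℕ} (hr : 1 ≤ r)
    {e : ℝ} (he : |e| = r) :
    Summable (fun l : ℕ => if 1 ≤ l then (F4O16_c m n l r : ℂ) * ∫ y in Ioi (0:ℝ), fe δ m n 0 e y *
      ((LibF4D.Lg (y / F4O16_A m l) * LibF4D.Lg (y / F4O16_A n l) : ℝ) : ℂ) else 0) := by
  obtain ⟨C, hC, hint⟩ := O04_int
  have hm0 : (0:ℝ) < m := by exact_mod_cast hm
  have hn0 : (0:ℝ) < n := by exact_mod_cast hn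
  have hr0 : (0:ℝ) < r := by exact_mod_cast hr
  set K' : ℝ := (r:ℝ) ^ 2 * (m * n) * (C * ((m:ℝ) * n) ^ 7 / (r:ℝ) ^ 8 * ((m:ℝ) * n) ^ (1/8 : ℝ) * δ ^ (-(5/4) : ℝ)) with hK
  have hK0 : 0 ≤ K' := by positivity
  have hs : Summable (fun l : ℕ => K' * (l:ℝ) ^ (-(3/2) : ℝ)) :=
    (Real.summable_nat_rpow.2 (by norm_num)).mul_left K'
  refine Summable.of_norm_bounded hs fun l => ?_
  by_cases hl : 1 ≤ l
  · rw [if_pos hl, norm_mul, Complex.norm_real, Real.norm_eq_abs]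
    have hl0 : (0:ℝ) < l := by exact_mod_cast hl
    have hA := F4O16_A1 hm hl
    have hB := F4O16_A1 hn hl
    have h2 := (hint δ m n r e (F4O16_A m l) (F4O16_A n l) h0 h1 hm hn hr he hA hB 0 (Or.inl rfl)).2.1
    obtain ⟨p1, p2, p3⟩ := D14_lr_ge (m := m) hl hm
    obtain ⟨q1, q2, q3⟩ := D14_lr_ge (m := n) hl hn
    have p1' : (0:ℝ) < LibF4D.lr l m := by exact_mod_cast p1
    have p2' : (LibF4D.lr l m : ℝ) ≤ l := by exact_mod_cast p2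
    have p3' : (l:ℝ) ≤ LibF4D.lr l m * m := by exact_mod_cast p3
    have q1' : (0:ℝ) < LibF4D.lr l n := by exact_mod_cast q1
    have q2' : (LibF4D.lr l n : ℝ) ≤ l := by exact_mod_cast q2
    have q3' : (l:ℝ) ≤ LibF4D.lr l n * n := by exact_mod_cast q3
    have hcr : |(LibF4D.cr l r : ℝ)| ≤ (r:ℝ) ^ 2 := by
      have := D14_cr_le (l := l) hr
      exact_mod_cast this
    have hc1 : |F4O16_c m n l r| ≤ (r:ℝ) ^ 2 * (m * n) / (l:ℝ) ^ 2 := by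
      unfold F4O16_c
      rw [abs_div, abs_of_pos (mul_pos p1' q1'), div_le_div_iff₀ (mul_pos p1' q1') (by positivity)]
      calc |(LibF4D.cr l r : ℝ)| * (l:ℝ) ^ 2 ≤ (r:ℝ) ^ 2 * ((LibF4D.lr l m * m) * (LibF4D.lr l n * n)) := by
            rw [pow_two (l:ℝ)]
            gcongr
        _ = (r:ℝ) ^ 2 * (m * n) * (LibF4D.lr l m * LibF4D.lr l n) := by ring
    have hAB : (F4O16_A m l * F4O16_A n l) ^ (1/8 : ℝ) ≤ ((m:ℝ) * n) ^ (1/8 : ℝ) * (l:ℝ) ^ (1/2 : ℝ) := by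
      have h3 : F4O16_A m l * F4O16_A n l ≤ (m * n) * (l:ℝ) ^ (4 : ℝ) := by
        unfold F4O16_A
        rw [show (l:ℝ) ^ (4:ℝ) = (l:ℝ) ^ 2 * (l:ℝ) ^ 2 by
          rw [← pow_add]; exact_mod_cast Real.rpow_natCast (l:ℝ) 4]
        calc (m:ℝ) * (LibF4D.lr l m : ℝ) ^ 2 * (n * (LibF4D.lr l n : ℝ) ^ 2) ≤ m * (l:ℝ) ^ 2 * (n * (l:ℝ) ^ 2) := by
              gcongr
          _ = _ := by ring
      calc (F4O16_A m l * F4O16_A n l) ^ (1/8 : ℝ) ≤ ((m * n) * (l:ℝ) ^ (4 : ℝ)) ^ (1/8 : ℝ) := by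
            apply Real.rpow_le_rpow _ h3 (by norm_num)
            apply mul_nonneg <;> linarith
        _ = ((m:ℝ) * n) ^ (1/8 : ℝ) * (l:ℝ) ^ (1/2 : ℝ) := by
            rw [Real.mul_rpow (by positivity) (by positivity), ← Real.rpow_mul hl0.le]
            norm_num
    calc |F4O16_c m n l r| * ‖∫ y in Ioi (0:ℝ), fe δ m n 0 e y *
          ((LibF4D.Lg (y / F4O16_A m l) * LibF4D.Lg (y / F4O16_A n l) : ℝ) : ℂ)‖
        ≤ ((r:ℝ) ^ 2 * (m * n) / (l:ℝ) ^ 2) * (C * ((m:ℝ) * n) ^ 7 / (r:ℝ) ^ 8 *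
          (((m:ℝ) * n) ^ (1/8 : ℝ) * (l:ℝ) ^ (1/2 : ℝ)) * δ ^ (-(5/4) : ℝ)) := by
          apply mul_le_mul hc1 (h2.trans _) (norm_nonneg _) (by positivity)
          gcongr
      _ = K' * ((l:ℝ) ^ (1/2 : ℝ) / (l:ℝ) ^ 2) := by
          rw [hK]
          ring
      _ = K' * (l:ℝ) ^ (-(3/2) : ℝ) := by
          congr 1
          rw [← Real.rpow_natCast, ← Real.rpow_sub hl0]
          norm_num
  · rw [if_neg hl, norm_zero]
    positivity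

/-- a term of the double sum -/
noncomputable def F4O16_u (δ : ℝ) (m n l r : ℕ) : ℂ := if 1 ≤ l ∧ 1 ≤ r then (F4O16_c m n l r : ℂ) *
    ((∫ y in Ioi (0:ℝ), fe δ m n 0 r y * ((LibF4D.Lg (y / F4O16_A m l) * LibF4D.Lg (y / F4O16_A n l) : ℝ) : ℂ)) +
      ∫ y in Ioi (0:ℝ), fe δ m n 0 (-r) y * ((LibF4D.Lg (y / F4O16_A m l) * LibF4D.Lg (y / F4O16_A n l) : ℝ) : ℂ)) else 0

theorem F4O16_MM {δ : ℝ} (h0 : 0 < δ) (h1 : δ ≤ 1/4) {m n : ℕ} (hm : 1 ≤ m) (hn : 1 ≤ n) {r : ℕ} (hr : 1 ≤ r) :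
    LibF4D.MM m n r (fe δ m n 0 r) + LibF4D.MM n m r (fe δ m n 0 (-r)) =
      (1 / ((m:ℂ) * n)) * ∑' l : ℕ, F4O16_u δ m n l r := by
  have hr0 : (0:ℝ) ≤ r := Nat.cast_nonneg r
  have s1 := F4O16_lsum h0 h1 hm hn hr (e := r) (abs_of_nonneg hr0)
  have s2 := F4O16_lsum h0 h1 hm hn hr (e := -r) (by rw [abs_neg, abs_of_nonneg hr0])
  have e1 : LibF4D.MM m n r (fe δ m n 0 r) = (1 / ((m:ℂ) * n)) * ∑' l : ℕ, (if 1 ≤ l then (F4O16_c m n l r : ℂ) *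
      ∫ y in Ioi (0:ℝ), fe δ m n 0 r y * ((LibF4D.Lg (y / F4O16_A m l) * LibF4D.Lg (y / F4O16_A n l) : ℝ) : ℂ) else 0) := rfl
  have e2 : LibF4D.MM n m r (fe δ m n 0 (-r)) = (1 / ((m:ℂ) * n)) * ∑' l : ℕ, (if 1 ≤ l then (F4O16_c m n l r : ℂ) *
      ∫ y in Ioi (0:ℝ), fe δ m n 0 (-r) y * ((LibF4D.Lg (y / F4O16_A m l) * LibF4D.Lg (y / F4O16_A n l) : ℝ) : ℂ) else 0) := by
    unfold LibF4D.MM
    rw [mul_comm (n:ℂ) (m:ℂ)]
    congr 1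
    apply tsum_congr
    intro l
    by_cases hl : 1 ≤ l
    · rw [if_pos hl, if_pos hl]
      unfold F4O16_c F4O16_A
      rw [mul_comm (LibF4D.lr l n : ℝ) (LibF4D.lr l m : ℝ)]
      congr 1
      apply setIntegral_congr_fun measurableSet_Ioi
      intro y _
      simp only
      rw [mul_comm (LibF4D.Lg (y / (n * (LibF4D.lr l n : ℝ) ^ 2)))]
    · rw [if_neg hl, if_neg hl]
  rw [e1, e2, ← mul_add, ← s1.tsum_add s2]
  congr 1
  apply tsum_congr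
  intro l
  unfold F4O16_u
  by_cases hl : 1 ≤ l
  · rw [if_pos hl, if_pos hl, if_pos ⟨hl, hr⟩]
    ring
  · rw [if_neg hl, if_neg hl, if_neg (fun h => hl h.1), add_zero]

theorem F4O16_AvVL (ρ : ℝ) (G : ℂ → ℂ → ℂ) (R : ℂ → ℂ → ℂ → ℂ) :
    Av ρ (fun α => Av ρ (fun β => G α β * VL (3/2) (R α β))) = ((1 / (2 * Real.pi) : ℝ) : ℂ) ^ 3 *
      ∫ θ in (0:ℝ)..(2 * Real.pi), ∫ φ in (0:ℝ)..(2 * Real.pi), ∫ y : ℝ,
        G (ρ * cexp (θ * I)) (ρ * cexp (φ * I)) * R (ρ * cexp (θ * I)) (ρ * cexp (φ * I)) (((3/2 : ℝ) : ℂ) + y * I) := by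
  unfold Av VL
  have e1 : ∀ θ φ : ℝ, G (ρ * cexp (θ * I)) (ρ * cexp (φ * I)) * (((1 / (2 * Real.pi) : ℝ) : ℂ) *
      ∫ y : ℝ, R (ρ * cexp (θ * I)) (ρ * cexp (φ * I)) (((3/2 : ℝ) : ℂ) + y * I))
      = ((1 / (2 * Real.pi) : ℝ) : ℂ) * ∫ y : ℝ, G (ρ * cexp (θ * I)) (ρ * cexp (φ * I)) *
        R (ρ * cexp (θ * I)) (ρ * cexp (φ * I)) (((3/2 : ℝ) : ℂ) + y * I) := by
    intro θ φ
    rw [integral_const_mul]
    ring
  simp_rw [e1, intervalIntegral.integral_const_mul]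
  ring

/-- the integrand -/
noncomputable def F4O16_H (δ ρ : ℝ) (m n : ℕ) (p : ℕ × ℕ) (θ φ y : ℝ) : ℂ :=
  if 1 ≤ p.1 ∧ 1 ≤ p.2 then (F4O16_c m n p.1 p.2 : ℂ) *
    F4O16_X δ m n p.1 p.2 (ρ * cexp (θ * I)) (ρ * cexp (φ * I)) y else 0

theorem F4O16_term {δ ρ : ℝ} (h0 : 0 < δ) (h1 : δ ≤ 1/4) (hρ : 0 < ρ) (hρ1 : ρ ≤ 1/8)
    {m n : ℕ} (hm : 1 ≤ m) (hn : 1 ≤ n) (p : ℕ × ℕ) :
    F4O16_u δ m n p.1 p.2 = ((1 / (2 * Real.pi) : ℝ) : ℂ) ^ 3 *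
      ∫ θ in (0:ℝ)..(2 * Real.pi), ∫ φ in (0:ℝ)..(2 * Real.pi), ∫ y : ℝ, F4O16_H δ ρ m n p θ φ y := by
  by_cases hp : 1 ≤ p.1 ∧ 1 ≤ p.2
  · unfold F4O16_u F4O16_H
    simp only [if_pos hp]
    have h := O11_pair h0 h1 hρ hρ1 (F4O16_A1 hm hp.1) (F4O16_A1 hn hp.1) hm hn hp.2
    rw [h]
    have e1 : ∀ α β : ℂ, wk α * wk β * ((F4O16_A m p.1 : ℂ) ^ (-α) * (F4O16_A n p.1 : ℂ) ^ (-β)) *
      (Complex.Gamma (1 + (α + β)) * ((2 * Real.sin δ : ℝ) : ℂ) ^ (-1 - (α + β)) *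
        VL (3/2) (Rz δ (Lam m n) p.2 (α + β)))
      = (wk α * wk β * ((F4O16_A m p.1 : ℂ) ^ (-α) * (F4O16_A n p.1 : ℂ) ^ (-β)) *
      (Complex.Gamma (1 + (α + β)) * ((2 * Real.sin δ : ℝ) : ℂ) ^ (-1 - (α + β)))) *
        VL (3/2) (Rz δ (Lam m n) p.2 (α + β)) := by
      intro α β
      ring
    simp_rw [e1]
    rw [F4O16_AvVL ρ (fun α β => (wk α * wk β * ((F4O16_A m p.1 : ℂ) ^ (-α) * (F4O16_A n p.1 : ℂ) ^ (-β)) *
      (Complex.Gamma (1 + (α + β)) * ((2 * Real.sin δ : ℝ) : ℂ) ^ (-1 - (α + β)))))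
      (fun α β => Rz δ (Lam m n) p.2 (α + β))]
    simp_rw [integral_const_mul, intervalIntegral.integral_const_mul]
    rw [← mul_assoc, ← mul_assoc, mul_comm ((F4O16_c m n p.1 p.2 : ℂ))]
    congr 1
    apply intervalIntegral.integral_congr
    intro θ _
    apply intervalIntegral.integral_congr
    intro φ _
    simp only
    rw [← integral_const_mul]
    apply integral_congr_ae
    refine Eventually.of_forall fun y => ?_
    simp only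
    unfold F4O16_X
    ring
  · unfold F4O16_u F4O16_H
    simp only [if_neg hp]
    simp

/-- O16: exact formula for the off-diagonal main term -/
theorem O16_OM {δ ρ : ℝ} (h0 : 0 < δ) (h1 : δ ≤ 1/4) (hρ : 0 < ρ) (hρ1 : ρ ≤ 1/8)
    {m n : ℕ} (hm : 1 ≤ m) (hn : 1 ≤ n) (hc : Nat.Coprime m n) :
    2 * ((√((m:ℝ) * n) : ℝ) : ℂ) * OM δ m n =
    Av ρ (fun α => Av ρ (fun β => wk α * wk β * cs δ (α + β) *
      (2 * VL (3/2) (fun z => ((Real.cos δ : ℝ) : ℂ) ^ ((α + β) - z) * (Kz (α + β) z * JF m n α β z))))) := by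
  have hΛ := F4O16_Lam_pos hm hn
  have hnorm : ∀ θ : ℝ, ‖(ρ:ℂ) * cexp (θ * I)‖ = ρ := by
    intro θ
    rw [norm_mul, Complex.norm_exp_ofReal_mul_I, mul_one, Complex.norm_real, Real.norm_of_nonneg hρ.le]
  have hD := F4O16_Dsum h0 h1 hm hn hc
  have hcont : ∀ p : ℕ × ℕ, Continuous (fun q : ℝ × ℝ × ℝ => F4O16_H δ ρ m n p q.1 q.2.1 q.2.2) := by
    intro p
    unfold F4O16_H
    by_cases hp : 1 ≤ p.1 ∧ 1 ≤ p.2
    · simp only [if_pos hp]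
      exact continuous_const.mul (F4O16_Xcont h0 h1 hρ hρ1 hm hn hp.1 hp.2)
    · simp only [if_neg hp]
      exact continuous_const
  have hbd : ∀ (p : ℕ × ℕ) (θ φ y : ℝ), ‖F4O16_H δ ρ m n p θ φ y‖ ≤
      (F4O16_K δ ρ (Lam m n) * F4O16_D m n p) * Real.exp (-(1/2) * y ^ 2) := by
    intro p θ φ y
    unfold F4O16_H F4O16_D
    by_cases hp : 1 ≤ p.1 ∧ 1 ≤ p.2
    · simp only [if_pos hp]
      have hA := F4O16_A1 hm hp.1
      have hB := F4O16_A1 hn hp.1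
      have h2 := F4O16_main h0 h1 hρ hρ1 hΛ hp.2 (by linarith : 0 < F4O16_A m p.1) (by linarith : 0 < F4O16_A n p.1)
        (hnorm θ) (hnorm φ) y
      rw [norm_mul, Complex.norm_real, Real.norm_eq_abs]
      unfold F4O16_X
      calc |F4O16_c m n p.1 p.2| * _ ≤ |F4O16_c m n p.1 p.2| * _ := mul_le_mul_of_nonneg_left h2 (abs_nonneg _)
        _ = _ := by ring
    · simp only [if_neg hp]
      simp
  have hex := F4O16_exch (fun p => F4O16_H δ ρ m n p) hcont (fun y => Real.exp (-(1/2) * y ^ 2))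
    (integrable_exp_neg_mul_sq (by norm_num : (0:ℝ) < 1/2)) _ (hD.mul_left (F4O16_K δ ρ (Lam m n))) hbd
  have hex2 := hex.mul_left (((1 / (2 * Real.pi) : ℝ) : ℂ) ^ 3)
  have hu : HasSum (fun p : ℕ × ℕ => F4O16_u δ m n p.1 p.2) _ :=
    hex2.congr_fun fun p => (F4O16_term h0 h1 hρ hρ1 hm hn p)
  have hus : Summable (fun p : ℕ × ℕ => F4O16_u δ m n p.1 p.2) := hu.summable
  have hOM : OM δ m n = (1 / ((m:ℂ) * n)) * ∑' p : ℕ × ℕ, F4O16_u δ m n p.1 p.2 := by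
    unfold OM
    have e1 : ∀ r : ℕ, LibF4D.MM m n (r + 1) (fe δ m n 0 (r + 1)) + LibF4D.MM n m (r + 1) (fe δ m n 0 (-(r + 1)))
        = (1 / ((m:ℂ) * n)) * ∑' l : ℕ, F4O16_u δ m n l (r + 1) := by
      intro r
      have := F4O16_MM h0 h1 hm hn (r := r + 1) (by omega)
      rwa [Nat.cast_add, Nat.cast_one] at this
    rw [tsum_congr e1, tsum_mul_left]
    congr 1
    have hsw : Summable (fun p : ℕ × ℕ => F4O16_u δ m n p.2 p.1) := hus.prod_symm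
    have e2 : ∑' p : ℕ × ℕ, F4O16_u δ m n p.1 p.2 = ∑' p : ℕ × ℕ, F4O16_u δ m n p.2 p.1 :=
      ((Equiv.prodComm ℕ ℕ).tsum_eq (fun p : ℕ × ℕ => F4O16_u δ m n p.1 p.2)).symm
    rw [e2, hsw.tsum_prod, (hsw.prod).tsum_eq_zero_add]
    have e3 : ∑' l : ℕ, F4O16_u δ m n l 0 = 0 := by
      have : ∀ l : ℕ, F4O16_u δ m n l 0 = 0 := by
        intro l
        unfold F4O16_u
        rw [if_neg (by omega)]
      rw [tsum_congr this, tsum_zero]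
    rw [e3, zero_add]
  rw [hOM, hu.tsum_eq]
  have e4 : ∀ α β : ℂ, wk α * wk β * cs δ (α + β) *
      (2 * VL (3/2) (fun z => ((Real.cos δ : ℝ) : ℂ) ^ ((α + β) - z) * (Kz (α + β) z * JF m n α β z)))
      = (wk α * wk β * cs δ (α + β) * 2) *
        VL (3/2) (fun z => ((Real.cos δ : ℝ) : ℂ) ^ ((α + β) - z) * (Kz (α + β) z * JF m n α β z)) := by
    intro α β
    ring
  simp_rw [e4]
  rw [F4O16_AvVL ρ (fun α β => wk α * wk β * cs δ (α + β) * 2)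
    (fun α β z => ((Real.cos δ : ℝ) : ℂ) ^ ((α + β) - z) * (Kz (α + β) z * JF m n α β z))]
  have e6 : ∀ θ φ y : ℝ, wk (ρ * cexp (θ * I)) * wk (ρ * cexp (φ * I)) *
      cs δ (ρ * cexp (θ * I) + ρ * cexp (φ * I)) * 2 *
      (((Real.cos δ : ℝ) : ℂ) ^ ((ρ * cexp (θ * I) + ρ * cexp (φ * I)) - (((3/2 : ℝ) : ℂ) + y * I)) *
        (Kz (ρ * cexp (θ * I) + ρ * cexp (φ * I)) (((3/2 : ℝ) : ℂ) + y * I) *
          JF m n (ρ * cexp (θ * I)) (ρ * cexp (φ * I)) (((3/2 : ℝ) : ℂ) + y * I)))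
      = (2 * ((√((m:ℝ) * n) : ℝ) : ℂ) * (1 / ((m:ℂ) * n))) * ∑' p : ℕ × ℕ, F4O16_H δ ρ m n p θ φ y := by
    intro θ φ y
    have h5 := (O16a_point h0 h1 hm hn hc (α := (ρ:ℂ) * cexp (θ * I)) (β := (ρ:ℂ) * cexp (φ * I))
      (z := ((3/2 : ℝ) : ℂ) + y * I) (by rw [hnorm]; exact hρ1) (by rw [hnorm]; exact hρ1) (by simp)).2
    have h6 : ∑' p : ℕ × ℕ, F4O16_H δ ρ m n p θ φ y = (wk (ρ * cexp (θ * I)) * wk (ρ * cexp (φ * I)) *
        (Complex.Gamma (1 + (ρ * cexp (θ * I) + ρ * cexp (φ * I))) *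
          ((2 * Real.sin δ : ℝ) : ℂ) ^ (-1 - (ρ * cexp (θ * I) + ρ * cexp (φ * I))))) *
        ∑' p : ℕ × ℕ, (if 1 ≤ p.1 ∧ 1 ≤ p.2 then (((LibF4D.cr p.1 p.2 : ℝ) / (LibF4D.lr p.1 m * LibF4D.lr p.1 n) : ℝ) : ℂ) *
          ((((m:ℝ) * (LibF4D.lr p.1 m : ℝ) ^ 2 : ℝ) : ℂ) ^ (-((ρ:ℂ) * cexp (θ * I))) *
            (((n:ℝ) * (LibF4D.lr p.1 n : ℝ) ^ 2 : ℝ) : ℂ) ^ (-((ρ:ℂ) * cexp (φ * I)))) *
          Rz δ (Lam m n) p.2 (ρ * cexp (θ * I) + ρ * cexp (φ * I)) (((3/2 : ℝ) : ℂ) + y * I) else 0) := by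
      rw [← tsum_mul_left]
      apply tsum_congr
      intro p
      unfold F4O16_H
      by_cases hp : 1 ≤ p.1 ∧ 1 ≤ p.2
      · rw [if_pos hp, if_pos hp]
        unfold F4O16_X F4O16_c F4O16_A
        ring
      · rw [if_neg hp, if_neg hp, mul_zero]
    rw [h6]
    linear_combination (-(wk (ρ * cexp (θ * I)) * wk (ρ * cexp (φ * I)))) * h5
  have e7 : ∫ θ in (0:ℝ)..(2 * Real.pi), ∫ φ in (0:ℝ)..(2 * Real.pi), ∫ y : ℝ,
      wk (ρ * cexp (θ * I)) * wk (ρ * cexp (φ * I)) *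
      cs δ (ρ * cexp (θ * I) + ρ * cexp (φ * I)) * 2 *
      (((Real.cos δ : ℝ) : ℂ) ^ ((ρ * cexp (θ * I) + ρ * cexp (φ * I)) - (((3/2 : ℝ) : ℂ) + y * I)) *
        (Kz (ρ * cexp (θ * I) + ρ * cexp (φ * I)) (((3/2 : ℝ) : ℂ) + y * I) *
          JF m n (ρ * cexp (θ * I)) (ρ * cexp (φ * I)) (((3/2 : ℝ) : ℂ) + y * I)))
      = (2 * ((√((m:ℝ) * n) : ℝ) : ℂ) * (1 / ((m:ℂ) * n))) *
        ∫ θ in (0:ℝ)..(2 * Real.pi), ∫ φ in (0:ℝ)..(2 * Real.pi), ∫ y : ℝ, ∑' p : ℕ × ℕ, F4O16_H δ ρ m n p θ φ y := by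
    simp_rw [e6, integral_const_mul, intervalIntegral.integral_const_mul]
  rw [e7]
  ring

end Pool.Agent.LibF4
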