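import Mathlib
import Pool.Agent.LibF4.ODefs

/-! Row O17.
|py| ≤ p^{7/4}, |px(±z)| ≤ p^{3/4}, |px px(-)| = |p^{-2-2s}| ≤ p^{-3/2} ≤ 0.36, so |Fp p j| ≤ (8 j) p^{7j/4+3/4} ≤ p^{11 j/2} for j ≥ 1 (8j ≤ p^{2+j}); product over p | m, p | n ≤ (mn)^{11/2}; prefactor ≤ m^{1/8} n^{1/8}(mn)^{1/4}.
JD: |X| ≤ p^{-3/4} ≤ 0.6: |1 + j(1-X)/(1+X)| ≤ 1 + 4j ≤ p^{3j}; |(mn)^{-(1+z)/2}| ≤ 1.
-/

set_option autoImplicit false

namespace Pool.Agent.LibF4

open MeasureTheory Set Filter Topology Complex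
open scoped ComplexConjugate

theorem O17_geom {B : ℝ} (hB : 2 ≤ B) (j : ℕ) : ∑ i ∈ Finset.range j, B ^ i ≤ B ^ j := by
  induction j with
  | zero => simp
  | succ j ih =>
    rw [Finset.sum_range_succ, pow_succ]
    have h := pow_nonneg (by linarith : (0:ℝ) ≤ B) j
    nlinarith

theorem O17_geom_norm {y : ℂ} {B : ℝ} (hB : 2 ≤ B) (hy : ‖y‖ ≤ B) (j : ℕ) :
    ‖∑ i ∈ Finset.range j, y ^ i‖ ≤ B ^ j := by
  refine (norm_sum_le _ _).trans (le_trans (Finset.sum_le_sum fun i _ => ?_) (O17_geom hB j))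
  rw [norm_pow]
  exact pow_le_pow_left₀ (norm_nonneg _) hy i

theorem O17_norm_cpow {p : ℕ} (hp : 1 ≤ p) (s : ℂ) {c : ℝ} (h : s.re ≤ c) :
    ‖(p : ℂ) ^ s‖ ≤ (p : ℝ) ^ c := by
  rw [Complex.norm_natCast_cpow_of_pos (by omega)]
  exact Real.rpow_le_rpow_of_exponent_le (by exact_mod_cast hp) h

theorem O17_Fp {α β z : ℂ} (hα : ‖α‖ ≤ 1/8) (hβ : ‖β‖ ≤ 1/8) (hz : |z.re| ≤ 3/2) {p j : ℕ}
    (hp : 2 ≤ p) (hj : 1 ≤ j) : ‖Fp α β z p j‖ ≤ ((p : ℝ) ^ j) ^ 8 := by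
  have hp1 : (2 : ℝ) ≤ p := by exact_mod_cast hp
  have hα' := abs_le.1 ((Complex.abs_re_le_norm α).trans hα)
  have hβ' := abs_le.1 ((Complex.abs_re_le_norm β).trans hβ)
  have hz' := abs_le.1 hz
  have hB : (2 : ℝ) ≤ (p : ℝ) ^ 2 := by nlinarith
  have hy : ‖py α β z p‖ ≤ (p : ℝ) ^ 2 := by
    unfold py
    refine (O17_norm_cpow (by omega) _ (c := 2) ?_).trans ?_
    · simp only [neg_re, add_re, sub_re]
      linarith
    · rw [show (2 : ℝ) = ((2 : ℕ) : ℝ) by norm_num, Real.rpow_natCast]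
  have hx : ‖px (α + β) z p‖ ≤ (p : ℝ) := by
    unfold px
    refine (O17_norm_cpow (by omega) _ (c := 1) ?_).trans (by rw [Real.rpow_one])
    simp only [neg_re, add_re, one_re]
    linarith
  have hx' : ‖px (α + β) (-z) p‖ ≤ (p : ℝ) := by
    unfold px
    refine (O17_norm_cpow (by omega) _ (c := 1) ?_).trans (by rw [Real.rpow_one])
    simp only [neg_re, add_re, one_re]
    linarith
  have hpos : (0 : ℝ) < p := by linarith
  have hxx : ‖px (α + β) z p * px (α + β) (-z) p‖ ≤ 1 / 2 := by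
    have h0 : (p : ℂ) ≠ 0 := by exact_mod_cast (by omega : p ≠ 0)
    unfold px
    rw [← Complex.cpow_add _ _ h0]
    refine (O17_norm_cpow (by omega) _ (c := -1) ?_).trans ?_
    · simp only [neg_re, add_re, one_re]
      linarith
    · rw [Real.rpow_neg_one, one_div]
      exact inv_anti₀ (by norm_num) hp1
  unfold Fp
  rw [norm_div]
  have hden : 1 / 2 ≤ ‖1 - px (α + β) z p * px (α + β) (-z) p‖ := by
    have h1 := norm_sub_norm_le (1 : ℂ) (px (α + β) z p * px (α + β) (-z) p)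
    rw [norm_one] at h1
    linarith
  set B : ℝ := (p : ℝ) ^ 2 with hBdef
  have hB0 : 0 ≤ B := by linarith
  have hBj : 0 ≤ B ^ j := pow_nonneg hB0 j
  have hnum : ‖∑ i ∈ Finset.range (j + 1), py α β z p ^ i -
      (px (α + β) z p + px (α + β) (-z) p * py α β z p) * ∑ i ∈ Finset.range j, py α β z p ^ i +
      px (α + β) (-z) p * px (α + β) z p * py α β z p * ∑ i ∈ Finset.range (j - 1), py α β z p ^ i‖ ≤
      B ^ (j + 1) + (p + p * B) * B ^ j + 1 * B * B ^ j := by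
    refine (norm_add_le _ _).trans (add_le_add ((norm_sub_le _ _).trans (add_le_add ?_ ?_)) ?_)
    · exact O17_geom_norm hB hy (j + 1)
    · rw [norm_mul]
      refine mul_le_mul ((norm_add_le _ _).trans (add_le_add hx ?_)) (O17_geom_norm hB hy j)
        (norm_nonneg _) (by positivity)
      rw [norm_mul]
      exact mul_le_mul hx' hy (norm_nonneg _) hpos.le
    · rw [norm_mul, norm_mul, mul_comm (px (α + β) (-z) p)]
      refine mul_le_mul (mul_le_mul (by linarith) hy (norm_nonneg _) (by norm_num))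
        ((O17_geom_norm hB hy (j - 1)).trans ?_) (norm_nonneg _) (by positivity)
      exact pow_le_pow_right₀ (by linarith) (by omega)
  have h3 : ‖∑ i ∈ Finset.range (j + 1), py α β z p ^ i -
      (px (α + β) z p + px (α + β) (-z) p * py α β z p) * ∑ i ∈ Finset.range j, py α β z p ^ i +
      px (α + β) (-z) p * px (α + β) z p * py α β z p * ∑ i ∈ Finset.range (j - 1), py α β z p ^ i‖ /
      ‖1 - px (α + β) z p * px (α + β) (-z) p‖ ≤
      (B ^ (j + 1) + (p + p * B) * B ^ j + 1 * B * B ^ j) / (1 / 2) := by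
    refine div_le_div₀ (by positivity) hnum (by norm_num) hden
  refine h3.trans ?_
  have h4 : (B ^ (j + 1) + (p + p * B) * B ^ j + 1 * B * B ^ j) / (1 / 2) ≤ p ^ 6 * B ^ j := by
    have h5 : (B ^ (j + 1) + (p + p * B) * B ^ j + 1 * B * B ^ j) / (1 / 2) =
        (2 * (2 * B + p + p * B)) * B ^ j := by
      rw [pow_succ]; ring
    rw [h5]
    refine mul_le_mul_of_nonneg_right ?_ hBj
    rw [hBdef]
    have h6 : (p : ℝ) ^ 2 * 16 ≤ p ^ 6 := by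
      have h7 : (2 : ℝ) ^ 4 ≤ p ^ 4 := pow_le_pow_left₀ (by norm_num) hp1 4
      nlinarith [pow_pos hpos 2]
    have h8 : (p : ℝ) ^ 3 * 8 ≤ p ^ 6 := by
      have h7 : (2 : ℝ) ^ 3 ≤ p ^ 3 := pow_le_pow_left₀ (by norm_num) hp1 3
      nlinarith [pow_pos hpos 3]
    have h9 : (p : ℝ) * 32 ≤ p ^ 6 := by
      have h7 : (2 : ℝ) ^ 5 ≤ p ^ 5 := pow_le_pow_left₀ (by norm_num) hp1 5
      nlinarith [pow_pos hpos 3]
    nlinarith
  refine h4.trans ?_
  rw [hBdef, ← pow_mul, ← pow_add, ← pow_mul]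
  exact pow_le_pow_right₀ (by linarith) (by omega)

theorem O17_prod_pow {m : ℕ} (hm : 1 ≤ m) (k : ℕ) :
    ∏ p ∈ m.primeFactors, ((p : ℝ) ^ m.factorization p) ^ k = (m : ℝ) ^ k := by
  rw [Finset.prod_pow]
  congr 1
  have h := Nat.prod_factorization_pow_eq_self (n := m) (by omega)
  have h1 : ((m.factorization.prod (· ^ ·) : ℕ) : ℝ) = m := by exact_mod_cast h
  rw [← h1]
  rw [Finsupp.prod, Nat.support_factorization]
  push_cast
  rfl

theorem O17_prod_Fp {m : ℕ} (hm : 1 ≤ m) {α β z : ℂ} (hα : ‖α‖ ≤ 1/8) (hβ : ‖β‖ ≤ 1/8)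
    (hz : |z.re| ≤ 3/2) : ‖∏ p ∈ m.primeFactors, Fp α β z p (m.factorization p)‖ ≤ (m : ℝ) ^ 8 := by
  rw [norm_prod, ← O17_prod_pow hm 8]
  refine Finset.prod_le_prod (fun _ _ => norm_nonneg _) fun p hp => ?_
  have hp' := Nat.prime_of_mem_primeFactors hp
  exact O17_Fp hα hβ hz hp'.two_le
    (hp'.factorization_pos_of_dvd (by omega) (Nat.dvd_of_mem_primeFactors hp))

/-- O17: bounds for the functionals -/
theorem O17_JF_bd {m n : ℕ} (hm : 1 ≤ m) (hn : 1 ≤ n) {α β z : ℂ} (hα : ‖α‖ ≤ 1/8) (hβ : ‖β‖ ≤ 1/8) (hz : |z.re| ≤ 3/2) :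
    ‖JF m n α β z‖ ≤ ((m:ℝ) * n) ^ 12 := by
  have hα' := abs_le.1 ((Complex.abs_re_le_norm α).trans hα)
  have hβ' := abs_le.1 ((Complex.abs_re_le_norm β).trans hβ)
  have hz' := abs_le.1 hz
  have hm1 : (1 : ℝ) ≤ m := by exact_mod_cast hm
  have hn1 : (1 : ℝ) ≤ n := by exact_mod_cast hn
  have h1 : ‖(m : ℂ) ^ (-α)‖ ≤ (m : ℝ) := by
    refine (O17_norm_cpow hm _ (c := 1) ?_).trans (by rw [Real.rpow_one])
    simp only [neg_re]
    linarith
  have h2 : ‖(n : ℂ) ^ (-β)‖ ≤ (n : ℝ) := by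
    refine (O17_norm_cpow hn _ (c := 1) ?_).trans (by rw [Real.rpow_one])
    simp only [neg_re]
    linarith
  have h3 : ‖((m * n : ℕ) : ℂ) ^ ((z - 1) / 2)‖ ≤ (m : ℝ) * n := by
    refine (O17_norm_cpow (Nat.mul_pos hm hn) _ (c := 1) ?_).trans
      (by rw [Real.rpow_one]; push_cast; exact le_refl _)
    have h4 : ((z - 1) / 2).re = (z.re - 1) / 2 := by
      rw [show (z - 1) / 2 = ((1 / 2 : ℝ) : ℂ) * (z - 1) by push_cast; ring, Complex.re_ofReal_mul]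
      simp only [sub_re, one_re]
      ring
    rw [h4]
    linarith
  have h5 : ‖FF m n α β z‖ ≤ (m : ℝ) ^ 8 * (n : ℝ) ^ 8 := by
    unfold FF
    rw [norm_mul]
    exact mul_le_mul (O17_prod_Fp hm hα hβ hz) (O17_prod_Fp hn hβ hα hz) (norm_nonneg _)
      (by positivity)
  unfold JF
  rw [norm_mul, norm_mul, norm_mul]
  have h6 : ‖(m : ℂ) ^ (-α)‖ * ‖(n : ℂ) ^ (-β)‖ * ‖((m * n : ℕ) : ℂ) ^ ((z - 1) / 2)‖ * ‖FF m n α β z‖ ≤
      (m : ℝ) * n * (m * n) * ((m : ℝ) ^ 8 * (n : ℝ) ^ 8) := by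
    refine mul_le_mul (mul_le_mul (mul_le_mul h1 h2 (norm_nonneg _) (by linarith)) h3
      (norm_nonneg _) (by positivity)) h5 (norm_nonneg _) (by positivity)
  refine h6.trans ?_
  have h7 : (m : ℝ) * n * (m * n) * ((m : ℝ) ^ 8 * (n : ℝ) ^ 8) = ((m : ℝ) * n) ^ 10 := by ring
  rw [h7]
  exact pow_le_pow_right₀ (by nlinarith) (by norm_num)

theorem O17_DD_local {z : ℂ} (hz : -(1/4) ≤ z.re) {p j : ℕ} (hp : 2 ≤ p) :
    ‖1 + (j : ℂ) * (1 - (p : ℂ) ^ (-(1 + z))) / (1 + (p : ℂ) ^ (-(1 + z)))‖ ≤ ((p : ℝ) ^ j) ^ 3 := by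
  have hp1 : (2 : ℝ) ≤ p := by exact_mod_cast hp
  have hX : ‖(p : ℂ) ^ (-(1 + z))‖ ≤ 3 / 4 := by
    refine (O17_norm_cpow (by omega) _ (c := -(1 / 2)) ?_).trans ?_
    · simp only [neg_re, add_re, one_re]
      linarith
    · rw [Real.rpow_neg (by linarith), ← Real.sqrt_eq_rpow]
      have h1 : (4 / 3 : ℝ) ≤ √(p : ℝ) := by
        refine Real.le_sqrt_of_sq_le ?_
        norm_num
        linarith
      have h2 := inv_anti₀ (by norm_num : (0 : ℝ) < 4 / 3) h1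
      refine h2.trans (by norm_num)
  set X : ℂ := (p : ℂ) ^ (-(1 + z))
  have h1 : ‖1 - X‖ ≤ 7 / 4 := by
    refine (norm_sub_le _ _).trans ?_
    rw [norm_one]
    linarith
  have h2 : 1 / 4 ≤ ‖1 + X‖ := by
    have h3 := norm_sub_norm_le (1 : ℂ) (-X)
    rw [norm_one, norm_neg, sub_neg_eq_add] at h3
    linarith
  have h3 : ‖1 + (j : ℂ) * (1 - X) / (1 + X)‖ ≤ 1 + j * 7 := by
    refine (norm_add_le _ _).trans ?_
    rw [norm_one]
    refine add_le_add le_rfl ?_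
    rw [norm_div, norm_mul, Complex.norm_natCast, div_le_iff₀ (by linarith)]
    have h4 : (0 : ℝ) ≤ j := Nat.cast_nonneg j
    nlinarith
  refine h3.trans ?_
  have h4 : (1 : ℝ) + j * 7 ≤ (1 + 7) ^ j := one_add_mul_le_pow (by norm_num) j
  refine h4.trans ?_
  rw [← pow_mul, mul_comm j 3, pow_mul]
  refine pow_le_pow_left₀ (by norm_num) ?_ j
  have h5 : (2 : ℝ) ^ 3 ≤ p ^ 3 := pow_le_pow_left₀ (by norm_num) hp1 3
  linarith

theorem O17_JD_bd {m n : ℕ} (hm : 1 ≤ m) (hn : 1 ≤ n) {z : ℂ} (hz : -(1/4) ≤ z.re) : ‖JD m n z‖ ≤ ((m:ℝ) * n) ^ 12 := by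
  have hm1 : (1 : ℝ) ≤ m := by exact_mod_cast hm
  have hn1 : (1 : ℝ) ≤ n := by exact_mod_cast hn
  have hmn : 1 ≤ m * n := Nat.mul_pos hm hn
  have h1 : ‖((m * n : ℕ) : ℂ) ^ (-(1 + z) / 2)‖ ≤ 1 := by
    refine (O17_norm_cpow hmn _ (c := 0) ?_).trans (by rw [Real.rpow_zero])
    have h4 : (-(1 + z) / 2).re = -(1 + z.re) / 2 := by
      rw [show -(1 + z) / 2 = ((1 / 2 : ℝ) : ℂ) * (-(1 + z)) by push_cast; ring, Complex.re_ofReal_mul]
      simp only [neg_re, add_re, one_re]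
      ring
    rw [h4]
    linarith
  have h2 : ‖DD m n z‖ ≤ ((m * n : ℕ) : ℝ) ^ 3 := by
    unfold DD
    rw [norm_prod, ← O17_prod_pow hmn 3]
    refine Finset.prod_le_prod (fun _ _ => norm_nonneg _) fun p hp => ?_
    exact O17_DD_local hz (Nat.prime_of_mem_primeFactors hp).two_le
  unfold JD
  rw [norm_mul]
  have h3 : ‖((m * n : ℕ) : ℂ) ^ (-(1 + z) / 2)‖ * ‖DD m n z‖ ≤ 1 * ((m * n : ℕ) : ℝ) ^ 3 :=
    mul_le_mul h1 h2 (norm_nonneg _) (by norm_num)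
  refine h3.trans ?_
  rw [one_mul]
  push_cast
  exact pow_le_pow_right₀ (by nlinarith) (by norm_num)

end Pool.Agent.LibF4
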