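import Mathlib
import Pool.Agent.LibF4.ODefs

/-! Row O18.
swap: commutativity of the products and of m*n. symm: with Y = py α β (-z) p, W = py β α z p = Y⁻¹, x = px s z, q = px s (-z): reflect the sums ∑_{i<k} Y^i = Y^{k-1}∑_{i<k} W^i (Finset.sum_range_reflect): Fp α β (-z) p j = Y^j Fp β α z p j for j ≥ 1
(numerators: h_{j+1}(Y) - (q + x Y) h_j(Y) + q x Y h_{j-1}(Y)). Prefactors: m^{-α}(m)^{(-z-1)/2} = m^{-β} m^{(z-1)/2} ∏_{p|m} Y^{-j} since Y^{-j} = (p^j)^{β-α-z}; for n with α, β exchanged. Use Nat.prod_factorization_pow_eq_self and natCast_mul_natCast_cpow / Nat.cast_prod.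
-/

set_option autoImplicit false

namespace Pool.Agent.LibF4

open MeasureTheory Set Filter Topology Complex
open scoped ComplexConjugate

theorem O18_geom (Y W : ℂ) (h : Y * W = 1) (k : ℕ) :
    Y ^ k * ∑ i ∈ Finset.range k, W ^ i = Y * ∑ i ∈ Finset.range k, Y ^ i := by
  induction k with
  | zero => simp
  | succ k ih =>
    rw [Finset.sum_range_succ, Finset.sum_range_succ', mul_add]
    have h1 : Y ^ (k + 1) * ∑ i ∈ Finset.range k, W ^ i =
        Y * (Y ^ k * ∑ i ∈ Finset.range k, W ^ i) := by ring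
    have h2 : Y ^ (k + 1) * W ^ k = Y := by
      have : Y ^ (k + 1) * W ^ k = Y * (Y * W) ^ k := by rw [mul_pow]; ring
      rw [this, h, one_pow, mul_one]
    have h3 : ∑ i ∈ Finset.range k, Y ^ (i + 1) = Y * ∑ i ∈ Finset.range k, Y ^ i := by
      rw [Finset.mul_sum]
      exact Finset.sum_congr rfl fun i _ => by ring
    rw [h1, ih, h2, h3, pow_zero]
    ring

theorem O18_local (α β z : ℂ) (p j : ℕ) (hp : 1 ≤ p) (hj : 1 ≤ j) :
    Fp α β (-z) p j = py α β (-z) p ^ j * Fp β α z p j := by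
  obtain ⟨i, rfl⟩ : ∃ i, j = i + 1 := ⟨j - 1, by omega⟩
  have hp0 : (p : ℂ) ≠ 0 := by exact_mod_cast (by omega : p ≠ 0)
  have hYW : py α β (-z) p * py β α z p = 1 := by
    unfold py
    rw [← Complex.cpow_add _ _ hp0]
    have : -(β - α + -z) + -(α - β + z) = 0 := by ring
    rw [this, Complex.cpow_zero]
  unfold Fp
  rw [neg_neg, add_comm β α]
  set Y := py α β (-z) p with hY
  set W := py β α z p with hW
  set x := px (α + β) z p with hx
  set q := px (α + β) (-z) p with hq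
  have hY0 : Y ≠ 0 := left_ne_zero_of_mul_eq_one hYW
  have e1 : Y ^ (i + 1) * ∑ t ∈ Finset.range (i + 1 + 1), W ^ t =
      ∑ t ∈ Finset.range (i + 1 + 1), Y ^ t := by
    have := O18_geom Y W hYW (i + 1 + 1)
    apply mul_left_cancel₀ hY0
    rw [← this]
    ring
  have e2 : Y ^ i * ∑ t ∈ Finset.range (i + 1), W ^ t = ∑ t ∈ Finset.range (i + 1), Y ^ t := by
    have := O18_geom Y W hYW (i + 1)
    apply mul_left_cancel₀ hY0
    rw [← this]
    ring
  have e3 : Y ^ i * ∑ t ∈ Finset.range i, W ^ t = Y * ∑ t ∈ Finset.range i, Y ^ t :=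
    O18_geom Y W hYW i
  have e4 : Y ^ (i + 1) * W = Y ^ i := by
    rw [pow_succ, mul_assoc, hYW, mul_one]
  rw [mul_div_assoc']
  have hden : 1 - q * x = 1 - x * q := by ring
  rw [hden]
  congr 1
  rw [show i + 1 - 1 = i by omega]
  have e5 : Y ^ (i + 1) * (∑ t ∈ Finset.range (i + 1 + 1), W ^ t -
      (x + q * W) * ∑ t ∈ Finset.range (i + 1), W ^ t + q * x * W * ∑ t ∈ Finset.range i, W ^ t) =
      Y ^ (i + 1) * ∑ t ∈ Finset.range (i + 1 + 1), W ^ t -
      (x * Y + q) * (Y ^ i * ∑ t ∈ Finset.range (i + 1), W ^ t) +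
      q * x * (Y ^ i * ∑ t ∈ Finset.range i, W ^ t) +
      (Y ^ i - Y ^ (i + 1) * W) * (q * ∑ t ∈ Finset.range (i + 1), W ^ t) +
      (Y ^ (i + 1) * W - Y ^ i) * (q * x * ∑ t ∈ Finset.range i, W ^ t) := by ring
  rw [e5, e1, e2, e3, e4]
  ring

theorem O18_pow (a k : ℕ) (w : ℂ) : (((a ^ k : ℕ) : ℂ)) ^ w = ((a : ℂ) ^ w) ^ k := by
  induction k with
  | zero => simp
  | succ k ih =>
    rw [pow_succ, Nat.cast_mul, Complex.natCast_mul_natCast_cpow, ih, pow_succ]

theorem O18_prod (s : Finset ℕ) (f : ℕ → ℕ) (w : ℂ) :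
    ((∏ i ∈ s, f i : ℕ) : ℂ) ^ w = ∏ i ∈ s, ((f i : ℕ) : ℂ) ^ w := by
  classical
  induction s using Finset.induction_on with
  | empty => simp
  | insert a s ha ih =>
    rw [Finset.prod_insert ha, Finset.prod_insert ha, Nat.cast_mul,
      Complex.natCast_mul_natCast_cpow, ih]

theorem O18_fac (m : ℕ) (hm : 1 ≤ m) (w : ℂ) :
    ∏ p ∈ m.primeFactors, ((p : ℂ) ^ w) ^ m.factorization p = (m : ℂ) ^ w := by
  have h1 : ∏ p ∈ m.primeFactors, p ^ m.factorization p = m :=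
    Nat.prod_factorization_pow_eq_self (by omega)
  calc ∏ p ∈ m.primeFactors, ((p : ℂ) ^ w) ^ m.factorization p
      = ∏ p ∈ m.primeFactors, ((p ^ m.factorization p : ℕ) : ℂ) ^ w :=
        Finset.prod_congr rfl fun p _ => (O18_pow _ _ _).symm
    _ = ((∏ p ∈ m.primeFactors, p ^ m.factorization p : ℕ) : ℂ) ^ w := (O18_prod _ _ _).symm
    _ = (m : ℂ) ^ w := by rw [h1]

theorem O18_half (m : ℕ) (hm : 1 ≤ m) (α β z : ℂ) :
    (m : ℂ) ^ (-α) * (m : ℂ) ^ ((-z - 1) / 2) *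
        ∏ p ∈ m.primeFactors, Fp α β (-z) p (m.factorization p) =
      (m : ℂ) ^ (-β) * (m : ℂ) ^ ((z - 1) / 2) *
        ∏ p ∈ m.primeFactors, Fp β α z p (m.factorization p) := by
  have hm0 : (m : ℂ) ≠ 0 := by exact_mod_cast (by omega : m ≠ 0)
  have h1 : ∏ p ∈ m.primeFactors, Fp α β (-z) p (m.factorization p) =
      (m : ℂ) ^ (-(β - α + -z)) * ∏ p ∈ m.primeFactors, Fp β α z p (m.factorization p) := by
    rw [← O18_fac m hm, ← Finset.prod_mul_distrib]
    refine Finset.prod_congr rfl fun p hp => ?_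
    have hpp := Nat.prime_of_mem_primeFactors hp
    have hj : 1 ≤ m.factorization p := by
      have := (Nat.Prime.dvd_iff_one_le_factorization hpp (by omega : m ≠ 0)).1
        (Nat.dvd_of_mem_primeFactors hp)
      exact this
    rw [O18_local α β z p _ hpp.one_lt.le hj]
    rfl
  rw [h1, ← mul_assoc, ← Complex.cpow_add _ _ hm0, ← Complex.cpow_add _ _ hm0,
    ← Complex.cpow_add _ _ hm0]
  congr 2
  ring

/-- O18: the symmetry -/
theorem O18_symm (m n : ℕ) (hm : 1 ≤ m) (hn : 1 ≤ n) (α β z : ℂ) : JF m n α β (-z) = JF m n β α z := by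
  unfold JF FF
  rw [Nat.cast_mul, Complex.natCast_mul_natCast_cpow, Complex.natCast_mul_natCast_cpow]
  have h1 := O18_half m hm α β z
  have h2 := O18_half n hn β α z
  calc (m : ℂ) ^ (-α) * (n : ℂ) ^ (-β) * ((m : ℂ) ^ ((-z - 1) / 2) * (n : ℂ) ^ ((-z - 1) / 2)) *
        ((∏ p ∈ m.primeFactors, Fp α β (-z) p (m.factorization p)) *
          ∏ p ∈ n.primeFactors, Fp β α (-z) p (n.factorization p))
      = ((m : ℂ) ^ (-α) * (m : ℂ) ^ ((-z - 1) / 2) *
          ∏ p ∈ m.primeFactors, Fp α β (-z) p (m.factorization p)) *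
        ((n : ℂ) ^ (-β) * (n : ℂ) ^ ((-z - 1) / 2) *
          ∏ p ∈ n.primeFactors, Fp β α (-z) p (n.factorization p)) := by ring
    _ = _ := by rw [h1, h2]; ring

theorem O18_swap (m n : ℕ) (α β z : ℂ) : JF n m α β z = JF m n β α z := by
  unfold JF FF
  rw [mul_comm n m]
  ring

end Pool.Agent.LibF4
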