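import Mathlib
import Pool.Agent.LibF4.ODefs

/-! Row O19.
Finite products and sums of p^(linear) (continuous, differentiable); denominators 1 - px px(-) = 1 - p^{-2-2s} ≠ 0 for |s| ≤ 1/4 (norm < 1), 1 + p^{-(1+z)} ≠ 0 for Re z > -1 (norm of p^{-(1+z)} < 1).
-/

set_option autoImplicit false

namespace Pool.Agent.LibF4

open MeasureTheory Set Filter Topology Complex
open scoped ComplexConjugate

theorem O19_den {s z : ℂ} (hs : ‖s‖ ≤ 1/4) {p : ℕ} (hp : p.Prime) :
    1 - px s z p * px s (-z) p ≠ 0 := by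
  intro h
  have hp0 : (0 : ℝ) < p := by exact_mod_cast hp.pos
  have hp1 : (1 : ℝ) < p := by exact_mod_cast hp.one_lt
  have hpc : (p : ℂ) ≠ 0 := by exact_mod_cast hp.ne_zero
  have h1 : px s z p * px s (-z) p = (p : ℂ) ^ (-(2 + 2 * s)) := by
    unfold px
    rw [← Complex.cpow_add _ _ hpc]
    congr 1
    ring
  have h2 : ‖px s z p * px s (-z) p‖ = 1 := by
    rw [← sub_eq_zero.1 h, norm_one]
  rw [h1, Complex.norm_natCast_cpow_of_pos hp.pos] at h2
  have h3 : (-(2 + 2 * s)).re < 0 := by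
    have h4 := Complex.abs_re_le_norm s
    have h5 := abs_le.1 (h4.trans hs)
    simp only [Complex.neg_re, Complex.add_re, Complex.mul_re, Complex.re_ofNat, Complex.im_ofNat,
      zero_mul, sub_zero]
    linarith [h5.1]
  have h6 := Real.rpow_lt_one_of_one_lt_of_neg hp1 h3
  linarith

theorem O19_Fp_diff {α β : ℂ} (h : ‖α + β‖ ≤ 1/4) {p j : ℕ} (hp : p.Prime) (z : ℂ) :
    DifferentiableAt ℂ (fun z => Fp α β z p j) z := by
  have hpc : (p : ℂ) ≠ 0 := by exact_mod_cast hp.ne_zero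
  have hy : DifferentiableAt ℂ (fun z => py α β z p) z := by
    unfold py
    exact DifferentiableAt.const_cpow (by fun_prop) (Or.inl hpc)
  have hx : DifferentiableAt ℂ (fun z => px (α + β) z p) z := by
    unfold px
    exact DifferentiableAt.const_cpow (by fun_prop) (Or.inl hpc)
  have hq : DifferentiableAt ℂ (fun z => px (α + β) (-z) p) z := by
    unfold px
    exact DifferentiableAt.const_cpow (by fun_prop) (Or.inl hpc)
  unfold Fp
  exact DifferentiableAt.fun_div (by fun_prop) (by fun_prop) (O19_den h hp)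

theorem O19_Fp_cont {p j : ℕ} (hp : p.Prime) :
    ContinuousOn (fun q : ℂ × ℂ × ℂ => Fp q.1 q.2.1 q.2.2 p j)
      (Metric.closedBall 0 (1/8) ×ˢ (Metric.closedBall 0 (1/8) ×ˢ univ)) ∧
    ContinuousOn (fun q : ℂ × ℂ × ℂ => Fp q.2.1 q.1 q.2.2 p j)
      (Metric.closedBall 0 (1/8) ×ˢ (Metric.closedBall 0 (1/8) ×ˢ univ)) := by
  have hpc : (p : ℂ) ≠ 0 := by exact_mod_cast hp.ne_zero
  have hne : ∀ q ∈ (Metric.closedBall (0 : ℂ) (1/8) ×ˢ
      (Metric.closedBall (0 : ℂ) (1/8) ×ˢ (univ : Set ℂ))),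
      ‖q.1 + q.2.1‖ ≤ 1/4 ∧ ‖q.2.1 + q.1‖ ≤ 1/4 := by
    intro q hq
    have h1 : ‖q.1‖ ≤ 1/8 := by simpa using hq.1
    have h2 : ‖q.2.1‖ ≤ 1/8 := by simpa using hq.2.1
    constructor
    · exact (norm_add_le _ _).trans (by linarith)
    · exact (norm_add_le _ _).trans (by linarith)
  have key : ∀ A B : ℂ × ℂ × ℂ → ℂ, Continuous A → Continuous B →
      (∀ q ∈ (Metric.closedBall (0 : ℂ) (1/8) ×ˢ
      (Metric.closedBall (0 : ℂ) (1/8) ×ˢ (univ : Set ℂ))), ‖A q + B q‖ ≤ 1/4) →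
      ContinuousOn (fun q : ℂ × ℂ × ℂ => Fp (A q) (B q) q.2.2 p j)
      (Metric.closedBall 0 (1/8) ×ˢ (Metric.closedBall 0 (1/8) ×ˢ univ)) := by
    intro A B hA hB hAB
    have hy : Continuous (fun q : ℂ × ℂ × ℂ => py (A q) (B q) q.2.2 p) := by
      unfold py
      exact Continuous.const_cpow (by fun_prop) (Or.inl hpc)
    have hx : Continuous (fun q : ℂ × ℂ × ℂ => px (A q + B q) q.2.2 p) := by
      unfold px
      exact Continuous.const_cpow (by fun_prop) (Or.inl hpc)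
    have hq : Continuous (fun q : ℂ × ℂ × ℂ => px (A q + B q) (-q.2.2) p) := by
      unfold px
      exact Continuous.const_cpow (by fun_prop) (Or.inl hpc)
    unfold Fp
    apply ContinuousOn.div
    · exact Continuous.continuousOn (by fun_prop)
    · exact Continuous.continuousOn (by fun_prop)
    · intro q hq'
      exact O19_den (hAB q hq') hp
  exact ⟨key (fun q => q.1) (fun q => q.2.1) (by fun_prop) (by fun_prop) fun q hq => (hne q hq).1,
    key (fun q => q.2.1) (fun q => q.1) (by fun_prop) (by fun_prop) fun q hq => (hne q hq).2⟩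

/-- O19: regularity of the functionals -/
theorem O19_JF_cont {m n : ℕ} (hm : 1 ≤ m) (hn : 1 ≤ n) :
    (∀ α β : ℂ, ‖α‖ ≤ 1/8 → ‖β‖ ≤ 1/8 → Differentiable ℂ (fun z => JF m n α β z)) ∧
    ContinuousOn (fun p : ℂ × ℂ × ℂ => JF m n p.1 p.2.1 p.2.2)
      (Metric.closedBall 0 (1/8) ×ˢ (Metric.closedBall 0 (1/8) ×ˢ univ)) := by
  have hmc : (m : ℂ) ≠ 0 := by
    exact_mod_cast (by omega : m ≠ 0)
  have hnc : (n : ℂ) ≠ 0 := by
    exact_mod_cast (by omega : n ≠ 0)
  have hmn : ((m * n : ℕ) : ℂ) ≠ 0 := by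
    push_cast
    exact mul_ne_zero hmc hnc
  refine ⟨?_, ?_⟩
  · intro α β hα hβ z
    have h1 : ‖α + β‖ ≤ 1/4 := (norm_add_le _ _).trans (by linarith)
    have h2 : ‖β + α‖ ≤ 1/4 := (norm_add_le _ _).trans (by linarith)
    unfold JF FF
    have d1 : DifferentiableAt ℂ (fun z : ℂ => ((m * n : ℕ) : ℂ) ^ ((z - 1) / 2)) z :=
      DifferentiableAt.const_cpow (by fun_prop) (Or.inl hmn)
    have d2 : DifferentiableAt ℂ (fun z : ℂ => ∏ p ∈ m.primeFactors,
        Fp α β z p (m.factorization p)) z :=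
      DifferentiableAt.fun_finsetProd fun p hp => O19_Fp_diff h1 (Nat.prime_of_mem_primeFactors hp) z
    have d3 : DifferentiableAt ℂ (fun z : ℂ => ∏ p ∈ n.primeFactors,
        Fp β α z p (n.factorization p)) z :=
      DifferentiableAt.fun_finsetProd fun p hp => O19_Fp_diff h2 (Nat.prime_of_mem_primeFactors hp) z
    exact (d1.const_mul _).mul (d2.mul d3)
  · unfold JF FF
    have c1 : Continuous (fun q : ℂ × ℂ × ℂ => (m : ℂ) ^ (-q.1)) :=
      Continuous.const_cpow (by fun_prop) (Or.inl hmc)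
    have c2 : Continuous (fun q : ℂ × ℂ × ℂ => (n : ℂ) ^ (-q.2.1)) :=
      Continuous.const_cpow (by fun_prop) (Or.inl hnc)
    have c3 : Continuous (fun q : ℂ × ℂ × ℂ => ((m * n : ℕ) : ℂ) ^ ((q.2.2 - 1) / 2)) :=
      Continuous.const_cpow (by fun_prop) (Or.inl hmn)
    have c4 : ContinuousOn (fun q : ℂ × ℂ × ℂ => ∏ p ∈ m.primeFactors,
        Fp q.1 q.2.1 q.2.2 p (m.factorization p))
        (Metric.closedBall 0 (1/8) ×ˢ (Metric.closedBall 0 (1/8) ×ˢ univ)) :=
      continuousOn_finsetProd _ fun p hp => (O19_Fp_cont (Nat.prime_of_mem_primeFactors hp)).1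
    have c5 : ContinuousOn (fun q : ℂ × ℂ × ℂ => ∏ p ∈ n.primeFactors,
        Fp q.2.1 q.1 q.2.2 p (n.factorization p))
        (Metric.closedBall 0 (1/8) ×ˢ (Metric.closedBall 0 (1/8) ×ˢ univ)) :=
      continuousOn_finsetProd _ fun p hp => (O19_Fp_cont (Nat.prime_of_mem_primeFactors hp)).2
    exact (((c1.mul c2).mul c3).continuousOn).mul (c4.mul c5)

theorem O19_JD_diff {m n : ℕ} (hm : 1 ≤ m) (hn : 1 ≤ n) {z : ℂ} (hz : -1 < z.re) : DifferentiableAt ℂ (JD m n) z := by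
  have hmn : ((m * n : ℕ) : ℂ) ≠ 0 := by
    exact_mod_cast (Nat.mul_pos hm hn).ne'
  unfold JD DD
  have d1 : DifferentiableAt ℂ (fun z : ℂ => ((m * n : ℕ) : ℂ) ^ (-(1 + z) / 2)) z :=
    DifferentiableAt.const_cpow (by fun_prop) (Or.inl hmn)
  have d2 : DifferentiableAt ℂ (fun z : ℂ => ∏ p ∈ (m * n).primeFactors,
    (1 + ((m * n).factorization p : ℂ) * (1 - (p : ℂ) ^ (-(1 + z))) /
      (1 + (p : ℂ) ^ (-(1 + z))))) z := by
    apply DifferentiableAt.fun_finsetProd
    intro p hp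
    have hpp := Nat.prime_of_mem_primeFactors hp
    have hpc : (p : ℂ) ≠ 0 := by exact_mod_cast hpp.ne_zero
    have hp1 : (1 : ℝ) < p := by exact_mod_cast hpp.one_lt
    have d3 : DifferentiableAt ℂ (fun z : ℂ => (p : ℂ) ^ (-(1 + z))) z :=
      DifferentiableAt.const_cpow (by fun_prop) (Or.inl hpc)
    have hne : 1 + (p : ℂ) ^ (-(1 + z)) ≠ 0 := by
      intro h
      have h1 : ‖(p : ℂ) ^ (-(1 + z))‖ = 1 := by
        rw [eq_neg_of_add_eq_zero_right h, norm_neg, norm_one]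
      rw [Complex.norm_natCast_cpow_of_pos hpp.pos] at h1
      have h2 : (-(1 + z)).re < 0 := by
        simp only [Complex.neg_re, Complex.add_re, Complex.one_re]
        linarith
      have h3 := Real.rpow_lt_one_of_one_lt_of_neg hp1 h2
      linarith
    exact (differentiableAt_const _).add
      (((d3.const_sub 1).const_mul _).fun_div (d3.const_add 1) hne)
  exact d1.mul d2

end Pool.Agent.LibF4
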