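import Mathlib
import Pool.Agent.LibF4.ODefs
import Pool.Agent.LibZM.HB5

/-! Row O20.
Re w ≥ 2: |ζ| ≤ ζ(2). 1/4 ≤ Re w ≤ 2: polynomial bound for (w-1)ζ(w), landed in LibZM (riemannZeta₁; see LibF4 M02/zeta_bd1 of helper58) or from ζ(w) = w/(w-1) - w∫{x}x^{-w-1}dx. Re w < 1/4: functional equation riemannZeta_one_sub with 1-w (Re in [3/4,2]):
|Γ| ≤ Γ(Re), |cos(π(1-w)/2)| = |sin(πw/2)| ≤ e^{π|y|/2}, the pole of ζ(1-w) at w = 0 is cancelled by sin(πw/2) (|sin(πw/2)| ≤ 2|w| e^{2|y|}). Inverse: 1/ζ(w) = ∑ μ(n) n^{-w} or |ζ(w)| ≥ 1 - ... Euler product: |ζ(w)|⁻¹ ≤ ζ(3/2).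
-/

set_option autoImplicit false

namespace Pool.Agent.LibF4

open MeasureTheory Set Filter Topology Complex
open scoped ComplexConjugate

theorem O20_norm_le (w : ℂ) (a : ℝ) (ha : |w.re| ≤ a) : ‖w‖ ≤ a + |w.im| :=
  (Complex.norm_le_abs_re_add_abs_im w).trans (by linarith)

theorem O20_right (w : ℂ) (h1 : 1/4 ≤ w.re) (a : ℝ) (ha : 1 ≤ a) (h2 : w.re ≤ a) (hw : w ≠ 1) :
    ‖(w - 1) * riemannZeta w‖ ≤ 1 + (a + |w.im|) * (1 + 4 * (a + |w.im|)) := by
  have h3 := LibZM.norm_zeta1_le' h1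
  have h4 : riemannZeta₁ w = (w - 1) * riemannZeta w := by
    rw [riemannZeta_eq_inv_sub_mul hw]
    have : w - 1 ≠ 0 := sub_ne_zero.mpr hw
    field_simp
  rw [← h4]
  have h5 : ‖w‖ ≤ a + |w.im| := O20_norm_le w a (abs_le.2 ⟨by linarith, h2⟩)
  have h6 : ‖w - 1‖ ≤ a + |w.im| := by
    have := O20_norm_le (w - 1) a (by
      rw [Complex.sub_re, Complex.one_re]
      exact abs_le.2 ⟨by linarith, by linarith⟩)
    simpa using this
  have h7 := norm_nonneg w
  have h8 := norm_nonneg (w - 1)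
  refine h3.trans ?_
  gcongr

theorem O20_cos (u : ℂ) : ‖Complex.cos u‖ ≤ Real.exp |u.im| := by
  rw [Complex.cos, norm_div]
  have h1 : ‖Complex.exp (u * I) + Complex.exp (-u * I)‖ ≤ Real.exp |u.im| + Real.exp |u.im| := by
    refine (norm_add_le _ _).trans ?_
    rw [Complex.norm_exp, Complex.norm_exp]
    have e1 : (u * I).re = - u.im := by simp
    have e2 : (-u * I).re = u.im := by simp
    rw [e1, e2]
    gcongr
    · exact neg_le_abs _
    · exact le_abs_self _
  have h2 : ‖(2 : ℂ)‖ = 2 := by simp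
  rw [h2]
  linarith

theorem O20_sin (z : ℂ) : ‖Complex.sin z‖ ≤ Real.exp |z.im| * ‖z‖ := by
  have hconv : Convex ℝ {u : ℂ | |u.im| ≤ |z.im|} := by
    have : {u : ℂ | |u.im| ≤ |z.im|} = Complex.imLm ⁻¹' (Icc (-|z.im|) |z.im|) := by
      ext u
      simp [abs_le]
    rw [this]
    exact (convex_Icc _ _).linear_preimage _
  have h := Convex.norm_image_sub_le_of_norm_hasDerivWithin_le (f := Complex.sin) (f' := Complex.cos)
    (C := Real.exp |z.im|) (x := 0) (y := z)
    (fun u _ => (Complex.hasDerivAt_sin u).hasDerivWithinAt)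
    (fun u hu => (O20_cos u).trans (Real.exp_le_exp.2 hu)) hconv
    (show |(0 : ℂ).im| ≤ |z.im| by simp) (show |z.im| ≤ |z.im| from le_rfl)
  simpa using h

theorem O20_gamma : ∃ K : ℝ, 1 ≤ K ∧ ∀ x : ℝ, x ∈ Icc (3/4 : ℝ) 2 → Real.Gamma x ≤ K := by
  have hc : ContinuousOn Real.Gamma (Icc (3/4 : ℝ) 2) := by
    intro x hx
    apply ContinuousAt.continuousWithinAt
    apply (Real.differentiableAt_Gamma ?_).continuousAt
    intro m hm
    rw [hm] at hx
    have := hx.1
    have : (0 : ℝ) ≤ m := Nat.cast_nonneg m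
    linarith [hx.1]
  obtain ⟨K, hK⟩ := isCompact_Icc.exists_bound_of_continuousOn hc
  refine ⟨max 1 K, le_max_left _ _, fun x hx => ?_⟩
  exact ((le_abs_self _).trans (hK x hx)).trans (le_max_right _ _)

/-- O20: zeta in a strip -/
theorem O20_zeta : ∃ C : ℝ, 1 ≤ C ∧ ∀ w : ℂ, -1 ≤ w.re → w.re ≤ 3 → w ≠ 1 →
    ‖(w - 1) * riemannZeta w‖ ≤ C * Real.exp (3 * |w.im|) := by
  obtain ⟨K, hK1, hK⟩ := O20_gamma
  have hpi := Real.pi_pos
  have hpi4 := Real.pi_lt_d2
  refine ⟨100 + 80 * Real.pi * K * 16, by nlinarith [mul_pos hpi (by linarith : (0:ℝ) < K)], ?_⟩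
  intro w hw1 hw3 hw
  set t := |w.im| with ht
  have ht0 : 0 ≤ t := abs_nonneg _
  have hKpos : 0 < K := by linarith
  have hexp1 : 1 + t ≤ Real.exp t := by linarith [Real.add_one_le_exp t]
  have hexp3 : 1 ≤ Real.exp (3 * t) := Real.one_le_exp (by positivity)
  have hCK : 0 ≤ 80 * Real.pi * K * 16 := by positivity
  by_cases h14 : 1/4 ≤ w.re
  · have h := O20_right w h14 3 (by norm_num) hw3 hw
    rw [← ht] at h
    have h2 : 1 + (3 + t) * (1 + 4 * (3 + t)) ≤ 100 * Real.exp (3 * t) := by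
      have e1 : Real.exp (3 * t) = Real.exp t * Real.exp t * Real.exp t := by
        rw [← Real.exp_add, ← Real.exp_add]; congr 1; ring
      have e2 : (1 + t) * (1 + t) * (1 + t) ≤ Real.exp t * Real.exp t * Real.exp t := by
        gcongr
      rw [e1]
      nlinarith [mul_nonneg ht0 ht0, mul_nonneg (mul_nonneg ht0 ht0) ht0]
    calc ‖(w - 1) * riemannZeta w‖ ≤ 100 * Real.exp (3 * t) := h.trans h2
      _ ≤ _ := by
        apply mul_le_mul_of_nonneg_right _ (Real.exp_pos _).le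
        linarith
  · have h14' : w.re < 1/4 := by linarith
    by_cases hw0 : w = 0
    · subst hw0
      have : ‖((0:ℂ) - 1) * riemannZeta 0‖ ≤ 1 := by
        rw [riemannZeta_zero]
        norm_num
      refine this.trans ?_
      have : (1:ℝ) * 1 ≤ (100 + 80 * Real.pi * K * 16) * Real.exp (3 * t) := by
        apply mul_le_mul _ hexp3 (by norm_num) (by positivity)
        linarith
      linarith
    · set s : ℂ := 1 - w with hs
      have hsre : s.re = 1 - w.re := by simp [hs]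
      have hsim : |s.im| = t := by rw [hs]; simp [ht]
      have hs34 : 3/4 ≤ s.re := by rw [hsre]; linarith
      have hs2 : s.re ≤ 2 := by rw [hsre]; linarith
      have hs1 : s ≠ 1 := by
        intro h
        apply hw0
        have : w = 1 - s := by rw [hs]; ring
        rw [this, h, sub_self]
      have hsn : ∀ n : ℕ, s ≠ -n := by
        intro n hn
        have h1 : s.re = -(n : ℝ) := by rw [hn]; simp
        have : (0 : ℝ) ≤ n := Nat.cast_nonneg n
        linarith
      have hfe := riemannZeta_one_sub hsn hs1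
      have hws : 1 - s = w := by rw [hs]; ring
      rw [hws] at hfe
      have hcos : Complex.cos (Real.pi * s / 2) = Complex.sin (Real.pi * w / 2) := by
        rw [hs]
        have : (Real.pi : ℂ) * (1 - w) / 2 = Real.pi / 2 - Real.pi * w / 2 := by ring
        rw [this, Complex.cos_pi_div_two_sub]
      rw [hcos] at hfe
      -- factor
      have hw0' : ‖w‖ ≠ 0 := norm_ne_zero_iff.2 hw0
      have hwpos : 0 < ‖w‖ := lt_of_le_of_ne (norm_nonneg _) (Ne.symm hw0')
      have hkey : ‖(w - 1) * riemannZeta w‖ * ‖w‖ =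
          ‖s‖ * (2 * ‖(2 * (Real.pi:ℂ)) ^ (-s)‖ * ‖Complex.Gamma s‖ * ‖Complex.sin (Real.pi * w / 2)‖ *
            ‖(s - 1) * riemannZeta s‖) := by
        have e1 : ‖w - 1‖ = ‖s‖ := by rw [hs, ← norm_neg]; congr 1; ring
        have e2 : ‖s - 1‖ = ‖w‖ := by rw [hs, ← norm_neg]; congr 1; ring
        rw [hfe]
        simp only [norm_mul, e1, e2]
        have : ‖(2:ℂ)‖ = 2 := by simp
        rw [this]
        ring
      have b1 : ‖s‖ ≤ 2 * (1 + t) := by
        have := O20_norm_le s 2 (abs_le.2 ⟨by linarith, hs2⟩)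
        rw [hsim] at this
        linarith
      have b2 : ‖(2 * (Real.pi:ℂ)) ^ (-s)‖ ≤ 1 := by
        have : (2 * (Real.pi:ℂ)) = ((2 * Real.pi : ℝ) : ℂ) := by push_cast; ring
        rw [this, Complex.norm_cpow_eq_rpow_re_of_pos (by positivity)]
        apply Real.rpow_le_one_of_one_le_of_nonpos
        · have := Real.pi_gt_three; linarith
        · rw [Complex.neg_re]; linarith
      have b3 : ‖Complex.Gamma s‖ ≤ K := by
        have h1 : ‖Complex.Gamma s‖ ≤ Real.Gamma s.re := by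
          have hs0 : 0 < s.re := by linarith
          rw [Complex.Gamma_eq_integral hs0, Real.Gamma_eq_integral hs0, Complex.GammaIntegral]
          refine (norm_integral_le_integral_norm _).trans (le_of_eq ?_)
          refine setIntegral_congr_fun measurableSet_Ioi fun x hx => ?_
          have hx' : (0:ℝ) < x := hx
          rw [norm_mul, Complex.norm_cpow_eq_rpow_re_of_pos hx', Complex.norm_real,
            Real.norm_eq_abs, abs_of_pos (Real.exp_pos _)]
          simp
        exact h1.trans (hK _ ⟨hs34, hs2⟩)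
      have b4 : ‖Complex.sin (Real.pi * w / 2)‖ ≤ Real.exp (Real.pi * t / 2) * (Real.pi / 2) * ‖w‖ := by
        have h1 := O20_sin (Real.pi * w / 2)
        have e1 : ((Real.pi : ℂ) * w / 2).im = Real.pi * w.im / 2 := by
          have : (Real.pi : ℂ) * w / 2 = ((Real.pi / 2 : ℝ) : ℂ) * w := by push_cast; ring
          rw [this, Complex.re_ofReal_mul |> fun _ => Complex.im_ofReal_mul]
          ring
        have e2 : ‖(Real.pi : ℂ) * w / 2‖ = Real.pi / 2 * ‖w‖ := by
          rw [norm_div, norm_mul, Complex.norm_real, Real.norm_eq_abs, abs_of_pos hpi]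
          simp
          ring
        rw [e1, e2] at h1
        have e3 : |Real.pi * w.im / 2| = Real.pi * t / 2 := by
          rw [abs_div, abs_mul, abs_of_pos hpi, ht]
          norm_num
        rw [e3] at h1
        linarith
      have b5 : ‖(s - 1) * riemannZeta s‖ ≤ 10 * (1 + t) ^ 2 * 4 := by
        have h := O20_right s (by linarith) 2 (by norm_num) hs2 hs1
        rw [hsim] at h
        nlinarith
      have hexp : (1 + t) ^ 3 ≤ 16 * Real.exp (6 / 5 * t) := by
        have h1 : 1 + 2 / 5 * t ≤ Real.exp (2 / 5 * t) := by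
          linarith [Real.add_one_le_exp (2 / 5 * t)]
        have h2 : 1 + t ≤ 5 / 2 * Real.exp (2 / 5 * t) := by linarith
        have h3 : (1 + t) ^ 3 ≤ (5 / 2 * Real.exp (2 / 5 * t)) ^ 3 := by
          gcongr
        have h4 : (5 / 2 * Real.exp (2 / 5 * t)) ^ 3 = 125 / 8 * Real.exp (6 / 5 * t) := by
          rw [mul_pow, ← Real.exp_nat_mul]
          have e1 : ((3 : ℕ) : ℝ) * (2 / 5 * t) = 6 / 5 * t := by push_cast; ring
          rw [e1]
          norm_num
        rw [h4] at h3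
        have := Real.exp_pos (6 / 5 * t)
        linarith
      have hexp' : Real.exp (6 / 5 * t) * Real.exp (Real.pi * t / 2) ≤ Real.exp (3 * t) := by
        rw [← Real.exp_add]
        apply Real.exp_le_exp.2
        nlinarith
      have hfin : ‖(w - 1) * riemannZeta w‖ * ‖w‖ ≤
          ((80 * Real.pi * K * 16) * Real.exp (3 * t)) * ‖w‖ := by
        rw [hkey]
        calc ‖s‖ * (2 * ‖(2 * (Real.pi:ℂ)) ^ (-s)‖ * ‖Complex.Gamma s‖ *
              ‖Complex.sin (Real.pi * w / 2)‖ * ‖(s - 1) * riemannZeta s‖)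
            ≤ (2 * (1 + t)) * (2 * 1 * K * (Real.exp (Real.pi * t / 2) * (Real.pi / 2) * ‖w‖) *
              (10 * (1 + t) ^ 2 * 4)) := by
              gcongr
          _ = (80 * Real.pi * K) * ((1 + t) ^ 3 * Real.exp (Real.pi * t / 2)) * ‖w‖ := by ring
          _ ≤ (80 * Real.pi * K) * ((16 * Real.exp (6 / 5 * t)) * Real.exp (Real.pi * t / 2)) * ‖w‖ := by
              gcongr
          _ = (80 * Real.pi * K * 16) * (Real.exp (6 / 5 * t) * Real.exp (Real.pi * t / 2)) * ‖w‖ := by ring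
          _ ≤ _ := by gcongr
      have hlast := le_of_mul_le_mul_right hfin hwpos
      refine hlast.trans ?_
      apply mul_le_mul_of_nonneg_right _ (Real.exp_pos _).le
      linarith

theorem O20_zeta_inv : ∃ C : ℝ, 1 ≤ C ∧ ∀ w : ℂ, 3/2 ≤ w.re → ‖(riemannZeta w)⁻¹‖ ≤ C ∧ riemannZeta w ≠ 0 := by
  have hsum : Summable (fun n : ℕ => 1 / (n : ℝ) ^ (3/2 : ℝ)) :=
    Real.summable_one_div_nat_rpow.2 (by norm_num)
  have hnn : ∀ n : ℕ, 0 ≤ 1 / (n : ℝ) ^ (3/2 : ℝ) := fun n => by positivity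
  refine ⟨1 + ∑' n : ℕ, 1 / (n : ℝ) ^ (3/2 : ℝ), by
    have : 0 ≤ ∑' n : ℕ, 1 / (n : ℝ) ^ (3/2 : ℝ) := tsum_nonneg hnn
    linarith, ?_⟩
  intro w hw
  have hw1 : 1 < w.re := by linarith
  refine ⟨?_, riemannZeta_ne_zero_of_one_lt_re hw1⟩
  have hmul := ArithmeticFunction.LSeries_zeta_mul_Lseries_moebius hw1
  rw [ArithmeticFunction.LSeries_zeta_eq_riemannZeta hw1] at hmul
  rw [inv_eq_of_mul_eq_one_right hmul, LSeries]
  have hterm : ∀ n : ℕ, ‖LSeries.term (fun n => ((ArithmeticFunction.moebius n : ℤ) : ℂ)) w n‖ ≤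
      1 / (n : ℝ) ^ (3/2 : ℝ) := by
    intro n
    rw [LSeries.norm_term_eq]
    by_cases hn : n = 0
    · rw [if_pos hn]; exact hnn n
    · rw [if_neg hn]
      have hn1 : (1 : ℝ) ≤ n := by exact_mod_cast Nat.one_le_iff_ne_zero.2 hn
      have hmu : ‖((ArithmeticFunction.moebius n : ℤ) : ℂ)‖ ≤ 1 := by
        rw [Complex.norm_intCast]
        exact_mod_cast ArithmeticFunction.abs_moebius_le_one
      apply div_le_div₀ (by norm_num) hmu (by positivity)
      exact Real.rpow_le_rpow_of_exponent_le hn1 hw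
  have hs2 : Summable (fun n : ℕ => ‖LSeries.term (fun n => ((ArithmeticFunction.moebius n : ℤ) : ℂ)) w n‖) :=
    Summable.of_nonneg_of_le (fun n => norm_nonneg _) hterm hsum
  calc _ ≤ ∑' n : ℕ, ‖LSeries.term (fun n => ((ArithmeticFunction.moebius n : ℤ) : ℂ)) w n‖ :=
        norm_tsum_le_tsum_norm hs2
    _ ≤ ∑' n : ℕ, 1 / (n : ℝ) ^ (3/2 : ℝ) := hs2.tsum_le_tsum hterm hsum
    _ ≤ _ := by linarith

end Pool.Agent.LibF4
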