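import Mathlib
import Pool.Agent.LibF4.ODefs
import Pool.Agent.LibF4.O20

/-! Row O21.
N z = e^{z²} Z(1+s-z) * (-1) * Z(1+s+z), Z(w) = entire extension of (w-1)ζ(w) (e.g. riemannZeta₁ or Function.update; differentiable: differentiableAt_riemannZeta and removable singularity riemannZeta_residue_one). (z-s) = -((1+s-z)-1), (z+s) = (1+s+z)-1. Bound: |e^{z²}| = e^{x²-y²}, O20 with |Im| ≤ |y|+1/4; real parts in [-3/4, 11/4].
-/

set_option autoImplicit false

namespace Pool.Agent.LibF4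

open MeasureTheory Set Filter Topology Complex
open scoped ComplexConjugate

theorem O21_zb {C : ℝ} (hC : 1 ≤ C) (h : ∀ w : ℂ, -1 ≤ w.re → w.re ≤ 3 → w ≠ 1 →
    ‖(w - 1) * riemannZeta w‖ ≤ C * Real.exp (3 * |w.im|)) (w : ℂ) (h1 : -1 ≤ w.re)
    (h2 : w.re ≤ 3) : ‖riemannZeta₁ w‖ ≤ C * Real.exp (3 * |w.im|) := by
  rcases eq_or_ne w 1 with rfl | hw
  · rw [riemannZeta₁_one, norm_one]
    calc (1 : ℝ) = 1 * 1 := (mul_one 1).symm
      _ ≤ C * Real.exp (3 * |(1 : ℂ).im|) :=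
        mul_le_mul hC (Real.one_le_exp (by positivity)) zero_le_one (zero_le_one.trans hC)
  · have h3 := h w h1 h2 hw
    have h4 : (w - 1) * riemannZeta w = riemannZeta₁ w := by
      rw [riemannZeta_eq_inv_sub_mul hw, ← mul_assoc, mul_inv_cancel₀ (sub_ne_zero.2 hw),
        one_mul]
    rwa [h4] at h3

theorem O21_real (x y : ℝ) (hx : |x| ≤ 3 / 2) :
    x ^ 2 - y ^ 2 + 6 * |y| + 3 / 2 ≤ 22 + -(y ^ 2 / 2) := by
  have h1 : x ^ 2 ≤ (3 / 2) ^ 2 := by
    rw [← sq_abs x]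
    exact pow_le_pow_left₀ (abs_nonneg x) hx 2
  have h2 : 0 ≤ (|y| - 6) ^ 2 := sq_nonneg _
  have h3 : |y| ^ 2 = y ^ 2 := sq_abs y
  nlinarith

/-- O21: the kernel `Kz` -/
theorem O21_Kz : ∃ C : ℝ, 1 ≤ C ∧ ∀ s : ℂ, ‖s‖ ≤ 1/4 → ∃ N : ℂ → ℂ, Differentiable ℂ N ∧
    (∀ z : ℂ, z ≠ 0 → z ≠ s → z ≠ -s → N z = z * (z - s) * (z + s) * Kz s z) ∧
    (∀ z : ℂ, |z.re| ≤ 3/2 → ‖N z‖ ≤ C * Real.exp (-(z.im ^ 2 / 2))) := by
  obtain ⟨C, hC, H⟩ := O20_zeta
  have hC0 : 0 ≤ C := zero_le_one.trans hC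
  refine ⟨C * C * Real.exp 22, ?_, fun s hs => ?_⟩
  · have h1 : (1 : ℝ) ≤ Real.exp 22 := Real.one_le_exp (by norm_num)
    have h2 : 1 ≤ C * C := one_le_mul_of_one_le_of_one_le hC hC
    exact one_le_mul_of_one_le_of_one_le h2 h1
  refine ⟨fun z => -(cexp (z ^ 2) * riemannZeta₁ (1 + s - z) * riemannZeta₁ (1 + s + z)),
    ?_, ?_, ?_⟩
  · have h1 : Differentiable ℂ (fun z : ℂ => cexp (z ^ 2)) := (differentiable_id.pow 2).cexp
    have h2 : Differentiable ℂ (fun z : ℂ => riemannZeta₁ (1 + s - z)) :=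
      differentiable_riemannZeta₁.comp (differentiable_id.const_sub (1 + s))
    have h3 : Differentiable ℂ (fun z : ℂ => riemannZeta₁ (1 + s + z)) :=
      differentiable_riemannZeta₁.comp (differentiable_id.const_add (1 + s))
    exact ((h1.mul h2).mul h3).neg
  · intro z hz hzs hzs'
    have h1 : (1 + s - z) ≠ 1 := by
      intro h
      apply hzs
      linear_combination -h
    have h2 : (1 + s + z) ≠ 1 := by
      intro h
      apply hzs'
      linear_combination h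
    have h3 : z - s ≠ 0 := sub_ne_zero.2 hzs
    have h4 : z + s ≠ 0 := fun h => hzs' (eq_neg_of_add_eq_zero_left h)
    change -(cexp (z ^ 2) * riemannZeta₁ (1 + s - z) * riemannZeta₁ (1 + s + z)) =
      z * (z - s) * (z + s) * (cexp (z ^ 2) / z * riemannZeta (1 + s - z) * riemannZeta (1 + s + z))
    rw [riemannZeta_eq_inv_sub_mul h1, riemannZeta_eq_inv_sub_mul h2]
    have e1 : (1 + s - z - 1 : ℂ) = -(z - s) := by ring
    have e2 : (1 + s + z - 1 : ℂ) = z + s := by ring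
    rw [e1, e2]
    field_simp
  · intro z hz
    have hs1 : |s.re| ≤ 1 / 4 := (Complex.abs_re_le_norm s).trans hs
    have hs2 : |s.im| ≤ 1 / 4 := (Complex.abs_im_le_norm s).trans hs
    rw [abs_le] at hs1 hz
    have b1 := O21_zb hC H (1 + s - z) (by simp only [sub_re, add_re, one_re]; linarith [hz.1, hz.2])
      (by simp only [sub_re, add_re, one_re]; linarith [hz.1, hz.2])
    have b2 := O21_zb hC H (1 + s + z) (by simp only [add_re, one_re]; linarith [hz.1, hz.2])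
      (by simp only [add_re, one_re]; linarith [hz.1, hz.2])
    have i1 : |(1 + s - z).im| ≤ |z.im| + 1 / 4 := by
      simp only [sub_im, add_im, one_im, zero_add]
      have := abs_sub s.im z.im
      linarith
    have i2 : |(1 + s + z).im| ≤ |z.im| + 1 / 4 := by
      simp only [add_im, one_im, zero_add]
      have := abs_add_le s.im z.im
      linarith
    have c1 : ‖riemannZeta₁ (1 + s - z)‖ ≤ C * Real.exp (3 * (|z.im| + 1 / 4)) :=
      b1.trans (mul_le_mul_of_nonneg_left (Real.exp_le_exp.2 (by linarith)) hC0)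
    have c2 : ‖riemannZeta₁ (1 + s + z)‖ ≤ C * Real.exp (3 * (|z.im| + 1 / 4)) :=
      b2.trans (mul_le_mul_of_nonneg_left (Real.exp_le_exp.2 (by linarith)) hC0)
    have c3 : ‖cexp (z ^ 2)‖ = Real.exp (z.re ^ 2 - z.im ^ 2) := by
      rw [Complex.norm_exp]
      congr 1
      simp only [sq, Complex.mul_re]
    have hz' : |z.re| ≤ 3 / 2 := abs_le.2 hz
    change ‖-(cexp (z ^ 2) * riemannZeta₁ (1 + s - z) * riemannZeta₁ (1 + s + z))‖ ≤ _
    rw [norm_neg, norm_mul, norm_mul, c3]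
    calc Real.exp (z.re ^ 2 - z.im ^ 2) * ‖riemannZeta₁ (1 + s - z)‖ *
          ‖riemannZeta₁ (1 + s + z)‖
        ≤ Real.exp (z.re ^ 2 - z.im ^ 2) * (C * Real.exp (3 * (|z.im| + 1 / 4))) *
          (C * Real.exp (3 * (|z.im| + 1 / 4))) := by
          refine mul_le_mul (mul_le_mul_of_nonneg_left c1 (Real.exp_pos _).le) c2
            (norm_nonneg _) (by positivity)
      _ = C * C * Real.exp (z.re ^ 2 - z.im ^ 2 + 6 * |z.im| + 3 / 2) := by
          have : z.re ^ 2 - z.im ^ 2 + 6 * |z.im| + 3 / 2 =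
            (z.re ^ 2 - z.im ^ 2) + 3 * (|z.im| + 1 / 4) + 3 * (|z.im| + 1 / 4) := by ring
          rw [this, Real.exp_add, Real.exp_add]
          ring
      _ ≤ C * C * Real.exp (22 + -(z.im ^ 2 / 2)) :=
          mul_le_mul_of_nonneg_left (Real.exp_le_exp.2 (O21_real _ _ hz')) (mul_nonneg hC0 hC0)
      _ = C * C * Real.exp 22 * Real.exp (-(z.im ^ 2 / 2)) := by
          rw [Real.exp_add, mul_assoc (C * C)]

end Pool.Agent.LibF4
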