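import Mathlib
import Pool.Agent.LibF4.ODefs
import Pool.Agent.LibM3.A2

/-! Row O22.
Cf. LibM3.A2 contour_shift and LibZM vertical_shift. N(z)/(z-a) = (N(z) - N(a)e^{(z-a)²/4})/(z-a) + N(a) e^{(z-a)²/4}/(z-a). First part is analytic in the strip with Gaussian decay: rectangle theorem, height → ∞: difference zero. Second: (1/2π)∫ e^{(z-a)²/4}/(z-a) over Re z = c minus over Re z = c' equals 1
(shift each to Re(z-a) = ±1; on these symmetric lines the sum is 1 as in contour_shift with Ψ = e^{z²/4}). Careful: DifferentiableAt on the closed strip gives an analytic neighbourhood.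
-/

set_option autoImplicit false

namespace Pool.Agent.LibF4

open MeasureTheory Set Filter Topology Complex
open scoped ComplexConjugate

theorem O22_re (x y : ℝ) : ((x : ℂ) + y * I).re = x := by simp

theorem O22_im (x y : ℝ) : ((x : ℂ) + y * I).im = y := by simp

/-- the value on the right of the pole -/
theorem O22_right {c : ℝ} {a : ℂ} (h : a.re < c) :
    ∫ y : ℝ, cexp (((c : ℂ) + y * I - a) ^ 2) / ((c : ℂ) + y * I - a) = (Real.pi : ℂ) := by
  have h1 := LibM3.a2_const (c := c - a.re) (by linarith)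
  rw [← integral_sub_right_eq_self _ a.im] at h1
  rw [← h1]
  congr 1
  funext y
  have h2 : (c : ℂ) + y * I - a = ((c - a.re : ℝ) : ℂ) + ((y - a.im : ℝ) : ℂ) * I := by
    apply Complex.ext <;> simp
  rw [h2]

/-- the value on the left of the pole -/
theorem O22_left {c : ℝ} {a : ℂ} (h : c < a.re) :
    ∫ y : ℝ, cexp (((c : ℂ) + y * I - a) ^ 2) / ((c : ℂ) + y * I - a) = -(Real.pi : ℂ) := by
  have h1 := LibM3.a2_const (c := a.re - c) (by linarith)
  rw [← integral_sub_left_eq_self _ _ a.im] at h1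
  rw [← h1, ← integral_neg]
  congr 1
  funext y
  have h2 : (c : ℂ) + y * I - a = -(((a.re - c : ℝ) : ℂ) + ((a.im - y : ℝ) : ℂ) * I) := by
    apply Complex.ext <;> simp
  rw [h2, neg_sq, div_neg]

theorem O22_gauss_int {b : ℝ} (hb : 0 < b) (t : ℝ) :
    Integrable (fun y : ℝ => Real.exp (-b * (y - t) ^ 2)) :=
  (integrable_exp_neg_mul_sq hb).comp_sub_right t

theorem O22_gauss_top {b : ℝ} (hb : 0 < b) (t : ℝ) :
    Tendsto (fun y : ℝ => Real.exp (-b * (y - t) ^ 2)) atTop (𝓝 0) := by
  apply Real.tendsto_exp_atBot.comp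
  have h1 : Tendsto (fun y : ℝ => y - t) atTop atTop := tendsto_atTop_add_const_right _ _ tendsto_id
  have h2 : Tendsto (fun y : ℝ => (y - t) ^ 2) atTop atTop := (tendsto_pow_atTop (by norm_num)).comp h1
  exact h2.const_mul_atTop_of_neg (by linarith)

theorem O22_gauss_bot {b : ℝ} (hb : 0 < b) (t : ℝ) :
    Tendsto (fun y : ℝ => Real.exp (-b * (y - t) ^ 2)) atBot (𝓝 0) := by
  have h := (O22_gauss_top hb (-t)).comp tendsto_neg_atBot_atTop
  refine h.congr fun y => ?_
  simp only [Function.comp]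
  congr 1
  ring

theorem O22_norm_exp (z : ℂ) : ‖cexp (z ^ 2)‖ = Real.exp (z.re ^ 2 - z.im ^ 2) := by
  rw [Complex.norm_exp]
  congr 1
  simp [pow_two]

/-- O22: shifting a line over a simple pole -/
theorem O22_shift {N : ℂ → ℂ} {c c' K : ℝ} (hcc : c' < c)
    (hN : ∀ z : ℂ, c' ≤ z.re → z.re ≤ c → DifferentiableAt ℂ N z)
    (hb : ∀ z : ℂ, c' ≤ z.re → z.re ≤ c → ‖N z‖ ≤ K * Real.exp (-(z.im ^ 2 / 4))) {a : ℂ} (ha : c' < a.re) (ha' : a.re < c) :
    VL c (fun z => N z / (z - a)) - VL c' (fun z => N z / (z - a)) = N a := by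
  have hK : 0 ≤ K := by
    have h1 := hb a ha.le ha'.le
    have h2 := (norm_nonneg _).trans h1
    exact nonneg_of_mul_nonneg_left h2 (Real.exp_pos _)
  set f : ℂ → ℂ := fun z => N z - N a * cexp ((z - a) ^ 2) with hf
  have hfd : ∀ z : ℂ, c' ≤ z.re → z.re ≤ c → DifferentiableAt ℂ f z := by
    intro z h1 h2
    exact (hN z h1 h2).sub (by fun_prop)
  have hfa : f a = 0 := by simp [hf]
  set g : ℂ → ℂ := dslope f a with hg
  have hgd : ∀ z : ℂ, c' ≤ z.re → z.re ≤ c → DifferentiableAt ℂ g z := by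
    intro z h1 h2
    by_cases hza : z = a
    · have hopen : IsOpen {z : ℂ | c' < z.re ∧ z.re < c} :=
        (isOpen_lt continuous_const continuous_re).inter (isOpen_lt continuous_re continuous_const)
      have hnh : {z : ℂ | c' < z.re ∧ z.re < c} ∈ 𝓝 a := hopen.mem_nhds ⟨ha, ha'⟩
      have hdo : DifferentiableOn ℂ f {z : ℂ | c' < z.re ∧ z.re < c} := fun z hz =>
        (hfd z hz.1.le hz.2.le).differentiableWithinAt
      have := (Complex.differentiableOn_dslope hnh).2 hdo
      rw [hza]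
      exact this.differentiableAt hnh
    · exact (differentiableAt_dslope_of_ne hza).2 (hfd z h1 h2)
  have hgq : ∀ z : ℂ, z ≠ a → g z = f z / (z - a) := by
    intro z hz
    rw [hg, dslope_of_ne _ hz, slope_def_field, hfa, sub_zero]
  -- bound of `g` near the pole
  have hcpt : IsCompact (Metric.closedBall a 1 ∩ {z : ℂ | c' ≤ z.re ∧ z.re ≤ c}) :=
    (isCompact_closedBall a 1).inter_right
      ((isClosed_le continuous_const continuous_re).inter (isClosed_le continuous_re continuous_const))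
  have hgc : ContinuousOn g (Metric.closedBall a 1 ∩ {z : ℂ | c' ≤ z.re ∧ z.re ≤ c}) := fun z hz =>
    (hgd z hz.2.1 hz.2.2).continuousAt.continuousWithinAt
  obtain ⟨M, hM⟩ := hcpt.exists_bound_of_continuousOn hgc
  have hM0 : 0 ≤ M := (norm_nonneg _).trans (hM a ⟨Metric.mem_closedBall_self (by norm_num), ha.le, ha'.le⟩)
  set G : ℝ → ℝ := fun y => K * Real.exp (-(1/4) * (y - 0) ^ 2) +
    (‖N a‖ * Real.exp ((c - c') ^ 2) + M * Real.exp 1) * Real.exp (-1 * (y - a.im) ^ 2) with hG
  have hGint : Integrable G :=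
    ((O22_gauss_int (by norm_num) 0).const_mul _).add ((O22_gauss_int (by norm_num) a.im).const_mul _)
  have hGtop : Tendsto G atTop (𝓝 0) := by
    have := ((O22_gauss_top (b := 1/4) (by norm_num) 0).const_mul K).add
      ((O22_gauss_top (b := 1) (by norm_num) a.im).const_mul (‖N a‖ * Real.exp ((c - c') ^ 2) + M * Real.exp 1))
    simpa [hG] using this
  have hGbot : Tendsto G atBot (𝓝 0) := by
    have := ((O22_gauss_bot (b := 1/4) (by norm_num) 0).const_mul K).add
      ((O22_gauss_bot (b := 1) (by norm_num) a.im).const_mul (‖N a‖ * Real.exp ((c - c') ^ 2) + M * Real.exp 1))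
    simpa [hG] using this
  have hbd : ∀ x ∈ Icc c' c, ∀ y : ℝ, ‖g (x + y * I)‖ ≤ G y := by
    intro x hx y
    have hzr : c' ≤ ((x : ℂ) + y * I).re ∧ ((x : ℂ) + y * I).re ≤ c := by
      rw [O22_re]; exact hx
    have e1 : 0 ≤ K * Real.exp (-(1/4) * (y - 0) ^ 2) := by positivity
    have e2 : 0 ≤ ‖N a‖ * Real.exp ((c - c') ^ 2) * Real.exp (-1 * (y - a.im) ^ 2) := by positivity
    have e3 : 0 ≤ M * Real.exp 1 * Real.exp (-1 * (y - a.im) ^ 2) := by positivity
    have eG : G y = K * Real.exp (-(1/4) * (y - 0) ^ 2) +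
        ‖N a‖ * Real.exp ((c - c') ^ 2) * Real.exp (-1 * (y - a.im) ^ 2) +
        M * Real.exp 1 * Real.exp (-1 * (y - a.im) ^ 2) := by
      simp only [hG]; ring
    rw [eG]
    by_cases hd : dist ((x : ℂ) + y * I) a ≤ 1
    · have h1 := hM ((x : ℂ) + y * I) ⟨Metric.mem_closedBall.2 hd, hzr⟩
      have h2 : |y - a.im| ≤ 1 := by
        have h3 := Complex.abs_im_le_norm ((x : ℂ) + y * I - a)
        rw [Complex.sub_im, O22_im] at h3
        rw [dist_eq_norm] at hd
        exact h3.trans hd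
      have h3 : (y - a.im) ^ 2 ≤ 1 := by
        rw [← sq_abs]
        have := abs_nonneg (y - a.im)
        nlinarith
      have h4 : (1 : ℝ) ≤ Real.exp 1 * Real.exp (-1 * (y - a.im) ^ 2) := by
        rw [← Real.exp_add]
        apply Real.one_le_exp
        linarith
      have h5 : M ≤ M * Real.exp 1 * Real.exp (-1 * (y - a.im) ^ 2) := by
        have := mul_le_mul_of_nonneg_left h4 hM0
        rw [mul_one, ← mul_assoc] at this
        exact this
      linarith
    · rw [not_le, dist_eq_norm] at hd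
      have hne : (x : ℂ) + y * I ≠ a := by
        intro h
        rw [h, sub_self, norm_zero] at hd
        linarith
      rw [hgq _ hne, norm_div]
      have h1 : ‖f ((x : ℂ) + y * I)‖ / ‖(x : ℂ) + y * I - a‖ ≤ ‖f ((x : ℂ) + y * I)‖ := by
        rw [div_le_iff₀ (by linarith)]
        nlinarith [norm_nonneg (f ((x : ℂ) + y * I))]
      have h2 : ‖f ((x : ℂ) + y * I)‖ ≤ K * Real.exp (-(1/4) * (y - 0) ^ 2) +
          ‖N a‖ * Real.exp ((c - c') ^ 2) * Real.exp (-1 * (y - a.im) ^ 2) := by
        refine (norm_sub_le _ _).trans (add_le_add ?_ ?_)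
        · refine (hb _ hzr.1 hzr.2).trans (le_of_eq ?_)
          rw [O22_im]
          congr 2
          ring
        · rw [norm_mul, O22_norm_exp, mul_assoc, ← Real.exp_add]
          apply mul_le_mul_of_nonneg_left _ (norm_nonneg _)
          apply Real.exp_le_exp.2
          rw [Complex.sub_re, Complex.sub_im, O22_re, O22_im]
          have h3 : (x - a.re) ^ 2 ≤ (c - c') ^ 2 := by
            apply sq_le_sq'
            · linarith [hx.1, hx.2]
            · linarith [hx.1, hx.2]
          linarith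
      linarith
  obtain ⟨hgint, hgeq⟩ := LibZM.vertical_shift hcc.le hgd hGint hGtop hGbot hbd
  have key : ∀ x : ℝ, x ∈ Icc c' c → x ≠ a.re →
      VL x (fun z => N z / (z - a)) = ((1 / (2 * Real.pi) : ℝ) : ℂ) * (∫ y : ℝ, g (x + y * I)) +
        N a * (((1 / (2 * Real.pi) : ℝ) : ℂ) *
          ∫ y : ℝ, cexp (((x : ℂ) + y * I - a) ^ 2) / ((x : ℂ) + y * I - a)) := by
    intro x hx hxa
    have hne : ∀ y : ℝ, (x : ℂ) + y * I - a ≠ 0 := by
      intro y h
      apply hxa
      have := congrArg Complex.re h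
      rw [Complex.sub_re, O22_re, Complex.zero_re] at this
      linarith
    have hlow : ∀ y : ℝ, |x - a.re| ≤ ‖(x : ℂ) + y * I - a‖ := by
      intro y
      have := Complex.abs_re_le_norm ((x : ℂ) + y * I - a)
      rwa [Complex.sub_re, O22_re] at this
    have hpos : 0 < |x - a.re| := abs_pos.2 (sub_ne_zero.2 hxa)
    have hEint : Integrable (fun y : ℝ => cexp (((x : ℂ) + y * I - a) ^ 2) / ((x : ℂ) + y * I - a)) := by
      refine Integrable.mono' ((O22_gauss_int (b := 1) (by norm_num) a.im).const_mul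
        (Real.exp ((x - a.re) ^ 2) / |x - a.re|)) ?_ (ae_of_all _ fun y => ?_)
      · refine (Continuous.div (by fun_prop) (by fun_prop) hne).aestronglyMeasurable
      · rw [norm_div, O22_norm_exp, Complex.sub_re, Complex.sub_im, O22_re, O22_im, div_mul_eq_mul_div,
          ← Real.exp_add]
        apply div_le_div₀ (Real.exp_pos _).le _ hpos (hlow y)
        apply Real.exp_le_exp.2
        linarith
    have hsum : ∫ y : ℝ, N ((x : ℂ) + y * I) / ((x : ℂ) + y * I - a) = (∫ y : ℝ, g (x + y * I)) +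
        N a * ∫ y : ℝ, cexp (((x : ℂ) + y * I - a) ^ 2) / ((x : ℂ) + y * I - a) := by
      rw [← integral_const_mul, ← integral_add (hgint x hx) (hEint.const_mul _)]
      congr 1
      funext y
      rw [hgq _ (sub_ne_zero.1 (hne y)), ← mul_div_assoc, ← add_div]
      congr 1
      simp only [hf]
      ring
    unfold VL
    rw [hsum]
    ring
  rw [key c ⟨hcc.le, le_rfl⟩ ha'.ne', key c' ⟨le_rfl, hcc.le⟩ ha.ne, hgeq, O22_right ha', O22_left ha]
  have hpi : (Real.pi : ℂ) ≠ 0 := by exact_mod_cast Real.pi_ne_zero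
  generalize (∫ y : ℝ, g (c + y * I)) = J
  push_cast
  field_simp
  ring

end Pool.Agent.LibF4
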