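import Mathlib
import Pool.Agent.LibF4.ODefs
import Pool.Agent.LibF4.O22

/-! Row O22b.
For |z| > ρ: z^{-5} = Av ρ (fun a => a^{-4}/(z-a)) (coefficient extraction: 1/(z-a) = ∑ a^k/z^{k+1}, or Cauchy). Choose ρ' = ρ. So VL c (N/z^5) = Av ρ (fun a => a^{-4} VL c (N/(z-a))) by Fubini (continuous, Gaussian decay, |z-a| ≥ c-ρ), the same for c'; the difference is Av ρ (a^{-4} N(a)) = Av ρ (a (N a/a^5)) by O22.
-/

set_option autoImplicit false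

namespace Pool.Agent.LibF4

open MeasureTheory Set Filter Topology Complex
open scoped ComplexConjugate

theorem O22b_ci {ρ : ℝ} (hρ : 0 < ρ) {n : ℤ} (hn : n ≠ -1) :
    CircleIntegrable (fun a : ℂ => a ^ n) 0 ρ ∧ ∮ a in C(0, ρ), a ^ n = 0 := by
  constructor
  · apply ContinuousOn.circleIntegrable hρ.le
    intro a ha
    have ha0 : a ≠ 0 := by
      rintro rfl
      rw [Metric.mem_sphere, dist_self] at ha
      linarith
    exact (continuousAt_zpow₀ a n (Or.inl ha0)).continuousWithinAt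
  · have := circleIntegral.integral_sub_zpow_of_ne hn 0 0 ρ
    simpa using this

theorem O22b_ci1 {ρ : ℝ} (hρ : 0 < ρ) :
    CircleIntegrable (fun a : ℂ => a⁻¹) 0 ρ ∧ ∮ a in C(0, ρ), a⁻¹ = 2 * Real.pi * I := by
  constructor
  · apply ContinuousOn.circleIntegrable hρ.le
    intro a ha
    have ha0 : a ≠ 0 := by
      rintro rfl
      rw [Metric.mem_sphere, dist_self] at ha
      linarith
    exact (continuousAt_inv₀ ha0).continuousWithinAt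
  · have := circleIntegral.integral_sub_center_inv 0 hρ.ne'
    simpa using this

theorem O22b_ci2 {ρ : ℝ} (hρ : 0 < ρ) {z : ℂ} (hz : ρ < ‖z‖) :
    CircleIntegrable (fun a : ℂ => (z - a)⁻¹) 0 ρ ∧ ∮ a in C(0, ρ), (z - a)⁻¹ = 0 := by
  have hne : ∀ a ∈ Metric.closedBall (0:ℂ) ρ, z - a ≠ 0 := by
    intro a ha h
    rw [Metric.mem_closedBall, dist_zero_right] at ha
    rw [sub_eq_zero] at h
    rw [h] at hz
    linarith
  have hcont : ContinuousOn (fun a : ℂ => (z - a)⁻¹) (Metric.closedBall 0 ρ) := by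
    intro a ha
    exact ((continuousAt_const.sub continuousAt_id).inv₀ (hne a ha)).continuousWithinAt
  constructor
  · exact (hcont.mono Metric.sphere_subset_closedBall).circleIntegrable hρ.le
  · apply Complex.circleIntegral_eq_zero_of_differentiable_on_off_countable hρ.le countable_empty hcont
    intro a ha
    have ha' := hne a (Metric.ball_subset_closedBall ha.1)
    exact ((differentiableAt_const z).sub differentiableAt_id).inv ha'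

theorem O22b_alg {z a : ℂ} (hz : z ≠ 0) (ha : a ≠ 0) (hza : z - a ≠ 0) :
    a⁻¹ * ((a ^ 4)⁻¹ * (z - a)⁻¹) =
      z⁻¹ * a ^ (-5:ℤ) + ((z ^ 2)⁻¹ * a ^ (-4:ℤ) + ((z ^ 3)⁻¹ * a ^ (-3:ℤ) + ((z ^ 4)⁻¹ * a ^ (-2:ℤ) +
        ((z ^ 5)⁻¹ * a⁻¹ + (z ^ 5)⁻¹ * (z - a)⁻¹)))) := by
  have e5 : a ^ (-5:ℤ) = (a ^ 5)⁻¹ := by rw [zpow_neg]; norm_cast
  have e4 : a ^ (-4:ℤ) = (a ^ 4)⁻¹ := by rw [zpow_neg]; norm_cast
  have e3 : a ^ (-3:ℤ) = (a ^ 3)⁻¹ := by rw [zpow_neg]; norm_cast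
  have e2 : a ^ (-2:ℤ) = (a ^ 2)⁻¹ := by rw [zpow_neg]; norm_cast
  rw [e5, e4, e3, e2]
  field_simp
  ring

theorem O22b_Av {ρ : ℝ} (hρ : 0 < ρ) (h : ℂ → ℂ) :
    Av ρ h = (2 * Real.pi * I)⁻¹ * ∮ a in C(0, ρ), a⁻¹ * h a := by
  unfold Av circleIntegral
  have h1 : ∀ θ : ℝ, deriv (circleMap 0 ρ) θ • ((circleMap 0 ρ θ)⁻¹ * h (circleMap 0 ρ θ)) =
      I * h (ρ * cexp (θ * I)) := by
    intro θ
    have h2 : circleMap 0 ρ θ = ρ * cexp (θ * I) := by simp [circleMap]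
    have h3 : (ρ : ℂ) * cexp (θ * I) ≠ 0 :=
      mul_ne_zero (by exact_mod_cast hρ.ne') (Complex.exp_ne_zero _)
    rw [deriv_circleMap, h2, smul_eq_mul]
    generalize (ρ : ℂ) * cexp (θ * I) = w at h3 ⊢
    calc w * I * (w⁻¹ * h w) = (w * w⁻¹) * (I * h w) := by ring
      _ = I * h w := by rw [mul_inv_cancel₀ h3, one_mul]
  simp_rw [h1]
  rw [intervalIntegral.integral_const_mul]
  have hpi : (Real.pi : ℂ) ≠ 0 := by exact_mod_cast Real.pi_ne_zero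
  have hI : I ≠ 0 := Complex.I_ne_zero
  generalize (∫ θ : ℝ in (0:ℝ)..(2 * Real.pi), h (ρ * cexp (θ * I))) = J
  push_cast
  field_simp

theorem O22b_avg {ρ : ℝ} (hρ : 0 < ρ) {z : ℂ} (hz : ρ < ‖z‖) :
    Av ρ (fun a => (a ^ 4)⁻¹ * (z - a)⁻¹) = (z ^ 5)⁻¹ := by
  have hz0 : z ≠ 0 := by
    rintro rfl
    rw [norm_zero] at hz
    linarith
  rw [O22b_Av hρ]
  have hcong : EqOn (fun a : ℂ => a⁻¹ * ((a ^ 4)⁻¹ * (z - a)⁻¹)) (fun a : ℂ =>
      z⁻¹ * a ^ (-5:ℤ) + ((z ^ 2)⁻¹ * a ^ (-4:ℤ) + ((z ^ 3)⁻¹ * a ^ (-3:ℤ) + ((z ^ 4)⁻¹ * a ^ (-2:ℤ) +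
        ((z ^ 5)⁻¹ * a⁻¹ + (z ^ 5)⁻¹ * (z - a)⁻¹))))) (Metric.sphere 0 ρ) := by
    intro a ha
    rw [mem_sphere_iff_norm, sub_zero] at ha
    apply O22b_alg hz0
    · rintro rfl
      rw [norm_zero] at ha
      linarith
    · intro h
      rw [sub_eq_zero] at h
      rw [h, ha] at hz
      exact lt_irrefl _ hz
  rw [circleIntegral.integral_congr hρ.le hcong]
  obtain ⟨c5, i5⟩ := O22b_ci hρ (n := -5) (by norm_num)
  obtain ⟨c4, i4⟩ := O22b_ci hρ (n := -4) (by norm_num)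
  obtain ⟨c3, i3⟩ := O22b_ci hρ (n := -3) (by norm_num)
  obtain ⟨c2, i2⟩ := O22b_ci hρ (n := -2) (by norm_num)
  obtain ⟨c1, i1⟩ := O22b_ci1 hρ
  obtain ⟨c0, i0⟩ := O22b_ci2 hρ hz
  have d5 : CircleIntegrable (fun a : ℂ => z⁻¹ * a ^ (-5:ℤ)) 0 ρ := c5.const_fun_smul
  have d4 : CircleIntegrable (fun a : ℂ => (z ^ 2)⁻¹ * a ^ (-4:ℤ)) 0 ρ := c4.const_fun_smul
  have d3 : CircleIntegrable (fun a : ℂ => (z ^ 3)⁻¹ * a ^ (-3:ℤ)) 0 ρ := c3.const_fun_smul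
  have d2 : CircleIntegrable (fun a : ℂ => (z ^ 4)⁻¹ * a ^ (-2:ℤ)) 0 ρ := c2.const_fun_smul
  have d1 : CircleIntegrable (fun a : ℂ => (z ^ 5)⁻¹ * a⁻¹) 0 ρ := c1.const_fun_smul
  have d0 : CircleIntegrable (fun a : ℂ => (z ^ 5)⁻¹ * (z - a)⁻¹) 0 ρ := c0.const_fun_smul
  have a1 : CircleIntegrable (fun a : ℂ => (z ^ 5)⁻¹ * a⁻¹ + (z ^ 5)⁻¹ * (z - a)⁻¹) 0 ρ := d1.add d0
  have a2 : CircleIntegrable (fun a : ℂ => (z ^ 4)⁻¹ * a ^ (-2:ℤ) +
      ((z ^ 5)⁻¹ * a⁻¹ + (z ^ 5)⁻¹ * (z - a)⁻¹)) 0 ρ := d2.add a1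
  have a3 : CircleIntegrable (fun a : ℂ => (z ^ 3)⁻¹ * a ^ (-3:ℤ) + ((z ^ 4)⁻¹ * a ^ (-2:ℤ) +
      ((z ^ 5)⁻¹ * a⁻¹ + (z ^ 5)⁻¹ * (z - a)⁻¹))) 0 ρ := d3.add a2
  have a4 : CircleIntegrable (fun a : ℂ => (z ^ 2)⁻¹ * a ^ (-4:ℤ) + ((z ^ 3)⁻¹ * a ^ (-3:ℤ) +
      ((z ^ 4)⁻¹ * a ^ (-2:ℤ) + ((z ^ 5)⁻¹ * a⁻¹ + (z ^ 5)⁻¹ * (z - a)⁻¹)))) 0 ρ := d4.add a3
  rw [circleIntegral.integral_add d5 a4,
    circleIntegral.integral_add d4 a3,
    circleIntegral.integral_add d3 a2,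
    circleIntegral.integral_add d2 a1,
    circleIntegral.integral_add d1 d0,
    circleIntegral.integral_const_mul, circleIntegral.integral_const_mul, circleIntegral.integral_const_mul,
    circleIntegral.integral_const_mul, circleIntegral.integral_const_mul, circleIntegral.integral_const_mul,
    i5, i4, i3, i2, i1, i0]
  have hpi : (2 * Real.pi * I : ℂ) ≠ 0 := by
    have h2 : (Real.pi : ℂ) ≠ 0 := by exact_mod_cast Real.pi_ne_zero
    exact mul_ne_zero (mul_ne_zero two_ne_zero h2) Complex.I_ne_zero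
  field_simp
  ring

/-- the circle -/
noncomputable def O22b_a (ρ θ : ℝ) : ℂ := ρ * cexp (θ * I)

theorem O22b_norm {ρ : ℝ} (hρ : 0 < ρ) (θ : ℝ) : ‖O22b_a ρ θ‖ = ρ := by
  unfold O22b_a
  rw [norm_mul, Complex.norm_exp_ofReal_mul_I, mul_one, Complex.norm_real, Real.norm_eq_abs, abs_of_pos hρ]

theorem O22b_ne {ρ : ℝ} (hρ : 0 < ρ) (θ : ℝ) : O22b_a ρ θ ≠ 0 := by
  intro h
  have := O22b_norm hρ θ
  rw [h, norm_zero] at this
  linarith

/-- one line -/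
theorem O22b_line {N : ℂ → ℂ} {c K ρ : ℝ} (hρ : 0 < ρ) (hc : ρ < |c|)
    (hN : Continuous fun y : ℝ => N ((c:ℂ) + y * I))
    (hb : ∀ y : ℝ, ‖N ((c:ℂ) + y * I)‖ ≤ K * Real.exp (-(y ^ 2 / 4))) :
    VL c (fun z => N z / z ^ 5) = Av ρ (fun a => (a ^ 4)⁻¹ * VL c (fun z => N z / (z - a))) ∧
    IntervalIntegrable (fun θ : ℝ => (fun a => (a ^ 4)⁻¹ * VL c (fun z => N z / (z - a))) (ρ * cexp (θ * I)))
      volume 0 (2 * Real.pi) := by
  have hzn : ∀ y : ℝ, |c| ≤ ‖(c:ℂ) + y * I‖ := by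
    intro y
    have := Complex.abs_re_le_norm ((c:ℂ) + y * I)
    simpa using this
  have hlow : ∀ y θ : ℝ, |c| - ρ ≤ ‖(c:ℂ) + y * I - O22b_a ρ θ‖ := by
    intro y θ
    have h1 := norm_sub_norm_le ((c:ℂ) + y * I) (O22b_a ρ θ)
    rw [O22b_norm hρ] at h1
    linarith [hzn y]
  have hne : ∀ y θ : ℝ, (c:ℂ) + y * I - O22b_a ρ θ ≠ 0 := by
    intro y θ h
    have h1 := hlow y θ
    rw [h, norm_zero] at h1
    linarith
  have hac : Continuous (O22b_a ρ) := by unfold O22b_a; fun_prop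
  set F : ℝ → ℝ → ℂ := fun y θ =>
    (O22b_a ρ θ ^ 4)⁻¹ * (N ((c:ℂ) + y * I) / ((c:ℂ) + y * I - O22b_a ρ θ)) with hF
  have hFc : Continuous (Function.uncurry F) := by
    have h1 : Continuous fun p : ℝ × ℝ => N ((c:ℂ) + p.1 * I) := hN.comp continuous_fst
    have h2 : Continuous fun p : ℝ × ℝ => O22b_a ρ p.2 := hac.comp continuous_snd
    have h3 : Continuous fun p : ℝ × ℝ => (c:ℂ) + p.1 * I - O22b_a ρ p.2 := by
      refine Continuous.sub ?_ h2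
      fun_prop
    exact ((h2.pow 4).inv₀ (fun p => pow_ne_zero 4 (O22b_ne hρ p.2))).mul (h1.div h3 (fun p => hne p.1 p.2))
  have hFi : Integrable (Function.uncurry F) (volume.prod (volume.restrict (Ioc 0 (2 * Real.pi)))) := by
    have h1 : Integrable (fun y : ℝ => K * Real.exp (-(1/4) * y ^ 2)) :=
      (integrable_exp_neg_mul_sq (by norm_num : (0:ℝ) < 1/4)).const_mul _
    have h2 : Integrable (fun _ : ℝ => (ρ ^ 4)⁻¹ * (|c| - ρ)⁻¹) (volume.restrict (Ioc 0 (2 * Real.pi))) :=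
      integrable_const _
    refine (h1.mul_prod h2).mono' hFc.aestronglyMeasurable (ae_of_all _ fun p => ?_)
    simp only [Function.uncurry, hF]
    rw [norm_mul, norm_inv, norm_pow, O22b_norm hρ, norm_div]
    have h3 := hb p.1
    have h4 : -(p.1 ^ 2 / 4) = -(1/4) * p.1 ^ 2 := by ring
    rw [h4] at h3
    have h5 := hlow p.1 p.2
    have h6 : 0 < |c| - ρ := by linarith
    have h7 : ‖N ((c:ℂ) + p.1 * I)‖ / ‖(c:ℂ) + p.1 * I - O22b_a ρ p.2‖ ≤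
        K * Real.exp (-(1/4) * p.1 ^ 2) / (|c| - ρ) :=
      div_le_div₀ ((norm_nonneg _).trans h3) h3 h6 h5
    calc (ρ ^ 4)⁻¹ * (‖N ((c:ℂ) + p.1 * I)‖ / ‖(c:ℂ) + p.1 * I - O22b_a ρ p.2‖)
        ≤ (ρ ^ 4)⁻¹ * (K * Real.exp (-(1/4) * p.1 ^ 2) / (|c| - ρ)) :=
          mul_le_mul_of_nonneg_left h7 (by positivity)
      _ = K * Real.exp (-(1/4) * p.1 ^ 2) * ((ρ ^ 4)⁻¹ * (|c| - ρ)⁻¹) := by
          rw [div_eq_mul_inv]; ring
  have hswap := integral_integral_swap hFi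
  have hpi : (Real.pi : ℂ) ≠ 0 := by exact_mod_cast Real.pi_ne_zero
  have hpi2 : (0:ℝ) ≤ 2 * Real.pi := by positivity
  have hin : ∀ y : ℝ, ((1 / (2 * Real.pi) : ℝ) : ℂ) * ∫ θ in Ioc 0 (2 * Real.pi), F y θ =
      N ((c:ℂ) + y * I) / ((c:ℂ) + y * I) ^ 5 := by
    intro y
    have h1 := O22b_avg hρ (z := (c:ℂ) + y * I) (lt_of_lt_of_le hc (hzn y))
    unfold Av at h1
    rw [intervalIntegral.integral_of_le hpi2] at h1
    have h2 : ∫ θ in Ioc 0 (2 * Real.pi), F y θ = N ((c:ℂ) + y * I) *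
        ∫ θ in Ioc 0 (2 * Real.pi), (fun a => (a ^ 4)⁻¹ * ((c:ℂ) + y * I - a)⁻¹) (ρ * cexp (θ * I)) := by
      rw [← integral_const_mul]
      congr 1
      funext θ
      simp only [hF, O22b_a]
      ring
    rw [h2, div_eq_mul_inv (N _), ← h1]
    ring
  have hout : ∀ θ : ℝ, ∫ y : ℝ, F y θ = (O22b_a ρ θ ^ 4)⁻¹ *
      ∫ y : ℝ, N ((c:ℂ) + y * I) / ((c:ℂ) + y * I - O22b_a ρ θ) := by
    intro θ
    rw [← integral_const_mul]
  constructor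
  · unfold VL Av
    simp only
    rw [intervalIntegral.integral_of_le hpi2]
    congr 1
    have h1 : (∫ y : ℝ, N ((c:ℂ) + y * I) / ((c:ℂ) + y * I) ^ 5) =
        ((1 / (2 * Real.pi) : ℝ) : ℂ) * ∫ y : ℝ, ∫ θ in Ioc 0 (2 * Real.pi), F y θ := by
      rw [← integral_const_mul]
      congr 1
      funext y
      exact (hin y).symm
    rw [h1, hswap, ← integral_const_mul]
    congr 1
    funext θ
    rw [hout θ]
    unfold O22b_a
    ring
  · rw [intervalIntegrable_iff_integrableOn_Ioc_of_le hpi2]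
    have h1 : Integrable (fun θ : ℝ => ∫ y : ℝ, F y θ) (volume.restrict (Ioc 0 (2 * Real.pi))) :=
      hFi.integral_prod_right
    have h2 := h1.const_mul (((1 / (2 * Real.pi) : ℝ) : ℂ))
    refine h2.congr (ae_of_all _ fun θ => ?_)
    simp only [hout θ]
    unfold O22b_a VL
    ring

/-- O22b: shifting a line over a pole of order five -/
theorem O22b_shift5 {N : ℂ → ℂ} {c c' K ρ : ℝ} (hρ : 0 < ρ) (hc : ρ < c) (hc' : c' < -ρ)
    (hN : ∀ z : ℂ, c' ≤ z.re → z.re ≤ c → DifferentiableAt ℂ N z)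
    (hb : ∀ z : ℂ, c' ≤ z.re → z.re ≤ c → ‖N z‖ ≤ K * Real.exp (-(z.im ^ 2 / 4))) :
    VL c (fun z => N z / z ^ 5) - VL c' (fun z => N z / z ^ 5) = Av ρ (fun z => z * (N z / z ^ 5)) := by
  have hcont : ∀ x : ℝ, c' ≤ x → x ≤ c → Continuous fun y : ℝ => N ((x:ℂ) + y * I) := by
    intro x h1 h2
    rw [continuous_iff_continuousAt]
    intro y
    have h3 : ContinuousAt N ((x:ℂ) + y * I) := (hN _ (by simpa using h1) (by simpa using h2)).continuousAt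
    exact ContinuousAt.comp (g := N) (f := fun y : ℝ => (x:ℂ) + y * I) h3 (by fun_prop)
  have hbd : ∀ x : ℝ, c' ≤ x → x ≤ c → ∀ y : ℝ, ‖N ((x:ℂ) + y * I)‖ ≤ K * Real.exp (-(y ^ 2 / 4)) := by
    intro x h1 h2 y
    have := hb ((x:ℂ) + y * I) (by simpa using h1) (by simpa using h2)
    simpa using this
  have hcc : c' < c := by linarith
  obtain ⟨e1, i1⟩ := O22b_line (c := c) hρ (lt_of_lt_of_le hc (le_abs_self c)) (hcont c hcc.le le_rfl) (hbd c hcc.le le_rfl)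
  obtain ⟨e2, i2⟩ := O22b_line (c := c') hρ (by
    rw [abs_of_neg (by linarith)]; linarith) (hcont c' le_rfl hcc.le) (hbd c' le_rfl hcc.le)
  rw [e1, e2]
  unfold Av
  rw [← mul_sub, ← intervalIntegral.integral_sub i1 i2]
  congr 1
  apply intervalIntegral.integral_congr
  intro θ _
  simp only
  rw [← mul_sub]
  have hn : ‖(ρ:ℂ) * cexp (θ * I)‖ = ρ := O22b_norm hρ θ
  have hne : (ρ:ℂ) * cexp (θ * I) ≠ 0 := O22b_ne hρ θ
  have hre := Complex.abs_re_le_norm ((ρ:ℂ) * cexp (θ * I))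
  rw [hn, abs_le] at hre
  rw [O22_shift hcc hN hb (by linarith) (by linarith)]
  field_simp

end Pool.Agent.LibF4
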