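import Mathlib
import Pool.Agent.LibF4.ODefs
import Pool.Agent.LibF4.O22

/-! Row O23.
s ≠ 0: 1/(z(z-s)(z+s)) = -1/(s² z) + 1/(2s²(z-s)) + 1/(2s²(z+s)). Lines: O22 for a = 0, s, -s. Circle: Av R (fun z => z N(z)/(z-a)) = N(a) for |a| < R (Cauchy: Av = (2πi)⁻¹∮ ./z). Linearity (all integrable / continuous).
-/

set_option autoImplicit false

namespace Pool.Agent.LibF4

open MeasureTheory Set Filter Topology Complex
open scoped ComplexConjugate

theorem O23_av {N : ℂ → ℂ} (hN : Differentiable ℂ N) {R : ℝ} {a : ℂ} (ha : ‖a‖ < R) :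
    Av R (fun z => z * (N z / (z - a))) = N a := by
  have hR : 0 < R := (norm_nonneg a).trans_lt ha
  have h1 := Complex.two_pi_I_inv_smul_circleIntegral_sub_inv_smul_of_differentiable_on_off_countable
    (c := 0) (R := R) (w := a) (f := N) (s := ∅) Set.countable_empty
    (by simpa using ha) hN.continuous.continuousOn (fun z _ => hN z)
  rw [← h1]
  unfold Av circleIntegral
  simp only [deriv_circleMap, smul_eq_mul]
  have h2 : ∀ θ : ℝ, circleMap 0 R θ * I * ((circleMap 0 R θ - a)⁻¹ * N (circleMap 0 R θ)) =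
      I * ((R : ℂ) * cexp (θ * I) * (N (R * cexp (θ * I)) / (R * cexp (θ * I) - a))) := by
    intro θ
    have : circleMap 0 R θ = R * cexp (θ * I) := by simp [circleMap]
    rw [this]
    ring
  simp only [h2]
  rw [intervalIntegral.integral_const_mul]
  set J : ℂ := ∫ θ in (0 : ℝ)..(2 * Real.pi), (R : ℂ) * cexp (θ * I) *
    (N (R * cexp (θ * I)) / (R * cexp (θ * I) - a)) with hJ
  clear_value J
  push_cast
  have hpi : (Real.pi : ℂ) ≠ 0 := by exact_mod_cast Real.pi_ne_zero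
  have hI : (I : ℂ) ≠ 0 := Complex.I_ne_zero
  field_simp

theorem O23_int {N : ℂ → ℂ} (hN : Differentiable ℂ N) {c d K : ℝ}
    (hb : ∀ z : ℂ, |z.re| ≤ c → ‖N z‖ ≤ K * Real.exp (-(z.im ^ 2 / 4))) (hd : |d| = c) {a : ℂ}
    (ha : ‖a‖ < c) :
    Integrable (fun y : ℝ => N ((d : ℂ) + y * I) / ((d : ℂ) + y * I - a)) := by
  have hδ : ∀ y : ℝ, c - ‖a‖ ≤ ‖(d : ℂ) + y * I - a‖ := by
    intro y
    have h1 : |((d : ℂ) + y * I).re| ≤ ‖(d : ℂ) + y * I‖ := Complex.abs_re_le_norm _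
    have h2 : ((d : ℂ) + y * I).re = d := by simp
    rw [h2, hd] at h1
    have h3 := norm_sub_norm_le ((d : ℂ) + y * I) a
    linarith
  have hpos : 0 < c - ‖a‖ := by linarith
  have hne : ∀ y : ℝ, (d : ℂ) + y * I - a ≠ 0 := by
    intro y h0
    have := hδ y
    rw [h0, norm_zero] at this
    linarith
  have hcont : Continuous (fun y : ℝ => N ((d : ℂ) + y * I) / ((d : ℂ) + y * I - a)) := by
    refine Continuous.div (hN.continuous.comp (by fun_prop)) (by fun_prop) hne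
  have hg : Integrable (fun y : ℝ => K / (c - ‖a‖) * Real.exp (-(1 / 4) * y ^ 2)) :=
    (integrable_exp_neg_mul_sq (by norm_num)).const_mul _
  refine hg.mono' hcont.aestronglyMeasurable (Filter.Eventually.of_forall fun y => ?_)
  have h1 := hb ((d : ℂ) + y * I) (by simp [hd])
  have h2 : ((d : ℂ) + y * I).im = y := by simp
  rw [h2] at h1
  have h3 : -(y ^ 2 / 4) = -(1 / 4) * y ^ 2 := by ring
  rw [h3] at h1
  rw [norm_div]
  calc ‖N ((d : ℂ) + y * I)‖ / ‖(d : ℂ) + y * I - a‖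
      ≤ (K * Real.exp (-(1 / 4) * y ^ 2)) / (c - ‖a‖) :=
        div_le_div₀ ((norm_nonneg _).trans h1) h1 hpos (hδ y)
    _ = K / (c - ‖a‖) * Real.exp (-(1 / 4) * y ^ 2) := by ring

theorem O23_pf {s z n : ℂ} (hs : s ≠ 0) (h0 : z ≠ 0) (h1 : z - s ≠ 0) (h2 : z + s ≠ 0) :
    n / (z * (z - s) * (z + s)) = -(1 / s ^ 2) * (n / (z - 0)) +
      1 / (2 * s ^ 2) * (n / (z - s)) + 1 / (2 * s ^ 2) * (n / (z - -s)) := by
  rw [sub_zero, sub_neg_eq_add]
  field_simp
  ring

theorem O23_VL {N : ℂ → ℂ} (hN : Differentiable ℂ N) {c d K : ℝ}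
    (hb : ∀ z : ℂ, |z.re| ≤ c → ‖N z‖ ≤ K * Real.exp (-(z.im ^ 2 / 4))) (hd : |d| = c) {s : ℂ}
    (hs : s ≠ 0) (hsc : ‖s‖ < c) :
    VL d (fun z => N z / (z * (z - s) * (z + s))) =
      -(1 / s ^ 2) * VL d (fun z => N z / (z - 0)) + 1 / (2 * s ^ 2) * VL d (fun z => N z / (z - s)) +
        1 / (2 * s ^ 2) * VL d (fun z => N z / (z - -s)) := by
  have hc : 0 < c := (norm_nonneg s).trans_lt hsc
  have i0 := O23_int hN hb hd (a := 0) (by simpa using hc)
  have i1 := O23_int hN hb hd (a := s) hsc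
  have i2 := O23_int hN hb hd (a := -s) (by simpa using hsc)
  have hne : ∀ (a : ℂ), ‖a‖ < c → ∀ y : ℝ, (d : ℂ) + y * I - a ≠ 0 := by
    intro a ha y h0
    have h1 : |((d : ℂ) + y * I).re| ≤ ‖(d : ℂ) + y * I‖ := Complex.abs_re_le_norm _
    have h2 : ((d : ℂ) + y * I).re = d := by simp
    rw [h2, hd] at h1
    have h3 : (d : ℂ) + y * I = a := sub_eq_zero.1 h0
    rw [h3] at h1
    linarith
  unfold VL
  have h1 : ∀ y : ℝ, (fun z => N z / (z * (z - s) * (z + s))) ((d : ℂ) + y * I) =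
      -(1 / s ^ 2) * (N ((d : ℂ) + y * I) / ((d : ℂ) + y * I - 0)) +
      1 / (2 * s ^ 2) * (N ((d : ℂ) + y * I) / ((d : ℂ) + y * I - s)) +
      1 / (2 * s ^ 2) * (N ((d : ℂ) + y * I) / ((d : ℂ) + y * I - -s)) := by
    intro y
    refine O23_pf hs ?_ (hne s hsc y) ?_
    · have := hne 0 (by simpa using hc) y
      rwa [sub_zero] at this
    · have := hne (-s) (by simpa using hsc) y
      rwa [sub_neg_eq_add] at this
  simp only [h1]
  have i01 : Integrable (fun y : ℝ =>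
      -(1 / s ^ 2) * (N ((d : ℂ) + y * I) / ((d : ℂ) + y * I - 0)) +
      1 / (2 * s ^ 2) * (N ((d : ℂ) + y * I) / ((d : ℂ) + y * I - s))) :=
    (i0.const_mul _).add (i1.const_mul _)
  rw [integral_add i01 (i2.const_mul _),
    integral_add (i0.const_mul _) (i1.const_mul _), integral_const_mul, integral_const_mul,
    integral_const_mul]
  ring

theorem O23_Av {N : ℂ → ℂ} (hN : Differentiable ℂ N) {R : ℝ} {s : ℂ} (hs : s ≠ 0)
    (hsR : ‖s‖ < R) :
    Av R (fun z => z * (N z / (z * (z - s) * (z + s)))) =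
      -(1 / s ^ 2) * Av R (fun z => z * (N z / (z - 0))) +
        1 / (2 * s ^ 2) * Av R (fun z => z * (N z / (z - s))) +
        1 / (2 * s ^ 2) * Av R (fun z => z * (N z / (z - -s))) := by
  have hR : 0 < R := (norm_nonneg s).trans_lt hsR
  have hnm : ∀ θ : ℝ, ‖(R : ℂ) * cexp (θ * I)‖ = R := by
    intro θ
    rw [norm_mul, Complex.norm_exp_ofReal_mul_I, mul_one, Complex.norm_real, Real.norm_eq_abs,
      abs_of_pos hR]
  have hne : ∀ (a : ℂ), ‖a‖ < R → ∀ θ : ℝ, (R : ℂ) * cexp (θ * I) - a ≠ 0 := by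
    intro a ha θ h0
    have h1 := hnm θ
    rw [sub_eq_zero.1 h0] at h1
    linarith
  have hii : ∀ (a : ℂ), ‖a‖ < R → IntervalIntegrable (fun θ : ℝ => (R : ℂ) * cexp (θ * I) *
      (N (R * cexp (θ * I)) / (R * cexp (θ * I) - a))) volume 0 (2 * Real.pi) := by
    intro a ha
    refine Continuous.intervalIntegrable ?_ _ _
    have hNc := hN.continuous
    refine Continuous.mul (by fun_prop) (Continuous.div (hNc.comp (by fun_prop)) (by fun_prop) (hne a ha))
  have h1 : ∀ θ : ℝ, (fun z => z * (N z / (z * (z - s) * (z + s)))) ((R : ℂ) * cexp (θ * I)) =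
      -(1 / s ^ 2) * ((R : ℂ) * cexp (θ * I) * (N (R * cexp (θ * I)) / (R * cexp (θ * I) - 0))) +
      1 / (2 * s ^ 2) * ((R : ℂ) * cexp (θ * I) * (N (R * cexp (θ * I)) / (R * cexp (θ * I) - s))) +
      1 / (2 * s ^ 2) * ((R : ℂ) * cexp (θ * I) * (N (R * cexp (θ * I)) / (R * cexp (θ * I) - -s))) := by
    intro θ
    have h0 := hne 0 (by simpa using hR) θ
    rw [sub_zero] at h0
    have h2 := hne (-s) (by simpa using hsR) θ
    rw [sub_neg_eq_add] at h2
    simp only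
    rw [O23_pf hs h0 (hne s hsR θ) h2]
    ring
  unfold Av
  simp only [h1]
  have i0 := hii 0 (by simpa using hR)
  have i1 := hii s hsR
  have i2 := hii (-s) (by simpa using hsR)
  have i01 : IntervalIntegrable (fun θ : ℝ =>
      -(1 / s ^ 2) * ((R : ℂ) * cexp (θ * I) * (N (R * cexp (θ * I)) / (R * cexp (θ * I) - 0))) +
      1 / (2 * s ^ 2) * ((R : ℂ) * cexp (θ * I) * (N (R * cexp (θ * I)) / (R * cexp (θ * I) - s))))
      volume 0 (2 * Real.pi) := (i0.const_mul _).add (i1.const_mul _)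
  rw [intervalIntegral.integral_add i01 (i2.const_mul _),
    intervalIntegral.integral_add (i0.const_mul _) (i1.const_mul _),
    intervalIntegral.integral_const_mul, intervalIntegral.integral_const_mul,
    intervalIntegral.integral_const_mul]
  ring

/-- O23: strip formula with three poles -/
theorem O23_strip {N : ℂ → ℂ} (hN : Differentiable ℂ N) {c K R : ℝ} (hb : ∀ z : ℂ, |z.re| ≤ c → ‖N z‖ ≤ K * Real.exp (-(z.im ^ 2 / 4)))
    {s : ℂ} (hs : s ≠ 0) (hsR : ‖s‖ < R) (hRc : R < c) :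
    VL c (fun z => N z / (z * (z - s) * (z + s))) - VL (-c) (fun z => N z / (z * (z - s) * (z + s))) =
      Av R (fun z => z * (N z / (z * (z - s) * (z + s)))) := by
  have hR : 0 < R := (norm_nonneg s).trans_lt hsR
  have hc : 0 < c := hR.trans hRc
  have hsc : ‖s‖ < c := hsR.trans hRc
  have hsh : ∀ a : ℂ, ‖a‖ < c → VL c (fun z => N z / (z - a)) - VL (-c) (fun z => N z / (z - a)) =
      N a := by
    intro a ha
    have h1 := Complex.abs_re_le_norm a
    have h2 := abs_lt.1 (h1.trans_lt ha)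
    exact O22_shift (c := c) (c' := -c) (K := K) (by linarith) (fun z _ _ => hN z)
      (fun z h3 h4 => hb z (abs_le.2 ⟨h3, h4⟩)) h2.1 h2.2
  have e0 := hsh 0 (by simpa using hc)
  have e1 := hsh s hsc
  have e2 := hsh (-s) (by simpa using hsc)
  rw [O23_VL hN hb (abs_of_pos hc) hs hsc,
    O23_VL hN hb (by rw [abs_neg, abs_of_pos hc]) hs hsc, O23_Av hN hs hsR,
    O23_av hN (a := 0) (by simpa using hR), O23_av hN hsR, O23_av hN (a := -s) (by simpa using hsR)]
  linear_combination -(1 / s ^ 2) * e0 + 1 / (2 * s ^ 2) * e1 + 1 / (2 * s ^ 2) * e2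

end Pool.Agent.LibF4
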