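import Mathlib
import Pool.Agent.LibF4.ODefs
import Pool.Agent.LibF4.O20
import Pool.Agent.LibF4.O21

/-! Row O24.
cs: ζ(2+2s) ≠ 0 (Re ≥ 3/2), Γ(1+s) continuous, bounded on |s| ≤ 1/4; |(2 sin δ)^{-1-s}| = (2 sin δ)^{-1-Re s} ≤ δ^{-1-|s|} since δ ≤ 2 sin δ ≤ 1. Kz: from O21 (|z(z-s)(z+s)| ≥ (5/4)^3); small z: |ζ(1+u)| ≤ C/|u| for 0<|u| ≤ 3/4 (O20), |s∓z| ≥ |z|/2.
-/

set_option autoImplicit false

namespace Pool.Agent.LibF4

open MeasureTheory Set Filter Topology Complex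
open scoped ComplexConjugate

theorem O24_re {s : ℂ} (hs : ‖s‖ ≤ 1/4) : -(1/4) ≤ s.re ∧ s.re ≤ 1/4 :=
  abs_le.1 ((Complex.abs_re_le_norm s).trans hs)

theorem O24_gamma {s : ℂ} (hs : ‖s‖ ≤ 1/4) : ContinuousAt (fun s : ℂ => Complex.Gamma (1 + s)) s := by
  have h1 : ContinuousAt Complex.Gamma (1 + s) := by
    apply (Complex.differentiableAt_Gamma _ _).continuousAt
    intro m hm
    have h2 := congrArg Complex.re hm
    rw [Complex.add_re, Complex.one_re, Complex.neg_re, Complex.natCast_re] at h2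
    have h3 := (O24_re hs).1
    have : (0 : ℝ) ≤ m := Nat.cast_nonneg m
    linarith
  exact ContinuousAt.comp (f := fun s : ℂ => 1 + s) (g := Complex.Gamma) h1 (by fun_prop)

theorem O24_two {s : ℂ} (hs : ‖s‖ ≤ 1/4) : 3/2 ≤ (2 + 2 * s).re := by
  have h3 := (O24_re hs).1
  simp only [Complex.add_re, Complex.mul_re, Complex.re_ofNat, Complex.im_ofNat, zero_mul,
    sub_zero]
  linarith

theorem O24_sin {δ : ℝ} (h0 : 0 < δ) (h1 : δ ≤ 1/4) : δ ≤ 2 * Real.sin δ ∧ 2 * Real.sin δ ≤ 1 := by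
  have h2 := Real.mul_le_sin h0.le (by linarith [Real.pi_gt_three])
  have h3 := Real.sin_le h0.le
  constructor
  · have h4 : 1 / 2 * δ ≤ 2 / Real.pi * δ := by
      apply mul_le_mul_of_nonneg_right _ h0.le
      rw [div_le_div_iff₀ (by norm_num) Real.pi_pos]
      linarith [Real.pi_le_four]
    linarith
  · linarith

/-- O24: continuity of the constant and of the kernels -/
theorem O24_cs : (∀ δ : ℝ, 0 < δ → δ ≤ 1/4 → ContinuousOn (cs δ) (Metric.closedBall 0 (1/4))) ∧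
    ∃ C : ℝ, 1 ≤ C ∧ ∀ δ : ℝ, 0 < δ → δ ≤ 1/4 → ∀ s : ℂ, ‖s‖ ≤ 1/4 → ‖cs δ s‖ ≤ C * δ ^ (-1 - ‖s‖) := by
  obtain ⟨C₂, hC₂, hζ⟩ := O20_zeta_inv
  refine ⟨?_, ?_⟩
  · intro δ h0 h1 s hs
    have hs' : ‖s‖ ≤ 1/4 := by simpa using hs
    obtain ⟨d1, d2⟩ := O24_sin h0 h1
    have hne : ((2 * Real.sin δ : ℝ) : ℂ) ≠ 0 := Complex.ofReal_ne_zero.2 (by linarith)
    have hpi : ((2 * Real.pi : ℝ) : ℂ) ≠ 0 := Complex.ofReal_ne_zero.2 (by positivity)
    have h2 := O24_two hs'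
    have hz1 : (2 + 2 * s) ≠ 1 := by
      intro h
      rw [h, Complex.one_re] at h2
      linarith
    have hz : ContinuousAt (fun s : ℂ => riemannZeta (2 + 2 * s)) s :=
      ContinuousAt.comp (f := fun s : ℂ => 2 + 2 * s) (g := riemannZeta)
        (differentiableAt_riemannZeta hz1).continuousAt (by fun_prop)
    have e1 : Continuous (fun s : ℂ => ((2 * Real.sin δ : ℝ) : ℂ) ^ (-1 - s)) :=
      Continuous.const_cpow (by fun_prop) (Or.inl hne)
    have e2 : Continuous (fun s : ℂ => ((2 * Real.pi : ℝ) : ℂ) ^ (-s)) :=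
      Continuous.const_cpow (by fun_prop) (Or.inl hpi)
    have h3 : ContinuousAt (cs δ) s := by
      unfold cs
      exact (((O24_gamma hs').mul e1.continuousAt).mul e2.continuousAt).div hz (hζ _ h2).2
    exact h3.continuousWithinAt
  · have hcomp : IsCompact (Metric.closedBall (0 : ℂ) (1/4)) := isCompact_closedBall _ _
    have hG : ContinuousOn (fun s : ℂ => Complex.Gamma (1 + s)) (Metric.closedBall (0 : ℂ) (1/4)) := by
      intro s hs
      exact (O24_gamma (by simpa using hs)).continuousWithinAt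
    obtain ⟨C₁, hC₁⟩ := hcomp.exists_bound_of_continuousOn hG
    have hC₁0 : 0 ≤ C₁ := (norm_nonneg _).trans (hC₁ 0 (by simp))
    refine ⟨(C₁ + 1) * (2 * Real.pi) * C₂, ?_, ?_⟩
    · have h3 : 1 ≤ (C₁ + 1) * (2 * Real.pi) := by
        have := Real.pi_gt_three
        nlinarith
      nlinarith
    · intro δ h0 h1 s hs
      obtain ⟨d1, d2⟩ := O24_sin h0 h1
      obtain ⟨r1, r2⟩ := O24_re hs
      have hsn : 0 < 2 * Real.sin δ := by linarith
      have b1 : ‖Complex.Gamma (1 + s)‖ ≤ C₁ + 1 := by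
        have := hC₁ s (by simpa using hs)
        linarith
      have b2 : ‖((2 * Real.sin δ : ℝ) : ℂ) ^ (-1 - s)‖ ≤ δ ^ (-1 - ‖s‖) := by
        rw [Complex.norm_cpow_eq_rpow_re_of_pos hsn]
        have e1 : (-1 - s).re = -1 - s.re := by
          simp only [Complex.sub_re, Complex.neg_re, Complex.one_re]
        rw [e1]
        have e2 := Real.rpow_le_rpow_of_exponent_ge hsn d2
          (show -1 - ‖s‖ ≤ -1 - s.re by linarith [Complex.re_le_norm s])
        have e3 := Real.rpow_le_rpow_of_nonpos h0 d1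
          (show -1 - ‖s‖ ≤ 0 by linarith [norm_nonneg s])
        exact e2.trans e3
      have b3 : ‖((2 * Real.pi : ℝ) : ℂ) ^ (-s)‖ ≤ 2 * Real.pi := by
        rw [Complex.norm_cpow_eq_rpow_re_of_pos (by positivity)]
        have e1 : (2 * Real.pi) ^ (-s).re ≤ (2 * Real.pi) ^ (1 : ℝ) := by
          apply Real.rpow_le_rpow_of_exponent_le
          · linarith [Real.pi_gt_three]
          · rw [Complex.neg_re]
            linarith
        rwa [Real.rpow_one] at e1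
      have b4 := (hζ _ (O24_two hs)).1
      unfold cs
      rw [norm_div, norm_mul, norm_mul, div_eq_mul_inv, ← norm_inv]
      have hδ0 : 0 ≤ δ ^ (-1 - ‖s‖) := Real.rpow_nonneg h0.le _
      have m1 := mul_le_mul b1 b2 (norm_nonneg _) (by positivity)
      have m2 := mul_le_mul m1 b3 (norm_nonneg _) (by positivity)
      have m3 := mul_le_mul m2 b4 (norm_nonneg _) (by positivity)
      refine m3.trans_eq ?_
      ring

theorem O24_ne {s z : ℂ} (hs : ‖s‖ ≤ 1/4) (hz : |z.re| = 3/2) :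
    1 ≤ ‖z‖ ∧ 1 ≤ ‖z - s‖ ∧ 1 ≤ ‖z + s‖ := by
  have h1 : 3/2 ≤ ‖z‖ := hz ▸ Complex.abs_re_le_norm z
  refine ⟨by linarith, ?_, ?_⟩
  · have := norm_sub_norm_le z s
    linarith
  · have h2 := norm_sub_norm_le z (-s)
    rw [norm_neg, sub_neg_eq_add] at h2
    linarith

theorem O24_ne' {s z : ℂ} (hs : ‖s‖ ≤ 1/4) (hz : |z.re| = 3/2) :
    z ≠ 0 ∧ z ≠ s ∧ z ≠ -s ∧ 1 + s - z ≠ 1 ∧ 1 + s + z ≠ 1 := by
  obtain ⟨h1, h2, h3⟩ := O24_ne hs hz
  refine ⟨?_, ?_, ?_, ?_, ?_⟩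
  · rintro rfl
    rw [norm_zero] at h1
    linarith
  · rintro rfl
    rw [sub_self, norm_zero] at h2
    linarith
  · rintro rfl
    rw [neg_add_cancel, norm_zero] at h3
    linarith
  · intro h
    have h4 : z - s = 0 := by linear_combination -h
    rw [h4, norm_zero] at h2
    linarith
  · intro h
    have h4 : z + s = 0 := by linear_combination h
    rw [h4, norm_zero] at h3
    linarith

theorem O24_small {C : ℝ} (hC : 1 ≤ C) (hb : ∀ w : ℂ, -1 ≤ w.re → w.re ≤ 3 → w ≠ 1 →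
    ‖(w - 1) * riemannZeta w‖ ≤ C * Real.exp (3 * |w.im|)) {u : ℂ} {r : ℝ} (hr : 0 < r)
    (h1 : r / 2 ≤ ‖u‖) (h2 : ‖u‖ ≤ 3/4) : ‖riemannZeta (1 + u)‖ ≤ 2 * C * Real.exp 3 / r := by
  have hre := abs_le.1 ((Complex.abs_re_le_norm u).trans h2)
  have him := (Complex.abs_im_le_norm u).trans h2
  have hu : 0 < ‖u‖ := by linarith
  have hne : 1 + u ≠ 1 := by
    intro h
    have h3 : u = 0 := by linear_combination h
    rw [h3, norm_zero] at hu
    exact lt_irrefl _ hu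
  have h4 := hb (1 + u) (by rw [Complex.add_re, Complex.one_re]; linarith [hre.1])
    (by rw [Complex.add_re, Complex.one_re]; linarith [hre.2]) hne
  have e1 : 1 + u - 1 = u := by ring
  rw [e1, norm_mul] at h4
  have h5 : Real.exp (3 * |(1 + u).im|) ≤ Real.exp 3 := by
    apply Real.exp_le_exp.2
    rw [Complex.add_im, Complex.one_im, zero_add]
    linarith
  have h6 : ‖u‖ * ‖riemannZeta (1 + u)‖ ≤ C * Real.exp 3 :=
    h4.trans (mul_le_mul_of_nonneg_left h5 (by linarith))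
  rw [le_div_iff₀ hr]
  have h7 : r / 2 * ‖riemannZeta (1 + u)‖ ≤ ‖u‖ * ‖riemannZeta (1 + u)‖ :=
    mul_le_mul_of_nonneg_right h1 (norm_nonneg _)
  linarith

theorem O24_Kz : (∀ s : ℂ, ‖s‖ ≤ 1/4 → ∀ z : ℂ, |z.re| = 3/2 → DifferentiableAt ℂ (Kz s) z) ∧
    ContinuousOn (fun p : ℂ × ℂ => Kz p.1 p.2) (Metric.closedBall 0 (1/4) ×ˢ {z | |z.re| = 3/2}) ∧
    ∃ C : ℝ, 1 ≤ C ∧ (∀ s z : ℂ, ‖s‖ ≤ 1/4 → |z.re| = 3/2 → ‖Kz s z‖ ≤ C * Real.exp (-(z.im ^ 2 / 2))) ∧
      ∀ s z : ℂ, 0 < ‖z‖ → ‖z‖ ≤ 1/2 → ‖s‖ ≤ ‖z‖ / 2 → ‖z * Kz s z‖ ≤ C / ‖z‖ ^ 2 := by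
  refine ⟨?_, ?_, ?_⟩
  · intro s hs z hz
    obtain ⟨n1, -, -, n4, n5⟩ := O24_ne' hs hz
    have d1 : DifferentiableAt ℂ (fun z : ℂ => riemannZeta (1 + s - z)) z :=
      DifferentiableAt.comp (g := riemannZeta) (f := fun z : ℂ => 1 + s - z) z
        (differentiableAt_riemannZeta n4) (by fun_prop)
    have d2 : DifferentiableAt ℂ (fun z : ℂ => riemannZeta (1 + s + z)) z :=
      DifferentiableAt.comp (g := riemannZeta) (f := fun z : ℂ => 1 + s + z) z
        (differentiableAt_riemannZeta n5) (by fun_prop)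
    have d3 : DifferentiableAt ℂ (fun z : ℂ => cexp (z ^ 2) / z) z :=
      DifferentiableAt.fun_div (by fun_prop) differentiableAt_id n1
    unfold Kz
    exact (d3.mul d1).mul d2
  · intro p hp
    have hs : ‖p.1‖ ≤ 1/4 := by simpa using hp.1
    have hz : |p.2.re| = 3/2 := hp.2
    obtain ⟨n1, -, -, n4, n5⟩ := O24_ne' hs hz
    apply ContinuousAt.continuousWithinAt
    have d1 : ContinuousAt (fun p : ℂ × ℂ => riemannZeta (1 + p.1 - p.2)) p :=
      ContinuousAt.comp (g := riemannZeta) (f := fun p : ℂ × ℂ => 1 + p.1 - p.2)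
        (differentiableAt_riemannZeta n4).continuousAt (by fun_prop)
    have d2 : ContinuousAt (fun p : ℂ × ℂ => riemannZeta (1 + p.1 + p.2)) p :=
      ContinuousAt.comp (g := riemannZeta) (f := fun p : ℂ × ℂ => 1 + p.1 + p.2)
        (differentiableAt_riemannZeta n5).continuousAt (by fun_prop)
    have d3 : ContinuousAt (fun p : ℂ × ℂ => cexp (p.2 ^ 2) / p.2) p :=
      ContinuousAt.div (by fun_prop) (by fun_prop) n1
    unfold Kz
    exact (d3.mul d1).mul d2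
  · obtain ⟨C₁, hC₁, hN⟩ := O21_Kz
    obtain ⟨C₂, hC₂, hb⟩ := O20_zeta
    refine ⟨C₁ + Real.exp 1 * (2 * C₂ * Real.exp 3) ^ 2, ?_, ?_, ?_⟩
    · have : 0 ≤ Real.exp 1 * (2 * C₂ * Real.exp 3) ^ 2 := by positivity
      linarith
    · intro s z hs hz
      obtain ⟨N, -, hN1, hN2⟩ := hN s hs
      obtain ⟨n1, n2, n3, -, -⟩ := O24_ne' hs hz
      obtain ⟨m1, m2, m3⟩ := O24_ne hs hz
      have h1 := hN2 z hz.le
      rw [hN1 z n1 n2 n3, norm_mul, norm_mul, norm_mul] at h1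
      have h2 : 1 ≤ ‖z‖ * ‖z - s‖ * ‖z + s‖ := by
        have h3 : 1 ≤ ‖z‖ * ‖z - s‖ := by nlinarith
        nlinarith
      have h4 : ‖Kz s z‖ ≤ ‖z‖ * ‖z - s‖ * ‖z + s‖ * ‖Kz s z‖ :=
        le_mul_of_one_le_left (norm_nonneg _) h2
      refine (h4.trans h1).trans ?_
      apply mul_le_mul_of_nonneg_right _ (Real.exp_pos _).le
      have : 0 ≤ Real.exp 1 * (2 * C₂ * Real.exp 3) ^ 2 := by positivity
      linarith
    · intro s z hz0 hz1 hs
      have h1 : z * Kz s z = cexp (z ^ 2) * riemannZeta (1 + (s - z)) *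
          riemannZeta (1 + (s + z)) := by
        have hz : z ≠ 0 := norm_pos_iff.1 hz0
        unfold Kz
        have e1 : 1 + s - z = 1 + (s - z) := by ring
        have e2 : 1 + s + z = 1 + (s + z) := by ring
        rw [e1, e2]
        field_simp
      have k1 : ‖z‖ / 2 ≤ ‖s - z‖ := by
        have := norm_sub_norm_le z s
        rw [norm_sub_rev] at this
        linarith
      have k2 : ‖z‖ / 2 ≤ ‖s + z‖ := by
        have h2 := norm_sub_norm_le z (-s)
        rw [norm_neg, sub_neg_eq_add, add_comm] at h2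
        linarith
      have k3 : ‖s - z‖ ≤ 3/4 := (norm_sub_le _ _).trans (by linarith)
      have k4 : ‖s + z‖ ≤ 3/4 := (norm_add_le _ _).trans (by linarith)
      have z1 := O24_small hC₂ hb hz0 k1 k3
      have z2 := O24_small hC₂ hb hz0 k2 k4
      have z3 : ‖cexp (z ^ 2)‖ ≤ Real.exp 1 := by
        refine (Complex.norm_exp_le_exp_norm _).trans ?_
        apply Real.exp_le_exp.2
        rw [norm_pow]
        nlinarith [norm_nonneg z]
      rw [h1, norm_mul, norm_mul]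
      have m1 := mul_le_mul z3 z1 (norm_nonneg _) (Real.exp_pos _).le
      have m2 := mul_le_mul m1 z2 (norm_nonneg _) (by positivity)
      refine m2.trans ?_
      have e1 : Real.exp 1 * (2 * C₂ * Real.exp 3 / ‖z‖) * (2 * C₂ * Real.exp 3 / ‖z‖) =
          Real.exp 1 * (2 * C₂ * Real.exp 3) ^ 2 / ‖z‖ ^ 2 := by
        field_simp
      rw [e1]
      apply div_le_div_of_nonneg_right _ (by positivity)
      linarith

end Pool.Agent.LibF4
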