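import Mathlib
import Pool.Agent.LibF4.ODefs
import Pool.Agent.LibF4.O21
import Pool.Agent.LibF4.O23
import Pool.Agent.LibF4.O24

/-! Row O25.
Let L(α,β) = VL (3/2) (Kz (α+β) z * J α β z). z → -z: VL (-3/2)(Kz s z J α β z) = -VL (3/2)(Kz s z * J β α z) = -L(β,α) (Kz s (-z) = -Kz s z, symm). For s = α+β ≠ 0 O23 with N*J gives L(α,β) + L(β,α) = Av R (z (Kz s z * J α β z)).
Av Av of w w cs (symmetric in α, β) times 2 L(α,β) = Av Av w w cs (L(α,β)+L(β,α)) (Fubini on [0,2π]², continuity of L from dominated convergence; swap), and s ≠ 0 for almost every (θ,θ') (for fixed θ only one θ' mod 2π). The bound structure OddJ is in the DEPS/Skel: it is a definition, see the file.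
-/

set_option autoImplicit false

namespace Pool.Agent.LibF4

open MeasureTheory Set Filter Topology Complex
open scoped ComplexConjugate

/-- The circle. -/
noncomputable def O25_c (ρ θ : ℝ) : ℂ := (ρ : ℂ) * cexp (θ * I)

theorem O25_c_cont (ρ : ℝ) : Continuous (O25_c ρ) := by
  unfold O25_c
  fun_prop

theorem O25_c_norm {ρ : ℝ} (hρ : 0 < ρ) (θ : ℝ) : ‖O25_c ρ θ‖ = ρ := by
  unfold O25_c
  rw [norm_mul, Complex.norm_exp_ofReal_mul_I, mul_one, Complex.norm_real, Real.norm_eq_abs,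
    abs_of_pos hρ]

theorem O25_c_ne {ρ : ℝ} (hρ : 0 < ρ) (θ : ℝ) : O25_c ρ θ ≠ 0 := by
  rw [← norm_pos_iff, O25_c_norm hρ]
  exact hρ

theorem O25_null {ρ : ℝ} (hρ : 0 < ρ) (θ : ℝ) :
    ∀ᵐ θ' : ℝ, O25_c ρ θ + O25_c ρ θ' ≠ 0 := by
  rw [ae_iff]
  refine Set.Countable.measure_zero ?_ volume
  refine (Set.countable_range fun k : ℤ => θ + Real.pi + k * (2 * Real.pi)).mono ?_
  intro θ' h
  simp only [not_not, Set.mem_setOf_eq] at h
  unfold O25_c at h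
  have h1 : cexp (θ' * I) = cexp (θ * I + Real.pi * I) := by
    rw [Complex.exp_add, Complex.exp_pi_mul_I]
    have hρ' : (ρ : ℂ) ≠ 0 := by exact_mod_cast hρ.ne'
    have h2 : (ρ : ℂ) * (cexp (θ * I) + cexp (θ' * I)) = 0 := by linear_combination h
    have h3 := (mul_eq_zero.mp h2).resolve_left hρ'
    linear_combination h3
  obtain ⟨k, hk⟩ := Complex.exp_eq_exp_iff_exists_int.mp h1
  refine ⟨k, ?_⟩
  have h2 : ((θ' : ℂ)) = ((θ + Real.pi + k * (2 * Real.pi) : ℝ) : ℂ) := by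
    have hI : (I : ℂ) ≠ 0 := Complex.I_ne_zero
    apply mul_right_cancel₀ hI
    push_cast
    linear_combination hk
  exact_mod_cast h2.symm

theorem O25_Kz_neg (s z : ℂ) : Kz s (-z) = -Kz s z := by
  unfold Kz
  rw [neg_sq, sub_neg_eq_add, ← sub_eq_add_neg, div_neg]
  ring

/-- The function on the torus. -/
noncomputable def O25_G (J : ℂ → ℂ → ℂ → ℂ) (δ ρ : ℝ) (p : ℝ × ℝ) : ℂ :=
  wk (O25_c ρ p.1) * wk (O25_c ρ p.2) * cs δ (O25_c ρ p.1 + O25_c ρ p.2) *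
    VL (3/2) (fun z => Kz (O25_c ρ p.1 + O25_c ρ p.2) z * J (O25_c ρ p.1) (O25_c ρ p.2) z)

theorem O25_mem4 {ρ : ℝ} (hρ : 0 < ρ) (hρ1 : ρ ≤ 1/8) (θ θ' : ℝ) :
    ‖O25_c ρ θ + O25_c ρ θ'‖ ≤ 1/4 := by
  calc ‖O25_c ρ θ + O25_c ρ θ'‖ ≤ ‖O25_c ρ θ‖ + ‖O25_c ρ θ'‖ := norm_add_le _ _
    _ = ρ + ρ := by rw [O25_c_norm hρ, O25_c_norm hρ]
    _ ≤ 1/4 := by linarith

theorem O25_wk_cont {ρ : ℝ} (hρ : 0 < ρ) : Continuous fun θ => wk (O25_c ρ θ) := by
  unfold wk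
  have h := O25_c_cont ρ
  have h2 : Continuous fun θ => 1 / O25_c ρ θ := continuous_const.div h (O25_c_ne hρ)
  exact h2.add continuous_const

/-- The integrand on the line. -/
noncomputable def O25_F (J : ℂ → ℂ → ℂ → ℂ) (ρ : ℝ) (q : (ℝ × ℝ) × ℝ) : ℂ :=
  Kz (O25_c ρ q.1.1 + O25_c ρ q.1.2) (((3/2 : ℝ) : ℂ) + q.2 * I) *
    J (O25_c ρ q.1.1) (O25_c ρ q.1.2) (((3/2 : ℝ) : ℂ) + q.2 * I)

theorem O25_re (y : ℝ) : |(((3/2 : ℝ) : ℂ) + y * I).re| = 3/2 ∧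
    (((3/2 : ℝ) : ℂ) + y * I).im = y := by
  constructor
  · have : (((3/2 : ℝ) : ℂ) + y * I).re = 3/2 := by simp
    rw [this, abs_of_pos (by norm_num)]
  · simp

theorem O25_add_cont (ρ : ℝ) : Continuous fun p : ℝ × ℝ => O25_c ρ p.1 + O25_c ρ p.2 :=
  ((O25_c_cont ρ).comp continuous_fst).add ((O25_c_cont ρ).comp continuous_snd)

theorem O25_F_cont {J : ℂ → ℂ → ℂ → ℂ} {B : ℝ} (hJ : OddJ J B) {ρ : ℝ} (hρ : 0 < ρ)
    (hρ1 : ρ ≤ 1/8) : Continuous (O25_F J ρ) := by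
  have hc := O25_c_cont ρ
  obtain ⟨-, hKc, -⟩ := O24_Kz
  unfold O25_F
  refine Continuous.mul ?_ ?_
  · refine hKc.comp_continuous (f := fun q : (ℝ × ℝ) × ℝ =>
      (O25_c ρ q.1.1 + O25_c ρ q.1.2, ((3/2 : ℝ) : ℂ) + q.2 * I)) ?_ ?_
    · refine Continuous.prodMk ?_ (by fun_prop)
      exact (O25_add_cont ρ).comp continuous_fst
    · intro q
      refine ⟨?_, (O25_re q.2).1⟩
      rw [mem_closedBall_zero_iff]
      exact O25_mem4 hρ hρ1 _ _
  · refine hJ.cont.comp_continuous (f := fun q : (ℝ × ℝ) × ℝ =>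
      (O25_c ρ q.1.1, O25_c ρ q.1.2, ((3/2 : ℝ) : ℂ) + q.2 * I)) ?_ ?_
    · refine Continuous.prodMk ?_ (Continuous.prodMk ?_ (by fun_prop))
      · exact hc.comp (continuous_fst.comp continuous_fst)
      · exact hc.comp (continuous_snd.comp continuous_fst)
    · intro q
      refine ⟨?_, ?_, mem_univ _⟩
      · rw [mem_closedBall_zero_iff, O25_c_norm hρ]
        exact hρ1
      · rw [mem_closedBall_zero_iff, O25_c_norm hρ]
        exact hρ1

theorem O25_F_int {J : ℂ → ℂ → ℂ → ℂ} {B : ℝ} (hJ : OddJ J B) {ρ : ℝ} (hρ : 0 < ρ)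
    (hρ1 : ρ ≤ 1/8) : Continuous fun p : ℝ × ℝ => ∫ y : ℝ, O25_F J ρ (p, y) := by
  have hF := O25_F_cont hJ hρ hρ1
  obtain ⟨-, -, C, hC1, hKb, -⟩ := O24_Kz
  have hB : 0 ≤ B := (norm_nonneg _).trans (hJ.bd 0 0 0 (by simp) (by simp) (by simp; norm_num))
  have hmeas : ∀ p : ℝ × ℝ, AEStronglyMeasurable (fun y : ℝ => O25_F J ρ (p, y)) volume := by
    intro p
    have h : Continuous fun y : ℝ => O25_F J ρ (p, y) := by fun_prop
    exact h.aestronglyMeasurable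
  have hcont : ∀ y : ℝ, Continuous fun p : ℝ × ℝ => O25_F J ρ (p, y) := by
    intro y
    fun_prop
  have hbd : ∀ (p : ℝ × ℝ) (y : ℝ), ‖O25_F J ρ (p, y)‖ ≤ C * B * Real.exp (-(1/2) * y ^ 2) := by
    intro p y
    have e1 := hKb (O25_c ρ p.1 + O25_c ρ p.2) (((3/2 : ℝ) : ℂ) + y * I)
      (O25_mem4 hρ hρ1 _ _) (O25_re y).1
    rw [(O25_re y).2] at e1
    have e2 := hJ.bd (O25_c ρ p.1) (O25_c ρ p.2) (((3/2 : ℝ) : ℂ) + y * I)
      (by rw [O25_c_norm hρ]; exact hρ1) (by rw [O25_c_norm hρ]; exact hρ1) (O25_re y).1.le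
    have e3 : Real.exp (-(y ^ 2 / 2)) = Real.exp (-(1/2) * y ^ 2) := by
      congr 1
      ring
    rw [e3] at e1
    unfold O25_F
    rw [norm_mul]
    calc _ ≤ C * Real.exp (-(1/2) * y ^ 2) * B :=
          mul_le_mul e1 e2 (norm_nonneg _) (by positivity)
      _ = _ := by ring
  have hint : Integrable (fun y : ℝ => C * B * Real.exp (-(1/2) * y ^ 2)) :=
    (integrable_exp_neg_mul_sq (b := 1/2) (by norm_num)).const_mul _
  exact continuous_of_dominated hmeas (fun p => Filter.Eventually.of_forall (hbd p)) hint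
    (Filter.Eventually.of_forall hcont)

theorem O25_G_eq (J : ℂ → ℂ → ℂ → ℂ) (δ ρ : ℝ) (p : ℝ × ℝ) : O25_G J δ ρ p =
    wk (O25_c ρ p.1) * wk (O25_c ρ p.2) * cs δ (O25_c ρ p.1 + O25_c ρ p.2) *
      (((1 / (2 * Real.pi) : ℝ) : ℂ) * ∫ y : ℝ, O25_F J ρ (p, y)) := rfl

theorem O25_G_cont {J : ℂ → ℂ → ℂ → ℂ} {B : ℝ} (hJ : OddJ J B) {δ ρ : ℝ} (h0 : 0 < δ)
    (h1 : δ ≤ 1/4) (hρ : 0 < ρ) (hρ1 : ρ ≤ 1/8) : Continuous (O25_G J δ ρ) := by
  have e : O25_G J δ ρ = fun p : ℝ × ℝ =>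
      wk (O25_c ρ p.1) * wk (O25_c ρ p.2) * cs δ (O25_c ρ p.1 + O25_c ρ p.2) *
      (((1 / (2 * Real.pi) : ℝ) : ℂ) * ∫ y : ℝ, O25_F J ρ (p, y)) := funext (O25_G_eq J δ ρ)
  rw [e]
  refine Continuous.mul (Continuous.mul (Continuous.mul ?_ ?_) ?_)
    (continuous_const.mul (O25_F_int hJ hρ hρ1))
  · exact (O25_wk_cont hρ).comp continuous_fst
  · exact (O25_wk_cont hρ).comp continuous_snd
  · refine (O24_cs.1 δ h0 h1).comp_continuous (O25_add_cont ρ) ?_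
    intro p
    rw [mem_closedBall_zero_iff]
    exact O25_mem4 hρ hρ1 _ _

theorem O25_point {J : ℂ → ℂ → ℂ → ℂ} {B : ℝ} (hJ : OddJ J B) {R : ℝ} (hR1 : R ≤ 1)
    {α β : ℂ} (hα : ‖α‖ ≤ 1/8) (hβ : ‖β‖ ≤ 1/8) (hs : α + β ≠ 0) (hsR : ‖α + β‖ < R) :
    VL (3/2) (fun z => Kz (α + β) z * J α β z) + VL (3/2) (fun z => Kz (β + α) z * J β α z) =
      Av R (fun z => z * (Kz (α + β) z * J α β z)) := by
  set s := α + β with hsdef
  have hs4 : ‖s‖ ≤ 1/4 := (norm_add_le _ _).trans (by linarith)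
  obtain ⟨C, hC1, hC⟩ := O21_Kz
  obtain ⟨N, hNd, hNe, hNb⟩ := hC s hs4
  have hB : 0 ≤ B := (norm_nonneg _).trans (hJ.bd 0 0 0 (by simp) (by simp) (by simp; norm_num))
  have key := O23_strip (N := fun z => N z * J α β z) (hNd.mul (hJ.diff α β hα hβ)) (c := 3/2)
    (K := C * B) (R := R) (fun z hz => by
      have e1 := hNb z hz
      have e2 := hJ.bd α β z hα hβ hz
      have e3 : Real.exp (-(z.im ^ 2 / 2)) ≤ Real.exp (-(z.im ^ 2 / 4)) := by
        apply Real.exp_le_exp.mpr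
        nlinarith [sq_nonneg z.im]
      rw [norm_mul]
      calc ‖N z‖ * ‖J α β z‖ ≤ (C * Real.exp (-(z.im ^ 2 / 2))) * B :=
            mul_le_mul e1 e2 (norm_nonneg _) (by positivity)
        _ ≤ (C * Real.exp (-(z.im ^ 2 / 4))) * B := by gcongr
        _ = _ := by ring) hs hsR (by linarith)
  have hquot : ∀ z : ℂ, z ≠ 0 → z ≠ s → z ≠ -s →
      N z * J α β z / (z * (z - s) * (z + s)) = Kz s z * J α β z := by
    intro z h1 h2 h3
    rw [hNe z h1 h2 h3]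
    have h2' : z - s ≠ 0 := sub_ne_zero.mpr h2
    have h3' : z + s ≠ 0 := by
      intro h
      exact h3 (eq_neg_of_add_eq_zero_left h)
    field_simp
  have hnorm : ∀ z : ℂ, ‖s‖ < ‖z‖ → z ≠ 0 ∧ z ≠ s ∧ z ≠ -s := by
    intro z hz
    refine ⟨?_, ?_, ?_⟩
    · rintro rfl
      rw [norm_zero] at hz
      exact absurd hz (not_lt.mpr (norm_nonneg _))
    · rintro rfl
      exact lt_irrefl _ hz
    · rintro rfl
      rw [norm_neg] at hz
      exact lt_irrefl _ hz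
  have hline : ∀ y : ℝ, ‖s‖ < ‖((3/2 : ℝ) : ℂ) + y * I‖ := by
    intro y
    have h1 := Complex.abs_re_le_norm (((3/2 : ℝ) : ℂ) + y * I)
    have h2 : (((3/2 : ℝ) : ℂ) + y * I).re = 3/2 := by simp
    rw [h2, abs_of_pos (by norm_num)] at h1
    linarith
  have hline' : ∀ y : ℝ, ‖s‖ < ‖((-(3/2) : ℝ) : ℂ) + y * I‖ := by
    intro y
    have h1 := Complex.abs_re_le_norm (((-(3/2) : ℝ) : ℂ) + y * I)
    have h2 : (((-(3/2) : ℝ) : ℂ) + y * I).re = -(3/2) := by simp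
    rw [h2, abs_neg, abs_of_pos (by norm_num)] at h1
    linarith
  have k1 : VL (3/2) (fun z => N z * J α β z / (z * (z - s) * (z + s))) =
      VL (3/2) (fun z => Kz s z * J α β z) := by
    unfold VL
    congr 2
    funext y
    obtain ⟨a, b, c⟩ := hnorm _ (hline y)
    exact hquot (((3/2 : ℝ) : ℂ) + y * I) a b c
  have k2 : VL (-(3/2)) (fun z => N z * J α β z / (z * (z - s) * (z + s))) =
      -VL (3/2) (fun z => Kz (β + α) z * J β α z) := by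
    unfold VL
    rw [← mul_neg, ← integral_neg, ← integral_neg_eq_self]
    congr 2
    funext y
    obtain ⟨a, b, c⟩ := hnorm _ (hline' (-y))
    beta_reduce
    rw [hquot _ a b c]
    have e : ((-(3/2) : ℝ) : ℂ) + ((-y : ℝ) : ℂ) * I = -(((3/2 : ℝ) : ℂ) + y * I) := by
      push_cast
      ring
    rw [e, O25_Kz_neg, hJ.symm, hsdef, add_comm α β]
    ring
  have k3 : Av R (fun z => z * (N z * J α β z / (z * (z - s) * (z + s)))) =
      Av R (fun z => z * (Kz s z * J α β z)) := by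
    unfold Av
    congr 2
    funext θ
    have hR0 : 0 < R := (norm_nonneg _).trans_lt hsR
    have h1 : ‖(R : ℂ) * cexp (θ * I)‖ = R := O25_c_norm hR0 θ
    obtain ⟨a, b, c⟩ := hnorm ((R : ℂ) * cexp (θ * I)) (by rw [h1]; exact hsR)
    beta_reduce
    rw [hquot _ a b c]
  rw [k1, k2, k3] at key
  rw [← key]
  ring

/-- O25: by oddness the line integral is half a small circle integral -/
theorem O25_odd {J : ℂ → ℂ → ℂ → ℂ} {B : ℝ} (hJ : OddJ J B) {δ ρ R : ℝ} (h0 : 0 < δ) (h1 : δ ≤ 1/4) (hρ : 0 < ρ) (hρ1 : ρ ≤ 1/8)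
    (hR : 2 * ρ < R) (hR1 : R ≤ 1) :
    Av ρ (fun α => Av ρ (fun β => wk α * wk β * cs δ (α + β) * (2 * VL (3/2) (fun z => Kz (α + β) z * J α β z)))) =
    Av ρ (fun α => Av ρ (fun β => wk α * wk β * cs δ (α + β) * Av R (fun z => z * (Kz (α + β) z * J α β z)))) := by
  have hG := O25_G_cont hJ h0 h1 hρ hρ1
  set κ : ℂ := ((1 / (2 * Real.pi) : ℝ) : ℂ) with hκ
  have hin1 : ∀ θ : ℝ, IntervalIntegrable (fun θ' => O25_G J δ ρ (θ, θ')) volume 0 (2 * Real.pi) :=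
    fun θ => (hG.comp (Continuous.prodMk continuous_const continuous_id)).intervalIntegrable _ _
  have hin2 : ∀ θ : ℝ, IntervalIntegrable (fun θ' => O25_G J δ ρ (θ', θ)) volume 0 (2 * Real.pi) :=
    fun θ => (hG.comp (Continuous.prodMk continuous_id continuous_const)).intervalIntegrable _ _
  have hc1 : Continuous fun θ : ℝ => ∫ θ' in (0:ℝ)..(2 * Real.pi), O25_G J δ ρ (θ, θ') :=
    intervalIntegral.continuous_parametric_intervalIntegral_of_continuous'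
      (f := fun θ θ' => O25_G J δ ρ (θ, θ')) hG 0 (2 * Real.pi)
  have hc2 : Continuous fun θ : ℝ => ∫ θ' in (0:ℝ)..(2 * Real.pi), O25_G J δ ρ (θ', θ) :=
    intervalIntegral.continuous_parametric_intervalIntegral_of_continuous'
      (f := fun θ θ' => O25_G J δ ρ (θ', θ)) (hG.comp continuous_swap) 0 (2 * Real.pi)
  have hswap : ∫ θ in (0:ℝ)..(2 * Real.pi), ∫ θ' in (0:ℝ)..(2 * Real.pi), O25_G J δ ρ (θ', θ) =
      ∫ θ in (0:ℝ)..(2 * Real.pi), ∫ θ' in (0:ℝ)..(2 * Real.pi), O25_G J δ ρ (θ, θ') := by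
    refine MeasureTheory.intervalIntegral_intervalIntegral_swap
      (F := fun θ θ' => O25_G J δ ρ (θ', θ)) ?_
    refine IntegrableOn.mono_set (t := (Set.uIcc 0 (2 * Real.pi)) ×ˢ (Set.uIcc 0 (2 * Real.pi))) ?_
      (Set.prod_mono Set.uIoc_subset_uIcc Set.uIoc_subset_uIcc)
    refine ContinuousOn.integrableOn_compact (isCompact_uIcc.prod isCompact_uIcc) ?_
    exact (hG.comp continuous_swap).continuousOn
  have hleft : Av ρ (fun α => Av ρ (fun β => wk α * wk β * cs δ (α + β) *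
      (2 * VL (3/2) (fun z => Kz (α + β) z * J α β z)))) =
      κ * (κ * (2 * ∫ θ in (0:ℝ)..(2 * Real.pi), ∫ θ' in (0:ℝ)..(2 * Real.pi),
        O25_G J δ ρ (θ, θ'))) := by
    unfold Av
    rw [← hκ, intervalIntegral.integral_const_mul]
    congr 2
    rw [← intervalIntegral.integral_const_mul]
    congr 1
    funext θ
    rw [← intervalIntegral.integral_const_mul]
    congr 1
    funext θ'
    unfold O25_G O25_c
    ring
  have hinner : ∀ θ : ℝ, ∫ θ' in (0:ℝ)..(2 * Real.pi),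
      (wk (O25_c ρ θ) * wk (O25_c ρ θ') * cs δ (O25_c ρ θ + O25_c ρ θ') *
        Av R (fun z => z * (Kz (O25_c ρ θ + O25_c ρ θ') z * J (O25_c ρ θ) (O25_c ρ θ') z))) =
      (∫ θ' in (0:ℝ)..(2 * Real.pi), O25_G J δ ρ (θ, θ')) +
        ∫ θ' in (0:ℝ)..(2 * Real.pi), O25_G J δ ρ (θ', θ) := by
    intro θ
    rw [← intervalIntegral.integral_add (hin1 θ) (hin2 θ)]
    refine intervalIntegral.integral_congr_ae ?_
    filter_upwards [O25_null hρ θ] with θ' hne _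
    have hsR : ‖O25_c ρ θ + O25_c ρ θ'‖ < R := by
      calc ‖O25_c ρ θ + O25_c ρ θ'‖ ≤ ‖O25_c ρ θ‖ + ‖O25_c ρ θ'‖ := norm_add_le _ _
        _ = ρ + ρ := by rw [O25_c_norm hρ, O25_c_norm hρ]
        _ < R := by linarith
    rw [← O25_point hJ hR1 (by rw [O25_c_norm hρ]; exact hρ1) (by rw [O25_c_norm hρ]; exact hρ1)
      hne hsR]
    unfold O25_G
    simp only
    rw [add_comm (O25_c ρ θ') (O25_c ρ θ)]
    ring
  have hright : Av ρ (fun α => Av ρ (fun β => wk α * wk β * cs δ (α + β) *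
      Av R (fun z => z * (Kz (α + β) z * J α β z)))) =
      κ * (κ * ∫ θ in (0:ℝ)..(2 * Real.pi), ((∫ θ' in (0:ℝ)..(2 * Real.pi), O25_G J δ ρ (θ, θ')) +
        ∫ θ' in (0:ℝ)..(2 * Real.pi), O25_G J δ ρ (θ', θ))) := by
    have e : (fun θ : ℝ => ∫ θ' in (0:ℝ)..(2 * Real.pi),
        (wk (O25_c ρ θ) * wk (O25_c ρ θ') * cs δ (O25_c ρ θ + O25_c ρ θ') *
          Av R (fun z => z * (Kz (O25_c ρ θ + O25_c ρ θ') z * J (O25_c ρ θ) (O25_c ρ θ') z)))) =
        fun θ => ((∫ θ' in (0:ℝ)..(2 * Real.pi), O25_G J δ ρ (θ, θ')) +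
        ∫ θ' in (0:ℝ)..(2 * Real.pi), O25_G J δ ρ (θ', θ)) := funext hinner
    rw [← e, ← intervalIntegral.integral_const_mul]
    rfl
  rw [hleft, hright, intervalIntegral.integral_add (hc1.intervalIntegrable _ _)
    (hc2.intervalIntegrable _ _), hswap]
  ring

end Pool.Agent.LibF4
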