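import Mathlib
import Pool.Agent.LibF4.ODefs
import Pool.Agent.LibF4.O24

/-! Row O26.
Norm of Av ≤ sup of the norm on the circle. |wk α| ≤ 1/ρ + 2 ≤ 2/ρ; ‖cs‖ ≤ C δ^{-1-2ρ}; ‖z Kz s z‖ ≤ C/R² for |z| = R, |s| ≤ 2ρ ≤ R/2; ‖J‖ ≤ A. (If an integrand is not integrable the Av is 0: intervalIntegral.norm_integral_le_of_norm_le_const needs no integrability.)
-/

set_option autoImplicit false

namespace Pool.Agent.LibF4

open MeasureTheory Set Filter Topology Complex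
open scoped ComplexConjugate

lemma O26_Av {r M : ℝ} (hr : 0 < r) {h : ℂ → ℂ} (hM : ∀ a : ℂ, ‖a‖ = r → ‖h a‖ ≤ M) :
    ‖Av r h‖ ≤ M := by
  have hpi := Real.pi_pos
  have h1 : ‖∫ θ in (0 : ℝ)..(2 * Real.pi), h (r * cexp (θ * I))‖ ≤ M * |2 * Real.pi - 0| := by
    apply intervalIntegral.norm_integral_le_of_norm_le_const
    intro θ _
    apply hM
    rw [norm_mul, Complex.norm_exp_ofReal_mul_I, mul_one, Complex.norm_real, Real.norm_eq_abs,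
      abs_of_pos hr]
  rw [sub_zero, abs_of_pos (by positivity)] at h1
  unfold Av
  rw [norm_mul, Complex.norm_real, Real.norm_eq_abs, abs_of_pos (by positivity)]
  calc 1 / (2 * Real.pi) * ‖∫ θ in (0 : ℝ)..(2 * Real.pi), h (r * cexp (θ * I))‖
      ≤ 1 / (2 * Real.pi) * (M * (2 * Real.pi)) := by gcongr
    _ = M := by field_simp

lemma O26_wk {r : ℝ} (hr : 0 < r) (hr1 : r ≤ 1 / 2) {a : ℂ} (ha : ‖a‖ = r) :
    ‖wk a‖ ≤ 2 * r⁻¹ := by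
  unfold wk
  have hg0 := Real.one_half_lt_eulerMascheroniConstant
  have hg := Real.eulerMascheroniConstant_lt_two_thirds
  have h1 : ‖(1 : ℂ) / a‖ = r⁻¹ := by
    rw [norm_div, norm_one, ha, one_div]
  have h2 : ‖(2 : ℂ) * ((Real.eulerMascheroniConstant : ℝ) : ℂ)‖ ≤ 2 := by
    rw [norm_mul, Complex.norm_real, Real.norm_eq_abs, abs_of_pos (by linarith)]
    norm_num
    linarith
  have h3 : (2 : ℝ) ≤ r⁻¹ := by
    rw [le_inv_comm₀ (by norm_num) hr]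
    norm_num
    linarith
  calc ‖(1 : ℂ) / a + 2 * ((Real.eulerMascheroniConstant : ℝ) : ℂ)‖
      ≤ ‖(1 : ℂ) / a‖ + ‖(2 : ℂ) * ((Real.eulerMascheroniConstant : ℝ) : ℂ)‖ := norm_add_le _ _
    _ ≤ 2 * r⁻¹ := by rw [h1]; linarith

/-- O26: bound of the small circle integral -/
theorem O26_small : ∃ C : ℝ, 1 ≤ C ∧ ∀ (J : ℂ → ℂ → ℂ → ℂ) (δ ρ R A : ℝ), 0 < δ → δ ≤ 1/4 → 0 < ρ → 4 * ρ ≤ R → R ≤ 1/8 → 0 ≤ A →
    (∀ α β z : ℂ, ‖α‖ ≤ R → ‖β‖ ≤ R → ‖z‖ ≤ R → ‖J α β z‖ ≤ A) →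
    ‖Av ρ (fun α => Av ρ (fun β => wk α * wk β * cs δ (α + β) * Av R (fun z => z * (Kz (α + β) z * J α β z))))‖ ≤
      C * A * ρ⁻¹ ^ 2 * R⁻¹ ^ 2 * δ ^ (-1 - 2 * ρ) := by
  obtain ⟨_, C1, hC1, h1⟩ := O24_cs
  obtain ⟨_, _, C2, hC2, _, h2⟩ := O24_Kz
  refine ⟨4 * C1 * C2, by nlinarith [mul_le_mul hC1 hC2 (by norm_num) (by linarith : (0:ℝ) ≤ C1)], ?_⟩
  intro J δ ρ R A hδ hδ1 hρ hρR hR hA hJ
  have hR0 : 0 < R := by linarith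
  apply O26_Av hρ
  intro α hα
  apply O26_Av hρ
  intro β hβ
  have hs : ‖α + β‖ ≤ 2 * ρ := by
    calc ‖α + β‖ ≤ ‖α‖ + ‖β‖ := norm_add_le _ _
      _ = 2 * ρ := by rw [hα, hβ]; ring
  have hwa := O26_wk hρ (by linarith) hα
  have hwb := O26_wk hρ (by linarith) hβ
  have hcs : ‖cs δ (α + β)‖ ≤ C1 * δ ^ (-1 - 2 * ρ) := by
    refine (h1 δ hδ hδ1 (α + β) (by linarith)).trans ?_
    have : δ ^ (-1 - ‖α + β‖) ≤ δ ^ (-1 - 2 * ρ) :=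
      Real.rpow_le_rpow_of_exponent_ge hδ (by linarith) (by linarith)
    exact mul_le_mul_of_nonneg_left this (by linarith)
  have hin : ‖Av R (fun z => z * (Kz (α + β) z * J α β z))‖ ≤ C2 * R⁻¹ ^ 2 * A := by
    apply O26_Av hR0
    intro z hz
    rw [← mul_assoc, norm_mul]
    have h3 := h2 (α + β) z (by rw [hz]; exact hR0) (by rw [hz]; linarith)
      (by rw [hz]; linarith)
    rw [hz] at h3
    have h4 := hJ α β z (by rw [hα]; linarith) (by rw [hβ]; linarith) hz.le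
    have h5 : C2 / R ^ 2 = C2 * R⁻¹ ^ 2 := by
      rw [inv_pow, div_eq_mul_inv]
    rw [h5] at h3
    exact mul_le_mul h3 h4 (norm_nonneg _) (by positivity)
  have hd0 : 0 ≤ δ ^ (-1 - 2 * ρ) := Real.rpow_nonneg hδ.le _
  rw [norm_mul, norm_mul, norm_mul]
  calc ‖wk α‖ * ‖wk β‖ * ‖cs δ (α + β)‖ * ‖Av R (fun z => z * (Kz (α + β) z * J α β z))‖
      ≤ (2 * ρ⁻¹) * (2 * ρ⁻¹) * (C1 * δ ^ (-1 - 2 * ρ)) * (C2 * R⁻¹ ^ 2 * A) := by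
        gcongr
    _ = 4 * C1 * C2 * A * ρ⁻¹ ^ 2 * R⁻¹ ^ 2 * δ ^ (-1 - 2 * ρ) := by ring

end Pool.Agent.LibF4
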