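import Mathlib
import Pool.Agent.LibF4.ODefs
import Pool.Agent.LibF4.O24

/-! Row O27.
|(cos δ)^{s-z} - 1| ≤ |s-z| |log cos δ| e^{|s-z||log cos δ|}, |log cos δ| ≤ δ², so ≤ 2 δ² (2+|y|) e^{|y|/8}; times ‖Kz‖ ≤ C e^{-y²/2}, ‖J‖ ≤ B. Total ≤ C B ρ^{-2} δ^{-1-2ρ} δ² ≤ C B ρ^{-2} (ρ ≤ 1/8). Linearity of Av needs continuity of L in α, β on the circles (dominated convergence, OddJ.cont, O24).
-/

set_option autoImplicit false

namespace Pool.Agent.LibF4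

open MeasureTheory Set Filter Topology Complex
open scoped ComplexConjugate

theorem o27_norm_circle {ρ : ℝ} (hρ : 0 < ρ) (θ : ℝ) : ‖(ρ:ℂ) * cexp (θ * I)‖ = ρ := by
  rw [norm_mul, Complex.norm_exp_ofReal_mul_I, mul_one, Complex.norm_real, Real.norm_eq_abs, abs_of_pos hρ]

theorem o27_Av_norm {ρ M : ℝ} {h : ℂ → ℂ} (hρ : 0 < ρ) (hM : ∀ α : ℂ, ‖α‖ = ρ → ‖h α‖ ≤ M) : ‖Av ρ h‖ ≤ M := by
  have hpi := Real.pi_pos
  unfold Av
  rw [norm_mul, Complex.norm_real, Real.norm_eq_abs, abs_of_pos (by positivity)]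
  have h1 : ‖∫ θ in (0 : ℝ)..(2 * Real.pi), h (ρ * cexp (θ * I))‖ ≤ M * |2 * Real.pi - 0| :=
    intervalIntegral.norm_integral_le_of_norm_le_const (fun θ _ => hM _ (o27_norm_circle hρ θ))
  rw [sub_zero, abs_of_pos (by positivity)] at h1
  have h2 := mul_le_mul_of_nonneg_left h1 (by positivity : (0:ℝ) ≤ 1 / (2 * Real.pi))
  refine h2.trans (le_of_eq ?_)
  field_simp

theorem o27_Av_sub1 {ρ : ℝ} {f g : ℂ → ℂ} (hf : Continuous (fun θ : ℝ => f (ρ * cexp (θ * I))))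
    (hg : Continuous (fun θ : ℝ => g (ρ * cexp (θ * I)))) :
    Av ρ f - Av ρ g = Av ρ (fun α => f α - g α) := by
  unfold Av
  rw [← mul_sub, ← intervalIntegral.integral_sub (hf.intervalIntegrable _ _) (hg.intervalIntegrable _ _)]

theorem o27_Av_cont {ρ : ℝ} {G : ℂ → ℂ → ℂ}
    (hG : Continuous (fun t : ℝ × ℝ => G (ρ * cexp (t.1 * I)) (ρ * cexp (t.2 * I)))) :
    Continuous (fun θ : ℝ => Av ρ (fun β => G (ρ * cexp (θ * I)) β)) := by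
  unfold Av
  refine continuous_const.mul ?_
  exact intervalIntegral.continuous_parametric_intervalIntegral_of_continuous' (f := fun θ φ : ℝ => G (ρ * cexp (θ * I)) (ρ * cexp (φ * I))) hG _ _

theorem o27_Av_sub {ρ M : ℝ} (hρ : 0 < ρ) {G G' : ℂ → ℂ → ℂ}
    (hG : Continuous (fun t : ℝ × ℝ => G (ρ * cexp (t.1 * I)) (ρ * cexp (t.2 * I))))
    (hG' : Continuous (fun t : ℝ × ℝ => G' (ρ * cexp (t.1 * I)) (ρ * cexp (t.2 * I))))
    (hM : ∀ α β : ℂ, ‖α‖ = ρ → ‖β‖ = ρ → ‖G α β - G' α β‖ ≤ M) :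
    ‖Av ρ (fun α => Av ρ (fun β => G α β)) - Av ρ (fun α => Av ρ (fun β => G' α β))‖ ≤ M := by
  rw [o27_Av_sub1 (f := fun α => Av ρ (fun β => G α β)) (g := fun α => Av ρ (fun β => G' α β)) (o27_Av_cont hG) (o27_Av_cont hG')]
  have h1 : Av ρ (fun α => Av ρ (fun β => G α β) - Av ρ (fun β => G' α β)) =
      Av ρ (fun α => Av ρ (fun β => G α β - G' α β)) := by
    have h2 : ∀ θ : ℝ, Av ρ (fun β => G (ρ * cexp (θ * I)) β) - Av ρ (fun β => G' (ρ * cexp (θ * I)) β) =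
        Av ρ (fun β => G (ρ * cexp (θ * I)) β - G' (ρ * cexp (θ * I)) β) := by
      intro θ
      have hc1 : Continuous (fun φ : ℝ => G (ρ * cexp (θ * I)) (ρ * cexp (φ * I))) :=
        hG.comp (continuous_const.prodMk continuous_id)
      have hc2 : Continuous (fun φ : ℝ => G' (ρ * cexp (θ * I)) (ρ * cexp (φ * I))) :=
        hG'.comp (continuous_const.prodMk continuous_id)
      exact o27_Av_sub1 (f := fun β => G (ρ * cexp (θ * I)) β) (g := fun β => G' (ρ * cexp (θ * I)) β) hc1 hc2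
    show ((1 / (2 * Real.pi) : ℝ) : ℂ) * (∫ θ in (0 : ℝ)..(2 * Real.pi), (Av ρ (fun β => G (ρ * cexp (θ * I)) β) - Av ρ (fun β => G' (ρ * cexp (θ * I)) β))) =
      ((1 / (2 * Real.pi) : ℝ) : ℂ) * ∫ θ in (0 : ℝ)..(2 * Real.pi), Av ρ (fun β => G (ρ * cexp (θ * I)) β - G' (ρ * cexp (θ * I)) β)
    simp only [h2]
  rw [h1]
  exact o27_Av_norm hρ (fun α hα => o27_Av_norm hρ (fun β hβ => hM α β hα hβ))

theorem o27_log {δ : ℝ} (h0 : 0 < δ) (h1 : δ ≤ 1/4) : 0 < Real.cos δ ∧ |Real.log (Real.cos δ)| ≤ δ ^ 2 := by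
  have hc1 : 1 - δ ^ 2 / 2 ≤ Real.cos δ := Real.one_sub_sq_div_two_le_cos
  have hc2 : Real.cos δ ≤ 1 := Real.cos_le_one δ
  have hδ2 : δ ^ 2 ≤ 1 / 16 := by nlinarith
  have hc3 : 1 / 2 ≤ Real.cos δ := by linarith
  have hc0 : 0 < Real.cos δ := by linarith
  refine ⟨hc0, ?_⟩
  have h3 := Real.one_sub_inv_le_log_of_pos hc0
  have h4 : Real.log (Real.cos δ) ≤ 0 := Real.log_nonpos hc0.le hc2
  rw [abs_of_nonpos h4]
  have h5 : 1 - (Real.cos δ)⁻¹ = -((1 - Real.cos δ) / Real.cos δ) := by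
    field_simp; ring
  have h6 : (1 - Real.cos δ) / Real.cos δ ≤ δ ^ 2 := by
    rw [div_le_iff₀ hc0]
    nlinarith
  rw [h5] at h3
  linarith

theorem o27_pw {δ : ℝ} (h0 : 0 < δ) (h1 : δ ≤ 1/4) {s : ℂ} (hs : ‖s‖ ≤ 1/4) (y : ℝ) :
    ‖((Real.cos δ : ℝ) : ℂ) ^ (s - (((3/2 : ℝ) : ℂ) + y * I)) - 1‖ * Real.exp (-(y ^ 2 / 2)) ≤
      δ ^ 2 * (2 * Real.exp 1) * Real.exp (-(1/4) * y ^ 2) := by
  obtain ⟨hc0, hlog⟩ := o27_log h0 h1
  have hδ2 : δ ^ 2 ≤ 1 / 16 := by nlinarith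
  have hcC : ((Real.cos δ : ℝ) : ℂ) ≠ 0 := by exact_mod_cast hc0.ne'
  rw [Complex.cpow_def_of_ne_zero hcC, ← Complex.ofReal_log hc0.le]
  generalize hu : ((Real.log (Real.cos δ) : ℝ) : ℂ) * (s - (((3/2 : ℝ) : ℂ) + y * I)) = u
  have hun : ‖u‖ ≤ δ ^ 2 * (2 + |y|) := by
    rw [← hu, norm_mul, Complex.norm_real, Real.norm_eq_abs]
    refine mul_le_mul hlog ?_ (norm_nonneg _) (by positivity)
    have e1 : ‖s - (((3/2 : ℝ) : ℂ) + y * I)‖ ≤ ‖s‖ + (‖((3/2 : ℝ) : ℂ)‖ + ‖(y:ℂ) * I‖) :=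
      (norm_sub_le _ _).trans (add_le_add le_rfl (norm_add_le _ _))
    rw [norm_mul, Complex.norm_I, mul_one, Complex.norm_real, Complex.norm_real, Real.norm_eq_abs, Real.norm_eq_abs,
      abs_of_pos (by norm_num : (0:ℝ) < 3/2)] at e1
    linarith
  have h2 : ‖cexp u - 1‖ ≤ ‖u‖ * Real.exp ‖u‖ := by
    have := Complex.norm_exp_sub_sum_le_norm_mul_exp u 1
    simpa using this
  have hy : 0 ≤ |y| := abs_nonneg y
  have h3 : ‖u‖ * Real.exp ‖u‖ ≤ (δ ^ 2 * (2 + |y|)) * Real.exp ((2 + |y|) / 16) := by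
    refine mul_le_mul hun ?_ (Real.exp_pos _).le (by positivity)
    rw [Real.exp_le_exp]
    refine hun.trans ?_
    have := mul_le_mul_of_nonneg_right hδ2 (by positivity : 0 ≤ 2 + |y|)
    linarith
  have h4 : 2 + |y| ≤ 2 * Real.exp (|y| / 2) := by
    have := Real.add_one_le_exp (|y| / 2)
    linarith
  have hyy : |y| ^ 2 = y ^ 2 := sq_abs y
  have h5 : Real.exp (|y| / 2) * Real.exp ((2 + |y|) / 16) * Real.exp (-(y ^ 2 / 2)) ≤ Real.exp 1 * Real.exp (-(1/4) * y ^ 2) := by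
    rw [← Real.exp_add, ← Real.exp_add, ← Real.exp_add, Real.exp_le_exp, ← hyy]
    nlinarith [sq_nonneg (|y| - 9/8)]
  have h6 : ‖cexp u - 1‖ ≤ δ ^ 2 * (2 * Real.exp (|y| / 2)) * Real.exp ((2 + |y|) / 16) := by
    refine h2.trans (h3.trans ?_)
    refine mul_le_mul_of_nonneg_right ?_ (Real.exp_pos _).le
    exact mul_le_mul_of_nonneg_left h4 (by positivity)
  have h7 := mul_le_mul_of_nonneg_right h6 (Real.exp_pos (-(y ^ 2 / 2))).le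
  refine h7.trans ?_
  have h8 := mul_le_mul_of_nonneg_left h5 (by positivity : (0:ℝ) ≤ δ ^ 2 * 2)
  refine (le_of_eq ?_).trans (h8.trans (le_of_eq ?_))
  · ring
  · ring

theorem o27_wk {ρ : ℝ} (hρ : 0 < ρ) (hρ1 : ρ ≤ 1/8) {α : ℂ} (hα : ‖α‖ = ρ) : ‖wk α‖ ≤ 2 * ρ⁻¹ := by
  unfold wk
  have g1 := Real.eulerMascheroniConstant_lt_two_thirds
  have g2 := Real.one_half_lt_eulerMascheroniConstant
  refine (norm_add_le _ _).trans ?_
  rw [norm_div, norm_one, hα, norm_mul, Complex.norm_real, Real.norm_eq_abs, abs_of_pos (by linarith), Complex.norm_ofNat, one_div]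
  have h1 : 8 ≤ ρ⁻¹ := by
    rw [le_inv_comm₀ (by norm_num) hρ]
    linarith
  linarith

theorem o27_param {F : (ℝ × ℝ) × ℝ → ℂ} (hF : Continuous F) {b : ℝ → ℝ} (hb : Integrable b)
    (hbd : ∀ (t : ℝ × ℝ) (y : ℝ), ‖F (t, y)‖ ≤ b y) :
    (∀ t : ℝ × ℝ, Integrable (fun y : ℝ => F (t, y))) ∧ Continuous (fun t : ℝ × ℝ => ∫ y : ℝ, F (t, y)) := by
  have h1 : ∀ t : ℝ × ℝ, Integrable (fun y : ℝ => F (t, y)) := by
    intro t
    refine Integrable.mono' hb ?_ ?_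
    · have hm : Continuous (fun y : ℝ => ((t, y) : (ℝ × ℝ) × ℝ)) := continuous_const.prodMk continuous_id
      exact (hF.comp hm).aestronglyMeasurable
    · exact Filter.Eventually.of_forall (fun y => hbd t y)
  refine ⟨h1, ?_⟩
  refine continuous_of_dominated (bound := b) (fun t => (h1 t).aestronglyMeasurable)
    (fun t => Filter.Eventually.of_forall (fun y => hbd t y)) hb ?_
  refine Filter.Eventually.of_forall (fun y => ?_)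
  have hm : Continuous (fun t : ℝ × ℝ => ((t, y) : (ℝ × ℝ) × ℝ)) := continuous_id.prodMk continuous_const
  exact hF.comp hm

/-- O27: removing the power of `cos δ` -/
theorem O27_cos : ∃ C : ℝ, 1 ≤ C ∧ ∀ (J : ℂ → ℂ → ℂ → ℂ) (B δ ρ : ℝ), OddJ J B → 0 < δ → δ ≤ 1/4 → 0 < ρ → ρ ≤ 1/8 →
    ‖Av ρ (fun α => Av ρ (fun β => wk α * wk β * cs δ (α + β) *
      (2 * VL (3/2) (fun z => ((Real.cos δ : ℝ) : ℂ) ^ ((α + β) - z) * (Kz (α + β) z * J α β z))))) -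
    Av ρ (fun α => Av ρ (fun β => wk α * wk β * cs δ (α + β) * (2 * VL (3/2) (fun z => Kz (α + β) z * J α β z))))‖ ≤
      C * B * ρ⁻¹ ^ 2 := by
  obtain ⟨hcsC, Cs, hCs1, hCs⟩ := O24_cs
  obtain ⟨_, hKC, CK, hCK1, hCK, _⟩ := O24_Kz
  generalize Kz = K at hKC hCK ⊢
  generalize cs = c at hcsC hCs ⊢
  have hpi := Real.pi_pos
  obtain ⟨Q, hQ⟩ : ∃ Q : ℝ, Q = ∫ y : ℝ, Real.exp (-(1/4) * y ^ 2) := ⟨_, rfl⟩
  have hQi : Integrable (fun y : ℝ => Real.exp (-(1/4) * y ^ 2)) := integrable_exp_neg_mul_sq (by norm_num)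
  have hQi2 : Integrable (fun y : ℝ => Real.exp (-(1/2) * y ^ 2)) := integrable_exp_neg_mul_sq (by norm_num)
  have hQ0 : 0 ≤ Q := by rw [hQ]; exact integral_nonneg (fun y => (Real.exp_pos _).le)
  refine ⟨max 1 (4 * Cs * (2 * (1 / (2 * Real.pi) * (CK * (2 * Real.exp 1) * Q)))), le_max_left _ _, ?_⟩
  intro J B δ ρ hJ h0 h1 hρ hρ1
  have hB0 : 0 ≤ B := (norm_nonneg _).trans (hJ.bd 0 0 0 (by simp) (by simp) (by simp; norm_num))
  obtain ⟨hc0, hlog⟩ := o27_log h0 h1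
  have hcC : ((Real.cos δ : ℝ) : ℂ) ≠ 0 := by exact_mod_cast hc0.ne'
  -- continuity of the circle maps
  have cα : Continuous (fun t : ℝ × ℝ => (ρ:ℂ) * cexp (t.1 * I)) := by fun_prop
  have cβ : Continuous (fun t : ℝ × ℝ => (ρ:ℂ) * cexp (t.2 * I)) := by fun_prop
  have nα : ∀ t : ℝ × ℝ, ‖(ρ:ℂ) * cexp (t.1 * I)‖ = ρ := fun t => o27_norm_circle hρ t.1
  have nβ : ∀ t : ℝ × ℝ, ‖(ρ:ℂ) * cexp (t.2 * I)‖ = ρ := fun t => o27_norm_circle hρ t.2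
  have ns : ∀ α β : ℂ, ‖α‖ = ρ → ‖β‖ = ρ → ‖α + β‖ ≤ 1/4 := by
    intro α β ha hb
    refine (norm_add_le _ _).trans ?_
    rw [ha, hb]; linarith
  -- the kernel on the line
  have hre : ∀ y : ℝ, ((((3/2 : ℝ) : ℂ) + y * I)).re = 3/2 := by
    intro y; simp
  have him : ∀ y : ℝ, ((((3/2 : ℝ) : ℂ) + y * I)).im = y := by
    intro y; simp
  have cP : Continuous (fun q : (ℝ × ℝ) × ℝ => K ((ρ:ℂ) * cexp (q.1.1 * I) + (ρ:ℂ) * cexp (q.1.2 * I)) (((3/2 : ℝ) : ℂ) + q.2 * I) *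
      J ((ρ:ℂ) * cexp (q.1.1 * I)) ((ρ:ℂ) * cexp (q.1.2 * I)) (((3/2 : ℝ) : ℂ) + q.2 * I)) := by
    refine Continuous.mul ?_ ?_
    · have hm : Continuous (fun q : (ℝ × ℝ) × ℝ => (((ρ:ℂ) * cexp (q.1.1 * I) + (ρ:ℂ) * cexp (q.1.2 * I)), (((3/2 : ℝ) : ℂ) + q.2 * I))) := by
        fun_prop
      refine hKC.comp_continuous hm ?_
      intro q
      refine Set.mem_prod.mpr ⟨?_, ?_⟩
      · rw [Metric.mem_closedBall, dist_zero_right]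
        exact ns _ _ (nα q.1) (nβ q.1)
      · show |((((3/2 : ℝ) : ℂ) + q.2 * I)).re| = 3/2
        rw [hre]; norm_num
    · have hm : Continuous (fun q : (ℝ × ℝ) × ℝ => (((ρ:ℂ) * cexp (q.1.1 * I)), (((ρ:ℂ) * cexp (q.1.2 * I)), (((3/2 : ℝ) : ℂ) + q.2 * I)))) := by
        fun_prop
      refine hJ.cont.comp_continuous hm ?_
      intro q
      refine Set.mem_prod.mpr ⟨?_, Set.mem_prod.mpr ⟨?_, Set.mem_univ _⟩⟩
      · rw [Metric.mem_closedBall, dist_zero_right, nα q.1]; exact hρ1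
      · rw [Metric.mem_closedBall, dist_zero_right, nβ q.1]; exact hρ1
  have bP : ∀ α β : ℂ, ‖α‖ = ρ → ‖β‖ = ρ → ∀ y : ℝ,
      ‖K (α + β) (((3/2 : ℝ) : ℂ) + y * I) * J α β (((3/2 : ℝ) : ℂ) + y * I)‖ ≤ CK * B * Real.exp (-(y ^ 2 / 2)) := by
    intro α β ha hb y
    rw [norm_mul]
    have k1 := hCK (α + β) (((3/2 : ℝ) : ℂ) + y * I) (ns α β ha hb) (by rw [hre]; norm_num)
    rw [him] at k1
    have k2 := hJ.bd α β (((3/2 : ℝ) : ℂ) + y * I) (by rw [ha]; exact hρ1) (by rw [hb]; exact hρ1)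
      (by rw [hre]; norm_num)
    have k3 := mul_le_mul k1 k2 (norm_nonneg _) ((norm_nonneg _).trans k1)
    refine k3.trans (le_of_eq ?_)
    ring
  have cE : Continuous (fun q : (ℝ × ℝ) × ℝ => ((Real.cos δ : ℝ) : ℂ) ^ (((ρ:ℂ) * cexp (q.1.1 * I) + (ρ:ℂ) * cexp (q.1.2 * I)) - (((3/2 : ℝ) : ℂ) + q.2 * I))) := by
    refine Continuous.const_cpow ?_ (Or.inl hcC)
    fun_prop
  have cEP : Continuous (fun q : (ℝ × ℝ) × ℝ => ((Real.cos δ : ℝ) : ℂ) ^ (((ρ:ℂ) * cexp (q.1.1 * I) + (ρ:ℂ) * cexp (q.1.2 * I)) - (((3/2 : ℝ) : ℂ) + q.2 * I)) *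
      (K ((ρ:ℂ) * cexp (q.1.1 * I) + (ρ:ℂ) * cexp (q.1.2 * I)) (((3/2 : ℝ) : ℂ) + q.2 * I) *
      J ((ρ:ℂ) * cexp (q.1.1 * I)) ((ρ:ℂ) * cexp (q.1.2 * I)) (((3/2 : ℝ) : ℂ) + q.2 * I))) := cE.mul cP
  have hexp2 : ∀ y : ℝ, Real.exp (-(y ^ 2 / 2)) = Real.exp (-(1/2) * y ^ 2) := by
    intro y; congr 1; ring
  have bE : ∀ α β : ℂ, ‖α‖ = ρ → ‖β‖ = ρ → ∀ y : ℝ,
      ‖((Real.cos δ : ℝ) : ℂ) ^ ((α + β) - (((3/2 : ℝ) : ℂ) + y * I)) *
        (K (α + β) (((3/2 : ℝ) : ℂ) + y * I) * J α β (((3/2 : ℝ) : ℂ) + y * I)) -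
        K (α + β) (((3/2 : ℝ) : ℂ) + y * I) * J α β (((3/2 : ℝ) : ℂ) + y * I)‖ ≤
      CK * B * (δ ^ 2 * (2 * Real.exp 1)) * Real.exp (-(1/4) * y ^ 2) := by
    intro α β ha hb y
    have e1 : ((Real.cos δ : ℝ) : ℂ) ^ ((α + β) - (((3/2 : ℝ) : ℂ) + y * I)) *
        (K (α + β) (((3/2 : ℝ) : ℂ) + y * I) * J α β (((3/2 : ℝ) : ℂ) + y * I)) -
        K (α + β) (((3/2 : ℝ) : ℂ) + y * I) * J α β (((3/2 : ℝ) : ℂ) + y * I) =
        (((Real.cos δ : ℝ) : ℂ) ^ ((α + β) - (((3/2 : ℝ) : ℂ) + y * I)) - 1) *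
        (K (α + β) (((3/2 : ℝ) : ℂ) + y * I) * J α β (((3/2 : ℝ) : ℂ) + y * I)) := by ring
    rw [e1, norm_mul]
    have k1 := mul_le_mul_of_nonneg_left (bP α β ha hb y) (norm_nonneg (((Real.cos δ : ℝ) : ℂ) ^ ((α + β) - (((3/2 : ℝ) : ℂ) + y * I)) - 1))
    have k2 := mul_le_mul_of_nonneg_left (o27_pw h0 h1 (ns α β ha hb) y) (by positivity : 0 ≤ CK * B)
    refine k1.trans ((le_of_eq ?_).trans (k2.trans (le_of_eq ?_)))
    · ring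
    · ring
  -- integrability on the line
  have bP2 : ∀ (t : ℝ × ℝ) (y : ℝ), ‖K ((ρ:ℂ) * cexp (t.1 * I) + (ρ:ℂ) * cexp (t.2 * I)) (((3/2 : ℝ) : ℂ) + y * I) *
      J ((ρ:ℂ) * cexp (t.1 * I)) ((ρ:ℂ) * cexp (t.2 * I)) (((3/2 : ℝ) : ℂ) + y * I)‖ ≤ CK * B * Real.exp (-(1/2) * y ^ 2) := by
    intro t y
    have k2 := bP _ _ (nα t) (nβ t) y
    rw [hexp2] at k2
    exact k2
  obtain ⟨iP, cPv⟩ := o27_param cP (hQi2.const_mul (CK * B)) bP2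
  have bE2 : ∀ (t : ℝ × ℝ) (y : ℝ), ‖((Real.cos δ : ℝ) : ℂ) ^ (((ρ:ℂ) * cexp (t.1 * I) + (ρ:ℂ) * cexp (t.2 * I)) - (((3/2 : ℝ) : ℂ) + y * I)) *
        (K ((ρ:ℂ) * cexp (t.1 * I) + (ρ:ℂ) * cexp (t.2 * I)) (((3/2 : ℝ) : ℂ) + y * I) *
      J ((ρ:ℂ) * cexp (t.1 * I)) ((ρ:ℂ) * cexp (t.2 * I)) (((3/2 : ℝ) : ℂ) + y * I))‖ ≤
      CK * B * (δ ^ 2 * (2 * Real.exp 1)) * Real.exp (-(1/4) * y ^ 2) + CK * B * Real.exp (-(1/2) * y ^ 2) := by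
    intro t y
    have k1 := bE _ _ (nα t) (nβ t) y
    have k2 := bP2 t y
    have k3 := norm_le_norm_sub_add (((Real.cos δ : ℝ) : ℂ) ^ (((ρ:ℂ) * cexp (t.1 * I) + (ρ:ℂ) * cexp (t.2 * I)) - (((3/2 : ℝ) : ℂ) + y * I)) *
        (K ((ρ:ℂ) * cexp (t.1 * I) + (ρ:ℂ) * cexp (t.2 * I)) (((3/2 : ℝ) : ℂ) + y * I) *
      J ((ρ:ℂ) * cexp (t.1 * I)) ((ρ:ℂ) * cexp (t.2 * I)) (((3/2 : ℝ) : ℂ) + y * I)))
      (K ((ρ:ℂ) * cexp (t.1 * I) + (ρ:ℂ) * cexp (t.2 * I)) (((3/2 : ℝ) : ℂ) + y * I) *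
      J ((ρ:ℂ) * cexp (t.1 * I)) ((ρ:ℂ) * cexp (t.2 * I)) (((3/2 : ℝ) : ℂ) + y * I))
    exact k3.trans (add_le_add k1 k2)
  have iBd : Integrable (fun y : ℝ => CK * B * (δ ^ 2 * (2 * Real.exp 1)) * Real.exp (-(1/4) * y ^ 2) + CK * B * Real.exp (-(1/2) * y ^ 2)) :=
    (hQi.const_mul _).add (hQi2.const_mul _)
  obtain ⟨iE, cEv⟩ := o27_param cEP iBd bE2
  -- the prefactor
  have cw : Continuous (fun t : ℝ × ℝ => wk ((ρ:ℂ) * cexp (t.1 * I)) * wk ((ρ:ℂ) * cexp (t.2 * I)) * c δ ((ρ:ℂ) * cexp (t.1 * I) + (ρ:ℂ) * cexp (t.2 * I))) := by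
    refine Continuous.mul (Continuous.mul ?_ ?_) ?_
    · unfold wk
      refine Continuous.add (Continuous.div continuous_const cα ?_) continuous_const
      intro t
      rw [← norm_ne_zero_iff, nα t]; exact hρ.ne'
    · unfold wk
      refine Continuous.add (Continuous.div continuous_const cβ ?_) continuous_const
      intro t
      rw [← norm_ne_zero_iff, nβ t]; exact hρ.ne'
    · refine (hcsC δ h0 h1).comp_continuous (cα.add cβ) ?_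
      intro t
      rw [Metric.mem_closedBall, dist_zero_right]
      exact ns _ _ (nα t) (nβ t)
  refine (o27_Av_sub (M := 4 * Cs * (2 * (1 / (2 * Real.pi) * (CK * (2 * Real.exp 1) * Q))) * B * ρ⁻¹ ^ 2) hρ
    (G := fun α β => wk α * wk β * c δ (α + β) *
      (2 * VL (3/2) (fun z => ((Real.cos δ : ℝ) : ℂ) ^ ((α + β) - z) * (K (α + β) z * J α β z))))
    (G' := fun α β => wk α * wk β * c δ (α + β) * (2 * VL (3/2) (fun z => K (α + β) z * J α β z)))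
    ?_ ?_ ?_).trans ?_
  · unfold VL
    exact cw.mul (continuous_const.mul (continuous_const.mul cEv))
  · unfold VL
    exact cw.mul (continuous_const.mul (continuous_const.mul cPv))
  · intro α β ha hb
    -- angles
    obtain ⟨θ, hθ⟩ : ∃ θ : ℝ, α = (ρ:ℂ) * cexp (θ * I) := ⟨Complex.arg α, by
      rw [← ha]; exact (Complex.norm_mul_exp_arg_mul_I α).symm⟩
    obtain ⟨φ, hφ⟩ : ∃ φ : ℝ, β = (ρ:ℂ) * cexp (φ * I) := ⟨Complex.arg β, by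
      rw [← hb]; exact (Complex.norm_mul_exp_arg_mul_I β).symm⟩
    have i1 := iE (θ, φ)
    have i2 := iP (θ, φ)
    simp only [← hθ, ← hφ] at i1 i2
    have e1 : wk α * wk β * c δ (α + β) *
      (2 * VL (3/2) (fun z => ((Real.cos δ : ℝ) : ℂ) ^ ((α + β) - z) * (K (α + β) z * J α β z))) -
      wk α * wk β * c δ (α + β) * (2 * VL (3/2) (fun z => K (α + β) z * J α β z)) =
      wk α * wk β * c δ (α + β) * (2 * (((1 / (2 * Real.pi) : ℝ) : ℂ) * ∫ y : ℝ,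
        (((Real.cos δ : ℝ) : ℂ) ^ ((α + β) - (((3/2 : ℝ) : ℂ) + y * I)) *
        (K (α + β) (((3/2 : ℝ) : ℂ) + y * I) * J α β (((3/2 : ℝ) : ℂ) + y * I)) -
        K (α + β) (((3/2 : ℝ) : ℂ) + y * I) * J α β (((3/2 : ℝ) : ℂ) + y * I)))) := by
      rw [integral_sub i1 i2]
      unfold VL
      ring
    show ‖wk α * wk β * c δ (α + β) *
      (2 * VL (3/2) (fun z => ((Real.cos δ : ℝ) : ℂ) ^ ((α + β) - z) * (K (α + β) z * J α β z))) -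
      wk α * wk β * c δ (α + β) * (2 * VL (3/2) (fun z => K (α + β) z * J α β z))‖ ≤ _
    rw [e1, norm_mul, norm_mul, norm_mul, norm_mul, norm_mul, Complex.norm_ofNat, Complex.norm_real, Real.norm_eq_abs,
      abs_of_pos (by positivity : (0:ℝ) < 1 / (2 * Real.pi))]
    have k1 := o27_wk hρ hρ1 ha
    have k2 := o27_wk hρ hρ1 hb
    have k3 := hCs δ h0 h1 (α + β) (ns α β ha hb)
    have k4 : δ ^ (-1 - ‖α + β‖) ≤ δ ^ (-2 : ℝ) := by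
      refine Real.rpow_le_rpow_of_exponent_ge h0 (by linarith) ?_
      have := ns α β ha hb
      linarith
    have k5 : ‖c δ (α + β)‖ ≤ Cs * δ ^ (-2 : ℝ) := k3.trans (mul_le_mul_of_nonneg_left k4 (by linarith))
    have k6 : ‖∫ y : ℝ, (((Real.cos δ : ℝ) : ℂ) ^ ((α + β) - (((3/2 : ℝ) : ℂ) + y * I)) *
        (K (α + β) (((3/2 : ℝ) : ℂ) + y * I) * J α β (((3/2 : ℝ) : ℂ) + y * I)) -
        K (α + β) (((3/2 : ℝ) : ℂ) + y * I) * J α β (((3/2 : ℝ) : ℂ) + y * I))‖ ≤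
        CK * B * (δ ^ 2 * (2 * Real.exp 1)) * Q := by
      refine (norm_integral_le_of_norm_le (hQi.const_mul (CK * B * (δ ^ 2 * (2 * Real.exp 1)))) ?_).trans ?_
      · filter_upwards with y
        exact bE α β ha hb y
      · rw [integral_const_mul, hQ]
    have hδδ : δ ^ (-2 : ℝ) * δ ^ 2 = 1 := by
      rw [← Real.rpow_natCast δ 2, ← Real.rpow_add h0]
      norm_num
    have m1 : ‖wk α‖ * ‖wk β‖ * ‖c δ (α + β)‖ ≤ (2 * ρ⁻¹) * (2 * ρ⁻¹) * (Cs * δ ^ (-2 : ℝ)) := by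
      refine mul_le_mul (mul_le_mul k1 k2 (norm_nonneg _) (by positivity)) k5 (norm_nonneg _) (by positivity)
    have m2 : 2 * (1 / (2 * Real.pi) * ‖∫ y : ℝ, (((Real.cos δ : ℝ) : ℂ) ^ ((α + β) - (((3/2 : ℝ) : ℂ) + y * I)) *
        (K (α + β) (((3/2 : ℝ) : ℂ) + y * I) * J α β (((3/2 : ℝ) : ℂ) + y * I)) -
        K (α + β) (((3/2 : ℝ) : ℂ) + y * I) * J α β (((3/2 : ℝ) : ℂ) + y * I))‖) ≤
        2 * (1 / (2 * Real.pi) * (CK * B * (δ ^ 2 * (2 * Real.exp 1)) * Q)) := by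
      refine mul_le_mul_of_nonneg_left (mul_le_mul_of_nonneg_left k6 (by positivity)) (by norm_num)
    refine (mul_le_mul m1 m2 (by positivity) ?_).trans (le_of_eq ?_)
    · have : 0 < δ ^ (-2 : ℝ) := Real.rpow_pos_of_pos h0 _
      positivity
    · have e3 : (2 * ρ⁻¹) * (2 * ρ⁻¹) * (Cs * δ ^ (-2 : ℝ)) * (2 * (1 / (2 * Real.pi) * (CK * B * (δ ^ 2 * (2 * Real.exp 1)) * Q))) =
        (δ ^ (-2 : ℝ) * δ ^ 2) * (4 * Cs * (2 * (1 / (2 * Real.pi) * (CK * (2 * Real.exp 1) * Q))) * B * ρ⁻¹ ^ 2) := by ring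
      rw [e3, hδδ, one_mul]
  · have hr : 0 ≤ ρ⁻¹ ^ 2 := by positivity
    have := le_max_right 1 (4 * Cs * (2 * (1 / (2 * Real.pi) * (CK * (2 * Real.exp 1) * Q))))
    exact mul_le_mul_of_nonneg_right (mul_le_mul_of_nonneg_right this hB0) hr

end Pool.Agent.LibF4
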