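import Mathlib
import Pool.Agent.LibF4.ODefs
import Pool.Agent.LibHLP.DivBound
import Pool.Agent.LibF4.O13
import Pool.Agent.LibF4.O20

/-! Row O28.
g(k) = dv(n k) dv(m k)/(dv n dv m) is multiplicative in k (m, n coprime): local at p^i: for p^j ‖ m: (i+j+1)(i+1)/(j+1). O13 for h(k) = g(k) k^{-(1+z)}. Local series with X = p^{-(1+z)}: ∑(i+j+1)(i+1)X^i = (1+X)/(1-X)^3 + j/(1-X)^2 = (1-X²)/(1-X)^4 (1 + j(1-X)/(1+X)).
Multiply by ζ(2+2z): HasProd (1-X²)⁻¹; compare with ζ(1+z)^4 times the finite product; uniqueness. DD m n z is over the primes of m*n with the factorization of m*n (coprime: v_p(mn) = v_p(m) or v_p(n)).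
-/

set_option autoImplicit false

namespace Pool.Agent.LibF4

open MeasureTheory Set Filter Topology Complex
open scoped ComplexConjugate

theorem O28_dv (n : ℕ) (hn : n ≠ 0) (S : Finset ℕ) (hS : n.primeFactors ⊆ S) :
    dv n = ∏ p ∈ S, ((n.factorization p : ℝ) + 1) := by
  unfold dv
  rw [Nat.card_divisors hn]
  push_cast
  refine Finset.prod_subset hS fun p _ hp => ?_
  have : n.factorization p = 0 := by
    rw [← Finsupp.notMem_support_iff]
    exact hp
  rw [this]
  simp

theorem O28_dv_pos {n : ℕ} (hn : n ≠ 0) : 0 < dv n := by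
  unfold dv
  exact_mod_cast Finset.card_pos.mpr ⟨1, Nat.one_mem_divisors.mpr hn⟩

theorem O28_dv_mul_le (a b : ℕ) : dv (a * b) ≤ dv a * dv b := by
  unfold dv
  rw [Nat.divisors_mul]
  exact_mod_cast Finset.card_mul_le

theorem O28_dv_mul {m a b : ℕ} (hm : m ≠ 0) (ha : a ≠ 0) (hb : b ≠ 0) (h : Nat.Coprime a b) :
    dv (m * (a * b)) * dv m = dv (m * a) * dv (m * b) := by
  have hma : m * a ≠ 0 := mul_ne_zero hm ha
  have hmb : m * b ≠ 0 := mul_ne_zero hm hb
  have hab : a * b ≠ 0 := mul_ne_zero ha hb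
  have hmab : m * (a * b) ≠ 0 := mul_ne_zero hm hab
  have hsub : ∀ x, x ∣ m * (a * b) → x.primeFactors ⊆ (m * (a * b)).primeFactors :=
    fun x hx => Nat.primeFactors_mono hx hmab
  rw [O28_dv _ hmab _ (Finset.Subset.refl _), O28_dv m hm _ (hsub m (Dvd.intro _ rfl)),
    O28_dv (m * a) hma _ (hsub _ (by rw [← mul_assoc]; exact Dvd.intro _ rfl)),
    O28_dv (m * b) hmb _ (hsub _ (by rw [mul_comm a b, ← mul_assoc]; exact Dvd.intro _ rfl)),
    ← Finset.prod_mul_distrib, ← Finset.prod_mul_distrib]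
  refine Finset.prod_congr rfl fun p _ => ?_
  rw [Nat.factorization_mul hm hab, Nat.factorization_mul ha hb, Nat.factorization_mul hm ha,
    Nat.factorization_mul hm hb]
  simp only [Finsupp.add_apply]
  push_cast
  have h0 : (a.factorization p : ℝ) * (b.factorization p : ℝ) = 0 := by
    by_cases hp : p.Prime
    · by_cases hpa : p ∣ a
      · have hpb : ¬ p ∣ b := by
          intro hpb
          have := Nat.dvd_gcd hpa hpb
          rw [Nat.Coprime.gcd_eq_one h] at this
          exact hp.one_lt.ne' (Nat.dvd_one.mp this)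
        rw [Nat.factorization_eq_zero_of_not_dvd hpb]
        simp
      · rw [Nat.factorization_eq_zero_of_not_dvd hpa]
        simp
    · rw [Nat.factorization_eq_zero_of_not_prime a hp]
      simp
  linear_combination -h0

theorem O28_dv_pow {m p : ℕ} (hm : m ≠ 0) (hp : p.Prime) (k : ℕ) :
    dv (m * p ^ k) * ((m.factorization p : ℝ) + 1) =
      dv m * ((m.factorization p : ℝ) + k + 1) := by
  have hpk : p ^ k ≠ 0 := pow_ne_zero _ hp.ne_zero
  have hmp : m * p ^ k ≠ 0 := mul_ne_zero hm hpk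
  set S : Finset ℕ := insert p m.primeFactors with hS
  have h1 : (m * p ^ k).primeFactors ⊆ S := by
    intro q hq
    rw [Nat.primeFactors_mul hm hpk, Finset.mem_union] at hq
    rcases hq with hq | hq
    · exact Finset.mem_insert_of_mem hq
    · have hq' := Nat.prime_of_mem_primeFactors hq
      have := (Nat.prime_dvd_prime_iff_eq hq' hp).mp
        (hq'.dvd_of_dvd_pow (Nat.dvd_of_mem_primeFactors hq))
      rw [this]
      exact Finset.mem_insert_self _ _
  have h2 : m.primeFactors ⊆ S := Finset.subset_insert _ _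
  have hpS : p ∈ S := Finset.mem_insert_self _ _
  rw [O28_dv _ hmp S h1, O28_dv m hm S h2, ← Finset.mul_prod_erase S _ hpS,
    ← Finset.mul_prod_erase S (fun q => ((m.factorization q : ℝ) + 1)) hpS]
  have h3 : ∏ q ∈ S.erase p, (((m * p ^ k).factorization q : ℝ) + 1) =
      ∏ q ∈ S.erase p, ((m.factorization q : ℝ) + 1) := by
    refine Finset.prod_congr rfl fun q hq => ?_
    have hne : q ≠ p := Finset.ne_of_mem_erase hq
    rw [Nat.factorization_mul hm hpk, hp.factorization_pow]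
    simp [Finsupp.single_apply, hne.symm]
  have h4 : ((m * p ^ k).factorization p : ℝ) = (m.factorization p : ℝ) + k := by
    rw [Nat.factorization_mul hm hpk, hp.factorization_pow]
    simp
  rw [h3, h4]
  ring

theorem O28_cpow_mul (a b : ℕ) (s : ℂ) : ((a * b : ℕ) : ℂ) ^ s = (a : ℂ) ^ s * (b : ℂ) ^ s := by
  push_cast
  exact Complex.natCast_mul_natCast_cpow a b s

theorem O28_cpow_pow (p k : ℕ) (s : ℂ) : ((p ^ k : ℕ) : ℂ) ^ s = ((p : ℂ) ^ s) ^ k := by
  induction k with
  | zero => simp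
  | succ k ih => rw [pow_succ, O28_cpow_mul, ih, pow_succ]

theorem O28_local {X : ℂ} (hX : ‖X‖ < 1) (j : ℕ) :
    HasSum (fun i : ℕ => (((i : ℂ) + j + 1) * (i + 1) / (j + 1)) * X ^ i)
      ((1 - X ^ 2) * ((1 - X)⁻¹) ^ 4 * ((1 + j * (1 - X) / (1 + X)) / (j + 1))) := by
  have h1 := hasSum_choose_mul_geometric_of_norm_lt_one 1 hX
  have h2 := hasSum_choose_mul_geometric_of_norm_lt_one 2 hX
  have hj : (j : ℂ) + 1 ≠ 0 := by exact_mod_cast Nat.succ_ne_zero j
  have hX1 : (1 : ℂ) - X ≠ 0 := by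
    intro h
    rw [← sub_eq_zero.mp h] at hX
    simp at hX
  have hX2 : (1 : ℂ) + X ≠ 0 := by
    intro h
    have : X = -1 := by linear_combination h
    rw [this] at hX
    simp at hX
  have h3 := (h2.mul_left (2 / ((j : ℂ) + 1))).add (h1.mul_left (((j : ℂ) - 1) / ((j : ℂ) + 1)))
  have hterm : (fun i : ℕ => (((i : ℂ) + j + 1) * (i + 1) / (j + 1)) * X ^ i) = fun i : ℕ =>
      2 / ((j : ℂ) + 1) * (((i + 2).choose 2 : ℕ) * X ^ i) +
        ((j : ℂ) - 1) / ((j : ℂ) + 1) * (((i + 1).choose 1 : ℕ) * X ^ i) := by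
    funext i
    have hc : (((i + 2).choose 2 : ℕ) : ℂ) * 2 = ((i : ℂ) + 1) * (i + 2) := by
      have := Nat.triangle_succ (i + 1)
      have h4 : (i + 2).choose 2 * 2 = (i + 1) * (i + 2) := by
        rw [Nat.choose_two_right]
        have h5 : 2 ∣ (i + 2) * (i + 2 - 1) := by
          rw [show i + 2 - 1 = i + 1 from rfl, mul_comm]
          exact (Nat.even_mul_succ_self (i + 1)).two_dvd
        rw [Nat.div_mul_cancel h5, show i + 2 - 1 = i + 1 from rfl, mul_comm]
      exact_mod_cast h4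
    rw [Nat.choose_one_right]
    field_simp
    push_cast
    linear_combination (-(X ^ i)) * hc
  have hval : (1 - X ^ 2) * ((1 - X)⁻¹) ^ 4 * ((1 + j * (1 - X) / (1 + X)) / (j + 1)) =
      2 / ((j : ℂ) + 1) * (1 / (1 - X) ^ (2 + 1)) +
        ((j : ℂ) - 1) / ((j : ℂ) + 1) * (1 / (1 - X) ^ (1 + 1)) := by
    field_simp
    ring
  rw [hterm, hval]
  exact h3

/-- O28: Dirichlet series of the diagonal -/
theorem O28_diag_series {m n : ℕ} (hm : 1 ≤ m) (hn : 1 ≤ n) (hc : Nat.Coprime m n) {z : ℂ} (hz : 0 < z.re) :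
    Summable (fun k : ℕ => ‖((dv (n * (k + 1)) * dv (m * (k + 1)) : ℝ) : ℂ) * ((k + 1 : ℕ) : ℂ) ^ (-(1 + z))‖) ∧
    ∑' k : ℕ, ((dv (n * (k + 1)) * dv (m * (k + 1)) : ℝ) : ℂ) * ((k + 1 : ℕ) : ℂ) ^ (-(1 + z)) =
      riemannZeta (1 + z) ^ 4 / riemannZeta (2 + 2 * z) * DD m n z := by
  have hm0 : m ≠ 0 := by omega
  have hn0 : n ≠ 0 := by omega
  have hmn0 : m * n ≠ 0 := mul_ne_zero hm0 hn0
  have hdn := O28_dv_pos hn0
  have hdm := O28_dv_pos hm0
  have hdv0 : dv 0 = 0 := by simp [dv]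
  set g : ℕ → ℂ := fun k => ((dv (n * k) * dv (m * k) : ℝ) : ℂ) * (k : ℂ) ^ (-(1 + z)) with hg
  have hg0 : g 0 = 0 := by simp [hg, hdv0]
  -- absolute convergence
  have hgs : Summable fun k => ‖g k‖ := by
    obtain ⟨C, hC1, hC⟩ := Pool.Agent.LibHLP.exists_card_divisors_le (z.re / 4) (by positivity)
    have hsum : Summable fun k : ℕ => dv n * dv m * C ^ 2 * (1 / (k : ℝ) ^ (1 + z.re / 2)) :=
      (Real.summable_one_div_nat_rpow.mpr (by linarith)).mul_left _
    refine Summable.of_nonneg_of_le (fun k => norm_nonneg _) (fun k => ?_) hsum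
    rcases Nat.eq_zero_or_pos k with rfl | hk
    · rw [hg0, norm_zero]
      positivity
    · have hk0 : (0 : ℝ) < k := by exact_mod_cast hk
      have h1 := O28_dv_mul_le n k
      have h2 := O28_dv_mul_le m k
      have h3 : dv k ≤ C * (k : ℝ) ^ (z.re / 4) := hC k hk.ne'
      have hd0 : ∀ x, 0 ≤ dv x := fun x => by unfold dv; positivity
      simp only [hg]
      rw [norm_mul, Complex.norm_real, Complex.norm_natCast_cpow_of_pos hk, Real.norm_eq_abs,
        abs_of_nonneg (mul_nonneg (hd0 _) (hd0 _))]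
      have hre : (-(1 + z)).re = -(1 + z.re) := by simp
      rw [hre]
      have h4 : dv (n * k) * dv (m * k) ≤ (dv n * (C * (k : ℝ) ^ (z.re / 4))) *
          (dv m * (C * (k : ℝ) ^ (z.re / 4))) := by
        refine mul_le_mul (h1.trans ?_) (h2.trans ?_) (hd0 _) (by positivity)
        · exact mul_le_mul_of_nonneg_left h3 hdn.le
        · exact mul_le_mul_of_nonneg_left h3 hdm.le
      calc dv (n * k) * dv (m * k) * (k : ℝ) ^ (-(1 + z.re)) ≤
          ((dv n * (C * (k : ℝ) ^ (z.re / 4))) * (dv m * (C * (k : ℝ) ^ (z.re / 4)))) *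
            (k : ℝ) ^ (-(1 + z.re)) := mul_le_mul_of_nonneg_right h4 (by positivity)
        _ = dv n * dv m * C ^ 2 *
            ((k : ℝ) ^ (z.re / 4) * (k : ℝ) ^ (z.re / 4) * (k : ℝ) ^ (-(1 + z.re))) := by ring
        _ = dv n * dv m * C ^ 2 * (1 / (k : ℝ) ^ (1 + z.re / 2)) := by
            rw [← Real.rpow_add hk0, ← Real.rpow_add hk0, one_div, ← Real.rpow_neg hk0.le]
            congr 2
            ring
  have hgs' : Summable g := hgs.of_norm
  -- the normalised function
  set h : ℕ → ℂ := fun k => g k / ((dv n * dv m : ℝ) : ℂ) with hh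
  have hD : ((dv n * dv m : ℝ) : ℂ) ≠ 0 := by
    exact_mod_cast (mul_pos hdn hdm).ne'
  have h0 : h 0 = 0 := by simp [hh, hg0]
  have h1 : h 1 = 1 := by
    simp only [hh, hg, mul_one, Nat.cast_one, Complex.one_cpow]
    exact div_self hD
  have hmul : ∀ a b : ℕ, Nat.Coprime a b → h (a * b) = h a * h b := by
    intro a b hab
    rcases Nat.eq_zero_or_pos a with rfl | ha
    · simp [h0]
    rcases Nat.eq_zero_or_pos b with rfl | hb
    · simp [h0]
    have e1 := O28_dv_mul hn0 ha.ne' hb.ne' hab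
    have e2 := O28_dv_mul hm0 ha.ne' hb.ne' hab
    simp only [hh, hg]
    rw [O28_cpow_mul, div_mul_div_comm, div_eq_div_iff hD (mul_ne_zero hD hD)]
    have e1' : ((dv (n * (a * b)) : ℝ) : ℂ) * ((dv n : ℝ) : ℂ) =
        ((dv (n * a) : ℝ) : ℂ) * ((dv (n * b) : ℝ) : ℂ) := by exact_mod_cast e1
    have e2' : ((dv (m * (a * b)) : ℝ) : ℂ) * ((dv m : ℝ) : ℂ) =
        ((dv (m * a) : ℝ) : ℂ) * ((dv (m * b) : ℝ) : ℂ) := by exact_mod_cast e2
    push_cast
    linear_combination ((dv m : ℝ) : ℂ) * ((dv n : ℝ) : ℂ) * (a : ℂ) ^ (-(1 + z)) *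
      (b : ℂ) ^ (-(1 + z)) * (((dv (m * (a * b)) : ℝ) : ℂ) * ((dv m : ℝ) : ℂ) * e1' +
        ((dv (n * a) : ℝ) : ℂ) * ((dv (n * b) : ℝ) : ℂ) * e2')
  have hhs : Summable fun k => ‖h k‖ := by
    have : (fun k => ‖h k‖) = fun k => ‖g k‖ / ‖((dv n * dv m : ℝ) : ℂ)‖ := by
      funext k
      simp only [hh, norm_div]
    rw [this]
    exact hgs.div_const _
  -- local factors
  set X : ℕ → ℂ := fun p => (p : ℂ) ^ (-(1 + z)) with hXdef
  have hX : ∀ p : ℕ, p.Prime → ‖X p‖ < 1 := by
    intro p hp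
    simp only [hXdef]
    rw [Complex.norm_natCast_cpow_of_pos hp.pos]
    refine Real.rpow_lt_one_of_one_lt_of_neg (by exact_mod_cast hp.one_lt) ?_
    simp
    linarith
  set w : ℕ → ℂ := fun p =>
    (1 + ((m * n).factorization p : ℂ) * (1 - X p) / (1 + X p)) / ((m * n).factorization p + 1)
    with hw
  have hE : ∀ p : ℕ, p.Prime →
      ∑' k : ℕ, h (p ^ k) = (1 - X p ^ 2) * ((1 - X p)⁻¹) ^ 4 * w p := by
    intro p hp
    rw [← (O28_local (hX p hp) ((m * n).factorization p)).tsum_eq]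
    refine tsum_congr fun k => ?_
    have e1 := O28_dv_pow hn0 hp k
    have e2 := O28_dv_pow hm0 hp k
    have hfac : (m * n).factorization p = m.factorization p + n.factorization p := by
      rw [Nat.factorization_mul hm0 hn0]
      rfl
    have hzero : m.factorization p = 0 ∨ n.factorization p = 0 := by
      by_cases hpm : p ∣ m
      · right
        refine Nat.factorization_eq_zero_of_not_dvd fun hpn => ?_
        have := Nat.dvd_gcd hpm hpn
        rw [Nat.Coprime.gcd_eq_one hc] at this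
        exact hp.one_lt.ne' (Nat.dvd_one.mp this)
      · left
        exact Nat.factorization_eq_zero_of_not_dvd hpm
    simp only [hh, hg]
    rw [O28_cpow_pow]
    have e1' : ((dv (n * p ^ k) : ℝ) : ℂ) * ((n.factorization p : ℂ) + 1) =
        ((dv n : ℝ) : ℂ) * ((n.factorization p : ℂ) + k + 1) := by exact_mod_cast e1
    have e2' : ((dv (m * p ^ k) : ℝ) : ℂ) * ((m.factorization p : ℂ) + 1) =
        ((dv m : ℝ) : ℂ) * ((m.factorization p : ℂ) + k + 1) := by exact_mod_cast e2
    have hj : (((m * n).factorization p : ℕ) : ℂ) + 1 ≠ 0 := Nat.cast_add_one_ne_zero _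
    have key : ((dv (n * p ^ k) * dv (m * p ^ k) : ℝ) : ℂ) / ((dv n * dv m : ℝ) : ℂ) =
        (((k : ℂ) + (m * n).factorization p + 1) * (k + 1) / ((m * n).factorization p + 1)) := by
      rw [div_eq_div_iff hD hj, hfac]
      push_cast
      rcases hzero with h3 | h3
      · rw [h3] at e2' ⊢
        simp only [Nat.cast_zero, zero_add, mul_one] at e2' ⊢
        linear_combination ((dv (m * p ^ k) : ℝ) : ℂ) * e1' +
          ((dv n : ℝ) : ℂ) * ((n.factorization p : ℂ) + k + 1) * e2'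
      · rw [h3] at e1' ⊢
        simp only [Nat.cast_zero, zero_add, add_zero, mul_one] at e1' ⊢
        linear_combination ((dv (n * p ^ k) : ℝ) : ℂ) * e2' +
          ((dv m : ℝ) : ℂ) * ((m.factorization p : ℂ) + k + 1) * e1'
    rw [← key]
    simp only [hXdef]
    ring
  have hprod := O13_euler h1 h0 hmul hhs hE
  -- zeta functions
  have hz1 : HasProd (fun p : Nat.Primes => (1 - X p)⁻¹) (riemannZeta (1 + z)) := by
    have := riemannZeta_eulerProduct_hasProd (s := 1 + z) (by simp; exact hz)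
    exact this
  have hz2 : HasProd (fun p : Nat.Primes => (1 - X p ^ 2)⁻¹) (riemannZeta (2 + 2 * z)) := by
    have := riemannZeta_eulerProduct_hasProd (s := 2 + 2 * z) (by simp; linarith)
    have e : (fun p : Nat.Primes => (1 - X p ^ 2)⁻¹) =
        fun p : Nat.Primes => (1 - (p : ℂ) ^ (-(2 + 2 * z)))⁻¹ := by
      funext p
      congr 2
      simp only [hXdef]
      rw [← Complex.cpow_nat_mul]
      congr 1
      push_cast
      ring
    rw [e]
    exact this
  have hwone : ∀ p : ℕ, p ∉ (m * n).primeFactors → w p = 1 := by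
    intro p hp
    have : (m * n).factorization p = 0 := by
      rw [← Finsupp.notMem_support_iff]
      exact hp
    simp only [hw]
    rw [this]
    simp
  set S : Finset Nat.Primes := (m * n).primeFactors.subtype Nat.Prime with hS
  have hwp : HasProd (fun p : Nat.Primes => w p) (∏ p ∈ S, w p) := by
    refine hasProd_prod_of_ne_finset_one fun p hp => ?_
    exact hwone p fun h => hp (Finset.mem_subtype.mpr h)
  have hSprod : ∏ p ∈ S, w p = ∏ p ∈ (m * n).primeFactors, w p := by
    rw [hS]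
    exact Finset.prod_subtype_of_mem w fun p hp => Nat.prime_of_mem_primeFactors hp
  have hfour : HasProd (fun p : Nat.Primes => ((1 - X p)⁻¹) ^ 4) (riemannZeta (1 + z) ^ 4) := by
    have := ((hz1.mul hz1).mul (hz1.mul hz1))
    have e1 : (fun p : Nat.Primes => ((1 - X p)⁻¹) ^ 4) = fun p : Nat.Primes =>
        ((1 - X p)⁻¹ * (1 - X p)⁻¹) * ((1 - X p)⁻¹ * (1 - X p)⁻¹) := by
      funext p
      ring
    have e2 : riemannZeta (1 + z) ^ 4 = (riemannZeta (1 + z) * riemannZeta (1 + z)) *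
        (riemannZeta (1 + z) * riemannZeta (1 + z)) := by ring
    rw [e1, e2]
    exact this
  have hleft := hprod.mul hz2
  have hright := hfour.mul hwp
  have heq : (fun p : Nat.Primes => (1 - X p ^ 2) * ((1 - X p)⁻¹) ^ 4 * w p * (1 - X p ^ 2)⁻¹) =
      fun p : Nat.Primes => ((1 - X p)⁻¹) ^ 4 * w p := by
    funext p
    have hne : (1 : ℂ) - X p ^ 2 ≠ 0 := by
      intro h3
      have h4 : X p ^ 2 = 1 := (sub_eq_zero.mp h3).symm
      have h5 := congrArg norm h4
      rw [norm_pow, norm_one] at h5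
      have h6 := hX p p.2
      have h7 : ‖X p‖ ^ 2 < 1 := pow_lt_one₀ (norm_nonneg _) h6 two_ne_zero
      linarith
    field_simp
  rw [heq] at hleft
  have hfin := hleft.unique hright
  have hzne : riemannZeta (2 + 2 * z) ≠ 0 := by
    obtain ⟨C, -, hC⟩ := O20_zeta_inv
    exact (hC (2 + 2 * z) (by simp; linarith)).2
  have hsumh : ∑' k, h k = riemannZeta (1 + z) ^ 4 / riemannZeta (2 + 2 * z) *
      ∏ p ∈ (m * n).primeFactors, w p := by
    rw [hSprod] at hfin
    rw [div_mul_eq_mul_div, eq_div_iff hzne]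
    exact hfin
  have hsumg : ∑' k, g k = ((dv n * dv m : ℝ) : ℂ) * ∑' k, h k := by
    rw [← tsum_mul_left]
    refine tsum_congr fun k => ?_
    simp only [hh]
    field_simp
  have hshift : ∑' k : ℕ, g (k + 1) = ∑' k, g k := by
    rw [hgs'.tsum_eq_zero_add, hg0, zero_add]
  have hdd : ((dv n * dv m : ℝ) : ℂ) * ∏ p ∈ (m * n).primeFactors, w p = DD m n z := by
    have h3 : dv n * dv m = dv (m * n) := by
      unfold dv
      rw [Nat.Coprime.card_divisors_mul hc]
      push_cast
      ring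
    rw [h3, O28_dv (m * n) hmn0 _ (Finset.Subset.refl _)]
    unfold DD
    push_cast
    rw [← Finset.prod_mul_distrib]
    refine Finset.prod_congr rfl fun p _ => ?_
    have hj : (((m * n).factorization p : ℕ) : ℂ) + 1 ≠ 0 := Nat.cast_add_one_ne_zero _
    simp only [hw, hXdef]
    rw [mul_div_cancel₀ _ hj]
  constructor
  · have := (summable_nat_add_iff 1).mpr hgs
    simpa [hg] using this
  · have h3 : (fun k : ℕ => ((dv (n * (k + 1)) * dv (m * (k + 1)) : ℝ) : ℂ) *
        ((k + 1 : ℕ) : ℂ) ^ (-(1 + z))) = fun k => g (k + 1) := by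
      funext k
      simp only [hg]
    rw [h3, hshift, hsumg, hsumh, ← hdd]
    ring

end Pool.Agent.LibF4
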