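import Mathlib
import Pool.Agent.LibF4.ODefs
import Pool.Agent.LibF4.M21
import Pool.Agent.LibF4.O28

/-! Row O29.
Jkj_formula 0, c = 1/2, p = 2mn(k+1) sin δ > 0 real; exchange sum and line integral (norm: ∑ d d (k+1)^{-3/2}); 2√(mn) Λ^z (2mn sin δ)^{-1-z} = (1/sin δ)(mn)^{-(1+z)/2}(4π sin δ)^{-z}; O28 on Re z = 1/2. pf δ X 0 = X sin δ.
-/

set_option autoImplicit false

namespace Pool.Agent.LibF4

open MeasureTheory Set Filter Topology Complex
open scoped ComplexConjugate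

lemma O29_cpow {x : ℝ} (hx : 0 < x) (w : ℂ) : (x : ℂ) ^ w = cexp ((Real.log x : ℝ) * w) := by
  rw [Complex.cpow_def_of_ne_zero (by exact_mod_cast hx.ne'), Complex.ofReal_log hx.le]

lemma O29_scal {N sd : ℝ} (hN : 0 < N) (hs : 0 < sd) (z : ℂ) :
    2 * ((√N : ℝ) : ℂ) * ((√N / (2 * Real.pi) : ℝ) : ℂ) ^ z * ((2 * N * sd : ℝ) : ℂ) ^ (-(1 + z)) =
      ((1 / sd : ℝ) : ℂ) * (((4 * Real.pi * sd : ℝ) : ℂ) ^ (-z) * (N : ℂ) ^ (-(1 + z) / 2)) := by
  have hpi := Real.pi_pos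
  have hsq : 0 < √N := Real.sqrt_pos.2 hN
  have e1 : ((√N : ℝ) : ℂ) = cexp ((Real.log N : ℝ) / 2) := by
    have : √N = Real.exp (Real.log N / 2) := by
      rw [← Real.log_sqrt hN.le, Real.exp_log hsq]
    rw [this]
    push_cast
    rfl
  have e2 : ((1 / sd : ℝ) : ℂ) = cexp (-(Real.log sd : ℝ)) := by
    have : 1 / sd = Real.exp (-Real.log sd) := by
      rw [Real.exp_neg, Real.exp_log hs, one_div]
    rw [this]
    push_cast
    rfl
  have e3 : (2 : ℂ) = cexp ((Real.log 2 : ℝ)) := by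
    have : (2 : ℝ) = Real.exp (Real.log 2) := (Real.exp_log (by norm_num)).symm
    have h2 : (2 : ℂ) = ((2 : ℝ) : ℂ) := by norm_num
    rw [h2]
    conv_lhs => rw [this]
    push_cast
    rfl
  have l1 : Real.log (√N / (2 * Real.pi)) = Real.log N / 2 - (Real.log 2 + Real.log Real.pi) := by
    rw [Real.log_div hsq.ne' (by positivity), Real.log_mul (by norm_num) hpi.ne',
      Real.log_sqrt hN.le]
  have l2 : Real.log (2 * N * sd) = Real.log 2 + Real.log N + Real.log sd := by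
    rw [Real.log_mul (by positivity) hs.ne', Real.log_mul (by norm_num) hN.ne']
  have l3 : Real.log (4 * Real.pi * sd) = 2 * Real.log 2 + Real.log Real.pi + Real.log sd := by
    rw [Real.log_mul (by positivity) hs.ne', Real.log_mul (by norm_num) hpi.ne']
    have : Real.log 4 = 2 * Real.log 2 := by
      rw [show (4 : ℝ) = 2 ^ 2 by norm_num, Real.log_pow]
      norm_num
    rw [this]
  rw [O29_cpow (by positivity), O29_cpow (by positivity), O29_cpow (by positivity), O29_cpow hN,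
    e1, e2, l1, l2, l3]
  have e4 : ∀ A B C : ℂ, 2 * A * B * C = cexp ((Real.log 2 : ℝ)) * A * B * C := by
    intro A B C
    rw [← e3]
  rw [e4, ← Complex.exp_add, ← Complex.exp_add, ← Complex.exp_add, ← Complex.exp_add,
    ← Complex.exp_add]
  congr 1
  push_cast
  ring

lemma O29_Jk (Λ : ℝ) (p : ℂ) : Jk Λ p = Jkj 0 Λ p := by
  unfold Jk Jkj
  simp

/-- O29: the diagonal as a line integral -/
theorem O29_diag {δ : ℝ} (h0 : 0 < δ) (h1 : δ ≤ 1/4) {m n : ℕ} (hm : 1 ≤ m) (hn : 1 ≤ n) (hc : Nat.Coprime m n) :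
    2 * ((√((m:ℝ) * n) : ℝ) : ℂ) *
      (∑' k : ℕ, ((dv (n * (k + 1)) * dv (m * (k + 1)) : ℝ) : ℂ) * Jk (Lam m n) (pf δ (2 * ((m:ℝ) * n * (k + 1))) 0)) =
    ((1 / Real.sin δ : ℝ) : ℂ) * VL (1/2) (fun z => Dz δ z * JD m n z) := by
  have hpi := Real.pi_pos
  have hs : 0 < Real.sin δ := Real.sin_pos_of_pos_of_lt_pi h0 (by linarith [Real.pi_gt_three])
  have hm0 : (0 : ℝ) < m := by exact_mod_cast hm
  have hn0 : (0 : ℝ) < n := by exact_mod_cast hn
  have hN : (0 : ℝ) < (m : ℝ) * n := mul_pos hm0 hn0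
  have hΛ : 0 < Lam m n := by unfold Lam; positivity
  obtain ⟨hint, -⟩ := Jkj_formula 0 hΛ (p := 1) (by simp) (c := 1 / 2) (by norm_num)
  set z : ℝ → ℂ := fun y => ((1 / 2 : ℝ) : ℂ) + y * I with hz
  have hzre : ∀ y, (z y).re = 1 / 2 := by
    intro y
    simp [hz]
  set g : ℝ → ℂ := fun y => cexp (z y ^ 2) * (Lam m n : ℂ) ^ z y * Complex.Gamma (1 + z y) / z y
    with hg
  have hgint : Integrable g := by
    refine hint.congr (Filter.Eventually.of_forall fun y => ?_)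
    simp only [hg, hz, Nat.cast_zero, add_zero, one_cpow, mul_one]
  set P : ℕ → ℝ := fun k => 2 * ((m : ℝ) * n) * Real.sin δ * (k + 1) with hP
  have hPpos : ∀ k, 0 < P k := fun k => by simp only [hP]; positivity
  have hJ : ∀ k : ℕ, Jk (Lam m n) (pf δ (2 * ((m:ℝ) * n * (k + 1))) 0) =
      ((1 / (2 * Real.pi) : ℝ) : ℂ) * ∫ y : ℝ, (P k : ℂ) ^ (-(1 + z y)) * g y := by
    intro k
    have hp : pf δ (2 * ((m:ℝ) * n * (k + 1))) 0 = (P k : ℂ) := by
      unfold pf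
      simp only [hP]
      push_cast
      ring
    rw [hp, O29_Jk, (Jkj_formula 0 hΛ (p := (P k : ℂ)) (by simpa using hPpos k) (c := 1 / 2)
      (by norm_num)).2]
    congr 2
    funext y
    simp only [hg, hz, Nat.cast_zero, add_zero]
    ring
  set a : ℕ → ℝ := fun k => dv (n * (k + 1)) * dv (m * (k + 1)) with ha
  set F : ℕ → ℝ → ℂ := fun k y => (a k : ℂ) * ((P k : ℂ) ^ (-(1 + z y)) * g y) with hF
  have hPn : ∀ k y, ‖(P k : ℂ) ^ (-(1 + z y))‖ = P k ^ (-(3 / 2) : ℝ) := by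
    intro k y
    rw [Complex.norm_cpow_eq_rpow_re_of_pos (hPpos k)]
    congr 1
    rw [Complex.neg_re, Complex.add_re, Complex.one_re, hzre]
    norm_num
  have hFint : ∀ k, Integrable (F k) := by
    intro k
    have hmeas : Continuous fun y : ℝ => (P k : ℂ) ^ (-(1 + z y)) := by
      have : Continuous z := by
        simp only [hz]
        fun_prop
      have hne : ((P k : ℝ) : ℂ) ≠ 0 := by exact_mod_cast (hPpos k).ne'
      exact Continuous.const_cpow (by fun_prop) (Or.inl hne)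
    have : Integrable fun y => (P k : ℂ) ^ (-(1 + z y)) * g y :=
      hgint.bdd_mul hmeas.aestronglyMeasurable
        (Filter.Eventually.of_forall fun y => (hPn k y).le)
    exact this.const_mul _
  have hsum : Summable fun k => ∫ y, ‖F k y‖ := by
    have h28 := (O28_diag_series hm hn hc (z := ((1 / 2 : ℝ) : ℂ)) (by simp)).1
    have h3 := h28.mul_right ((2 * ((m : ℝ) * n) * Real.sin δ) ^ (-(3 / 2) : ℝ) * ∫ y, ‖g y‖)
    refine h3.congr fun k => ?_
    have hk : (0 : ℝ) < (k : ℝ) + 1 := by positivity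
    have e1 : ∀ y, ‖F k y‖ = (|a k| * P k ^ (-(3 / 2) : ℝ)) * ‖g y‖ := by
      intro y
      simp only [hF]
      rw [norm_mul, norm_mul, hPn, Complex.norm_real, Real.norm_eq_abs]
      ring
    have e2 : ∫ y, ‖F k y‖ = (|a k| * P k ^ (-(3 / 2) : ℝ)) * ∫ y, ‖g y‖ := by
      rw [← integral_const_mul]
      exact integral_congr_ae (Filter.Eventually.of_forall e1)
    rw [e2, norm_mul, Complex.norm_real, Real.norm_eq_abs]
    have e3 : ‖((k + 1 : ℕ) : ℂ) ^ (-(1 + ((1 / 2 : ℝ) : ℂ)))‖ = ((k : ℝ) + 1) ^ (-(3 / 2) : ℝ) := by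
      have h5 : ((k + 1 : ℕ) : ℂ) = (((k : ℝ) + 1 : ℝ) : ℂ) := by push_cast; rfl
      rw [h5, Complex.norm_cpow_eq_rpow_re_of_pos hk]
      congr 1
      rw [Complex.neg_re, Complex.add_re, Complex.one_re, Complex.ofReal_re]
      norm_num
    have e4 : P k ^ (-(3 / 2) : ℝ) = (2 * ((m : ℝ) * n) * Real.sin δ) ^ (-(3 / 2) : ℝ) *
        ((k : ℝ) + 1) ^ (-(3 / 2) : ℝ) := by
      simp only [hP]
      rw [Real.mul_rpow (by positivity) hk.le]
    rw [e3, e4]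
    ring
  have hswap := integral_tsum_of_summable_integral_norm hFint hsum
  have hL : (∑' k : ℕ, ((dv (n * (k + 1)) * dv (m * (k + 1)) : ℝ) : ℂ) *
      Jk (Lam m n) (pf δ (2 * ((m:ℝ) * n * (k + 1))) 0)) =
      ((1 / (2 * Real.pi) : ℝ) : ℂ) * ∑' k, ∫ y, F k y := by
    rw [← tsum_mul_left]
    congr 1
    funext k
    rw [hJ k]
    simp only [hF, ha]
    rw [integral_const_mul]
    ring
  have hpt : ∀ y, ∑' k, F k y = g y * ((2 * ((m : ℝ) * n) * Real.sin δ : ℝ) : ℂ) ^ (-(1 + z y)) *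
      (riemannZeta (1 + z y) ^ 4 / riemannZeta (2 + 2 * z y) * DD m n (z y)) := by
    intro y
    rw [← (O28_diag_series hm hn hc (z := z y) (by rw [hzre]; norm_num)).2, ← tsum_mul_left]
    congr 1
    funext k
    have hk : (0 : ℝ) < (k : ℝ) + 1 := by positivity
    have h5 : ((k + 1 : ℕ) : ℂ) = (((k : ℝ) + 1 : ℝ) : ℂ) := by push_cast; rfl
    have h6 : (P k : ℂ) ^ (-(1 + z y)) =
        ((2 * ((m : ℝ) * n) * Real.sin δ : ℝ) : ℂ) ^ (-(1 + z y)) *
          (((k : ℝ) + 1 : ℝ) : ℂ) ^ (-(1 + z y)) := by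
      rw [← Complex.mul_cpow_ofReal_nonneg (by positivity) hk.le, ← Complex.ofReal_mul]
    simp only [hF, ha]
    rw [h5, h6]
    ring
  rw [hL, hswap]
  unfold VL
  rw [show (fun y => ∑' k, F k y) = fun y => g y *
      ((2 * ((m : ℝ) * n) * Real.sin δ : ℝ) : ℂ) ^ (-(1 + z y)) *
      (riemannZeta (1 + z y) ^ 4 / riemannZeta (2 + 2 * z y) * DD m n (z y)) from funext hpt]
  have key : ∀ y : ℝ, 2 * ((√((m:ℝ) * n) : ℝ) : ℂ) * (g y *
      ((2 * ((m : ℝ) * n) * Real.sin δ : ℝ) : ℂ) ^ (-(1 + z y)) *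
      (riemannZeta (1 + z y) ^ 4 / riemannZeta (2 + 2 * z y) * DD m n (z y))) =
      ((1 / Real.sin δ : ℝ) : ℂ) * (Dz δ (z y) * JD m n (z y)) := by
    intro y
    have h7 := O29_scal hN hs (z y)
    have h8 : (((m * n : ℕ) : ℂ)) = (((m : ℝ) * n : ℝ) : ℂ) := by push_cast; rfl
    unfold Dz JD
    rw [h8]
    simp only [hg, Lam]
    calc 2 * ((√((m:ℝ) * n) : ℝ) : ℂ) * (cexp (z y ^ 2) *
          ((√((m:ℝ) * n) / (2 * Real.pi) : ℝ) : ℂ) ^ z y * Complex.Gamma (1 + z y) / z y *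
          ((2 * ((m : ℝ) * n) * Real.sin δ : ℝ) : ℂ) ^ (-(1 + z y)) *
          (riemannZeta (1 + z y) ^ 4 / riemannZeta (2 + 2 * z y) * DD m n (z y))) =
        (2 * ((√((m:ℝ) * n) : ℝ) : ℂ) * ((√((m:ℝ) * n) / (2 * Real.pi) : ℝ) : ℂ) ^ z y *
          ((2 * ((m : ℝ) * n) * Real.sin δ : ℝ) : ℂ) ^ (-(1 + z y))) *
          (cexp (z y ^ 2) / z y * Complex.Gamma (1 + z y) *
          (riemannZeta (1 + z y) ^ 4 / riemannZeta (2 + 2 * z y) * DD m n (z y))) := by ring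
      _ = _ := by rw [h7]; ring
  have h9 : 2 * ((√((m:ℝ) * n) : ℝ) : ℂ) * (((1 / (2 * Real.pi) : ℝ) : ℂ) * ∫ y : ℝ, g y *
      ((2 * ((m : ℝ) * n) * Real.sin δ : ℝ) : ℂ) ^ (-(1 + z y)) *
      (riemannZeta (1 + z y) ^ 4 / riemannZeta (2 + 2 * z y) * DD m n (z y))) =
      ((1 / (2 * Real.pi) : ℝ) : ℂ) * ∫ y : ℝ, 2 * ((√((m:ℝ) * n) : ℝ) : ℂ) * (g y *
      ((2 * ((m : ℝ) * n) * Real.sin δ : ℝ) : ℂ) ^ (-(1 + z y)) *
      (riemannZeta (1 + z y) ^ 4 / riemannZeta (2 + 2 * z y) * DD m n (z y))) := by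
    rw [integral_const_mul]
    ring
  rw [h9, show (fun y : ℝ => 2 * ((√((m:ℝ) * n) : ℝ) : ℂ) * (g y *
      ((2 * ((m : ℝ) * n) * Real.sin δ : ℝ) : ℂ) ^ (-(1 + z y)) *
      (riemannZeta (1 + z y) ^ 4 / riemannZeta (2 + 2 * z y) * DD m n (z y)))) =
      fun y => ((1 / Real.sin δ : ℝ) : ℂ) * (Dz δ (z y) * JD m n (z y)) from funext key,
    integral_const_mul]
  ring

end Pool.Agent.LibF4
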