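import Mathlib
import Pool.Agent.LibF4.ODefs
import Pool.Agent.LibF4.O20
import Pool.Agent.LibF4.O22b

/-! Row O30.
N z = z^5 Dz δ z J z = e^{z²} Γ(1+z)(4π sin δ)^{-z} (z ζ(1+z))^4/ζ(2+2z) * J z, analytic for Re z > -1/2 after filling in z = 0; Gaussian decay in the strip -1/4 ≤ Re z ≤ 1/2 (Γ bounded, O20). O22b with c = 1/2, c' = -1/4. Remaining line: |(4π sin δ)^{-z}| = (4π sin δ)^{1/4} ≤ C δ^{1/4}.
-/

set_option autoImplicit false

namespace Pool.Agent.LibF4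

open MeasureTheory Set Filter Topology Complex
open scoped ComplexConjugate

theorem O30_norm_Gamma {s : ℂ} (hs : 0 < s.re) : ‖Complex.Gamma s‖ ≤ Real.Gamma s.re := by
  rw [Complex.Gamma_eq_integral hs, Real.Gamma_eq_integral hs, Complex.GammaIntegral]
  refine (norm_integral_le_integral_norm _).trans (le_of_eq ?_)
  refine setIntegral_congr_fun measurableSet_Ioi fun x hx => ?_
  have hx' : (0:ℝ) < x := hx
  rw [norm_mul, Complex.norm_cpow_eq_rpow_re_of_pos hx', Complex.norm_real, Real.norm_eq_abs, abs_of_pos (Real.exp_pos _)]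
  simp

theorem O30_Gamma_bd : ∃ C : ℝ, 0 < C ∧ ∀ w : ℂ, 3/4 ≤ w.re → w.re ≤ 3/2 → ‖Complex.Gamma w‖ ≤ C := by
  have hc : ContinuousOn Real.Gamma (Icc (3/4:ℝ) (3/2)) := by
    intro a ha
    apply ContinuousAt.continuousWithinAt
    apply (Real.differentiableAt_Gamma _).continuousAt
    intro m hm
    have h1 := ha.1
    have h2 : (0:ℝ) ≤ m := Nat.cast_nonneg m
    rw [hm] at h1
    linarith
  obtain ⟨C, hC⟩ := isCompact_Icc.exists_bound_of_continuousOn hc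
  refine ⟨max C 1, by positivity, fun w h1 h2 => ?_⟩
  refine (O30_norm_Gamma (by linarith)).trans ?_
  have := hC w.re ⟨h1, h2⟩
  rw [Real.norm_eq_abs] at this
  exact (le_abs_self _).trans (this.trans (le_max_left _ _))

/-- the numerator -/
noncomputable def O30_N (δ : ℝ) (J : ℂ → ℂ) (z : ℂ) : ℂ :=
  cexp (z ^ 2) * Complex.Gamma (1 + z) * ((4 * Real.pi * Real.sin δ : ℝ) : ℂ) ^ (-z) *
    riemannZeta₁ (1 + z) ^ 4 / riemannZeta (2 + 2 * z) * J z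

theorem O30_eq (δ : ℝ) (J : ℂ → ℂ) (z : ℂ) (hz : z ≠ 0) :
    Dz δ z * J z = O30_N δ J z / z ^ 5 := by
  unfold Dz O30_N
  have h1 : (1 + z : ℂ) ≠ 1 := by
    intro h
    exact hz (by linear_combination h)
  rw [riemannZeta_eq_inv_sub_mul h1]
  have h2 : (1 + z - 1 : ℂ) = z := by ring
  rw [h2]
  field_simp

theorem O30_zeta1 {C : ℝ} (hC : 1 ≤ C) (h : ∀ w : ℂ, -1 ≤ w.re → w.re ≤ 3 → w ≠ 1 →
    ‖(w - 1) * riemannZeta w‖ ≤ C * Real.exp (3 * |w.im|)) (w : ℂ) (h1 : -1 ≤ w.re) (h2 : w.re ≤ 3) :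
    ‖riemannZeta₁ w‖ ≤ C * Real.exp (3 * |w.im|) := by
  by_cases hw : w = 1
  · subst hw
    simp
    exact hC
  · have := h w h1 h2 hw
    rw [riemannZeta_eq_inv_sub_mul hw, ← mul_assoc, mul_inv_cancel₀ (sub_ne_zero.2 hw), one_mul] at this
    exact this

theorem O30_diff (δ : ℝ) (J : ℂ → ℂ) (hs : 0 < 4 * Real.pi * Real.sin δ)
    (hz0 : ∀ w : ℂ, 3/2 ≤ w.re → riemannZeta w ≠ 0)
    (hJ : ∀ z : ℂ, -(1/2) < z.re → DifferentiableAt ℂ J z) (z : ℂ) (hz : -(1/4) ≤ z.re) :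
    DifferentiableAt ℂ (O30_N δ J) z := by
  unfold O30_N
  have hG : DifferentiableAt ℂ (fun z : ℂ => Complex.Gamma (1 + z)) z := by
    have h1 : DifferentiableAt ℂ Complex.Gamma (1 + z) := by
      apply Complex.differentiableAt_Gamma
      intro m hm
      have := congrArg Complex.re hm
      simp at this
      have h2 : (0:ℝ) ≤ m := Nat.cast_nonneg m
      linarith
    exact DifferentiableAt.comp z h1 (by fun_prop)
  have hP : DifferentiableAt ℂ (fun z : ℂ => ((4 * Real.pi * Real.sin δ : ℝ) : ℂ) ^ (-z)) z := by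
    apply DifferentiableAt.const_cpow (by fun_prop)
    left
    exact_mod_cast hs.ne'
  have hZ1 : DifferentiableAt ℂ (fun z : ℂ => riemannZeta₁ (1 + z) ^ 4) z := by
    have h2 : DifferentiableAt ℂ (fun z : ℂ => riemannZeta₁ (1 + z)) z := by
      have h3 : Differentiable ℂ (fun z : ℂ => riemannZeta₁ (1 + z)) := by fun_prop
      exact h3 z
    exact h2.pow 4
  have hZ : DifferentiableAt ℂ (fun z : ℂ => riemannZeta (2 + 2 * z)) z := by
    have h1 : DifferentiableAt ℂ riemannZeta (2 + 2 * z) := by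
      apply differentiableAt_riemannZeta
      intro h
      have := congrArg Complex.re h
      simp at this
      linarith
    exact DifferentiableAt.comp z h1 (by fun_prop)
  have hE : DifferentiableAt ℂ (fun z : ℂ => cexp (z ^ 2)) z := by fun_prop
  refine DifferentiableAt.mul (DifferentiableAt.div (((hE.mul hG).mul hP).mul hZ1) hZ ?_) (hJ z (by linarith))
  apply hz0
  simp
  linarith

theorem O30_gauss (x y : ℝ) (hx : |x| ≤ 1/2) :
    Real.exp (x ^ 2 - y ^ 2) * Real.exp (3 * |y|) ^ 4 ≤ Real.exp 49 * Real.exp (-(y ^ 2 / 4)) := by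
  rw [← Real.exp_nat_mul, ← Real.exp_add, ← Real.exp_add]
  apply Real.exp_le_exp.2
  have h1 : x ^ 2 ≤ 1/4 := by
    rw [← sq_abs]
    nlinarith [abs_nonneg x]
  have h2 : y ^ 2 = |y| ^ 2 := (sq_abs y).symm
  rw [h2]
  push_cast
  nlinarith [sq_nonneg (|y| - 8)]

theorem O30_bound {G C C' B : ℝ} (hG : 0 < G) (hC : 1 ≤ C) (hC' : 1 ≤ C')
    (hGb : ∀ w : ℂ, 3/4 ≤ w.re → w.re ≤ 3/2 → ‖Complex.Gamma w‖ ≤ G)
    (hZb : ∀ w : ℂ, -1 ≤ w.re → w.re ≤ 3 → w ≠ 1 →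
      ‖(w - 1) * riemannZeta w‖ ≤ C * Real.exp (3 * |w.im|))
    (hZi : ∀ w : ℂ, 3/2 ≤ w.re → ‖(riemannZeta w)⁻¹‖ ≤ C' ∧ riemannZeta w ≠ 0)
    (J : ℂ → ℂ) (δ : ℝ) (hs : 0 < 4 * Real.pi * Real.sin δ)
    (hJ : ∀ z : ℂ, -(1/4) ≤ z.re → z.re ≤ 1/2 → ‖J z‖ ≤ B) (z : ℂ) (h1 : -(1/4) ≤ z.re) (h2 : z.re ≤ 1/2) :
    ‖O30_N δ J z‖ ≤ (Real.exp 49 * (G * C ^ 4 * C') * B) * (4 * Real.pi * Real.sin δ) ^ (-z.re) *
      Real.exp (-(z.im ^ 2 / 4)) := by
  unfold O30_N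
  rw [norm_mul, norm_div, norm_mul, norm_mul, norm_mul, norm_pow,
    Complex.norm_cpow_eq_rpow_re_of_pos hs, Complex.norm_exp]
  have e1 : (z ^ 2).re = z.re ^ 2 - z.im ^ 2 := by
    rw [sq, Complex.mul_re]; ring
  have e2 : (-z).re = -z.re := by simp
  rw [e1, e2, div_eq_mul_inv, ← norm_inv]
  have hA := hGb (1 + z) (by simp; linarith) (by simp; linarith)
  have hB := O30_zeta1 hC hZb (1 + z) (by simp; linarith) (by simp; linarith)
  have hB' : (1 + z).im = z.im := by simp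
  rw [hB'] at hB
  have hD := (hZi (2 + 2 * z) (by simp; linarith)).1
  have hE := hJ z h1 h2
  have hB0 : 0 ≤ B := (norm_nonneg _).trans hE
  have hgs := O30_gauss z.re z.im (by rw [abs_le]; constructor <;> linarith)
  have hpw : 0 < (4 * Real.pi * Real.sin δ) ^ (-z.re) := Real.rpow_pos_of_pos hs _
  have hZ4 : ‖riemannZeta₁ (1 + z)‖ ^ 4 ≤ C ^ 4 * Real.exp (3 * |z.im|) ^ 4 := by
    rw [← mul_pow]
    exact pow_le_pow_left₀ (norm_nonneg _) hB 4
  calc Real.exp (z.re ^ 2 - z.im ^ 2) * ‖Complex.Gamma (1 + z)‖ * (4 * Real.pi * Real.sin δ) ^ (-z.re) *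
        ‖riemannZeta₁ (1 + z)‖ ^ 4 * ‖(riemannZeta (2 + 2 * z))⁻¹‖ * ‖J z‖
      ≤ Real.exp (z.re ^ 2 - z.im ^ 2) * G * (4 * Real.pi * Real.sin δ) ^ (-z.re) *
        (C ^ 4 * Real.exp (3 * |z.im|) ^ 4) * C' * B := by gcongr
    _ = (Real.exp (z.re ^ 2 - z.im ^ 2) * Real.exp (3 * |z.im|) ^ 4) * ((G * C ^ 4 * C') * B *
          (4 * Real.pi * Real.sin δ) ^ (-z.re)) := by ring
    _ ≤ (Real.exp 49 * Real.exp (-(z.im ^ 2 / 4))) * ((G * C ^ 4 * C') * B *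
          (4 * Real.pi * Real.sin δ) ^ (-z.re)) := by gcongr
    _ = _ := by ring

/-- O30: shifting the diagonal integral -/
theorem O30_shift : ∃ C : ℝ, 1 ≤ C ∧ ∀ (J : ℂ → ℂ) (B δ ρ : ℝ), 0 < δ → δ ≤ 1/16 → 0 < ρ → ρ ≤ 1/8 →
    (∀ z : ℂ, -(1/2) < z.re → DifferentiableAt ℂ J z) → (∀ z : ℂ, -(1/4) ≤ z.re → z.re ≤ 1/2 → ‖J z‖ ≤ B) →
    ‖VL (1/2) (fun z => Dz δ z * J z) - Av ρ (fun z => z * (Dz δ z * J z))‖ ≤ C * B * δ ^ (1/4 : ℝ) := by
  obtain ⟨G, hG, hGb⟩ := O30_Gamma_bd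
  obtain ⟨C, hC, hZb⟩ := O20_zeta
  obtain ⟨C', hC', hZi⟩ := O20_zeta_inv
  set M : ℝ := Real.exp 49 * (G * C ^ 4 * C') with hM
  have hM0 : 0 < M := by positivity
  set W : ℝ := 1 / (2 * Real.pi) * (M * (4 * Real.pi) ^ (1/4 : ℝ) * 4 ^ 5 * ∫ y : ℝ, Real.exp (-(y ^ 2 / 4))) with hW
  refine ⟨max W 1, le_max_right _ _, ?_⟩
  intro J B δ ρ hδ hδ' hρ hρ' hJd hJb
  have hsin : 0 < Real.sin δ := Real.sin_pos_of_pos_of_lt_pi hδ (by linarith [Real.pi_gt_three])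
  have hs : 0 < 4 * Real.pi * Real.sin δ := by positivity
  have hB0 : 0 ≤ B := (norm_nonneg _).trans (hJb 0 (by simp) (by simp))
  have hbound := O30_bound hG hC hC' hGb hZb hZi J δ hs hJb
  have hd := O30_diff δ J hs (fun w hw => (hZi w hw).2) hJd
  have hshift := O22b_shift5 (N := O30_N δ J) (c := 1/2) (c' := -(1/4))
    (K := M * B * ((4 * Real.pi * Real.sin δ) ^ (-(1/2) : ℝ) + (4 * Real.pi * Real.sin δ) ^ (1/4 : ℝ)))
    hρ (by linarith) (by linarith) (fun z h1 _ => hd z h1) (by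
      intro z h1 h2
      refine (hbound z h1 h2).trans ?_
      have hpw : (4 * Real.pi * Real.sin δ) ^ (-z.re) ≤
          (4 * Real.pi * Real.sin δ) ^ (-(1/2) : ℝ) + (4 * Real.pi * Real.sin δ) ^ (1/4 : ℝ) := by
        have p1 : 0 < (4 * Real.pi * Real.sin δ) ^ (-(1/2) : ℝ) := Real.rpow_pos_of_pos hs _
        have p2 : 0 < (4 * Real.pi * Real.sin δ) ^ (1/4 : ℝ) := Real.rpow_pos_of_pos hs _
        rcases le_total (4 * Real.pi * Real.sin δ) 1 with h | h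
        · have := Real.rpow_le_rpow_of_exponent_ge hs h (show (-(1/2) : ℝ) ≤ -z.re by linarith)
          linarith
        · have := Real.rpow_le_rpow_of_exponent_le h (show -z.re ≤ (1/4 : ℝ) by linarith)
          linarith
      gcongr)
  have hVL : VL (1/2) (fun z => Dz δ z * J z) = VL (1/2) (fun z => O30_N δ J z / z ^ 5) := by
    unfold VL
    congr 1
    apply integral_congr_ae
    filter_upwards with y
    apply O30_eq
    intro h
    have := congrArg Complex.re h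
    simp at this
  have hAv : Av ρ (fun z => z * (Dz δ z * J z)) = Av ρ (fun z => z * (O30_N δ J z / z ^ 5)) := by
    unfold Av
    congr 1
    apply intervalIntegral.integral_congr
    intro θ _
    simp only
    rw [O30_eq]
    intro h
    rw [mul_eq_zero] at h
    rcases h with h | h
    · exact hρ.ne' (by exact_mod_cast h)
    · exact Complex.exp_ne_zero _ h
  have hdiff : VL (1/2) (fun z => Dz δ z * J z) - Av ρ (fun z => z * (Dz δ z * J z))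
      = VL (-(1/4)) (fun z => O30_N δ J z / z ^ 5) := by
    rw [hVL, hAv, ← hshift]
    ring
  rw [hdiff]
  have hgint : Integrable (fun y : ℝ => Real.exp (-(y ^ 2 / 4))) := by
    have := integrable_exp_neg_mul_sq (b := 1/4) (by norm_num)
    refine this.congr ?_
    filter_upwards with y
    congr 1
    ring
  have hpt : ∀ y : ℝ, ‖O30_N δ J (((-(1/4) : ℝ) : ℂ) + y * I) / (((-(1/4) : ℝ) : ℂ) + y * I) ^ 5‖ ≤
      (M * B * ((4 * Real.pi) ^ (1/4 : ℝ) * δ ^ (1/4 : ℝ)) * 4 ^ 5) * Real.exp (-(y ^ 2 / 4)) := by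
    intro y
    set z : ℂ := ((-(1/4) : ℝ) : ℂ) + y * I with hz
    have hre : z.re = -(1/4) := by simp [hz]
    have him : z.im = y := by simp [hz]
    have h1 := hbound z (by rw [hre]) (by rw [hre]; norm_num)
    rw [hre, him, neg_neg] at h1
    have h2 : (4 * Real.pi * Real.sin δ) ^ (1/4 : ℝ) ≤ (4 * Real.pi) ^ (1/4 : ℝ) * δ ^ (1/4 : ℝ) := by
      rw [← Real.mul_rpow (by positivity) hδ.le]
      apply Real.rpow_le_rpow hs.le _ (by norm_num)
      have := Real.sin_le hδ.le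
      gcongr
    have h3 : (1/4 : ℝ) ≤ ‖z‖ := by
      have := Complex.abs_re_le_norm z
      rw [hre] at this
      norm_num at this
      linarith
    have h4 : ((1/4 : ℝ)) ^ 5 ≤ ‖z‖ ^ 5 := pow_le_pow_left₀ (by norm_num) h3 5
    rw [norm_div, norm_pow]
    have h5 : 0 < ‖z‖ ^ 5 := by positivity
    rw [div_le_iff₀ h5]
    refine h1.trans ?_
    have h6 : (1:ℝ) ≤ 4 ^ 5 * ‖z‖ ^ 5 := by
      have : (4:ℝ) ^ 5 * (1/4) ^ 5 = 1 := by norm_num
      nlinarith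
    have h7 : 0 ≤ M * B * ((4 * Real.pi) ^ (1/4 : ℝ) * δ ^ (1/4 : ℝ)) * Real.exp (-(y ^ 2 / 4)) := by positivity
    calc M * B * (4 * Real.pi * Real.sin δ) ^ (1/4 : ℝ) * Real.exp (-(y ^ 2 / 4))
        ≤ M * B * ((4 * Real.pi) ^ (1/4 : ℝ) * δ ^ (1/4 : ℝ)) * Real.exp (-(y ^ 2 / 4)) := by gcongr
      _ ≤ (M * B * ((4 * Real.pi) ^ (1/4 : ℝ) * δ ^ (1/4 : ℝ)) * Real.exp (-(y ^ 2 / 4))) *
          (4 ^ 5 * ‖z‖ ^ 5) := le_mul_of_one_le_right h7 h6
      _ = _ := by ring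
  have hint := norm_integral_le_of_norm_le (hgint.const_mul
    (M * B * ((4 * Real.pi) ^ (1/4 : ℝ) * δ ^ (1/4 : ℝ)) * 4 ^ 5)) (Filter.Eventually.of_forall hpt)
  rw [integral_const_mul] at hint
  unfold VL
  rw [norm_mul, Complex.norm_real, Real.norm_eq_abs, abs_of_pos (by positivity : (0:ℝ) < 1 / (2 * Real.pi))]
  calc 1 / (2 * Real.pi) * ‖∫ y : ℝ, O30_N δ J (((-(1/4) : ℝ) : ℂ) + y * I) / (((-(1/4) : ℝ) : ℂ) + y * I) ^ 5‖
      ≤ 1 / (2 * Real.pi) * ((M * B * ((4 * Real.pi) ^ (1/4 : ℝ) * δ ^ (1/4 : ℝ)) * 4 ^ 5) *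
        ∫ y : ℝ, Real.exp (-(y ^ 2 / 4))) := by gcongr
    _ = W * B * δ ^ (1/4 : ℝ) := by rw [hW]; ring
    _ ≤ max W 1 * B * δ ^ (1/4 : ℝ) := by
        gcongr
        exact le_max_left _ _

end Pool.Agent.LibF4
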