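import Mathlib
import Pool.Agent.LibF4.ODefs
import Pool.Agent.LibF4.O20

/-! Row O31.
z Dz = h(z) z^{-4} e^{zℓ}, ℓ = -log(4π sin δ), h(z) = e^{z²}Γ(1+z)(zζ(1+z))^4/ζ(2+2z) analytic near 0, h(0) = 1/ζ(2) = 6/π². Av ρ (z^{-4} e^{zℓ}) = ℓ⁴/24 (power series/Cauchy). |h(z)-h(0)| ≤ C|z|. |e^{zℓ}| ≤ C_κ on |z| = ρ = κ/log(1/δ) as |ℓ| ≤ log(1/δ)+3.
So Av = ℓ⁴/24 * 6/π² J0 + O(ρ^{-3}(‖J0‖ + D)); ℓ⁴ = log(1/δ)⁴ + O(log³); 1/sin δ = 1/δ + O(δ).
-/

set_option autoImplicit false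

namespace Pool.Agent.LibF4

open MeasureTheory Set Filter Topology Complex
open scoped ComplexConjugate

/-- The regular part of the kernel. -/
noncomputable def O31_h (z : ℂ) : ℂ :=
  cexp (z ^ 2) * Complex.Gamma (1 + z) * riemannZeta₁ (1 + z) ^ 4 / riemannZeta (2 + 2 * z)

theorem O31_re {z : ℂ} (hz : ‖z‖ < 1/4) : -(1/4) < z.re ∧ z.re < 1/4 :=
  abs_lt.1 ((Complex.abs_re_le_norm z).trans_lt hz)

theorem O31_h_diff {z : ℂ} (hz : ‖z‖ < 1/4) : DifferentiableAt ℂ O31_h z := by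
  obtain ⟨r1, r2⟩ := O31_re hz
  have h1 : DifferentiableAt ℂ Complex.Gamma (1 + z) := by
    apply Complex.differentiableAt_Gamma _
    intro m hm
    have h2 := congrArg Complex.re hm
    rw [Complex.add_re, Complex.one_re, Complex.neg_re, Complex.natCast_re] at h2
    have : (0 : ℝ) ≤ m := Nat.cast_nonneg m
    linarith
  have h2 : 3/2 ≤ (2 + 2 * z).re := by
    simp only [Complex.add_re, Complex.mul_re, Complex.re_ofNat, Complex.im_ofNat, zero_mul,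
      sub_zero]
    linarith
  have hz1 : (2 + 2 * z) ≠ 1 := by
    intro h
    rw [h, Complex.one_re] at h2
    linarith
  obtain ⟨C, -, hC⟩ := O20_zeta_inv
  have d1 : DifferentiableAt ℂ (fun z : ℂ => Complex.Gamma (1 + z)) z :=
    DifferentiableAt.comp (g := Complex.Gamma) (f := fun z : ℂ => 1 + z) z h1 (by fun_prop)
  have d2 : DifferentiableAt ℂ (fun z : ℂ => riemannZeta₁ (1 + z)) z :=
    DifferentiableAt.comp (g := riemannZeta₁) (f := fun z : ℂ => 1 + z) z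
      (differentiable_riemannZeta₁ _) (by fun_prop)
  have d3 : DifferentiableAt ℂ (fun z : ℂ => riemannZeta (2 + 2 * z)) z :=
    DifferentiableAt.comp (g := riemannZeta) (f := fun z : ℂ => 2 + 2 * z) z
      (differentiableAt_riemannZeta hz1) (by fun_prop)
  unfold O31_h
  exact ((DifferentiableAt.mul (by fun_prop) d1).mul (d2.pow 4)).fun_div d3 (hC _ h2).2

theorem O31_h_zero : O31_h 0 = ((6 / Real.pi ^ 2 : ℝ) : ℂ) := by
  unfold O31_h
  simp only [mul_zero, add_zero, Complex.Gamma_one, riemannZeta₁_one, riemannZeta_two]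
  push_cast
  simp

theorem O31_h_bd : ∃ M : ℝ, 1 ≤ M ∧ ∀ z : ℂ, ‖z‖ ≤ 1/8 → ‖O31_h z‖ ≤ M ∧
    ‖O31_h z - O31_h 0‖ ≤ M * ‖z‖ := by
  have hU : IsOpen (Metric.ball (0 : ℂ) (1/4)) := Metric.isOpen_ball
  have hd : DifferentiableOn ℂ O31_h (Metric.ball (0 : ℂ) (1/4)) := by
    intro z hz
    exact (O31_h_diff (by simpa using hz)).differentiableWithinAt
  have hsub : Metric.closedBall (0 : ℂ) (1/8) ⊆ Metric.ball (0 : ℂ) (1/4) :=
    Metric.closedBall_subset_ball (by norm_num)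
  have hcomp : IsCompact (Metric.closedBall (0 : ℂ) (1/8)) := isCompact_closedBall _ _
  obtain ⟨M₁, hM₁⟩ := hcomp.exists_bound_of_continuousOn (hd.continuousOn.mono hsub)
  obtain ⟨M₂, hM₂⟩ := hcomp.exists_bound_of_continuousOn ((hd.deriv hU).continuousOn.mono hsub)
  have h1 : 0 ≤ M₁ := (norm_nonneg _).trans (hM₁ 0 (by simp))
  have h2 : 0 ≤ M₂ := (norm_nonneg _).trans (hM₂ 0 (by simp))
  refine ⟨1 + M₁ + M₂, by linarith, fun z hz => ⟨?_, ?_⟩⟩
  · have := hM₁ z (by simpa using hz)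
    linarith
  · have h3 := Convex.norm_image_sub_le_of_norm_deriv_le (f := O31_h) (C := M₂)
      (s := Metric.closedBall (0 : ℂ) (1/8)) (x := 0) (y := z)
      (fun x hx => O31_h_diff (by simpa using hsub hx)) hM₂ (convex_closedBall _ _) (by simp)
      (by simpa using hz)
    rw [sub_zero] at h3
    refine h3.trans (mul_le_mul_of_nonneg_right (by linarith) (norm_nonneg _))

/-- The average of `z^(-4) e^(zℓ)`. -/
theorem O31_av {ρ : ℝ} (hρ : 0 < ρ) (ℓ : ℂ) :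
    Av ρ (fun z => (z ^ 4)⁻¹ * cexp (z * ℓ)) = ℓ ^ 4 / 24 := by
  have h1 : DifferentiableOn ℂ (fun z : ℂ => cexp (z * ℓ)) (Metric.closedBall 0 ρ) := by
    intro z _
    exact DifferentiableAt.differentiableWithinAt (by fun_prop)
  have h2 := DifferentiableOn.circleIntegral_one_div_sub_center_pow_smul hρ 4 h1
  have h3 : iteratedDeriv 4 (fun z : ℂ => cexp (z * ℓ)) 0 = ℓ ^ 4 := by
    have h4 : (fun z : ℂ => cexp (z * ℓ)) = fun z : ℂ => cexp (ℓ * z) := by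
      funext z
      rw [mul_comm]
    rw [h4, iteratedDeriv_cexp_const_mul]
    simp
  rw [h3] at h2
  unfold Av
  have h5 : (∮ z in C(0, ρ), (1 / (z - 0) ^ (4 + 1)) • cexp (z * ℓ)) =
      I * ∫ θ in (0 : ℝ)..(2 * Real.pi),
        ((ρ * cexp (θ * I)) ^ 4)⁻¹ * cexp (ρ * cexp (θ * I) * ℓ) := by
    unfold circleIntegral
    rw [← intervalIntegral.integral_const_mul]
    apply intervalIntegral.integral_congr
    intro θ _
    simp only [deriv_circleMap, circleMap, zero_add, sub_zero, smul_eq_mul]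
    have h6 : (ρ : ℂ) * cexp (θ * I) ≠ 0 :=
      mul_ne_zero (Complex.ofReal_ne_zero.2 hρ.ne') (Complex.exp_ne_zero _)
    generalize (ρ : ℂ) * cexp (θ * I) = w at *
    field_simp
  rw [h5] at h2
  have hpi : (Real.pi : ℂ) ≠ 0 := Complex.ofReal_ne_zero.2 Real.pi_ne_zero
  have h7 : ∫ θ in (0 : ℝ)..(2 * Real.pi),
        ((ρ * cexp (θ * I)) ^ 4)⁻¹ * cexp (ρ * cexp (θ * I) * ℓ) =
      2 * Real.pi / 24 * ℓ ^ 4 := by
    apply mul_left_cancel₀ Complex.I_ne_zero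
    rw [h2]
    have h8 : ((Nat.factorial 4 : ℕ) : ℂ) = 24 := by
      norm_num [Nat.factorial]
    rw [h8, smul_eq_mul]
    ring
  rw [h7]
  push_cast
  field_simp

/-- The kernel on a small circle. -/
theorem O31_Dz {δ : ℝ} (h0 : 0 < Real.sin δ) {z : ℂ} (hz : z ≠ 0) :
    z * Dz δ z = O31_h z * ((z ^ 4)⁻¹ *
      cexp (z * ((-Real.log (4 * Real.pi * Real.sin δ) : ℝ) : ℂ))) := by
  have h1 : (0 : ℝ) < 4 * Real.pi * Real.sin δ := by positivity
  have h2 : (1 + z) ≠ 1 := by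
    intro h
    apply hz
    linear_combination h
  have h3 : riemannZeta (1 + z) = z⁻¹ * riemannZeta₁ (1 + z) := by
    rw [riemannZeta_eq_inv_sub_mul h2]
    congr 2
    ring
  have h4 : ((4 * Real.pi * Real.sin δ : ℝ) : ℂ) ^ (-z) =
      cexp (z * ((-Real.log (4 * Real.pi * Real.sin δ) : ℝ) : ℂ)) := by
    rw [Complex.cpow_def_of_ne_zero (Complex.ofReal_ne_zero.2 h1.ne'), ← Complex.ofReal_log h1.le]
    congr 1
    push_cast
    ring
  unfold Dz O31_h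
  rw [h4, h3]
  field_simp

theorem O31_sin {δ : ℝ} (h0 : 0 < δ) (h1 : δ ≤ 1/16) :
    δ / 2 ≤ Real.sin δ ∧ Real.sin δ ≤ δ ∧ δ - Real.sin δ ≤ δ ^ 3 / 6 := by
  have h2 := Real.mul_le_sin h0.le (by linarith [Real.pi_gt_three])
  have h3 := Real.sin_le h0.le
  have h4 := Real.sin_gt_sub_cube h0
  refine ⟨?_, h3, by linarith⟩
  have h5 : 1 / 2 * δ ≤ 2 / Real.pi * δ := by
    apply mul_le_mul_of_nonneg_right _ h0.le
    rw [div_le_div_iff₀ (by norm_num) Real.pi_pos]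
    linarith [Real.pi_le_four]
  linarith

/-- The size of `ℓ`. -/
theorem O31_ell {δ : ℝ} (h0 : 0 < δ) (h1 : δ ≤ 1/16) :
    2 ≤ Real.log (1 / δ) ∧
    |-Real.log (4 * Real.pi * Real.sin δ) - Real.log (1 / δ)| ≤ 3 ∧
    Real.log (1 / δ) ≤ 1 / δ := by
  obtain ⟨s1, s2, -⟩ := O31_sin h0 h1
  have hs : 0 < Real.sin δ := by linarith
  have hL : Real.log (1 / δ) = -Real.log δ := by
    rw [one_div, Real.log_inv]
  refine ⟨?_, ?_, ?_⟩
  · rw [Real.le_log_iff_exp_le (by positivity)]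
    have h2 : (16 : ℝ) ≤ 1 / δ := by
      rw [le_div_iff₀ h0]
      linarith
    have h3 : Real.exp 2 ≤ 16 := by
      have h4 := Real.exp_one_lt_d9
      have h5 : Real.exp 2 = Real.exp 1 ^ 2 := by
        rw [← Real.exp_nat_mul]
        norm_num
      rw [h5]
      nlinarith [Real.exp_pos 1]
    linarith
  · rw [hL, Real.log_mul (by positivity) hs.ne']
    have e1 : -(Real.log (4 * Real.pi) + Real.log (Real.sin δ)) - -Real.log δ =
        Real.log (δ / Real.sin δ) - Real.log (4 * Real.pi) := by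
      rw [Real.log_div h0.ne' hs.ne']
      ring
    rw [e1]
    have a1 : 0 ≤ Real.log (δ / Real.sin δ) := by
      apply Real.log_nonneg
      rw [le_div_iff₀ hs]
      linarith
    have a2 : Real.log (δ / Real.sin δ) ≤ 1 := by
      have h5 := Real.log_le_sub_one_of_pos (show 0 < δ / Real.sin δ by positivity)
      have h6 : δ / Real.sin δ ≤ 2 := by
        rw [div_le_iff₀ hs]
        linarith
      linarith
    have a3 : 0 ≤ Real.log (4 * Real.pi) := by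
      apply Real.log_nonneg
      linarith [Real.pi_gt_three]
    have a4 : Real.log (4 * Real.pi) ≤ 3 := by
      rw [Real.log_le_iff_le_exp (by positivity)]
      have h7 := Real.exp_one_gt_d9
      have h8 : Real.exp 3 = Real.exp 1 ^ 3 := by
        rw [← Real.exp_nat_mul]
        norm_num
      rw [h8]
      have h9 : (16 : ℝ) ≤ Real.exp 1 ^ 3 := by
        have h10 : (2.7 : ℝ) ≤ Real.exp 1 := by linarith
        have h11 := pow_le_pow_left₀ (by norm_num) h10 3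
        norm_num at h11
        linarith
      linarith [Real.pi_le_four]
    rw [abs_le]
    constructor <;> linarith
  · have h2 := Real.log_le_sub_one_of_pos (show 0 < 1 / δ by positivity)
    linarith

/-- The main term. -/
theorem O31_main {δ : ℝ} (h0 : 0 < δ) (h1 : δ ≤ 1/16) {ℓ : ℝ}
    (hℓ : |ℓ - Real.log (1 / δ)| ≤ 3) :
    |1 / Real.sin δ * (6 / Real.pi ^ 2 * (ℓ ^ 4 / 24)) -
      1 / (4 * Real.pi ^ 2 * δ) * Real.log (1 / δ) ^ 4| ≤
      60 * δ⁻¹ * Real.log (1 / δ) ^ 3 := by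
  obtain ⟨s1, s2, s3⟩ := O31_sin h0 h1
  obtain ⟨l1, -, l3⟩ := O31_ell h0 h1
  set L := Real.log (1 / δ) with hL
  have hs : 0 < Real.sin δ := by linarith
  have hpi := Real.pi_gt_three
  obtain ⟨b1, b2⟩ := abs_le.1 hℓ
  have e1 : 1 / Real.sin δ * (6 / Real.pi ^ 2 * (ℓ ^ 4 / 24)) - 1 / (4 * Real.pi ^ 2 * δ) * L ^ 4
      = 1 / (4 * Real.pi ^ 2) * ((ℓ ^ 4 - L ^ 4) / Real.sin δ +
        L ^ 4 * ((δ - Real.sin δ) / (δ * Real.sin δ))) := by
    field_simp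
    ring
  rw [e1]
  have hℓ1 : |ℓ| ≤ 3 * L := by
    rw [abs_le]
    constructor <;> linarith
  have hLabs : |L| ≤ 3 * L := by
    rw [abs_of_nonneg (by linarith)]
    linarith
  have h2 : |ℓ ^ 4 - L ^ 4| ≤ 324 * L ^ 3 := by
    have e2 : ℓ ^ 4 - L ^ 4 = (ℓ - L) * (ℓ ^ 3 + ℓ ^ 2 * L + ℓ * L ^ 2 + L ^ 3) := by ring
    rw [e2, abs_mul]
    have h3 : |ℓ ^ 3 + ℓ ^ 2 * L + ℓ * L ^ 2 + L ^ 3| ≤ 4 * (3 * L) ^ 3 := by
      have p1 : |ℓ ^ 3| ≤ (3 * L) ^ 3 := by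
        rw [abs_pow]
        exact pow_le_pow_left₀ (abs_nonneg _) hℓ1 3
      have p2 : |ℓ ^ 2 * L| ≤ (3 * L) ^ 3 := by
        rw [abs_mul, abs_pow, pow_succ (3 * L) 2]
        exact mul_le_mul (pow_le_pow_left₀ (abs_nonneg _) hℓ1 2) hLabs (abs_nonneg _)
          (by positivity)
      have p3 : |ℓ * L ^ 2| ≤ (3 * L) ^ 3 := by
        rw [abs_mul, abs_pow, pow_succ' (3 * L) 2]
        exact mul_le_mul hℓ1 (pow_le_pow_left₀ (abs_nonneg _) hLabs 2) (by positivity)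
          (by linarith)
      have p4 : |L ^ 3| ≤ (3 * L) ^ 3 := by
        rw [abs_pow]
        exact pow_le_pow_left₀ (abs_nonneg _) hLabs 3
      have q1 := abs_add_le (ℓ ^ 3 + ℓ ^ 2 * L + ℓ * L ^ 2) (L ^ 3)
      have q2 := abs_add_le (ℓ ^ 3 + ℓ ^ 2 * L) (ℓ * L ^ 2)
      have q3 := abs_add_le (ℓ ^ 3) (ℓ ^ 2 * L)
      linarith
    have h4 := mul_le_mul hℓ h3 (abs_nonneg _) (by norm_num)
    refine h4.trans_eq ?_
    ring
  have h5 : |(ℓ ^ 4 - L ^ 4) / Real.sin δ| ≤ 648 * δ⁻¹ * L ^ 3 := by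
    rw [abs_div, abs_of_pos hs, div_le_iff₀ hs]
    have h6 : 1 ≤ 2 * δ⁻¹ * Real.sin δ := by
      have h7 : 2 * δ⁻¹ * (δ / 2) ≤ 2 * δ⁻¹ * Real.sin δ :=
        mul_le_mul_of_nonneg_left s1 (by positivity)
      have h8 : 2 * δ⁻¹ * (δ / 2) = 1 := by field_simp
      linarith
    have hL3 : 0 ≤ L ^ 3 := by positivity
    have h9 : 324 * L ^ 3 * 1 ≤ 324 * L ^ 3 * (2 * δ⁻¹ * Real.sin δ) :=
      mul_le_mul_of_nonneg_left h6 (by positivity)
    refine h2.trans ?_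
    linarith
  have h10 : |L ^ 4 * ((δ - Real.sin δ) / (δ * Real.sin δ))| ≤ δ⁻¹ * L ^ 3 := by
    have h11 : 0 ≤ (δ - Real.sin δ) / (δ * Real.sin δ) :=
      div_nonneg (by linarith) (by positivity)
    rw [abs_of_nonneg (by positivity)]
    have h12 : (δ - Real.sin δ) / (δ * Real.sin δ) ≤ δ := by
      rw [div_le_iff₀ (by positivity)]
      have h13 : δ * (δ * (δ / 2)) ≤ δ * (δ * Real.sin δ) := by
        apply mul_le_mul_of_nonneg_left _ h0.le
        exact mul_le_mul_of_nonneg_left s1 h0.le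
      nlinarith [pow_pos h0 3]
    have h14 : L * δ ≤ δ⁻¹ := by
      have h15 : L * δ ≤ 1 / δ * δ := mul_le_mul_of_nonneg_right l3 h0.le
      rw [one_div, inv_mul_cancel₀ h0.ne'] at h15
      have h16 : (1 : ℝ) ≤ δ⁻¹ := by
        rw [one_le_inv₀ h0]
        linarith
      linarith
    have h17 := mul_le_mul_of_nonneg_left h12 (show 0 ≤ L ^ 4 by positivity)
    have h18 := mul_le_mul_of_nonneg_left h14 (show 0 ≤ L ^ 3 by positivity)
    have e3 : L ^ 4 * δ = L ^ 3 * (L * δ) := by ring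
    rw [e3] at h17
    linarith
  rw [abs_mul, abs_of_pos (by positivity)]
  have h19 := (abs_add_le ((ℓ ^ 4 - L ^ 4) / Real.sin δ)
    (L ^ 4 * ((δ - Real.sin δ) / (δ * Real.sin δ)))).trans (add_le_add h5 h10)
  have h20 : 1 / (4 * Real.pi ^ 2) ≤ 1 / 36 := by
    apply div_le_div_of_nonneg_left (by norm_num) (by norm_num)
    nlinarith
  have h21 := mul_le_mul h20 h19 (abs_nonneg _) (by norm_num)
  have h22 : 0 ≤ δ⁻¹ * L ^ 3 := by positivity
  refine h21.trans ?_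
  linarith

/-- O31: the leading coefficient -/
theorem O31_lead (κ : ℝ) (hκ : 0 < κ) (hκ1 : κ ≤ 1/8) : ∃ C : ℝ, 1 ≤ C ∧ ∀ (J : ℂ → ℂ) (J0 : ℂ) (D δ : ℝ), 0 < δ → δ ≤ 1/16 →
    (∀ z : ℂ, ‖z‖ = κ / Real.log (1 / δ) → ‖J z - J0‖ ≤ D * ‖z‖) → ContinuousOn J (Metric.closedBall 0 (1/8)) →
    ‖((1 / Real.sin δ : ℝ) : ℂ) * Av (κ / Real.log (1 / δ)) (fun z => z * (Dz δ z * J z)) -
      ((1 / (4 * Real.pi ^ 2 * δ) * Real.log (1 / δ) ^ 4 : ℝ) : ℂ) * J0‖ ≤
      C * δ⁻¹ * (D + ‖J0‖) * Real.log (1 / δ) ^ 3 := by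
  obtain ⟨M, hM1, hM⟩ := O31_h_bd
  refine ⟨60 + 2 * (M * Real.exp 1 / κ ^ 3), ?_, ?_⟩
  · have : 0 ≤ 2 * (M * Real.exp 1 / κ ^ 3) := by positivity
    linarith
  intro J J0 D δ h0 h1 hJ hJc
  obtain ⟨s1, s2, s3⟩ := O31_sin h0 h1
  obtain ⟨l1, l2, l3⟩ := O31_ell h0 h1
  set L := Real.log (1 / δ) with hL
  set ρ := κ / L with hρdef
  set ℓ : ℝ := -Real.log (4 * Real.pi * Real.sin δ) with hℓ
  have hLpos : 0 < L := by linarith
  have hs : 0 < Real.sin δ := by linarith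
  have hρ : 0 < ρ := by positivity
  have hρ1 : ρ ≤ 1/8 := by
    rw [hρdef, div_le_iff₀ hLpos]
    nlinarith
  have hnorm : ∀ θ : ℝ, ‖(ρ : ℂ) * cexp (θ * I)‖ = ρ := by
    intro θ
    rw [norm_mul, Complex.norm_exp_ofReal_mul_I, mul_one, Complex.norm_real, Real.norm_eq_abs,
      abs_of_pos hρ]
  have hne : ∀ θ : ℝ, (ρ : ℂ) * cexp (θ * I) ≠ 0 := fun θ =>
    mul_ne_zero (Complex.ofReal_ne_zero.2 hρ.ne') (Complex.exp_ne_zero _)
  have hD0 : 0 ≤ D := by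
    have h2 := hJ ((ρ : ℂ) * cexp ((0 : ℝ) * I)) (hnorm 0)
    rw [hnorm] at h2
    have h3 := (norm_nonneg _).trans h2
    by_contra hlt
    push Not at hlt
    have h4 := mul_neg_of_neg_of_pos hlt hρ
    linarith
  have hcirc : Continuous (fun θ : ℝ => (ρ : ℂ) * cexp (θ * I)) := by fun_prop
  have hk : Continuous (fun θ : ℝ => (((ρ : ℂ) * cexp (θ * I)) ^ 4)⁻¹ *
      cexp ((ρ : ℂ) * cexp (θ * I) * (ℓ : ℂ))) := by
    apply Continuous.mul
    · exact Continuous.inv₀ (by fun_prop) fun θ => pow_ne_zero 4 (hne θ)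
    · fun_prop
  have hhc : Continuous (fun θ : ℝ => O31_h ((ρ : ℂ) * cexp (θ * I))) := by
    rw [continuous_iff_continuousAt]
    intro θ
    exact ContinuousAt.comp (g := O31_h) (f := fun θ : ℝ => (ρ : ℂ) * cexp (θ * I))
      (O31_h_diff (by rw [hnorm]; linarith)).continuousAt hcirc.continuousAt
  have hJcc : Continuous (fun θ : ℝ => J ((ρ : ℂ) * cexp (θ * I))) :=
    hJc.comp_continuous hcirc fun θ => by
      rw [mem_closedBall_zero_iff, hnorm]
      exact hρ1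
  have hsplit : Av ρ (fun z => z * (Dz δ z * J z)) = ((6 / Real.pi ^ 2 : ℝ) : ℂ) * J0 *
      ((ℓ : ℂ) ^ 4 / 24) + Av ρ (fun z => (O31_h z * J z - O31_h 0 * J0) *
        ((z ^ 4)⁻¹ * cexp (z * (ℓ : ℂ)))) := by
    rw [← O31_av hρ (ℓ : ℂ), ← O31_h_zero]
    unfold Av
    have e1 : O31_h 0 * J0 * (((1 / (2 * Real.pi) : ℝ) : ℂ) * ∫ θ in (0 : ℝ)..(2 * Real.pi),
        ((((ρ : ℂ) * cexp (θ * I)) ^ 4)⁻¹ * cexp ((ρ : ℂ) * cexp (θ * I) * (ℓ : ℂ)))) =
        ((1 / (2 * Real.pi) : ℝ) : ℂ) * ∫ θ in (0 : ℝ)..(2 * Real.pi),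
        (O31_h 0 * J0) * ((((ρ : ℂ) * cexp (θ * I)) ^ 4)⁻¹ *
          cexp ((ρ : ℂ) * cexp (θ * I) * (ℓ : ℂ))) := by
      rw [intervalIntegral.integral_const_mul]
      ring
    rw [e1, ← mul_add, ← intervalIntegral.integral_add]
    · congr 1
      apply intervalIntegral.integral_congr
      intro θ _
      simp only
      rw [← mul_assoc, O31_Dz hs (hne θ)]
      ring
    · exact (continuous_const.mul hk).intervalIntegrable _ _
    · exact (((hhc.mul hJcc).sub continuous_const).mul hk).intervalIntegrable _ _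
  have herr : ‖Av ρ (fun z => (O31_h z * J z - O31_h 0 * J0) *
        ((z ^ 4)⁻¹ * cexp (z * (ℓ : ℂ))))‖ ≤ M * (D + ‖J0‖) * Real.exp 1 / ρ ^ 3 := by
    unfold Av
    have hb : ∀ θ ∈ Set.uIoc (0 : ℝ) (2 * Real.pi),
        ‖(O31_h ((ρ : ℂ) * cexp (θ * I)) * J ((ρ : ℂ) * cexp (θ * I)) - O31_h 0 * J0) *
        ((((ρ : ℂ) * cexp (θ * I)) ^ 4)⁻¹ * cexp ((ρ : ℂ) * cexp (θ * I) * (ℓ : ℂ)))‖ ≤
        M * (D + ‖J0‖) * Real.exp 1 / ρ ^ 3 := by
      intro θ _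
      have hz := hnorm θ
      have hJz := hJ _ hz
      generalize (ρ : ℂ) * cexp (θ * I) = z at *
      obtain ⟨m1, m2⟩ := hM z (by rw [hz]; exact hρ1)
      have e2 : O31_h z * J z - O31_h 0 * J0 =
          O31_h z * (J z - J0) + (O31_h z - O31_h 0) * J0 := by ring
      have c1 : ‖O31_h z * J z - O31_h 0 * J0‖ ≤ M * (D + ‖J0‖) * ρ := by
        rw [e2]
        refine (norm_add_le _ _).trans ?_
        rw [norm_mul, norm_mul]
        rw [hz] at hJz m2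
        have c2 := mul_le_mul m1 hJz (norm_nonneg _) (by linarith)
        have c3 := mul_le_mul_of_nonneg_right m2 (norm_nonneg J0)
        linarith
      have c4 : ‖cexp (z * (ℓ : ℂ))‖ ≤ Real.exp 1 := by
        refine (Complex.norm_exp_le_exp_norm _).trans ?_
        apply Real.exp_le_exp.2
        rw [norm_mul, hz, Complex.norm_real, Real.norm_eq_abs]
        have c5 : |ℓ| ≤ 3 * L := by
          obtain ⟨b1, b2⟩ := abs_le.1 l2
          rw [abs_le]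
          constructor <;> linarith
        have c6 := mul_le_mul_of_nonneg_left c5 hρ.le
        have c7 : ρ * (3 * L) = 3 * κ := by
          rw [hρdef]
          field_simp
        linarith
      rw [norm_mul, norm_mul, norm_inv, norm_pow, hz]
      have c8 := mul_le_mul c1 (mul_le_mul_of_nonneg_left c4
        (show 0 ≤ (ρ ^ 4)⁻¹ by positivity)) (by positivity) (by positivity)
      refine c8.trans_eq ?_
      field_simp
    have h2 := intervalIntegral.norm_integral_le_of_norm_le_const hb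
    rw [norm_mul, Complex.norm_real, Real.norm_eq_abs, abs_of_pos (by positivity)]
    have hpi := Real.pi_pos
    rw [sub_zero, abs_of_pos (by positivity)] at h2
    have h3 := mul_le_mul_of_nonneg_left h2 (show 0 ≤ 1 / (2 * Real.pi) by positivity)
    refine h3.trans_eq ?_
    field_simp
  have hmain := O31_main h0 h1 l2
  rw [hsplit]
  have e3 : ((1 / Real.sin δ : ℝ) : ℂ) * (((6 / Real.pi ^ 2 : ℝ) : ℂ) * J0 *
      ((ℓ : ℂ) ^ 4 / 24) + Av ρ (fun z => (O31_h z * J z - O31_h 0 * J0) *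
        ((z ^ 4)⁻¹ * cexp (z * (ℓ : ℂ))))) -
      ((1 / (4 * Real.pi ^ 2 * δ) * L ^ 4 : ℝ) : ℂ) * J0 =
      ((1 / Real.sin δ * (6 / Real.pi ^ 2 * (ℓ ^ 4 / 24)) -
        1 / (4 * Real.pi ^ 2 * δ) * L ^ 4 : ℝ) : ℂ) * J0 +
      ((1 / Real.sin δ : ℝ) : ℂ) * Av ρ (fun z => (O31_h z * J z - O31_h 0 * J0) *
        ((z ^ 4)⁻¹ * cexp (z * (ℓ : ℂ)))) := by
    push_cast
    ring
  rw [e3]
  refine (norm_add_le _ _).trans ?_
  rw [norm_mul, norm_mul, Complex.norm_real, Complex.norm_real, Real.norm_eq_abs,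
    Real.norm_eq_abs, abs_of_pos (show 0 < 1 / Real.sin δ by positivity)]
  have t1 : |1 / Real.sin δ * (6 / Real.pi ^ 2 * (ℓ ^ 4 / 24)) -
      1 / (4 * Real.pi ^ 2 * δ) * L ^ 4| * ‖J0‖ ≤ 60 * δ⁻¹ * L ^ 3 * (D + ‖J0‖) := by
    apply mul_le_mul hmain (by linarith) (norm_nonneg _) (by positivity)
  have t2 : 1 / Real.sin δ ≤ 2 * δ⁻¹ := by
    rw [div_le_iff₀ hs]
    have h7 : 2 * δ⁻¹ * (δ / 2) ≤ 2 * δ⁻¹ * Real.sin δ :=
      mul_le_mul_of_nonneg_left s1 (by positivity)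
    have h8 : 2 * δ⁻¹ * (δ / 2) = 1 := by field_simp
    linarith
  have t3 := mul_le_mul t2 herr (norm_nonneg _) (by positivity)
  have e4 : 2 * δ⁻¹ * (M * (D + ‖J0‖) * Real.exp 1 / ρ ^ 3) =
      2 * (M * Real.exp 1 / κ ^ 3) * δ⁻¹ * (D + ‖J0‖) * L ^ 3 := by
    rw [hρdef]
    field_simp
  rw [e4] at t3
  refine (add_le_add t1 t3).trans_eq ?_
  ring

end Pool.Agent.LibF4
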