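import Mathlib
import Pool.Agent.LibF4.ODefs
import Pool.Agent.LibF4.O17
import Pool.Agent.LibF4.O18
import Pool.Agent.LibF4.O19

/-! Row O32.
Finite sums: Differentiable.fun_sum / DifferentiableAt.fun_sum, ContinuousOn sums with constant factors, symm termwise by O18_symm, bound by norm_sum_le and O17_JF_bd.
-/

set_option autoImplicit false

namespace Pool.Agent.LibF4

open MeasureTheory Set Filter Topology Complex
open scoped ComplexConjugate

/-- O32: the functional of a polynomial is odd in the sense of `OddJ` -/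
theorem O32_OddJ (S : Finset (ℕ × ℕ)) (c : ℕ × ℕ → ℂ) (mm nn : ℕ × ℕ → ℕ) (hm : ∀ q ∈ S, 1 ≤ mm q) (hn : ∀ q ∈ S, 1 ≤ nn q) :
    OddJ (fun α β z => ∑ q ∈ S, c q * JF (mm q) (nn q) α β z) (∑ q ∈ S, ‖c q‖ * ((mm q : ℝ) * nn q) ^ 12) := by
  refine ⟨?_, ?_, ?_, ?_⟩
  · intro α β hα hβ
    apply Differentiable.fun_sum
    intro q hq
    exact ((O19_JF_cont (hm q hq) (hn q hq)).1 α β hα hβ).const_mul _
  · apply continuousOn_finsetSum
    intro q hq
    exact continuousOn_const.mul (O19_JF_cont (hm q hq) (hn q hq)).2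
  · intro α β z
    apply Finset.sum_congr rfl
    intro q hq
    rw [O18_symm _ _ (hm q hq) (hn q hq)]
  · intro α β z hα hβ hz
    refine (norm_sum_le _ _).trans ?_
    apply Finset.sum_le_sum
    intro q hq
    rw [norm_mul]
    exact mul_le_mul_of_nonneg_left (O17_JF_bd (hm q hq) (hn q hq) hα hβ hz) (norm_nonneg _)

end Pool.Agent.LibF4
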