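import Mathlib
import Pool.Agent.LibF4.ODefs
import Pool.Agent.LibF4.O16
import Pool.Agent.LibF4.O17
import Pool.Agent.LibF4.O19
import Pool.Agent.LibF4.O24

/-! Row O33.
O16_OM for every q ∈ S, then linearity: VL of a finite sum (integrable: ‖(cos δ)^(s-z)‖ ≤ e^{|y|}-type bound, O24_Kz Gaussian, JF bounded by O17), Av ρ of a finite sum twice (interval integrable since θ ↦ ... is continuous:
α ↦ wk α, cs δ (α+β) continuous on the circle, (α,β) ↦ VL(...) continuous by dominated convergence; it suffices to have continuity of L_q(α,β) on closedBall × closedBall). Write L_q(α,β) := 2 VL(...) and first prove: (α,β) ↦ L_q is ContinuousOn (closedBall 0 (1/8) ×ˢ closedBall 0 (1/8)).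
-/

set_option autoImplicit false

namespace Pool.Agent.LibF4

open MeasureTheory Set Filter Topology Complex
open scoped ComplexConjugate

theorem O33_circ {ρ : ℝ} (hρ : 0 < ρ) (θ : ℝ) : ‖(ρ : ℂ) * cexp (θ * I)‖ = ρ := by
  rw [norm_mul, Complex.norm_exp_ofReal_mul_I, mul_one, Complex.norm_real,
    Real.norm_of_nonneg hρ.le]

theorem O33_Av_congr {ρ : ℝ} (hρ : 0 < ρ) {h h' : ℂ → ℂ} (H : ∀ α : ℂ, ‖α‖ = ρ → h α = h' α) :
    Av ρ h = Av ρ h' := by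
  unfold Av
  congr 1
  refine intervalIntegral.integral_congr fun θ _ => ?_
  exact H _ (O33_circ hρ θ)

/-- double averages are linear on continuous functions -/
theorem O33_lin {ρ : ℝ} (S : Finset (ℕ × ℕ)) (c : ℕ × ℕ → ℂ) (Ψ : ℕ × ℕ → ℂ → ℂ → ℂ)
    (hΨ : ∀ q ∈ S, Continuous fun p : ℝ × ℝ =>
      Ψ q ((ρ : ℂ) * cexp (p.1 * I)) ((ρ : ℂ) * cexp (p.2 * I))) :
    Av ρ (fun α => Av ρ (fun β => ∑ q ∈ S, c q * Ψ q α β)) =
      ∑ q ∈ S, c q * Av ρ (fun α => Av ρ (fun β => Ψ q α β)) := by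
  have hin : ∀ θ' : ℝ, Av ρ (fun β => ∑ q ∈ S, c q * Ψ q ((ρ : ℂ) * cexp (θ' * I)) β) =
      ∑ q ∈ S, c q * Av ρ (fun β => Ψ q ((ρ : ℂ) * cexp (θ' * I)) β) := by
    intro θ'
    unfold Av
    rw [intervalIntegral.integral_finsetSum]
    · rw [Finset.mul_sum]
      refine Finset.sum_congr rfl fun q hq => ?_
      rw [intervalIntegral.integral_const_mul]
      ring
    · intro q hq
      refine Continuous.intervalIntegrable ?_ _ _
      have h1 : Continuous fun θ : ℝ => Ψ q ((ρ : ℂ) * cexp (θ' * I)) ((ρ : ℂ) * cexp (θ * I)) :=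
        (hΨ q hq).comp (Continuous.prodMk continuous_const continuous_id)
      exact continuous_const.mul h1
  have hout : ∀ q ∈ S, Continuous fun θ' : ℝ =>
      Av ρ (fun β => Ψ q ((ρ : ℂ) * cexp (θ' * I)) β) := by
    intro q hq
    unfold Av
    refine continuous_const.mul ?_
    exact intervalIntegral.continuous_parametric_intervalIntegral_of_continuous'
      (f := fun (θ' : ℝ) (θ : ℝ) => Ψ q ((ρ : ℂ) * cexp (θ' * I)) ((ρ : ℂ) * cexp (θ * I)))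
      (hΨ q hq) _ _
  have h2 : Av ρ (fun α => Av ρ (fun β => ∑ q ∈ S, c q * Ψ q α β)) =
      ((1 / (2 * Real.pi) : ℝ) : ℂ) * ∫ θ' in (0 : ℝ)..(2 * Real.pi),
        ∑ q ∈ S, c q * Av ρ (fun β => Ψ q ((ρ : ℂ) * cexp (θ' * I)) β) := by
    conv_lhs => unfold Av
    congr 1
    refine intervalIntegral.integral_congr fun θ' _ => ?_
    exact hin θ'
  rw [h2, intervalIntegral.integral_finsetSum]
  · rw [Finset.mul_sum]
    refine Finset.sum_congr rfl fun q hq => ?_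
    rw [intervalIntegral.integral_const_mul]
    have h3 : Av ρ (fun α => Av ρ (fun β => Ψ q α β)) = ((1 / (2 * Real.pi) : ℝ) : ℂ) *
        ∫ θ' in (0 : ℝ)..(2 * Real.pi), Av ρ (fun β => Ψ q ((ρ : ℂ) * cexp (θ' * I)) β) := by
      conv_lhs => unfold Av
      rfl
    rw [h3]
    ring
  · intro q hq
    exact (continuous_const.mul (hout q hq)).intervalIntegrable _ _

/-- the integrand of the off-diagonal terms -/
noncomputable def O33_G (δ : ℝ) (m n : ℕ) (α β z : ℂ) : ℂ :=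
  ((Real.cos δ : ℝ) : ℂ) ^ ((α + β) - z) * (Kz (α + β) z * JF m n α β z)

theorem O33_cos {δ : ℝ} (h0 : 0 < δ) (h1 : δ ≤ 1/4) : 0 < Real.cos δ :=
  Real.cos_pos_of_mem_Ioo ⟨by linarith [Real.pi_gt_three], by linarith [Real.pi_gt_three]⟩

theorem O33_re (y : ℝ) : (((3 / 2 : ℝ) : ℂ) + y * I).re = 3 / 2 := by simp

theorem O33_im (y : ℝ) : (((3 / 2 : ℝ) : ℂ) + y * I).im = y := by simp

theorem O33_joint {δ : ℝ} (h0 : 0 < δ) (h1 : δ ≤ 1/4) {m n : ℕ} (hm : 1 ≤ m) (hn : 1 ≤ n) :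
    ContinuousOn (fun p : (ℂ × ℂ) × ℝ => O33_G δ m n p.1.1 p.1.2 (((3 / 2 : ℝ) : ℂ) + p.2 * I))
      ((Metric.closedBall 0 (1/8) ×ˢ Metric.closedBall 0 (1/8)) ×ˢ univ) := by
  have hcos : ((Real.cos δ : ℝ) : ℂ) ≠ 0 := by exact_mod_cast (O33_cos h0 h1).ne'
  have hz : Continuous fun p : (ℂ × ℂ) × ℝ => (((3 / 2 : ℝ) : ℂ) + p.2 * I) := by fun_prop
  unfold O33_G
  refine ContinuousOn.mul ?_ (ContinuousOn.mul ?_ ?_)
  · refine ContinuousOn.const_cpow ?_ (Or.inl hcos)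
    exact Continuous.continuousOn (by fun_prop)
  · refine (O24_Kz.2.1).comp (f := fun p : (ℂ × ℂ) × ℝ =>
      (p.1.1 + p.1.2, (((3 / 2 : ℝ) : ℂ) + p.2 * I))) (Continuous.continuousOn (by fun_prop)) ?_
    intro p hp
    obtain ⟨⟨hp1, hp2⟩, -⟩ := hp
    rw [mem_closedBall_zero_iff] at hp1 hp2
    refine ⟨?_, ?_⟩
    · show p.1.1 + p.1.2 ∈ Metric.closedBall (0 : ℂ) (1/4)
      rw [mem_closedBall_zero_iff]
      refine (norm_add_le _ _).trans ?_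
      linarith
    · show |(((3 / 2 : ℝ) : ℂ) + p.2 * I).re| = 3 / 2
      rw [O33_re]
      norm_num
  · refine ((O19_JF_cont hm hn).2).comp (f := fun p : (ℂ × ℂ) × ℝ =>
      (p.1.1, p.1.2, (((3 / 2 : ℝ) : ℂ) + p.2 * I))) (Continuous.continuousOn (by fun_prop)) ?_
    intro p hp
    obtain ⟨⟨hp1, hp2⟩, -⟩ := hp
    exact ⟨hp1, hp2, mem_univ _⟩

theorem O33_bd {δ : ℝ} (h0 : 0 < δ) (h1 : δ ≤ 1/4) {m n : ℕ} (hm : 1 ≤ m) (hn : 1 ≤ n) :
    ∃ D : ℝ, ∀ α β : ℂ, ‖α‖ ≤ 1/8 → ‖β‖ ≤ 1/8 → ∀ y : ℝ,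
      ‖O33_G δ m n α β (((3 / 2 : ℝ) : ℂ) + y * I)‖ ≤ D * Real.exp (-(1 / 2) * y ^ 2) := by
  obtain ⟨C, hC, hK, -⟩ := O24_Kz.2.2
  have hcos := O33_cos h0 h1
  refine ⟨(Real.cos δ) ^ (-2 : ℝ) * (C * ((m:ℝ) * n) ^ 12), fun α β hα hβ y => ?_⟩
  have hα' := abs_le.1 ((Complex.abs_re_le_norm α).trans hα)
  have hβ' := abs_le.1 ((Complex.abs_re_le_norm β).trans hβ)
  unfold O33_G
  rw [norm_mul, norm_mul]
  have h2 : ‖((Real.cos δ : ℝ) : ℂ) ^ ((α + β) - (((3 / 2 : ℝ) : ℂ) + y * I))‖ ≤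
      (Real.cos δ) ^ (-2 : ℝ) := by
    rw [Complex.norm_cpow_eq_rpow_re_of_pos hcos]
    refine Real.rpow_le_rpow_of_exponent_ge hcos (Real.cos_le_one δ) ?_
    rw [Complex.sub_re, Complex.add_re, O33_re]
    linarith
  have h3 : ‖Kz (α + β) (((3 / 2 : ℝ) : ℂ) + y * I)‖ ≤ C * Real.exp (-(1 / 2) * y ^ 2) := by
    have h4 := hK (α + β) (((3 / 2 : ℝ) : ℂ) + y * I) ((norm_add_le _ _).trans (by linarith))
      (by rw [O33_re]; norm_num)
    rw [O33_im] at h4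
    have h5 : -(1 / 2) * y ^ 2 = -(y ^ 2 / 2) := by ring
    rw [h5]
    exact h4
  have h4 : ‖JF m n α β (((3 / 2 : ℝ) : ℂ) + y * I)‖ ≤ ((m:ℝ) * n) ^ 12 :=
    O17_JF_bd hm hn hα hβ (by rw [O33_re]; norm_num)
  have h6 : (0 : ℝ) ≤ (Real.cos δ) ^ (-2 : ℝ) := Real.rpow_nonneg hcos.le _
  have h7 : (0 : ℝ) ≤ C * Real.exp (-(1 / 2) * y ^ 2) :=
    mul_nonneg (by linarith) (Real.exp_nonneg _)
  refine (mul_le_mul h2 (mul_le_mul h3 h4 (norm_nonneg _) h7) (by positivity) h6).trans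
    (le_of_eq (by ring))

theorem O33_contL {δ : ℝ} (h0 : 0 < δ) (h1 : δ ≤ 1/4) {m n : ℕ} (hm : 1 ≤ m) (hn : 1 ≤ n) :
    ContinuousOn (fun p : ℂ × ℂ => VL (3/2) (fun z => O33_G δ m n p.1 p.2 z))
      (Metric.closedBall 0 (1/8) ×ˢ Metric.closedBall 0 (1/8)) ∧
    ∀ α β : ℂ, ‖α‖ ≤ 1/8 → ‖β‖ ≤ 1/8 →
      Integrable fun y : ℝ => O33_G δ m n α β (((3 / 2 : ℝ) : ℂ) + y * I) := by
  obtain ⟨D, hD⟩ := O33_bd h0 h1 hm hn
  have hJ := O33_joint h0 h1 hm hn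
  have hy : ∀ p ∈ (Metric.closedBall (0 : ℂ) (1/8) ×ˢ Metric.closedBall (0 : ℂ) (1/8)),
      Continuous fun y : ℝ => O33_G δ m n p.1 p.2 (((3 / 2 : ℝ) : ℂ) + y * I) := by
    intro p hp
    rw [← continuousOn_univ]
    exact hJ.comp (f := fun y : ℝ => (p, y)) (Continuous.continuousOn (by fun_prop))
      fun y _ => ⟨hp, mem_univ _⟩
  have hint : Integrable fun y : ℝ => D * Real.exp (-(1 / 2) * y ^ 2) :=
    (integrable_exp_neg_mul_sq (by norm_num)).const_mul D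
  refine ⟨?_, fun α β hα hβ => ?_⟩
  · unfold VL
    refine continuousOn_const.mul ?_
    refine continuousOn_of_dominated (bound := fun y : ℝ => D * Real.exp (-(1 / 2) * y ^ 2))
      (fun p hp => (hy p hp).aestronglyMeasurable) (fun p hp => Eventually.of_forall fun y => ?_)
      hint (Eventually.of_forall fun y => ?_)
    · obtain ⟨hp1, hp2⟩ := hp
      rw [mem_closedBall_zero_iff] at hp1 hp2
      exact hD p.1 p.2 hp1 hp2 y
    · exact hJ.comp (f := fun p : ℂ × ℂ => (p, y)) (Continuous.continuousOn (by fun_prop))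
        fun p hp => ⟨hp, mem_univ _⟩
  · refine hint.mono' (hy (α, β) ⟨?_, ?_⟩).aestronglyMeasurable
      (Eventually.of_forall fun y => hD α β hα hβ y)
    · rw [mem_closedBall_zero_iff]
      exact hα
    · rw [mem_closedBall_zero_iff]
      exact hβ

/-- the total integrand is continuous on the torus -/
theorem O33_torus {δ ρ : ℝ} (h0 : 0 < δ) (h1 : δ ≤ 1/4) (hρ : 0 < ρ) (hρ1 : ρ ≤ 1/8) {m n : ℕ}
    (hm : 1 ≤ m) (hn : 1 ≤ n) :
    Continuous fun p : ℝ × ℝ => (fun α β : ℂ => wk α * wk β * cs δ (α + β) *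
      (2 * VL (3/2) (fun z => O33_G δ m n α β z)))
        ((ρ : ℂ) * cexp (p.1 * I)) ((ρ : ℂ) * cexp (p.2 * I)) := by
  have hc1 : Continuous fun p : ℝ × ℝ => (ρ : ℂ) * cexp (p.1 * I) := by fun_prop
  have hc2 : Continuous fun p : ℝ × ℝ => (ρ : ℂ) * cexp (p.2 * I) := by fun_prop
  have hne : ∀ θ : ℝ, (ρ : ℂ) * cexp (θ * I) ≠ 0 := fun θ => by
    rw [← norm_pos_iff, O33_circ hρ]
    exact hρ
  have hw : ∀ g : ℝ × ℝ → ℂ, Continuous g → (∀ p, g p ≠ 0) → Continuous fun p => wk (g p) := by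
    intro g hg hg0
    unfold wk
    exact (continuous_const.div hg hg0).add continuous_const
  show Continuous fun p : ℝ × ℝ => wk ((ρ : ℂ) * cexp (p.1 * I)) * wk ((ρ : ℂ) * cexp (p.2 * I)) *
    cs δ ((ρ : ℂ) * cexp (p.1 * I) + (ρ : ℂ) * cexp (p.2 * I)) *
      (2 * VL (3/2) (fun z => O33_G δ m n ((ρ : ℂ) * cexp (p.1 * I)) ((ρ : ℂ) * cexp (p.2 * I)) z))
  refine (((hw _ hc1 fun p => hne p.1).mul (hw _ hc2 fun p => hne p.2)).mul ?_).mul
    (continuous_const.mul ?_)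
  · rw [← continuousOn_univ]
    refine (O24_cs.1 δ h0 h1).comp (f := fun p : ℝ × ℝ =>
      (ρ : ℂ) * cexp (p.1 * I) + (ρ : ℂ) * cexp (p.2 * I)) (hc1.add hc2).continuousOn ?_
    intro p _
    rw [mem_closedBall_zero_iff]
    refine (norm_add_le _ _).trans ?_
    rw [O33_circ hρ, O33_circ hρ]
    linarith
  · rw [← continuousOn_univ]
    refine (O33_contL h0 h1 hm hn).1.comp (f := fun p : ℝ × ℝ =>
      ((ρ : ℂ) * cexp (p.1 * I), (ρ : ℂ) * cexp (p.2 * I))) (hc1.prodMk hc2).continuousOn ?_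
    intro p _
    refine ⟨?_, ?_⟩
    · show (ρ : ℂ) * cexp (p.1 * I) ∈ Metric.closedBall (0 : ℂ) (1/8)
      rw [mem_closedBall_zero_iff, O33_circ hρ]
      exact hρ1
    · show (ρ : ℂ) * cexp (p.2 * I) ∈ Metric.closedBall (0 : ℂ) (1/8)
      rw [mem_closedBall_zero_iff, O33_circ hρ]
      exact hρ1

/-- linearity of the integral over the line -/
theorem O33_VL {δ : ℝ} (h0 : 0 < δ) (h1 : δ ≤ 1/4) (S : Finset (ℕ × ℕ)) (c : ℕ × ℕ → ℂ)
    (mm nn : ℕ × ℕ → ℕ) (hm : ∀ q ∈ S, 1 ≤ mm q) (hn : ∀ q ∈ S, 1 ≤ nn q) {α β : ℂ}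
    (hα : ‖α‖ ≤ 1/8) (hβ : ‖β‖ ≤ 1/8) :
    VL (3/2) (fun z => ((Real.cos δ : ℝ) : ℂ) ^ ((α + β) - z) *
        (Kz (α + β) z * ∑ q ∈ S, c q * JF (mm q) (nn q) α β z)) =
      ∑ q ∈ S, c q * VL (3/2) (fun z => O33_G δ (mm q) (nn q) α β z) := by
  unfold VL
  have h2 : (fun y : ℝ => ((Real.cos δ : ℝ) : ℂ) ^ ((α + β) - (((3 / 2 : ℝ) : ℂ) + y * I)) *
        (Kz (α + β) (((3 / 2 : ℝ) : ℂ) + y * I) *
          ∑ q ∈ S, c q * JF (mm q) (nn q) α β (((3 / 2 : ℝ) : ℂ) + y * I))) =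
      fun y : ℝ => ∑ q ∈ S, c q * O33_G δ (mm q) (nn q) α β (((3 / 2 : ℝ) : ℂ) + y * I) := by
    funext y
    rw [Finset.mul_sum, Finset.mul_sum]
    refine Finset.sum_congr rfl fun q _ => ?_
    unfold O33_G
    ring
  rw [h2, integral_finsetSum]
  · rw [Finset.mul_sum]
    refine Finset.sum_congr rfl fun q hq => ?_
    rw [integral_const_mul]
    ring
  · intro q hq
    exact ((O33_contL h0 h1 (hm q hq) (hn q hq)).2 α β hα hβ).const_mul _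

/-- O33: off-diagonal terms of a polynomial -/
theorem O33_sumOff {δ ρ : ℝ} (h0 : 0 < δ) (h1 : δ ≤ 1/4) (hρ : 0 < ρ) (hρ1 : ρ ≤ 1/8) (S : Finset (ℕ × ℕ)) (c : ℕ × ℕ → ℂ)
    (mm nn : ℕ × ℕ → ℕ) (hm : ∀ q ∈ S, 1 ≤ mm q) (hn : ∀ q ∈ S, 1 ≤ nn q) (hc : ∀ q ∈ S, Nat.Coprime (mm q) (nn q)) :
    ∑ q ∈ S, c q * (2 * ((√((mm q : ℝ) * nn q) : ℝ) : ℂ) * OM δ (mm q) (nn q)) =
    Av ρ (fun α => Av ρ (fun β => wk α * wk β * cs δ (α + β) *
      (2 * VL (3/2) (fun z => ((Real.cos δ : ℝ) : ℂ) ^ ((α + β) - z) *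
        (Kz (α + β) z * ∑ q ∈ S, c q * JF (mm q) (nn q) α β z))))) := by
  have h2 : Av ρ (fun α => Av ρ (fun β => wk α * wk β * cs δ (α + β) *
      (2 * VL (3/2) (fun z => ((Real.cos δ : ℝ) : ℂ) ^ ((α + β) - z) *
        (Kz (α + β) z * ∑ q ∈ S, c q * JF (mm q) (nn q) α β z))))) =
      Av ρ (fun α => Av ρ (fun β => ∑ q ∈ S, c q * (wk α * wk β * cs δ (α + β) *
        (2 * VL (3/2) (fun z => O33_G δ (mm q) (nn q) α β z))))) := by
    refine O33_Av_congr hρ fun α hα => O33_Av_congr hρ fun β hβ => ?_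
    rw [O33_VL h0 h1 S c mm nn hm hn (hα.le.trans hρ1) (hβ.le.trans hρ1), Finset.mul_sum,
      Finset.mul_sum]
    refine Finset.sum_congr rfl fun q _ => ?_
    ring
  rw [h2, O33_lin S c (fun q α β => wk α * wk β * cs δ (α + β) *
        (2 * VL (3/2) (fun z => O33_G δ (mm q) (nn q) α β z)))
      fun q hq => O33_torus h0 h1 hρ hρ1 (hm q hq) (hn q hq)]
  refine Finset.sum_congr rfl fun q hq => ?_
  rw [O16_OM h0 h1 hρ hρ1 (hm q hq) (hn q hq) (hc q hq)]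
  rfl

end Pool.Agent.LibF4
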