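import Mathlib
import Pool.Agent.LibF4.ODefs
import Pool.Agent.LibF4.O17
import Pool.Agent.LibF4.O19
import Pool.Agent.LibF4.O20
import Pool.Agent.LibF4.O29

/-! Row O34.
O29 for every q, linearity of VL (1/2): Dz δ z * JD is continuous in y on the line Re z = 1/2 and bounded by C e^{-y²/2} (Γ bounded on the line, zeta by O20 with 1+z, 1/ζ by O20_zeta_inv, JD by O17).
-/

set_option autoImplicit false

namespace Pool.Agent.LibF4

open MeasureTheory Set Filter Topology Complex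
open scoped ComplexConjugate

/-- `O34`: the Gamma function on the line `Re = 3/2` -/
theorem O34_Gamma {z : ℂ} (hz : z.re = 3/2) : ‖Complex.Gamma z‖ ≤ Real.Gamma (3/2) := by
  rw [Complex.Gamma_eq_integral (by rw [hz]; norm_num), Complex.GammaIntegral,
    Real.Gamma_eq_integral (by norm_num)]
  refine (norm_integral_le_integral_norm _).trans (le_of_eq ?_)
  refine setIntegral_congr_fun measurableSet_Ioi ?_
  intro x hx
  have hx0 : (0:ℝ) < x := hx
  simp only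
  rw [norm_mul, Complex.norm_real, Real.norm_of_nonneg (Real.exp_pos _).le,
    Complex.norm_cpow_eq_rpow_re_of_pos hx0]
  congr 2
  simp [hz]

theorem O34_re (y : ℝ) : ((((1/2 : ℝ)) : ℂ) + y * I).re = 1/2 := by simp

theorem O34_im (y : ℝ) : ((((1/2 : ℝ)) : ℂ) + y * I).im = y := by simp

theorem O34_cont {δ : ℝ} (h0 : 0 < δ) (h1 : δ ≤ 1/4) {m n : ℕ} (hm : 1 ≤ m) (hn : 1 ≤ n) :
    Continuous (fun y : ℝ => Dz δ (((1/2 : ℝ) : ℂ) + y * I) * JD m n (((1/2 : ℝ) : ℂ) + y * I)) := by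
  obtain ⟨C2, -, hC2⟩ := O20_zeta_inv
  have hsin : 0 < Real.sin δ := Real.sin_pos_of_pos_of_lt_pi h0 (by linarith [Real.pi_gt_three])
  have hbase : ((4 * Real.pi * Real.sin δ : ℝ) : ℂ) ≠ 0 := by
    have : (0:ℝ) < 4 * Real.pi * Real.sin δ := by positivity
    exact_mod_cast this.ne'
  rw [continuous_iff_continuousAt]
  intro y
  set z : ℂ := ((1/2 : ℝ) : ℂ) + y * I with hz
  have hre : z.re = 1/2 := O34_re y
  have hd : DifferentiableAt ℂ (fun w : ℂ => Dz δ w * JD m n w) z := by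
    have hJ : DifferentiableAt ℂ (JD m n) z := O19_JD_diff hm hn (by rw [hre]; norm_num)
    have hz0 : z ≠ 0 := by
      intro h
      rw [h] at hre
      norm_num at hre
    have hG : DifferentiableAt ℂ (fun w : ℂ => Complex.Gamma (1 + w)) z := by
      have : DifferentiableAt ℂ Complex.Gamma (1 + z) := by
        refine Complex.differentiableAt_Gamma _ ?_
        intro k hk
        have := congrArg Complex.re hk
        simp [hre] at this
        have hk0 : (0:ℝ) ≤ k := Nat.cast_nonneg k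
        linarith
      exact this.comp z ((differentiableAt_const _).add differentiableAt_id)
    have hc : DifferentiableAt ℂ (fun w : ℂ => ((4 * Real.pi * Real.sin δ : ℝ) : ℂ) ^ (-w)) z :=
      DifferentiableAt.const_cpow differentiableAt_id.neg (Or.inl hbase)
    have hζ : DifferentiableAt ℂ (fun w : ℂ => riemannZeta (1 + w)) z := by
      have : DifferentiableAt ℂ riemannZeta (1 + z) := by
        refine differentiableAt_riemannZeta ?_
        intro h
        have := congrArg Complex.re h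
        simp [hre] at this
      exact this.comp z ((differentiableAt_const _).add differentiableAt_id)
    have hζ2 : DifferentiableAt ℂ (fun w : ℂ => riemannZeta (2 + 2 * w)) z := by
      have : DifferentiableAt ℂ riemannZeta (2 + 2 * z) := by
        refine differentiableAt_riemannZeta ?_
        intro h
        have := congrArg Complex.re h
        simp [hre] at this
      exact this.comp z ((differentiableAt_const _).add ((differentiableAt_const _).mul differentiableAt_id))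
    have hne : riemannZeta (2 + 2 * z) ≠ 0 := (hC2 (2 + 2 * z) (by simp [hre]; norm_num)).2
    have hE : DifferentiableAt ℂ (fun w : ℂ => cexp (w ^ 2)) z := by fun_prop
    unfold Dz
    exact ((((hE.div differentiableAt_id hz0).mul hG).mul hc).mul (hζ.pow 4)).div hζ2 hne |>.mul hJ
  have hl : ContinuousAt (fun y : ℝ => ((1/2 : ℝ) : ℂ) + y * I) y := by fun_prop
  exact ContinuousAt.comp (f := fun y : ℝ => ((1/2 : ℝ) : ℂ) + y * I)
    (g := fun w : ℂ => Dz δ w * JD m n w) hd.continuousAt hl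

theorem O34_bd {δ : ℝ} (h0 : 0 < δ) (h1 : δ ≤ 1/4) {m n : ℕ} (hm : 1 ≤ m) (hn : 1 ≤ n) :
    ∃ K : ℝ, ∀ y : ℝ, ‖Dz δ (((1/2 : ℝ) : ℂ) + y * I) * JD m n (((1/2 : ℝ) : ℂ) + y * I)‖ ≤
      K * Real.exp (-(1/2) * y ^ 2) := by
  obtain ⟨C2, hC21, hC2⟩ := O20_zeta_inv
  obtain ⟨C1, hC11, hC1⟩ := O20_zeta
  have hsin : 0 < Real.sin δ := Real.sin_pos_of_pos_of_lt_pi h0 (by linarith [Real.pi_gt_three])
  have hbase : (0:ℝ) < 4 * Real.pi * Real.sin δ := by positivity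
  set B : ℝ := (4 * Real.pi * Real.sin δ) ^ (-(1/2) : ℝ) with hB
  have hB0 : 0 < B := Real.rpow_pos_of_pos hbase _
  have hΓ : 0 < Real.Gamma (3/2) := Real.Gamma_pos_of_pos (by norm_num)
  refine ⟨2 * Real.Gamma (3/2) * B * (2 * C1) ^ 4 * C2 * ((m:ℝ) * n) ^ 12 * Real.exp (1/4 + 72), ?_⟩
  intro y
  set z : ℂ := ((1/2 : ℝ) : ℂ) + y * I with hz
  have hre : z.re = 1/2 := O34_re y
  have him : z.im = y := O34_im y
  have e1 : ‖cexp (z ^ 2)‖ = Real.exp (1/4 - y ^ 2) := by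
    rw [Complex.norm_exp]
    congr 1
    rw [pow_two, Complex.mul_re, hre, him]
    ring
  have e2 : (1/2 : ℝ) ≤ ‖z‖ := by
    have := Complex.abs_re_le_norm z
    rw [hre] at this
    rwa [abs_of_pos (by norm_num : (0:ℝ) < 1/2)] at this
  have e3 : ‖Complex.Gamma (1 + z)‖ ≤ Real.Gamma (3/2) := O34_Gamma (by simp [hre]; norm_num)
  have e4 : ‖((4 * Real.pi * Real.sin δ : ℝ) : ℂ) ^ (-z)‖ = B := by
    rw [Complex.norm_cpow_eq_rpow_re_of_pos hbase, hB]
    congr 1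
    simp [hre]
  have e5 : ‖riemannZeta (1 + z)‖ ≤ 2 * C1 * Real.exp (3 * |y|) := by
    have h := hC1 (1 + z) (by simp [hre]; norm_num) (by simp [hre]; norm_num) (by
      intro h
      have := congrArg Complex.re h
      simp [hre] at this)
    have h' : (1 + z - 1 : ℂ) = z := by ring
    rw [h', norm_mul] at h
    have him' : (1 + z).im = y := by simp [him]
    rw [him'] at h
    have := mul_le_mul_of_nonneg_right e2 (norm_nonneg (riemannZeta (1 + z)))
    nlinarith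
  have e6 : ‖(riemannZeta (2 + 2 * z))⁻¹‖ ≤ C2 := (hC2 (2 + 2 * z) (by simp [hre]; norm_num)).1
  have e7 : ‖JD m n z‖ ≤ ((m:ℝ) * n) ^ 12 := O17_JD_bd hm hn (by rw [hre]; norm_num)
  have e2' : ‖z‖⁻¹ ≤ 2 := by
    have := inv_anti₀ (by norm_num : (0:ℝ) < 1/2) e2
    simpa using this
  have e5' : ‖riemannZeta (1 + z)‖ ^ 4 ≤ (2 * C1) ^ 4 * Real.exp (12 * |y|) := by
    refine (pow_le_pow_left₀ (norm_nonneg _) e5 4).trans (le_of_eq ?_)
    rw [mul_pow, ← Real.exp_nat_mul]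
    congr 2
    push_cast
    ring
  have hn1 : ‖Dz δ z * JD m n z‖ =
      Real.exp (1/4 - y ^ 2) * ‖z‖⁻¹ * ‖Complex.Gamma (1 + z)‖ * B * ‖riemannZeta (1 + z)‖ ^ 4 *
        ‖(riemannZeta (2 + 2 * z))⁻¹‖ * ‖JD m n z‖ := by
    rw [Dz, norm_mul, norm_div, norm_mul, norm_mul, norm_mul, norm_div, e1, e4, norm_pow, norm_inv]
    ring
  rw [hn1]
  have hexp : Real.exp (1/4 - y ^ 2) * Real.exp (12 * |y|) ≤ Real.exp (1/4 + 72) * Real.exp (-(1/2) * y ^ 2) := by
    rw [← Real.exp_add, ← Real.exp_add]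
    apply Real.exp_le_exp.2
    have : y ^ 2 = |y| ^ 2 := (sq_abs y).symm
    rw [this]
    nlinarith [sq_nonneg (|y| - 12)]
  have hmn0 : (0:ℝ) ≤ ((m:ℝ) * n) ^ 12 := by positivity
  calc Real.exp (1/4 - y ^ 2) * ‖z‖⁻¹ * ‖Complex.Gamma (1 + z)‖ * B * ‖riemannZeta (1 + z)‖ ^ 4 *
        ‖(riemannZeta (2 + 2 * z))⁻¹‖ * ‖JD m n z‖
      ≤ Real.exp (1/4 - y ^ 2) * 2 * Real.Gamma (3/2) * B * ((2 * C1) ^ 4 * Real.exp (12 * |y|)) *
        C2 * ((m:ℝ) * n) ^ 12 := by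
        gcongr
    _ = 2 * Real.Gamma (3/2) * B * (2 * C1) ^ 4 * C2 * ((m:ℝ) * n) ^ 12 *
        (Real.exp (1/4 - y ^ 2) * Real.exp (12 * |y|)) := by ring
    _ ≤ 2 * Real.Gamma (3/2) * B * (2 * C1) ^ 4 * C2 * ((m:ℝ) * n) ^ 12 *
        (Real.exp (1/4 + 72) * Real.exp (-(1/2) * y ^ 2)) := by
        gcongr
    _ = _ := by ring

theorem O34_int {δ : ℝ} (h0 : 0 < δ) (h1 : δ ≤ 1/4) {m n : ℕ} (hm : 1 ≤ m) (hn : 1 ≤ n) :
    Integrable (fun y : ℝ => Dz δ (((1/2 : ℝ) : ℂ) + y * I) * JD m n (((1/2 : ℝ) : ℂ) + y * I)) := by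
  obtain ⟨K, hK⟩ := O34_bd h0 h1 hm hn
  exact Integrable.mono' ((integrable_exp_neg_mul_sq (by norm_num : (0:ℝ) < 1/2)).const_mul K)
    (O34_cont h0 h1 hm hn).aestronglyMeasurable (Filter.Eventually.of_forall hK)

/-- O34: diagonal terms of a polynomial -/
theorem O34_sumDiag {δ : ℝ} (h0 : 0 < δ) (h1 : δ ≤ 1/4) (S : Finset (ℕ × ℕ)) (c : ℕ × ℕ → ℂ)
    (mm nn : ℕ × ℕ → ℕ) (hm : ∀ q ∈ S, 1 ≤ mm q) (hn : ∀ q ∈ S, 1 ≤ nn q) (hc : ∀ q ∈ S, Nat.Coprime (mm q) (nn q)) :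
    ∑ q ∈ S, c q * (2 * ((√((mm q : ℝ) * nn q) : ℝ) : ℂ) *
      (∑' k : ℕ, ((dv (nn q * (k + 1)) * dv (mm q * (k + 1)) : ℝ) : ℂ) *
        Jk (Lam (mm q) (nn q)) (pf δ (2 * ((mm q : ℝ) * nn q * (k + 1))) 0))) =
    ((1 / Real.sin δ : ℝ) : ℂ) * VL (1/2) (fun z => Dz δ z * ∑ q ∈ S, c q * JD (mm q) (nn q) z) := by
  have hL : VL (1/2) (fun z => Dz δ z * ∑ q ∈ S, c q * JD (mm q) (nn q) z) =
      ∑ q ∈ S, c q * VL (1/2) (fun z => Dz δ z * JD (mm q) (nn q) z) := by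
    unfold VL
    have h : ∀ y : ℝ, Dz δ (((1/2 : ℝ) : ℂ) + y * I) *
        ∑ q ∈ S, c q * JD (mm q) (nn q) (((1/2 : ℝ) : ℂ) + y * I) =
        ∑ q ∈ S, c q * (Dz δ (((1/2 : ℝ) : ℂ) + y * I) * JD (mm q) (nn q) (((1/2 : ℝ) : ℂ) + y * I)) := by
      intro y
      rw [Finset.mul_sum]
      refine Finset.sum_congr rfl fun q _ => ?_
      ring
    simp only [h]
    rw [integral_finsetSum _ (fun q hq => (O34_int h0 h1 (hm q hq) (hn q hq)).const_mul (c q)),
      Finset.mul_sum]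
    refine Finset.sum_congr rfl fun q _ => ?_
    rw [integral_const_mul]
    ring
  rw [hL, Finset.mul_sum]
  refine Finset.sum_congr rfl fun q hq => ?_
  rw [O29_diag h0 h1 (hm q hq) (hn q hq) (hc q hq)]
  ring

end Pool.Agent.LibF4
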