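import Mathlib
import Pool.Agent.LibF4.ODefs
import Pool.Agent.LibF4.M30
import Pool.Agent.LibF4.M31
import Pool.Agent.LibF4.O06
import Pool.Agent.LibF4.O17
import Pool.Agent.LibF4.O19
import Pool.Agent.LibF4.O25
import Pool.Agent.LibF4.O27
import Pool.Agent.LibF4.O30
import Pool.Agent.LibF4.O32
import Pool.Agent.LibF4.O33
import Pool.Agent.LibF4.O34

/-! Row O35.
For each q: I4p = I4 + O(1) (I4_half), I4 = 2√(mn) ∑' T4 + O((mn)^3 δ^{-5/8}) (M_main), ∑' T4 = diagonal + OM + O((mn)^15 δ^{-7/8}) (O06), √(mn) ≤ mn. Sum with c: diagonal part by O34, off-diagonal by O33.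
O30 with J = ∑ c JD, B = ∑ ‖c‖ (mn)^12 (1/sin δ ≤ 2/δ, δ^{-1+1/4} ≤ δ^{-7/8}); O27 and O25 with J = ∑ c JF, B as in O32. All errors ≤ C (∑ ‖c‖ (mn)^16)(δ^{-7/8}+ρ^{-2}).
-/

set_option autoImplicit false

namespace Pool.Agent.LibF4

open MeasureTheory Set Filter Topology Complex
open scoped ComplexConjugate

/-- one term -/
theorem F4O35_one : ∃ C : ℝ, 1 ≤ C ∧ ∀ (δ : ℝ) (m n : ℕ), 0 < δ → δ ≤ 1/4 → 1 ≤ m → 1 ≤ n →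
    Nat.Coprime m n →
    ‖I4p δ m n - (2 * ((√((m:ℝ) * n) : ℝ) : ℂ) *
      (∑' k : ℕ, ((dv (n * (k + 1)) * dv (m * (k + 1)) : ℝ) : ℂ) *
        Jk (Lam m n) (pf δ (2 * ((m:ℝ) * n * (k + 1))) 0))) -
      (2 * ((√((m:ℝ) * n) : ℝ) : ℂ) * OM δ m n)‖ ≤ C * ((m:ℝ) * n) ^ 16 * δ ^ (-(7/8) : ℝ) := by
  obtain ⟨C₁, hC₁, h₁⟩ := M_main
  obtain ⟨C₂, hC₂, h₂⟩ := I4_half
  obtain ⟨C₃, hC₃, h₃⟩ := O06_T4
  refine ⟨C₁ + C₂ + 2 * C₃, by linarith, fun δ m n h0 h1 hm hn hc => ?_⟩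
  have e1 := h₁ δ h0 h1 m n hm hn
  have e2 := (h₂ δ h0 h1 m n hm hn).2
  have e3 := h₃ δ m n h0 h1 hm hn hc
  have hm1 : (1 : ℝ) ≤ m := by exact_mod_cast hm
  have hn1 : (1 : ℝ) ≤ n := by exact_mod_cast hn
  have hP : (1 : ℝ) ≤ (m : ℝ) * n := by nlinarith
  set P : ℝ := (m : ℝ) * n with hPdef
  have hs : √P ≤ P := by
    rw [Real.sqrt_le_left (by linarith)]
    nlinarith
  have hd1 : (1 : ℝ) ≤ δ ^ (-(7/8) : ℝ) :=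
    Real.one_le_rpow_of_pos_of_le_one_of_nonpos h0 (by linarith) (by norm_num)
  have hd2 : δ ^ (-(5/8) : ℝ) ≤ δ ^ (-(7/8) : ℝ) :=
    Real.rpow_le_rpow_of_exponent_ge h0 (by linarith) (by norm_num)
  have hd0 : (0 : ℝ) ≤ δ ^ (-(5/8) : ℝ) := Real.rpow_nonneg h0.le _
  have hP16 : (1 : ℝ) ≤ P ^ 16 := one_le_pow₀ hP
  have hP3 : P ^ 3 ≤ P ^ 16 := pow_le_pow_right₀ hP (by norm_num)
  set T : ℂ := ∑' ab : ℕ × ℕ, T4 δ m n ab with hT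
  set D : ℂ := ∑' k : ℕ, ((dv (n * (k + 1)) * dv (m * (k + 1)) : ℝ) : ℂ) *
        Jk (Lam m n) (pf δ (2 * (P * (k + 1))) 0) with hD
  have hid : I4p δ m n - (2 * ((√P : ℝ) : ℂ) * D) - (2 * ((√P : ℝ) : ℂ) * OM δ m n) =
      (I4 δ m n - 2 * ((√P : ℝ) : ℂ) * T) - (I4 δ m n - I4p δ m n) +
        2 * ((√P : ℝ) : ℂ) * (T - D - OM δ m n) := by ring
  rw [hid]
  have e4 : ‖2 * ((√P : ℝ) : ℂ) * (T - D - OM δ m n)‖ ≤ 2 * P * (C₃ * P ^ 15 * δ ^ (-(7/8) : ℝ)) := by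
    rw [norm_mul, norm_mul, Complex.norm_real, Real.norm_of_nonneg (Real.sqrt_nonneg _),
      Complex.norm_ofNat]
    gcongr
  have e5 : C₁ * P ^ 3 * δ ^ (-(5/8) : ℝ) ≤ C₁ * P ^ 16 * δ ^ (-(7/8) : ℝ) := by gcongr
  have e6 : C₂ ≤ C₂ * P ^ 16 * δ ^ (-(7/8) : ℝ) := by
    have : 1 ≤ P ^ 16 * δ ^ (-(7/8) : ℝ) := one_le_mul_of_one_le_of_one_le hP16 hd1
    nlinarith
  calc ‖(I4 δ m n - 2 * ((√P : ℝ) : ℂ) * T) - (I4 δ m n - I4p δ m n) +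
        2 * ((√P : ℝ) : ℂ) * (T - D - OM δ m n)‖
      ≤ ‖I4 δ m n - 2 * ((√P : ℝ) : ℂ) * T‖ + ‖I4 δ m n - I4p δ m n‖ +
        ‖2 * ((√P : ℝ) : ℂ) * (T - D - OM δ m n)‖ :=
        (norm_add_le _ _).trans (by gcongr; exact norm_sub_le _ _)
    _ ≤ C₁ * P ^ 16 * δ ^ (-(7/8) : ℝ) + C₂ * P ^ 16 * δ ^ (-(7/8) : ℝ) +
        2 * P * (C₃ * P ^ 15 * δ ^ (-(7/8) : ℝ)) := by
        gcongr
        · exact e1.trans e5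
        · exact e2.trans e6
    _ = (C₁ + C₂ + 2 * C₃) * P ^ 16 * δ ^ (-(7/8) : ℝ) := by ring

/-- O35: the twisted fourth moment of a polynomial -/
theorem O35_sum : ∃ C : ℝ, 1 ≤ C ∧ ∀ (S : Finset (ℕ × ℕ)) (c : ℕ × ℕ → ℂ) (mm nn : ℕ × ℕ → ℕ), (∀ q ∈ S, 1 ≤ mm q) →
    (∀ q ∈ S, 1 ≤ nn q) → (∀ q ∈ S, Nat.Coprime (mm q) (nn q)) → ∀ δ ρ R : ℝ, 0 < δ → δ ≤ 1/16 → 0 < ρ → ρ ≤ 1/8 →
    2 * ρ < R → R ≤ 1 →
    ‖(∑ q ∈ S, c q * I4p δ (mm q) (nn q)) -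
      ((1 / Real.sin δ : ℝ) : ℂ) * Av ρ (fun z => z * (Dz δ z * ∑ q ∈ S, c q * JD (mm q) (nn q) z)) -
      Av ρ (fun α => Av ρ (fun β => wk α * wk β * cs δ (α + β) *
        Av R (fun z => z * (Kz (α + β) z * ∑ q ∈ S, c q * JF (mm q) (nn q) α β z))))‖ ≤
      C * (∑ q ∈ S, ‖c q‖ * ((mm q : ℝ) * nn q) ^ 16) * (δ ^ (-(7/8) : ℝ) + ρ⁻¹ ^ 2) := by
  obtain ⟨C₁, hC₁, h₁⟩ := F4O35_one
  obtain ⟨C₂, hC₂, h₂⟩ := O30_shift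
  obtain ⟨C₃, hC₃, h₃⟩ := O27_cos
  refine ⟨C₁ + 2 * C₂ + C₃, by linarith, ?_⟩
  intro S c mm nn hm hn hc δ ρ R h0 h16 hρ hρ1 hR hR1
  have h1 : δ ≤ 1 / 4 := by linarith
  -- sizes
  have hP1 : ∀ q ∈ S, (1 : ℝ) ≤ (mm q : ℝ) * nn q := by
    intro q hq
    have h2 : (1 : ℝ) ≤ mm q := by exact_mod_cast hm q hq
    have h3 : (1 : ℝ) ≤ nn q := by exact_mod_cast hn q hq
    nlinarith
  set E : ℝ := ∑ q ∈ S, ‖c q‖ * ((mm q : ℝ) * nn q) ^ 16 with hE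
  set B : ℝ := ∑ q ∈ S, ‖c q‖ * ((mm q : ℝ) * nn q) ^ 12 with hB
  have hB0 : 0 ≤ B := Finset.sum_nonneg fun q _ => by positivity
  have hBE : B ≤ E := by
    refine Finset.sum_le_sum fun q hq => ?_
    exact mul_le_mul_of_nonneg_left (pow_le_pow_right₀ (hP1 q hq) (by norm_num)) (norm_nonneg _)
  have hd0 : (0 : ℝ) < δ ^ (-(7/8) : ℝ) := Real.rpow_pos_of_pos h0 _
  have hρ0 : (0 : ℝ) ≤ ρ⁻¹ ^ 2 := by positivity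
  -- the terms
  have e1 : ‖∑ q ∈ S, c q * (I4p δ (mm q) (nn q) - (2 * ((√((mm q:ℝ) * nn q) : ℝ) : ℂ) *
      (∑' k : ℕ, ((dv (nn q * (k + 1)) * dv (mm q * (k + 1)) : ℝ) : ℂ) *
        Jk (Lam (mm q) (nn q)) (pf δ (2 * ((mm q:ℝ) * nn q * (k + 1))) 0))) -
      (2 * ((√((mm q:ℝ) * nn q) : ℝ) : ℂ) * OM δ (mm q) (nn q)))‖ ≤
        C₁ * E * δ ^ (-(7/8) : ℝ) := by
    refine (norm_sum_le _ _).trans ?_
    rw [hE, Finset.mul_sum, Finset.sum_mul]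
    refine Finset.sum_le_sum fun q hq => ?_
    rw [norm_mul]
    calc _ ≤ ‖c q‖ * (C₁ * ((mm q:ℝ) * nn q) ^ 16 * δ ^ (-(7/8) : ℝ)) :=
          mul_le_mul_of_nonneg_left (h₁ δ (mm q) (nn q) h0 h1 (hm q hq) (hn q hq) (hc q hq))
            (norm_nonneg _)
      _ = _ := by ring
  -- the diagonal
  have hsin : δ / 2 ≤ Real.sin δ := by
    have := Real.sin_gt_sub_cube h0
    nlinarith [pow_pos h0 3, mul_pos h0 h0]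
  have hsin0 : 0 < Real.sin δ := by linarith
  have e2 := h₂ (fun z => ∑ q ∈ S, c q * JD (mm q) (nn q) z) B δ ρ h0 h16 hρ hρ1
    (fun z hz => by
      refine DifferentiableAt.fun_sum fun q hq => ?_
      exact (O19_JD_diff (hm q hq) (hn q hq) (by linarith)).const_mul _)
    (fun z hz _ => by
      refine (norm_sum_le _ _).trans ?_
      rw [hB]
      refine Finset.sum_le_sum fun q hq => ?_
      rw [norm_mul]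
      exact mul_le_mul_of_nonneg_left (O17_JD_bd (hm q hq) (hn q hq) hz) (norm_nonneg _))
  have e3 : ‖((1 / Real.sin δ : ℝ) : ℂ) * VL (1/2) (fun z => Dz δ z * ∑ q ∈ S, c q * JD (mm q) (nn q) z) -
      ((1 / Real.sin δ : ℝ) : ℂ) * Av ρ (fun z => z * (Dz δ z * ∑ q ∈ S, c q * JD (mm q) (nn q) z))‖ ≤
      2 * C₂ * E * δ ^ (-(7/8) : ℝ) := by
    rw [← mul_sub, norm_mul, Complex.norm_real, Real.norm_of_nonneg (by positivity)]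
    have h2 : 1 / Real.sin δ ≤ 2 / δ := by
      rw [div_le_div_iff₀ hsin0 h0]
      linarith
    have h3 : 2 / δ * δ ^ (1/4 : ℝ) ≤ 2 * δ ^ (-(7/8) : ℝ) := by
      have h4 : δ⁻¹ * δ ^ (1/4 : ℝ) ≤ δ ^ (-(7/8) : ℝ) := by
        rw [← Real.rpow_neg_one, ← Real.rpow_add h0]
        exact Real.rpow_le_rpow_of_exponent_ge h0 (by linarith) (by norm_num)
      calc 2 / δ * δ ^ (1/4 : ℝ) = 2 * (δ⁻¹ * δ ^ (1/4 : ℝ)) := by ring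
        _ ≤ 2 * δ ^ (-(7/8) : ℝ) := by linarith
    calc 1 / Real.sin δ * ‖VL (1/2) (fun z => Dz δ z * ∑ q ∈ S, c q * JD (mm q) (nn q) z) -
          Av ρ (fun z => z * (Dz δ z * ∑ q ∈ S, c q * JD (mm q) (nn q) z))‖
        ≤ 2 / δ * (C₂ * B * δ ^ (1/4 : ℝ)) := mul_le_mul h2 e2 (norm_nonneg _) (by positivity)
      _ = (2 / δ * δ ^ (1/4 : ℝ)) * (C₂ * B) := by ring
      _ ≤ (2 * δ ^ (-(7/8) : ℝ)) * (C₂ * E) := by gcongr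
      _ = _ := by ring
  -- the off-diagonal
  have hJ := O32_OddJ S c mm nn hm hn
  rw [← hB] at hJ
  have e4 := h₃ _ B δ ρ hJ h0 h1 hρ hρ1
  have e5 := O25_odd hJ h0 h1 hρ hρ1 hR hR1
  rw [e5] at e4
  have e6 := O33_sumOff h0 h1 hρ hρ1 S c mm nn hm hn hc
  rw [← e6] at e4
  have e7 := O34_sumDiag h0 h1 S c mm nn hm hn hc
  rw [← e7] at e3
  have hid : ∀ Y Z : ℂ, (∑ q ∈ S, c q * I4p δ (mm q) (nn q)) - Y - Z =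
      (∑ q ∈ S, c q * (I4p δ (mm q) (nn q) - (2 * ((√((mm q:ℝ) * nn q) : ℝ) : ℂ) *
      (∑' k : ℕ, ((dv (nn q * (k + 1)) * dv (mm q * (k + 1)) : ℝ) : ℂ) *
        Jk (Lam (mm q) (nn q)) (pf δ (2 * ((mm q:ℝ) * nn q * (k + 1))) 0))) -
      (2 * ((√((mm q:ℝ) * nn q) : ℝ) : ℂ) * OM δ (mm q) (nn q)))) +
      ((∑ q ∈ S, c q * (2 * ((√((mm q : ℝ) * nn q) : ℝ) : ℂ) *
      (∑' k : ℕ, ((dv (nn q * (k + 1)) * dv (mm q * (k + 1)) : ℝ) : ℂ) *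
        Jk (Lam (mm q) (nn q)) (pf δ (2 * ((mm q : ℝ) * nn q * (k + 1))) 0)))) - Y) +
      ((∑ q ∈ S, c q * (2 * ((√((mm q : ℝ) * nn q) : ℝ) : ℂ) * OM δ (mm q) (nn q))) - Z) := by
    intro Y Z
    simp only [mul_sub, Finset.sum_sub_distrib]
    ring
  rw [hid]
  refine (norm_add_le _ _).trans ?_
  refine (add_le_add (norm_add_le _ _) le_rfl).trans ?_
  have hE0 : 0 ≤ E := hB0.trans hBE
  calc _ ≤ C₁ * E * δ ^ (-(7/8) : ℝ) + 2 * C₂ * E * δ ^ (-(7/8) : ℝ) + C₃ * B * ρ⁻¹ ^ 2 :=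
        add_le_add (add_le_add e1 e3) e4
    _ ≤ C₁ * E * δ ^ (-(7/8) : ℝ) + 2 * C₂ * E * δ ^ (-(7/8) : ℝ) + C₃ * E * ρ⁻¹ ^ 2 := by gcongr
    _ ≤ (C₁ + 2 * C₂ + C₃) * E * (δ ^ (-(7/8) : ℝ) + ρ⁻¹ ^ 2) := by
        have t1 : 0 ≤ C₁ * E * ρ⁻¹ ^ 2 := by positivity
        have t2 : 0 ≤ C₂ * E * ρ⁻¹ ^ 2 := by positivity
        have t3 : 0 ≤ C₃ * E * δ ^ (-(7/8) : ℝ) := by positivity
        nlinarith

end Pool.Agent.LibF4
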